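import Pool.Agent.DHD.TAlg
import Pool.Agent.PT.Core

set_option autoImplicit false

/-!
# Arithmetic operations in polynomial time
-/

namespace Pool.Agent.DHD

namespace ARITH

open Pool.Agent.PT

theorem val_suffix {m l : List Bool} (h : m <:+ l) : val m ≤ val l := by
  obtain ⟨t, rfl⟩ := h
  induction t with
  | nil => simp
  | cons b t ih =>
    rw [List.cons_append, val]
    omega

theorem val_prefix {l₁ : List Bool} {n : ℕ} (h : l₁ <+: n.bits.reverse) :
    val l₁.reverse ≤ n := by
  have h1 : l₁.reverse <:+ n.bits := by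
    rw [← List.reverse_prefix, List.reverse_reverse]
    exact h
  have h2 := val_suffix h1
  rwa [val_bits] at h2

/-! ### Multiplication -/

theorem mul_foldl (a : ℕ) (l : List Bool) :
    l.foldl (fun s b => s + s + (if b = true then a else 0)) 0 = a * val l.reverse := by
  have key : ∀ l : List Bool,
      l.foldr (fun b s => s + s + (if b = true then a else 0)) 0 = a * val l := by
    intro l
    induction l with
    | nil => simp [val]
    | cons b l ih =>
      rw [List.foldr_cons, ih, val]
      cases b
      · simp; ring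
      · simp; ring
  have h := key l.reverse
  rw [← List.foldl_reverse, List.reverse_reverse] at h
  exact h

theorem size_mul_le (a b : ℕ) : (a * b).size ≤ a.size + b.size := by
  rw [Nat.size_le, pow_add]
  rcases Nat.eq_zero_or_pos b with h | h
  · subst h
    simp
  · calc a * b < 2 ^ a.size * b := Nat.mul_lt_mul_of_pos_right (Nat.lt_size_self a) h
      _ ≤ 2 ^ a.size * 2 ^ b.size := Nat.mul_le_mul_left _ (Nat.lt_size_self b).le

theorem sz_mul_le (a b : ℕ) : sz (a * b) ≤ 2 * (sz a + sz b) := by
  rw [sz_nat, sz_nat a, sz_nat b]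
  have h1 := sz_bits_le (a * b).bits
  have h2 := le_sz_bits a.bits
  have h3 := le_sz_bits b.bits
  rw [Nat.size_eq_bits_len] at h1 h2 h3
  have h4 := size_mul_le a b
  omega

variable {γ : Type} [Dat γ] [hC : Fact Core]

@[fun_prop] theorem nat_mul {f g : γ → ℕ} (hf : PolyF f) (hg : PolyF g) :
    PolyF (fun x => f x * g x) := by
  have h1 : PolyF (fun p : ℕ × ℕ => p.2.bits.reverse.foldl
      (fun s b => s + s + (if b = true then p.1 else 0)) 0) := by
    refine PolyF.foldl (f := fun (p : ℕ × ℕ) (s : ℕ) (b : Bool) =>
      s + s + (if b = true then p.1 else 0)) (by fun_prop) (by fun_prop) (by fun_prop)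
      (fun p => 4 * sz p) ((PolyB.const 4).mul PolyB.sz) ?_
    rintro ⟨a, b⟩ l₁ hl₁
    show sz (l₁.foldl (fun s b => s + s + (if b = true then a else 0)) 0) ≤ _
    rw [mul_foldl]
    have h2 : a * val l₁.reverse ≤ a * b := Nat.mul_le_mul_left _ (val_prefix hl₁)
    have h3 := sz_nat_mono h2
    have h4 := sz_mul_le a b
    rw [sz_pair]
    omega
  have h2 : PolyF (fun p : ℕ × ℕ => p.1 * p.2) := by
    refine h1.congr (fun p => ?_)
    rw [mul_foldl, List.reverse_reverse, val_bits]
  exact h2.comp (hf.pair hg)

/-! ### Subtraction -/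

omit hC in
theorem bits_getD_succ (n i : ℕ) : n.bits.getD (i + 1) false = (n / 2).bits.getD i false := by
  have h : (n / 2).bits = n.bits.tail := by
    rw [← Nat.div2_bits_eq_tail, Nat.div2_val]
  rw [h]
  cases n.bits <;> simp

omit hC in
theorem bits_getD_zero (n : ℕ) : n.bits.getD 0 false = decide (n % 2 = 1) := by
  rw [← bits_headD]
  cases n.bits <;> simp

omit hC in
theorem val_range_bits (T : ℕ) : ∀ n : ℕ,
    val ((List.range T).map fun i => n.bits.getD i false) = n % 2 ^ T := by
  induction T with
  | zero => intro n; simp [val, Nat.mod_one]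
  | succ T ih =>
    intro n
    rw [List.range_succ_eq_map, List.map_cons, List.map_map, val]
    have h : ((fun i => n.bits.getD i false) ∘ Nat.succ) = fun i => (n / 2).bits.getD i false := by
      funext i
      exact bits_getD_succ n i
    rw [h, ih, bits_getD_zero, pow_succ', Nat.mod_mul]
    rcases Nat.mod_two_eq_zero_or_one n with h1 | h1 <;> simp [h1]

omit hC in
theorem val_compl (T : ℕ) : ∀ c : ℕ → Bool,
    val ((List.range T).map fun i => !(c i)) + val ((List.range T).map c) + 1 = 2 ^ T := by
  induction T with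
  | zero => intro c; simp [val]
  | succ T ih =>
    intro c
    rw [List.range_succ_eq_map, List.map_cons, List.map_cons, List.map_map, List.map_map, val, val]
    have h := ih (fun i => c (i + 1))
    have h1 : ((fun i => !(c i)) ∘ Nat.succ) = fun i => !(c (i + 1)) := rfl
    have h2 : (c ∘ Nat.succ) = fun i => c (i + 1) := rfl
    rw [h1, h2, pow_succ]
    cases c 0 <;> simp <;> omega

omit hC in
theorem sub_eq (a b : ℕ) (h : b ≤ a) :
    val ((List.range (a.bits ++ b.bits).length).map fun i =>
      (a + val ((List.range (a.bits ++ b.bits).length).map fun i =>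
        !(b.bits.getD i false)) + 1).bits.getD i false) = a - b := by
  set T := (a.bits ++ b.bits).length with hT
  rw [val_range_bits]
  have h1 := val_compl T (fun i => b.bits.getD i false)
  rw [val_range_bits] at h1
  have ha : a < 2 ^ T := by
    refine lt_of_lt_of_le (Nat.lt_size_self a) (Nat.pow_le_pow_right (by norm_num) ?_)
    rw [hT, List.length_append, Nat.size_eq_bits_len]
    omega
  have hb : b < 2 ^ T := by omega
  rw [Nat.mod_eq_of_lt hb] at h1
  have h2 : a + val ((List.range T).map fun i => !(b.bits.getD i false)) + 1 =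
      (a - b) + 2 ^ T := by omega
  rw [h2, Nat.add_mod_right, Nat.mod_eq_of_lt (by omega)]

@[fun_prop] theorem nat_sub {f g : γ → ℕ} (hf : PolyF f) (hg : PolyF g) :
    PolyF (fun x => f x - g x) := by
  have h1 : PolyF (fun p : ℕ × ℕ => val ((List.range (p.1.bits ++ p.2.bits).length).map fun i =>
      !(p.2.bits.getD i false))) := by
    refine PolyF.val (PolyF.map (f := fun (p : ℕ × ℕ) (i : ℕ) => !(p.2.bits.getD i false)) ?_ ?_)
    · fun_prop
    · fun_prop
  have h2 : PolyF (fun p : ℕ × ℕ => (p.1 + val ((List.range (p.1.bits ++ p.2.bits).length).map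
      fun i => !(p.2.bits.getD i false)) + 1).bits) := by
    exact (((PolyF.fst PolyF.id).nat_add h1).nat_add (PolyF.const 1)).bits
  have h3 : PolyF (fun p : ℕ × ℕ => val ((List.range (p.1.bits ++ p.2.bits).length).map fun i =>
      (p.1 + val ((List.range (p.1.bits ++ p.2.bits).length).map fun i =>
        !(p.2.bits.getD i false)) + 1).bits.getD i false)) := by
    refine PolyF.val (PolyF.map (f := fun (p : ℕ × ℕ) (i : ℕ) =>
      (p.1 + val ((List.range (p.1.bits ++ p.2.bits).length).map fun i =>
        !(p.2.bits.getD i false)) + 1).bits.getD i false) ?_ ?_)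
    · refine PolyF.getD ?_ (PolyF.snd PolyF.id) (PolyF.const false)
      exact h2.comp (PolyF.fst PolyF.id)
    · fun_prop
  have h4 : PolyF (fun p : ℕ × ℕ => p.1 - p.2) := by
    refine (PolyF.iteb (h := fun p : ℕ × ℕ => decide (p.2 ≤ p.1)) (by fun_prop) h3
      (PolyF.const 0)).congr (fun p => ?_)
    by_cases hp : p.2 ≤ p.1
    · rw [if_pos (by simpa using hp), sub_eq _ _ hp]
    · rw [if_neg (by simpa using hp)]
      omega
  exact h4.comp (hf.pair hg)

/-! ### Division -/

/-- one step of the long division -/
def divStep (d : ℕ) (s : ℕ × ℕ) (b : Bool) : ℕ × ℕ :=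
  if (decide (0 < d) && decide (d ≤ s.2 + s.2 + (if b = true then 1 else 0))) = true then
    (s.1 + s.1 + 1, s.2 + s.2 + (if b = true then 1 else 0) - d)
  else (s.1 + s.1, s.2 + s.2 + (if b = true then 1 else 0))

omit hC in
theorem divStep_eq (d v : ℕ) (b : Bool) :
    divStep d (v / d, v % d) b =
      (((if b = true then 1 else 0) + 2 * v) / d, ((if b = true then 1 else 0) + 2 * v) % d) := by
  rcases Nat.eq_zero_or_pos d with h | h
  · subst h
    simp [divStep]
    omega
  · unfold divStep
    have h1 := Nat.div_add_mod v d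
    have h2 := Nat.mod_lt v h
    set q := v / d
    set r := v % d
    have hb : (if b = true then 1 else 0) ≤ 1 := by split <;> omega
    set c := (if b = true then 1 else 0) with hc
    by_cases h3 : d ≤ r + r + c
    · rw [if_pos (by simp [h, h3])]
      have h4 : c + 2 * v = (r + r + c - d) + d * (q + q + 1) := by
        have : d * (q + q + 1) = 2 * (d * q) + d := by ring
        omega
      have h5 : r + r + c - d < d := by omega
      rw [h4, Nat.add_mul_div_left _ _ h, Nat.add_mul_mod_self_left, Nat.div_eq_of_lt h5,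
        Nat.mod_eq_of_lt h5]
      simp
    · rw [if_neg (by simp [h3])]
      have h4 : c + 2 * v = (r + r + c) + d * (q + q) := by
        have : d * (q + q) = 2 * (d * q) := by ring
        omega
      have h5 : r + r + c < d := by omega
      rw [h4, Nat.add_mul_div_left _ _ h, Nat.add_mul_mod_self_left, Nat.div_eq_of_lt h5,
        Nat.mod_eq_of_lt h5]
      simp

omit hC in
theorem div_foldl (d : ℕ) (l : List Bool) :
    l.foldl (divStep d) (0, 0) = (val l.reverse / d, val l.reverse % d) := by
  have key : ∀ l : List Bool,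
      l.foldr (fun b s => divStep d s b) (0, 0) = (val l / d, val l % d) := by
    intro l
    induction l with
    | nil => simp [val]
    | cons b l ih =>
      rw [List.foldr_cons, ih, val, divStep_eq]
  have h := key l.reverse
  rw [← List.foldl_reverse, List.reverse_reverse] at h
  exact h

theorem nat_divmod {f g : γ → ℕ} (hf : PolyF f) (hg : PolyF g) :
    PolyF (fun x => (f x / g x, f x % g x)) := by
  have h1 : PolyF (fun p : ℕ × ℕ => p.1.bits.reverse.foldl (divStep p.2) (0, 0)) := by
    refine PolyF.foldl (f := fun (p : ℕ × ℕ) (s : ℕ × ℕ) (b : Bool) => divStep p.2 s b)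
      ?_ (by fun_prop) (by fun_prop)
      (fun p => 4 * sz p + 1) (((PolyB.const 4).mul PolyB.sz).add (PolyB.const 1)) ?_
    · unfold divStep
      fun_prop
    · rintro ⟨a, d⟩ l₁ hl₁
      show sz (l₁.foldl (divStep d) (0, 0)) ≤ _
      rw [div_foldl, sz_pair]
      have h2 := val_prefix hl₁
      have h3 : val l₁.reverse / d ≤ a := (Nat.div_le_self _ _).trans h2
      have h4 : val l₁.reverse % d ≤ a := (Nat.mod_le _ _).trans h2
      have h5 := sz_nat_mono h3
      have h6 := sz_nat_mono h4
      rw [sz_pair]
      omega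
  have h2 : PolyF (fun p : ℕ × ℕ => (p.1 / p.2, p.1 % p.2)) := by
    refine h1.congr (fun p => ?_)
    rw [div_foldl, List.reverse_reverse, val_bits]
  exact h2.comp (hf.pair hg)

@[fun_prop] theorem nat_div {f g : γ → ℕ} (hf : PolyF f) (hg : PolyF g) :
    PolyF (fun x => f x / g x) := (nat_divmod hf hg).fst

@[fun_prop] theorem nat_mod {f g : γ → ℕ} (hf : PolyF f) (hg : PolyF g) :
    PolyF (fun x => f x % g x) := (nat_divmod hf hg).snd

end ARITH

theorem tARITH : T_ARITH := by
  have : Fact Pool.Agent.PT.Core := ⟨Pool.Agent.PT.core⟩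
  intro γ _ f g hf hg
  exact ⟨ARITH.nat_mul hf hg, ARITH.nat_sub hf hg, ARITH.nat_div hf hg, ARITH.nat_mod hf hg⟩

end Pool.Agent.DHD
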