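import Pool.Agent.DHD.TAlg

set_option autoImplicit false

/-!
# ALGF: the algorithm is correct for suitable constants
-/

namespace Pool.Agent.DHD

open Finset
open Pool.Agent.SLN (Lit Satisfiable)
open Pool.Agent.H44 (minLargest)

namespace ALGF

theorem length_pwL (z : List Unit) (C : ℕ) : (pwL z C).length = z.length ^ C := by
  induction C with
  | zero => simp [pwL]
  | succ C ih => simp [pwL, ih, pow_succ]

theorem length_zL (Z₀ : ℕ) (φ : List (List Lit)) :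
    (zL Z₀ φ).length = Z₀ + (szOf φ).length := by
  simp [zL]

theorem mem_prodL {α β : Type} (l : List α) (m : List β) (p : α × β) :
    p ∈ prodL l m ↔ p.1 ∈ l ∧ p.2 ∈ m := by
  obtain ⟨a, c⟩ := p
  simp [prodL]

theorem mem_rng (b : List Unit) (n : ℕ) : n ∈ rng b ↔ n < b.length := by
  simp [rng]

theorem mem_parsL (b : List Unit) (π : LPar) : π ∈ parsL b ↔
    ((π.1.1 < b.length ∧ π.1.2 < b.length) ∧ (π.2.1.1 < b.length ∧ π.2.1.2 < b.length) ∧
      (π.2.2.1.1 < b.length ∧ π.2.2.1.2 < b.length) ∧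
      (π.2.2.2.1 < b.length ∧ π.2.2.2.2 < b.length)) := by
  simp only [parsL, mem_prodL, mem_rng]

theorem length_sysOf (φ : List (List Lit)) : (sysOf φ).2.2.length = (sysOf φ).1 := by
  simp only [sysOf, List.length_append, List.length_map]
  ring

theorem headD_mem {α : Type} (l : List α) (d : α) (h : l ≠ []) : l.headD d ∈ l := by
  cases l with
  | nil => exact absurd rfl h
  | cons a t => simp

end ALGF

open ALGF in
theorem tALGF (hNT : T_NT) (hRUNTC : T_RUNTC) (hRUNTS : T_RUNTS) (hRUNG : T_RUNG) (hOKB : T_OKB)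
    (hGOODB : T_GOODB) (hCNF : T_CNF) (hCNFOK : T_CNFOK) : T_ALGF := by
  obtain ⟨Z₁, C₀, hNT⟩ := hNT
  refine ⟨C₀ + 1, max Z₁ 2, fun φ => ?_⟩
  obtain ⟨z, hz⟩ : ∃ z, z = zL (max Z₁ 2) φ := ⟨_, rfl⟩
  obtain ⟨b, hb⟩ : ∃ b, b = pwL z (C₀ + 1) := ⟨_, rfl⟩
  have hlen : z.length = max Z₁ 2 + (szOf φ).length := by rw [hz, length_zL]
  have hZ1 : Z₁ ≤ z.length := by
    have := le_max_left Z₁ 2
    omega
  have hZ2 : 2 ≤ z.length := by
    have := le_max_right Z₁ 2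
    omega
  have hblen : b.length = z.length ^ (C₀ + 1) := by rw [hb, length_pwL]
  have hlt : z.length ^ C₀ < b.length := by
    rw [hblen, pow_succ]
    have : 0 < z.length ^ C₀ := by positivity
    nlinarith
  have hSok : (sysOf φ).Ok z.length := ⟨hCNFOK φ _ (by omega), length_sysOf φ⟩
  -- the parameters of the number theoretic theorem
  obtain ⟨π, hπ, hM, hN, hP1, hP2, hQ1, hQ2, hD, hE⟩ := hNT z.length hZ1
  have hmem : ((π.M, π.N), (π.P1, π.P2), (π.Q1, π.Q2), (π.D, π.E)) ∈ parsL b := by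
    rw [mem_parsL]
    exact ⟨⟨hM.trans_lt hlt, hN.trans_lt hlt⟩, ⟨hP1.trans_lt hlt, hP2.trans_lt hlt⟩,
      ⟨hQ1.trans_lt hlt, hQ2.trans_lt hlt⟩, ⟨hD.trans_lt hlt, hE.trans_lt hlt⟩⟩
  obtain ⟨π', hπ'⟩ : ∃ π' : LPar,
      π' = ((π.M, π.N), (π.P1, π.P2), (π.Q1, π.Q2), (π.D, π.E)) := ⟨_, rfl⟩
  have hpar : π'.par = π := by rw [hπ']; rfl
  rw [← hπ'] at hmem
  have hok : okB z.length π' = true := by
    rw [(hOKB z.length π').1, hpar]
    exact ⟨hπ.ok, hπ.Z_big, hπ.Z_lt, hπ.D_eq, hπ.N_big⟩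
  have hNb : π'.par.N < b.length := by rw [hpar]; omega
  have hT : (runT b π' (sysOf φ) z.length).2.2 = true :=
    hRUNTC b π' _ _ hSok hok hNb (by rw [hpar]; exact hπ)
  have hTh := hRUNTS b π' _ _ hSok hok hNb hT
  have hG := hRUNG b π' _ _ _ hSok hok hNb hTh
  have hgood : goodB b (sysOf φ) z.length π' = true := by
    simp only [goodB, hok, hT, hG.1, Bool.and_true]
  -- the parameters chosen by the algorithm
  obtain ⟨ρ, hρ⟩ : ∃ ρ : LPar, ρ = ((parsL b).filter (goodB b (sysOf φ) z.length)).headD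
      ((0, 0), (0, 0), (0, 0), (0, 0)) := ⟨_, rfl⟩
  have hρmem : ρ ∈ (parsL b).filter (goodB b (sysOf φ) z.length) := by
    rw [hρ]
    apply headD_mem
    intro h0
    have : π' ∈ (parsL b).filter (goodB b (sysOf φ) z.length) := List.mem_filter.2 ⟨hmem, hgood⟩
    rw [h0] at this
    simp at this
  obtain ⟨hρ1, hρ2⟩ := List.mem_filter.1 hρmem
  have hρN : ρ.par.N < b.length := ((mem_parsL b ρ).1 hρ1).1.2
  have halgo : algo (C₀ + 1) (max Z₁ 2) φ = outB b (sysOf φ) z.length ρ := by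
    rw [hρ, hb, hz]
    rfl
  obtain ⟨h1, h2, h3⟩ := hGOODB b ρ _ _ hSok hρN hρ2
  rw [halgo, ← hz, ← hb]
  exact ⟨h1, h2, hρN, h3.trans (hCNF φ).symm⟩

end Pool.Agent.DHD
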