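import Pool.Agent.DHD.Sys

set_option autoImplicit false

/-!
# Targets, part 3: existence of gadgets (proofs: Blueprint.lean.txt)
-/

namespace Pool.Agent.DHD

open Finset
open scoped Classical

/-! ## The statement needed for the algorithm -/

/-- the number of private primes which admit a gadget -/
noncomputable def cnt (π : Par) (l l' : ℕ) (r r' : ℤ) : ℕ :=
  #{P ∈ Ioc π.P1 π.P2 | ∃ u v, Gad π l l' r r' P u v}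

/-- the primes for the vertices -/
noncomputable def pool (π : Par) : Finset ℕ := {p ∈ Ioc π.Q1 π.Q2 | p.Prime}

/-- all but few pairs of residues admit at least `k Z` private primes -/
def GoodPair (π : Par) (Z k l l' : ℕ) : Prop :=
  #{r ∈ range l ×ˢ range l' | cnt π l l' r.1 r.2 < k * Z} * Z ^ 8 ≤ l * l'

/-- the number of copies -/
def Par.k (π : Par) : ℕ := 60 * (π.K1 + 6)

/-- the properties of the parameters used by the algorithm -/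
structure Par.NT (π : Par) (Z : ℕ) : Prop where
  ok : π.Ok
  Z_big : 100 ≤ Z
  Z_lt : Z * Z + Z < π.Q1
  D_eq : π.D = Z ^ 2
  N_big : 3 * (π.k * Z) + π.K1 + 10 ≤ π.N
  Q_small : π.Q2 ≤ 2 * π.Q1
  QQ : π.Q2 ^ 2 ≤ π.N
  pool_big : 100 * (π.k * Z ^ 3) ≤ #(pool π)
  pairs : #{l ∈ pool π ×ˢ pool π | l.1 ≠ l.2 ∧ ¬ GoodPair π Z π.k l.1 l.2} * Z ^ 8 ≤
    #(pool π) ^ 2

/-- NT: good parameters exist, and they are polynomially bounded -/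
def T_NT : Prop := ∃ Z₀ C : ℕ, ∀ Z, Z₀ ≤ Z → ∃ π : Par, π.NT Z ∧ π.M ≤ Z ^ C ∧ π.N ≤ Z ^ C ∧
  π.P1 ≤ Z ^ C ∧ π.P2 ≤ Z ^ C ∧ π.Q1 ≤ Z ^ C ∧ π.Q2 ≤ Z ^ C ∧ π.D ≤ Z ^ C ∧ π.E ≤ Z ^ C

/-- COPY: for given used primes `U` there is an assignment of primes to the vertices of one copy,
and a multiplier `al`, such that every column admits many private primes. -/
def T_COPY : Prop := ∀ (π : Par) (S : BSys) (Z : ℕ) (e : ℕ → ℕ) (U : Finset ℕ), π.NT Z → S.Ok Z →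
  (∀ i < #(pool π), e i ∈ pool π) →
  (∀ i < #(pool π), ∀ j < #(pool π), e i = e j → i = j) → #U ≤ π.k * Z →
  ∃ a b al, 0 < b ∧ b ≤ π.Q2 ∧ a ≤ π.Q2 ∧ al < π.Q2 ^ 2 ∧
    (∀ x < S.n, a + b * x < #(pool π) ∧ e (a + b * x) ∉ U ∧ ¬ e (a + b * x) ∣ al) ∧
    ∀ t < S.m, π.k * Z ≤ cnt π (e (a + b * S.x t)) (e (a + b * S.y t)) (S.a t * al) (S.b t * al)

/-! ## The additive large sieve -/

/-- `e(x) = exp(2 pi i x)` -/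
noncomputable def ex (x : ℝ) : ℂ := Complex.exp (2 * Real.pi * x * Complex.I)

/-- LS: the large sieve inequality (with a logarithm) -/
def T_LS : Prop := ∀ (s : Finset ℝ) (δ : ℝ) (K h : ℕ) (a : ℕ → ℝ), 0 < δ → δ ≤ 1 / 2 →
  (∀ x ∈ s, ∀ y ∈ s, x ≠ y → δ ≤ |x - y - round (x - y)|) →
  ∑ x ∈ s, ‖∑ n ∈ Ioc K (K + h), (a n : ℂ) * ex (n * x)‖ ^ 2 ≤
    (h + 2 / δ * (1 + Real.log (1 / δ))) * ∑ n ∈ Ioc K (K + h), a n ^ 2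

/-- the variance of the weights `a` on `s` in the residue classes modulo `q` -/
noncomputable def vr (q : ℕ) (s : Finset ℕ) (a : ℕ → ℝ) : ℝ :=
  ∑ b ∈ range q, ((∑ n ∈ s with n % q = b, a n) - (∑ n ∈ s, a n) / q) ^ 2

/-- PARS: Parseval -/
def T_PARS : Prop := ∀ (q : ℕ) (s : Finset ℕ) (a : ℕ → ℝ), 0 < q →
  q * vr q s a = ∑ t ∈ Ioo 0 q, ‖∑ n ∈ s, (a n : ℂ) * ex (n * ((t : ℝ) / q))‖ ^ 2

/-- VAR: the variance for the products of two different primes, on average -/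
def T_VAR : Prop := ∀ (L : Finset ℕ) (Q K h : ℕ) (a : ℕ → ℝ) (Λ : ℝ), 2 ≤ Q →
  (∀ l ∈ L, l.Prime ∧ l ≤ Q) → 2 + 8 * Real.log Q ≤ Λ →
  ∑ p ∈ (L ×ˢ L) with p.1 ≠ p.2, (p.1 * p.2 : ℝ) * vr (p.1 * p.2) (Ioc K (K + h)) a ≤
    (2 * (h + Q ^ 4 * Λ) + 2 * #L * (h + Q ^ 2 * Λ)) * ∑ n ∈ Ioc K (K + h), a n ^ 2

/-! ## The spectral gap for convolutions on a finite abelian group -/

section
variable {G : Type} [CommGroup G] [Fintype G]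

/-- convolution -/
noncomputable def conv (μ f : G → ℝ) (g : G) : ℝ := ∑ h, μ h * f (h⁻¹ * g)

/-- convolution powers -/
noncomputable def cpow (μ : G → ℝ) : ℕ → G → ℝ
  | 0 => fun g => if g = 1 then 1 else 0
  | k + 1 => conv μ (cpow μ k)

end

/-- SPEC: equidistribution of a power gives a spectral gap -/
def T_SPEC : Prop := ∀ (G : Type) [CommGroup G] [Fintype G] (μ f : G → ℝ) (j : ℕ) (c : ℝ),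
  ∑ g, f g = 0 →
  (∑ g, conv μ f g ^ 2) ^ 2 ^ j ≤
    (Fintype.card G * ∑ g, (cpow μ (2 ^ j) g - c) ^ 2) * (∑ g, f g ^ 2) ^ 2 ^ j

/-- the number of representations of `n` as an ordered product of `k` members of `A` -/
noncomputable def nu (A : Finset ℕ) (k n : ℕ) : ℕ :=
  #{t ∈ Fintype.piFinset (fun _ : Fin k => A) | ∏ i, t i = n}

/-- NUL: products of primes have few representations -/
def T_NUL : Prop := ∀ (A : Finset ℕ) (R k : ℕ), (∀ a ∈ A, a.Prime ∧ a ≤ R) →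
  ∑ n ∈ Ioc 0 (R ^ k), (nu A k n : ℝ) ^ 2 ≤ k.factorial * #A ^ k

/-- the number of members of `A` in a class -/
noncomputable def cA (q : ℕ) (A : Finset ℕ) (g : (ZMod q)ˣ) : ℝ :=
  #{a ∈ A | ((a : ℕ) : ZMod q) = g}

/-- NU: the convolution powers on the group of units and the integers -/
def T_NU : Prop := ∀ (q : ℕ) [NeZero q] (A : Finset ℕ) (R k : ℕ),
  (∀ a ∈ A, 0 < a ∧ a ≤ R ∧ a.Coprime q) →
  ∑ g : (ZMod q)ˣ, (cpow (cA q A) k g - (#A : ℝ) ^ k / q) ^ 2 ≤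
    vr q (Ioc 0 (R ^ k)) fun n => nu A k n

/-! ## Counting for one modulus -/

/-- STEPA: many pairs in the same class -/
def T_STEPA : Prop := ∀ (q κ K h : ℕ) (s t : Finset ℕ), 0 < q → s ⊆ Ioc K (K + h) →
  (∀ b, #{v ∈ t | v % q = b} ≤ κ) →
  vr q (Ioc K (K + h)) (fun n => if n ∈ s then 1 else 0) * (#t * κ) * (4 * q ^ 2) ≤
    ((#s : ℝ) * #t) ^ 2 →
  #s * #t ≤ 2 * q * #{w ∈ s ×ˢ t | w.1 % q = w.2 % q}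

/-- the pairs `(P, v)` with `P < v` and `q ∣ v - P` -/
def Wset (q : ℕ) (Ps Vs : Finset ℕ) : Finset (ℕ × ℕ) :=
  {w ∈ Ps ×ˢ Vs | w.1 < w.2 ∧ q ∣ w.2 - w.1}

/-- `u = (v - P)/q` -/
def uw (q : ℕ) (w : ℕ × ℕ) : ℕ := (w.2 - w.1) / q

/-- the number of pairs for which `u P` is in the class `τ` -/
noncomputable def wcl (q : ℕ) (Ps Vs : Finset ℕ) (τ : (ZMod q)ˣ) : ℕ :=
  #{w ∈ Wset q Ps Vs | ((uw q w * w.1 : ℕ) : ZMod q) = τ}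

/-- the number of `(a, (P, v))` for which `a u P` is in the class `τ` -/
noncomputable def Fcl (q : ℕ) (A Ps Vs : Finset ℕ) (τ : (ZMod q)ˣ) : ℕ :=
  #{w ∈ A ×ˢ Wset q Ps Vs | ((w.1 * (uw q w.2 * w.2.1) : ℕ) : ZMod q) = τ}

/-- W2: the second moment -/
def T_W2 : Prop := ∀ (q : ℕ) [NeZero q] (X hp V hv : ℕ) (Ps Vs : Finset ℕ),
  (∀ P ∈ Ps, X < P + hp ∧ P ≤ X ∧ P.Coprime q) → (∀ v ∈ Vs, V < v + hv ∧ v ≤ V) →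
  (∀ w ∈ Wset q Ps Vs, (uw q w).Coprime q) →
  ∑ τ, wcl q Ps Vs τ = #(Wset q Ps Vs) ∧
  ∑ τ, wcl q Ps Vs τ ^ 2 ≤ #(Wset q Ps Vs) * (((hv + hp) / q + 1) * (hp / q + 1))

/-- STEPB: multiplication by the members of `A` spreads the classes -/
def T_STEPB : Prop := ∀ (q : ℕ) [NeZero q] (R Z j : ℕ) (A Ps Vs : Finset ℕ), 0 < Z →
  (∀ a ∈ A, 0 < a ∧ a ≤ R ∧ a.Coprime q) → A.Nonempty →
  (∀ P ∈ Ps, P.Coprime q) → (∀ w ∈ Wset q Ps Vs, (uw q w).Coprime q) →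
  q * vr q (Ioc 0 (R ^ 2 ^ j)) (fun n => nu A (2 ^ j) n) * (Z : ℝ) ^ (14 * 2 ^ j) ≤
    (#A : ℝ) ^ (2 * 2 ^ j) →
  #{τ : (ZMod q)ˣ | 2 * q * Fcl q A Ps Vs τ < #A * #(Wset q Ps Vs)} * Z ^ 14 *
    #(Wset q Ps Vs) ^ 2 ≤ 4 * q ^ 2 * ∑ τ, wcl q Ps Vs τ ^ 2

/-- CRT: pairs of residues and units modulo `l l'` -/
def T_CRT : Prop := ∀ (l l' : ℕ), l.Prime → l'.Prime → l ≠ l' →
  ∃ f : ℕ × ℕ → (ZMod (l * l'))ˣ,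
    (∀ r s : ℕ × ℕ, 0 < r.1 → r.1 < l → 0 < r.2 → r.2 < l' → 0 < s.1 → s.1 < l → 0 < s.2 →
      s.2 < l' → f r = f s → r = s) ∧
    ∀ (r : ℕ × ℕ) (n : ℕ), 0 < r.1 → r.1 < l → 0 < r.2 → r.2 < l' →
      ((n : ℕ) : ZMod (l * l')) = f r →
      (l : ℤ) ∣ (r.1 : ℤ) * (n * l') - 1 ∧ (l' : ℤ) ∣ (r.2 : ℤ) * (n * l) - 1

/-- the triples `(a, (P, v))` which violate the condition `c1` -/
noncomputable def Rm (π : Par) (l l' : ℕ) (A Ps Vs : Finset ℕ) : Finset (ℕ × ℕ × ℕ) :=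
  {w ∈ A ×ˢ Wset (l * l') Ps Vs | ∃ j p, w.2.1 * j ≤ π.N ∧
    j % w.2.1 = (w.1 * w.2.2) % w.2.1 ∧ p.Prime ∧ π.Q1 < p ∧ p ≤ π.Q2 ∧ p ∣ j ∧
    j ≠ l * l' * (w.1 * uw (l * l') w.2)}

/-- C1: few triples violate the condition `c1` -/
def T_C1 : Prop := ∀ (π : Par) (l l' R V hp hv I : ℕ) (A Ps Vs : Finset ℕ), π.Ok →
  l.Prime → l'.Prime → l ≠ l' → π.Q1 < l → l ≤ π.Q2 → π.Q1 < l' → l' ≤ π.Q2 →
  π.P1 + hp = π.P2 → π.N ≤ I * π.P1 ^ 2 → R + I < π.Q1 →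
  (∀ a ∈ A, Smooth π.M a ∧ a ≤ R) → (∀ P ∈ Ps, P.Prime ∧ π.P1 < P ∧ P ≤ π.P2) →
  (∀ v ∈ Vs, Smooth π.M v ∧ V < v + hv ∧ v ≤ V) → π.P2 * (R * V) ≤ π.N →
  #(Rm π l l' A Ps Vs) ≤ #A * ((2 * I + 1) * (π.Q2 - π.Q1) *
    (((hv + hp) / (l * l') + 1) * (hp / π.Q1 + 1)))

/-- GADOK: the conditions on a gadget -/
def T_GADOK : Prop := ∀ (π : Par) (l l' R ha V hv hp H a P v : ℕ) (r r' : ℤ), π.Ok →
  l.Prime → l'.Prime → l ≠ l' → π.Q1 < l → l ≤ π.Q2 → π.Q1 < l' → l' ≤ π.Q2 →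
  π.P1 + hp = π.P2 → π.N = R * V * π.P2 → 2 * V = (2 * H + 1) * π.P2 →
  a % 2 = 1 → Smooth π.M a → R < a + ha → a ≤ R → P.Prime → π.P1 < P → P ≤ π.P2 →
  Smooth π.M v → V < v + hv → v ≤ V → P < v → l * l' ∣ v - P →
  π.N * (π.D - 1) ≤ π.D * (π.P1 * ((R - ha) * (V - hv - π.P2))) →
  V ≤ π.M * π.Q1 ^ 2 → π.M ^ 2 * R ≤ π.P2 → 8 * (R * (H + 1) * hp + R * hv + hp) ≤ π.P2 →
  8 * π.E ≤ π.P2 →
  (l : ℤ) ∣ r * (a * ((v - P) / (l * l') * P : ℕ) * l') - 1 →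
  (l' : ℤ) ∣ r' * (a * ((v - P) / (l * l') * P : ℕ) * l) - 1 →
  (∀ j p, P * j ≤ π.N → j % P = (a * v) % P → p.Prime → π.Q1 < p → p ≤ π.Q2 → p ∣ j →
    j = l * l' * (a * ((v - P) / (l * l')))) →
  Gad π l l' r r' P (a * ((v - P) / (l * l'))) (a * v)

/-- PAIR: a pair of primes is good -/
def T_PAIR : Prop := ∀ (π : Par) (l l' R ha V hv hp H I Z k : ℕ) [NeZero (l * l')]
  (A Ps Vs : Finset ℕ), π.Ok →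
  l.Prime → l'.Prime → l ≠ l' → π.Q1 < l → l ≤ π.Q2 → π.Q1 < l' → l' ≤ π.Q2 →
  π.P1 + hp = π.P2 → π.N = R * V * π.P2 → 2 * V = (2 * H + 1) * π.P2 →
  (∀ a ∈ A, a % 2 = 1 ∧ Smooth π.M a ∧ R < a + ha ∧ a ≤ R) →
  (∀ P ∈ Ps, P.Prime ∧ π.P1 < P ∧ P ≤ π.P2) →
  (∀ v ∈ Vs, Smooth π.M v ∧ V < v + hv ∧ v ≤ V) → A.Nonempty →
  π.N * (π.D - 1) ≤ π.D * (π.P1 * ((R - ha) * (V - hv - π.P2))) →
  V ≤ π.M * π.Q1 ^ 2 → π.M ^ 2 * R ≤ π.P2 → 8 * (R * (H + 1) * hp + R * hv + hp) ≤ π.P2 →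
  8 * π.E ≤ π.P2 → 0 < Z →
  #{τ : (ZMod (l * l'))ˣ | 2 * (l * l') * Fcl (l * l') A Ps Vs τ <
    #A * #(Wset (l * l') Ps Vs)} * Z ^ 14 * #(Wset (l * l') Ps Vs) ^ 2 ≤
      4 * (l * l') ^ 2 * (#(Wset (l * l') Ps Vs) *
        (((hv + hp) / (l * l') + 1) * (hp / (l * l') + 1))) →
  #(Rm π l l' A Ps Vs) ≤ #A * ((2 * I + 1) * (π.Q2 - π.Q1) *
    (((hv + hp) / (l * l') + 1) * (hp / π.Q1 + 1))) →
  8 * Z ^ 8 ≤ π.Q1 →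
  16 * (l * l') * (((hv + hp) / (l * l') + 1) * (hp / (l * l') + 1)) ≤
    Z ^ 6 * #(Wset (l * l') Ps Vs) →
  16 * Z ^ 8 * ((2 * I + 1) * (π.Q2 - π.Q1) * (((hv + hp) / (l * l') + 1) *
    (hp / π.Q1 + 1))) ≤ #(Wset (l * l') Ps Vs) →
  4 * (k * Z) * (l * l') ≤ #(Wset (l * l') Ps Vs) →
  GoodPair π Z k l l'

/-! ## Existence of dense windows -/

/-- WIN: a dense set has a dense window -/
def T_WIN : Prop := ∀ (s : Finset ℕ) (Y h Z : ℕ), (∀ n ∈ s, 0 < n ∧ n ≤ Y) → 0 < h → h ∣ Y →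
  0 < Y → Y ≤ Z * #s → ∃ R, h ∣ R ∧ Y < 4 * (Z * R) ∧ R ≤ Y ∧
    h ≤ 2 * Z * #{n ∈ s | R - h < n ∧ n ≤ R}

/-- PRIMES: there are many primes -/
def T_PRIMES : Prop := ∀ C : ℕ, ∃ Z₀ : ℕ, ∀ Z Y : ℕ, Z₀ ≤ Z → Z ≤ Y → Y ≤ Z ^ C →
  Y ^ 8 ≤ Z * #{p ∈ Ioc 0 Y | p.Prime} ^ 8

/-- SM: there are many smooth numbers in short intervals -/
def T_SM : Prop := ∀ (M V h Z : ℕ) (B : Finset ℕ), 0 < Z → 0 < M → h ≤ V → 2 * M ^ 4 ≤ h →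
  V * Z ^ 4 ≤ M ^ 5 → (∀ p ∈ B, p.Prime ∧ M ≤ p * Z ∧ p ≤ M) →
  #B ^ 4 * h ≤ #{v ∈ Ioc (V - h) V | Smooth M v} * (2 * M ^ 4 * Nat.log 2 V ^ 4)

/-! ## The choice of the parameters -/

/-- The numbers and sets chosen for `Z`: `R`, `X`, `Q` are the right ends of the windows for the
factors `a`, the private primes and the primes of the vertices. -/
structure Ctx where
  Z : ℕ
  R : ℕ
  X : ℕ
  V : ℕ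
  Q : ℕ
  A : Finset ℕ
  Ps : Finset ℕ
  Vs : Finset ℕ
  L : Finset ℕ

/-- the parameters -/
def Ctx.par (c : Ctx) : Par where
  M := c.Z ^ 400
  N := c.R * c.V * c.X
  P1 := c.X - 2 * c.Z ^ 1906
  P2 := c.X
  Q1 := c.Q - c.Z ^ 700
  Q2 := c.Q
  D := c.Z ^ 2
  E := c.X / 8

/-- the properties of the choice -/
structure Ctx.Ok (c : Ctx) : Prop where
  Z_big : 10 ^ 50 ≤ c.Z
  Z_log : Nat.log 2 (c.Z ^ 5000) + 2 ≤ c.Z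
  Z_logr : 2 + 8 * Real.log (c.Z ^ 800 : ℕ) ≤ c.Z
  R_lo : c.Z ^ 80 < 4 * (c.Z * c.R)
  R_hi : c.R ≤ c.Z ^ 80
  X_lo : 2 * c.Z ^ 1992 < 4 * (c.Z * c.X)
  X_hi : c.X ≤ 2 * c.Z ^ 1992
  V_eq : 2 * c.V = (2 * c.Z ^ 3 + 1) * c.X
  Q_lo : c.Z ^ 800 < 4 * (c.Z * c.Q)
  Q_hi : c.Q ≤ c.Z ^ 800
  A_mem : ∀ a ∈ c.A, a.Prime ∧ a % 2 = 1 ∧ c.R - c.Z ^ 75 < a ∧ a ≤ c.R
  A_card : c.Z ^ 75 ≤ 2 * c.Z * #c.A
  Ps_mem : ∀ P ∈ c.Ps, P.Prime ∧ c.X - 2 * c.Z ^ 1906 < P ∧ P ≤ c.X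
  Ps_card : 2 * c.Z ^ 1906 ≤ 2 * c.Z * #c.Ps
  Vs_mem : ∀ v ∈ c.Vs, Smooth (c.Z ^ 400) v ∧ c.V - 2 * c.Z ^ 1909 < v ∧ v ≤ c.V
  Vs_card : 2 * c.Z ^ 1909 ≤ c.Z * #c.Vs
  L_eq : ∀ l, l ∈ c.L ↔ l.Prime ∧ c.Q - c.Z ^ 700 < l ∧ l ≤ c.Q
  L_card : c.Z ^ 700 ≤ 2 * c.Z * #c.L

/-- CTX: the choice is possible -/
def T_CTX : Prop := ∃ Z₀ : ℕ, ∀ Z, Z₀ ≤ Z → ∃ c : Ctx, c.Ok ∧ c.Z = Z

/-- POK: the inequalities between the parameters -/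
def T_POK : Prop := ∀ c : Ctx, c.Ok →
  c.par.Ok ∧ c.Z * c.Z + c.Z < c.par.Q1 ∧ 3 * (c.par.k * c.Z) + c.par.K1 + 10 ≤ c.par.N ∧
  c.par.Q2 ≤ 2 * c.par.Q1 ∧ c.par.Q2 ^ 2 ≤ c.par.N ∧ 100 * (c.par.k * c.Z ^ 3) ≤ #c.L ∧
  c.par.P1 + 2 * c.Z ^ 1906 = c.par.P2 ∧ c.par.Q1 + c.Z ^ 700 = c.par.Q2 ∧
  c.par.N ≤ c.Z ^ 5000 ∧ c.par.k ≤ c.Z ^ 402 ∧
  c.par.N ≤ (2 * c.Z ^ 83) * c.par.P1 ^ 2 ∧ c.R + 2 * c.Z ^ 83 < c.par.Q1 ∧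
  c.par.N * (c.par.D - 1) ≤
    c.par.D * (c.par.P1 * ((c.R - c.Z ^ 75) * (c.V - 2 * c.Z ^ 1909 - c.par.P2))) ∧
  c.V ≤ c.par.M * c.par.Q1 ^ 2 ∧ c.par.M ^ 2 * c.R ≤ c.par.P2 ∧
  8 * (c.R * (c.Z ^ 3 + 1) * (2 * c.Z ^ 1906) + c.R * (2 * c.Z ^ 1909) + 2 * c.Z ^ 1906) ≤
    c.par.P2 ∧ 8 * c.par.E ≤ c.par.P2 ∧ 2 * c.Z ^ 1909 ≤ c.V ∧ c.X < c.V - 2 * c.Z ^ 1909 ∧
  c.Z ^ 75 < c.R ∧ c.V ≤ c.Z ^ 1996

/-- the two conditions under which a pair of primes is good -/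
def Ctx.Good (c : Ctx) (p : ℕ × ℕ) : Prop :=
  (p.1 * p.2 : ℕ) * vr (p.1 * p.2) (Ioc (c.X - 2 * c.Z ^ 1906) c.X)
    (fun n => if n ∈ c.Ps then 1 else 0) * (c.Z : ℝ) ^ 2 ≤ (#c.Ps : ℝ) ^ 2 ∧
  (p.1 * p.2 : ℕ) * vr (p.1 * p.2) (Ioc 0 (c.R ^ 32)) (fun n => nu c.A 32 n) *
    (c.Z : ℝ) ^ (14 * 32) ≤ (#c.A : ℝ) ^ (2 * 32)

/-- MARK: almost all pairs satisfy the two conditions -/
def T_MARK : Prop := ∀ c : Ctx, c.Ok →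
  #{p ∈ c.L ×ˢ c.L | p.1 ≠ p.2 ∧ ¬ c.Good p} * c.Z ^ 8 ≤ #c.L ^ 2

/-- GOOD: under the two conditions a pair of primes is good -/
def T_GOOD : Prop := ∀ c : Ctx, c.Ok → ∀ p : ℕ × ℕ, p.1 ∈ c.L → p.2 ∈ c.L → p.1 ≠ p.2 →
  c.Good p → GoodPair c.par c.Z c.par.k p.1 p.2

end Pool.Agent.DHD
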