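import Pool.Agent.DHD.TCnf
import Pool.Agent.DHD.TNum

set_option autoImplicit false

/-!
# The algorithm

All loops run over lists of polynomial length: `b : List Unit` is a long list, `rng b` the numbers
below its length.
-/

namespace Pool.Agent.DHD

open Pool.Agent.SLN (Lit Sym encBits)

/-! ## Arithmetic predicates -/

/-- the numbers below the length of `b` -/
def rng (b : List Unit) : List ℕ := List.range b.length

/-- primality of `n ≤ b.length` -/
def primeB (b : List Unit) (n : ℕ) : Bool :=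
  decide (2 ≤ n) && (rng b).all fun d => decide (d < 2) || decide (n ≤ d) || !decide (n % d = 0)

/-- `Smooth M u` for `u < b.length` -/
def smoothB (b : List Unit) (M u : ℕ) : Bool :=
  decide (0 < u) && (rng b).all fun p => decide (p ≤ M) || !decide (u % p = 0) || !primeB b p

/-- the residue of `a * α` modulo `l`, as a natural number -/
def resN (a : ℤ) (α l : ℕ) : ℕ :=
  if 0 ≤ a then (a.toNat * α) % l else (l - ((-a).toNat * α) % l) % l

/-- parameters as data: `M`, `N`, `P1`, `P2`, `Q1`, `Q2`, `D`, `E` -/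
abbrev LPar : Type := (ℕ × ℕ) × (ℕ × ℕ) × (ℕ × ℕ) × (ℕ × ℕ)

/-- the parameters -/
def LPar.par (π : LPar) : Par := ⟨π.1.1, π.1.2, π.2.1.1, π.2.1.2, π.2.2.1.1, π.2.2.1.2,
  π.2.2.2.1, π.2.2.2.2⟩

/-- condition `c1` of a gadget -/
def c1B (b : List Unit) (π : LPar) (w P v : ℕ) : Bool :=
  (rng b).all fun j => decide (π.1.2 < P * j) || !decide (j % P = v % P) || decide (j = w) ||
    (rng b).all fun p => !decide (j % p = 0) || decide (p ≤ π.2.2.1.1) || decide (π.2.2.1.2 < p) ||
      !primeB b p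

/-- `Gad` as a Boolean function; `w = l l' u`; the residues are natural numbers -/
def gadB (b : List Unit) (π : LPar) (l l' r r' P u v w : ℕ) : Bool :=
  primeB b P && decide (π.2.1.1 < P) && decide (P ≤ π.2.1.2) && smoothB b π.1.1 u &&
  smoothB b π.1.1 v && decide (w < v) && decide ((v - w) % P = 0) &&
  decide (π.1.2 * (π.2.2.2.1 - 1) ≤ π.2.2.2.1 * (P * w)) && decide (P * v ≤ π.1.2) &&
  decide (π.1.1 * (u * v) ≤ π.1.2) && decide ((r * (P * u * l')) % l = 1) &&
  decide ((r' * (P * u * l)) % l' = 1) && decide (π.2.2.2.2 ≤ w % P) &&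
  decide (w % P + π.2.2.2.2 ≤ P) && c1B b π w P v

/-- the gadgets with the private prime `P` -/
def gadsP (b : List Unit) (π : LPar) (l l' r r' P : ℕ) : List (ℕ × ℕ × ℕ) :=
  (rng b).flatMap fun u => ((rng b).filter fun v => gadB b π l l' r r' P u v (l * l' * u)).map
    fun v => (P, u, v)

/-- the number of private primes which admit a gadget -/
def cntB (b : List Unit) (π : LPar) (l l' r r' : ℕ) : ℕ :=
  (rng b).countP fun P => !(gadsP b π l l' r r' P).isEmpty

/-! ## The parameters -/

/-- the number `K1` -/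
def K1B (π : LPar) : ℕ := 32 * (π.1.1 * π.1.2.bits.length)

/-- the number of copies -/
def kB (π : LPar) : ℕ := 60 * (K1B π + 6)

/-- the primes for the vertices -/
def poolB (b : List Unit) (π : LPar) : List ℕ :=
  (rng b).filter fun p => decide (π.2.2.1.1 < p) && decide (p ≤ π.2.2.1.2) && primeB b p

/-- the inequalities between the parameters; `Z` is the bound -/
def okB (Z : ℕ) (π : LPar) : Bool :=
  decide (2 ≤ π.1.1) && decide (π.1.1 < π.2.2.1.1) && decide (π.2.2.1.2 ≤ π.2.1.1) &&
  decide (2 ≤ π.2.2.2.1) && decide (π.1.1 * π.1.1 ≤ π.1.2) &&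
  decide (π.1.2 < π.2.1.1 * (π.2.1.1 * π.2.1.1)) &&
  decide (π.1.2 < π.2.2.1.1 * (π.2.1.1 * π.2.1.1)) &&
  decide (π.1.2 < (π.2.2.1.1 * (π.2.2.1.1 * π.2.2.1.1)) * (π.2.2.1.1 * (π.2.2.1.1 * π.2.2.1.1))) &&
  decide ((π.2.1.2 - π.2.1.1) * π.1.2 < π.2.2.2.2 * (π.2.1.1 * π.2.1.1)) &&
  decide (100 ≤ Z) && decide (Z * Z + Z < π.2.2.1.1) && decide (π.2.2.2.1 = Z * Z) &&
  decide (3 * (kB π * Z) + K1B π + 10 ≤ π.1.2)

/-- all pairs -/
def prodL {α β : Type} (l : List α) (m : List β) : List (α × β) :=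
  l.flatMap fun a => m.map fun c => (a, c)

/-- all candidates for the parameters -/
def parsL (b : List Unit) : List LPar :=
  prodL (prodL (rng b) (rng b)) (prodL (prodL (rng b) (rng b))
    (prodL (prodL (rng b) (rng b)) (prodL (rng b) (rng b))))

/-! ## The primes of the vertices -/

/-- the assignment for one copy: `a`, `b`, `al` -/
abbrev Th : Type := ℕ × ℕ × ℕ

/-- the prime of the vertex `x` -/
def ellB (pl : List ℕ) (θ : Th) (x : ℕ) : ℕ := pl.getD (θ.1 + θ.2.1 * x) 0

/-- the assignment `θ` is good for one copy, with the used primes `U` -/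
def copyB (b : List Unit) (π : LPar) (S : LSys) (Z : ℕ) (pl U : List ℕ) (θ : Th) : Bool :=
  decide (0 < θ.2.1) &&
  (List.range S.2.2.length).all (fun x => decide (θ.1 + θ.2.1 * x < pl.length) &&
    !(U.any fun p => decide (p = ellB pl θ x)) && !decide (θ.2.2 % ellB pl θ x = 0)) &&
  S.2.1.all fun c => decide (kB π * Z ≤ cntB b π (ellB pl θ c.1.1) (ellB pl θ c.1.2)
    (resN c.2.1 θ.2.2 (ellB pl θ c.1.1)) (resN c.2.2 θ.2.2 (ellB pl θ c.1.2)))

/-- one step: find a good assignment for the next copy.  State: used primes, assignments, flag. -/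
def stepT (b : List Unit) (π : LPar) (S : LSys) (Z : ℕ) (pl : List ℕ)
    (s : List ℕ × List Th × Bool) : List ℕ × List Th × Bool :=
  (((prodL (rng b) (prodL (rng b) (rng b))).filter (copyB b π S Z pl s.1)).take 1).foldl
    (fun _ θ => (s.1 ++ (List.range S.2.2.length).map (ellB pl θ), s.2.1 ++ [θ], s.2.2))
    (s.1, s.2.1, false)

/-- the assignments of all copies -/
def runT (b : List Unit) (π : LPar) (S : LSys) (Z : ℕ) : List ℕ × List Th × Bool :=
  ((rng b).filter fun i => decide (i < kB π)).foldl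
    (fun s _ => stepT b π S Z (poolB b π) s) ([], [], true)

/-! ## The gadgets -/

/-- one step: find a gadget for the next column.  State: used private primes, gadgets, flag. -/
def stepG (b : List Unit) (π : LPar) (pl : List ℕ) (s : List ℕ × List (ℕ × ℕ × ℕ) × Bool)
    (c : Th × Col) : List ℕ × List (ℕ × ℕ × ℕ) × Bool :=
  ((((rng b).filter fun P => !(s.1.any fun p => decide (p = P))).flatMap fun P =>
      gadsP b π (ellB pl c.1 c.2.1.1) (ellB pl c.1 c.2.1.2)
        (resN c.2.2.1 c.1.2.2 (ellB pl c.1 c.2.1.1)) (resN c.2.2.2 c.1.2.2 (ellB pl c.1 c.2.1.2))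
        P).take 1).foldl
    (fun _ g => (s.1 ++ [g.1], s.2.1 ++ [g], s.2.2)) (s.1, s.2.1, false)

/-- the gadgets of all columns of all copies -/
def runG (b : List Unit) (π : LPar) (S : LSys) (θs : List Th) :
    List ℕ × List (ℕ × ℕ × ℕ) × Bool :=
  (prodL θs S.2.1).foldl (stepG b π (poolB b π)) ([], [], true)

/-- the parameters work -/
def goodB (b : List Unit) (S : LSys) (Z : ℕ) (π : LPar) : Bool :=
  okB Z π && (runT b π S Z).2.2 && (runG b π S (runT b π S Z).2.1).2.2

/-! ## The output -/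

/-- addition of fractions -/
def addFr (p q : ℕ × ℕ) : ℕ × ℕ := (p.1 * q.2 + q.1 * p.2, p.2 * q.2)

/-- the list of all fractions -/
def fracs (pl : List ℕ) (S : LSys) (θs : List Th) (gs : List (ℕ × ℕ × ℕ)) : List (ℕ × ℕ) :=
  gs.map (fun g => (1, g.1 * g.2.2)) ++
    (prodL θs ((List.range S.2.2.length).zip S.2.2)).map fun p =>
      (p.2.2 * p.1.2.2, ellB pl p.1 p.2.1)

/-- the power of two -/
def pwB (π : LPar) : ℕ := π.1.2.bits.tail.foldl (fun s _ => 2 * s) 1

/-- the lower target -/
def TB (π : LPar) (s : ℕ) : ℕ := s + (s / (π.2.2.2.1 - 1) + 1) + K1B π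

/-- numerator, denominator and bound -/
def outB (b : List Unit) (S : LSys) (Z : ℕ) (π : LPar) : ℕ × ℕ × ℕ :=
  let θs := (runT b π S Z).2.1
  let F := (fracs (poolB b π) S θs (runG b π S θs).2.1).foldl addFr (0, 1)
  ((F.1 * pwB π) % F.2 + (TB π (kB π * S.2.1.length) * pwB π / π.1.2 + 1) * F.2,
    F.2 * pwB π, π.1.2)

/-- a list whose length is the `C`-th power of the length of `z` -/
def pwL (z : List Unit) : ℕ → List Unit
  | 0 => [()]
  | C + 1 => (pwL z C).flatMap fun _ => z

/-- the bound `Z` for the formula `φ`, as a list -/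
def zL (Z₀ : ℕ) (φ : List (List Lit)) : List Unit := List.replicate Z₀ () ++ szOf φ

/-- the instance `(x, y, N)` for the formula `φ`; `C` and `Z₀` are constants -/
def algo (C Z₀ : ℕ) (φ : List (List Lit)) : ℕ × ℕ × ℕ :=
  outB (pwL (zL Z₀ φ) C) (sysOf φ) (zL Z₀ φ).length
    (((parsL (pwL (zL Z₀ φ) C)).filter
      (goodB (pwL (zL Z₀ φ) C) (sysOf φ) (zL Z₀ φ).length)).headD
      ((0, 0), (0, 0), (0, 0), (0, 0)))

/-- the output, with `N` in binary -/
def printBin (p : ℕ × ℕ × ℕ) : List Sym :=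
  encBits p.1.bits ++ Sym.comma :: (encBits p.2.1.bits ++ Sym.comma :: encBits p.2.2.bits)

/-- the output, with `N` in unary (`b` is a list longer than `N`) -/
def printUn (b : List Unit) (p : ℕ × ℕ × ℕ) : List Sym :=
  encBits p.1.bits ++ Sym.comma :: (encBits p.2.1.bits ++ Sym.comma ::
    ((rng b).filter fun j => decide (j < p.2.2)).map fun _ => Sym.one)

end Pool.Agent.DHD
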