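import Pool.Agent.DHD.TNum

set_option autoImplicit false

/-!
# C1: few triples violate the condition `c1`
-/

namespace Pool.Agent.DHD.C1

open Finset
open scoped Classical

/-- a set of naturals in one class modulo `p` and of diameter at most `h` -/
theorem card_class (S : Finset ℕ) (p h : ℕ) (_hp : 0 < p)
    (h1 : ∀ x ∈ S, ∀ y ∈ S, x % p = y % p) (h2 : ∀ x ∈ S, ∀ y ∈ S, x ≤ y + h) :
    #S ≤ h / p + 1 := by
  rcases S.eq_empty_or_nonempty with rfl | hne
  · simp
  obtain ⟨x0, hx0, hmin⟩ := S.exists_min_image id hne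
  have hmin' : ∀ x ∈ S, x0 ≤ x := fun x hx => by simpa using hmin x hx
  have hinj : Set.InjOn (fun x => (x - x0) / p) (S : Set ℕ) := by
    intro x hx y hy hxy
    have hx' := hmin' x hx
    have hy' := hmin' y hy
    have dx : p ∣ x - x0 := (Nat.modEq_iff_dvd' hx').1 (h1 x0 hx0 x hx)
    have dy : p ∣ y - x0 := (Nat.modEq_iff_dvd' hy').1 (h1 x0 hx0 y hy)
    have e : x - x0 = y - x0 := by
      have a1 := Nat.div_mul_cancel dx
      have a2 := Nat.div_mul_cancel dy
      have hxy' : (x - x0) / p = (y - x0) / p := hxy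
      rw [← a1, ← a2, hxy']
    omega
  have hsub : ∀ x ∈ S, (fun x => (x - x0) / p) x ∈ range (h / p + 1) := by
    intro x hx
    have := h2 x hx x0 hx0
    simp only [mem_range]
    have : (x - x0) / p ≤ h / p := Nat.div_le_div_right (by omega)
    omega
  have := Finset.card_le_card_of_injOn _ hsub hinj
  simpa using this

theorem main (π : Par) (q V hp hv : ℕ) (Ps Vs : Finset ℕ) (hQ : 0 < π.Q1) (hq : 0 < q)
    (hhp : π.P1 + hp = π.P2) (hPs : ∀ P ∈ Ps, π.P1 < P ∧ P ≤ π.P2)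
    (hVs : ∀ v ∈ Vs, V < v + hv ∧ v ≤ V) (a i : ℤ) (p : ℕ) (pp : p.Prime) (hp1 : π.Q1 < p)
    (hpa : ¬ (p : ℤ) ∣ a - i) :
    #{w ∈ Wset q Ps Vs | (p : ℤ) ∣ (a - i) * w.1 + a * q * uw q w} ≤
      ((hv + hp) / q + 1) * (hp / π.Q1 + 1) := by
  have hmem : ∀ w ∈ {w ∈ Wset q Ps Vs | (p : ℤ) ∣ (a - i) * w.1 + a * q * uw q w},
      (π.P1 < w.1 ∧ w.1 ≤ π.P2) ∧ (V < w.2 + hv ∧ w.2 ≤ V) ∧ w.2 = w.1 + q * uw q w ∧
        (p : ℤ) ∣ (a - i) * w.1 + a * q * uw q w := by
    intro w hw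
    rw [mem_filter] at hw
    obtain ⟨hw, hd⟩ := hw
    unfold Wset at hw
    rw [mem_filter, mem_product] at hw
    refine ⟨hPs _ hw.1.1, hVs _ hw.1.2, ?_, hd⟩
    have := Nat.mul_div_cancel' hw.2.2
    unfold uw
    rw [this]
    omega
  refine (Finset.card_le_mul_card_image (f := uw q) _ (hp / π.Q1 + 1) ?_).trans ?_
  · intro u _
    set G := {x ∈ {w ∈ Wset q Ps Vs | (p : ℤ) ∣ (a - i) * w.1 + a * q * uw q w} | uw q x = u}
      with hG
    have hinj : Set.InjOn (fun w : ℕ × ℕ => w.1) (G : Set (ℕ × ℕ)) := by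
      intro w hw w' hw' e
      have hw1 := mem_filter.1 (mem_coe.1 hw)
      have hw1' := mem_filter.1 (mem_coe.1 hw')
      have m := hmem w hw1.1
      have m' := hmem w' hw1'.1
      have e' : w.1 = w'.1 := e
      refine Prod.ext e' ?_
      rw [m.2.2.1, m'.2.2.1, hw1.2, hw1'.2, e']
    rw [← Finset.card_image_of_injOn hinj]
    refine (card_class _ p hp pp.pos ?_ ?_).trans ?_
    · intro x hx y hy
      obtain ⟨w, hw, rfl⟩ := mem_image.1 hx
      obtain ⟨w', hw', rfl⟩ := mem_image.1 hy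
      have hw1 := mem_filter.1 hw
      have hw1' := mem_filter.1 hw'
      have m := (hmem w hw1.1).2.2.2
      have m' := (hmem w' hw1'.1).2.2.2
      rw [hw1.2] at m
      rw [hw1'.2] at m'
      have d : (p : ℤ) ∣ (a - i) * ((w.1 : ℤ) - w'.1) := by
        have := dvd_sub m m'
        have e : (a - i) * (w.1 : ℤ) + a * q * u - ((a - i) * (w'.1 : ℤ) + a * q * u) =
          (a - i) * ((w.1 : ℤ) - w'.1) := by ring
        rwa [e] at this
      have d2 : (p : ℤ) ∣ (w.1 : ℤ) - w'.1 :=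
        ((Nat.prime_iff_prime_int.1 pp).dvd_or_dvd d).resolve_left hpa
      have h3 : (w.1 : ℤ) % p = (w'.1 : ℤ) % p := ((Int.modEq_iff_dvd).2 d2).symm
      exact_mod_cast h3
    · intro x hx y hy
      obtain ⟨w, hw, rfl⟩ := mem_image.1 hx
      obtain ⟨w', hw', rfl⟩ := mem_image.1 hy
      have m := (hmem w (mem_filter.1 hw).1).1
      have m' := (hmem w' (mem_filter.1 hw').1).1
      show w.1 ≤ w'.1 + hp
      omega
    · have : hp / p ≤ hp / π.Q1 := Nat.div_le_div_left hp1.le hQ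
      omega
  · rw [mul_comm]
    refine Nat.mul_le_mul_right _ ?_
    refine (card_class _ 1 ((hv + hp) / q) one_pos ?_ ?_).trans (by simp)
    · intro x _ y _
      simp [Nat.mod_one]
    · intro x hx y hy
      obtain ⟨w, hw, rfl⟩ := mem_image.1 hx
      obtain ⟨w', hw', rfl⟩ := mem_image.1 hy
      have m := hmem w hw
      have m' := hmem w' hw'
      have h4 : q * uw q w ≤ q * uw q w' + (hv + hp) := by
        have e1 := m.2.2.1
        have e2 := m'.2.2.1
        omega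
      have h5 : q * (uw q w - uw q w') ≤ hv + hp := by
        rw [Nat.mul_sub]; omega
      have h6 : uw q w - uw q w' ≤ (hv + hp) / q := by
        rw [Nat.le_div_iff_mul_le hq, mul_comm]; exact h5
      omega

end Pool.Agent.DHD.C1

namespace Pool.Agent.DHD

open Finset
open scoped Classical

theorem tC1 : T_C1 := by
  intro π l l' R V hp hv I A Ps Vs hok hl hl' _ hl1 _ _ _ hhp hNI hRI hA hPs hVs hPRV
  set q := l * l' with hq
  have hQpos : 0 < π.Q1 := by have := hok.M_pos; have := hok.M_lt; omega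
  have hqpos : 0 < q := Nat.mul_pos hl.pos hl'.pos
  set Bd := ((hv + hp) / q + 1) * (hp / π.Q1 + 1) with hBd
  let cond : ℕ × (ℤ × ℕ) → Prop := fun t => t.2.2.Prime ∧ ¬ (t.2.2 : ℤ) ∣ (t.1 : ℤ) - t.2.1
  let F : ℕ × (ℤ × ℕ) → Finset (ℕ × ℕ × ℕ) := fun t =>
    if cond t then {w ∈ Wset q Ps Vs | (t.2.2 : ℤ) ∣ ((t.1 : ℤ) - t.2.1) * w.1 +
      (t.1 : ℤ) * q * uw q w}.image (fun w => (t.1, w)) else ∅
  have hsub : Rm π l l' A Ps Vs ⊆
      (A ×ˢ (Icc (-(I : ℤ)) I ×ˢ Ioc π.Q1 π.Q2)).biUnion F := by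
    intro w hw
    unfold Rm at hw
    rw [mem_filter, mem_product] at hw
    obtain ⟨⟨ha, hW⟩, j, p, hPj, hmod, pp, hp1, hp2, hpj, hne⟩ := hw
    obtain ⟨a, P, v⟩ := w
    simp only at ha hW hPj hmod hne
    have hW0 := hW
    unfold Wset at hW
    rw [mem_filter, mem_product] at hW
    obtain ⟨⟨hP, hv'⟩, hlt, hdv⟩ := hW
    simp only at hP hv' hlt hdv
    obtain ⟨hPp, hP1, hP2⟩ := hPs P hP
    obtain ⟨_, hv1, hv2⟩ := hVs v hv'
    obtain ⟨_, haR⟩ := hA a ha
    have hu : q * uw q (P, v) = v - P := Nat.mul_div_cancel' hdv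
    set u := uw q (P, v) with hudef
    have hvv : (v : ℤ) = P + q * u := by
      have : v = P + q * u := by omega
      exact_mod_cast this
    have hd : (P : ℤ) ∣ (a : ℤ) * v - j := by
      have h1 : (j : ℤ) % P = ((a : ℤ) * v) % P := by exact_mod_cast hmod
      exact Int.ModEq.dvd h1
    obtain ⟨i, hi⟩ := hd
    have hPpos : (0 : ℤ) < P := by exact_mod_cast hPp.pos
    have hPav : P * (a * v) ≤ π.N :=
      (Nat.mul_le_mul hP2 (Nat.mul_le_mul haR hv2)).trans hPRV
    have hPP : (π.P1 : ℤ) ^ 2 ≤ (P : ℤ) ^ 2 := by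
      have : π.P1 ^ 2 ≤ P ^ 2 := Nat.pow_le_pow_left hP1.le 2
      exact_mod_cast this
    have hN2 : (π.N : ℤ) ≤ I * (P : ℤ) ^ 2 := by
      have h1 : (π.N : ℤ) ≤ I * (π.P1 : ℤ) ^ 2 := by exact_mod_cast hNI
      exact h1.trans (mul_le_mul_of_nonneg_left hPP (by positivity))
    have hPav' : (P : ℤ) * (a * v) ≤ π.N := by exact_mod_cast hPav
    have hPj' : (P : ℤ) * j ≤ π.N := by exact_mod_cast hPj
    have hj0 : (0 : ℤ) ≤ (P : ℤ) * j := by positivity
    have hav0 : (0 : ℤ) ≤ (P : ℤ) * (a * v) := by positivity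
    have hP2pos : (0 : ℤ) < (P : ℤ) ^ 2 := by positivity
    have hexp : (P : ℤ) ^ 2 * i = P * (a * v) - P * j := by
      have e1 : (P : ℤ) ^ 2 * i = P * (P * i) := by ring
      rw [e1, ← hi]; ring
    have hi1 : i ≤ I := by
      have h1 : (P : ℤ) ^ 2 * i ≤ (P : ℤ) ^ 2 * I := by
        rw [hexp, mul_comm ((P : ℤ) ^ 2)]
        linarith
      exact le_of_mul_le_mul_left h1 hP2pos
    have hi2 : -(I : ℤ) ≤ i := by
      have h1 : (P : ℤ) ^ 2 * (-(I : ℤ)) ≤ (P : ℤ) ^ 2 * i := by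
        rw [hexp, mul_neg, mul_comm ((P : ℤ) ^ 2)]
        linarith
      exact le_of_mul_le_mul_left h1 hP2pos
    have hj : (j : ℤ) = ((a : ℤ) - i) * P + a * q * u := by
      have : (j : ℤ) = a * v - P * i := by linarith
      rw [this, hvv]; ring
    have hpa : ¬ (p : ℤ) ∣ (a : ℤ) - i := by
      intro hdd
      have habs : |(a : ℤ) - i| < p := by
        have h1 : (a : ℤ) ≤ R := by exact_mod_cast haR
        have h2 : ((R : ℤ) + I) < π.Q1 := by exact_mod_cast hRI
        have h3 : (π.Q1 : ℤ) < p := by exact_mod_cast hp1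
        have h4 : (0 : ℤ) ≤ a := by positivity
        rw [abs_lt]
        constructor <;> linarith
      have h0 := Int.eq_zero_of_abs_lt_dvd hdd habs
      apply hne
      have : (j : ℤ) = ((q * (a * u) : ℕ) : ℤ) := by
        rw [hj, h0]; push_cast; ring
      exact_mod_cast this
    rw [mem_biUnion]
    refine ⟨(a, (i, p)), ?_, ?_⟩
    · simp only [mem_product, mem_Icc, mem_Ioc]
      exact ⟨ha, ⟨hi2, hi1⟩, hp1, hp2⟩
    · have hc : cond (a, (i, p)) := ⟨pp, hpa⟩
      show (a, P, v) ∈ F (a, (i, p))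
      simp only [F]
      rw [if_pos hc, mem_image]
      refine ⟨(P, v), ?_, rfl⟩
      rw [mem_filter]
      refine ⟨hW0, ?_⟩
      have : (p : ℤ) ∣ (j : ℤ) := by exact_mod_cast hpj
      rw [hj] at this
      exact this
  refine (Finset.card_le_card hsub).trans ?_
  refine (Finset.card_biUnion_le_card_mul _ _ Bd ?_).trans ?_
  · intro t ht
    simp only [mem_product, mem_Icc, mem_Ioc] at ht
    by_cases hc : cond t
    · simp only [F]
      rw [if_pos hc]
      refine card_image_le.trans ?_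
      exact C1.main π q V hp hv Ps Vs hQpos hqpos hhp (fun P hP => (hPs P hP).2)
        (fun v hv => (hVs v hv).2) t.1 t.2.1 t.2.2 hc.1 ht.2.2.1 hc.2
    · simp only [F]
      rw [if_neg hc]
      simp
  · rw [card_product, card_product, Int.card_Icc, Nat.card_Ioc]
    have : ((I : ℤ) + 1 - -(I : ℤ)).toNat = 2 * I + 1 := by
      have : (I : ℤ) + 1 - -(I : ℤ) = ((2 * I + 1 : ℕ) : ℤ) := by push_cast; ring
      rw [this]; rfl
    rw [this]
    apply le_of_eq
    ring

end Pool.Agent.DHD
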