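import Pool.Agent.DHD.TNum

set_option autoImplicit false

/-!
# COPY: the union bound for the choice of one copy
-/

namespace Pool.Agent.DHD.COPY

open Finset Pool.Agent.DHD
open scoped Classical

/-- a gadget depends on the residues only modulo the two primes -/
theorem gad_congr {π : Par} {l l' : ℕ} {r r' s s' : ℤ} {P u v : ℕ} (h1 : (l : ℤ) ∣ r - s)
    (h2 : (l' : ℤ) ∣ r' - s') (h : Gad π l l' r r' P u v) : Gad π l l' s s' P u v where
  prime := h.prime
  P1 := h.P1
  P2 := h.P2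
  su := h.su
  sv := h.sv
  lt := h.lt
  dvd := h.dvd
  lo := h.lo
  hi := h.hi
  small := h.small
  res := by
    have h3 : s * ((P : ℤ) * u * l') - 1 = (r * (P * u * l') - 1) - (r - s) * (P * u * l') := by
      ring
    rw [h3]
    exact dvd_sub h.res (Dvd.dvd.mul_right h1 _)
  res' := by
    have h3 : s' * ((P : ℤ) * u * l) - 1 = (r' * (P * u * l) - 1) - (r' - s') * (P * u * l) := by
      ring
    rw [h3]
    exact dvd_sub h.res' (Dvd.dvd.mul_right h2 _)
  c0 := h.c0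
  c1 := h.c1

theorem cnt_congr {π : Par} {l l' : ℕ} {r r' s s' : ℤ} (h1 : (l : ℤ) ∣ r - s)
    (h2 : (l' : ℤ) ∣ r' - s') : cnt π l l' r r' = cnt π l l' s s' := by
  unfold cnt
  congr 1
  apply Finset.filter_congr
  intro P _
  constructor
  · rintro ⟨u, v, h⟩
    exact ⟨u, v, gad_congr h1 h2 h⟩
  · rintro ⟨u, v, h⟩
    exact ⟨u, v, gad_congr ((dvd_sub_comm).1 h1) ((dvd_sub_comm).1 h2) h⟩

/-- a set of numbers below `n` which are pairwise congruent modulo `q` -/
theorem card_class {n q : ℕ} (s : Finset ℕ) (hs : ∀ x ∈ s, x < n)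
    (hc : ∀ x ∈ s, ∀ y ∈ s, (q : ℤ) ∣ (x : ℤ) - y) : #s ≤ n / q + 1 := by
  have h1 : #s ≤ #(range (n / q + 1)) := by
    apply Finset.card_le_card_of_injOn (fun x => x / q)
    · intro x hx
      have h2 := hs x hx
      simp only [coe_range, Set.mem_Iio]
      exact Nat.lt_succ_of_le (Nat.div_le_div_right h2.le)
    · intro x hx y hy hxy
      have h3 := hc x hx y hy
      have h4 : x % q = y % q := by
        have h5 : (y : ℤ) ≡ x [ZMOD q] := by
          rw [Int.modEq_iff_dvd]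
          exact h3
        have h6 : y ≡ x [MOD q] := by
          exact_mod_cast h5
        exact h6.symm
      have h7 := Nat.div_add_mod x q
      have h8 := Nat.div_add_mod y q
      simp only at hxy
      rw [← h7, ← h8, hxy, h4]
  simpa using h1

/-- multiples of `l` below `n` -/
theorem card_mult {n l : ℕ} : #{x ∈ range n | l ∣ x} ≤ n / l + 1 := by
  apply card_class
  · intro x hx
    simp only [mem_filter, mem_range] at hx
    exact hx.1
  · intro x hx y hy
    simp only [mem_filter, mem_range] at hx hy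
    exact dvd_sub (by exact_mod_cast hx.2) (by exact_mod_cast hy.2)

/-- the values `al` which are bad for a column with a good pair -/
theorem card_al {π : Par} {Z k l l' n : ℕ} {a b : ℤ} (hl : l.Prime) (hl' : l'.Prime)
    (hne : l ≠ l') (ha : ¬ (l : ℤ) ∣ a) (hb : ¬ (l' : ℤ) ∣ b) (hq : l * l' ≤ n)
    (hg : GoodPair π Z k l l') :
    #{al ∈ range n | cnt π l l' (a * (al : ℕ)) (b * (al : ℕ)) < k * Z} * Z ^ 8 ≤ 2 * n := by
  set B : Finset ℕ := {al ∈ range n | cnt π l l' (a * (al : ℕ)) (b * (al : ℕ)) < k * Z} with hB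
  set R : Finset (ℕ × ℕ) := {r ∈ range l ×ˢ range l' | cnt π l l' r.1 r.2 < k * Z} with hR
  have hg' : #R * Z ^ 8 ≤ l * l' := hg
  have hl0 : (0 : ℤ) < l := by exact_mod_cast hl.pos
  have hl0' : (0 : ℤ) < l' := by exact_mod_cast hl'.pos
  let f : ℕ → ℕ × ℕ := fun al => ((a * al % l).toNat, (b * al % l').toNat)
  have hf1 : ∀ al, ((f al).1 : ℤ) = a * al % l := fun al =>
    Int.toNat_of_nonneg (Int.emod_nonneg _ hl0.ne')
  have hf2 : ∀ al, ((f al).2 : ℤ) = b * al % l' := fun al =>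
    Int.toNat_of_nonneg (Int.emod_nonneg _ hl0'.ne')
  have hmaps : ∀ al ∈ B, f al ∈ R := by
    intro al hal
    simp only [hB, mem_filter, mem_range] at hal
    simp only [hR, mem_filter, mem_product, mem_range]
    refine ⟨⟨?_, ?_⟩, ?_⟩
    · have := Int.emod_lt_of_pos (a * al) hl0
      rw [← hf1] at this
      exact_mod_cast this
    · have := Int.emod_lt_of_pos (b * al) hl0'
      rw [← hf2] at this
      exact_mod_cast this
    · rw [cnt_congr (s := a * al) (s' := b * al)]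
      · exact hal.2
      · rw [hf1]
        rw [dvd_sub_comm]
        exact Int.dvd_self_sub_emod
      · rw [hf2]
        rw [dvd_sub_comm]
        exact Int.dvd_self_sub_emod
  have hfib : ∀ r ∈ R, #{al ∈ B | f al = r} ≤ n / (l * l') + 1 := by
    intro r _
    apply card_class
    · intro x hx
      simp only [hB, mem_filter, mem_range] at hx
      exact hx.1.1
    · intro x hx y hy
      simp only [mem_filter] at hx hy
      have h1 : f x = f y := hx.2.trans hy.2.symm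
      have h2 : a * (x : ℤ) % l = a * y % l := by
        rw [← hf1, ← hf1, h1]
      have h3 : b * (x : ℤ) % l' = b * y % l' := by
        rw [← hf2, ← hf2, h1]
      have h4 : (l : ℤ) ∣ a * (x - y) := by
        rw [mul_sub]
        exact Int.ModEq.dvd (show a * (y : ℤ) ≡ a * x [ZMOD l] from h2.symm)
      have h5 : (l' : ℤ) ∣ b * (x - y) := by
        rw [mul_sub]
        exact Int.ModEq.dvd (show b * (y : ℤ) ≡ b * x [ZMOD l'] from h3.symm)
      have h6 : (l : ℤ) ∣ x - y :=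
        ((Nat.prime_iff_prime_int.1 hl).dvd_or_dvd h4).resolve_left ha
      have h7 : (l' : ℤ) ∣ x - y :=
        ((Nat.prime_iff_prime_int.1 hl').dvd_or_dvd h5).resolve_left hb
      have h8 : IsCoprime (l : ℤ) l' :=
        Nat.isCoprime_iff_coprime.2 ((Nat.coprime_primes hl hl').2 hne)
      have h9 := h8.mul_dvd h6 h7
      exact_mod_cast h9
  have h1 : #B ≤ (n / (l * l') + 1) * #R :=
    Finset.card_le_mul_card_image_of_maps_to hmaps _ hfib
  calc #B * Z ^ 8 ≤ (n / (l * l') + 1) * #R * Z ^ 8 := Nat.mul_le_mul_right _ h1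
    _ = (n / (l * l') + 1) * (#R * Z ^ 8) := by ring
    _ ≤ (n / (l * l') + 1) * (l * l') := Nat.mul_le_mul_left _ hg'
    _ = n / (l * l') * (l * l') + l * l' := by ring
    _ ≤ n + n := Nat.add_le_add (Nat.div_mul_le_self _ _) hq
    _ = 2 * n := by ring

/-- counting over the first component -/
theorem card_fst {α β : Type*} (A : Finset α) (W : Finset β) (P : α → β → Prop) (c : ℕ)
    [∀ w, DecidablePred fun a => P a w] [DecidablePred fun z : α × β => P z.1 z.2]
    (h : ∀ w ∈ W, #{a ∈ A | P a w} ≤ c) : #{z ∈ A ×ˢ W | P z.1 z.2} ≤ #W * c := by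
  have h1 : ∀ z ∈ {z ∈ A ×ˢ W | P z.1 z.2}, z.2 ∈ W := by
    intro z hz
    simp only [mem_filter, mem_product] at hz
    exact hz.1.2
  have h2 := Finset.card_le_mul_card_image_of_maps_to (f := Prod.snd) h1 c (by
    intro w hw
    refine le_trans ?_ (h w hw)
    apply Finset.card_le_card_of_injOn Prod.fst
    · intro z hz
      simp only [coe_filter, mem_filter, mem_product, Set.mem_ofPred_eq] at hz ⊢
      refine ⟨hz.1.1.1, ?_⟩
      rw [← hz.2]
      exact hz.1.2
    · intro z hz z' hz' hzz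
      simp only [coe_filter, mem_filter, mem_product, Set.mem_ofPred_eq] at hz hz'
      exact Prod.ext hzz (hz.2.trans hz'.2.symm))
  rw [mul_comm]
  exact h2

/-- a union bound -/
theorem card_ex {α : Type*} (A : Finset α) (n : ℕ) (P : ℕ → α → Prop) (c : ℕ)
    [∀ x, DecidablePred (P x)] [DecidablePred fun a => ∃ x < n, P x a]
    (h : ∀ x < n, #{a ∈ A | P x a} ≤ c) : #{a ∈ A | ∃ x < n, P x a} ≤ n * c := by
  have h1 : {a ∈ A | ∃ x < n, P x a} ⊆ (range n).biUnion fun x => {a ∈ A | P x a} := by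
    intro a ha
    simp only [mem_filter, mem_biUnion, mem_range] at ha ⊢
    obtain ⟨ha, x, hx, hP⟩ := ha
    exact ⟨x, hx, ha, hP⟩
  refine (Finset.card_le_card h1).trans ?_
  refine (Finset.card_biUnion_le).trans ?_
  have h2 := Finset.sum_le_card_nsmul (range n) (fun x => #{a ∈ A | P x a}) c
    (fun x hx => h x (mem_range.1 hx))
  simpa using h2

/-- there is a member outside two small sets -/
theorem exists_of_card {α : Type*} (A : Finset α) (P Q : α → Prop)
    [DecidablePred P] [DecidablePred Q]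
    (h : #{a ∈ A | P a} + #{a ∈ A | Q a} < #A) : ∃ a ∈ A, ¬ P a ∧ ¬ Q a := by
  by_contra hc
  push Not at hc
  have h1 : A ⊆ {a ∈ A | P a} ∪ {a ∈ A | Q a} := by
    intro a ha
    simp only [mem_union, mem_filter]
    by_cases hP : P a
    · exact Or.inl ⟨ha, hP⟩
    · exact Or.inr ⟨ha, hc a ha hP⟩
  have h2 := (Finset.card_le_card h1).trans (Finset.card_union_le _ _)
  omega

/-- the choice of `a` and `b` -/
theorem stage1 {π : Par} {S : BSys} {Z : ℕ} {e : ℕ → ℕ} {U : Finset ℕ} (hN : π.NT Z)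
    (hS : S.Ok Z) (he : ∀ i < #(pool π), e i ∈ pool π)
    (hi : ∀ i < #(pool π), ∀ j < #(pool π), e i = e j → i = j) (hU : #U ≤ π.k * Z) :
    ∃ a b, 0 < b ∧ b ≤ #(pool π) ∧ a ≤ #(pool π) ∧
      (∀ x < S.n, a + b * x < #(pool π) ∧ e (a + b * x) ∉ U) ∧
      ∀ t < S.m, GoodPair π Z π.k (e (a + b * S.x t)) (e (a + b * S.y t)) := by
  set p := #(pool π) with hp
  have hZ := hN.Z_big
  have hk : 360 ≤ π.k := by
    unfold Par.k
    omega
  have hpb : 100 * (π.k * Z ^ 3) ≤ p := hN.pool_big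
  have hkZ : 360 * Z ^ 3 ≤ π.k * Z ^ 3 := Nat.mul_le_mul_right _ hk
  have hZ3 : Z ≤ Z ^ 3 := Nat.le_self_pow (by norm_num) _
  set A0 := p / 2 with hA0
  set B0 := p / (2 * Z) with hB0
  have hpA : p ≤ 3 * A0 := by omega
  have hdm := Nat.div_add_mod p (2 * Z)
  have hml : p % (2 * Z) < 2 * Z := Nat.mod_lt _ (by omega)
  have hpB : p ≤ 3 * Z * B0 := by
    rw [← hB0] at hdm
    nlinarith
  have hB2 : 2 * Z * B0 ≤ p := by
    rw [← hB0] at hdm
    omega
  have hlt : ∀ a b x, a < A0 → b ≤ B0 → x < S.n → a + b * x < p := by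
    intro a b x ha hb hx
    have h1 : x + 1 ≤ Z := hx.trans_le hS.n_le
    have h2 : b * x ≤ B0 * x := Nat.mul_le_mul_right _ hb
    have h3 : B0 * (x + 1) ≤ B0 * Z := Nat.mul_le_mul_left _ h1
    have h4 : 2 * A0 ≤ p := by omega
    nlinarith
  -- the bad pairs
  have hb1 : #{z ∈ range A0 ×ˢ Ioc 0 B0 | ∃ x < S.n, e (z.1 + z.2 * x) ∈ U} ≤
      S.n * (B0 * #U) := by
    refine card_ex _ _ (fun x (z : ℕ × ℕ) => e (z.1 + z.2 * x) ∈ U) _ ?_
    intro x hx
    have h1 := card_fst (range A0) (Ioc 0 B0) (fun a b => e (a + b * x) ∈ U) #U (by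
      intro b hb
      apply Finset.card_le_card_of_injOn (fun a => e (a + b * x))
      · intro a ha
        simp only [coe_filter, mem_range, Set.mem_ofPred_eq] at ha
        exact ha.2
      · intro a ha a' ha' haa
        simp only [coe_filter, mem_range, Set.mem_ofPred_eq, mem_Ioc] at ha ha' hb
        have h2 := hi _ (hlt a b x ha.1 hb.2 hx) _ (hlt a' b x ha'.1 hb.2 hx) haa
        omega)
    simpa using h1
  have hb3 : #{z ∈ range A0 ×ˢ Ioc 0 B0 | ∃ t < S.m,
      ¬ GoodPair π Z π.k (e (z.1 + z.2 * S.x t)) (e (z.1 + z.2 * S.y t))} ≤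
      S.m * #{l ∈ pool π ×ˢ pool π | l.1 ≠ l.2 ∧ ¬ GoodPair π Z π.k l.1 l.2} := by
    refine card_ex _ _ (fun t (z : ℕ × ℕ) =>
      ¬ GoodPair π Z π.k (e (z.1 + z.2 * S.x t)) (e (z.1 + z.2 * S.y t))) _ ?_
    intro t ht
    apply Finset.card_le_card_of_injOn
      (fun z => (e (z.1 + z.2 * S.x t), e (z.1 + z.2 * S.y t)))
    · rintro ⟨a, b⟩ hz
      simp only [coe_filter, mem_product, mem_range, mem_Ioc, Set.mem_ofPred_eq] at hz ⊢
      have h1 := hlt a b _ hz.1.1 hz.1.2.2 (hS.x_lt t ht)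
      have h2 := hlt a b _ hz.1.1 hz.1.2.2 (hS.y_lt t ht)
      refine ⟨⟨he _ h1, he _ h2⟩, ?_, hz.2⟩
      intro h3
      have h4 := hi _ h1 _ h2 h3
      have h5 : b * S.x t = b * S.y t := by omega
      exact hS.ne t ht (Nat.eq_of_mul_eq_mul_left hz.1.2.1 h5)
    · rintro ⟨a, b⟩ hz ⟨a', b'⟩ hz' hzz
      simp only [coe_filter, mem_product, mem_range, mem_Ioc, Set.mem_ofPred_eq] at hz hz'
      simp only [Prod.mk.injEq] at hzz
      have h1 := hi _ (hlt a b _ hz.1.1 hz.1.2.2 (hS.x_lt t ht)) _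
        (hlt a' b' _ hz'.1.1 hz'.1.2.2 (hS.x_lt t ht)) hzz.1
      have h2 := hi _ (hlt a b _ hz.1.1 hz.1.2.2 (hS.y_lt t ht)) _
        (hlt a' b' _ hz'.1.1 hz'.1.2.2 (hS.y_lt t ht)) hzz.2
      have h3 : ((b : ℤ) - b') * (S.x t - S.y t) = 0 := by
        have h1' : (a : ℤ) + b * S.x t = a' + b' * S.x t := by exact_mod_cast h1
        have h2' : (a : ℤ) + b * S.y t = a' + b' * S.y t := by exact_mod_cast h2
        linear_combination h1' - h2'
      have h4 : b = b' := by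
        rcases mul_eq_zero.1 h3 with h | h
        · omega
        · exact absurd (by omega) (hS.ne t ht)
      subst h4
      have h5 : a = a' := by omega
      rw [h5]
  -- the sizes
  have hBP := hN.pairs
  set BP := #{l ∈ pool π ×ˢ pool π | l.1 ≠ l.2 ∧ ¬ GoodPair π Z π.k l.1 l.2} with hBPdef
  have hcardAB : #(range A0 ×ˢ Ioc 0 B0) = A0 * B0 := by simp
  have hppos : 0 < p := by
    have : 0 < π.k * Z ^ 3 := Nat.mul_pos (by omega) (by positivity)
    omega
  have hA0pos : 0 < A0 := by omega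
  have hB0pos : 0 < B0 := by
    rcases Nat.eq_zero_or_pos B0 with h | h
    · rw [h] at hpB
      omega
    · exact h
  have h10 : 10 * (S.n * (B0 * #U)) ≤ A0 * B0 := by
    have h1 : S.n * (B0 * #U) ≤ Z * (B0 * (π.k * Z)) :=
      Nat.mul_le_mul hS.n_le (Nat.mul_le_mul_left _ hU)
    have h2 : 10 * (Z * (π.k * Z)) ≤ A0 := by
      have h3 : Z * (π.k * Z) ≤ π.k * Z ^ 3 := by
        have h4 : Z * (π.k * Z) * 1 ≤ Z * (π.k * Z) * Z := Nat.mul_le_mul_left _ (by omega)
        calc Z * (π.k * Z) = Z * (π.k * Z) * 1 := by ring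
          _ ≤ Z * (π.k * Z) * Z := h4
          _ = π.k * Z ^ 3 := by ring
      omega
    calc 10 * (S.n * (B0 * #U)) ≤ 10 * (Z * (B0 * (π.k * Z))) := Nat.mul_le_mul_left _ h1
      _ = (10 * (Z * (π.k * Z))) * B0 := by ring
      _ ≤ A0 * B0 := Nat.mul_le_mul_right _ h2
  have h11 : 10 * (S.m * BP) ≤ A0 * B0 := by
    have h1 : p ^ 2 ≤ 9 * Z * (A0 * B0) := by
      calc p ^ 2 = p * p := by ring
        _ ≤ (3 * A0) * (3 * Z * B0) := Nat.mul_le_mul hpA hpB
        _ = 9 * Z * (A0 * B0) := by ring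
    have h2 : 10 * (S.m * BP) * Z ^ 8 ≤ A0 * B0 * Z ^ 8 := by
      calc 10 * (S.m * BP) * Z ^ 8 ≤ 10 * (Z * BP) * Z ^ 8 := by
            gcongr
            exact hS.m_le
        _ = 10 * Z * (BP * Z ^ 8) := by ring
        _ ≤ 10 * Z * (9 * Z * (A0 * B0)) := Nat.mul_le_mul_left _ (hBP.trans h1)
        _ = 90 * Z ^ 2 * (A0 * B0) := by ring
        _ ≤ Z ^ 6 * Z ^ 2 * (A0 * B0) := by
            gcongr
            calc 90 ≤ Z := by omega
              _ ≤ Z ^ 6 := Nat.le_self_pow (by norm_num) _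
        _ = A0 * B0 * Z ^ 8 := by ring
    exact Nat.le_of_mul_le_mul_right h2 (by positivity)
  obtain ⟨⟨a, b⟩, hab, hn1, hn3⟩ := exists_of_card (range A0 ×ˢ Ioc 0 B0)
    (fun z => ∃ x < S.n, e (z.1 + z.2 * x) ∈ U)
    (fun z => ∃ t < S.m,
      ¬ GoodPair π Z π.k (e (z.1 + z.2 * S.x t)) (e (z.1 + z.2 * S.y t))) (by
    rw [hcardAB]
    have : 0 < A0 * B0 := Nat.mul_pos hA0pos hB0pos
    omega)
  simp only [mem_product, mem_range, mem_Ioc] at hab
  push Not at hn1 hn3
  have hBp : B0 ≤ p := Nat.div_le_self _ _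
  refine ⟨a, b, hab.2.1, hab.2.2.trans hBp, by omega, ?_, ?_⟩
  · intro x hx
    exact ⟨hlt a b x hab.1 hab.2.2 hx, hn1 x hx⟩
  · intro t ht
    exact hn3 t ht

/-- the choice of `al` -/
theorem stage2 {π : Par} {S : BSys} {Z : ℕ} {f : ℕ → ℕ} (hN : π.NT Z) (hS : S.Ok Z)
    (hf : ∀ x < S.n, f x ∈ pool π) (hne : ∀ t < S.m, f (S.x t) ≠ f (S.y t))
    (hg : ∀ t < S.m, GoodPair π Z π.k (f (S.x t)) (f (S.y t))) (hQ : π.Q1 < π.Q2) :
    ∃ al : ℕ, al < π.Q2 ^ 2 ∧ (∀ x < S.n, ¬ f x ∣ al) ∧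
      ∀ t < S.m, π.k * Z ≤ cnt π (f (S.x t)) (f (S.y t)) (S.a t * al) (S.b t * al) := by
  have hZ := hN.Z_big
  have hZ2 := hN.Z_lt
  have hpr : ∀ x < S.n, (f x).Prime ∧ π.Q1 < f x ∧ f x ≤ π.Q2 := by
    intro x hx
    have := hf x hx
    simp only [pool, mem_filter, mem_Ioc] at this
    exact ⟨this.2, this.1.1, this.1.2⟩
  have hQ1 : 0 < π.Q1 := by omega
  set n := π.Q2 ^ 2 with hn
  have hb2 : #{al ∈ range n | ∃ x < S.n, f x ∣ al} ≤ S.n * (n / π.Q1 + 1) := by
    refine card_ex _ _ (fun x al => f x ∣ al) _ ?_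
    intro x hx
    refine card_mult.trans ?_
    have h1 := (hpr x hx).2.1.le
    exact Nat.add_le_add_right (Nat.div_le_div_left h1 hQ1) 1
  have hb4' : ∀ t < S.m, #{al ∈ range n | cnt π (f (S.x t)) (f (S.y t)) (S.a t * (al : ℕ))
      (S.b t * (al : ℕ)) < π.k * Z} * Z ^ 8 ≤ 2 * n := by
    intro t ht
    have hx := hpr _ (hS.x_lt t ht)
    have hy := hpr _ (hS.y_lt t ht)
    apply card_al hx.1 hy.1 (hne t ht)
    · intro hd
      have h1 := Int.le_of_dvd (abs_pos.2 (hS.a_ne t ht)) ((dvd_abs _ _).2 hd)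
      have h2 := hS.a_le t ht
      have h3 : ((f (S.x t) : ℕ) : ℤ) ≤ Z := h1.trans h2
      have h4 : f (S.x t) ≤ Z := by exact_mod_cast h3
      have h5 : Z ≤ Z * Z := Nat.le_mul_self Z
      omega
    · intro hd
      have h1 := Int.le_of_dvd (abs_pos.2 (hS.b_ne t ht)) ((dvd_abs _ _).2 hd)
      have h2 := hS.b_le t ht
      have h3 : ((f (S.y t) : ℕ) : ℤ) ≤ Z := h1.trans h2
      have h4 : f (S.y t) ≤ Z := by exact_mod_cast h3
      have h5 : Z ≤ Z * Z := Nat.le_mul_self Z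
      omega
    · rw [hn, sq]
      exact Nat.mul_le_mul hx.2.2 hy.2.2
    · exact hg t ht
  have hb4 : #{al ∈ range n | ∃ t < S.m, cnt π (f (S.x t)) (f (S.y t)) (S.a t * (al : ℕ))
      (S.b t * (al : ℕ)) < π.k * Z} ≤ S.m * (2 * n / Z ^ 8) := by
    refine card_ex _ _ (fun t (al : ℕ) => cnt π (f (S.x t)) (f (S.y t)) (S.a t * (al : ℕ))
      (S.b t * (al : ℕ)) < π.k * Z) _ ?_
    intro t ht
    rw [Nat.le_div_iff_mul_le (by positivity)]
    exact hb4' t ht
  have h1 : 100 * (S.n * (n / π.Q1 + 1)) ≤ 2 * n := by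
    have h2 : n / π.Q1 * π.Q1 ≤ n := Nat.div_mul_le_self _ _
    have h3 : 100 * (Z * (n / π.Q1)) ≤ n := by
      calc 100 * (Z * (n / π.Q1)) ≤ Z * (Z * (n / π.Q1)) := by gcongr
        _ = n / π.Q1 * (Z * Z) := by ring
        _ ≤ n / π.Q1 * π.Q1 := Nat.mul_le_mul_left _ (by omega)
        _ ≤ n := h2
    have h4 : 100 * Z ≤ n := by
      have h5 : 100 * Z ≤ Z * Z := Nat.mul_le_mul_right _ hZ
      have h6 : π.Q2 ≤ n := by
        rw [hn]
        exact Nat.le_self_pow (by norm_num) _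
      omega
    calc 100 * (S.n * (n / π.Q1 + 1)) ≤ 100 * (Z * (n / π.Q1 + 1)) := by
          gcongr
          exact hS.n_le
      _ = 100 * (Z * (n / π.Q1)) + 100 * Z := by ring
      _ ≤ n + n := Nat.add_le_add h3 h4
      _ = 2 * n := by ring
  have h2 : 100 * (S.m * (2 * n / Z ^ 8)) ≤ n := by
    have h3 : 2 * n / Z ^ 8 * Z ^ 8 ≤ 2 * n := Nat.div_mul_le_self _ _
    have h4 : 100 * (S.m * (2 * n / Z ^ 8)) * 2 ≤ n * 2 := by
      calc 100 * (S.m * (2 * n / Z ^ 8)) * 2 ≤ 100 * (Z * (2 * n / Z ^ 8)) * 2 := by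
            gcongr
            exact hS.m_le
        _ = 2 * n / Z ^ 8 * (200 * Z) := by ring
        _ ≤ 2 * n / Z ^ 8 * Z ^ 8 := by
            gcongr
            calc 200 * Z ≤ (Z * Z) * Z := by
                  gcongr
                  nlinarith
              _ = Z ^ 3 := by ring
              _ ≤ Z ^ 8 := Nat.pow_le_pow_right (by omega) (by norm_num)
        _ ≤ 2 * n := h3
        _ = n * 2 := by ring
    omega
  have hnpos : 0 < n := by
    rw [hn]
    have : 0 < π.Q2 := by omega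
    positivity
  obtain ⟨al, hal, hn2, hn4⟩ := exists_of_card (range n) (fun al => ∃ x < S.n, f x ∣ al)
    (fun al => ∃ t < S.m, cnt π (f (S.x t)) (f (S.y t)) (S.a t * (al : ℕ))
      (S.b t * (al : ℕ)) < π.k * Z) (by
    rw [card_range]
    omega)
  push Not at hn2 hn4
  exact ⟨al, mem_range.1 hal, hn2, hn4⟩

end Pool.Agent.DHD.COPY

namespace Pool.Agent.DHD

open Finset
open scoped Classical

theorem tCOPY : T_COPY := by
  intro π S Z e U hN hS he hi hU
  obtain ⟨a, b, hb0, hbp, hap, hx, hg⟩ := COPY.stage1 hN hS he hi hU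
  have hcard : #(pool π) ≤ π.Q2 - π.Q1 := by
    unfold pool
    refine (Finset.card_filter_le _ _).trans ?_
    simp
  have hpos : 0 < #(pool π) := hb0.trans_le hbp
  have hQ : π.Q1 < π.Q2 := by omega
  obtain ⟨al, hal, hal2, hal3⟩ := COPY.stage2 (f := fun x => e (a + b * x)) hN hS
    (fun x hx' => he _ (hx x hx').1)
    (by
      intro t ht h
      have h1 := hi _ (hx _ (hS.x_lt t ht)).1 _ (hx _ (hS.y_lt t ht)).1 h
      have h2 : b * S.x t = b * S.y t := by omega
      exact hS.ne t ht (Nat.eq_of_mul_eq_mul_left hb0 h2)) hg hQ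
  exact ⟨a, b, al, hb0, by omega, by omega, hal,
    fun x hx' => ⟨(hx x hx').1, (hx x hx').2, hal2 x hx'⟩, hal3⟩

end Pool.Agent.DHD
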