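import Pool.Agent.DHD.TNum

set_option autoImplicit false

namespace Pool.Agent.DHD

open Finset
open scoped Classical

namespace CRT

theorem inv_ex (l x : ℕ) (hl : l.Prime) (hx : ¬ l ∣ x) : ∃ a : ℕ, (x : ZMod l) * a = 1 := by
  have : Fact l.Prime := ⟨hl⟩
  have : NeZero l := ⟨hl.pos.ne'⟩
  have h0 : (x : ZMod l) ≠ 0 := by
    intro h
    exact hx ((ZMod.natCast_eq_zero_iff x l).1 h)
  refine ⟨((x : ZMod l)⁻¹).val, ?_⟩
  rw [ZMod.natCast_zmod_val, mul_inv_cancel₀ h0]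

theorem notdvd_of_inv (l x a : ℕ) (hl : l.Prime) (h : (x : ZMod l) * a = 1) : ¬ l ∣ a := by
  have : Fact l.Prime := ⟨hl⟩
  intro hd
  have : (a : ZMod l) = 0 := (ZMod.natCast_eq_zero_iff a l).2 hd
  rw [this, mul_zero] at h
  exact zero_ne_one h

theorem one_ex (l l' : ℕ) (hl : l.Prime) (hl' : l'.Prime) (hne : l ≠ l') (r : ℕ × ℕ)
    (h1 : 0 < r.1) (h2 : r.1 < l) (h3 : 0 < r.2) (h4 : r.2 < l') :
    ∃ u : (ZMod (l * l'))ˣ, ∀ n : ℕ, ((n : ℕ) : ZMod (l * l')) = u →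
      ((r.1 : ZMod l) * (n * l') = 1) ∧ ((r.2 : ZMod l') * (n * l) = 1) := by
  have hco : Nat.Coprime l l' := (Nat.coprime_primes hl hl').2 hne
  have d1 : ¬ l ∣ r.1 * l' := by
    intro h
    rcases (Nat.Prime.dvd_mul hl).1 h with h | h
    · exact absurd (Nat.le_of_dvd h1 h) (not_le.2 h2)
    · exact hne ((Nat.prime_dvd_prime_iff_eq hl hl').1 h)
  have d2 : ¬ l' ∣ r.2 * l := by
    intro h
    rcases (Nat.Prime.dvd_mul hl').1 h with h | h
    · exact absurd (Nat.le_of_dvd h3 h) (not_le.2 h4)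
    · exact hne ((Nat.prime_dvd_prime_iff_eq hl' hl).1 h).symm
  obtain ⟨a, ha⟩ := inv_ex l _ hl d1
  obtain ⟨b, hb⟩ := inv_ex l' _ hl' d2
  obtain ⟨m, hm1, hm2⟩ := Nat.chineseRemainder hco a b
  have na : ¬ l ∣ m := by
    intro h
    exact notdvd_of_inv l _ a hl ha ((Nat.ModEq.dvd_iff hm1 dvd_rfl).1 h)
  have nb : ¬ l' ∣ m := by
    intro h
    exact notdvd_of_inv l' _ b hl' hb ((Nat.ModEq.dvd_iff hm2 dvd_rfl).1 h)
  have hcop : Nat.Coprime m (l * l') := by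
    apply Nat.Coprime.mul_right
    · exact ((Nat.Prime.coprime_iff_not_dvd hl).2 na).symm
    · exact ((Nat.Prime.coprime_iff_not_dvd hl').2 nb).symm
  refine ⟨ZMod.unitOfCoprime m hcop, ?_⟩
  intro n hn
  rw [ZMod.coe_unitOfCoprime, ZMod.natCast_eq_natCast_iff] at hn
  have e1 : (n : ZMod l) = (a : ZMod l) := by
    rw [ZMod.natCast_eq_natCast_iff]
    exact (Nat.ModEq.of_mul_right l' hn).trans hm1
  have e2 : (n : ZMod l') = (b : ZMod l') := by
    rw [ZMod.natCast_eq_natCast_iff]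
    exact (Nat.ModEq.of_mul_left l hn).trans hm2
  push_cast at ha hb
  constructor
  · rw [e1, ← ha]; ring
  · rw [e2, ← hb]; ring

theorem inj_one (l x y z : ℕ) (hl : l.Prime) (hx : x < l) (hy : y < l)
    (h1 : (x : ZMod l) * z = 1) (h2 : (y : ZMod l) * z = 1) : x = y := by
  have : Fact l.Prime := ⟨hl⟩
  have hz : (z : ZMod l) ≠ 0 := by
    intro h
    rw [h, mul_zero] at h1
    exact zero_ne_one h1
  have : (x : ZMod l) = (y : ZMod l) := mul_right_cancel₀ hz (h1.trans h2.symm)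
  rw [ZMod.natCast_eq_natCast_iff] at this
  exact Nat.ModEq.eq_of_lt_of_lt this hx hy

theorem todvd (l x n k : ℕ) (h : (x : ZMod l) * (n * k) = 1) :
    (l : ℤ) ∣ (x : ℤ) * (n * k) - 1 := by
  rw [← ZMod.intCast_zmod_eq_zero_iff_dvd]
  push_cast
  rw [h, sub_self]

end CRT

open CRT in
theorem tCRT : T_CRT := by
  intro l l' hl hl' hne
  have hpos : 0 < l * l' := Nat.mul_pos hl.pos hl'.pos
  have : NeZero (l * l') := ⟨hpos.ne'⟩
  choose F hF using one_ex l l' hl hl' hne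
  let f : ℕ × ℕ → (ZMod (l * l'))ˣ := fun r =>
    if h : 0 < r.1 ∧ r.1 < l ∧ 0 < r.2 ∧ r.2 < l' then F r h.1 h.2.1 h.2.2.1 h.2.2.2 else 1
  have key : ∀ (r : ℕ × ℕ) (n : ℕ), 0 < r.1 → r.1 < l → 0 < r.2 → r.2 < l' →
      ((n : ℕ) : ZMod (l * l')) = f r →
      ((r.1 : ZMod l) * (n * l') = 1) ∧ ((r.2 : ZMod l') * (n * l) = 1) := by
    intro r n h1 h2 h3 h4 hn
    have e : f r = F r h1 h2 h3 h4 := dif_pos ⟨h1, h2, h3, h4⟩
    rw [e] at hn
    exact hF r h1 h2 h3 h4 n hn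
  refine ⟨f, ?_, ?_⟩
  · intro r s h1 h2 h3 h4 g1 g2 g3 g4 hfs
    have hv : (((f r : ZMod (l * l')).val : ℕ) : ZMod (l * l')) = f r :=
      ZMod.natCast_zmod_val _
    have k1 := key r _ h1 h2 h3 h4 hv
    have k2 := key s ((f r : ZMod (l * l')).val) g1 g2 g3 g4 (by rw [hv, hfs])
    have e1 : r.1 = s.1 := by
      apply inj_one l r.1 s.1 ((f r : ZMod (l * l')).val * l') hl h2 g2
      · push_cast
        exact k1.1
      · push_cast
        exact k2.1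
    have e2 : r.2 = s.2 := by
      apply inj_one l' r.2 s.2 ((f r : ZMod (l * l')).val * l) hl' h4 g4
      · push_cast
        exact k1.2
      · push_cast
        exact k2.2
    exact Prod.ext e1 e2
  · intro r n h1 h2 h3 h4 hn
    have k := key r n h1 h2 h3 h4 hn
    exact ⟨todvd l r.1 n l' k.1, todvd l' r.2 n l k.2⟩

end Pool.Agent.DHD
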