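import Pool.Agent.DHD.TNum

set_option autoImplicit false

/-!
# GADOK: the conditions on a gadget
-/

namespace Pool.Agent.DHD

open Finset

theorem GADOK.mod_eq (P x k y : ℕ) (_hP : 0 < P) (h : x = k * P + y) (hy : y < P) : x % P = y := by
  subst h
  rw [Nat.mul_comm, Nat.mul_add_mod]
  exact Nat.mod_eq_of_lt hy

theorem GADOK.m_le (b H : ℕ) : b * (2 * H + 1) + H ≤ (2 * b + 1) * (H + 1) := by
  have h1 : b * (2 * H + 1) + H = 2 * (b * H) + b + H := by ring
  have h2 : (2 * b + 1) * (H + 1) = 2 * (b * H) + 2 * b + H + 1 := by ring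
  omega

theorem tGADOK : T_GADOK := by
  intro π l l' R ha V hv hp H a P v r r' hok hl hl' hne hl1 hl2 hl1' hl2' hP12 hN hV ha2 hsa haR haR'
    hP hPP1 hPP2 hsv hvV hvV' hPv hdv hlo hVM hMR h8 h8E hres hres' hc1
  have hP0 : 0 < P := hP.pos
  have ha0 : 0 < a := hsa.1
  have hq0 : 0 < l * l' := Nat.mul_pos hl.pos hl'.pos
  obtain ⟨u0, hu0⟩ := hdv
  have hdiv : (v - P) / (l * l') = u0 := by rw [hu0]; exact Nat.mul_div_cancel_left _ hq0
  rw [hdiv] at hres hres' hc1 ⊢
  have hqu : l * l' * u0 + P = v := by omega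
  have hu0pos : 0 < u0 := by
    rcases Nat.eq_zero_or_pos u0 with h | h
    · subst h; omega
    · exact h
  have hqQ : π.Q1 ^ 2 ≤ l * l' := by
    calc π.Q1 ^ 2 = π.Q1 * π.Q1 := by ring
      _ ≤ l * l' := Nat.mul_le_mul hl1.le hl1'.le
  have hu0M : u0 ≤ π.M := by
    by_contra hcon
    push Not at hcon
    have h1 : π.M * π.Q1 ^ 2 ≤ π.M * (l * l') := Nat.mul_le_mul_left _ hqQ
    have h2 : (π.M + 1) * (l * l') ≤ u0 * (l * l') := Nat.mul_le_mul_right _ hcon
    have h3 : (π.M + 1) * (l * l') = π.M * (l * l') + l * l' := by ring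
    have h4 : u0 * (l * l') = l * l' * u0 := by ring
    omega
  have hmain : l * l' * (a * u0) = a * (v - P) := by
    rw [hu0]; ring
  have hmain2 : l * l' * (a * u0) + a * P = a * v := by
    rw [← hqu]; ring
  refine ⟨hP, hPP1, hPP2, ⟨Nat.mul_pos ha0 hu0pos, ?_⟩, ⟨Nat.mul_pos ha0 hsv.1, ?_⟩, ?_, ?_, ?_, ?_,
    ?_, ?_, ?_, ?_, ?_⟩
  · intro p hp' hpd
    rcases (Nat.Prime.dvd_mul hp').1 hpd with h | h
    · exact hsa.2 p hp' h
    · exact le_trans (Nat.le_of_dvd hu0pos h) hu0M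
  · intro p hp' hpd
    rcases (Nat.Prime.dvd_mul hp').1 hpd with h | h
    · exact hsa.2 p hp' h
    · exact hsv.2 p hp' h
  · have : 0 < a * P := Nat.mul_pos ha0 hP0
    omega
  · have : a * v - l * l' * (a * u0) = a * P := by omega
    rw [this]; exact Dvd.intro_left a rfl
  · rw [hmain]
    refine le_trans hlo (Nat.mul_le_mul_left _ ?_)
    refine Nat.mul_le_mul hPP1.le (Nat.mul_le_mul ?_ ?_) <;> omega
  · rw [hN]
    calc P * (a * v) ≤ π.P2 * (R * V) := Nat.mul_le_mul hPP2 (Nat.mul_le_mul haR' hvV')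
      _ = R * V * π.P2 := by ring
  · rw [hN]
    calc π.M * (a * u0 * (a * v)) ≤ π.M * (R * π.M * (R * V)) :=
          Nat.mul_le_mul_left _ (Nat.mul_le_mul (Nat.mul_le_mul haR' hu0M)
            (Nat.mul_le_mul haR' hvV'))
      _ = (π.M ^ 2 * R) * (R * V) := by ring
      _ ≤ π.P2 * (R * V) := Nat.mul_le_mul_right _ hMR
      _ = R * V * π.P2 := by ring
  · have e : r * ((P : ℤ) * ((a * u0 : ℕ) : ℤ) * (l' : ℤ)) = r * ((a : ℤ) * ((u0 * P : ℕ) : ℤ) * (l' : ℤ)) := by
      push_cast; ring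
    rw [e]; exact hres
  · have e : r' * ((P : ℤ) * ((a * u0 : ℕ) : ℤ) * (l : ℤ)) = r' * ((a : ℤ) * ((u0 * P : ℕ) : ℤ) * (l : ℤ)) := by
      push_cast; ring
    rw [e]; exact hres'
  · -- c0
    obtain ⟨b, hb⟩ : ∃ b, a = 2 * b + 1 := ⟨a / 2, by omega⟩
    obtain ⟨h, hh⟩ : ∃ h, π.P2 = 2 * h := by
      have : 2 ∣ (2 * H + 1) * π.P2 := ⟨V, hV.symm⟩
      rcases (Nat.Prime.dvd_mul Nat.prime_two).1 this with h | h
      · omega
      · exact h
    obtain ⟨d, hd⟩ : ∃ d, π.P2 = P + d := ⟨π.P2 - P, by omega⟩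
    obtain ⟨e, he⟩ : ∃ e, V = v + e := ⟨V - v, by omega⟩
    have hd' : d < hp := by omega
    have he' : e < hv := by omega
    -- a v = m P + m d + h - a e
    have hVh : V = (2 * H + 1) * h := by
      have : 2 * V = 2 * ((2 * H + 1) * h) := by rw [hV, hh]; ring
      omega
    have key : a * v + a * e = (b * (2 * H + 1) + H) * P + ((b * (2 * H + 1) + H) * d + h) := by
      have h1 : a * v + a * e = a * V := by rw [he]; ring
      rw [h1, hVh]
      have h2 : (b * (2 * H + 1) + H) * P + ((b * (2 * H + 1) + H) * d + h) =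
          (b * (2 * H + 1) + H) * (P + d) + h := by ring
      rw [h2, ← hd, hh, hb]; ring
    have hmle : (b * (2 * H + 1) + H) ≤ R * (H + 1) := by
      calc (b * (2 * H + 1) + H) ≤ (2 * b + 1) * (H + 1) := GADOK.m_le b H
        _ = a * (H + 1) := by rw [hb]
        _ ≤ R * (H + 1) := Nat.mul_le_mul_right _ haR'
    have hmd : (b * (2 * H + 1) + H) * d ≤ R * (H + 1) * hp := Nat.mul_le_mul hmle hd'.le
    have hae : a * e ≤ R * hv := Nat.mul_le_mul haR' he'.le
    generalize b * (2 * H + 1) + H = m at *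
    generalize hA : R * (H + 1) * hp = A at *
    generalize hB : R * hv = B at *
    have hma : a ≤ m := by
      -- since a v >= a P + ..., m P + ... 
      by_contra hcon
      push Not at hcon
      -- m < a then  m P + m d + h < a v + a e ?
      have h3 : m * P + P ≤ a * P := by
        calc m * P + P = (m + 1) * P := by ring
          _ ≤ a * P := Nat.mul_le_mul_right _ hcon
      have h4 : a * P + a * 1 ≤ a * v := by
        rw [← Nat.mul_add]; exact Nat.mul_le_mul_left _ (by omega)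
      have h5 : m * d + h < P := by omega
      omega
    obtain ⟨k, hk⟩ : ∃ k, m = a + k := ⟨m - a, by omega⟩
    have hmP : m * P = a * P + k * P := by rw [hk]; ring
    have hmod : l * l' * (a * u0) % P = m * d + h - a * e := by
      refine GADOK.mod_eq P _ k _ hP0 ?_ ?_
      · omega
      · omega
    rw [hmod]
    constructor <;> omega
  · intro j hj hj2 p hp' hp1 hp2 hpj
    exact hc1 j p hj hj2 hp' hp1 hp2 hpj

end Pool.Agent.DHD
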