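import Pool.Agent.DHD.TNum

set_option autoImplicit false

/-!
# GOOD: under the two conditions a pair of primes is good
-/

namespace Pool.Agent.DHD

open Finset
open scoped Classical

namespace GOOD

theorem class_card {q V hv : ℕ} (Vs : Finset ℕ)
    (hVs : ∀ v ∈ Vs, V < v + hv ∧ v ≤ V) (b : ℕ) :
    #{v ∈ Vs | v % q = b} ≤ hv / q + 1 := by
  rcases Finset.eq_empty_or_nonempty ({v ∈ Vs | v % q = b} : Finset ℕ) with h | h
  · rw [h, card_empty]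
    exact Nat.zero_le _
  · set T : Finset ℕ := {v ∈ Vs | v % q = b} with hT
    set v0 := T.min' h with hv0
    have hv0T : v0 ∈ T := T.min'_mem h
    rw [← card_range (hv / q + 1)]
    apply card_le_card_of_injOn (fun v => (v - v0) / q)
    · intro v hv'
      have hvT : v ∈ T := hv'
      have hle : v0 ≤ v := T.min'_le v hvT
      have h1 := hVs v (mem_filter.mp hvT).1
      have h2 := hVs v0 (mem_filter.mp hv0T).1
      simp only [coe_range, Set.mem_Iio]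
      have : (v - v0) / q ≤ hv / q := Nat.div_le_div_right (by omega)
      omega
    · intro v hv1 w hw1 hvw
      have hvT : v ∈ T := hv1
      have hwT : w ∈ T := hw1
      have a1 : v0 ≤ v := T.min'_le v hvT
      have a2 : v0 ≤ w := T.min'_le w hwT
      have m1 : v0 % q = v % q := ((mem_filter.mp hv0T).2).trans ((mem_filter.mp hvT).2).symm
      have m2 : v0 % q = w % q := ((mem_filter.mp hv0T).2).trans ((mem_filter.mp hwT).2).symm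
      have d1 : q ∣ v - v0 := (Nat.modEq_iff_dvd' a1).mp m1
      have d2 : q ∣ w - v0 := (Nat.modEq_iff_dvd' a2).mp m2
      simp only at hvw
      have e1 := Nat.div_mul_cancel d1
      have e2 := Nat.div_mul_cancel d2
      rw [hvw] at e1
      omega

/-- powers of `Z` are monotone -/
theorem pw {Z a b : ℕ} (hZ : 10000 ≤ Z) (h : a ≤ b) : Z ^ a ≤ Z ^ b :=
  Nat.pow_le_pow_right (by omega) h

theorem mul_div_le' (a q : ℕ) : q * (a / q + 1) ≤ a + q := by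
  have := Nat.mul_div_le a q
  rw [Nat.mul_add, Nat.mul_one]
  omega

/-- the inequality for `STEPA` -/
theorem num_kappa {Z q κ v : ℕ} (hZ : 10000 ≤ Z) (hq : q ≤ Z ^ 1600)
    (hκ : κ = 2 * Z ^ 1909 / q + 1) (hv : 2 * Z ^ 1909 ≤ Z * v) : 4 * κ * q ≤ Z ^ 2 * v := by
  have h1 : q * κ ≤ 2 * Z ^ 1909 + q := by rw [hκ]; exact mul_div_le' _ _
  have h2 : Z ^ 1600 ≤ Z ^ 1909 := pw hZ (by norm_num)
  have h3 : 4 * (q * κ) ≤ 12 * Z ^ 1909 := by omega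
  have h4 : 12 * Z ^ 1909 ≤ Z * (2 * Z ^ 1909) := by
    calc 12 * Z ^ 1909 ≤ (Z * 2) * Z ^ 1909 := Nat.mul_le_mul_right _ (by omega)
      _ = Z * (2 * Z ^ 1909) := by ring
  calc 4 * κ * q = 4 * (q * κ) := by ring
    _ ≤ Z * (2 * Z ^ 1909) := le_trans h3 h4
    _ ≤ Z * (Z * v) := Nat.mul_le_mul_left _ hv
    _ = Z ^ 2 * v := by ring

/-- the condition of `STEPA` -/
theorem real_A {q κ Z s t : ℕ} {x : ℝ} (hZ : 0 < Z)
    (h1 : (q : ℝ) * x * (Z : ℝ) ^ 2 ≤ (s : ℝ) ^ 2) (h2 : 4 * κ * q ≤ Z ^ 2 * t) :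
    x * ((t : ℝ) * κ) * (4 * (q : ℝ) ^ 2) ≤ ((s : ℝ) * t) ^ 2 := by
  have hZr : (0 : ℝ) < (Z : ℝ) ^ 2 := by positivity
  have h2r : (4 : ℝ) * κ * q ≤ (Z : ℝ) ^ 2 * t := by exact_mod_cast h2
  have h3 : (Z : ℝ) ^ 2 * (x * ((t : ℝ) * κ) * (4 * (q : ℝ) ^ 2)) ≤
      (Z : ℝ) ^ 2 * (((s : ℝ) * t) ^ 2) := by
    calc (Z : ℝ) ^ 2 * (x * ((t : ℝ) * κ) * (4 * (q : ℝ) ^ 2))
        = ((q : ℝ) * x * (Z : ℝ) ^ 2) * ((4 * κ * q) * t) := by ring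
      _ ≤ (s : ℝ) ^ 2 * ((4 * κ * q) * t) := mul_le_mul_of_nonneg_right h1 (by positivity)
      _ = ((s : ℝ) ^ 2 * t) * (4 * κ * q) := by ring
      _ ≤ ((s : ℝ) ^ 2 * t) * ((Z : ℝ) ^ 2 * t) := mul_le_mul_of_nonneg_left h2r (by positivity)
      _ = (Z : ℝ) ^ 2 * (((s : ℝ) * t) ^ 2) := by ring
  exact le_of_mul_le_mul_left h3 hZr

/-- the number of members of `Wset` -/
theorem num_W {Z q s t W : ℕ} (hZ : 10000 ≤ Z) (hs : 2 * Z ^ 1906 ≤ 2 * Z * s)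
    (ht : 2 * Z ^ 1909 ≤ Z * t) (h : s * t ≤ 2 * q * W) : Z ^ 3813 ≤ q * W := by
  have hZ0 : 0 < Z := by omega
  have h1 : Z ^ 1905 ≤ s := by
    have : (2 * Z) * Z ^ 1905 ≤ (2 * Z) * s := by
      calc (2 * Z) * Z ^ 1905 = 2 * Z ^ 1906 := by ring
        _ ≤ 2 * Z * s := hs
    exact Nat.le_of_mul_le_mul_left this (by positivity)
  have h2 : 2 * Z ^ 1908 ≤ t := by
    have : Z * (2 * Z ^ 1908) ≤ Z * t := by
      calc Z * (2 * Z ^ 1908) = 2 * Z ^ 1909 := by ring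
        _ ≤ Z * t := ht
    exact Nat.le_of_mul_le_mul_left this hZ0
  have h3 : 2 * Z ^ 3813 ≤ 2 * (q * W) := by
    calc 2 * Z ^ 3813 = Z ^ 1905 * (2 * Z ^ 1908) := by ring
      _ ≤ s * t := Nat.mul_le_mul h1 h2
      _ ≤ 2 * q * W := h
      _ = 2 * (q * W) := by ring
  omega

/-- `(hv + hp)/q + 1 ≤ 3 hv/q` -/
theorem num_K {Z q : ℕ} (hZ : 10000 ≤ Z) (hq : q ≤ Z ^ 1600) :
    q * ((2 * Z ^ 1909 + 2 * Z ^ 1906) / q + 1) ≤ 6 * Z ^ 1909 := by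
  have h1 := mul_div_le' (2 * Z ^ 1909 + 2 * Z ^ 1906) q
  have h2 : Z ^ 1600 ≤ Z ^ 1909 := pw hZ (by norm_num)
  have h3 : Z ^ 1906 ≤ Z ^ 1909 := pw hZ (by norm_num)
  omega

/-- `hp/q + 1 ≤ 2 hp/q` -/
theorem num_K' {Z q : ℕ} (hZ : 10000 ≤ Z) (hq : q ≤ Z ^ 1600) :
    q * (2 * Z ^ 1906 / q + 1) ≤ 4 * Z ^ 1906 := by
  have h1 := mul_div_le' (2 * Z ^ 1906) q
  have h2 : Z ^ 1600 ≤ Z ^ 1906 := pw hZ (by norm_num)
  omega

theorem num_a {Z q W : ℕ} (hZ : 10000 ≤ Z) (hq0 : 0 < q) (hq : q ≤ Z ^ 1600)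
    (hW : Z ^ 3813 ≤ q * W) :
    16 * q * (((2 * Z ^ 1909 + 2 * Z ^ 1906) / q + 1) * (2 * Z ^ 1906 / q + 1)) ≤ Z ^ 6 * W := by
  have h1 := num_K hZ hq
  have h2 := num_K' hZ hq
  set K := (2 * Z ^ 1909 + 2 * Z ^ 1906) / q + 1
  set K' := 2 * Z ^ 1906 / q + 1
  have h3 : q * (16 * q * (K * K')) ≤ q * (Z ^ 6 * W) := by
    calc q * (16 * q * (K * K')) = 16 * ((q * K) * (q * K')) := by ring
      _ ≤ 16 * ((6 * Z ^ 1909) * (4 * Z ^ 1906)) :=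
          Nat.mul_le_mul_left _ (Nat.mul_le_mul h1 h2)
      _ = 384 * Z ^ 3815 := by ring
      _ ≤ Z ^ 4 * Z ^ 3815 := by
          apply Nat.mul_le_mul_right
          calc 384 ≤ Z := by omega
            _ = Z ^ 1 := (pow_one Z).symm
            _ ≤ Z ^ 4 := pw hZ (by norm_num)
      _ = Z ^ 6 * Z ^ 3813 := by ring
      _ ≤ Z ^ 6 * (q * W) := Nat.mul_le_mul_left _ hW
      _ = q * (Z ^ 6 * W) := by ring
  exact Nat.le_of_mul_le_mul_left h3 hq0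

/-- the lower bound for `Q1` -/
theorem num_Q1 {Z Q Q1 : ℕ} (hZ : 10000 ≤ Z) (h1 : Z ^ 800 < 4 * (Z * Q)) (h2 : Q1 + Z ^ 700 = Q) :
    Z ^ 799 ≤ 5 * Q1 := by
  have hZ0 : 0 < Z := by omega
  have h3 : Z ^ 799 < 4 * Q := by
    have : Z * Z ^ 799 < Z * (4 * Q) := by
      calc Z * Z ^ 799 = Z ^ 800 := by ring
        _ < 4 * (Z * Q) := h1
        _ = Z * (4 * Q) := by ring
    exact Nat.lt_of_mul_lt_mul_left this
  have h4 : 20 * Z ^ 700 ≤ Z ^ 799 := by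
    calc 20 * Z ^ 700 ≤ Z * Z ^ 700 := Nat.mul_le_mul_right _ (by omega)
      _ = Z ^ 701 := by ring
      _ ≤ Z ^ 799 := pw hZ (by norm_num)
  omega

theorem num_b {Z q W Q1 dQ : ℕ} (hZ : 10000 ≤ Z) (hq0 : 0 < q) (hq : q ≤ Z ^ 1600)
    (hW : Z ^ 3813 ≤ q * W) (hQ1 : Z ^ 799 ≤ 5 * Q1) (hQ1' : Q1 ≤ Z ^ 800) (hdQ : dQ = Z ^ 700) :
    16 * Z ^ 8 * ((2 * (2 * Z ^ 83) + 1) * dQ *
      (((2 * Z ^ 1909 + 2 * Z ^ 1906) / q + 1) * (2 * Z ^ 1906 / Q1 + 1))) ≤ W := by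
  have hZ0 : 0 < Z := by omega
  have h1 := num_K hZ hq
  have h2 := num_K' (q := Q1) hZ (le_trans hQ1' (pw hZ (by norm_num)))
  set K := (2 * Z ^ 1909 + 2 * Z ^ 1906) / q + 1
  set K' := 2 * Z ^ 1906 / Q1 + 1
  have h83 : 2 * (2 * Z ^ 83) + 1 ≤ 5 * Z ^ 83 := by
    have : 0 < Z ^ 83 := by positivity
    omega
  have h3 : (q * Z ^ 799) * (16 * Z ^ 8 * ((2 * (2 * Z ^ 83) + 1) * dQ * (K * K'))) ≤
      (q * Z ^ 799) * W := by
    calc (q * Z ^ 799) * (16 * Z ^ 8 * ((2 * (2 * Z ^ 83) + 1) * dQ * (K * K')))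
        = (16 * Z ^ 8 * dQ) * (2 * (2 * Z ^ 83) + 1) * ((q * K) * (Z ^ 799 * K')) := by ring
      _ ≤ (16 * Z ^ 8 * dQ) * (5 * Z ^ 83) * ((6 * Z ^ 1909) * (5 * (4 * Z ^ 1906))) := by
          apply Nat.mul_le_mul
          · exact Nat.mul_le_mul_left _ h83
          · apply Nat.mul_le_mul h1
            calc Z ^ 799 * K' ≤ (5 * Q1) * K' := Nat.mul_le_mul_right _ hQ1
              _ = 5 * (Q1 * K') := by ring
              _ ≤ 5 * (4 * Z ^ 1906) := Nat.mul_le_mul_left _ h2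
      _ = 9600 * Z ^ 4606 := by rw [hdQ]; ring
      _ ≤ Z ^ 6 * Z ^ 4606 := by
          apply Nat.mul_le_mul_right
          calc 9600 ≤ Z := by omega
            _ = Z ^ 1 := (pow_one Z).symm
            _ ≤ Z ^ 6 := pw hZ (by norm_num)
      _ = Z ^ 799 * Z ^ 3813 := by ring
      _ ≤ Z ^ 799 * (q * W) := Nat.mul_le_mul_left _ hW
      _ = (q * Z ^ 799) * W := by ring
  exact Nat.le_of_mul_le_mul_left h3 (by positivity)

theorem num_k {Z q W k : ℕ} (hZ : 10000 ≤ Z) (hq0 : 0 < q) (hq : q ≤ Z ^ 1600)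
    (hW : Z ^ 3813 ≤ q * W) (hk : k ≤ Z ^ 402) : 4 * (k * Z) * q ≤ W := by
  have h3 : q * (4 * (k * Z) * q) ≤ q * W := by
    calc q * (4 * (k * Z) * q) = (4 * Z) * (k * (q * q)) := by ring
      _ ≤ (4 * Z) * (Z ^ 402 * (Z ^ 1600 * Z ^ 1600)) :=
          Nat.mul_le_mul_left _ (Nat.mul_le_mul hk (Nat.mul_le_mul hq hq))
      _ = 4 * Z ^ 3603 := by ring
      _ ≤ Z * Z ^ 3603 := Nat.mul_le_mul_right _ (by omega)
      _ = Z ^ 3604 := by ring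
      _ ≤ Z ^ 3813 := pw hZ (by norm_num)
      _ ≤ q * W := hW
  exact Nat.le_of_mul_le_mul_left h3 hq0

theorem smooth_prime {M a : ℕ} (ha : a.Prime) (h : a ≤ M) : Smooth M a := by
  refine ⟨ha.pos, fun p hp hpa => ?_⟩
  rw [(Nat.prime_dvd_prime_iff_eq hp ha).mp hpa]
  exact h

theorem coprime_mul_of_lt {a l l' : ℕ} (ha : 0 < a) (hl : l.Prime) (hl' : l'.Prime)
    (h : a < l) (h' : a < l') : a.Coprime (l * l') :=
  Nat.Coprime.mul_right (Nat.coprime_of_lt_prime ha.ne' h hl |>.symm)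
    (Nat.coprime_of_lt_prime ha.ne' h' hl' |>.symm)

end GOOD

open GOOD in
/-- GOOD -/
theorem tGOOD (hPOK : T_POK) (hA : T_STEPA) (hB : T_STEPB) (hW2 : T_W2) (hC1 : T_C1)
    (hPAIR : T_PAIR) : T_GOOD := by
  intro c hc p hp1 hp2 hne hG
  obtain ⟨hok, -, -, -, -, -, hP12, hQ12, hN5, hk, hNI, hRI, hmain, hVM, hMR, h8, h8E, hvV,
    hXV, hZR, hV⟩ := hPOK c hc
  obtain ⟨l, l'⟩ := p
  simp only at hp1 hp2 hne ⊢
  have hl := (hc.L_eq l).mp hp1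
  have hl' := (hc.L_eq l').mp hp2
  obtain ⟨hG1, hG2⟩ := hG
  simp only at hG1 hG2
  have hZ : 10000 ≤ c.Z := le_trans (by norm_num) hc.Z_big
  have hZ0 : 0 < c.Z := by omega
  -- the primes
  have hlp := hl.1
  have hlp' := hl'.1
  have hQ1e : c.par.Q1 = c.Q - c.Z ^ 700 := rfl
  have hQ2e : c.par.Q2 = c.Q := rfl
  have hQl : c.par.Q1 < l := hl.2.1
  have hQl' : c.par.Q1 < l' := hl'.2.1
  have hlQ : l ≤ c.par.Q2 := hl.2.2
  have hlQ' : l' ≤ c.par.Q2 := hl'.2.2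
  have hqpos : 0 < l * l' := Nat.mul_pos hlp.pos hlp'.pos
  have : NeZero (l * l') := ⟨hqpos.ne'⟩
  have hq : l * l' ≤ c.Z ^ 1600 := by
    calc l * l' ≤ c.Z ^ 800 * c.Z ^ 800 :=
          Nat.mul_le_mul (le_trans hl.2.2 hc.Q_hi) (le_trans hl'.2.2 hc.Q_hi)
      _ = c.Z ^ 1600 := by ring
  have hP1e : c.par.P1 = c.X - 2 * c.Z ^ 1906 := rfl
  have hP2e : c.par.P2 = c.X := rfl
  have hMe : c.par.M = c.Z ^ 400 := rfl
  have hKh : c.X - 2 * c.Z ^ 1906 + 2 * c.Z ^ 1906 = c.X := by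
    rw [hP1e, hP2e] at hP12
    exact hP12
  -- the sets
  set q : ℕ := l * l' with hqd
  set W : ℕ := #(Wset q c.Ps c.Vs) with hWd
  have hAne : c.A.Nonempty := by
    rw [← card_pos]
    by_contra hcon
    have h0 : #c.A = 0 := by omega
    have h1 := hc.A_card
    rw [h0, Nat.mul_zero] at h1
    have h2 : 0 < c.Z ^ 75 := by positivity
    omega
  have hA1 : ∀ a ∈ c.A, a % 2 = 1 ∧ Smooth c.par.M a ∧ c.R < a + c.Z ^ 75 ∧ a ≤ c.R := by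
    intro a ha
    have h := hc.A_mem a ha
    refine ⟨h.2.1, smooth_prime h.1 ?_, by omega, h.2.2.2⟩
    rw [hMe]
    exact le_trans h.2.2.2 (le_trans hc.R_hi (pw hZ (by norm_num)))
  have hP1 : ∀ P ∈ c.Ps, P.Prime ∧ c.par.P1 < P ∧ P ≤ c.par.P2 := hc.Ps_mem
  have hV1 : ∀ v ∈ c.Vs, Smooth c.par.M v ∧ c.V < v + 2 * c.Z ^ 1909 ∧ v ≤ c.V := by
    intro v hv
    have h := hc.Vs_mem v hv
    exact ⟨h.1, by omega, h.2.2⟩
  have hV2 : ∀ v ∈ c.Vs, c.V < v + 2 * c.Z ^ 1909 ∧ v ≤ c.V := fun v hv => (hV1 v hv).2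
  -- STEPA
  have hstA : #c.Ps * #c.Vs ≤ 2 * q * #{w ∈ c.Ps ×ˢ c.Vs | w.1 % q = w.2 % q} := by
    refine hA q (2 * c.Z ^ 1909 / q + 1) (c.X - 2 * c.Z ^ 1906) (2 * c.Z ^ 1906) c.Ps c.Vs hqpos
      ?_ (class_card c.Vs hV2) ?_
    · intro P hP
      rw [hKh, mem_Ioc]
      exact (hP1 P hP).2
    · rw [hKh]
      exact real_A (Z := c.Z) hZ0 hG1 (num_kappa hZ hq rfl hc.Vs_card)
  have hsub : ({w ∈ c.Ps ×ˢ c.Vs | w.1 % q = w.2 % q} : Finset (ℕ × ℕ)) ⊆ Wset q c.Ps c.Vs := by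
    intro w hw
    rw [mem_filter, mem_product] at hw
    unfold Wset
    rw [mem_filter, mem_product]
    have h1 := (hP1 _ hw.1.1).2.2
    have h2 := (hc.Vs_mem _ hw.1.2).2.1
    have h3 : w.1 < w.2 := by
      rw [hP2e] at h1
      omega
    exact ⟨hw.1, h3, (Nat.modEq_iff_dvd' h3.le).mp hw.2⟩
  have hW : c.Z ^ 3813 ≤ q * W := by
    refine num_W hZ hc.Ps_card hc.Vs_card (le_trans hstA ?_)
    exact Nat.mul_le_mul_left _ (card_le_card hsub)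
  -- coprimality
  have hAq : ∀ a ∈ c.A, 0 < a ∧ a ≤ c.R ∧ a.Coprime q := by
    intro a ha
    have h := hc.A_mem a ha
    have h1 : a < c.par.Q1 := by omega
    exact ⟨h.1.pos, h.2.2.2, coprime_mul_of_lt h.1.pos hlp hlp' (by omega) (by omega)⟩
  have hPq : ∀ P ∈ c.Ps, P.Coprime q := by
    intro P hP
    have h := hP1 P hP
    have h1 := hok.Q_le
    have h2 : P ≠ l := by omega
    have h3 : P ≠ l' := by omega
    exact Nat.Coprime.mul_right ((Nat.coprime_primes h.1 hlp).mpr h2)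
      ((Nat.coprime_primes h.1 hlp').mpr h3)
  have huq : ∀ w ∈ Wset q c.Ps c.Vs, (uw q w).Coprime q := by
    intro w hw
    unfold Wset at hw
    rw [mem_filter, mem_product] at hw
    obtain ⟨⟨hw1, hw2⟩, hlt, hdvd⟩ := hw
    have hv := (hV1 w.2 hw2).2.2
    have hpos : 0 < uw q w := by
      unfold uw
      exact Nat.div_pos (Nat.le_of_dvd (by omega) hdvd) hqpos
    have hmul : q * uw q w = w.2 - w.1 := Nat.mul_div_cancel' hdvd
    have hQQ : c.par.Q1 ^ 2 < q := by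
      rw [sq]
      exact Nat.mul_lt_mul'' hQl hQl'
    have hMpos : 0 < c.par.M := by have := hok.M_pos; omega
    have hlt2 : q * uw q w < q * c.par.M := by
      calc q * uw q w ≤ c.V := by omega
        _ ≤ c.par.M * c.par.Q1 ^ 2 := hVM
        _ < c.par.M * q := Nat.mul_lt_mul_of_pos_left hQQ hMpos
        _ = q * c.par.M := Nat.mul_comm _ _
    have hltM : uw q w < c.par.M := Nat.lt_of_mul_lt_mul_left hlt2
    have hMQ := hok.M_lt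
    exact coprime_mul_of_lt hpos hlp hlp' (by omega) (by omega)
  -- W2
  have hw2 := (hW2 q c.X (2 * c.Z ^ 1906) c.V (2 * c.Z ^ 1909) c.Ps c.Vs
    (fun P hP => ⟨by have := (hP1 P hP).2.1; rw [hP1e] at this; omega, (hP1 P hP).2.2, hPq P hP⟩)
    hV2 huq).2
  -- STEPB
  have hstB := hB q c.R c.Z 5 c.A c.Ps c.Vs hZ0 hAq hAne hPq huq (by
    have e5 : (2 : ℕ) ^ 5 = 32 := by norm_num
    rw [e5]
    exact hG2)
  -- C1
  have hc1 := hC1 c.par l l' c.R c.V (2 * c.Z ^ 1906) (2 * c.Z ^ 1909) (2 * c.Z ^ 83)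
    c.A c.Ps c.Vs hok hlp hlp' hne hQl hlQ hQl' hlQ' hP12 hNI hRI
    (fun a ha => ⟨(hA1 a ha).2.1, (hA1 a ha).2.2.2⟩) hP1 hV1
    (le_of_eq (by show c.X * (c.R * c.V) = c.R * c.V * c.X; ring))
  -- PAIR
  have hQ1lo : c.Z ^ 799 ≤ 5 * c.par.Q1 := num_Q1 hZ hc.Q_lo hQ12
  have hQ1hi : c.par.Q1 ≤ c.Z ^ 800 := by
    have := hc.Q_hi
    omega
  have h8Z : 8 * c.Z ^ 8 ≤ c.par.Q1 := by
    have h1 : 40 * c.Z ^ 8 ≤ c.Z ^ 799 := by
      calc 40 * c.Z ^ 8 ≤ c.Z * c.Z ^ 8 := Nat.mul_le_mul_right _ (by omega)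
        _ = c.Z ^ 9 := by ring
        _ ≤ c.Z ^ 799 := pw hZ (by norm_num)
    omega
  refine hPAIR c.par l l' c.R (c.Z ^ 75) c.V (2 * c.Z ^ 1909) (2 * c.Z ^ 1906) (c.Z ^ 3)
    (2 * c.Z ^ 83) c.Z c.par.k c.A c.Ps c.Vs hok hlp hlp' hne hQl hlQ hQl' hlQ' hP12 rfl
    hc.V_eq hA1 hP1 hV1 hAne hmain hVM hMR h8 h8E hZ0 ?_ hc1 h8Z ?_ ?_ ?_
  · exact le_trans hstB (Nat.mul_le_mul_left _ hw2)
  · exact num_a hZ hqpos hq hW
  · refine num_b hZ hqpos hq hW hQ1lo hQ1hi ?_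
    omega
  · exact num_k hZ hqpos hq hW hk

end Pool.Agent.DHD
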