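import Pool.Agent.DHD.TNum

set_option autoImplicit false

/-!
# The additive large sieve with a logarithm
-/

namespace Pool.Agent.DHD

open Finset
open scoped Classical

namespace LS

lemma ex_add (x y : ℝ) : ex (x + y) = ex x * ex y := by
  unfold ex
  rw [← Complex.exp_add]
  congr 1
  push_cast
  ring

lemma ex_norm (x : ℝ) : ‖ex x‖ = 1 := by
  unfold ex
  have : (2 * Real.pi * x * Complex.I : ℂ) = ((2 * Real.pi * x : ℝ) : ℂ) * Complex.I := by
    push_cast; ring
  rw [this, Complex.norm_exp_ofReal_mul_I]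

lemma ex_int (m : ℤ) : ex m = 1 := by
  unfold ex
  have : (2 * Real.pi * ((m : ℝ) : ℂ) * Complex.I : ℂ) = m * (2 * Real.pi * Complex.I) := by
    push_cast; ring
  rw [this, Complex.exp_int_mul_two_pi_mul_I]

lemma ex_conj (x : ℝ) : (starRingEnd ℂ) (ex x) = ex (-x) := by
  unfold ex
  rw [← Complex.exp_conj]
  congr 1
  rw [map_mul, map_mul, map_mul, Complex.conj_I, Complex.conj_ofReal, Complex.conj_ofReal,
    map_ofNat]
  push_cast
  ring

lemma ex_nat_mul (n : ℕ) (x : ℝ) : ex (n * x) = ex x ^ n := by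
  unfold ex
  rw [← Complex.exp_nat_mul]
  congr 1
  push_cast
  ring

/-- `|e(t) - 1| ≥ 4 |t|` for `|t| ≤ 1/2` -/
lemma ex_sub_one (t : ℝ) (ht : |t| ≤ 1 / 2) : 4 * |t| ≤ ‖ex t - 1‖ := by
  have h1 : ex t = Complex.exp (Complex.I * ((2 * Real.pi * t : ℝ) : ℂ)) := by
    unfold ex
    congr 1
    push_cast
    ring
  rw [h1, Complex.norm_exp_I_mul_ofReal_sub_one]
  have h2 : 2 * Real.pi * t / 2 = Real.pi * t := by ring
  rw [h2, Real.norm_eq_abs, abs_mul, abs_of_pos (by norm_num : (0:ℝ) < 2)]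
  have h3 : |Real.sin (Real.pi * t)| = Real.sin (Real.pi * |t|) := by
    rcases le_or_gt 0 t with h | h
    · rw [abs_of_nonneg h, abs_of_nonneg]
      refine Real.sin_nonneg_of_nonneg_of_le_pi (by positivity) ?_
      have : t ≤ 1 / 2 := le_trans (le_abs_self _) ht
      nlinarith [Real.pi_pos]
    · rw [abs_of_neg h, show Real.pi * t = -(Real.pi * -t) by ring, Real.sin_neg, abs_neg,
        abs_of_nonneg]
      refine Real.sin_nonneg_of_nonneg_of_le_pi (by nlinarith [Real.pi_pos]) ?_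
      have : -t ≤ 1 / 2 := le_trans (neg_le_abs _) ht
      nlinarith [Real.pi_pos]
  rw [h3]
  have h4 : 2 / Real.pi * (Real.pi * |t|) ≤ Real.sin (Real.pi * |t|) := by
    refine Real.mul_le_sin (by positivity) ?_
    nlinarith [Real.pi_pos]
  have h5 : 2 / Real.pi * (Real.pi * |t|) = 2 * |t| := by
    field_simp
  linarith

/-- the geometric sum -/
lemma geo (t : ℝ) (K h : ℕ) (ht : 0 < |t - round t|) :
    ‖∑ n ∈ Ioc K (K + h), ex (n * t)‖ ≤ 1 / (2 * |t - round t|) := by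
  set u := t - round t with hu
  have hu2 : |u| ≤ 1 / 2 := abs_sub_round t
  have h0 : ex t = ex u := by
    have : t = u + ((round t : ℤ) : ℝ) := by rw [hu]; ring
    conv_lhs => rw [this]
    rw [ex_add, ex_int, mul_one]
  have h1 := ex_sub_one u hu2
  have h2 : 0 < ‖ex t - 1‖ := by rw [h0]; linarith
  have h3 : ex t ≠ 1 := by
    intro h; rw [h] at h2; simp at h2
  have h4 : ∑ n ∈ Ioc K (K + h), ex (n * t) = ex t ^ (K + 1) * ((ex t ^ h - 1) / (ex t - 1)) := by
    rw [← geom_sum_eq h3, Finset.mul_sum]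
    have : Ioc K (K + h) = Ico (K + 1) (K + 1 + h) := by
      ext n; simp only [mem_Ioc, mem_Ico]; omega
    rw [this, Finset.sum_Ico_eq_sum_range]
    have e : K + 1 + h - (K + 1) = h := by omega
    rw [e]
    refine Finset.sum_congr rfl fun n _ => ?_
    rw [ex_nat_mul, pow_add]
  rw [h4, norm_mul, norm_pow, ex_norm, one_pow, one_mul, norm_div]
  have h5 : ‖ex t ^ h - 1‖ ≤ 2 := by
    refine (norm_sub_le _ _).trans ?_
    rw [norm_pow, ex_norm, one_pow, norm_one]
    norm_num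
  rw [h0] at h5 ⊢
  calc ‖ex u ^ h - 1‖ / ‖ex u - 1‖ ≤ 2 / (4 * |u|) := by
        refine div_le_div₀ (by norm_num) h5 (by positivity) h1
    _ = 1 / (2 * |u|) := by
        field_simp
        norm_num

/-- the sum over a well spaced set -/
lemma spaced (s : Finset ℝ) (δ : ℝ) (hδ : 0 < δ) (hδ2 : δ ≤ 1 / 2)
    (hs : ∀ x ∈ s, ∀ y ∈ s, x ≠ y → δ ≤ |x - y - round (x - y)|) (x : ℝ) (hx : x ∈ s) :
    ∑ y ∈ s with y ≠ x, 1 / (2 * |x - y - round (x - y)|) ≤ 2 / δ * (1 + Real.log (1 / δ)) := by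
  set t : ℝ → ℝ := fun y => x - y - round (x - y) with ht
  set J : ℕ := ⌊1 / δ⌋₊ with hJ
  set f : ℝ → Bool × ℕ := fun y => (decide (0 ≤ t y), ⌊|t y| / δ⌋₊) with hf
  have habs : ∀ y ∈ s.filter (· ≠ x), δ ≤ |t y| := by
    intro y hy
    rw [mem_filter] at hy
    exact hs x hx y hy.1 (Ne.symm hy.2)
  have hj1 : ∀ y ∈ s.filter (· ≠ x), 1 ≤ ⌊|t y| / δ⌋₊ := by
    intro y hy
    rw [Nat.one_le_floor_iff]
    rw [le_div_iff₀ hδ, one_mul]
    exact habs y hy
  have hmaps : ∀ y ∈ s.filter (· ≠ x), f y ∈ (univ : Finset Bool) ×ˢ Icc 1 J := by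
    intro y hy
    rw [mem_product, mem_Icc]
    refine ⟨mem_univ _, hj1 y hy, ?_⟩
    refine Nat.floor_mono ?_
    refine div_le_div_of_nonneg_right ?_ hδ.le
    exact (abs_sub_round (x - y)).trans (by norm_num)
  have hinj : Set.InjOn f (s.filter (· ≠ x) : Finset ℝ) := by
    intro y hy z hz hyz
    by_contra hne
    rw [mem_coe] at hy hz
    have hys := (mem_filter.1 hy).1
    have hzs := (mem_filter.1 hz).1
    have h1 : decide (0 ≤ t y) = decide (0 ≤ t z) := congrArg Prod.fst hyz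
    have h2 : ⌊|t y| / δ⌋₊ = ⌊|t z| / δ⌋₊ := congrArg Prod.snd hyz
    have h3 : |(|t y| - |t z|)| < δ := by
      have a1 := Nat.floor_le (show 0 ≤ |t y| / δ by positivity)
      have a2 := Nat.lt_floor_add_one (|t y| / δ)
      have a3 := Nat.floor_le (show 0 ≤ |t z| / δ by positivity)
      have a4 := Nat.lt_floor_add_one (|t z| / δ)
      rw [h2] at a1 a2
      have b1 : |t y| / δ - |t z| / δ < 1 := by linarith
      have b2 : |t z| / δ - |t y| / δ < 1 := by linarith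
      rw [← sub_div, div_lt_one hδ] at b1 b2
      rw [abs_lt]
      constructor <;> linarith
    have h4 : |t y - t z| < δ := by
      by_cases hy0 : 0 ≤ t y
      · have hz0 : 0 ≤ t z := by
          simpa [hy0] using h1
        rwa [abs_of_nonneg hy0, abs_of_nonneg hz0] at h3
      · have hz0 : ¬ 0 ≤ t z := by
          simpa [hy0] using h1
        rw [abs_of_neg (not_le.1 hy0), abs_of_neg (not_le.1 hz0)] at h3
        rw [← abs_neg]
        convert h3 using 2
        ring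
    have h5 : t y - t z = z - y - ((round (x - y) - round (x - z) : ℤ) : ℝ) := by
      simp only [ht]
      push_cast
      ring
    have h6 : δ ≤ |z - y - round (z - y)| := hs z hzs y hys (Ne.symm hne)
    have h7 := round_le (z - y) (round (x - y) - round (x - z))
    rw [← h5] at h7
    linarith
  have hle : ∀ y ∈ s.filter (· ≠ x), 1 / (2 * |t y|) ≤ 1 / (2 * (δ * ((f y).2 : ℝ))) := by
    intro y hy
    have h1 : (1 : ℝ) ≤ ((f y).2 : ℝ) := by exact_mod_cast hj1 y hy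
    have h2 : δ * ((f y).2 : ℝ) ≤ |t y| := by
      have := Nat.floor_le (show 0 ≤ |t y| / δ by positivity)
      rw [le_div_iff₀ hδ] at this
      linarith
    refine one_div_le_one_div_of_le (by positivity) ?_
    linarith
  have hharm : ∑ j ∈ Icc 1 J, (1 : ℝ) / j ≤ 1 + Real.log (1 / δ) := by
    have h1 := harmonic_le_one_add_log J
    have h2 : ((harmonic J : ℚ) : ℝ) = ∑ j ∈ Icc 1 J, (1 : ℝ) / j := by
      rw [harmonic_eq_sum_Icc]
      push_cast
      refine Finset.sum_congr rfl fun j _ => ?_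
      rw [one_div]
    rw [h2] at h1
    have hd : 2 ≤ 1 / δ := by
      rw [le_div_iff₀ hδ]; linarith
    have hJ1 : 1 ≤ J := by
      rw [hJ, Nat.one_le_floor_iff]; linarith
    have hJ2 : (J : ℝ) ≤ 1 / δ := Nat.floor_le (by positivity)
    have hJ3 : Real.log J ≤ Real.log (1 / δ) :=
      Real.log_le_log (by exact_mod_cast hJ1) hJ2
    linarith
  calc ∑ y ∈ s with y ≠ x, 1 / (2 * |t y|)
      ≤ ∑ y ∈ s with y ≠ x, 1 / (2 * (δ * ((f y).2 : ℝ))) := Finset.sum_le_sum hle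
    _ = ∑ p ∈ (s.filter (· ≠ x)).image f, 1 / (2 * (δ * (p.2 : ℝ))) := by
        rw [Finset.sum_image hinj]
    _ ≤ ∑ p ∈ (univ : Finset Bool) ×ˢ Icc 1 J, 1 / (2 * (δ * (p.2 : ℝ))) := by
        refine Finset.sum_le_sum_of_subset_of_nonneg ?_ fun _ _ _ => by positivity
        intro p hp
        rw [mem_image] at hp
        obtain ⟨y, hy, rfl⟩ := hp
        exact hmaps y hy
    _ = 1 / δ * ∑ j ∈ Icc 1 J, (1 : ℝ) / j := by
        rw [Finset.sum_product, Fintype.sum_bool, ← two_mul, Finset.mul_sum, Finset.mul_sum]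
        refine Finset.sum_congr rfl fun j hj => ?_
        have : (1 : ℝ) ≤ j := by exact_mod_cast (mem_Icc.1 hj).1
        field_simp
    _ ≤ 1 / δ * (1 + Real.log (1 / δ)) :=
        mul_le_mul_of_nonneg_left hharm (by positivity)
    _ ≤ 2 / δ * (1 + Real.log (1 / δ)) := by
        have hd : 1 ≤ 1 / δ := by
          rw [le_div_iff₀ hδ]; linarith
        have := Real.log_nonneg hd
        refine mul_le_mul_of_nonneg_right ?_ (by linarith)
        exact div_le_div_of_nonneg_right (by norm_num) hδ.le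

/-- the dual inequality -/
lemma dual (s : Finset ℝ) (δ : ℝ) (K h : ℕ) (b : ℝ → ℂ) (hδ : 0 < δ) (hδ2 : δ ≤ 1 / 2)
    (hs : ∀ x ∈ s, ∀ y ∈ s, x ≠ y → δ ≤ |x - y - round (x - y)|) :
    ∑ n ∈ Ioc K (K + h), ‖∑ x ∈ s, b x * ex (n * x)‖ ^ 2 ≤
      (h + 2 / δ * (1 + Real.log (1 / δ))) * ∑ x ∈ s, ‖b x‖ ^ 2 := by
  set C : ℝ → ℝ → ℝ := fun x y => ‖∑ n ∈ Ioc K (K + h), ex (n * (x - y))‖ with hC
  have hCsym : ∀ x y, C x y = C y x := by
    intro x y
    simp only [hC]
    rw [← Complex.norm_conj, map_sum]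
    congr 1
    refine Finset.sum_congr rfl fun n _ => ?_
    rw [ex_conj]
    congr 1
    ring
  have hrow : ∀ x ∈ s, ∑ y ∈ s, C x y ≤ h + 2 / δ * (1 + Real.log (1 / δ)) := by
    intro x hx
    have h1 : ∑ y ∈ s, C x y = ∑ y ∈ s with y = x, C x y + ∑ y ∈ s with y ≠ x, C x y := by
      rw [Finset.sum_filter_add_sum_filter_not]
    rw [h1]
    refine add_le_add ?_ ?_
    · rw [Finset.filter_eq', if_pos hx, Finset.sum_singleton]
      simp only [hC]
      refine (norm_sum_le _ _).trans ?_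
      simp [ex_norm]
    · refine le_trans (Finset.sum_le_sum fun y hy => ?_) (spaced s δ hδ hδ2 hs x hx)
      rw [mem_filter] at hy
      refine geo (x - y) K h ?_
      exact lt_of_lt_of_le hδ (hs x hx y hy.1 (Ne.symm hy.2))
  have hexp : ((∑ n ∈ Ioc K (K + h), ‖∑ x ∈ s, b x * ex (n * x)‖ ^ 2 : ℝ) : ℂ) =
      ∑ x ∈ s, ∑ y ∈ s, b x * (starRingEnd ℂ) (b y) * ∑ n ∈ Ioc K (K + h), ex (n * (x - y)) := by
    push_cast
    have h1 : ∀ n ∈ Ioc K (K + h), (‖∑ x ∈ s, b x * ex (n * x)‖ : ℂ) ^ 2 =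
        ∑ x ∈ s, ∑ y ∈ s, b x * (starRingEnd ℂ) (b y) * ex (n * (x - y)) := by
      intro n _
      rw [← Complex.mul_conj', map_sum, Finset.sum_mul_sum]
      refine Finset.sum_congr rfl fun x _ => Finset.sum_congr rfl fun y _ => ?_
      rw [map_mul, ex_conj]
      have : ex (n * (x - y)) = ex (n * x) * ex (-(n * y)) := by
        rw [← ex_add]; congr 1; ring
      rw [this]
      ring
    rw [Finset.sum_congr rfl h1, Finset.sum_comm]
    refine Finset.sum_congr rfl fun x _ => ?_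
    rw [Finset.sum_comm]
    refine Finset.sum_congr rfl fun y _ => ?_
    rw [Finset.mul_sum]
  have hnn : 0 ≤ ∑ n ∈ Ioc K (K + h), ‖∑ x ∈ s, b x * ex (n * x)‖ ^ 2 :=
    Finset.sum_nonneg fun _ _ => by positivity
  calc ∑ n ∈ Ioc K (K + h), ‖∑ x ∈ s, b x * ex (n * x)‖ ^ 2
      = ‖((∑ n ∈ Ioc K (K + h), ‖∑ x ∈ s, b x * ex (n * x)‖ ^ 2 : ℝ) : ℂ)‖ := by
        rw [Complex.norm_real, Real.norm_eq_abs, abs_of_nonneg hnn]
    _ ≤ ∑ x ∈ s, ∑ y ∈ s, ‖b x‖ * ‖b y‖ * C x y := by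
        rw [hexp]
        refine (norm_sum_le _ _).trans (Finset.sum_le_sum fun x _ => ?_)
        refine (norm_sum_le _ _).trans (Finset.sum_le_sum fun y _ => ?_)
        rw [norm_mul, norm_mul, Complex.norm_conj]
    _ ≤ ∑ x ∈ s, ∑ y ∈ s, ((‖b x‖ ^ 2 * C x y) / 2 + (‖b y‖ ^ 2 * C y x) / 2) := by
        refine Finset.sum_le_sum fun x _ => Finset.sum_le_sum fun y _ => ?_
        rw [hCsym y x]
        have h1 : 0 ≤ C x y := norm_nonneg _
        nlinarith [mul_nonneg (sq_nonneg (‖b x‖ - ‖b y‖)) h1]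
    _ = ∑ x ∈ s, ‖b x‖ ^ 2 * ∑ y ∈ s, C x y := by
        simp only [Finset.sum_add_distrib]
        rw [Finset.sum_comm (f := fun x y => ‖b y‖ ^ 2 * C y x / 2), ← Finset.sum_add_distrib]
        refine Finset.sum_congr rfl fun x _ => ?_
        rw [← Finset.sum_add_distrib, Finset.mul_sum]
        refine Finset.sum_congr rfl fun y _ => ?_
        ring
    _ ≤ ∑ x ∈ s, ‖b x‖ ^ 2 * (h + 2 / δ * (1 + Real.log (1 / δ))) :=
        Finset.sum_le_sum fun x hx => mul_le_mul_of_nonneg_left (hrow x hx) (by positivity)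
    _ = (h + 2 / δ * (1 + Real.log (1 / δ))) * ∑ x ∈ s, ‖b x‖ ^ 2 := by
        rw [← Finset.sum_mul, mul_comm]

end LS

open LS in
theorem tLS : T_LS := by
  intro s δ K h a hδ hδ2 hs
  set D : ℝ := h + 2 / δ * (1 + Real.log (1 / δ)) with hD
  have hD0 : 0 ≤ D := by
    have hd : 1 ≤ 1 / δ := by
      rw [le_div_iff₀ hδ]; linarith
    have := Real.log_nonneg hd
    positivity
  set S : ℝ → ℂ := fun x => ∑ n ∈ Ioc K (K + h), (a n : ℂ) * ex (n * x) with hS
  set T : ℝ := ∑ x ∈ s, ‖S x‖ ^ 2 with hT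
  set A : ℝ := ∑ n ∈ Ioc K (K + h), a n ^ 2 with hA
  have hA0 : 0 ≤ A := Finset.sum_nonneg fun _ _ => by positivity
  have hT0 : 0 ≤ T := Finset.sum_nonneg fun _ _ => by positivity
  set B : ℕ → ℂ := fun n => ∑ x ∈ s, (starRingEnd ℂ) (S x) * ex (n * x) with hB
  have h1 : (T : ℂ) = ∑ n ∈ Ioc K (K + h), (a n : ℂ) * B n := by
    rw [hT]
    push_cast
    have : ∀ x ∈ s, (‖S x‖ : ℂ) ^ 2 =
        ∑ n ∈ Ioc K (K + h), (a n : ℂ) * ((starRingEnd ℂ) (S x) * ex (n * x)) := by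
      intro x _
      rw [← Complex.conj_mul']
      conv_lhs => rw [hS]
      simp only
      rw [Finset.mul_sum]
      refine Finset.sum_congr rfl fun n _ => ?_
      ring
    rw [Finset.sum_congr rfl this, Finset.sum_comm]
    refine Finset.sum_congr rfl fun n _ => ?_
    rw [hB, Finset.mul_sum]
  have h2 : T ≤ ∑ n ∈ Ioc K (K + h), |a n| * ‖B n‖ := by
    have : T = ‖(T : ℂ)‖ := by
      rw [Complex.norm_real, Real.norm_eq_abs, abs_of_nonneg hT0]
    rw [this, h1]
    refine (norm_sum_le _ _).trans (le_of_eq ?_)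
    refine Finset.sum_congr rfl fun n _ => ?_
    rw [norm_mul, Complex.norm_real, Real.norm_eq_abs]
  have h3 : T ^ 2 ≤ A * (D * T) := by
    calc T ^ 2 ≤ (∑ n ∈ Ioc K (K + h), |a n| * ‖B n‖) ^ 2 := by
          exact pow_le_pow_left₀ hT0 h2 2
      _ ≤ (∑ n ∈ Ioc K (K + h), |a n| ^ 2) * ∑ n ∈ Ioc K (K + h), ‖B n‖ ^ 2 :=
          Finset.sum_mul_sq_le_sq_mul_sq _ _ _
      _ ≤ A * (D * T) := by
          have e1 : ∑ n ∈ Ioc K (K + h), |a n| ^ 2 = A := by
            refine Finset.sum_congr rfl fun n _ => sq_abs _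
          rw [e1]
          refine mul_le_mul_of_nonneg_left ?_ hA0
          have := dual s δ K h (fun x => (starRingEnd ℂ) (S x)) hδ hδ2 hs
          simpa only [Complex.norm_conj] using this
  rcases hT0.eq_or_lt with h4 | h4
  · rw [← h4]
    exact mul_nonneg hD0 hA0
  · have h5 : T * T ≤ (D * A) * T := by nlinarith
    exact le_of_mul_le_mul_right h5 h4

end Pool.Agent.DHD
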