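import Pool.Agent.DHD.TNum

set_option autoImplicit false

/-!
# Almost all pairs of primes are good (Markov)
-/

namespace Pool.Agent.DHD

open Finset
open scoped Classical

namespace MARK

lemma vr_nonneg (q : ℕ) (s : Finset ℕ) (a : ℕ → ℝ) : 0 ≤ vr q s a :=
  Finset.sum_nonneg fun _ _ => sq_nonneg _

/-- Markov -/
lemma markov {α : Type} (S : Finset α) (F : α → ℝ) (B c T : ℝ) (hF : ∀ p ∈ S, 0 ≤ F p)
    (hc : 0 ≤ c) (hB : ∑ p ∈ S, F p ≤ B) :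
    #{p ∈ S | ¬ F p * c ≤ T} * T ≤ c * B := by
  calc (#{p ∈ S | ¬ F p * c ≤ T} : ℝ) * T = ∑ p ∈ S with ¬ F p * c ≤ T, T := by
        rw [Finset.sum_const, nsmul_eq_mul]
    _ ≤ ∑ p ∈ S with ¬ F p * c ≤ T, F p * c :=
        Finset.sum_le_sum fun p hp => (not_le.1 (mem_filter.1 hp).2).le
    _ ≤ ∑ p ∈ S, F p * c :=
        Finset.sum_le_sum_of_subset_of_nonneg (filter_subset _ _) fun p hp _ =>
          mul_nonneg (hF p hp) hc
    _ = c * ∑ p ∈ S, F p := by rw [← Finset.sum_mul, mul_comm]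
    _ ≤ c * B := mul_le_mul_of_nonneg_left hB hc

lemma pow_mono {z : ℝ} (hz : 1 ≤ z) {a b : ℕ} (h : a ≤ b) : z ^ a ≤ z ^ b :=
  pow_le_pow_right₀ hz h

end MARK

open MARK in
theorem tMARK (hVAR : T_VAR) (hNUL : T_NUL) : T_MARK := by
  intro c hc
  obtain ⟨Z, R, X, V, Q, A, Ps, Vs, L⟩ := c
  have hZ := hc.Z_big
  have hZlogr := hc.Z_logr
  have hRhi := hc.R_hi
  have hQlo := hc.Q_lo
  have hQhi := hc.Q_hi
  have hAmem := hc.A_mem
  have hAcard := hc.A_card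
  have hPcard := hc.Ps_card
  have hLeq := hc.L_eq
  have hLcard := hc.L_card
  simp only at hZ hZlogr hRhi hQlo hQhi hAmem hAcard hPcard hLeq hLcard
  obtain ⟨z, hz⟩ : ∃ z : ℝ, z = (Z : ℝ) := ⟨_, rfl⟩
  have hzn : ∀ n : ℕ, ((Z ^ n : ℕ) : ℝ) = z ^ n := fun n => by rw [hz, Nat.cast_pow]
  have hz50 : (10 : ℝ) ^ 50 ≤ z := by rw [hz]; exact_mod_cast hZ
  have hz1 : (1 : ℝ) ≤ z := le_trans (by norm_num) hz50
  have hz0 : (0 : ℝ) < z := lt_of_lt_of_le one_pos hz1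
  -- the bounds for the cardinalities
  obtain ⟨Lc, hLc⟩ : ∃ Lc : ℝ, Lc = (#L : ℝ) := ⟨_, rfl⟩
  have hL1 : z ^ 699 ≤ 2 * Lc := by
    have h : z ^ 700 ≤ 2 * z * Lc := by rw [hz, hLc]; exact_mod_cast hLcard
    have h2 : z * z ^ 699 ≤ z * (2 * Lc) := by
      calc z * z ^ 699 = z ^ 700 := by ring
        _ ≤ 2 * z * Lc := h
        _ = z * (2 * Lc) := by ring
    exact le_of_mul_le_mul_left h2 hz0
  have hP1 : z ^ 1905 ≤ (#Ps : ℝ) := by
    have h : 2 * z ^ 1906 ≤ 2 * z * #Ps := by rw [hz]; exact_mod_cast hPcard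
    have h2 : (2 * z) * z ^ 1905 ≤ (2 * z) * #Ps := by
      calc (2 * z) * z ^ 1905 = 2 * z ^ 1906 := by ring
        _ ≤ 2 * z * #Ps := h
    exact le_of_mul_le_mul_left h2 (by positivity)
  have hA1 : z ^ 74 ≤ 2 * (#A : ℝ) := by
    have h : z ^ 75 ≤ 2 * z * #A := by rw [hz]; exact_mod_cast hAcard
    have h2 : z * z ^ 74 ≤ z * (2 * #A) := by
      calc z * z ^ 74 = z ^ 75 := by ring
        _ ≤ 2 * z * #A := h
        _ = z * (2 * #A) := by ring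
    exact le_of_mul_le_mul_left h2 hz0
  have hLc0 : 0 ≤ Lc := by rw [hLc]; exact Nat.cast_nonneg _
  -- the assumptions of VAR
  have hZ50' : 10 ^ 50 ≤ Z := hZ
  have hZ4 : 4 ≤ Z := le_trans (by norm_num) hZ
  have hQ2 : 2 ≤ Q := by
    by_contra h
    have h1 : Q ≤ 1 := by omega
    have h2 : 4 * (Z * Q) ≤ Z * Z := by
      calc 4 * (Z * Q) ≤ 4 * (Z * 1) := by gcongr
        _ ≤ Z * Z := by nlinarith
    have h3 : Z * Z ≤ Z ^ 800 := by
      calc Z * Z = Z ^ 2 := by ring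
        _ ≤ Z ^ 800 := Nat.pow_le_pow_right (by omega) (by norm_num)
    omega
  have hLpr : ∀ l ∈ L, l.Prime ∧ l ≤ Q := fun l hl => by
    have := (hLeq l).1 hl
    exact ⟨this.1, this.2.2⟩
  have hQr : (Q : ℝ) ≤ z ^ 800 := by rw [← hzn]; exact Nat.cast_le.2 hQhi
  have hΛ : 2 + 8 * Real.log Q ≤ z := by
    rw [hz]
    refine le_trans ?_ hZlogr
    have : Real.log Q ≤ Real.log ((Z ^ 800 : ℕ) : ℝ) := by
      refine Real.log_le_log (by exact_mod_cast (by omega : 0 < Q)) ?_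
      exact_mod_cast hQhi
    linarith
  have hQ4 : (Q : ℝ) ^ 4 * z ≤ z ^ 3201 := by
    calc (Q : ℝ) ^ 4 * z ≤ (z ^ 800) ^ 4 * z := by gcongr
      _ = z ^ 3201 := by rw [← pow_mul]; ring
  have hQ22 : (Q : ℝ) ^ 2 * z ≤ z ^ 1601 := by
    calc (Q : ℝ) ^ 2 * z ≤ (z ^ 800) ^ 2 * z := by gcongr
      _ = z ^ 1601 := by rw [← pow_mul]; ring
  set S : Finset (ℕ × ℕ) := {p ∈ L ×ˢ L | p.1 ≠ p.2} with hS
  -- the first condition
  set K := X - 2 * Z ^ 1906 with hK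
  set F₁ : ℕ × ℕ → ℝ := fun p => ((p.1 * p.2 : ℕ) : ℝ) * vr (p.1 * p.2) (Ioc K X)
    (fun n => if n ∈ Ps then 1 else 0) with hF₁
  set F₂ : ℕ × ℕ → ℝ := fun p => ((p.1 * p.2 : ℕ) : ℝ) * vr (p.1 * p.2) (Ioc 0 (R ^ 32))
    (fun n => nu A 32 n) with hF₂
  have hsum₁ : ∑ p ∈ S, F₁ p ≤ (3 * z ^ 3201 + 5 * Lc * z ^ 1906) * #Ps := by
    have h := hVAR L Q K (X - K) (fun n => if n ∈ Ps then 1 else 0) z hQ2 hLpr hΛ
    have hKX : K + (X - K) = X := by omega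
    rw [hKX] at h
    have hh : ((X - K : ℕ) : ℝ) ≤ 2 * z ^ 1906 := by
      have : X - K ≤ 2 * Z ^ 1906 := by omega
      calc ((X - K : ℕ) : ℝ) ≤ ((2 * Z ^ 1906 : ℕ) : ℝ) := Nat.cast_le.2 this
        _ = 2 * z ^ 1906 := by rw [Nat.cast_mul, hzn]; norm_num
    have hcard : ∑ n ∈ Ioc K X, (if n ∈ Ps then (1 : ℝ) else 0) ^ 2 ≤ #Ps := by
      have e : ∀ n ∈ Ioc K X, (if n ∈ Ps then (1 : ℝ) else 0) ^ 2 =
          if n ∈ Ps then (1 : ℝ) else 0 := by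
        intro n _; split_ifs <;> norm_num
      rw [Finset.sum_congr rfl e, Finset.sum_ite_mem, Finset.sum_const, nsmul_eq_mul, mul_one]
      exact_mod_cast Finset.card_le_card inter_subset_right
    have hE : 2 * (((X - K : ℕ) : ℝ) + (Q : ℝ) ^ 4 * z) + 2 * #L * (((X - K : ℕ) : ℝ) +
        (Q : ℝ) ^ 2 * z) ≤ 3 * z ^ 3201 + 5 * Lc * z ^ 1906 := by
      have e1 : 4 * z ^ 1906 ≤ z ^ 3201 := by
        calc 4 * z ^ 1906 ≤ z * z ^ 1906 := by
              refine mul_le_mul_of_nonneg_right ?_ (by positivity)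
              linarith [show (4 : ℝ) ≤ 10 ^ 50 by norm_num]
          _ = z ^ 1907 := by ring
          _ ≤ z ^ 3201 := pow_mono hz1 (by norm_num)
      have e2 : 2 * z ^ 1601 ≤ z ^ 1906 := by
        calc 2 * z ^ 1601 ≤ z * z ^ 1601 := by
              refine mul_le_mul_of_nonneg_right ?_ (by positivity)
              linarith [show (2 : ℝ) ≤ 10 ^ 50 by norm_num]
          _ = z ^ 1602 := by ring
          _ ≤ z ^ 1906 := pow_mono hz1 (by norm_num)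
      have e3 : 2 * Lc * (((X - K : ℕ) : ℝ) + (Q : ℝ) ^ 2 * z) ≤ 2 * Lc * (2 * z ^ 1906 +
          z ^ 1601) := by
        refine mul_le_mul_of_nonneg_left ?_ (by positivity)
        linarith
      have e4 : 2 * Lc * (2 * z ^ 1906 + z ^ 1601) ≤ 5 * Lc * z ^ 1906 := by
        calc 2 * Lc * (2 * z ^ 1906 + z ^ 1601) = Lc * (4 * z ^ 1906 + 2 * z ^ 1601) := by ring
          _ ≤ Lc * (5 * z ^ 1906) := mul_le_mul_of_nonneg_left (by linarith) hLc0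
          _ = _ := by ring
      rw [← hLc]
      linarith
    have hEp : 0 ≤ 3 * z ^ 3201 + 5 * Lc * z ^ 1906 := by positivity
    have e0 : ∑ p ∈ S, F₁ p = ∑ p ∈ (L ×ˢ L) with p.1 ≠ p.2, (p.1 * p.2 : ℝ) *
        vr (p.1 * p.2) (Ioc K X) (fun n => if n ∈ Ps then 1 else 0) := by
      refine Finset.sum_congr rfl fun p _ => ?_
      simp only [hF₁]
      push_cast
      rfl
    rw [e0]
    refine h.trans ?_
    refine (mul_le_mul_of_nonneg_right hE (Finset.sum_nonneg fun _ _ => sq_nonneg _)).trans ?_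
    exact mul_le_mul_of_nonneg_left hcard hEp
  have hsum₂ : ∑ p ∈ S, F₂ p ≤ (3 * z ^ 3201 + 3 * Lc * z ^ 2560) *
      ((32).factorial * #A ^ 32) := by
    have h := hVAR L Q 0 (R ^ 32) (fun n => nu A 32 n) z hQ2 hLpr hΛ
    rw [zero_add] at h
    have hh : ((R ^ 32 : ℕ) : ℝ) ≤ z ^ 2560 := by
      have : R ^ 32 ≤ Z ^ 2560 := by
        calc R ^ 32 ≤ (Z ^ 80) ^ 32 := by gcongr
          _ = Z ^ 2560 := by rw [← pow_mul]
      rw [← hzn]
      exact Nat.cast_le.2 this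
    have hcard : ∑ n ∈ Ioc 0 (R ^ 32), (nu A 32 n : ℝ) ^ 2 ≤ (32).factorial * (#A : ℝ) ^ 32 :=
      hNUL A R 32 fun a ha => ⟨(hAmem a ha).1, (hAmem a ha).2.2.2⟩
    have hE : 2 * (((R ^ 32 : ℕ) : ℝ) + (Q : ℝ) ^ 4 * z) + 2 * #L * (((R ^ 32 : ℕ) : ℝ) +
        (Q : ℝ) ^ 2 * z) ≤ 3 * z ^ 3201 + 3 * Lc * z ^ 2560 := by
      have e1 : 2 * z ^ 2560 ≤ z ^ 3201 := by
        calc 2 * z ^ 2560 ≤ z * z ^ 2560 := by
              refine mul_le_mul_of_nonneg_right ?_ (by positivity)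
              linarith [show (2 : ℝ) ≤ 10 ^ 50 by norm_num]
          _ = z ^ 2561 := by ring
          _ ≤ z ^ 3201 := pow_mono hz1 (by norm_num)
      have e2 : 2 * z ^ 1601 ≤ z ^ 2560 := by
        calc 2 * z ^ 1601 ≤ z * z ^ 1601 := by
              refine mul_le_mul_of_nonneg_right ?_ (by positivity)
              linarith [show (2 : ℝ) ≤ 10 ^ 50 by norm_num]
          _ = z ^ 1602 := by ring
          _ ≤ z ^ 2560 := pow_mono hz1 (by norm_num)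
      have e3 : 2 * Lc * (((R ^ 32 : ℕ) : ℝ) + (Q : ℝ) ^ 2 * z) ≤ 2 * Lc * (z ^ 2560 +
          z ^ 1601) := by
        refine mul_le_mul_of_nonneg_left ?_ (by positivity)
        linarith
      have e4 : 2 * Lc * (z ^ 2560 + z ^ 1601) ≤ 3 * Lc * z ^ 2560 := by
        calc 2 * Lc * (z ^ 2560 + z ^ 1601) = Lc * (2 * z ^ 2560 + 2 * z ^ 1601) := by ring
          _ ≤ Lc * (3 * z ^ 2560) := mul_le_mul_of_nonneg_left (by linarith) hLc0
          _ = _ := by ring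
      rw [← hLc]
      linarith
    have hEp : 0 ≤ 3 * z ^ 3201 + 3 * Lc * z ^ 2560 := by positivity
    have e0 : ∑ p ∈ S, F₂ p = ∑ p ∈ (L ×ˢ L) with p.1 ≠ p.2, (p.1 * p.2 : ℝ) *
        vr (p.1 * p.2) (Ioc 0 (R ^ 32)) (fun n => nu A 32 n) := by
      refine Finset.sum_congr rfl fun p _ => ?_
      simp only [hF₂]
      push_cast
      rfl
    rw [e0]
    refine h.trans ?_
    refine (mul_le_mul_of_nonneg_right hE (Finset.sum_nonneg fun _ _ => sq_nonneg _)).trans ?_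
    exact mul_le_mul_of_nonneg_left hcard hEp
  -- the bad pairs
  have hb₁ := markov S F₁ _ (z ^ 2) ((#Ps : ℝ) ^ 2)
    (fun p _ => mul_nonneg (Nat.cast_nonneg _) (vr_nonneg _ _ _)) (by positivity) hsum₁
  have hb₂ := markov S F₂ _ (z ^ (14 * 32)) ((#A : ℝ) ^ (2 * 32))
    (fun p _ => mul_nonneg (Nat.cast_nonneg _) (vr_nonneg _ _ _)) (by positivity) hsum₂
  set b₁ : ℝ := (#{p ∈ S | ¬ F₁ p * z ^ 2 ≤ (#Ps : ℝ) ^ 2} : ℝ) with hb₁d
  set b₂ : ℝ := (#{p ∈ S | ¬ F₂ p * z ^ (14 * 32) ≤ (#A : ℝ) ^ (2 * 32)} : ℝ) with hb₂d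
  have hb₁0 : 0 ≤ b₁ := Nat.cast_nonneg _
  have hb₂0 : 0 ≤ b₂ := Nat.cast_nonneg _
  have hc₁ : b₁ * z ^ 8 ≤ Lc ^ 2 / 2 := by
    have hPpos : (0 : ℝ) < #Ps := lt_of_lt_of_le (by positivity) hP1
    have h1 : b₁ * #Ps ≤ z ^ 2 * (3 * z ^ 3201 + 5 * Lc * z ^ 1906) := by
      have : (b₁ * #Ps) * #Ps ≤ (z ^ 2 * (3 * z ^ 3201 + 5 * Lc * z ^ 1906)) * #Ps := by
        calc (b₁ * #Ps) * #Ps = b₁ * (#Ps : ℝ) ^ 2 := by ring
          _ ≤ z ^ 2 * ((3 * z ^ 3201 + 5 * Lc * z ^ 1906) * #Ps) := hb₁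
          _ = _ := by ring
      exact le_of_mul_le_mul_right this hPpos
    have h2 : b₁ ≤ 3 * z ^ 1298 + 5 * Lc * z ^ 3 := by
      have : b₁ * z ^ 1905 ≤ (3 * z ^ 1298 + 5 * Lc * z ^ 3) * z ^ 1905 := by
        calc b₁ * z ^ 1905 ≤ b₁ * #Ps := mul_le_mul_of_nonneg_left hP1 hb₁0
          _ ≤ z ^ 2 * (3 * z ^ 3201 + 5 * Lc * z ^ 1906) := h1
          _ = _ := by ring
      exact le_of_mul_le_mul_right this (by positivity)
    have h3 : b₁ * z ^ 8 ≤ 3 * z ^ 1306 + 5 * Lc * z ^ 11 := by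
      calc b₁ * z ^ 8 ≤ (3 * z ^ 1298 + 5 * Lc * z ^ 3) * z ^ 8 :=
            mul_le_mul_of_nonneg_right h2 (by positivity)
        _ = _ := by ring
    have h4 : 3 * z ^ 1306 ≤ Lc ^ 2 / 4 := by
      have e1 : z ^ 1398 ≤ 4 * Lc ^ 2 := by
        calc z ^ 1398 = (z ^ 699) ^ 2 := by rw [← pow_mul]
          _ ≤ (2 * Lc) ^ 2 := by gcongr
          _ = 4 * Lc ^ 2 := by ring
      have e2 : 48 * z ^ 1306 ≤ z ^ 1398 := by
        calc 48 * z ^ 1306 ≤ z * z ^ 1306 := by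
              refine mul_le_mul_of_nonneg_right ?_ (by positivity)
              linarith [show (48 : ℝ) ≤ 10 ^ 50 by norm_num]
          _ = z ^ 1307 := by ring
          _ ≤ z ^ 1398 := pow_mono hz1 (by norm_num)
      linarith
    have h5 : 5 * Lc * z ^ 11 ≤ Lc ^ 2 / 4 := by
      have e2 : 40 * z ^ 11 ≤ z ^ 699 := by
        calc 40 * z ^ 11 ≤ z * z ^ 11 := by
              refine mul_le_mul_of_nonneg_right ?_ (by positivity)
              linarith [show (40 : ℝ) ≤ 10 ^ 50 by norm_num]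
          _ = z ^ 12 := by ring
          _ ≤ z ^ 699 := pow_mono hz1 (by norm_num)
      have e3 : 20 * z ^ 11 ≤ Lc := by linarith
      calc 5 * Lc * z ^ 11 = Lc * (20 * z ^ 11) / 4 := by ring
        _ ≤ Lc * Lc / 4 := by
          have := mul_le_mul_of_nonneg_left e3 hLc0
          linarith
        _ = _ := by ring
    linarith
  have hc₂ : b₂ * z ^ 8 ≤ Lc ^ 2 / 2 := by
    have hApos : (0 : ℝ) < #A := by
      have : (0 : ℝ) < z ^ 74 := by positivity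
      linarith
    have h1 : b₂ * (#A : ℝ) ^ 32 ≤ z ^ 448 * ((3 * z ^ 3201 + 3 * Lc * z ^ 2560) *
        (32).factorial) := by
      have : (b₂ * (#A : ℝ) ^ 32) * (#A : ℝ) ^ 32 ≤ (z ^ 448 * ((3 * z ^ 3201 +
          3 * Lc * z ^ 2560) * (32).factorial)) * (#A : ℝ) ^ 32 := by
        calc (b₂ * (#A : ℝ) ^ 32) * (#A : ℝ) ^ 32 = b₂ * (#A : ℝ) ^ (2 * 32) := by ring
          _ ≤ z ^ (14 * 32) * ((3 * z ^ 3201 + 3 * Lc * z ^ 2560) *
            ((32).factorial * #A ^ 32)) := hb₂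
          _ = _ := by
            rw [show 14 * 32 = 448 from rfl]
            ring
      exact le_of_mul_le_mul_right this (by positivity)
    have hA32 : z ^ 2368 ≤ 2 ^ 32 * (#A : ℝ) ^ 32 := by
      calc z ^ 2368 = (z ^ 74) ^ 32 := by rw [← pow_mul]
        _ ≤ (2 * (#A : ℝ)) ^ 32 := by gcongr
        _ = 2 ^ 32 * (#A : ℝ) ^ 32 := by rw [mul_pow]
    have hfac : (3 : ℝ) * 2 ^ 32 * (32).factorial ≤ z := by
      refine le_trans ?_ hz50
      have : 3 * 2 ^ 32 * (32).factorial ≤ 10 ^ 50 := by decide +kernel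
      exact_mod_cast this
    have h2 : b₂ ≤ z * (z ^ 1281 + Lc * z ^ 640) := by
      have : b₂ * z ^ 2368 ≤ (z * (z ^ 1281 + Lc * z ^ 640)) * z ^ 2368 := by
        calc b₂ * z ^ 2368 ≤ b₂ * (2 ^ 32 * (#A : ℝ) ^ 32) :=
              mul_le_mul_of_nonneg_left hA32 hb₂0
          _ = 2 ^ 32 * (b₂ * (#A : ℝ) ^ 32) := by ring
          _ ≤ 2 ^ 32 * (z ^ 448 * ((3 * z ^ 3201 + 3 * Lc * z ^ 2560) * (32).factorial)) :=
              mul_le_mul_of_nonneg_left h1 (by positivity)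
          _ = (3 * 2 ^ 32 * (32).factorial) * ((z ^ 1281 + Lc * z ^ 640) * z ^ 2368) := by
              ring
          _ ≤ z * ((z ^ 1281 + Lc * z ^ 640) * z ^ 2368) :=
              mul_le_mul_of_nonneg_right hfac (by positivity)
          _ = _ := by ring
      exact le_of_mul_le_mul_right this (by positivity)
    have h3 : b₂ * z ^ 8 ≤ z ^ 1290 + Lc * z ^ 649 := by
      calc b₂ * z ^ 8 ≤ (z * (z ^ 1281 + Lc * z ^ 640)) * z ^ 8 :=
            mul_le_mul_of_nonneg_right h2 (by positivity)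
        _ = _ := by ring
    have h4 : z ^ 1290 ≤ Lc ^ 2 / 4 := by
      have e1 : z ^ 1398 ≤ 4 * Lc ^ 2 := by
        calc z ^ 1398 = (z ^ 699) ^ 2 := by rw [← pow_mul]
          _ ≤ (2 * Lc) ^ 2 := by gcongr
          _ = 4 * Lc ^ 2 := by ring
      have e2 : 16 * z ^ 1290 ≤ z ^ 1398 := by
        calc 16 * z ^ 1290 ≤ z * z ^ 1290 := by
              refine mul_le_mul_of_nonneg_right ?_ (by positivity)
              linarith [show (16 : ℝ) ≤ 10 ^ 50 by norm_num]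
          _ = z ^ 1291 := by ring
          _ ≤ z ^ 1398 := pow_mono hz1 (by norm_num)
      linarith
    have h5 : Lc * z ^ 649 ≤ Lc ^ 2 / 4 := by
      have e2 : 8 * z ^ 649 ≤ z ^ 699 := by
        calc 8 * z ^ 649 ≤ z * z ^ 649 := by
              refine mul_le_mul_of_nonneg_right ?_ (by positivity)
              linarith [show (8 : ℝ) ≤ 10 ^ 50 by norm_num]
          _ = z ^ 650 := by ring
          _ ≤ z ^ 699 := pow_mono hz1 (by norm_num)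
      have e3 : 4 * z ^ 649 ≤ Lc := by linarith
      calc Lc * z ^ 649 = Lc * (4 * z ^ 649) / 4 := by ring
        _ ≤ Lc * Lc / 4 := by
          have := mul_le_mul_of_nonneg_left e3 hLc0
          linarith
        _ = _ := by ring
    linarith
  -- conclusion
  have hsub : ({p ∈ L ×ˢ L | p.1 ≠ p.2 ∧ ¬ Ctx.Good ⟨Z, R, X, V, Q, A, Ps, Vs, L⟩ p}) ⊆
      {p ∈ S | ¬ F₁ p * z ^ 2 ≤ (#Ps : ℝ) ^ 2} ∪
        {p ∈ S | ¬ F₂ p * z ^ (14 * 32) ≤ (#A : ℝ) ^ (2 * 32)} := by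
    intro p hp
    rw [mem_filter] at hp
    have hpS : p ∈ S := by
      rw [hS, mem_filter]; exact ⟨hp.1, hp.2.1⟩
    by_contra hcon
    rw [mem_union, not_or] at hcon
    refine hp.2.2 ⟨?_, ?_⟩
    · by_contra h
      exact hcon.1 (mem_filter.2 ⟨hpS, by rw [hz]; exact h⟩)
    · by_contra h
      exact hcon.2 (mem_filter.2 ⟨hpS, by rw [hz]; exact h⟩)
  have hcard : (#({p ∈ L ×ˢ L | p.1 ≠ p.2 ∧ ¬ Ctx.Good ⟨Z, R, X, V, Q, A, Ps, Vs, L⟩ p}) : ℝ) ≤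
      b₁ + b₂ := by
    refine le_trans ?_ (show (((#{p ∈ S | ¬ F₁ p * z ^ 2 ≤ (#Ps : ℝ) ^ 2} +
      #{p ∈ S | ¬ F₂ p * z ^ (14 * 32) ≤ (#A : ℝ) ^ (2 * 32)} : ℕ) : ℝ)) ≤ b₁ + b₂ by
        push_cast; exact le_refl _)
    exact_mod_cast (card_le_card hsub).trans (card_union_le _ _)
  have hfin : (#({p ∈ L ×ˢ L | p.1 ≠ p.2 ∧ ¬ Ctx.Good ⟨Z, R, X, V, Q, A, Ps, Vs, L⟩ p}) : ℝ) *
      z ^ 8 ≤ Lc ^ 2 := by
    calc _ ≤ (b₁ + b₂) * z ^ 8 := mul_le_mul_of_nonneg_right hcard (by positivity)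
      _ = b₁ * z ^ 8 + b₂ * z ^ 8 := by ring
      _ ≤ Lc ^ 2 := by linarith
  rw [hz, hLc] at hfin
  exact_mod_cast hfin

end Pool.Agent.DHD
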