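import Pool.Agent.DHD.TNum

set_option autoImplicit false

/-!
# Convolution powers on the group of units and the integers
-/

namespace Pool.Agent.DHD

open Finset
open scoped Classical

namespace NU

theorem sum_succ (A : Finset ℕ) (k : ℕ) (F : ℕ → ℝ) :
    ∑ t ∈ Fintype.piFinset (fun _ : Fin (k + 1) => A), F (∏ i, t i) =
      ∑ a ∈ A, ∑ t ∈ Fintype.piFinset (fun _ : Fin k => A), F (a * ∏ i, t i) := by
  rw [← Finset.sum_product']
  refine Finset.sum_bij' (fun t _ => (t 0, Fin.tail t)) (fun p _ => Fin.cons p.1 p.2) ?_ ?_ ?_ ?_ ?_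
  · intro t ht
    rw [Fintype.mem_piFinset] at ht
    rw [mem_product, Fintype.mem_piFinset]
    exact ⟨ht 0, fun i => ht _⟩
  · intro p hp
    rw [mem_product, Fintype.mem_piFinset] at hp
    rw [Fintype.mem_piFinset]
    intro i
    refine Fin.cases ?_ (fun j => ?_) i
    · simpa using hp.1
    · simpa using hp.2 j
  · intro t _
    simp
  · intro p _
    simp
  · intro t _
    rw [Fin.prod_univ_succ]
    rfl

theorem sum_cA (q : ℕ) (A : Finset ℕ) (hA : ∀ a ∈ A, a.Coprime q) (F : (ZMod q)ˣ → ℝ)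
    [Fintype (ZMod q)ˣ] :
    ∑ h, cA q A h * F h = ∑ a ∈ A.attach, F (ZMod.unitOfCoprime a.1 (hA a.1 a.2)) := by
  have h1 : ∀ h : (ZMod q)ˣ, cA q A h * F h =
      ∑ a ∈ A.attach, if ZMod.unitOfCoprime a.1 (hA a.1 a.2) = h then F h else 0 := by
    intro h
    unfold cA
    rw [← Finset.sum_filter, Finset.sum_const, nsmul_eq_mul]
    congr 2
    symm
    refine Finset.card_bij (fun a _ => a.1) ?_ ?_ ?_
    · rintro a ha
      rw [mem_filter] at ha ⊢
      refine ⟨a.2, ?_⟩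
      rw [← ha.2, ZMod.coe_unitOfCoprime]
    · intro a _ b _ hab
      exact Subtype.ext hab
    · intro a ha
      rw [mem_filter] at ha
      refine ⟨⟨a, ha.1⟩, ?_, rfl⟩
      rw [mem_filter]
      refine ⟨mem_attach _ _, ?_⟩
      apply Units.ext
      rw [ZMod.coe_unitOfCoprime, ha.2]
  simp only [h1]
  rw [Finset.sum_comm]
  refine Finset.sum_congr rfl fun a _ => ?_
  simp

theorem cpow_eq (q : ℕ) [NeZero q] (A : Finset ℕ) (hA : ∀ a ∈ A, a.Coprime q) (k : ℕ) :
    ∀ g : (ZMod q)ˣ, cpow (cA q A) k g =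
      ∑ t ∈ Fintype.piFinset (fun _ : Fin k => A),
        if ((∏ i, t i : ℕ) : ZMod q) = g then (1 : ℝ) else 0 := by
  induction k with
  | zero =>
    intro g
    simp only [cpow, Fintype.piFinset_of_isEmpty, univ_unique, sum_singleton, univ_eq_empty,
      prod_empty, Nat.cast_one]
    by_cases hg : g = 1
    · simp [hg]
    · have : ¬ (1 : ZMod q) = g := by
        intro h
        apply hg
        ext
        rw [← h]; simp
      simp [hg, this]
  | succ k ih =>
    intro g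
    have h2 := sum_succ A k (fun n => if ((n : ℕ) : ZMod q) = g then (1 : ℝ) else 0)
    rw [h2]
    show conv (cA q A) (cpow (cA q A) k) g = _
    unfold conv
    rw [sum_cA q A hA (fun h => cpow (cA q A) k (h⁻¹ * g))]
    rw [← Finset.sum_attach A]
    refine Finset.sum_congr rfl fun a _ => ?_
    rw [ih]
    refine Finset.sum_congr rfl fun t _ => ?_
    have h3 : (((∏ i, t i : ℕ) : ZMod q) = (((ZMod.unitOfCoprime a.1 (hA a.1 a.2))⁻¹ * g :
        (ZMod q)ˣ) : ZMod q)) ↔ (((a.1 * ∏ i, t i : ℕ) : ZMod q) = g) := by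
      rw [Units.val_mul, Nat.cast_mul]
      constructor
      · intro h
        rw [h, ← mul_assoc]
        have : ((a.1 : ℕ) : ZMod q) * ((ZMod.unitOfCoprime a.1 (hA a.1 a.2))⁻¹ : (ZMod q)ˣ) = 1 := by
          have := Units.mul_inv (ZMod.unitOfCoprime a.1 (hA a.1 a.2))
          rwa [ZMod.coe_unitOfCoprime] at this
        rw [this, one_mul]
      · intro h
        rw [← h, ← mul_assoc]
        have : (((ZMod.unitOfCoprime a.1 (hA a.1 a.2))⁻¹ : (ZMod q)ˣ) : ZMod q) * (a.1 : ℕ) = 1 := by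
          have := Units.inv_mul (ZMod.unitOfCoprime a.1 (hA a.1 a.2))
          rwa [ZMod.coe_unitOfCoprime] at this
        rw [this, one_mul]
    simp only [h3]

theorem sum_nu (A : Finset ℕ) (R k : ℕ) (hA : ∀ a ∈ A, 0 < a ∧ a ≤ R) (P : ℕ → Prop)
    [DecidablePred P] :
    ∑ n ∈ Ioc 0 (R ^ k) with P n, (nu A k n : ℝ) =
      ∑ t ∈ Fintype.piFinset (fun _ : Fin k => A), if P (∏ i, t i) then (1 : ℝ) else 0 := by
  have h1 : ∀ n, (nu A k n : ℝ) = ∑ t ∈ Fintype.piFinset (fun _ : Fin k => A),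
      if ∏ i, t i = n then (1 : ℝ) else 0 := by
    intro n
    unfold nu
    rw [← Finset.sum_filter, Finset.sum_const, nsmul_eq_mul, mul_one]
  simp only [h1]
  rw [Finset.sum_comm]
  refine Finset.sum_congr rfl fun t ht => ?_
  rw [Fintype.mem_piFinset] at ht
  have h2 : ∏ i, t i ∈ Ioc 0 (R ^ k) := by
    rw [mem_Ioc]
    refine ⟨Finset.prod_pos fun i _ => (hA _ (ht i)).1, ?_⟩
    calc ∏ i, t i ≤ ∏ _i : Fin k, R := Finset.prod_le_prod' fun i _ => (hA _ (ht i)).2
      _ = R ^ k := by simp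
  rw [Finset.sum_ite_eq]
  simp [h2, mem_filter]

end NU

open NU in
theorem tNU : T_NU := by
  intro q _ A R k hA
  have h1 : ∀ a ∈ A, 0 < a ∧ a ≤ R := fun a ha => ⟨(hA a ha).1, (hA a ha).2.1⟩
  have h2 : ∀ a ∈ A, a.Coprime q := fun a ha => (hA a ha).2.2
  have hq : 0 < q := Nat.pos_of_ne_zero (NeZero.ne q)
  unfold vr
  have h3 : ∑ n ∈ Ioc 0 (R ^ k), (nu A k n : ℝ) = (#A : ℝ) ^ k := by
    have := sum_nu A R k h1 (fun _ => True)
    simp only [filter_true, if_true, sum_const, Fintype.card_piFinset_const, nsmul_eq_mul,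
      mul_one] at this
    rw [this]; push_cast; rfl
  rw [h3]
  have h4 : ∀ g : (ZMod q)ˣ, cpow (cA q A) k g =
      ∑ n ∈ Ioc 0 (R ^ k) with n % q = (g : ZMod q).val, (nu A k n : ℝ) := by
    intro g
    rw [cpow_eq q A h2 k g, sum_nu A R k h1 (fun n => n % q = (g : ZMod q).val)]
    refine Finset.sum_congr rfl fun t _ => ?_
    have : (((∏ i, t i : ℕ) : ZMod q) = g) ↔ (∏ i, t i) % q = (g : ZMod q).val := by
      rw [← ZMod.val_natCast]
      exact ⟨fun h => by rw [h], fun h => ZMod.val_injective q h⟩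
    simp only [this]
  simp only [h4]
  have h5 : ∑ g : (ZMod q)ˣ, ((∑ n ∈ Ioc 0 (R ^ k) with n % q = (g : ZMod q).val,
      (nu A k n : ℝ)) - (#A : ℝ) ^ k / q) ^ 2 =
      ∑ b ∈ Finset.image (fun g : (ZMod q)ˣ => (g : ZMod q).val) univ,
        ((∑ n ∈ Ioc 0 (R ^ k) with n % q = b, (nu A k n : ℝ)) - (#A : ℝ) ^ k / q) ^ 2 := by
    rw [Finset.sum_image]
    intro g _ g' _ h
    exact Units.ext (ZMod.val_injective q h)
  rw [h5]
  refine Finset.sum_le_sum_of_subset_of_nonneg ?_ fun _ _ _ => sq_nonneg _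
  intro b hb
  rw [mem_image] at hb
  obtain ⟨g, _, rfl⟩ := hb
  exact mem_range.mpr (ZMod.val_lt _)

end Pool.Agent.DHD
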