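import Pool.Agent.DHD.TNum

set_option autoImplicit false

/-!
# Products of primes have few representations
-/

namespace Pool.Agent.DHD

open Finset
open scoped Classical

namespace NulP

theorem perm_of_prod {k : ℕ} {t s : Fin k → ℕ} (ht : ∀ i, (t i).Prime) (hs : ∀ i, (s i).Prime)
    (h : ∏ i, s i = ∏ i, t i) : ∃ σ : Equiv.Perm (Fin k), s = t ∘ σ := by
  have h1 : (List.ofFn s).Perm (List.ofFn t) := by
    refine (Nat.primeFactorsList_unique (n := ∏ i, t i) ?_ ?_).trans
      (Nat.primeFactorsList_unique (n := ∏ i, t i) ?_ ?_).symm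
    · rw [List.prod_ofFn, h]
    · intro p hp
      obtain ⟨i, rfl⟩ := (List.mem_ofFn' _ _).mp hp
      exact hs i
    · rw [List.prod_ofFn]
    · intro p hp
      obtain ⟨i, rfl⟩ := (List.mem_ofFn' _ _).mp hp
      exact ht i
  have h2 : (List.ofFn (s ∘ Tuple.sort s)).Perm (List.ofFn (t ∘ Tuple.sort t)) :=
    (Equiv.Perm.ofFn_comp_perm _ _).trans (h1.trans (Equiv.Perm.ofFn_comp_perm _ _).symm)
  have h3 : s ∘ Tuple.sort s = t ∘ Tuple.sort t := by
    apply List.ofFn_injective
    exact List.Perm.eq_of_sortedLE (Tuple.monotone_sort s).sortedLE_ofFn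
      (Tuple.monotone_sort t).sortedLE_ofFn h2
  refine ⟨(Tuple.sort s)⁻¹.trans (Tuple.sort t), ?_⟩
  funext i
  have := congrFun h3 ((Tuple.sort s)⁻¹ i)
  simpa using this

end NulP

open NulP in
theorem tNUL : T_NUL := by
  intro A R k hA
  have hprime : ∀ t ∈ Fintype.piFinset (fun _ : Fin k => A), ∀ i, (t i).Prime := by
    intro t ht i
    rw [Fintype.mem_piFinset] at ht
    exact (hA _ (ht i)).1
  have h1 : ∀ n, (nu A k n : ℝ) ^ 2 = ∑ t ∈ Fintype.piFinset (fun _ : Fin k => A),
      if ∏ i, t i = n then (nu A k n : ℝ) else 0 := by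
    intro n
    rw [← Finset.sum_filter, Finset.sum_const, nsmul_eq_mul, sq]
    rfl
  simp only [h1]
  rw [Finset.sum_comm]
  have h2 : ∀ t ∈ Fintype.piFinset (fun _ : Fin k => A),
      ∑ n ∈ Ioc 0 (R ^ k), (if ∏ i, t i = n then (nu A k n : ℝ) else 0) ≤ k.factorial := by
    intro t ht
    have h3 : (nu A k (∏ i, t i) : ℝ) ≤ k.factorial := by
      have h4 : {s ∈ Fintype.piFinset (fun _ : Fin k => A) | ∏ i, s i = ∏ i, t i} ⊆
          Finset.image (fun σ : Equiv.Perm (Fin k) => t ∘ σ) univ := by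
        intro s hs
        rw [mem_filter] at hs
        obtain ⟨σ, rfl⟩ := perm_of_prod (hprime t ht) (hprime s hs.1) hs.2
        exact mem_image_of_mem _ (mem_univ σ)
      have h5 := (card_le_card h4).trans card_image_le
      rw [card_univ, Fintype.card_perm, Fintype.card_fin] at h5
      exact_mod_cast h5
    rw [Finset.sum_ite_eq]
    split_ifs
    · exact h3
    · positivity
  refine (Finset.sum_le_sum h2).trans ?_
  rw [Finset.sum_const, Fintype.card_piFinset_const, nsmul_eq_mul]
  push_cast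
  rw [mul_comm]

end Pool.Agent.DHD
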