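import Pool.Agent.DHD.TNum

set_option autoImplicit false

/-!
# PAIR: a pair of primes is good
-/

namespace Pool.Agent.DHD

open Finset
open scoped Classical

namespace PAIR

/-- a pair `(P, v)` of `Wset` is determined by `P` and `u` -/
theorem wset_eq {q : ℕ} {Ps Vs : Finset ℕ} {w : ℕ × ℕ} (hw : w ∈ Wset q Ps Vs) :
    w.2 = w.1 + q * uw q w := by
  unfold Wset at hw
  rw [mem_filter] at hw
  obtain ⟨-, h1, h2⟩ := hw
  unfold uw
  rw [Nat.mul_div_cancel' h2]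
  omega

/-- In one class, `(a, (P, v))` is determined by `a` and `P`. -/
theorem triple_inj {q : ℕ} {A Ps Vs : Finset ℕ} (τ : (ZMod q)ˣ)
    (hu : ∀ w ∈ Wset q Ps Vs, uw q w < q)
    {w w' : ℕ × ℕ × ℕ} (hw : w ∈ A ×ˢ Wset q Ps Vs) (hw' : w' ∈ A ×ˢ Wset q Ps Vs)
    (h1 : ((w.1 * (uw q w.2 * w.2.1) : ℕ) : ZMod q) = τ)
    (h2 : ((w'.1 * (uw q w'.2 * w'.2.1) : ℕ) : ZMod q) = τ)
    (ha : w.1 = w'.1) (hP : w.2.1 = w'.2.1) : w = w' := by
  rw [mem_product] at hw hw'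
  have e1 := wset_eq hw.2
  have e2 := wset_eq hw'.2
  have hcast : ((w.1 * w.2.1 : ℕ) : ZMod q) * (uw q w.2 : ZMod q) = τ := by
    rw [← h1]; push_cast; ring
  have hcast' : ((w.1 * w.2.1 : ℕ) : ZMod q) * (uw q w'.2 : ZMod q) = τ := by
    rw [← h2, ha, hP]; push_cast; ring
  have hunit : IsUnit ((w.1 * w.2.1 : ℕ) : ZMod q) := by
    have : IsUnit (((w.1 * w.2.1 : ℕ) : ZMod q) * (uw q w.2 : ZMod q)) := by
      rw [hcast]; exact τ.isUnit
    exact isUnit_of_mul_isUnit_left this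
  have hueq : (uw q w.2 : ZMod q) = (uw q w'.2 : ZMod q) :=
    hunit.mul_left_cancel (hcast.trans hcast'.symm)
  rw [ZMod.natCast_eq_natCast_iff'] at hueq
  rw [Nat.mod_eq_of_lt (hu _ hw.2), Nat.mod_eq_of_lt (hu _ hw'.2)] at hueq
  have h3 : w.2.2 = w'.2.2 := by rw [e1, e2, hueq, hP]
  exact Prod.ext ha (Prod.ext hP h3)

/-- the number of private primes in a set of triples of one class -/
theorem card_le {q : ℕ} {A Ps Vs : Finset ℕ} (τ : (ZMod q)ˣ)
    (hu : ∀ w ∈ Wset q Ps Vs, uw q w < q) (S : Finset (ℕ × ℕ × ℕ))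
    (hS : ∀ w ∈ S, w ∈ A ×ˢ Wset q Ps Vs ∧ ((w.1 * (uw q w.2 * w.2.1) : ℕ) : ZMod q) = τ) :
    #S ≤ #A * #(S.image fun w => w.2.1) := by
  rw [← card_product]
  refine card_le_card_of_injOn (fun w => (w.1, w.2.1)) ?_ ?_
  · intro w hw
    have hw' : w ∈ S := hw
    have h := (hS w hw').1
    rw [mem_product] at h
    simp only [coe_product, Set.mem_prod, mem_coe]
    exact ⟨h.1, mem_image_of_mem _ hw'⟩
  · intro w hw w' hw' h
    simp only [Prod.mk.injEq] at h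
    exact triple_inj τ hu (hS w hw).1 (hS w' hw').1 (hS w hw).2 (hS w' hw').2 h.1 h.2

end PAIR

open PAIR in
/-- PAIR -/
theorem tPAIR (hCRT : T_CRT) (hGAD : T_GADOK) : T_PAIR := by
  intro π l l' R ha V hv hp H I Z k hNZ A Ps Vs hok hl hl' hne hQl hlQ hQl' hlQ' hP12 hN h2V hA
    hPs hVs hAne hmain hVM hMR h8 h8E hZ hB1 hRm h8Z h16a h16b h4k
  -- abbreviations
  set q : ℕ := l * l' with hq
  obtain ⟨f, finj, fcls⟩ : ∃ f : ℕ × ℕ → (ZMod q)ˣ,
    (∀ r s : ℕ × ℕ, 0 < r.1 → r.1 < l → 0 < r.2 → r.2 < l' → 0 < s.1 → s.1 < l → 0 < s.2 →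
      s.2 < l' → f r = f s → r = s) ∧
    ∀ (r : ℕ × ℕ) (n : ℕ), 0 < r.1 → r.1 < l → 0 < r.2 → r.2 < l' →
      ((n : ℕ) : ZMod q) = f r →
      (l : ℤ) ∣ (r.1 : ℤ) * (n * l') - 1 ∧ (l' : ℤ) ∣ (r.2 : ℤ) * (n * l) - 1 :=
    hCRT l l' hl hl' hne
  set W : ℕ := #(Wset q Ps Vs) with hW
  set K12 : ℕ := ((hv + hp) / q + 1) * (hp / q + 1) with hK12
  set X : ℕ := (2 * I + 1) * (π.Q2 - π.Q1) * (((hv + hp) / q + 1) * (hp / π.Q1 + 1)) with hX
  have hqpos : 0 < q := Nat.pos_of_ne_zero hNZ.out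
  have hApos : 0 < #A := hAne.card_pos
  have hK12pos : 0 < K12 := by rw [hK12]; positivity
  have hWpos : 0 < W := by
    by_contra hcon
    have hW0 : W = 0 := by omega
    rw [hW0, Nat.mul_zero] at h16a
    have : 0 < 16 * q * K12 := by positivity
    omega
  have hQ1q : π.Q1 ^ 2 < q := by
    rw [hq, sq]
    exact Nat.mul_lt_mul'' hQl hQl'
  have hMq : π.M < q := by
    have h1 : π.M < l := lt_trans hok.M_lt hQl
    have h2 : l ≤ q := by rw [hq]; exact Nat.le_mul_of_pos_right _ hl'.pos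
    omega
  have hMpos : 0 < π.M := by have := hok.M_pos; omega
  -- bound on u
  have hu : ∀ w ∈ Wset q Ps Vs, uw q w < q := by
    intro w hw
    have hw1 := hw
    unfold Wset at hw1
    rw [mem_filter, mem_product] at hw1
    have hv1 := (hVs w.2 hw1.1.2).2.2
    have e := wset_eq hw
    have h1 : q * uw q w ≤ π.M * π.Q1 ^ 2 := by
      have : q * uw q w ≤ w.2 := by omega
      omega
    have h2 : π.M * π.Q1 ^ 2 < π.M * q := Nat.mul_lt_mul_of_pos_left hQ1q hMpos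
    have h3 : q * uw q w < q * π.M := by rw [Nat.mul_comm q π.M]; omega
    have h4 : uw q w < π.M := Nat.lt_of_mul_lt_mul_left h3
    omega
  -- classes
  set cl : ℕ × ℕ × ℕ → ZMod q := fun w => ((w.1 * (uw q w.2 * w.2.1) : ℕ) : ZMod q) with hcl
  set B1 : Finset (ZMod q)ˣ := {τ : (ZMod q)ˣ | 2 * q * Fcl q A Ps Vs τ < #A * W} with hB1d
  set rm : (ZMod q)ˣ → ℕ := fun τ => #{w ∈ Rm π l l' A Ps Vs | cl w = τ} with hrm
  set B2 : Finset (ZMod q)ˣ := {τ : (ZMod q)ˣ | #A * W ≤ 4 * q * rm τ} with hB2d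
  -- bound for B1
  have hB1b : 4 * (#B1 * Z ^ 8) ≤ q := by
    have h1 : #B1 * Z ^ 14 * W ^ 2 ≤ 4 * q ^ 2 * (W * K12) := hB1
    have h2 : 4 * (#B1 * Z ^ 8) * (Z ^ 6 * W ^ 2) ≤ q * (Z ^ 6 * W ^ 2) := by
      calc 4 * (#B1 * Z ^ 8) * (Z ^ 6 * W ^ 2) = 4 * (#B1 * Z ^ 14 * W ^ 2) := by ring
        _ ≤ 4 * (4 * q ^ 2 * (W * K12)) := Nat.mul_le_mul_left _ h1
        _ = q * W * (16 * q * K12) := by ring
        _ ≤ q * W * (Z ^ 6 * W) := Nat.mul_le_mul_left _ h16a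
        _ = q * (Z ^ 6 * W ^ 2) := by ring
    exact Nat.le_of_mul_le_mul_right h2 (by positivity)
  -- bound for B2
  have hsum : ∑ τ : (ZMod q)ˣ, rm τ ≤ #(Rm π l l' A Ps Vs) := by
    have h1 : ∑ τ : (ZMod q)ˣ, rm τ =
        #((Finset.univ : Finset (ZMod q)ˣ).biUnion
          fun τ => {w ∈ Rm π l l' A Ps Vs | cl w = τ}) := by
      rw [card_biUnion]
      intro τ _ τ' _ hττ
      rw [Function.onFun, Finset.disjoint_left]
      intro w hw hw'
      rw [mem_filter] at hw hw'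
      exact hττ (Units.ext (hw.2.symm.trans hw'.2))
    rw [h1]
    apply card_le_card
    intro w hw
    rw [mem_biUnion] at hw
    obtain ⟨τ, -, h⟩ := hw
    exact (mem_filter.mp h).1
  have hB2b : 4 * (#B2 * Z ^ 8) ≤ q := by
    have h1 : #B2 * (#A * W) ≤ ∑ τ ∈ B2, 4 * q * rm τ := by
      rw [← smul_eq_mul, ← Finset.sum_const]
      apply Finset.sum_le_sum
      intro τ hτ
      rw [hB2d, mem_filter] at hτ
      exact hτ.2
    have h2 : ∑ τ ∈ B2, 4 * q * rm τ ≤ 4 * q * #(Rm π l l' A Ps Vs) := by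
      rw [← Finset.mul_sum]
      apply Nat.mul_le_mul_left
      refine le_trans ?_ hsum
      exact Finset.sum_le_sum_of_subset (Finset.subset_univ _)
    have h3 : #(Rm π l l' A Ps Vs) ≤ #A * X := hRm
    have h4 : 4 * (#B2 * Z ^ 8) * (#A * W) ≤ q * (#A * W) := by
      calc 4 * (#B2 * Z ^ 8) * (#A * W) = 4 * Z ^ 8 * (#B2 * (#A * W)) := by ring
        _ ≤ 4 * Z ^ 8 * (4 * q * (#A * X)) :=
            Nat.mul_le_mul_left _ (le_trans h1 (le_trans h2 (Nat.mul_le_mul_left _ h3)))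
        _ = q * #A * (16 * Z ^ 8 * X) := by ring
        _ ≤ q * #A * W := Nat.mul_le_mul_left _ h16b
        _ = q * (#A * W) := by ring
    exact Nat.le_of_mul_le_mul_right h4 (by positivity)
  -- good classes
  have hgood : ∀ r : ℕ × ℕ, 0 < r.1 → r.1 < l → 0 < r.2 → r.2 < l' → f r ∉ B1 → f r ∉ B2 →
      k * Z ≤ cnt π l l' r.1 r.2 := by
    intro r hr1 hr1l hr2 hr2l hn1 hn2
    have g1 : #A * W ≤ 2 * q * Fcl q A Ps Vs (f r) := by
      by_contra hcon
      apply hn1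
      rw [hB1d, mem_filter]
      exact ⟨mem_univ _, by omega⟩
    have g2 : 4 * q * rm (f r) < #A * W := by
      by_contra hcon
      apply hn2
      rw [hB2d, mem_filter]
      exact ⟨mem_univ _, by omega⟩
    -- the good triples
    set S : Finset (ℕ × ℕ × ℕ) :=
      {w ∈ A ×ˢ Wset q Ps Vs | cl w = f r} \ {w ∈ Rm π l l' A Ps Vs | cl w = f r} with hS
    have hScard : Fcl q A Ps Vs (f r) ≤ #S + rm (f r) := by
      have hF : Fcl q A Ps Vs (f r) = #{w ∈ A ×ˢ Wset q Ps Vs | cl w = f r} := rfl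
      have hR : rm (f r) = #{w ∈ Rm π l l' A Ps Vs | cl w = f r} := rfl
      rw [hF, hR, hS]
      have h := Finset.le_card_sdiff ({w ∈ Rm π l l' A Ps Vs | cl w = f r})
        ({w ∈ A ×ˢ Wset q Ps Vs | cl w = f r})
      exact Nat.sub_le_iff_le_add.mp h
    have hScard2 : #A * (k * Z) < #S + 1 := by
      have h1 : 2 * (#A * W) ≤ 4 * q * #S + 4 * q * rm (f r) := by
        calc 2 * (#A * W) ≤ 2 * (2 * q * Fcl q A Ps Vs (f r)) := Nat.mul_le_mul_left _ g1
          _ = 4 * q * Fcl q A Ps Vs (f r) := by ring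
          _ ≤ 4 * q * (#S + rm (f r)) := Nat.mul_le_mul_left _ hScard
          _ = 4 * q * #S + 4 * q * rm (f r) := by ring
      have h2 : #A * W < 4 * q * #S := by omega
      have h3 : #A * (4 * (k * Z) * q) ≤ #A * W := Nat.mul_le_mul_left _ h4k
      have h4 : (4 * q) * (#A * (k * Z)) < (4 * q) * #S := by
        calc (4 * q) * (#A * (k * Z)) = #A * (4 * (k * Z) * q) := by ring
          _ ≤ #A * W := h3
          _ < 4 * q * #S := h2
      have := Nat.lt_of_mul_lt_mul_left h4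
      omega
    have hSmem : ∀ w ∈ S, w ∈ A ×ˢ Wset q Ps Vs ∧ cl w = f r := by
      intro w hw
      rw [hS, mem_sdiff, mem_filter] at hw
      exact hw.1
    have hSc := card_le (f r) hu S hSmem
    have hk : k * Z ≤ #(S.image fun w => w.2.1) := by
      have : #A * (k * Z) ≤ #A * #(S.image fun w => w.2.1) := by omega
      exact Nat.le_of_mul_le_mul_left this hApos
    refine le_trans hk ?_
    unfold cnt
    apply card_le_card
    intro P hP
    rw [mem_image] at hP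
    obtain ⟨⟨a, P', v⟩, hw, rfl⟩ := hP
    have hwS := hSmem _ hw
    have hwA := hwS.1
    rw [mem_product] at hwA
    have haA := hA a hwA.1
    have hwW := hwA.2
    have hw1 := hwW
    unfold Wset at hw1
    rw [mem_filter, mem_product] at hw1
    simp only at hw1
    have hPP := hPs P' hw1.1.1
    have hvv := hVs v hw1.1.2
    rw [mem_filter, mem_Ioc]
    refine ⟨⟨hPP.2.1, hPP.2.2⟩, a * ((v - P') / (l * l')), a * v, ?_⟩
    have hcls := fcls r (a * (uw q (P', v) * P')) hr1 hr1l hr2 hr2l hwS.2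
    refine hGAD π l l' R ha V hv hp H a P' v r.1 r.2 hok hl hl' hne hQl hlQ hQl' hlQ' hP12 hN
      h2V haA.1 haA.2.1 haA.2.2.1 haA.2.2.2 hPP.1 hPP.2.1 hPP.2.2 hvv.1 hvv.2.1 hvv.2.2
      hw1.2.1 hw1.2.2 hmain hVM hMR h8 h8E ?_ ?_ ?_
    · have := hcls.1
      unfold uw at this
      push_cast at this ⊢
      exact this
    · have := hcls.2
      unfold uw at this
      push_cast at this ⊢
      exact this
    · intro j p h1 h2 h3 h4 h5 h6
      by_contra hcon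
      have hnR : (a, P', v) ∉ Rm π l l' A Ps Vs := by
        intro hR
        rw [hS, mem_sdiff] at hw
        exact hw.2 (mem_filter.mpr ⟨hR, hwS.2⟩)
      apply hnR
      unfold Rm
      rw [mem_filter]
      exact ⟨hwS.1, j, p, h1, h2, h3, h4, h5, h6, hcon⟩
  -- counting the bad pairs
  unfold GoodPair
  set Bad : Finset (ℕ × ℕ) := {r ∈ range l ×ˢ range l' | cnt π l l' r.1 r.2 < k * Z} with hBad
  have hsub : Bad ⊆ ((range l).image fun i => (i, 0)) ∪ ((range l').image fun i => (0, i)) ∪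
      {r ∈ Bad | 0 < r.1 ∧ 0 < r.2} := by
    intro r hr
    have hr' := hr
    rw [hBad, mem_filter, mem_product, mem_range, mem_range] at hr'
    rw [mem_union, mem_union, mem_image, mem_image, mem_filter]
    rcases Nat.eq_zero_or_pos r.2 with h2 | h2
    · left; left
      exact ⟨r.1, mem_range.mpr hr'.1.1, Prod.ext rfl h2.symm⟩
    · rcases Nat.eq_zero_or_pos r.1 with h1 | h1
      · left; right
        exact ⟨r.2, mem_range.mpr hr'.1.2, Prod.ext h1.symm rfl⟩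
      · right
        exact ⟨hr, h1, h2⟩
  have hc1 : #{r ∈ Bad | 0 < r.1 ∧ 0 < r.2} ≤ #(B1 ∪ B2) := by
    refine card_le_card_of_injOn f ?_ ?_
    · intro r hr
      have hr0 : r ∈ ({r ∈ Bad | 0 < r.1 ∧ 0 < r.2} : Finset (ℕ × ℕ)) := hr
      rw [mem_filter, hBad, mem_filter, mem_product, mem_range, mem_range] at hr0
      by_contra hcon
      rw [mem_coe, mem_union, not_or] at hcon
      have := hgood r hr0.2.1 hr0.1.1.1 hr0.2.2 hr0.1.1.2 hcon.1 hcon.2
      omega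
    · intro r hr s hs hrs
      have hr0 : r ∈ ({r ∈ Bad | 0 < r.1 ∧ 0 < r.2} : Finset (ℕ × ℕ)) := hr
      have hs0 : s ∈ ({r ∈ Bad | 0 < r.1 ∧ 0 < r.2} : Finset (ℕ × ℕ)) := hs
      rw [mem_filter, hBad, mem_filter, mem_product, mem_range, mem_range] at hr0 hs0
      exact finj r s hr0.2.1 hr0.1.1.1 hr0.2.2 hr0.1.1.2 hs0.2.1 hs0.1.1.1 hs0.2.2 hs0.1.1.2 hrs
  have hc2 : #Bad ≤ l + l' + (#B1 + #B2) := by
    calc #Bad ≤ _ := card_le_card hsub
      _ ≤ _ := card_union_le _ _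
      _ ≤ (l + l') + (#B1 + #B2) := by
        apply Nat.add_le_add
        · refine le_trans (card_union_le _ _) (Nat.add_le_add ?_ ?_)
          · exact le_trans card_image_le (by rw [card_range])
          · exact le_trans card_image_le (by rw [card_range])
        · exact le_trans hc1 (card_union_le _ _)
  have h8l : 8 * (l * Z ^ 8) ≤ q := by
    have : 8 * Z ^ 8 ≤ l' := by omega
    calc 8 * (l * Z ^ 8) = l * (8 * Z ^ 8) := by ring
      _ ≤ l * l' := Nat.mul_le_mul_left _ this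
  have h8l' : 8 * (l' * Z ^ 8) ≤ q := by
    have : 8 * Z ^ 8 ≤ l := by omega
    calc 8 * (l' * Z ^ 8) = 8 * Z ^ 8 * l' := by ring
      _ ≤ l * l' := Nat.mul_le_mul_right _ this
  have hfin : #Bad * Z ^ 8 ≤ l * Z ^ 8 + l' * Z ^ 8 + (#B1 * Z ^ 8 + #B2 * Z ^ 8) := by
    calc #Bad * Z ^ 8 ≤ (l + l' + (#B1 + #B2)) * Z ^ 8 := Nat.mul_le_mul_right _ hc2
      _ = _ := by ring
  show #Bad * Z ^ 8 ≤ q
  omega

end Pool.Agent.DHD
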