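import Pool.Agent.DHD.TNum

/-!
# PARS: Parseval for the additive characters modulo `q` (job DHD-PARS, MP_a692c2_lc)
-/

set_option autoImplicit false

namespace Pool.Agent.DHD

open Finset
open scoped Classical ComplexConjugate

namespace PARS

/-- the primitive root of unity -/
noncomputable def z (q : ℕ) : ℂ := Complex.exp (2 * Real.pi * Complex.I / q)

lemma z_prim {q : ℕ} (hq : 0 < q) : IsPrimitiveRoot (z q) q :=
  Complex.isPrimitiveRoot_exp q hq.ne'

lemma ex_eq (q n t : ℕ) : ex (n * ((t : ℝ) / q)) = (z q ^ n) ^ t := by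
  unfold ex z
  rw [← Complex.exp_nat_mul, ← Complex.exp_nat_mul]
  congr 1
  push_cast
  ring

lemma conj_z (q : ℕ) : conj (z q) = (z q)⁻¹ := by
  unfold z
  rw [← Complex.exp_conj, ← Complex.exp_neg]
  congr 1
  simp only [map_div₀, map_mul, Complex.conj_I, Complex.conj_ofReal, map_natCast, map_ofNat]
  ring

lemma orth {q : ℕ} (hq : 0 < q) {b b' : ℕ} (hb : b < q) (hb' : b' < q) :
    ∑ t ∈ range q, (z q ^ b) ^ t * conj ((z q ^ b') ^ t) = if b = b' then (q : ℂ) else 0 := by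
  have hz := z_prim hq
  have hz0 : z q ≠ 0 := hz.ne_zero hq.ne'
  have h1 : ∀ t ∈ range q, (z q ^ b) ^ t * conj ((z q ^ b') ^ t) =
      (z q ^ b * (z q ^ b')⁻¹) ^ t := by
    intro t _
    rw [mul_pow, map_pow, map_pow, conj_z, inv_pow, inv_pow]
  rw [Finset.sum_congr rfl h1]
  by_cases h : b = b'
  · subst h
    rw [if_pos rfl, mul_inv_cancel₀ (pow_ne_zero _ hz0)]
    simp
  · rw [if_neg h]
    have hne : z q ^ b * (z q ^ b')⁻¹ ≠ 1 := by
      intro h2
      apply h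
      apply hz.pow_inj hb hb'
      have h3 := pow_ne_zero b' hz0
      field_simp at h2
      exact h2
    rw [geom_sum_eq hne]
    have h4 : (z q ^ b * (z q ^ b')⁻¹) ^ q = 1 := by
      rw [mul_pow, inv_pow, ← pow_mul, ← pow_mul, mul_comm b, mul_comm b', pow_mul, pow_mul,
        hz.pow_eq_one]
      simp
    rw [h4]
    simp

/-- class sums -/
noncomputable def cs (q : ℕ) (s : Finset ℕ) (a : ℕ → ℝ) (b : ℕ) : ℝ := ∑ n ∈ s with n % q = b, a n

lemma F_eq {q : ℕ} (hq : 0 < q) (s : Finset ℕ) (a : ℕ → ℝ) (t : ℕ) :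
    ∑ n ∈ s, (a n : ℂ) * ex (n * ((t : ℝ) / q)) =
      ∑ b ∈ range q, (cs q s a b : ℂ) * (z q ^ b) ^ t := by
  rw [← Finset.sum_fiberwise_of_maps_to (s := s) (t := range q) (g := fun n => n % q)
    (fun n _ => mem_range.2 (Nat.mod_lt _ hq))]
  refine Finset.sum_congr rfl fun b _ => ?_
  unfold cs
  push_cast
  rw [Finset.sum_mul]
  refine Finset.sum_congr rfl fun n hn => ?_
  rw [mem_filter] at hn
  rw [ex_eq]
  congr 2
  rw [← hn.2]
  conv_lhs => rw [← Nat.div_add_mod n q, pow_add, pow_mul, (z_prim hq).pow_eq_one, one_pow,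
    one_mul]

lemma sum_cs {q : ℕ} (hq : 0 < q) (s : Finset ℕ) (a : ℕ → ℝ) :
    ∑ b ∈ range q, cs q s a b = ∑ n ∈ s, a n := by
  unfold cs
  exact Finset.sum_fiberwise_of_maps_to (s := s) (t := range q) (g := fun n => n % q)
    (fun n _ => mem_range.2 (Nat.mod_lt _ hq)) _

lemma parseval {q : ℕ} (hq : 0 < q) (s : Finset ℕ) (a : ℕ → ℝ) :
    ∑ t ∈ range q, ‖∑ n ∈ s, (a n : ℂ) * ex (n * ((t : ℝ) / q))‖ ^ 2 =
      q * ∑ b ∈ range q, cs q s a b ^ 2 := by
  have key : ((∑ t ∈ range q, ‖∑ n ∈ s, (a n : ℂ) * ex (n * ((t : ℝ) / q))‖ ^ 2 : ℝ) : ℂ) =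
      ((q * ∑ b ∈ range q, cs q s a b ^ 2 : ℝ) : ℂ) := by
    push_cast
    have h1 : ∀ t ∈ range q, ((‖∑ n ∈ s, (a n : ℂ) * ex (n * ((t : ℝ) / q))‖ : ℂ)) ^ 2 =
        ∑ b ∈ range q, ∑ b' ∈ range q, (cs q s a b : ℂ) * (cs q s a b') *
          ((z q ^ b) ^ t * conj ((z q ^ b') ^ t)) := by
      intro t _
      rw [F_eq hq]
      rw [← Complex.mul_conj', map_sum, Finset.sum_mul_sum]
      refine Finset.sum_congr rfl fun b _ => Finset.sum_congr rfl fun b' _ => ?_
      rw [map_mul, Complex.conj_ofReal]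
      ring
    rw [Finset.sum_congr rfl h1, Finset.sum_comm]
    rw [Finset.mul_sum]
    refine Finset.sum_congr rfl fun b hb => ?_
    rw [Finset.sum_comm]
    have h2 : ∀ b' ∈ range q, ∑ t ∈ range q, (cs q s a b : ℂ) * (cs q s a b') *
          ((z q ^ b) ^ t * conj ((z q ^ b') ^ t)) =
        (cs q s a b : ℂ) * (cs q s a b') * (if b = b' then (q : ℂ) else 0) := by
      intro b' hb'
      rw [← Finset.mul_sum, orth hq (mem_range.1 hb) (mem_range.1 hb')]
    rw [Finset.sum_congr rfl h2]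
    simp only [mul_ite, mul_zero]
    rw [Finset.sum_ite_eq, if_pos hb]
    ring
  exact_mod_cast key

end PARS

open PARS in
theorem tPARS : T_PARS := by
  intro q s a hq
  have hqr : (q : ℝ) ≠ 0 := by exact_mod_cast hq.ne'
  have h1 := parseval hq s a
  have h2 : range q = insert 0 (Ioo 0 q) := by
    ext t
    simp only [mem_range, mem_insert, mem_Ioo]
    omega
  rw [h2, Finset.sum_insert (by simp), ← h2] at h1
  have h3 : ‖∑ n ∈ s, (a n : ℂ) * ex (n * (((0 : ℕ) : ℝ) / q))‖ ^ 2 = (∑ n ∈ s, a n) ^ 2 := by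
    have : ∑ n ∈ s, (a n : ℂ) * ex (n * (((0 : ℕ) : ℝ) / q)) = ((∑ n ∈ s, a n : ℝ) : ℂ) := by
      push_cast
      refine Finset.sum_congr rfl fun n _ => ?_
      have h0 := ex_eq q n 0
      push_cast at h0
      rw [h0]
      simp
    rw [this, Complex.norm_real, Real.norm_eq_abs, sq_abs]
  rw [h3] at h1
  have h4 : q * vr q s a = q * ∑ b ∈ range q, cs q s a b ^ 2 - (∑ n ∈ s, a n) ^ 2 := by
    unfold vr
    change (q : ℝ) * ∑ b ∈ range q, (cs q s a b - (∑ n ∈ s, a n) / q) ^ 2 = _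
    have h5 : ∀ b ∈ range q, (cs q s a b - (∑ n ∈ s, a n) / q) ^ 2 =
        cs q s a b ^ 2 - (2 * (∑ n ∈ s, a n) / q) * cs q s a b + ((∑ n ∈ s, a n) / q) ^ 2 := by
      intro b _
      ring
    rw [Finset.sum_congr rfl h5, Finset.sum_add_distrib, Finset.sum_sub_distrib, ← Finset.mul_sum,
      sum_cs hq, Finset.sum_const, card_range, nsmul_eq_mul]
    field_simp
    ring
  rw [h4]
  linarith

end Pool.Agent.DHD
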