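import Pool.Agent.DHD.TNum

set_option autoImplicit false

/-!
# POK: the inequalities between the parameters
-/

namespace Pool.Agent.DHD

open Finset

namespace POK

theorem mono {Z : ℕ} (h : 10 ^ 50 ≤ Z) (c a b : ℕ) (hc : c ≤ 10 ^ 50) (hab : a + 1 ≤ b) :
    c * Z ^ a ≤ Z ^ b := by
  have hZ : 0 < Z := lt_of_lt_of_le (by norm_num) h
  calc c * Z ^ a ≤ Z * Z ^ a := Nat.mul_le_mul_right _ (hc.trans h)
    _ = Z ^ (a + 1) := by ring
    _ ≤ Z ^ b := Nat.pow_le_pow_right hZ hab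

theorem mono0 {Z : ℕ} (h : 10 ^ 50 ≤ Z) (c b : ℕ) (hc : c ≤ 10 ^ 50) (hab : 1 ≤ b) :
    c ≤ Z ^ b := by
  simpa using mono h c 0 b hc hab

/-- basic facts -/
structure Facts (c : Ctx) : Prop where
  R1 : c.Z ^ 79 < 4 * c.R
  X1 : c.Z ^ 1991 < 2 * c.X
  Q1 : c.Z ^ 799 < 4 * c.Q
  V1 : c.Z ^ 3 * c.X ≤ c.V
  V2 : c.V ≤ 2 * c.Z ^ 3 * c.X
  P1 : c.par.P1 + 2 * c.Z ^ 1906 = c.X
  Qd : c.par.Q1 + c.Z ^ 700 = c.Q
  P1b : c.Z ^ 1991 ≤ 4 * c.par.P1
  Q1b : c.Z ^ 799 ≤ 5 * c.par.Q1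
  XP : 100 * c.X ≤ 101 * c.par.P1

theorem facts (c : Ctx) (h : c.Ok) : Facts c := by
  obtain ⟨⟨Z, R, X, V, Q, A, Ps, Vs, L⟩, rfl⟩ : ∃ c' : Ctx, c = c' := ⟨c, rfl⟩
  have hZ := h.Z_big
  have hR := h.R_lo
  have hX := h.X_lo
  have hQ := h.Q_lo
  have hV := h.V_eq
  simp only at hZ hR hX hQ hV
  have hZ0 : 0 < Z := lt_of_lt_of_le (by norm_num) hZ
  have R1 : Z ^ 79 < 4 * R := by
    have : Z * Z ^ 79 < Z * (4 * R) := by
      calc Z * Z ^ 79 = Z ^ 80 := by ring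
        _ < 4 * (Z * R) := hR
        _ = Z * (4 * R) := by ring
    exact Nat.lt_of_mul_lt_mul_left this
  have X1 : Z ^ 1991 < 2 * X := by
    have : (2 * Z) * Z ^ 1991 < (2 * Z) * (2 * X) := by
      calc (2 * Z) * Z ^ 1991 = 2 * Z ^ 1992 := by ring
        _ < 4 * (Z * X) := hX
        _ = (2 * Z) * (2 * X) := by ring
    exact Nat.lt_of_mul_lt_mul_left this
  have Q1 : Z ^ 799 < 4 * Q := by
    have : Z * Z ^ 799 < Z * (4 * Q) := by
      calc Z * Z ^ 799 = Z ^ 800 := by ring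
        _ < 4 * (Z * Q) := hQ
        _ = Z * (4 * Q) := by ring
    exact Nat.lt_of_mul_lt_mul_left this
  have m1 := mono hZ 1000 1906 1991 (by norm_num) (by norm_num)
  have m2 := mono hZ 100 700 799 (by norm_num) (by norm_num)
  have V1 : Z ^ 3 * X ≤ V := by nlinarith
  have V2 : V ≤ 2 * Z ^ 3 * X := by
    have : X ≤ Z ^ 3 * X := Nat.le_mul_of_pos_left _ (pow_pos hZ0 3)
    nlinarith
  refine ⟨R1, X1, Q1, V1, V2, ?_, ?_, ?_, ?_, ?_⟩ <;> simp only [Ctx.par] <;> omega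

theorem N_le {c : Ctx} (h : c.Ok) : c.par.N ≤ 2 * c.Z ^ 83 * c.X ^ 2 ∧
    c.par.N ≤ 2 * c.Z ^ 83 * c.par.P1 ^ 2 ∧ c.par.N ≤ c.Z ^ 4068 := by
  have F := facts c h
  have hZ := h.Z_big
  have hZ0 : 0 < c.Z := lt_of_lt_of_le (by norm_num) hZ
  have e : c.par.N = c.R * c.V * c.X := rfl
  have hR := h.R_hi
  have hX := h.X_hi
  -- 2 N ≤ (2 Z^83 + Z^80) X^2
  have a1 : 2 * c.par.N ≤ (2 * c.Z ^ 83 + c.Z ^ 80) * c.X ^ 2 := by
    calc 2 * c.par.N = c.R * ((2 * c.V) * c.X) := by rw [e]; ring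
      _ = c.R * ((2 * c.Z ^ 3 + 1) * c.X * c.X) := by rw [h.V_eq]
      _ ≤ c.Z ^ 80 * ((2 * c.Z ^ 3 + 1) * c.X * c.X) := Nat.mul_le_mul_right _ hR
      _ = _ := by ring
  have a2 : c.Z ^ 80 ≤ c.Z ^ 83 := Nat.pow_le_pow_right hZ0 (by norm_num)
  have m3 := mono hZ 1 80 83 (by norm_num) (by norm_num)
  have m4 := mono hZ 100 80 83 (by norm_num) (by norm_num)
  have b1 : c.par.N ≤ 2 * c.Z ^ 83 * c.X ^ 2 := by
    have : (2 * c.Z ^ 83 + c.Z ^ 80) * c.X ^ 2 ≤ (4 * c.Z ^ 83) * c.X ^ 2 :=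
      Nat.mul_le_mul_right _ (by omega)
    nlinarith
  refine ⟨b1, ?_, ?_⟩
  · -- X^2 ≤ (101/100)^2 P1^2
    have x2 : 10000 * c.X ^ 2 ≤ 10201 * c.par.P1 ^ 2 := by
      have := Nat.mul_le_mul F.XP F.XP
      nlinarith
    have a3 : 100 * (2 * c.par.N) ≤ 201 * c.Z ^ 83 * c.X ^ 2 := by
      calc 100 * (2 * c.par.N) ≤ 100 * ((2 * c.Z ^ 83 + c.Z ^ 80) * c.X ^ 2) := by omega
        _ = (200 * c.Z ^ 83 + 100 * c.Z ^ 80) * c.X ^ 2 := by ring
        _ ≤ (201 * c.Z ^ 83) * c.X ^ 2 := Nat.mul_le_mul_right _ (by omega)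
        _ = _ := by ring
    have a4 : 10000 * (201 * c.Z ^ 83 * c.X ^ 2) ≤ 201 * c.Z ^ 83 * (10201 * c.par.P1 ^ 2) := by
      calc 10000 * (201 * c.Z ^ 83 * c.X ^ 2) = 201 * c.Z ^ 83 * (10000 * c.X ^ 2) := by ring
        _ ≤ _ := Nat.mul_le_mul_left _ x2
    have : 0 ≤ c.Z ^ 83 * c.par.P1 ^ 2 := Nat.zero_le _
    nlinarith
  · have hX2 : c.X ^ 2 ≤ (2 * c.Z ^ 1992) ^ 2 := Nat.pow_le_pow_left hX 2
    calc c.par.N ≤ 2 * c.Z ^ 83 * c.X ^ 2 := b1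
      _ ≤ 2 * c.Z ^ 83 * (2 * c.Z ^ 1992) ^ 2 := Nat.mul_le_mul_left _ hX2
      _ = 8 * c.Z ^ 4067 := by ring
      _ ≤ c.Z ^ 4068 := mono hZ _ _ _ (by norm_num) (by norm_num)

theorem le_N {c : Ctx} (h : c.Ok) : c.Z ^ 4000 ≤ c.par.N := by
  have F := facts c h
  have hZ := h.Z_big
  have hZ0 : 0 < c.Z := lt_of_lt_of_le (by norm_num) hZ
  have e : c.par.N = c.R * c.V * c.X := rfl
  have h1 : c.Z ^ 79 * (c.Z ^ 3 * c.Z ^ 1991) * c.Z ^ 1991 ≤ 16 * c.par.N := by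
    calc c.Z ^ 79 * (c.Z ^ 3 * c.Z ^ 1991) * c.Z ^ 1991
        ≤ (4 * c.R) * (c.Z ^ 3 * (2 * c.X)) * (2 * c.X) := by
          have := F.R1.le
          have := F.X1.le
          gcongr
      _ = 16 * (c.R * (c.Z ^ 3 * c.X) * c.X) := by ring
      _ ≤ 16 * (c.R * c.V * c.X) := by
          have := F.V1
          gcongr
      _ = _ := by rw [e]
  have m := mono hZ 16 4000 4064 (by norm_num) (by norm_num)
  have : c.Z ^ 79 * (c.Z ^ 3 * c.Z ^ 1991) * c.Z ^ 1991 = c.Z ^ 4064 := by ring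
  omega

theorem K1_le {c : Ctx} (h : c.Ok) : c.par.K1 ≤ 32 * c.Z ^ 401 := by
  have hZ := h.Z_big
  have hZ0 : 0 < c.Z := lt_of_lt_of_le (by norm_num) hZ
  have hN := (N_le h).2.2
  have h5 : c.par.N ≤ c.Z ^ 5000 := hN.trans (Nat.pow_le_pow_right hZ0 (by norm_num))
  have hl : Nat.log 2 c.par.N ≤ Nat.log 2 (c.Z ^ 5000) := Nat.log_mono_right h5
  have hl2 := h.Z_log
  have : Nat.log 2 c.par.N + 1 ≤ c.Z := by omega
  unfold Par.K1
  have e : c.par.M = c.Z ^ 400 := rfl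
  rw [e]
  calc 32 * (c.Z ^ 400 * (Nat.log 2 c.par.N + 1)) ≤ 32 * (c.Z ^ 400 * c.Z) := by gcongr
    _ = _ := by ring

theorem k_le {c : Ctx} (h : c.Ok) : c.par.k ≤ 2000 * c.Z ^ 401 := by
  have hZ := h.Z_big
  have hZ0 : 0 < c.Z := lt_of_lt_of_le (by norm_num) hZ
  have h1 := K1_le h
  have h2 : 1 ≤ c.Z ^ 401 := Nat.one_le_pow _ _ hZ0
  have m := mono0 hZ 1000 401 (by norm_num) (by norm_num)
  unfold Par.k
  omega

theorem ok {c : Ctx} (h : c.Ok) : c.par.Ok := by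
  have F := facts c h
  have hZ := h.Z_big
  have hZ0 : 0 < c.Z := lt_of_lt_of_le (by norm_num) hZ
  have hN := N_le h
  have hN' := le_N h
  have hX := h.X_hi
  have hQ := h.Q_hi
  have hR := h.R_hi
  have P1pos : 0 < c.par.P1 := by
    have := F.P1b
    have : 0 < c.Z ^ 1991 := pow_pos hZ0 _
    omega
  have m400 := mono0 hZ 2 400 (by norm_num) (by norm_num)
  have m400' := mono hZ 10 400 799 (by norm_num) (by norm_num)
  have m2 := mono0 hZ 2 2 (by norm_num) (by norm_num)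
  have m800 := mono hZ 10 800 1991 (by norm_num) (by norm_num)
  have eM : c.par.M = c.Z ^ 400 := rfl
  have eD : c.par.D = c.Z ^ 2 := rfl
  have eQ2 : c.par.Q2 = c.Q := rfl
  have eP2 : c.par.P2 = c.X := rfl
  have eE : c.par.E = c.X / 8 := rfl
  have F1 := F.Q1b
  have F2 := F.P1b
  refine ⟨?_, ?_, ?_, ?_, ?_, ?_, ?_, ?_, ?_⟩
  · rw [eM]; simpa using m400
  · rw [eM]
    have : 0 < c.Z ^ 400 := pow_pos hZ0 _
    omega
  · rw [eQ2]
    omega
  · rw [eD]; simpa using m2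
  · rw [eM]
    calc c.Z ^ 400 * c.Z ^ 400 = c.Z ^ 800 := by ring
      _ ≤ c.Z ^ 4000 := Nat.pow_le_pow_right hZ0 (by norm_num)
      _ ≤ _ := hN'
  · have m83 := mono hZ 100 83 1991 (by norm_num) (by norm_num)
    have pos : 0 < c.Z ^ 83 := pow_pos hZ0 _
    have : 2 * c.Z ^ 83 < c.par.P1 := by omega
    calc c.par.N ≤ 2 * c.Z ^ 83 * c.par.P1 ^ 2 := hN.2.1
      _ < c.par.P1 * c.par.P1 ^ 2 := Nat.mul_lt_mul_of_pos_right this (by positivity)
      _ = _ := by ring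
  · have m83 := mono hZ 100 83 799 (by norm_num) (by norm_num)
    have pos : 0 < c.Z ^ 83 := pow_pos hZ0 _
    have : 2 * c.Z ^ 83 < c.par.Q1 := by omega
    calc c.par.N ≤ 2 * c.Z ^ 83 * c.par.P1 ^ 2 := hN.2.1
      _ < c.par.Q1 * c.par.P1 ^ 2 := Nat.mul_lt_mul_of_pos_right this (by positivity)
  · have q6 : (c.Z ^ 799) ^ 6 ≤ (5 * c.par.Q1) ^ 6 := Nat.pow_le_pow_left F1 6
    have q6' : c.Z ^ 4794 ≤ 15625 * c.par.Q1 ^ 6 := by
      calc c.Z ^ 4794 = (c.Z ^ 799) ^ 6 := by ring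
        _ ≤ (5 * c.par.Q1) ^ 6 := q6
        _ = _ := by ring
    have m := mono hZ 15626 4068 4794 (by norm_num) (by norm_num)
    have : 0 < c.Z ^ 4068 := pow_pos hZ0 _
    have := hN.2.2
    omega
  · have e1 : c.par.P2 - c.par.P1 ≤ 2 * c.Z ^ 1906 := by
      have := F.P1
      omega
    have e2 : 4 * c.Z ^ 1989 < c.par.E := by
      rw [eE]
      have m := mono hZ 100 1989 1991 (by norm_num) (by norm_num)
      have m' := mono0 hZ 100 1989 (by norm_num) (by norm_num)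
      have := F.X1
      omega
    calc (c.par.P2 - c.par.P1) * c.par.N ≤ (2 * c.Z ^ 1906) * (2 * c.Z ^ 83 * c.par.P1 ^ 2) :=
          Nat.mul_le_mul e1 hN.2.1
      _ = (4 * c.Z ^ 1989) * c.par.P1 ^ 2 := by ring
      _ < c.par.E * c.par.P1 ^ 2 := Nat.mul_lt_mul_of_pos_right e2 (by positivity)

/-- the union type bound for the product of three differences -/
theorem three (D R X V a b e : ℕ) (ha : 4 * D * a ≤ X) (hb : 4 * D * b ≤ R)
    (he : 2 * D * e ≤ V) (hD : 1 ≤ D) :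
    R * V * X * (D - 1) ≤ D * ((X - a) * ((R - b) * (V - e))) := by
  have haX : a ≤ X := by nlinarith
  have hbR : b ≤ R := by nlinarith
  have heV : e ≤ V := by nlinarith
  obtain ⟨x, rfl⟩ := Nat.exists_eq_add_of_le haX
  obtain ⟨r, rfl⟩ := Nat.exists_eq_add_of_le hbR
  obtain ⟨v, rfl⟩ := Nat.exists_eq_add_of_le heV
  obtain ⟨d, rfl⟩ := Nat.exists_eq_add_of_le hD
  simp only [Nat.add_sub_cancel_left]
  -- need: D * (a R V + b X V + e X R) ≤ R V X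
  have k1 : 4 * ((1 + d) * a * ((b + r) * (e + v))) ≤ (a + x) * ((b + r) * (e + v)) := by
    calc 4 * ((1 + d) * a * ((b + r) * (e + v))) = (4 * (1 + d) * a) * ((b + r) * (e + v)) := by
          ring
      _ ≤ _ := Nat.mul_le_mul_right _ ha
  have k2 : 4 * ((1 + d) * b * ((a + x) * (e + v))) ≤ (b + r) * ((a + x) * (e + v)) := by
    calc 4 * ((1 + d) * b * ((a + x) * (e + v))) = (4 * (1 + d) * b) * ((a + x) * (e + v)) := by
          ring
      _ ≤ _ := Nat.mul_le_mul_right _ hb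
  have k3 : 2 * ((1 + d) * e * ((a + x) * (b + r))) ≤ (e + v) * ((a + x) * (b + r)) := by
    calc 2 * ((1 + d) * e * ((a + x) * (b + r))) = (2 * (1 + d) * e) * ((a + x) * (b + r)) := by
          ring
      _ ≤ _ := Nat.mul_le_mul_right _ he
  have k4 : (1 + d) * (a * ((b + r) * (e + v)) + b * ((a + x) * (e + v)) +
      e * ((a + x) * (b + r))) ≤ (a + x) * ((b + r) * (e + v)) := by nlinarith
  have k5 : (a + x) * ((b + r) * (e + v)) ≤ x * (r * v) + (a * ((b + r) * (e + v)) +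
      b * ((a + x) * (e + v)) + e * ((a + x) * (b + r))) := by
    have : 0 ≤ a * b * v := Nat.zero_le _
    have : 0 ≤ a * b * e := Nat.zero_le _
    have : 0 ≤ a * r * e := Nat.zero_le _
    have : 0 ≤ x * b * e := Nat.zero_le _
    nlinarith
  have k6 := Nat.mul_le_mul_left (1 + d) k5
  nlinarith

end POK

theorem tPOK : T_POK := by
  intro c h
  have F := POK.facts c h
  have hZ := h.Z_big
  have hZ0 : 0 < c.Z := lt_of_lt_of_le (by norm_num) hZ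
  have hN := POK.N_le h
  have hN' := POK.le_N h
  have hX := h.X_hi
  have hQ := h.Q_hi
  have hR := h.R_hi
  have hK := POK.K1_le h
  have hk := POK.k_le h
  have F1 := F.Q1b
  have F2 := F.P1b
  have F3 := F.R1
  have F4 := F.X1
  have F5 := F.Q1
  have F6 := F.V1
  have F7 := F.V2
  have eM : c.par.M = c.Z ^ 400 := rfl
  have eN : c.par.N = c.R * c.V * c.X := rfl
  have eD : c.par.D = c.Z ^ 2 := rfl
  have eQ2 : c.par.Q2 = c.Q := rfl
  have eP2 : c.par.P2 = c.X := rfl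
  have eP1 : c.par.P1 = c.X - 2 * c.Z ^ 1906 := rfl
  have eE : c.par.E = c.X / 8 := rfl
  have hk402 : c.par.k ≤ c.Z ^ 402 :=
    hk.trans (POK.mono hZ _ _ _ (by norm_num) (by norm_num))
  have hL := h.L_card
  have hV4 : c.V ≤ 4 * c.Z ^ 1995 := by
    calc c.V ≤ 2 * c.Z ^ 3 * c.X := F7
      _ ≤ 2 * c.Z ^ 3 * (2 * c.Z ^ 1992) := Nat.mul_le_mul_left _ hX
      _ = _ := by ring
  have hV5 : c.Z ^ 1994 ≤ 2 * c.V := by
    calc c.Z ^ 1994 = c.Z ^ 3 * c.Z ^ 1991 := by ring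
      _ ≤ c.Z ^ 3 * (2 * c.X) := Nat.mul_le_mul_left _ F4.le
      _ = 2 * (c.Z ^ 3 * c.X) := by ring
      _ ≤ 2 * c.V := Nat.mul_le_mul_left _ F6
  have hV6 : 100 * (c.Z ^ 2 * c.X) ≤ c.V := by
    calc 100 * (c.Z ^ 2 * c.X) = (100 * c.Z ^ 2) * c.X := by ring
      _ ≤ c.Z ^ 3 * c.X := Nat.mul_le_mul_right _ (POK.mono hZ _ _ _ (by norm_num) (by norm_num))
      _ ≤ c.V := F6
  refine ⟨POK.ok h, ?_, ?_, ?_, ?_, ?_, F.P1, F.Qd, ?_, hk402, hN.2.1, ?_, ?_, ?_, ?_, ?_, ?_, ?_,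
    ?_, ?_, ?_⟩
  · have m := POK.mono hZ 100 2 799 (by norm_num) (by norm_num)
    have m' := POK.mono hZ 1 1 2 (by norm_num) (by norm_num)
    have : c.Z * c.Z = c.Z ^ 2 := by ring
    have : 0 < c.Z ^ 2 := pow_pos hZ0 _
    simp only [pow_one, one_mul] at m'
    omega
  · have h1 : c.par.k * c.Z ≤ 2000 * c.Z ^ 402 := by
      calc c.par.k * c.Z ≤ 2000 * c.Z ^ 401 * c.Z := Nat.mul_le_mul_right _ hk
        _ = _ := by ring
    have m := POK.mono hZ 10000 402 4000 (by norm_num) (by norm_num)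
    have m' := POK.mono hZ 32 401 402 (by norm_num) (by norm_num)
    have m'' := POK.mono0 hZ 10 402 (by norm_num) (by norm_num)
    omega
  · rw [eQ2]
    have := F.Qd
    have m := POK.mono hZ 10 700 799 (by norm_num) (by norm_num)
    omega
  · rw [eQ2]
    calc c.Q ^ 2 ≤ (c.Z ^ 800) ^ 2 := Nat.pow_le_pow_left hQ 2
      _ = c.Z ^ 1600 := by ring
      _ ≤ c.Z ^ 4000 := Nat.pow_le_pow_right hZ0 (by norm_num)
      _ ≤ _ := hN'
  · have h1 : 100 * (c.par.k * c.Z ^ 3) * (2 * c.Z) ≤ #c.L * (2 * c.Z) := by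
      calc 100 * (c.par.k * c.Z ^ 3) * (2 * c.Z) = 200 * c.Z ^ 4 * c.par.k := by ring
        _ ≤ 200 * c.Z ^ 4 * c.Z ^ 402 := Nat.mul_le_mul_left _ hk402
        _ = 200 * c.Z ^ 406 := by ring
        _ ≤ c.Z ^ 700 := POK.mono hZ _ _ _ (by norm_num) (by norm_num)
        _ ≤ 2 * c.Z * #c.L := hL
        _ = _ := by ring
    exact Nat.le_of_mul_le_mul_right h1 (by omega)
  · exact hN.2.2.trans (Nat.pow_le_pow_right hZ0 (by norm_num))
  · have m := POK.mono hZ 100 80 799 (by norm_num) (by norm_num)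
    have m' := POK.mono hZ 100 83 799 (by norm_num) (by norm_num)
    have : 0 < c.Z ^ 83 := pow_pos hZ0 _
    omega
  · rw [eN, eP2, eP1, eD, Nat.sub_sub]
    apply POK.three
    · have m := POK.mono hZ 100 1908 1991 (by norm_num) (by norm_num)
      have : 4 * c.Z ^ 2 * (2 * c.Z ^ 1906) = 8 * c.Z ^ 1908 := by ring
      omega
    · have m := POK.mono hZ 100 77 79 (by norm_num) (by norm_num)
      have : 4 * c.Z ^ 2 * (c.Z ^ 75) = 4 * c.Z ^ 77 := by ring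
      omega
    · have m := POK.mono hZ 100 1911 1994 (by norm_num) (by norm_num)
      have : 2 * c.Z ^ 2 * (2 * c.Z ^ 1909 + c.X) = 4 * c.Z ^ 1911 + 2 * (c.Z ^ 2 * c.X) := by ring
      omega
    · exact Nat.one_le_pow _ _ hZ0
  · rw [eM]
    have q2 : c.Z ^ 1598 ≤ 25 * c.par.Q1 ^ 2 := by
      calc c.Z ^ 1598 = (c.Z ^ 799) ^ 2 := by ring
        _ ≤ (5 * c.par.Q1) ^ 2 := Nat.pow_le_pow_left F1 2
        _ = _ := by ring
    have q3 : c.Z ^ 1998 ≤ 25 * (c.Z ^ 400 * c.par.Q1 ^ 2) := by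
      calc c.Z ^ 1998 = c.Z ^ 400 * c.Z ^ 1598 := by ring
        _ ≤ c.Z ^ 400 * (25 * c.par.Q1 ^ 2) := Nat.mul_le_mul_left _ q2
        _ = _ := by ring
    have m := POK.mono hZ 100 1995 1998 (by norm_num) (by norm_num)
    omega
  · rw [eM, eP2]
    have : (c.Z ^ 400) ^ 2 * c.R ≤ c.Z ^ 880 := by
      calc (c.Z ^ 400) ^ 2 * c.R ≤ (c.Z ^ 400) ^ 2 * c.Z ^ 80 := Nat.mul_le_mul_left _ hR
        _ = _ := by ring
    have m := POK.mono hZ 100 880 1991 (by norm_num) (by norm_num)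
    omega
  · rw [eP2]
    have h1 : c.R * (c.Z ^ 3 + 1) * (2 * c.Z ^ 1906) ≤ 2 * c.Z ^ 1989 + 2 * c.Z ^ 1986 := by
      calc c.R * (c.Z ^ 3 + 1) * (2 * c.Z ^ 1906)
          ≤ c.Z ^ 80 * (c.Z ^ 3 + 1) * (2 * c.Z ^ 1906) := by gcongr
        _ = _ := by ring
    have h2 : c.R * (2 * c.Z ^ 1909) ≤ 2 * c.Z ^ 1989 := by
      calc c.R * (2 * c.Z ^ 1909) ≤ c.Z ^ 80 * (2 * c.Z ^ 1909) := by gcongr
        _ = _ := by ring
    have m := POK.mono hZ 1000 1989 1991 (by norm_num) (by norm_num)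
    have m' := POK.mono hZ 1 1986 1989 (by norm_num) (by norm_num)
    have m'' := POK.mono hZ 1 1906 1989 (by norm_num) (by norm_num)
    omega
  · rw [eE, eP2]
    omega
  · have m := POK.mono hZ 100 1909 1994 (by norm_num) (by norm_num)
    omega
  · have m := POK.mono hZ 100 1909 1994 (by norm_num) (by norm_num)
    have h1 : c.X ≤ c.Z ^ 2 * c.X := Nat.le_mul_of_pos_left _ (pow_pos hZ0 2)
    have h2 : 0 < c.Z ^ 1991 := pow_pos hZ0 _
    omega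
  · have m := POK.mono hZ 100 75 79 (by norm_num) (by norm_num)
    omega
  · exact hV4.trans (POK.mono hZ _ _ _ (by norm_num) (by norm_num))

end Pool.Agent.DHD
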