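import Pool.Agent.DHD.TNum

set_option autoImplicit false

/-!
# PRIMES: there are many primes
-/

namespace Pool.Agent.DHD

open Finset Filter

namespace PRIMES

theorem card_primes (Y : ℕ) : #{p ∈ Ioc 0 Y | p.Prime} = Nat.primeCounting Y := by
  rw [Nat.primeCounting, Nat.primeCounting', Nat.count_eq_card_filter_range]
  congr 1
  ext p
  simp only [Finset.mem_filter, Finset.mem_Ioc, Finset.mem_range]
  constructor
  · rintro ⟨⟨_, h⟩, hp⟩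
    exact ⟨by omega, hp⟩
  · rintro ⟨h, hp⟩
    exact ⟨⟨hp.pos, by omega⟩, hp⟩

theorem log_succ_le (Y : ℕ) (h : 100 ≤ Y) : Real.log (Y + 1) ≤ 0.19 * Y := by
  have hY : (100 : ℝ) ≤ Y := by exact_mod_cast h
  have h1 : (Y : ℝ) + 1 ≤ (1 + 0.095 * Y) ^ 2 := by nlinarith
  have h2 : Real.log (Y + 1) ≤ Real.log ((1 + 0.095 * Y) ^ 2) :=
    Real.log_le_log (by positivity) h1
  rw [Real.log_pow] at h2
  have h3 : Real.log (1 + 0.095 * Y) ≤ 0.095 * Y := by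
    have := Real.log_le_sub_one_of_pos (x := 1 + 0.095 * (Y : ℝ)) (by positivity)
    linarith
  push_cast at h2
  linarith

theorem le_mul_pi (Y : ℕ) (h : 100 ≤ Y) :
    (Y : ℝ) ≤ 2 * Real.log Y * #{p ∈ Ioc 0 Y | p.Prime} := by
  have hY : (100 : ℝ) ≤ Y := by exact_mod_cast h
  have hlog : 0 < Real.log Y := Real.log_pos (by linarith)
  have h1 := Chebyshev.pi_ge Y
  rw [div_le_iff₀ hlog, ← card_primes] at h1
  have h2 := log_succ_le Y h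
  have h3 := Real.log_two_gt_d9
  nlinarith

theorem exists_Z (C : ℕ) : ∃ Z₀ : ℕ, ∀ Z : ℕ, Z₀ ≤ Z → (2 * (C * Real.log Z)) ^ 8 ≤ Z := by
  have h1 : (fun x : ℝ => Real.log x ^ 8) =o[atTop] (id : ℝ → ℝ) :=
    Real.isLittleO_pow_log_id_atTop
  have h2 : (fun x : ℝ => (2 * C) ^ 8 * Real.log x ^ 8) =o[atTop] (id : ℝ → ℝ) :=
    h1.const_mul_left _
  have h3 := (h2.bound (c := 1) one_pos)
  have h4 := tendsto_natCast_atTop_atTop (R := ℝ) |>.eventually h3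
  obtain ⟨Z₀, hZ⟩ := eventually_atTop.1 h4
  refine ⟨Z₀, fun Z h => ?_⟩
  have h5 := hZ Z h
  simp only [id, one_mul, Real.norm_eq_abs] at h5
  have h6 : |(Z : ℝ)| = Z := abs_of_nonneg (Nat.cast_nonneg Z)
  rw [h6] at h5
  calc (2 * (C * Real.log Z)) ^ 8 = (2 * C) ^ 8 * Real.log Z ^ 8 := by ring
    _ ≤ |(2 * C) ^ 8 * Real.log Z ^ 8| := le_abs_self _
    _ ≤ Z := h5

end PRIMES

theorem tPRIMES : T_PRIMES := by
  intro C
  obtain ⟨Z₀, hZ₀⟩ := PRIMES.exists_Z C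
  refine ⟨max Z₀ 100, fun Z Y hZ hZY hY => ?_⟩
  have h100 : 100 ≤ Z := (le_max_right _ _).trans hZ
  have h1 := hZ₀ Z ((le_max_left _ _).trans hZ)
  have h2 := PRIMES.le_mul_pi Y (h100.trans hZY)
  have hZpos : (0 : ℝ) < Z := by exact_mod_cast (by omega : 0 < Z)
  have hYpos : (0 : ℝ) < Y := by exact_mod_cast (by omega : 0 < Y)
  have h3 : Real.log Y ≤ C * Real.log Z := by
    rw [← Real.log_pow]
    exact Real.log_le_log hYpos (by exact_mod_cast hY)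
  have h4 : (Y : ℝ) ≤ 2 * (C * Real.log Z) * #{p ∈ Ioc 0 Y | p.Prime} := by
    refine h2.trans ?_
    have : (0 : ℝ) ≤ #{p ∈ Ioc 0 Y | p.Prime} := Nat.cast_nonneg _
    nlinarith
  have h5 : (Y : ℝ) ^ 8 ≤ Z * (#{p ∈ Ioc 0 Y | p.Prime} : ℝ) ^ 8 := by
    calc (Y : ℝ) ^ 8 ≤ (2 * (C * Real.log Z) * #{p ∈ Ioc 0 Y | p.Prime}) ^ 8 :=
          pow_le_pow_left₀ hYpos.le h4 8
      _ = (2 * (C * Real.log Z)) ^ 8 * (#{p ∈ Ioc 0 Y | p.Prime} : ℝ) ^ 8 := by ring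
      _ ≤ Z * (#{p ∈ Ioc 0 Y | p.Prime} : ℝ) ^ 8 :=
          mul_le_mul_of_nonneg_right h1 (by positivity)
  exact_mod_cast h5

end Pool.Agent.DHD
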