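import Pool.Agent.DHD.TNum

set_option autoImplicit false

/-!
# SM: there are many smooth numbers in short intervals
-/

namespace Pool.Agent.DHD

open Finset
open scoped Classical

namespace SM

/-- the number of multiples of `D` in an interval of length `h` -/
theorem mult (D V h : ℕ) (hD : 0 < D) (hV : h ≤ V) (hh : 2 * D ≤ h) :
    h ≤ #{v ∈ Ioc (V - h) V | D ∣ v} * (2 * D) := by
  have h1 : (Ioc ((V - h) / D) (V / D)).image (fun m => D * m) ⊆ {v ∈ Ioc (V - h) V | D ∣ v} := by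
    intro v hv
    obtain ⟨m, hm, rfl⟩ := Finset.mem_image.1 hv
    rw [Finset.mem_Ioc] at hm
    rw [Finset.mem_filter, Finset.mem_Ioc]
    refine ⟨⟨?_, ?_⟩, dvd_mul_right _ _⟩
    · have := (Nat.div_lt_iff_lt_mul hD).1 hm.1
      rwa [mul_comm] at this
    · have := (Nat.le_div_iff_mul_le hD).1 hm.2
      rwa [mul_comm] at this
  have h2 : #((Ioc ((V - h) / D) (V / D)).image (fun m => D * m)) = V / D - (V - h) / D := by
    rw [Finset.card_image_of_injective, Nat.card_Ioc]
    intro a b hab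
    exact Nat.eq_of_mul_eq_mul_left hD hab
  have h3 : V / D - (V - h) / D ≤ #{v ∈ Ioc (V - h) V | D ∣ v} := h2 ▸ Finset.card_le_card h1
  have h4 : D * (V / D) + V % D = V := Nat.div_add_mod V D
  have h5 : V % D < D := Nat.mod_lt _ hD
  have h6 : D * ((V - h) / D) ≤ V - h := Nat.mul_div_le _ _
  have h7 : h ≤ (V / D - (V - h) / D) * (2 * D) := by
    have h8 : (V - h) / D ≤ V / D := Nat.div_le_div_right (Nat.sub_le _ _)
    obtain ⟨e, he⟩ := Nat.exists_eq_add_of_le h8
    rw [he, Nat.add_sub_cancel_left]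
    rw [he, mul_add] at h4
    have h9 : e * (2 * D) = 2 * (D * e) := by ring
    rw [h9]
    omega
  exact h7.trans (Nat.mul_le_mul_right _ h3)

/-- the number of prime factors -/
theorem card_primeFactors (v V : ℕ) (h0 : 0 < v) (hv : v ≤ V) :
    #v.primeFactors ≤ Nat.log 2 V := by
  have h1 : 2 ^ #v.primeFactors ≤ ∏ p ∈ v.primeFactors, p := by
    apply Finset.pow_card_le_prod
    intro p hp
    exact (Nat.prime_of_mem_primeFactors hp).two_le
  have h2 : ∏ p ∈ v.primeFactors, p ≤ v := Nat.le_of_dvd h0 (Nat.prod_primeFactors_dvd v)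
  exact Nat.le_log_of_pow_le (by norm_num) (h1.trans (h2.trans hv))

end SM

theorem tSM : T_SM := by
  intro M V h Z B hZ hM hhV hMh hVM hB
  set T : Finset (Fin 4 → ℕ) := Fintype.piFinset (fun _ : Fin 4 => B) with hT
  have hTcard : #T = #B ^ 4 := by
    rw [hT, Fintype.card_piFinset]; simp
  -- double counting
  have hdc : ∑ t ∈ T, #{v ∈ Ioc (V - h) V | (∏ i, t i) ∣ v} =
      ∑ v ∈ Ioc (V - h) V, #{t ∈ T | (∏ i, t i) ∣ v} := by
    simp only [Finset.card_filter]
    exact Finset.sum_comm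
  have hlow : #B ^ 4 * h ≤ (∑ t ∈ T, #{v ∈ Ioc (V - h) V | (∏ i, t i) ∣ v}) * (2 * M ^ 4) := by
    rw [← hTcard, Finset.sum_mul, ← smul_eq_mul, ← Finset.sum_const]
    apply Finset.sum_le_sum
    intro t ht
    rw [hT, Fintype.mem_piFinset] at ht
    have hpos : 0 < ∏ i, t i := Finset.prod_pos fun i _ => (hB _ (ht i)).1.pos
    have hle : ∏ i, t i ≤ M ^ 4 := by
      calc ∏ i, t i ≤ ∏ _i : Fin 4, M := Finset.prod_le_prod' fun i _ => (hB _ (ht i)).2.2
        _ = M ^ 4 := by simp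
    have h1 := SM.mult (∏ i, t i) V h hpos hhV ((Nat.mul_le_mul_left 2 hle).trans hMh)
    exact h1.trans (Nat.mul_le_mul_left _ (Nat.mul_le_mul_left 2 hle))
  have hup : ∑ v ∈ Ioc (V - h) V, #{t ∈ T | (∏ i, t i) ∣ v} ≤
      #{v ∈ Ioc (V - h) V | Smooth M v} * Nat.log 2 V ^ 4 := by
    rw [← smul_eq_mul, ← Finset.sum_const, Finset.sum_filter]
    apply Finset.sum_le_sum
    intro v hv
    rw [Finset.mem_Ioc] at hv
    have hv0 : 0 < v := lt_of_le_of_lt (Nat.zero_le _) hv.1
    by_cases hne : ∃ t ∈ T, (∏ i, t i) ∣ v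
    · obtain ⟨t, ht, htv⟩ := hne
      rw [hT, Fintype.mem_piFinset] at ht
      have hsm : Smooth M v := by
        refine ⟨hv0, ?_⟩
        intro p hp hpv
        obtain ⟨m, hm⟩ := htv
        rw [hm] at hpv
        rcases (Nat.Prime.dvd_mul hp).1 hpv with h1 | h1
        · obtain ⟨i, -, hi⟩ := (Prime.dvd_finsetProd_iff hp.prime _).1 h1
          rw [(Nat.prime_dvd_prime_iff_eq hp (hB _ (ht i)).1).1 hi]
          exact (hB _ (ht i)).2.2
        · have hm0 : 0 < m := by
            rcases Nat.eq_zero_or_pos m with h2 | h2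
            · rw [h2, mul_zero] at hm; omega
            · exact h2
          refine (Nat.le_of_dvd hm0 h1).trans ?_
          have h3 : M ^ 4 ≤ (∏ i, t i) * Z ^ 4 := by
            calc M ^ 4 = ∏ _i : Fin 4, M := by simp
              _ ≤ ∏ i, (t i * Z) := Finset.prod_le_prod' fun i _ => (hB _ (ht i)).2.1
              _ = (∏ i, t i) * Z ^ 4 := by rw [Finset.prod_mul_distrib]; simp
          have h4 : M ^ 4 * m ≤ M ^ 4 * M := by
            calc M ^ 4 * m ≤ ((∏ i, t i) * Z ^ 4) * m := Nat.mul_le_mul_right _ h3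
              _ = v * Z ^ 4 := by rw [hm]; ring
              _ ≤ V * Z ^ 4 := Nat.mul_le_mul_right _ hv.2
              _ ≤ M ^ 5 := hVM
              _ = M ^ 4 * M := by ring
          exact Nat.le_of_mul_le_mul_left h4 (pow_pos hM 4)
      rw [if_pos hsm]
      have hsub : {t ∈ T | (∏ i, t i) ∣ v} ⊆
          Fintype.piFinset (fun _ : Fin 4 => v.primeFactors) := by
        intro s hs
        rw [Finset.mem_filter, hT, Fintype.mem_piFinset] at hs
        rw [Fintype.mem_piFinset]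
        intro i
        rw [Nat.mem_primeFactors]
        exact ⟨(hB _ (hs.1 i)).1, (Finset.dvd_prod_of_mem s (Finset.mem_univ i)).trans hs.2,
          hv0.ne'⟩
      calc #{t ∈ T | (∏ i, t i) ∣ v} ≤ #(Fintype.piFinset (fun _ : Fin 4 => v.primeFactors)) :=
            Finset.card_le_card hsub
        _ = #v.primeFactors ^ 4 := by rw [Fintype.card_piFinset]; simp
        _ ≤ Nat.log 2 V ^ 4 := Nat.pow_le_pow_left (SM.card_primeFactors v V hv0 hv.2) 4
    · have h0 : #{t ∈ T | (∏ i, t i) ∣ v} = 0 := by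
        rw [Finset.card_eq_zero, Finset.filter_eq_empty_iff]
        intro t ht htv
        exact hne ⟨t, ht, htv⟩
      rw [h0]
      exact Nat.zero_le _
  calc #B ^ 4 * h ≤ (∑ t ∈ T, #{v ∈ Ioc (V - h) V | (∏ i, t i) ∣ v}) * (2 * M ^ 4) := hlow
    _ ≤ (#{v ∈ Ioc (V - h) V | Smooth M v} * Nat.log 2 V ^ 4) * (2 * M ^ 4) := by
        rw [hdc]; exact Nat.mul_le_mul_right _ hup
    _ = #{v ∈ Ioc (V - h) V | Smooth M v} * (2 * M ^ 4 * Nat.log 2 V ^ 4) := by ring

end Pool.Agent.DHD
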