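import Pool.Agent.DHD.TNum

set_option autoImplicit false
set_option linter.unusedSectionVars false

/-!
# SPEC: spectral gap by moments for convolutions on a finite abelian group
-/

namespace Pool.Agent.DHD.SPEC

open Finset
open scoped Classical

variable {G : Type} [CommGroup G] [Fintype G]

/-- the square of the norm -/
noncomputable def n2 (f : G → ℝ) : ℝ := ∑ g, f g ^ 2

/-- the reflected function -/
noncomputable def refl (μ : G → ℝ) : G → ℝ := fun g => μ g⁻¹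

lemma n2_nonneg (f : G → ℝ) : 0 ≤ n2 f := Finset.sum_nonneg fun _ _ => sq_nonneg _

lemma n2_eq_zero {f : G → ℝ} (h : n2 f = 0) : f = 0 := by
  funext g
  have h1 := (Finset.sum_eq_zero_iff_of_nonneg (fun (i : G) _ => sq_nonneg (f i))).1 h g
    (Finset.mem_univ g)
  simpa using h1

lemma conv_zero (μ : G → ℝ) : conv μ (0 : G → ℝ) = 0 := by
  funext g; simp [conv]

lemma conv_assoc (μ ν f : G → ℝ) : conv μ (conv ν f) = conv (conv μ ν) f := by
  funext x
  unfold conv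
  simp only [Finset.mul_sum, Finset.sum_mul]
  rw [Finset.sum_comm (f := fun (g h : G) => μ h * ν (h⁻¹ * g) * f (g⁻¹ * x))]
  refine Finset.sum_congr rfl fun h _ => ?_
  refine Fintype.sum_equiv (Equiv.mulLeft h) _ _ fun k => ?_
  simp only [Equiv.coe_mulLeft]
  have e1 : h⁻¹ * (h * k) = k := by group
  have e2 : (h * k)⁻¹ * x = k⁻¹ * (h⁻¹ * x) := by group
  rw [e1, e2]; ring

lemma conv_cpow_zero (μ f : G → ℝ) : conv (cpow μ 0) f = f := by
  funext x
  unfold conv cpow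
  simp

lemma conv_cpow_add (μ f : G → ℝ) (a b : ℕ) :
    conv (cpow μ (a + b)) f = conv (cpow μ a) (conv (cpow μ b) f) := by
  induction a with
  | zero => rw [Nat.zero_add, conv_cpow_zero]
  | succ a ih =>
    rw [show a + 1 + b = (a + b) + 1 by ring]
    show conv (conv μ (cpow μ (a + b))) f = conv (conv μ (cpow μ a)) (conv (cpow μ b) f)
    rw [← conv_assoc, ih, conv_assoc]

/-- the adjoint -/
lemma adj (μ f g : G → ℝ) : ∑ x, conv μ f x * g x = ∑ x, f x * conv (refl μ) g x := by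
  unfold conv refl
  simp only [Finset.mul_sum, Finset.sum_mul]
  rw [Finset.sum_comm, Finset.sum_comm (f := fun (x h : G) => f x * (μ h⁻¹ * g (h⁻¹ * x)))]
  refine Fintype.sum_equiv (Equiv.inv G) _ _ fun h => ?_
  refine Fintype.sum_equiv (Equiv.mulLeft h⁻¹) _ _ fun x => ?_
  simp only [Equiv.coe_mulLeft, Equiv.inv_apply, inv_inv]
  rw [mul_inv_cancel_left]
  ring

lemma conv_comm (μ ν f : G → ℝ) : conv μ (conv ν f) = conv ν (conv μ f) := by
  funext x
  unfold conv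
  simp only [Finset.mul_sum]
  rw [Finset.sum_comm]
  refine Finset.sum_congr rfl fun h _ => Finset.sum_congr rfl fun k _ => ?_
  have e : h⁻¹ * (k⁻¹ * x) = k⁻¹ * (h⁻¹ * x) := by
    rw [← mul_assoc, ← mul_assoc, mul_comm h⁻¹]
  rw [e]; ring

lemma refl_refl (μ : G → ℝ) : refl (refl μ) = μ := by
  funext x; simp [refl]

lemma n2_refl (μ f : G → ℝ) : n2 (conv (refl μ) f) = n2 (conv μ f) := by
  have h1 : n2 (conv (refl μ) f) = ∑ x, conv (refl μ) f x * conv (refl μ) f x :=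
    Finset.sum_congr rfl fun _ _ => sq _
  have h2 : n2 (conv μ f) = ∑ x, conv μ f x * conv μ f x :=
    Finset.sum_congr rfl fun _ _ => sq _
  rw [h1, h2, adj, adj, refl_refl, conv_comm]

lemma n2_sq (ν f : G → ℝ) : n2 (conv ν f) ^ 2 ≤ n2 (conv ν (conv ν f)) * n2 f := by
  have h2 : n2 (conv ν f) = ∑ x, f x * conv (refl ν) (conv ν f) x := by
    rw [← adj]
    exact Finset.sum_congr rfl fun _ _ => sq _
  rw [h2]
  refine (Finset.sum_mul_sq_le_sq_mul_sq _ _ _).trans_eq ?_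
  rw [← n2_refl ν (conv ν f)]
  exact mul_comm _ _

lemma moments (μ f : G → ℝ) (j : ℕ) :
    n2 (conv μ f) ^ 2 ^ j * n2 f ≤ n2 (conv (cpow μ (2 ^ j)) f) * n2 f ^ 2 ^ j := by
  rcases (n2_nonneg f).eq_or_lt with h0 | hpos
  · rw [← h0]; simp
  induction j with
  | zero =>
    have : conv (cpow μ (2 ^ 0)) f = conv μ f := by
      have h1 : cpow μ (2 ^ 0) = conv μ (cpow μ 0) := rfl
      rw [h1, ← conv_assoc, conv_cpow_zero]
    rw [this]; simp
  | succ j ih =>
    set A := n2 (conv μ f) ^ 2 ^ j with hA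
    set B := n2 (conv (cpow μ (2 ^ j)) f) with hB
    set F := n2 f with hF
    have hA' : n2 (conv μ f) ^ 2 ^ (j + 1) = A ^ 2 := by
      rw [hA, ← pow_mul, pow_succ]
    have hF' : F ^ 2 ^ (j + 1) = (F ^ 2 ^ j) ^ 2 := by
      rw [← pow_mul, pow_succ]
    have hC : conv (cpow μ (2 ^ (j + 1))) f =
        conv (cpow μ (2 ^ j)) (conv (cpow μ (2 ^ j)) f) := by
      rw [← conv_cpow_add, pow_succ, mul_two]
    have hB2 : B ^ 2 ≤ n2 (conv (cpow μ (2 ^ (j + 1))) f) * F := by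
      rw [hC]; exact n2_sq _ _
    have hA0 : 0 ≤ A := by rw [hA]; exact pow_nonneg (n2_nonneg _) _
    have h1 : (A * F) ^ 2 ≤ (B * F ^ 2 ^ j) ^ 2 :=
      pow_le_pow_left₀ (mul_nonneg hA0 hpos.le) ih 2
    have h2 : (B * F ^ 2 ^ j) ^ 2 ≤ n2 (conv (cpow μ (2 ^ (j + 1))) f) * F * (F ^ 2 ^ j) ^ 2 := by
      rw [mul_pow]
      exact mul_le_mul_of_nonneg_right hB2 (sq_nonneg _)
    rw [hA', hF']
    have h3 : A ^ 2 * F * F ≤ n2 (conv (cpow μ (2 ^ (j + 1))) f) * (F ^ 2 ^ j) ^ 2 * F := by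
      calc A ^ 2 * F * F = (A * F) ^ 2 := by ring
        _ ≤ _ := h1
        _ ≤ _ := h2
        _ = _ := by ring
    exact le_of_mul_le_mul_right h3 hpos

lemma n2_conv_le (g f : G → ℝ) : n2 (conv g f) ≤ Fintype.card G * n2 g * n2 f := by
  have h1 : ∀ x, conv g f x ^ 2 ≤ n2 g * n2 f := by
    intro x
    unfold conv
    refine (Finset.sum_mul_sq_le_sq_mul_sq _ _ _).trans_eq ?_
    have : ∑ i, f (i⁻¹ * x) ^ 2 = n2 f := by
      refine Fintype.sum_equiv ((Equiv.inv G).trans (Equiv.mulRight x)) _ _ fun h => ?_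
      simp
    rw [this]
    rfl
  calc n2 (conv g f) ≤ ∑ _x : G, n2 g * n2 f := Finset.sum_le_sum fun x _ => h1 x
    _ = _ := by
      rw [Finset.sum_const, Finset.card_univ, nsmul_eq_mul]; ring

lemma conv_sub_const (g f : G → ℝ) (c : ℝ) (hf : ∑ x, f x = 0) :
    conv (fun x => g x - c) f = conv g f := by
  funext x
  unfold conv
  have h : ∑ h : G, c * f (h⁻¹ * x) = 0 := by
    rw [← Finset.mul_sum]
    have : ∑ i, f (i⁻¹ * x) = ∑ i, f i := by
      refine Fintype.sum_equiv ((Equiv.inv G).trans (Equiv.mulRight x)) _ _ fun h => ?_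
      simp
    rw [this, hf, mul_zero]
  simp only [sub_mul, Finset.sum_sub_distrib, h, sub_zero]

end Pool.Agent.DHD.SPEC

namespace Pool.Agent.DHD

open Finset

theorem tSPEC : T_SPEC := by
  intro G _ _ μ f j c hf
  have key := SPEC.moments μ f j
  have h1 := SPEC.n2_conv_le (fun x => cpow μ (2 ^ j) x - c) f
  rw [SPEC.conv_sub_const _ _ _ hf] at h1
  show SPEC.n2 (conv μ f) ^ 2 ^ j ≤
    (Fintype.card G * SPEC.n2 (fun x => cpow μ (2 ^ j) x - c)) * SPEC.n2 f ^ 2 ^ j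
  rcases (SPEC.n2_nonneg f).eq_or_lt with h0 | hpos
  · have hz : f = 0 := SPEC.n2_eq_zero h0.symm
    have : SPEC.n2 (conv μ f) = 0 := by
      rw [hz, SPEC.conv_zero]; simp [SPEC.n2]
    rw [this, zero_pow (by positivity)]
    exact mul_nonneg (mul_nonneg (Nat.cast_nonneg _) (SPEC.n2_nonneg _))
      (pow_nonneg (SPEC.n2_nonneg _) _)
  · have h2 : SPEC.n2 (conv (cpow μ (2 ^ j)) f) * SPEC.n2 f ^ 2 ^ j ≤
        (Fintype.card G * SPEC.n2 (fun x => cpow μ (2 ^ j) x - c) * SPEC.n2 f) *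
          SPEC.n2 f ^ 2 ^ j :=
      mul_le_mul_of_nonneg_right h1 (pow_nonneg hpos.le _)
    have h3 := key.trans h2
    have h4 : SPEC.n2 (conv μ f) ^ 2 ^ j * SPEC.n2 f ≤
        ((Fintype.card G * SPEC.n2 (fun x => cpow μ (2 ^ j) x - c)) * SPEC.n2 f ^ 2 ^ j) *
          SPEC.n2 f := by
      calc _ ≤ _ := h3
        _ = _ := by ring
    exact le_of_mul_le_mul_right h4 hpos

end Pool.Agent.DHD
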