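import Pool.Agent.DHD.TNum

set_option autoImplicit false

namespace Pool.Agent.DHD

open Finset
open scoped Classical

namespace STEPA

theorem card_fiber (q : ℕ) (hq : 0 < q) (t : Finset ℕ) :
    ∑ b ∈ range q, #{v ∈ t | v % q = b} = #t :=
  (Finset.card_eq_sum_card_fiberwise (f := fun v => v % q) (t := range q)
    (fun v _ => Finset.mem_coe.2 (Finset.mem_range.2 (Nat.mod_lt _ hq)))).symm

theorem pairs_card (q : ℕ) (hq : 0 < q) (s t : Finset ℕ) :
    #{w ∈ s ×ˢ t | w.1 % q = w.2 % q} =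
      ∑ b ∈ range q, #{v ∈ s | v % q = b} * #{v ∈ t | v % q = b} := by
  rw [Finset.card_eq_sum_card_fiberwise (f := fun w : ℕ × ℕ => w.1 % q) (t := range q)
    (fun v _ => Finset.mem_coe.2 (Finset.mem_range.2 (Nat.mod_lt _ hq)))]
  refine Finset.sum_congr rfl fun b _ => ?_
  rw [← Finset.card_product]
  congr 1
  ext w
  simp only [Finset.mem_filter, Finset.mem_product]
  constructor
  · rintro ⟨⟨⟨h1, h2⟩, h3⟩, h4⟩
    exact ⟨⟨h1, h4⟩, h2, by rw [← h3, h4]⟩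
  · rintro ⟨⟨h1, h2⟩, h3, h4⟩
    exact ⟨⟨⟨h1, h3⟩, by rw [h2, h4]⟩, h2⟩

theorem sum_ind (u s : Finset ℕ) (p : ℕ → Prop) [DecidablePred p] (hs : s ⊆ u) :
    ∑ n ∈ u with p n, (if n ∈ s then (1 : ℝ) else 0) = #{n ∈ s | p n} := by
  rw [Finset.sum_boole]
  congr 1
  congr 1
  ext n
  simp only [Finset.mem_filter]
  constructor
  · rintro ⟨⟨_, h2⟩, h3⟩
    exact ⟨h3, h2⟩
  · rintro ⟨h1, h2⟩
    exact ⟨⟨hs h1, h2⟩, h1⟩

end STEPA

open STEPA in
theorem tSTEPA : T_STEPA := by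
  intro q κ K h s t hq hs ht hyp
  set S : ℕ → ℝ := fun b => (#{v ∈ s | v % q = b} : ℝ) with hS
  set T : ℕ → ℝ := fun b => (#{v ∈ t | v % q = b} : ℝ) with hT
  have hq' : (0 : ℝ) < q := by exact_mod_cast hq
  have sS : ∑ b ∈ range q, S b = #s := by
    simp only [hS]; exact_mod_cast card_fiber q hq s
  have sT : ∑ b ∈ range q, T b = #t := by
    simp only [hT]; exact_mod_cast card_fiber q hq t
  have hvr : vr q (Ioc K (K + h)) (fun n => if n ∈ s then 1 else 0) =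
      ∑ b ∈ range q, (S b - #s / q) ^ 2 := by
    unfold vr
    refine Finset.sum_congr rfl fun b _ => ?_
    have e1 := sum_ind (Ioc K (K + h)) s (fun n => n % q = b) hs
    have e2 : ∑ n ∈ Ioc K (K + h), (if n ∈ s then (1 : ℝ) else 0) = #s := by
      rw [Finset.sum_boole]
      congr 2
      ext n
      simp only [Finset.mem_filter]
      exact ⟨fun h => h.2, fun h => ⟨hs h, h⟩⟩
    rw [e1, e2]
  have hW : ((#{w ∈ s ×ˢ t | w.1 % q = w.2 % q} : ℕ) : ℝ) = ∑ b ∈ range q, S b * T b := by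
    rw [pairs_card q hq, hS, hT]
    push_cast
    rfl
  have hdiff : ∑ b ∈ range q, (S b - #s / q) * T b =
      ∑ b ∈ range q, S b * T b - #s * #t / q := by
    simp only [sub_mul, Finset.sum_sub_distrib, ← Finset.mul_sum, sT]
    ring
  have hT2 : ∑ b ∈ range q, T b ^ 2 ≤ #t * κ := by
    rw [← sT, Finset.sum_mul]
    refine Finset.sum_le_sum fun b _ => ?_
    rw [sq]
    refine mul_le_mul_of_nonneg_left ?_ (by rw [hT]; positivity)
    simp only [hT]
    exact_mod_cast ht b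
  have hcs := Finset.sum_mul_sq_le_sq_mul_sq (range q) (fun b => S b - #s / q) T
  have hv0 : 0 ≤ ∑ b ∈ range q, (S b - #s / q) ^ 2 := Finset.sum_nonneg fun _ _ => sq_nonneg _
  rw [hvr] at hyp
  set W : ℝ := ∑ b ∈ range q, S b * T b with hWd
  rw [hdiff] at hcs
  have h1 : (W - #s * #t / q) ^ 2 * (4 * q ^ 2) ≤ ((#s : ℝ) * #t) ^ 2 := by
    calc (W - #s * #t / q) ^ 2 * (4 * q ^ 2)
        ≤ ((∑ b ∈ range q, (S b - #s / q) ^ 2) * ∑ b ∈ range q, T b ^ 2) * (4 * q ^ 2) := by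
          gcongr
      _ ≤ ((∑ b ∈ range q, (S b - #s / q) ^ 2) * (#t * κ)) * (4 * q ^ 2) := by gcongr
      _ ≤ _ := hyp
  have h2 : (2 * q * W - 2 * (#s * #t)) ^ 2 ≤ ((#s : ℝ) * #t) ^ 2 := by
    have e : (2 * q * W - 2 * (#s * #t : ℝ)) ^ 2 = (W - #s * #t / q) ^ 2 * (4 * q ^ 2) := by
      field_simp
      ring
    rw [e]
    exact h1
  have h3 := abs_le_of_sq_le_sq' h2 (by positivity)
  have h4 : ((#s : ℝ) * #t) ≤ 2 * q * W := by linarith [h3.1]
  rw [← hW] at h4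
  exact_mod_cast h4

end Pool.Agent.DHD
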