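import Pool.Agent.DHD.TNum

set_option autoImplicit false
set_option linter.unusedSectionVars false

/-!
# STEPB: multiplication by the members of `A` spreads the classes
-/

namespace Pool.Agent.DHD.STEPB

open Finset
open scoped Classical

variable {q : ℕ} [NeZero q]

lemma cast_eq_iff {a : ℕ} (h : a.Coprime q) (τ : (ZMod q)ˣ) :
    ((a : ℕ) : ZMod q) = τ ↔ τ = ZMod.unitOfCoprime a h := by
  constructor
  · intro h1
    apply Units.ext
    rw [ZMod.coe_unitOfCoprime]; exact h1.symm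
  · intro h1
    rw [h1, ZMod.coe_unitOfCoprime]

/-- summation over the classes -/
lemma sum_ite {a : ℕ} (h : a.Coprime q) (g : (ZMod q)ˣ → ℝ) :
    ∑ τ : (ZMod q)ˣ, (if ((a : ℕ) : ZMod q) = τ then (1 : ℝ) else 0) * g τ =
      g (ZMod.unitOfCoprime a h) := by
  rw [Finset.sum_eq_single (ZMod.unitOfCoprime a h)]
  · rw [if_pos ((cast_eq_iff h _).2 rfl), one_mul]
  · intro τ _ hτ
    rw [if_neg (fun h1 => hτ ((cast_eq_iff h _).1 h1)), zero_mul]
  · intro h1; exact absurd (Finset.mem_univ _) h1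

lemma cA_eq (A : Finset ℕ) (g : (ZMod q)ˣ) :
    cA q A g = ∑ a ∈ A, (if ((a : ℕ) : ZMod q) = g then (1 : ℝ) else 0) := by
  unfold cA
  rw [Finset.card_filter, Nat.cast_sum]
  refine Finset.sum_congr rfl fun a _ => ?_
  by_cases h : ((a : ℕ) : ZMod q) = g <;> simp [h]

lemma wcl_eq (Ps Vs : Finset ℕ) (g : (ZMod q)ˣ) :
    (wcl q Ps Vs g : ℝ) = ∑ w ∈ Wset q Ps Vs,
      (if ((uw q w * w.1 : ℕ) : ZMod q) = g then (1 : ℝ) else 0) := by
  unfold wcl
  rw [Finset.card_filter]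
  rw [Nat.cast_sum]
  refine Finset.sum_congr rfl fun a _ => ?_
  by_cases h : ((uw q a * a.1 : ℕ) : ZMod q) = g
  · rw [if_pos h, if_pos h]; simp
  · rw [if_neg h, if_neg h]; simp

lemma Fcl_eq (A Ps Vs : Finset ℕ) (g : (ZMod q)ˣ) :
    (Fcl q A Ps Vs g : ℝ) = ∑ a ∈ A, ∑ w ∈ Wset q Ps Vs,
      (if ((a * (uw q w * w.1) : ℕ) : ZMod q) = g then (1 : ℝ) else 0) := by
  unfold Fcl
  rw [Finset.card_filter, Nat.cast_sum, Finset.sum_product]
  refine Finset.sum_congr rfl fun a _ => Finset.sum_congr rfl fun w _ => ?_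
  by_cases h : ((a * (uw q w * w.1) : ℕ) : ZMod q) = g
  · rw [if_pos h, if_pos h]; simp
  · rw [if_neg h, if_neg h]; simp

lemma sum_cA (A : Finset ℕ) (hA : ∀ a ∈ A, a.Coprime q) :
    ∑ g : (ZMod q)ˣ, cA q A g = #A := by
  simp only [cA_eq]
  rw [Finset.sum_comm]
  have : ∀ a ∈ A, ∑ g : (ZMod q)ˣ, (if ((a : ℕ) : ZMod q) = g then (1 : ℝ) else 0) = 1 := by
    intro a ha
    have := sum_ite (q := q) (hA a ha) (fun _ => 1)
    simpa using this
  rw [Finset.sum_congr rfl this]; simp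

lemma sum_wcl (Ps Vs : Finset ℕ) (hP : ∀ w ∈ Wset q Ps Vs, (uw q w * w.1).Coprime q) :
    ∑ g : (ZMod q)ˣ, (wcl q Ps Vs g : ℝ) = #(Wset q Ps Vs) := by
  simp only [wcl_eq]
  rw [Finset.sum_comm]
  have : ∀ w ∈ Wset q Ps Vs, ∑ g : (ZMod q)ˣ,
      (if ((uw q w * w.1 : ℕ) : ZMod q) = g then (1 : ℝ) else 0) = 1 := by
    intro a ha
    have := sum_ite (q := q) (hP a ha) (fun _ => 1)
    simpa using this
  rw [Finset.sum_congr rfl this]; simp

lemma Fcl_conv (A Ps Vs : Finset ℕ) (hA : ∀ a ∈ A, a.Coprime q) (g : (ZMod q)ˣ) :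
    conv (cA q A) (fun τ => (wcl q Ps Vs τ : ℝ)) g = Fcl q A Ps Vs g := by
  rw [Fcl_eq]
  unfold conv
  simp only [cA_eq, Finset.sum_mul]
  rw [Finset.sum_comm]
  refine Finset.sum_congr rfl fun a ha => ?_
  rw [sum_ite (hA a ha) (fun h => (wcl q Ps Vs (h⁻¹ * g) : ℝ)), wcl_eq]
  refine Finset.sum_congr rfl fun w _ => ?_
  have : (((uw q w * w.1 : ℕ) : ZMod q) = ((ZMod.unitOfCoprime a (hA a ha))⁻¹ * g : (ZMod q)ˣ)) ↔
      (((a * (uw q w * w.1) : ℕ) : ZMod q) = g) := by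
    rw [Nat.cast_mul a, Units.val_mul]
    have e : ((a : ℕ) : ZMod q) = (ZMod.unitOfCoprime a (hA a ha) : (ZMod q)ˣ) :=
      (ZMod.coe_unitOfCoprime a (hA a ha)).symm
    rw [e]
    constructor
    · intro h; rw [h, Units.mul_inv_cancel_left]
    · intro h; rw [← h, Units.inv_mul_cancel_left]
  by_cases h : ((a * (uw q w * w.1) : ℕ) : ZMod q) = g
  · rw [if_pos h, if_pos (this.2 h)]
  · rw [if_neg h, if_neg (fun h1 => h (this.1 h1))]

/-- the argument in the reals -/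
lemma main {G : Type} [CommGroup G] [Fintype G] (μ w : G → ℝ) (q W a Z : ℝ) (k : ℕ)
    (vr : ℝ) (hS : (∑ g, conv μ (fun τ => w τ - W / Fintype.card G) g ^ 2) ^ k ≤
      (q * vr) * (∑ g, (w g - W / Fintype.card G) ^ 2) ^ k) (hk : k ≠ 0)
    (hZ : 0 < Z) (ha : 0 < a) (hq : (Fintype.card G : ℝ) ≤ q) (hW : ∑ g, w g = W) (hW0 : 0 ≤ W)
    (hμ : ∑ g, μ g = a)
    (hv : q * vr * Z ^ (14 * k) ≤ a ^ (2 * k)) :
    (#{τ : G | 2 * q * conv μ w τ < a * W} : ℝ) * Z ^ 14 * W ^ 2 ≤ 4 * q ^ 2 * ∑ τ, w τ ^ 2 := by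
  set φ : ℝ := (Fintype.card G : ℝ) with hφ
  have hφ0 : 0 < φ := by rw [hφ]; exact_mod_cast Fintype.card_pos
  have hq0 : 0 < q := hφ0.trans_le hq
  set f : G → ℝ := fun τ => w τ - W / φ with hf
  -- `conv μ f`
  have hconv : ∀ τ, conv μ f τ = conv μ w τ - a * W / φ := by
    intro τ
    unfold conv
    simp only [hf, mul_sub, Finset.sum_sub_distrib]
    rw [← Finset.sum_mul, hμ, mul_div_assoc]
  have hff : ∑ g, f g ^ 2 ≤ ∑ g, w g ^ 2 := by
    have : ∀ g, f g ^ 2 = w g ^ 2 - 2 * (W / φ) * w g + (W / φ) ^ 2 := by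
      intro g; simp only [hf]; ring
    simp only [this, Finset.sum_add_distrib, Finset.sum_sub_distrib]
    rw [← Finset.mul_sum, hW, Finset.sum_const, Finset.card_univ, nsmul_eq_mul, ← hφ]
    have h1 : φ * (W / φ) ^ 2 = W * (W / φ) := by field_simp
    rw [h1]
    have h2 : 0 ≤ W * (W / φ) := by positivity
    linarith
  set X : ℝ := ∑ g, conv μ f g ^ 2 with hX
  set Y : ℝ := ∑ g, f g ^ 2 with hY
  have hX0 : 0 ≤ X := Finset.sum_nonneg fun _ _ => sq_nonneg _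
  have hY0 : 0 ≤ Y := Finset.sum_nonneg fun _ _ => sq_nonneg _
  have hZX : Z ^ 14 * X ≤ a ^ 2 * Y := by
    refine le_of_pow_le_pow_left₀ hk (by positivity) ?_
    calc (Z ^ 14 * X) ^ k = Z ^ (14 * k) * X ^ k := by rw [mul_pow, ← pow_mul]
      _ ≤ Z ^ (14 * k) * ((q * vr) * Y ^ k) := mul_le_mul_of_nonneg_left hS (by positivity)
      _ = (q * vr * Z ^ (14 * k)) * Y ^ k := by ring
      _ ≤ a ^ (2 * k) * Y ^ k := mul_le_mul_of_nonneg_right hv (by positivity)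
      _ = _ := by rw [mul_pow, ← pow_mul]
  -- the lower bound
  have hlow : (#{τ : G | 2 * q * conv μ w τ < a * W} : ℝ) * (a * W / (2 * q)) ^ 2 ≤ X := by
    have h1 : ∑ _τ ∈ {τ : G | 2 * q * conv μ w τ < a * W}, (a * W / (2 * q)) ^ 2 ≤ X := by
      calc _ ≤ ∑ τ ∈ {τ : G | 2 * q * conv μ w τ < a * W}, conv μ f τ ^ 2 := by
            refine Finset.sum_le_sum fun τ hτ => ?_
            rw [Finset.mem_filter] at hτ
            have h2 := hτ.2
            have h3 : conv μ w τ < a * W / (2 * q) := by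
              rw [lt_div_iff₀ (by positivity)]; linarith
            have h4 : a * W / (2 * q) ≤ a * W / (2 * φ) := by
              apply div_le_div_of_nonneg_left (by positivity) (by positivity) (by linarith)
            have h5 : a * W / φ = 2 * (a * W / (2 * φ)) := by field_simp
            have h6 : 0 ≤ a * W / (2 * q) := by positivity
            have h7 : a * W / (2 * q) ≤ -(conv μ f τ) := by
              rw [hconv τ, h5]; linarith
            calc (a * W / (2 * q)) ^ 2 ≤ (-(conv μ f τ)) ^ 2 := pow_le_pow_left₀ h6 h7 2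
              _ = _ := by ring
        _ ≤ X := Finset.sum_le_sum_of_subset_of_nonneg (Finset.subset_univ _)
            (fun _ _ _ => sq_nonneg _)
    rwa [Finset.sum_const, nsmul_eq_mul] at h1
  have h8 : (#{τ : G | 2 * q * conv μ w τ < a * W} : ℝ) * (a * W / (2 * q)) ^ 2 * Z ^ 14 ≤
      a ^ 2 * ∑ g, w g ^ 2 := by
    calc _ ≤ X * Z ^ 14 := mul_le_mul_of_nonneg_right hlow (by positivity)
      _ = Z ^ 14 * X := mul_comm _ _
      _ ≤ a ^ 2 * Y := hZX
      _ ≤ _ := mul_le_mul_of_nonneg_left hff (by positivity)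
  have h9 : ((#{τ : G | 2 * q * conv μ w τ < a * W} : ℝ) * Z ^ 14 * W ^ 2) * a ^ 2 ≤
      (4 * q ^ 2 * ∑ τ, w τ ^ 2) * a ^ 2 := by
    calc _ = (#{τ : G | 2 * q * conv μ w τ < a * W} : ℝ) * (a * W / (2 * q)) ^ 2 * Z ^ 14 *
          (4 * q ^ 2) := by
          field_simp
          ring
      _ ≤ (a ^ 2 * ∑ g, w g ^ 2) * (4 * q ^ 2) :=
          mul_le_mul_of_nonneg_right h8 (by positivity)
      _ = _ := by ring
  exact le_of_mul_le_mul_right h9 (by positivity)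

end Pool.Agent.DHD.STEPB

namespace Pool.Agent.DHD

open Finset
open scoped Classical

theorem tSTEPB (hS : T_SPEC) (hN : T_NU) : T_STEPB := by
  intro q _ R Z j A Ps Vs hZ hA hAne hPs hu hv
  have hAc : ∀ a ∈ A, a.Coprime q := fun a ha => (hA a ha).2.2
  have hW : ∀ w ∈ Wset q Ps Vs, (uw q w * w.1).Coprime q := by
    intro w hw
    have h1 := hu w hw
    have h2 : w.1 ∈ Ps := by
      unfold Wset at hw
      rw [Finset.mem_filter, Finset.mem_product] at hw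
      exact hw.1.1
    exact Nat.Coprime.mul_left h1 (hPs _ h2)
  set μ : (ZMod q)ˣ → ℝ := cA q A with hμ
  set w : (ZMod q)ˣ → ℝ := fun τ => (wcl q Ps Vs τ : ℝ) with hw
  set W : ℝ := (#(Wset q Ps Vs) : ℝ) with hWdef
  have hsw : ∑ g, w g = W := STEPB.sum_wcl Ps Vs hW
  have hsμ : ∑ g, μ g = (#A : ℝ) := STEPB.sum_cA A hAc
  have hcard : (Fintype.card (ZMod q)ˣ : ℝ) ≤ q := by
    rw [ZMod.card_units_eq_totient]
    exact_mod_cast Nat.totient_le q
  have hφ0 : (0 : ℝ) < Fintype.card (ZMod q)ˣ := by exact_mod_cast Fintype.card_pos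
  have hsum0 : ∑ g, (w g - W / Fintype.card (ZMod q)ˣ) = 0 := by
    rw [Finset.sum_sub_distrib, hsw, Finset.sum_const, Finset.card_univ, nsmul_eq_mul]
    field_simp
    ring
  have h1 := hS (ZMod q)ˣ μ (fun g => w g - W / Fintype.card (ZMod q)ˣ) j
    ((#A : ℝ) ^ 2 ^ j / q) hsum0
  have h2 := hN q A R (2 ^ j) hA
  have hvr0 : 0 ≤ vr q (Ioc 0 (R ^ 2 ^ j)) (fun n => nu A (2 ^ j) n) :=
    Finset.sum_nonneg fun _ _ => sq_nonneg _
  have h3 : (∑ g, conv μ (fun g => w g - W / Fintype.card (ZMod q)ˣ) g ^ 2) ^ 2 ^ j ≤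
      (q * vr q (Ioc 0 (R ^ 2 ^ j)) (fun n => nu A (2 ^ j) n)) *
        (∑ g, (w g - W / Fintype.card (ZMod q)ˣ) ^ 2) ^ 2 ^ j := by
    refine h1.trans ?_
    refine mul_le_mul_of_nonneg_right ?_
      (pow_nonneg (Finset.sum_nonneg fun _ _ => sq_nonneg _) _)
    exact mul_le_mul hcard h2 (Finset.sum_nonneg fun _ _ => sq_nonneg _) (Nat.cast_nonneg _)
  have hApos : (0 : ℝ) < #A := by exact_mod_cast hAne.card_pos
  have key := STEPB.main μ w q W (#A : ℝ) Z (2 ^ j) _ h3 (by positivity)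
    (by exact_mod_cast hZ) hApos hcard hsw (Nat.cast_nonneg _) hsμ hv
  have hset : #{τ : (ZMod q)ˣ | 2 * q * Fcl q A Ps Vs τ < #A * #(Wset q Ps Vs)} =
      #{τ : (ZMod q)ˣ | 2 * (q : ℝ) * conv μ w τ < (#A : ℝ) * W} := by
    congr 1
    ext τ
    simp only [Finset.mem_filter, Finset.mem_univ, true_and]
    rw [hμ, hw, STEPB.Fcl_conv A Ps Vs hAc τ, hWdef]
    exact_mod_cast Iff.rfl
  rw [← hset] at key
  have h4 : ((#{τ : (ZMod q)ˣ | 2 * q * Fcl q A Ps Vs τ < #A * #(Wset q Ps Vs)} * Z ^ 14 *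
    #(Wset q Ps Vs) ^ 2 : ℕ) : ℝ) ≤ ((4 * q ^ 2 * ∑ τ, wcl q Ps Vs τ ^ 2 : ℕ) : ℝ) := by
    push_cast
    exact key
  exact_mod_cast h4

end Pool.Agent.DHD
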