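import Pool.Agent.DHD.TNum

set_option autoImplicit false

namespace Pool.Agent.DHD

open Finset
open scoped Classical

namespace VAR

/-- separation of fractions -/
theorem vsep (t q t' q' : ℕ) (B : ℝ) (hq : 0 < q) (hq' : 0 < q') (h1 : 0 < t) (h2 : t < q)
    (h3 : 0 < t') (h4 : t' < q') (hB : (q : ℝ) * q' ≤ B) (hne : (t : ℝ) / q ≠ (t' : ℝ) / q') :
    1 / B ≤ |(t : ℝ) / q - (t' : ℝ) / q' - round ((t : ℝ) / q - (t' : ℝ) / q')| := by
  set m : ℤ := round ((t : ℝ) / q - (t' : ℝ) / q') with hm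
  have hqr : (0 : ℝ) < q := by exact_mod_cast hq
  have hqr' : (0 : ℝ) < q' := by exact_mod_cast hq'
  have e : (t : ℝ) / q - (t' : ℝ) / q' - m
      = ((((t : ℤ) * q' - t' * q - m * (q * q') : ℤ)) : ℝ) / (q * q') := by
    push_cast
    field_simp
  have hN : ((t : ℤ) * q' - t' * q - m * (q * q') : ℤ) ≠ 0 := by
    intro h0
    rw [h0] at e
    have e1 : (t : ℝ) / q - (t' : ℝ) / q' = m := by
      have : (t : ℝ) / q - (t' : ℝ) / q' - m = 0 := by rw [e]; simp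
      linarith
    have a1 : (t : ℝ) / q < 1 := by rw [div_lt_one hqr]; exact_mod_cast h2
    have a2 : (t' : ℝ) / q' < 1 := by rw [div_lt_one hqr']; exact_mod_cast h4
    have a3 : 0 < (t : ℝ) / q := by
      have : (0 : ℝ) < t := by exact_mod_cast h1
      positivity
    have a4 : 0 < (t' : ℝ) / q' := by
      have : (0 : ℝ) < t' := by exact_mod_cast h3
      positivity
    have b1 : (m : ℝ) < 1 := by linarith
    have b2 : (-1 : ℝ) < m := by linarith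
    have c1 : m < 1 := by exact_mod_cast b1
    have c2 : -1 < m := by exact_mod_cast b2
    have c3 : m = 0 := by omega
    rw [c3] at e1
    apply hne
    push_cast at e1
    linarith
  have hN1 : (1 : ℝ) ≤ |((((t : ℤ) * q' - t' * q - m * (q * q') : ℤ)) : ℝ)| := by
    have : (1 : ℤ) ≤ |((t : ℤ) * q' - t' * q - m * (q * q') : ℤ)| := Int.one_le_abs hN
    exact_mod_cast this
  rw [e, abs_div, abs_of_pos (mul_pos hqr hqr')]
  have hpos : (0 : ℝ) < q * q' := mul_pos hqr hqr'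
  calc 1 / B ≤ 1 / (q * q') := one_div_le_one_div_of_le hpos hB
    _ ≤ _ := by
      apply div_le_div_of_nonneg_right hN1 hpos.le

/-- equal reduced fractions -/
theorem redeq (t q t' q' : ℕ) (hq : 0 < q) (hq' : 0 < q') (h1 : 0 < t)
    (hc : t.Coprime q) (hc' : t'.Coprime q') (he : (t : ℝ) / q = (t' : ℝ) / q') :
    t = t' ∧ q = q' := by
  have hqr : (q : ℝ) ≠ 0 := by
    have : (0 : ℝ) < q := by exact_mod_cast hq
    exact this.ne'
  have hqr' : (q' : ℝ) ≠ 0 := by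
    have : (0 : ℝ) < q' := by exact_mod_cast hq'
    exact this.ne'
  rw [div_eq_div_iff hqr hqr'] at he
  have he' : t * q' = t' * q := by exact_mod_cast he
  have d1 : t ∣ t' := by
    have : t ∣ t' * q := ⟨q', he'.symm⟩
    exact hc.dvd_of_dvd_mul_right this
  have d2 : t' ∣ t := by
    have : t' ∣ t * q' := ⟨q, he'⟩
    exact hc'.dvd_of_dvd_mul_right this
  have e : t = t' := Nat.dvd_antisymm d1 d2
  refine ⟨e, ?_⟩
  subst e
  exact (Nat.eq_of_mul_eq_mul_left h1 he').symm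

/-- sum over a family with small fibres -/
theorem fibre {ι : Type} (I : Finset ι) (g : ι → ℝ) (F : ℝ → ℝ) (c : ℕ) (hF : ∀ x, 0 ≤ F x)
    (hc : ∀ x ∈ I.image g, #{i ∈ I | g i = x} ≤ c) :
    ∑ i ∈ I, F (g i) ≤ c * ∑ x ∈ I.image g, F x := by
  rw [Finset.sum_comp, Finset.mul_sum]
  apply Finset.sum_le_sum
  intro x hx
  rw [nsmul_eq_mul]
  apply mul_le_mul_of_nonneg_right _ (hF x)
  exact_mod_cast hc x hx

end VAR

open VAR in
theorem tVAR (hLS : T_LS) (hPARS : T_PARS) : T_VAR := by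
  intro L Q K h a Λ hQ hL hΛ
  set A2 : ℝ := ∑ n ∈ Ioc K (K + h), a n ^ 2 with hA2
  have hA2n : 0 ≤ A2 := Finset.sum_nonneg fun n _ => sq_nonneg _
  set S : ℝ → ℝ := fun x => ‖∑ n ∈ Ioc K (K + h), (a n : ℂ) * ex (n * x)‖ ^ 2 with hS
  have hSn : ∀ x, 0 ≤ S x := fun x => by rw [hS]; positivity
  have hQr : (2 : ℝ) ≤ Q := by exact_mod_cast hQ
  have hlogQ : 0 ≤ Real.log Q := Real.log_nonneg (by linarith)
  -- the sets
  set PP : Finset (ℕ × ℕ) := (L ×ˢ L).filter (fun p => p.1 ≠ p.2) with hPP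
  have hPPm : ∀ p ∈ PP, p.1.Prime ∧ p.1 ≤ Q ∧ p.2.Prime ∧ p.2 ≤ Q ∧ p.1 ≠ p.2 := by
    intro p hp
    rw [hPP, Finset.mem_filter, Finset.mem_product] at hp
    exact ⟨(hL _ hp.1.1).1, (hL _ hp.1.1).2, (hL _ hp.1.2).1, (hL _ hp.1.2).2, hp.2⟩
  -- part (i)
  have part1 : ∑ p ∈ PP, ∑ t ∈ (Ioo 0 (p.1 * p.2)).filter (fun t => t.Coprime (p.1 * p.2)),
      S ((t : ℝ) / ((p.1 * p.2 : ℕ) : ℝ)) ≤ 2 * (h + Q ^ 4 * Λ) * A2 := by
    rw [Finset.sum_sigma']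
    set I1 := PP.sigma (fun p => (Ioo 0 (p.1 * p.2)).filter (fun t => t.Coprime (p.1 * p.2)))
      with hI1
    set g : (Σ _ : ℕ × ℕ, ℕ) → ℝ := fun i => (i.2 : ℝ) / ((i.1.1 * i.1.2 : ℕ) : ℝ) with hg
    have hmem : ∀ i ∈ I1, i.1 ∈ PP ∧ 0 < i.2 ∧ i.2 < i.1.1 * i.1.2 ∧
        i.2.Coprime (i.1.1 * i.1.2) := by
      intro i hi
      rw [hI1, Finset.mem_sigma] at hi
      have h2 := hi.2
      rw [Finset.mem_filter, Finset.mem_Ioo] at h2
      exact ⟨hi.1, h2.1.1, h2.1.2, h2.2⟩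
    have hfib : ∀ x ∈ I1.image g, #{i ∈ I1 | g i = x} ≤ 2 := by
      intro x hx
      rw [Finset.mem_image] at hx
      obtain ⟨⟨p, t⟩, hi, rfl⟩ := hx
      have m0 := hmem _ hi
      have p0 := hPPm _ m0.1
      have hsub : {i ∈ I1 | g i = g ⟨p, t⟩} ⊆
          ({⟨p, t⟩, ⟨(p.2, p.1), t⟩} : Finset (Σ _ : ℕ × ℕ, ℕ)) := by
        intro j hj
        rw [Finset.mem_filter] at hj
        have m1 := hmem _ hj.1
        have p1 := hPPm _ m1.1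
        obtain ⟨⟨r, r'⟩, u⟩ := j
        have hpos0 : 0 < p.1 * p.2 := Nat.mul_pos p0.1.pos p0.2.2.1.pos
        have hpos1 : 0 < r * r' := Nat.mul_pos p1.1.pos p1.2.2.1.pos
        have := redeq u (r * r') t (p.1 * p.2) hpos1 hpos0 m1.2.1 m1.2.2.2 m0.2.2.2 hj.2
        obtain ⟨eu, eq⟩ := this
        subst eu
        have hr : r ∣ p.1 * p.2 := ⟨r', eq.symm⟩
        rw [Finset.mem_insert, Finset.mem_singleton]
        rcases (Nat.Prime.dvd_mul p1.1).1 hr with hd | hd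
        · have e1 : r = p.1 := (Nat.prime_dvd_prime_iff_eq p1.1 p0.1).1 hd
          left
          have e2 : r' = p.2 := by
            rw [e1] at eq
            exact Nat.eq_of_mul_eq_mul_left p0.1.pos eq
          rw [e1, e2]
        · have e1 : r = p.2 := (Nat.prime_dvd_prime_iff_eq p1.1 p0.2.2.1).1 hd
          right
          have e2 : r' = p.1 := by
            rw [e1, mul_comm p.1 p.2] at eq
            exact Nat.eq_of_mul_eq_mul_left p0.2.2.1.pos eq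
          rw [e1, e2]
      exact le_trans (Finset.card_le_card hsub) Finset.card_le_two
    have b1 := fibre I1 g S 2 hSn hfib
    have hδ0 : (0 : ℝ) < 1 / (Q : ℝ) ^ 4 := by positivity
    have hQ4 : (2 : ℝ) ≤ (Q : ℝ) ^ 4 := by
      have : (1 : ℝ) ≤ (Q : ℝ) ^ 3 := one_le_pow₀ (by linarith)
      calc (2 : ℝ) ≤ Q := hQr
        _ = 1 * Q := (one_mul _).symm
        _ ≤ (Q : ℝ) ^ 3 * Q := by
          apply mul_le_mul_of_nonneg_right this (by linarith)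
        _ = (Q : ℝ) ^ 4 := by ring
    have hδ1 : 1 / (Q : ℝ) ^ 4 ≤ 1 / 2 := one_div_le_one_div_of_le (by norm_num) hQ4
    have hsep : ∀ x ∈ I1.image g, ∀ y ∈ I1.image g, x ≠ y →
        1 / (Q : ℝ) ^ 4 ≤ |x - y - round (x - y)| := by
      intro x hx y hy hxy
      rw [Finset.mem_image] at hx hy
      obtain ⟨i, hi, rfl⟩ := hx
      obtain ⟨j, hj, rfl⟩ := hy
      have m0 := hmem _ hi
      have p0 := hPPm _ m0.1
      have m1 := hmem _ hj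
      have p1 := hPPm _ m1.1
      have hpos0 : 0 < i.1.1 * i.1.2 := Nat.mul_pos p0.1.pos p0.2.2.1.pos
      have hpos1 : 0 < j.1.1 * j.1.2 := Nat.mul_pos p1.1.pos p1.2.2.1.pos
      apply vsep i.2 (i.1.1 * i.1.2) j.2 (j.1.1 * j.1.2) _ hpos0 hpos1 m0.2.1 m0.2.2.1
        m1.2.1 m1.2.2.1 _ hxy
      have n1 : i.1.1 * i.1.2 ≤ Q * Q := Nat.mul_le_mul p0.2.1 p0.2.2.2.1
      have n2 : j.1.1 * j.1.2 ≤ Q * Q := Nat.mul_le_mul p1.2.1 p1.2.2.2.1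
      have n3 : (i.1.1 * i.1.2) * (j.1.1 * j.1.2) ≤ Q ^ 4 := by
        calc (i.1.1 * i.1.2) * (j.1.1 * j.1.2) ≤ (Q * Q) * (Q * Q) := Nat.mul_le_mul n1 n2
          _ = Q ^ 4 := by ring
      exact_mod_cast n3
    have b2 := hLS (I1.image g) (1 / (Q : ℝ) ^ 4) K h a hδ0 hδ1 hsep
    have hcoef : (h : ℝ) + 2 / (1 / (Q : ℝ) ^ 4) * (1 + Real.log (1 / (1 / (Q : ℝ) ^ 4))) ≤
        h + Q ^ 4 * Λ := by
      rw [one_div_one_div, Real.log_pow, div_div_eq_mul_div, div_one]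
      push_cast
      have h4 : (0 : ℝ) ≤ (Q : ℝ) ^ 4 := by positivity
      nlinarith [mul_le_mul_of_nonneg_left hΛ h4]
    have b3 : ∑ x ∈ I1.image g, S x ≤ (h + Q ^ 4 * Λ) * A2 :=
      le_trans b2 (mul_le_mul_of_nonneg_right hcoef hA2n)
    calc ∑ i ∈ I1, S ((i.2 : ℝ) / ((i.1.1 * i.1.2 : ℕ) : ℝ)) = ∑ i ∈ I1, S (g i) := rfl
      _ ≤ ((2 : ℕ) : ℝ) * ∑ x ∈ I1.image g, S x := b1
      _ ≤ ((2 : ℕ) : ℝ) * ((h + Q ^ 4 * Λ) * A2) :=
        mul_le_mul_of_nonneg_left b3 (by norm_num)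
      _ = 2 * (h + Q ^ 4 * Λ) * A2 := by push_cast; ring
  -- the one prime sum
  have part2 : ∑ l ∈ L, ∑ t ∈ Ioo 0 l, S ((t : ℝ) / (l : ℝ)) ≤ (h + Q ^ 2 * Λ) * A2 := by
    rw [Finset.sum_sigma']
    set I2 := L.sigma (fun l => Ioo 0 l) with hI2
    set g : (Σ _ : ℕ, ℕ) → ℝ := fun i => (i.2 : ℝ) / (i.1 : ℝ) with hg
    have hmem : ∀ i ∈ I2, i.1.Prime ∧ i.1 ≤ Q ∧ 0 < i.2 ∧ i.2 < i.1 := by
      intro i hi
      rw [hI2, Finset.mem_sigma, Finset.mem_Ioo] at hi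
      exact ⟨(hL _ hi.1).1, (hL _ hi.1).2, hi.2.1, hi.2.2⟩
    have hfib : ∀ x ∈ I2.image g, #{i ∈ I2 | g i = x} ≤ 1 := by
      intro x hx
      rw [Finset.card_le_one]
      intro i hi j hj
      rw [Finset.mem_filter] at hi hj
      have m0 := hmem _ hi.1
      have m1 := hmem _ hj.1
      have c0 : i.2.Coprime i.1 :=
        Nat.Coprime.symm ((Nat.Prime.coprime_iff_not_dvd m0.1).2
          (fun hd => absurd (Nat.le_of_dvd m0.2.2.1 hd) (not_le.2 m0.2.2.2)))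
      have c1 : j.2.Coprime j.1 :=
        Nat.Coprime.symm ((Nat.Prime.coprime_iff_not_dvd m1.1).2
          (fun hd => absurd (Nat.le_of_dvd m1.2.2.1 hd) (not_le.2 m1.2.2.2)))
      have := redeq i.2 i.1 j.2 j.1 m0.1.pos m1.1.pos m0.2.2.1 c0 c1 (hi.2.trans hj.2.symm)
      obtain ⟨i1, i2⟩ := i
      obtain ⟨j1, j2⟩ := j
      simp only at this
      rw [this.1, this.2]
    have b1 := fibre I2 g S 1 hSn hfib
    have hδ0 : (0 : ℝ) < 1 / (Q : ℝ) ^ 2 := by positivity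
    have hQ2 : (2 : ℝ) ≤ (Q : ℝ) ^ 2 := by nlinarith
    have hδ1 : 1 / (Q : ℝ) ^ 2 ≤ 1 / 2 := one_div_le_one_div_of_le (by norm_num) hQ2
    have hsep : ∀ x ∈ I2.image g, ∀ y ∈ I2.image g, x ≠ y →
        1 / (Q : ℝ) ^ 2 ≤ |x - y - round (x - y)| := by
      intro x hx y hy hxy
      rw [Finset.mem_image] at hx hy
      obtain ⟨i, hi, rfl⟩ := hx
      obtain ⟨j, hj, rfl⟩ := hy
      have m0 := hmem _ hi
      have m1 := hmem _ hj
      apply vsep i.2 i.1 j.2 j.1 _ m0.1.pos m1.1.pos m0.2.2.1 m0.2.2.2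
        m1.2.2.1 m1.2.2.2 _ hxy
      have n3 : i.1 * j.1 ≤ Q ^ 2 := by
        calc i.1 * j.1 ≤ Q * Q := Nat.mul_le_mul m0.2.1 m1.2.1
          _ = Q ^ 2 := by ring
      exact_mod_cast n3
    have b2 := hLS (I2.image g) (1 / (Q : ℝ) ^ 2) K h a hδ0 hδ1 hsep
    have hcoef : (h : ℝ) + 2 / (1 / (Q : ℝ) ^ 2) * (1 + Real.log (1 / (1 / (Q : ℝ) ^ 2))) ≤
        h + Q ^ 2 * Λ := by
      rw [one_div_one_div, Real.log_pow, div_div_eq_mul_div, div_one]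
      push_cast
      have h4 : (0 : ℝ) ≤ (Q : ℝ) ^ 2 := by positivity
      nlinarith [mul_le_mul_of_nonneg_left hΛ h4, mul_nonneg h4 hlogQ]
    have b3 : ∑ x ∈ I2.image g, S x ≤ (h + Q ^ 2 * Λ) * A2 :=
      le_trans b2 (mul_le_mul_of_nonneg_right hcoef hA2n)
    calc ∑ i ∈ I2, S ((i.2 : ℝ) / (i.1 : ℝ)) = ∑ i ∈ I2, S (g i) := rfl
      _ ≤ ((1 : ℕ) : ℝ) * ∑ x ∈ I2.image g, S x := b1
      _ = ∑ x ∈ I2.image g, S x := by push_cast; ring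
      _ ≤ (h + Q ^ 2 * Λ) * A2 := b3
  have hUn : ∀ l : ℕ, 0 ≤ ∑ t ∈ Ioo 0 l, S ((t : ℝ) / (l : ℝ)) :=
    fun l => Finset.sum_nonneg fun t _ => hSn _
  -- reindexing of the multiples of one prime
  have reind : ∀ l l' : ℕ, 0 < l → 0 < l' →
      ∑ t ∈ (Ioo 0 (l * l')).filter (fun t => l ∣ t), S ((t : ℝ) / ((l * l' : ℕ) : ℝ)) =
        ∑ t ∈ Ioo 0 l', S ((t : ℝ) / (l' : ℝ)) := by
    intro l l' hl hl'
    symm
    apply Finset.sum_bij (fun (t : ℕ) (_ : t ∈ Ioo 0 l') => l * t)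
    · intro t ht
      rw [Finset.mem_Ioo] at ht
      rw [Finset.mem_filter, Finset.mem_Ioo]
      exact ⟨⟨Nat.mul_pos hl ht.1, Nat.mul_lt_mul_of_pos_left ht.2 hl⟩, dvd_mul_right _ _⟩
    · intro t _ t' _ htt
      exact Nat.eq_of_mul_eq_mul_left hl htt
    · intro u hu
      rw [Finset.mem_filter, Finset.mem_Ioo] at hu
      obtain ⟨⟨hu1, hu2⟩, ⟨t, rfl⟩⟩ := hu
      refine ⟨t, ?_, rfl⟩
      rw [Finset.mem_Ioo]
      exact ⟨Nat.pos_of_mul_pos_left hu1 |> fun _ => Nat.pos_of_ne_zero (by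
        rintro rfl; simp at hu1), Nat.lt_of_mul_lt_mul_left hu2⟩
    · intro t _
      have hlr : (l : ℝ) ≠ 0 := by
        have : (0 : ℝ) < l := by exact_mod_cast hl
        exact this.ne'
      congr 1
      push_cast
      rw [mul_div_mul_left _ _ hlr]
  -- the splitting
  have split : ∀ p ∈ PP, (p.1 * p.2 : ℝ) * vr (p.1 * p.2) (Ioc K (K + h)) a ≤
      ∑ t ∈ (Ioo 0 (p.1 * p.2)).filter (fun t => t.Coprime (p.1 * p.2)),
        S ((t : ℝ) / ((p.1 * p.2 : ℕ) : ℝ)) +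
      ∑ t ∈ Ioo 0 p.2, S ((t : ℝ) / (p.2 : ℝ)) + ∑ t ∈ Ioo 0 p.1, S ((t : ℝ) / (p.1 : ℝ)) := by
    intro p hp
    have p0 := hPPm _ hp
    have hpos0 : 0 < p.1 * p.2 := Nat.mul_pos p0.1.pos p0.2.2.1.pos
    have e0 := hPARS (p.1 * p.2) (Ioc K (K + h)) a hpos0
    rw [← reind p.1 p.2 p0.1.pos p0.2.2.1.pos, ← reind p.2 p.1 p0.2.2.1.pos p0.1.pos,
      mul_comm p.2 p.1]
    have e1 : (p.1 * p.2 : ℝ) * vr (p.1 * p.2) (Ioc K (K + h)) a =
        ∑ t ∈ Ioo 0 (p.1 * p.2), S ((t : ℝ) / ((p.1 * p.2 : ℕ) : ℝ)) := by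
      rw [← e0]
      push_cast
      rfl
    rw [e1, Finset.sum_filter, Finset.sum_filter, Finset.sum_filter, ← Finset.sum_add_distrib,
      ← Finset.sum_add_distrib]
    apply Finset.sum_le_sum
    intro t _
    have hs := hSn ((t : ℝ) / ((p.1 * p.2 : ℕ) : ℝ))
    by_cases c1 : p.1 ∣ t
    · rw [if_pos c1]
      have : 0 ≤ (if t.Coprime (p.1 * p.2) then S ((t : ℝ) / ((p.1 * p.2 : ℕ) : ℝ)) else 0) := by
        split_ifs
        · exact hs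
        · exact le_rfl
      have : 0 ≤ (if p.2 ∣ t then S ((t : ℝ) / ((p.1 * p.2 : ℕ) : ℝ)) else 0) := by
        split_ifs
        · exact hs
        · exact le_rfl
      linarith
    · by_cases c2 : p.2 ∣ t
      · rw [if_pos c2, if_neg c1]
        have : 0 ≤ (if t.Coprime (p.1 * p.2) then S ((t : ℝ) / ((p.1 * p.2 : ℕ) : ℝ)) else 0) := by
          split_ifs
          · exact hs
          · exact le_rfl
        linarith
      · have c3 : t.Coprime (p.1 * p.2) := by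
          apply Nat.Coprime.mul_right
          · exact ((Nat.Prime.coprime_iff_not_dvd p0.1).2 c1).symm
          · exact ((Nat.Prime.coprime_iff_not_dvd p0.2.2.1).2 c2).symm
        rw [if_pos c3, if_neg c1, if_neg c2]
        linarith
  -- the two sums over one prime
  have s2 : ∑ p ∈ PP, ∑ t ∈ Ioo 0 p.2, S ((t : ℝ) / (p.2 : ℝ)) ≤ #L * ((h + Q ^ 2 * Λ) * A2) := by
    calc ∑ p ∈ PP, ∑ t ∈ Ioo 0 p.2, S ((t : ℝ) / (p.2 : ℝ))
        ≤ ∑ p ∈ L ×ˢ L, ∑ t ∈ Ioo 0 p.2, S ((t : ℝ) / (p.2 : ℝ)) := by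
          apply Finset.sum_le_sum_of_subset_of_nonneg (Finset.filter_subset _ _)
          intro p _ _
          exact hUn _
      _ = #L * ∑ l ∈ L, ∑ t ∈ Ioo 0 l, S ((t : ℝ) / (l : ℝ)) := by
          rw [Finset.sum_product]
          simp only [Finset.sum_const, nsmul_eq_mul]
      _ ≤ #L * ((h + Q ^ 2 * Λ) * A2) := mul_le_mul_of_nonneg_left part2 (Nat.cast_nonneg _)
  have s3 : ∑ p ∈ PP, ∑ t ∈ Ioo 0 p.1, S ((t : ℝ) / (p.1 : ℝ)) ≤ #L * ((h + Q ^ 2 * Λ) * A2) := by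
    calc ∑ p ∈ PP, ∑ t ∈ Ioo 0 p.1, S ((t : ℝ) / (p.1 : ℝ))
        ≤ ∑ p ∈ L ×ˢ L, ∑ t ∈ Ioo 0 p.1, S ((t : ℝ) / (p.1 : ℝ)) := by
          apply Finset.sum_le_sum_of_subset_of_nonneg (Finset.filter_subset _ _)
          intro p _ _
          exact hUn _
      _ = #L * ∑ l ∈ L, ∑ t ∈ Ioo 0 l, S ((t : ℝ) / (l : ℝ)) := by
          rw [Finset.sum_product_right]
          simp only [Finset.sum_const, nsmul_eq_mul]
      _ ≤ #L * ((h + Q ^ 2 * Λ) * A2) := mul_le_mul_of_nonneg_left part2 (Nat.cast_nonneg _)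
  calc ∑ p ∈ PP, (p.1 * p.2 : ℝ) * vr (p.1 * p.2) (Ioc K (K + h)) a
      ≤ ∑ p ∈ PP, (∑ t ∈ (Ioo 0 (p.1 * p.2)).filter (fun t => t.Coprime (p.1 * p.2)),
          S ((t : ℝ) / ((p.1 * p.2 : ℕ) : ℝ)) +
        ∑ t ∈ Ioo 0 p.2, S ((t : ℝ) / (p.2 : ℝ)) + ∑ t ∈ Ioo 0 p.1, S ((t : ℝ) / (p.1 : ℝ))) :=
        Finset.sum_le_sum split
    _ = ∑ p ∈ PP, ∑ t ∈ (Ioo 0 (p.1 * p.2)).filter (fun t => t.Coprime (p.1 * p.2)),
          S ((t : ℝ) / ((p.1 * p.2 : ℕ) : ℝ)) +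
        ∑ p ∈ PP, ∑ t ∈ Ioo 0 p.2, S ((t : ℝ) / (p.2 : ℝ)) +
        ∑ p ∈ PP, ∑ t ∈ Ioo 0 p.1, S ((t : ℝ) / (p.1 : ℝ)) := by
        rw [Finset.sum_add_distrib, Finset.sum_add_distrib]
    _ ≤ 2 * (h + Q ^ 4 * Λ) * A2 + #L * ((h + Q ^ 2 * Λ) * A2) + #L * ((h + Q ^ 2 * Λ) * A2) := by
        linarith
    _ = (2 * (h + Q ^ 4 * Λ) + 2 * #L * (h + Q ^ 2 * Λ)) * A2 := by ring

end Pool.Agent.DHD
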