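import Pool.Agent.DHD.TNum

set_option autoImplicit false

/-!
# W2: the second moment by trivial counting modulo `q`
-/

namespace Pool.Agent.DHD

namespace W2

open Finset
open scoped Classical

/-- the members of one residue class in an interval of length `h` -/
theorem card_class (q X h : ℕ) (s : Finset ℕ)
    (hs : ∀ n ∈ s, X < n + h ∧ n ≤ X)
    (hc : ∀ a ∈ s, ∀ b ∈ s, a % q = b % q) : #s ≤ h / q + 1 := by
  have h1 : #s ≤ #(range (h / q + 1)) := by
    refine Finset.card_le_card_of_injOn (fun n => (X - n) / q) ?_ ?_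
    · intro n hn
      obtain ⟨h1, h2⟩ := hs n hn
      have h3 : (X - n) / q ≤ h / q := Nat.div_le_div_right (by omega)
      simp only [Finset.coe_range, Set.mem_Iio]
      omega
    · intro a ha b hb hab
      obtain ⟨h1, h2⟩ := hs a ha
      obtain ⟨h3, h4⟩ := hs b hb
      have hm : (X - a) % q = (X - b) % q := by
        have e1 : (X - a) + a ≡ (X - b) + b [MOD q] := by
          rw [Nat.sub_add_cancel h2, Nat.sub_add_cancel h4]
        have e2 : a ≡ b [MOD q] := hc a ha b hb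
        exact Nat.ModEq.add_right_cancel e2 e1
      have hab' : (X - a) / q = (X - b) / q := hab
      have e3 := Nat.div_add_mod (X - a) q
      have e4 := Nat.div_add_mod (X - b) q
      rw [hab', hm] at e3
      omega
  simpa using h1

theorem mem_W {q : ℕ} {Ps Vs : Finset ℕ} {w : ℕ × ℕ} :
    w ∈ Wset q Ps Vs ↔ (w.1 ∈ Ps ∧ w.2 ∈ Vs) ∧ w.1 < w.2 ∧ q ∣ w.2 - w.1 := by
  simp [Wset]

theorem uw_eq {q : ℕ} {Ps Vs : Finset ℕ} {w : ℕ × ℕ} (hw : w ∈ Wset q Ps Vs) :
    w.1 + q * uw q w = w.2 := by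
  obtain ⟨_, h1, h2⟩ := mem_W.1 hw
  unfold uw
  rw [Nat.mul_div_cancel' h2]
  omega

theorem card_U (q X hp V hv : ℕ) (hq : 0 < q) (Ps Vs : Finset ℕ)
    (hP : ∀ P ∈ Ps, X < P + hp ∧ P ≤ X ∧ P.Coprime q) (hV : ∀ v ∈ Vs, V < v + hv ∧ v ≤ V) :
    #((Wset q Ps Vs).image (uw q)) ≤ (hv + hp) / q + 1 := by
  have h1 : #((Wset q Ps Vs).image (uw q)) =
      #(((Wset q Ps Vs).image (uw q)).image fun u => q * u + X) := by
    refine (Finset.card_image_of_injective _ ?_).symm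
    intro a b hab
    have : q * a + X = q * b + X := hab
    exact Nat.eq_of_mul_eq_mul_left hq (by omega)
  rw [h1]
  apply card_class q (V + hp) (hv + hp)
  · intro n hn
    simp only [Finset.mem_image, exists_exists_and_eq_and] at hn
    obtain ⟨w, hw, rfl⟩ := hn
    have e := uw_eq hw
    obtain ⟨⟨hw1, hw2⟩, _, _⟩ := mem_W.1 hw
    have e1 := hP _ hw1
    have e2 := hV _ hw2
    omega
  · intro a ha b hb
    simp only [Finset.mem_image, exists_exists_and_eq_and] at ha hb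
    obtain ⟨w, _, rfl⟩ := ha
    obtain ⟨w', _, rfl⟩ := hb
    simp

theorem wcl_le (q : ℕ) [NeZero q] (X hp V hv : ℕ) (Ps Vs : Finset ℕ)
    (hP : ∀ P ∈ Ps, X < P + hp ∧ P ≤ X ∧ P.Coprime q) (hV : ∀ v ∈ Vs, V < v + hv ∧ v ≤ V)
    (hu : ∀ w ∈ Wset q Ps Vs, (uw q w).Coprime q) (τ : (ZMod q)ˣ) :
    wcl q Ps Vs τ ≤ ((hv + hp) / q + 1) * (hp / q + 1) := by
  have hq : 0 < q := Nat.pos_of_ne_zero (NeZero.ne q)
  unfold wcl
  have h1 := Finset.card_le_mul_card_image_of_maps_to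
    (s := {w ∈ Wset q Ps Vs | ((uw q w * w.1 : ℕ) : ZMod q) = τ})
    (t := (Wset q Ps Vs).image (uw q)) (f := uw q)
    (fun w hw => Finset.mem_image_of_mem _ (Finset.mem_filter.1 hw).1) (hp / q + 1) ?_
  · calc _ ≤ (hp / q + 1) * #((Wset q Ps Vs).image (uw q)) := h1
      _ ≤ (hp / q + 1) * ((hv + hp) / q + 1) :=
        Nat.mul_le_mul_left _ (card_U q X hp V hv hq Ps Vs hP hV)
      _ = _ := Nat.mul_comm _ _
  · intro u _
    rw [← Finset.card_image_of_injOn (f := Prod.fst)]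
    · apply card_class q X hp
      · intro n hn
        simp only [Finset.mem_image, Finset.mem_filter] at hn
        obtain ⟨w, ⟨⟨hw, _⟩, _⟩, rfl⟩ := hn
        obtain ⟨⟨hw1, _⟩, _, _⟩ := mem_W.1 hw
        exact ⟨(hP _ hw1).1, (hP _ hw1).2.1⟩
      · intro a ha b hb
        simp only [Finset.mem_image, Finset.mem_filter] at ha hb
        obtain ⟨w, ⟨⟨hw, hwt⟩, hwu⟩, rfl⟩ := ha
        obtain ⟨w', ⟨⟨hw', hwt'⟩, hwu'⟩, rfl⟩ := hb
        have e1 : ((u * w.1 : ℕ) : ZMod q) = ((u * w'.1 : ℕ) : ZMod q) := by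
          rw [← hwu] at hwu' ⊢
          rw [hwt, ← hwt', hwu']
        rw [ZMod.natCast_eq_natCast_iff] at e1
        have e2 : Nat.gcd q u = 1 := by
          have := hu w hw
          rw [hwu] at this
          exact Nat.Coprime.symm this
        exact Nat.ModEq.cancel_left_of_coprime e2 e1
    · intro w hw w' hw' hww
      simp only [Finset.coe_filter, Finset.mem_filter, Set.mem_ofPred_eq] at hw hw'
      have e1 := uw_eq hw.1.1
      have e2 := uw_eq hw'.1.1
      rw [hw.2] at e1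
      rw [hw'.2] at e2
      have e3 : w.1 = w'.1 := hww
      refine Prod.ext e3 ?_
      rw [← e1, ← e2, e3]

theorem wcl_sum (q : ℕ) [NeZero q] (Ps Vs : Finset ℕ) (hP : ∀ P ∈ Ps, P.Coprime q)
    (hu : ∀ w ∈ Wset q Ps Vs, (uw q w).Coprime q) :
    ∑ τ, wcl q Ps Vs τ = #(Wset q Ps Vs) := by
  have hc : ∀ w ∈ Wset q Ps Vs, (uw q w * w.1).Coprime q := by
    intro w hw
    obtain ⟨⟨hw1, _⟩, _, _⟩ := mem_W.1 hw
    exact Nat.Coprime.mul_left (hu w hw) (hP _ hw1)
  rw [Finset.card_eq_sum_card_fiberwise (s := Wset q Ps Vs) (t := Finset.univ)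
    (f := fun w => if h : (uw q w * w.1).Coprime q then ZMod.unitOfCoprime _ h else 1)
    (fun _ _ => Finset.mem_coe.2 (Finset.mem_univ _))]
  refine Finset.sum_congr rfl fun τ _ => ?_
  unfold wcl
  refine congrArg Finset.card (Finset.filter_congr fun w hw => ?_)
  rw [dif_pos (hc w hw)]
  constructor
  · intro h
    exact Units.ext (by rw [ZMod.coe_unitOfCoprime]; exact h)
  · intro h
    rw [← h, ZMod.coe_unitOfCoprime]

end W2

theorem tW2 : T_W2 := by
  intro q _ X hp V hv Ps Vs hP hV hu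
  have h1 := W2.wcl_sum q Ps Vs (fun P h => (hP P h).2.2) hu
  refine ⟨h1, ?_⟩
  calc ∑ τ, wcl q Ps Vs τ ^ 2
      ≤ ∑ τ, wcl q Ps Vs τ * (((hv + hp) / q + 1) * (hp / q + 1)) := by
        refine Finset.sum_le_sum fun τ _ => ?_
        rw [sq]
        exact Nat.mul_le_mul_left _ (W2.wcl_le q X hp V hv Ps Vs hP hV hu τ)
    _ = _ := by rw [← Finset.sum_mul, h1]

end Pool.Agent.DHD
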