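import Pool.Agent.DHD.TNum

set_option autoImplicit false

namespace Pool.Agent.DHD

open Finset
open scoped Classical

namespace WIN

/-- the index of the window of `n` -/
def ix (h n : ℕ) : ℕ := (n - 1) / h + 1

theorem ix_bd {h n : ℕ} (hh : 0 < h) (hn : 0 < n) :
    h * ix h n - h < n ∧ n ≤ h * ix h n := by
  unfold ix
  have h1 := Nat.div_add_mod (n - 1) h
  have h2 := Nat.mod_lt (n - 1) hh
  rw [Nat.mul_add, Nat.mul_one]
  omega

end WIN

open WIN in
theorem tWIN : T_WIN := by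
  intro s Y h Z hs hh hd hY hZ
  by_contra hcon
  push Not at hcon
  obtain ⟨m, rfl⟩ := hd
  have hZ0 : 0 < Z := by
    rcases Nat.eq_zero_or_pos Z with h0 | h0
    · subst h0; rw [Nat.zero_mul] at hZ; omega
    · exact h0
  -- the low windows
  have hlow : 4 * Z * #{n ∈ s | 4 * (Z * (h * ix h n)) ≤ h * m} ≤ h * m := by
    have hsub : {n ∈ s | 4 * (Z * (h * ix h n)) ≤ h * m} ⊆ Ioc 0 (h * m / (4 * Z)) := by
      intro n hn
      rw [Finset.mem_filter] at hn
      rw [Finset.mem_Ioc]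
      refine ⟨(hs n hn.1).1, ?_⟩
      rw [Nat.le_div_iff_mul_le (by omega)]
      have h1 := (ix_bd hh (hs n hn.1).1).2
      calc n * (4 * Z) ≤ (h * ix h n) * (4 * Z) := Nat.mul_le_mul_right _ h1
        _ = 4 * (Z * (h * ix h n)) := by ring
        _ ≤ _ := hn.2
    have h2 := Finset.card_le_card hsub
    rw [Nat.card_Ioc, Nat.sub_zero] at h2
    calc 4 * Z * #{n ∈ s | 4 * (Z * (h * ix h n)) ≤ h * m} ≤ 4 * Z * (h * m / (4 * Z)) :=
          Nat.mul_le_mul_left _ h2
      _ ≤ h * m := Nat.mul_div_le _ _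
  have hhigh : 2 * Z * #{n ∈ s | ¬ 4 * (Z * (h * ix h n)) ≤ h * m} ≤ h * m := by
    have hmaps : ∀ n ∈ {n ∈ s | ¬ 4 * (Z * (h * ix h n)) ≤ h * m}, ix h n ∈ Ioc 0 m := by
      intro n hn
      rw [Finset.mem_filter] at hn
      rw [Finset.mem_Ioc]
      refine ⟨Nat.succ_pos _, ?_⟩
      have h1 := (ix_bd hh (hs n hn.1).1).1
      have h2 := (hs n hn.1).2
      by_contra hc
      have h3 : m + 1 ≤ ix h n := by omega
      have h4 : h * (m + 1) ≤ h * ix h n := Nat.mul_le_mul_left _ h3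
      rw [Nat.mul_add, Nat.mul_one] at h4
      omega
    rw [Finset.card_eq_sum_card_fiberwise hmaps, Finset.mul_sum]
    calc ∑ i ∈ Ioc 0 m, 2 * Z * #{n ∈ {n ∈ s | ¬ 4 * (Z * (h * ix h n)) ≤ h * m} | ix h n = i}
        ≤ ∑ _i ∈ Ioc 0 m, h := by
          refine Finset.sum_le_sum fun i hi => ?_
          rw [Finset.mem_Ioc] at hi
          rcases Finset.eq_empty_or_nonempty
            {n ∈ {n ∈ s | ¬ 4 * (Z * (h * ix h n)) ≤ h * m} | ix h n = i} with h0 | ⟨n, hn⟩
          · rw [h0, Finset.card_empty, Nat.mul_zero]; exact Nat.zero_le _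
          · rw [Finset.mem_filter, Finset.mem_filter] at hn
            obtain ⟨⟨hn1, hn2⟩, rfl⟩ := hn
            have h1 := hcon (h * ix h n) ⟨_, rfl⟩ (not_le.1 hn2)
              (Nat.mul_le_mul_left _ hi.2)
            refine le_trans (Nat.mul_le_mul_left _ (Finset.card_le_card ?_)) h1.le
            intro k hk
            rw [Finset.mem_filter, Finset.mem_filter] at hk
            rw [Finset.mem_filter]
            refine ⟨hk.1.1, ?_⟩
            rw [← hk.2]
            exact ix_bd hh (hs k hk.1.1).1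
      _ = h * m := by rw [Finset.sum_const, Nat.card_Ioc, Nat.sub_zero, smul_eq_mul, mul_comm]
  have hsum := Finset.card_filter_add_card_filter_not (s := s)
    (p := fun n => 4 * (Z * (h * ix h n)) ≤ h * m)
  have h5 : 4 * (h * m) ≤ 4 * (Z * #s) := Nat.mul_le_mul_left _ hZ
  have h6 : 4 * (Z * #s) = 4 * Z * #{n ∈ s | 4 * (Z * (h * ix h n)) ≤ h * m} +
      2 * (2 * Z * #{n ∈ s | ¬ 4 * (Z * (h * ix h n)) ≤ h * m}) := by
    rw [← hsum]; ring
  omega

end Pool.Agent.DHD
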