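import Pool.Agent.DHD.NT
import Pool.Agent.DHD.LS
import Pool.Agent.DHD.PARS
import Pool.Agent.DHD.VAR
import Pool.Agent.DHD.SPEC
import Pool.Agent.DHD.NulP
import Pool.Agent.DHD.NU
import Pool.Agent.DHD.STEPA
import Pool.Agent.DHD.W2
import Pool.Agent.DHD.STEPB
import Pool.Agent.DHD.CRT
import Pool.Agent.DHD.C1
import Pool.Agent.DHD.GADOK
import Pool.Agent.DHD.PAIR
import Pool.Agent.DHD.WIN
import Pool.Agent.DHD.PRIMES
import Pool.Agent.DHD.SM
import Pool.Agent.DHD.CTX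
import Pool.Agent.DHD.POK
import Pool.Agent.DHD.MARK
import Pool.Agent.DHD.GOOD
import Pool.Agent.DHD.COPY

set_option autoImplicit false

/-!
# The number theoretic part
-/

namespace Pool.Agent.DHD

/-- good parameters exist -/
theorem nt : T_NT :=
  tNT (tCTX tWIN tPRIMES tSM) tPOK (tMARK (tVAR tLS tPARS) tNUL)
    (tGOOD tPOK tSTEPA (tSTEPB tSPEC tNU) tW2 tC1 (tPAIR tCRT tGADOK))

end Pool.Agent.DHD
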