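import Pool.Agent.DHD.TSound

/-!
# CHARGE: the counting argument (job DHD-CHARGE, MP_a692c2_lc)
-/

namespace Pool.Agent.DHD

open Finset

namespace CHARGE

variable (s : Finset ℕ) (T : Finset (ℕ × ℕ)) (R : ℕ → ℕ × ℕ → Bool)

/-- number of gadgets whose prime divides `n` -/
def om (n : ℕ) : ℕ := #{t ∈ T | R n t = true}

lemma sum_d (j : ℕ) :
    ∑ t ∈ T, #{n ∈ s | R n t = true ∧ om T R n = j} = j * #{n ∈ s | om T R n = j} := by
  have h1 : ∀ t ∈ T, #{n ∈ s | R n t = true ∧ om T R n = j} =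
      ∑ n ∈ s, (if R n t = true ∧ om T R n = j then 1 else 0) := by
    intro t _
    rw [Finset.card_filter]
  rw [Finset.sum_congr rfl h1, Finset.sum_comm]
  have h2 : ∀ n ∈ s, ∑ t ∈ T, (if R n t = true ∧ om T R n = j then 1 else 0) =
      (if om T R n = j then j else 0) := by
    intro n _
    by_cases h : om T R n = j
    · simp only [h, and_true, if_true]
      rw [← Finset.card_filter]
      exact h
    · simp [h]
  rw [Finset.sum_congr rfl h2, ← Finset.sum_filter, Finset.sum_const, smul_eq_mul, mul_comm]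

lemma card_split (hom : ∀ n ∈ s, om T R n ≤ 2) :
    #s = #{n ∈ s | om T R n = 0} + #{n ∈ s | om T R n = 1} + #{n ∈ s | om T R n = 2} := by
  rw [Finset.card_filter, Finset.card_filter, Finset.card_filter, ← Finset.sum_add_distrib,
    ← Finset.sum_add_distrib, Finset.card_eq_sum_ones]
  refine Finset.sum_congr rfl fun n hn => ?_
  have := hom n hn
  interval_cases h : om T R n <;> simp

end CHARGE

open CHARGE in
theorem tCHARGE : T_CHARGE := by
  intro s T R K hom hd hs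
  change ∀ n ∈ s, om T R n ≤ 2 at hom
  change ∀ t ∈ T, 2 ≤ 2 * #{n ∈ s | R n t = true ∧ om T R n = 1} +
    #{n ∈ s | R n t = true ∧ om T R n = 2} at hd
  change #{n ∈ s | om T R n = 0 ∨ (om T R n = 1 ∧
    ∃ t ∈ T, R n t = true ∧ 3 ≤ 2 * #{n' ∈ s | R n' t = true ∧ om T R n' = 1} +
    #{n' ∈ s | R n' t = true ∧ om T R n' = 2})} ≤ 3 * K
  have e1 := sum_d s T R 1
  have e2 := sum_d s T R 2
  have e3 := card_split s T R hom
  set d1 : ℕ × ℕ → ℕ := fun t => #{n ∈ s | R n t = true ∧ om T R n = 1} with hd1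
  set d2 : ℕ × ℕ → ℕ := fun t => #{n ∈ s | R n t = true ∧ om T R n = 2} with hd2
  have hsub : {n ∈ s | om T R n = 0 ∨ (om T R n = 1 ∧
      ∃ t ∈ T, R n t = true ∧ 3 ≤ 2 * d1 t + d2 t)} ⊆
      {n ∈ s | om T R n = 0} ∪
        (T.filter fun t => 3 ≤ 2 * d1 t + d2 t).biUnion
          (fun t => {n ∈ s | R n t = true ∧ om T R n = 1}) := by
    intro n hn
    simp only [mem_filter, mem_union, mem_biUnion] at hn ⊢
    obtain ⟨hns, h | ⟨h, t, ht, hR, h3⟩⟩ := hn
    · exact Or.inl ⟨hns, h⟩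
    · exact Or.inr ⟨t, ⟨ht, h3⟩, hns, hR, h⟩
  have hcard := (card_le_card hsub).trans (card_union_le _ _)
  have hbi : #((T.filter fun t => 3 ≤ 2 * d1 t + d2 t).biUnion
      (fun t => {n ∈ s | R n t = true ∧ om T R n = 1})) ≤
      ∑ t ∈ T.filter (fun t => 3 ≤ 2 * d1 t + d2 t), d1 t := card_biUnion_le
  rw [Finset.sum_filter] at hbi
  have hpt : ∀ t ∈ T, 2 * (if 3 ≤ 2 * d1 t + d2 t then d1 t else 0) + 6 ≤
      3 * (2 * d1 t + d2 t) := by
    intro t ht
    have h2 : 2 ≤ 2 * d1 t + d2 t := hd t ht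
    split_ifs with h
    · omega
    · omega
  have hsum := Finset.sum_le_sum hpt
  rw [Finset.sum_add_distrib, ← Finset.mul_sum, ← Finset.mul_sum, Finset.sum_add_distrib,
    ← Finset.mul_sum, Finset.sum_const, smul_eq_mul] at hsum
  have e1' : ∑ t ∈ T, d1 t = 1 * #{n ∈ s | om T R n = 1} := e1
  have e2' : ∑ t ∈ T, d2 t = 2 * #{n ∈ s | om T R n = 2} := e2
  rw [e1', e2'] at hsum
  have := hcard.trans (Nat.add_le_add_left hbi _)
  refine this.trans ?_
  omega

end Pool.Agent.DHD
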