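import Pool.Agent.DHD.TSound

set_option autoImplicit false

/-!
# CLEAN: in a representation, some copy of the system is touched by proper terms only
-/

namespace Pool.Agent.DHD

open Finset
open Pool.Agent.H44 (IsRep minLargest)

namespace CLEAN

/-- if `1/(p j) - 1/(p v)` is integral at `p` then `j = v` modulo `p` -/
theorem mod_of_int (hI : T_INT) {p : ℕ} (hp : p.Prime) {j v : ℕ} (hj : ¬ p ∣ j) (hv : ¬ p ∣ v)
    (h : IntAt p ((1 : ℚ) / (p * j : ℕ) - 1 / (p * v : ℕ))) : (p : ℤ) ∣ (v : ℤ) - j := by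
  obtain ⟨_, _, _, _, _, _, h7⟩ := hI p hp
  have hjv : ¬ p ∣ j * v := by
    intro h0
    rcases (Nat.Prime.dvd_mul hp).1 h0 with h1 | h1
    · exact hj h1
    · exact hv h1
  rw [← h7 ((v : ℤ) - j) (j * v) hjv]
  have hp0 : (p : ℚ) ≠ 0 := by exact_mod_cast hp.ne_zero
  have hj0 : (j : ℚ) ≠ 0 := by
    intro h0
    apply hj
    have : j = 0 := by exact_mod_cast h0
    simp [this]
  have hv0 : (v : ℚ) ≠ 0 := by
    intro h0
    apply hv
    have : v = 0 := by exact_mod_cast h0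
    simp [this]
  have e : (((v : ℤ) - j : ℤ) : ℚ) / (p * (j * v : ℕ)) = (1 : ℚ) / (p * j : ℕ) - 1 / (p * v : ℕ) := by
    push_cast
    field_simp
  rw [e]
  exact h

theorem not_int (hI : T_INT) {p : ℕ} (hp : p.Prime) {v : ℕ} (hv : ¬ p ∣ v)
    (h : IntAt p (0 - 1 / (p * v : ℕ))) : False := by
  obtain ⟨_, _, _, _, _, _, h7⟩ := hI p hp
  have e : (0 : ℚ) - 1 / (p * v : ℕ) = ((-1 : ℤ) : ℚ) / (p * v) := by
    push_cast
    ring
  rw [e, h7 _ _ hv] at h
  have h1 : (p : ℤ) ∣ 1 := by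
    have := (dvd_neg (a := (p : ℤ)) (b := 1)).1 h
    exact this
  have h2 : p ∣ 1 := by exact_mod_cast h1
  exact hp.one_lt.ne' (Nat.dvd_one.1 h2)

theorem dvd_mul_of_primes {p q n : ℕ} (hp : p.Prime) (hq : q.Prime) (hne : p ≠ q) (h1 : p ∣ n)
    (h2 : q ∣ n) : p * q ∣ n :=
  Nat.Coprime.mul_dvd_of_dvd_of_dvd ((Nat.coprime_primes hp hq).2 hne) h1 h2

/-- at most five copies are touched by one term -/
theorem touch {π : Par} {S : BSys} {k : ℕ} {l : ℕ → ℕ → ℕ} (hOk : π.Ok)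
    (h_prime : ∀ i < k, ∀ x < S.n, (l i x).Prime ∧ π.Q1 < l i x ∧ l i x ≤ π.Q2)
    (h_inj : ∀ i < k, ∀ x < S.n, ∀ i' < k, ∀ x' < S.n, l i x = l i' x' → i = i' ∧ x = x')
    {n : ℕ} (hn0 : 0 < n) (hn : n ≤ π.N) [DecidablePred fun i => ∃ x < S.n, l i x ∣ n] :
    #{i ∈ range k | ∃ x < S.n, l i x ∣ n} ≤ 5 := by
  by_contra hcon
  push Not at hcon
  set J := {i ∈ range k | ∃ x < S.n, l i x ∣ n} with hJ
  have hx : ∀ i ∈ J, ∃ x < S.n, l i x ∣ n := fun i hi => (mem_filter.1 hi).2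
  choose! x hx1 hx2 using hx
  have hi : ∀ i ∈ J, i < k := fun i hi => mem_range.1 (mem_filter.1 hi).1
  have hdvd : ∏ i ∈ J, l i (x i) ∣ n := by
    apply Finset.prod_dvd_of_isRelPrime
    · intro i hi1 j hj1 hij
      have hi1' : i ∈ J := hi1
      have hj1' : j ∈ J := hj1
      apply Nat.coprime_iff_isRelPrime.1
      apply (Nat.coprime_primes (h_prime i (hi i hi1') _ (hx1 i hi1')).1
        (h_prime j (hi j hj1') _ (hx1 j hj1')).1).2
      intro h0
      exact hij (h_inj i (hi i hi1') _ (hx1 i hi1') j (hi j hj1') _ (hx1 j hj1') h0).1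
    · intro i hi1
      exact hx2 i hi1
  have h1 := Nat.le_of_dvd hn0 hdvd
  have h2 : π.Q1 ^ #J ≤ ∏ i ∈ J, l i (x i) := by
    apply Finset.pow_card_le_prod
    intro i hi1
    exact (h_prime i (hi i hi1) _ (hx1 i hi1)).2.1.le
  have h3 : π.Q1 ^ 6 ≤ π.Q1 ^ #J := by
    apply Nat.pow_le_pow_right
    · have := hOk.M_pos
      have := hOk.M_lt
      omega
    · omega
  have := hOk.six
  omega

theorem sum_int (hI : T_INT) {p : ℕ} (hp : p.Prime) {s : Finset ℕ} {q c : ℚ}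
    (hsum : ∑ n ∈ s, (1 : ℚ) / n = q) (h : IntAt p (q - c)) :
    IntAt p (∑ n ∈ s with p ∣ n, (1 : ℚ) / n - c) := by
  obtain ⟨_, h2, _, h4, _, h6, _⟩ := hI p hp
  have e : ∑ n ∈ s with p ∣ n, (1 : ℚ) / n - c = (q - c) - ∑ n ∈ s with ¬ p ∣ n, (1 : ℚ) / n := by
    rw [← hsum, ← Finset.sum_filter_add_sum_filter_not s (fun n => p ∣ n)]
    ring
  rw [e]
  apply h2 _ _ h
  apply h4
  intro n hn
  exact h6 n (mem_filter.1 hn).2

/-- the facts about one gadget -/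
structure Fact1 (π : Par) (l l' P u v : ℕ) : Prop where
  prime : P.Prime
  P1 : π.P1 < P
  P2 : P ≤ π.P2
  nv : ¬ P ∣ v
  md : (P : ℤ) ∣ (v : ℤ) - (l * l' * u : ℕ)
  c0 : π.E ≤ l * l' * u % P ∧ l * l' * u % P + π.E ≤ P

theorem fact1 {π : Par} {l l' : ℕ} {r r' : ℤ} {P u v : ℕ} (hOk : π.Ok) (hQ : π.Q1 < π.Q2)
    (h : Gad π l l' r r' P u v) : Fact1 π l l' P u v := by
  refine ⟨h.prime, h.P1, h.P2, ?_, ?_, h.c0⟩
  · intro h0
    have h1 := h.sv.2 P h.prime h0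
    have h2 := hOk.M_lt
    have h3 := hOk.Q_le
    have h4 := h.P1
    omega
  · have h1 := h.dvd
    have h2 := h.lt
    have h3 : (P : ℤ) ∣ ((v - l * l' * u : ℕ) : ℤ) := by exact_mod_cast h1
    rw [Nat.cast_sub h2.le] at h3
    exact h3

/-- a term divisible by two private primes cannot balance a gadget -/
theorem two_private {π : Par} {l l' P u v P' j' : ℕ} (hOk : π.Ok)
    (h : Fact1 π l l' P u v) (hP1 : π.P1 < P') (hP2 : P' ≤ π.P2)
    (hn : P * (P' * j') ≤ π.N)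
    (hmod : (P : ℤ) ∣ (v : ℤ) - (P' * j' : ℕ)) : False := by
  have hmarg := hOk.marg
  have hP := h.P1
  have hP' := h.P2
  obtain ⟨c1, c2⟩ := h.c0
  -- the residue
  have h1 : (P : ℤ) ∣ (l * l' * u % P : ℕ) - ((P' : ℤ) - P) * j' := by
    have e1 : ((l * l' * u : ℕ) : ℤ) = P * (l * l' * u / P : ℕ) + (l * l' * u % P : ℕ) := by
      exact_mod_cast (Nat.div_add_mod (l * l' * u) P).symm
    have h2 := h.md
    obtain ⟨a, ha⟩ := h2
    obtain ⟨b, hb⟩ := hmod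
    refine ⟨b - a - (l * l' * u / P : ℕ) + j', ?_⟩
    push_cast at ha hb e1 ⊢
    linear_combination hb - ha - e1
  -- the size
  have h3 : |((P' : ℤ) - P) * j'| < π.E := by
    have h4 : |((P' : ℤ) - P)| ≤ (π.P2 - π.P1 : ℕ) := by
      rw [Nat.cast_sub (by omega), abs_le]
      constructor <;> omega
    have hj : (j' : ℤ) * (π.P1 : ℤ) ^ 2 ≤ π.N := by
      have h5 : j' * π.P1 ^ 2 ≤ P * (P' * j') := by
        calc j' * π.P1 ^ 2 = π.P1 * (π.P1 * j') := by ring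
          _ ≤ P * (P' * j') := by gcongr
      exact_mod_cast h5.trans hn
    have hm : ((π.P2 - π.P1 : ℕ) : ℤ) * π.N < π.E * (π.P1 : ℤ) ^ 2 := by exact_mod_cast hmarg
    rw [abs_mul, abs_of_nonneg (by positivity : (0 : ℤ) ≤ (j' : ℤ))]
    by_contra hcon
    push Not at hcon
    have h6 : (π.E : ℤ) * (π.P1 : ℤ) ^ 2 ≤ ((π.P2 - π.P1 : ℕ) : ℤ) * π.N := by
      calc (π.E : ℤ) * (π.P1 : ℤ) ^ 2 ≤ |((P' : ℤ) - P)| * (j' : ℤ) * (π.P1 : ℤ) ^ 2 := by gcongr
        _ = |((P' : ℤ) - P)| * ((j' : ℤ) * (π.P1 : ℤ) ^ 2) := by ring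
        _ ≤ ((π.P2 - π.P1 : ℕ) : ℤ) * π.N := by gcongr
    omega
  rw [abs_lt] at h3
  obtain ⟨a, ha⟩ := h1
  have hPpos : (0 : ℤ) < P := by exact_mod_cast h.prime.pos
  have h5 : 0 < (P : ℤ) * a := by
    rw [← ha]
    have : (π.E : ℤ) ≤ (l * l' * u % P : ℕ) := by exact_mod_cast c1
    linarith [h3.1, h3.2]
  have h6 : (P : ℤ) * a < P := by
    rw [← ha]
    have : ((l * l' * u % P : ℕ) : ℤ) + π.E ≤ P := by exact_mod_cast c2
    linarith [h3.1, h3.2]
  have h7 : 0 < a := by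
    by_contra h8
    push Not at h8
    nlinarith
  nlinarith

theorem three_primes {a b c n : ℕ} (ha : a.Prime) (hb : b.Prime) (hc : c.Prime) (hab : a ≠ b)
    (hac : a ≠ c) (hbc : b ≠ c) (h1 : a ∣ n) (h2 : b ∣ n) (h3 : c ∣ n) : a * b * c ∣ n := by
  apply Nat.Coprime.mul_dvd_of_dvd_of_dvd _ (dvd_mul_of_primes ha hb hab h1 h2) h3
  exact Nat.Coprime.mul_left ((Nat.coprime_primes ha hc).2 hac) ((Nat.coprime_primes hb hc).2 hbc)

end CLEAN

open CLEAN in
theorem tCLEAN (hI : T_INT) (hC : T_CHARGE) (hL : T_LOC) : T_CLEAN := by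
  intro π S Z k l al P u v s hOk hS hV hBig hrep hle
  classical
  obtain ⟨hpos, hsum⟩ := hrep
  obtain ⟨hL1, _, hL3, _⟩ := hL π S Z k l al P u v hOk hS hV
  obtain ⟨hB1, hB2⟩ := hBig
  rcases Nat.eq_zero_or_pos S.n with hn0 | hn0
  · exact ⟨0, by omega, fun x hx => by omega⟩
  have hk0 : 0 < k := by omega
  have hQ : π.Q1 < π.Q2 := by
    have := hV.l_prime 0 hk0 0 hn0
    omega
  have hM := hOk.M_lt
  have hQle := hOk.Q_le
  have hcube := hOk.cube
  have hlink := hOk.link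
  set T : Finset (ℕ × ℕ) := range k ×ˢ range S.m with hT
  have hTm : ∀ t ∈ T, t.1 < k ∧ t.2 < S.m := fun t ht => by
    rw [hT, mem_product, mem_range, mem_range] at ht
    exact ht
  set R : ℕ → ℕ × ℕ → Bool := fun n t => decide (P t.1 t.2 ∣ n) with hR
  have hRi : ∀ n t, R n t = true ↔ P t.1 t.2 ∣ n := fun n t => by simp [hR]
  have F : ∀ t ∈ T, Fact1 π (l t.1 (S.x t.2)) (l t.1 (S.y t.2)) (P t.1 t.2) (u t.1 t.2)
      (v t.1 t.2) := fun t ht =>
    fact1 hOk hQ (hV.gad t.1 (hTm t ht).1 t.2 (hTm t ht).2)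
  have hPne : ∀ t ∈ T, ∀ t' ∈ T, t ≠ t' → P t.1 t.2 ≠ P t'.1 t'.2 := by
    intro t ht t' ht' hne h0
    apply hne
    obtain ⟨h1, h2⟩ := hV.P_inj t.1 (hTm t ht).1 t.2 (hTm t ht).2 t'.1 (hTm t' ht').1 t'.2
      (hTm t' ht').2 h0
    exact Prod.ext h1 h2
  -- at most two private primes
  have om2 : ∀ n ∈ s, #{t ∈ T | R n t = true} ≤ 2 := by
    intro n hn
    by_contra hcon
    push Not at hcon
    obtain ⟨a, ha, b, hb, c, hc, hab, hac, hbc⟩ := Finset.two_lt_card.1 hcon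
    obtain ⟨ha1, ha2⟩ := mem_filter.1 ha
    obtain ⟨hb1, hb2⟩ := mem_filter.1 hb
    obtain ⟨hc1, hc2⟩ := mem_filter.1 hc
    have hd := three_primes (F a ha1).prime (F b hb1).prime (F c hc1).prime (hPne a ha1 b hb1 hab)
      (hPne a ha1 c hc1 hac) (hPne b hb1 c hc1 hbc) ((hRi n a).1 ha2) ((hRi n b).1 hb2)
      ((hRi n c).1 hc2)
    have h1 := Nat.le_of_dvd (hpos n hn) hd
    have h2 := hle n hn
    have h3 : π.P1 ^ 3 ≤ P a.1 a.2 * P b.1 b.2 * P c.1 c.2 := by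
      calc π.P1 ^ 3 = π.P1 * π.P1 * π.P1 := by ring
        _ ≤ P a.1 a.2 * P b.1 b.2 * P c.1 c.2 :=
          Nat.mul_le_mul (Nat.mul_le_mul (F a ha1).P1.le (F b hb1).P1.le) (F c hc1).P1.le
    omega
  -- the local condition at a private prime
  have hint : ∀ t ∈ T, IntAt (P t.1 t.2) (∑ n ∈ s with P t.1 t.2 ∣ n, (1 : ℚ) / n -
      1 / (P t.1 t.2 * v t.1 t.2 : ℕ)) := by
    intro t ht
    exact sum_int hI (F t ht).prime hsum (hL1 t.1 (hTm t ht).1 t.2 (hTm t ht).2)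
  have hsingle : ∀ t ∈ T, ∀ n ∈ s, ({n' ∈ s | P t.1 t.2 ∣ n'} : Finset ℕ) = {n} → ∀ j,
      n = P t.1 t.2 * j → ¬ P t.1 t.2 ∣ j → (P t.1 t.2 : ℤ) ∣ (v t.1 t.2 : ℤ) - j := by
    intro t ht n hn hA j hj hnj
    have h := hint t ht
    rw [hA, sum_singleton, hj] at h
    exact mod_of_int hI (F t ht).prime hnj (F t ht).nv h
  -- counting at a private prime
  have homA : ∀ t ∈ T, ∀ n ∈ s, P t.1 t.2 ∣ n → 1 ≤ #{t' ∈ T | R n t' = true} := by
    intro t ht n hn hd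
    exact Finset.card_pos.2 ⟨t, mem_filter.2 ⟨ht, (hRi n t).2 hd⟩⟩
  have hAle : ∀ t ∈ T, #{n ∈ s | P t.1 t.2 ∣ n} ≤
      #{n ∈ s | R n t = true ∧ #{t' ∈ T | R n t' = true} = 1} +
      #{n ∈ s | R n t = true ∧ #{t' ∈ T | R n t' = true} = 2} := by
    intro t ht
    refine le_trans (Finset.card_le_card ?_) (Finset.card_union_le _ _)
    intro n hn
    obtain ⟨hn1, hn2⟩ := mem_filter.1 hn
    have h1 := homA t ht n hn1 hn2
    have h2 := om2 n hn1
    rw [mem_union, mem_filter, mem_filter]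
    have h3 := (hRi n t).2 hn2
    rcases Nat.lt_or_ge 1 (#{t' ∈ T | R n t' = true}) with h4 | h4
    · exact Or.inr ⟨hn1, h3, by omega⟩
    · exact Or.inl ⟨hn1, h3, by omega⟩
  have hpair : ∀ t ∈ T, 2 ≤ 2 * #{n ∈ s | R n t = true ∧ #{t' ∈ T | R n t' = true} = 1} +
      #{n ∈ s | R n t = true ∧ #{t' ∈ T | R n t' = true} = 2} := by
    intro t ht
    by_contra hcon
    push Not at hcon
    have h1 := hAle t ht
    have hd1 : #{n ∈ s | R n t = true ∧ #{t' ∈ T | R n t' = true} = 1} = 0 := by omega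
    have hcardA : #{n ∈ s | P t.1 t.2 ∣ n} ≤ 1 := by omega
    rcases Nat.eq_zero_or_pos (#{n ∈ s | P t.1 t.2 ∣ n}) with h0 | h0
    · have h := hint t ht
      rw [Finset.card_eq_zero] at h0
      rw [h0, sum_empty] at h
      exact not_int hI (F t ht).prime (F t ht).nv h
    · obtain ⟨n, hn⟩ := Finset.card_eq_one.1 (by omega : #{n ∈ s | P t.1 t.2 ∣ n} = 1)
      have hnA : n ∈ ({n ∈ s | P t.1 t.2 ∣ n} : Finset ℕ) := by rw [hn]; exact mem_singleton_self n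
      obtain ⟨hn1, hn2⟩ := mem_filter.1 hnA
      have h2 := om2 n hn1
      have h3 := homA t ht n hn1 hn2
      have h4 : #{t' ∈ T | R n t' = true} ≠ 1 := by
        intro h5
        rw [Finset.card_eq_zero] at hd1
        have : n ∈ ({n ∈ s | R n t = true ∧ #{t' ∈ T | R n t' = true} = 1} : Finset ℕ) :=
          mem_filter.2 ⟨hn1, (hRi n t).2 hn2, h5⟩
        rw [hd1] at this
        exact absurd this (notMem_empty n)
      obtain ⟨t', ht', hne⟩ := Finset.exists_mem_ne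
        (by omega : 1 < #{t' ∈ T | R n t' = true}) t
      obtain ⟨ht1, ht2⟩ := mem_filter.1 ht'
      have hpn := hPne t ht t' ht1 (Ne.symm hne)
      have hdv := dvd_mul_of_primes (F t ht).prime (F t' ht1).prime hpn hn2 ((hRi n t').1 ht2)
      obtain ⟨j, hj⟩ := hdv
      have hnj : n = P t.1 t.2 * (P t'.1 t'.2 * j) := by rw [hj]; ring
      have hnd : ¬ P t.1 t.2 ∣ P t'.1 t'.2 * j := by
        intro h5
        rcases (Nat.Prime.dvd_mul (F t ht).prime).1 h5 with h6 | h6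
        · exact hpn ((Nat.prime_dvd_prime_iff_eq (F t ht).prime (F t' ht1).prime).1 h6)
        · obtain ⟨j', hj'⟩ := h6
          have h7 : P t.1 t.2 * P t'.1 t'.2 * P t.1 t.2 ∣ n := ⟨j', by rw [hj, hj']; ring⟩
          have h8 := Nat.le_of_dvd (hpos n hn1) h7
          have h9 := hle n hn1
          have h10 : π.P1 ^ 3 ≤ P t.1 t.2 * P t'.1 t'.2 * P t.1 t.2 := by
            calc π.P1 ^ 3 = π.P1 * π.P1 * π.P1 := by ring
              _ ≤ _ := Nat.mul_le_mul (Nat.mul_le_mul (F t ht).P1.le (F t' ht1).P1.le)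
                (F t ht).P1.le
          omega
      have hmod := hsingle t ht n hn1 hn _ hnj hnd
      have hle' := hle n hn1
      rw [hnj] at hle'
      exact two_private hOk (F t ht) (F t' ht1).P1 (F t' ht1).P2 hle' hmod
  -- the number of terms
  have hNpos : 0 < π.N := by
    have := hOk.MM
    have := hOk.M_pos
    nlinarith
  have hcard : #s ≤ #T + (k * S.m / (π.D - 1) + π.K1 + 5) := by
    have h1 : (#s : ℚ) ≤ target π S k l al P v * π.N := by
      rw [← hsum, Finset.sum_mul]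
      calc (#s : ℚ) = ∑ n ∈ s, (1 : ℚ) := by simp
        _ ≤ ∑ n ∈ s, (1 : ℚ) / n * π.N := by
          apply Finset.sum_le_sum
          intro n hn
          have h2 : (0 : ℚ) < n := by exact_mod_cast hpos n hn
          have h3 : (n : ℚ) ≤ π.N := by exact_mod_cast hle n hn
          rw [div_mul_eq_mul_div, le_div_iff₀ h2]
          linarith
    have h2 : (#s : ℚ) < ((π.T (k * S.m) + 4 : ℕ) : ℚ) := by
      push_cast
      exact lt_of_le_of_lt h1 hL3
    have h3 : #s < π.T (k * S.m) + 4 := by exact_mod_cast h2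
    have h4 : #T = k * S.m := by rw [hT, card_product, card_range, card_range]
    rw [h4]
    unfold Par.T at h3
    omega
  have hbad := hC s T R _ om2 hpair hcard
  set B := {n ∈ s | #{t' ∈ T | R n t' = true} = 0 ∨ (#{t' ∈ T | R n t' = true} = 1 ∧
    ∃ t ∈ T, R n t = true ∧ 3 ≤ 2 * #{n' ∈ s | R n' t = true ∧ #{t' ∈ T | R n' t' = true} = 1} +
    #{n' ∈ s | R n' t = true ∧ #{t' ∈ T | R n' t' = true} = 2})} with hBdef
  have hBs : ∀ n ∈ B, n ∈ s := fun n hn => (mem_filter.1 hn).1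
  have hW : #(B.biUnion fun n => {i ∈ range k | ∃ x < S.n, l i x ∣ n}) ≤ #B * 5 :=
    Finset.card_biUnion_le_card_mul _ _ _ fun n hn =>
      touch hOk hV.l_prime hV.l_inj (hpos n (hBs n hn)) (hle n (hBs n hn))
  obtain ⟨i, hi1, hi2⟩ := Finset.exists_mem_notMem_of_card_lt_card
    (s := B.biUnion fun n => {i ∈ range k | ∃ x < S.n, l i x ∣ n}) (t := range k)
    (by rw [card_range]; omega)
  have hik := mem_range.1 hi1
  refine ⟨i, hik, fun x hx n hn hd => ?_⟩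
  have hnB : n ∉ B := by
    intro h0
    exact hi2 (mem_biUnion.2 ⟨n, h0, mem_filter.2 ⟨hi1, x, hx, hd⟩⟩)
  obtain ⟨lp, lq1, lq2⟩ := hV.l_prime i hik x hx
  have hlP : ∀ t ∈ T, l i x ≠ P t.1 t.2 := by
    intro t ht h0
    have := (F t ht).P1
    omega
  have hom := om2 n hn
  rcases Nat.lt_or_ge 1 (#{t' ∈ T | R n t' = true}) with h4 | h4
  · -- two private primes: too large
    exfalso
    obtain ⟨a, ha, b, hb, hab⟩ := Finset.one_lt_card.1 h4
    obtain ⟨ha1, ha2⟩ := mem_filter.1 ha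
    obtain ⟨hb1, hb2⟩ := mem_filter.1 hb
    have hdd := three_primes lp (F a ha1).prime (F b hb1).prime (hlP a ha1) (hlP b hb1)
      (hPne a ha1 b hb1 hab) hd ((hRi n a).1 ha2) ((hRi n b).1 hb2)
    have h5 := Nat.le_of_dvd (hpos n hn) hdd
    have h6 := hle n hn
    have h7 : π.Q1 * π.P1 ^ 2 ≤ l i x * P a.1 a.2 * P b.1 b.2 := by
      calc π.Q1 * π.P1 ^ 2 = π.Q1 * π.P1 * π.P1 := by ring
        _ ≤ _ := Nat.mul_le_mul (Nat.mul_le_mul lq1.le (F a ha1).P1.le) (F b hb1).P1.le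
    omega
  · have h5 : #{t' ∈ T | R n t' = true} ≠ 0 := by
      intro h0
      exact hnB (mem_filter.2 ⟨hn, Or.inl h0⟩)
    have h6 : #{t' ∈ T | R n t' = true} = 1 := by omega
    obtain ⟨t, ht⟩ := Finset.card_pos.1 (by omega : 0 < #{t' ∈ T | R n t' = true})
    obtain ⟨ht1, ht2⟩ := mem_filter.1 ht
    have hPn := (hRi n t).1 ht2
    have h7 : ¬ 3 ≤ 2 * #{n' ∈ s | R n' t = true ∧ #{t' ∈ T | R n' t' = true} = 1} +
        #{n' ∈ s | R n' t = true ∧ #{t' ∈ T | R n' t' = true} = 2} := by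
      intro h8
      exact hnB (mem_filter.2 ⟨hn, Or.inr ⟨h6, t, ht1, ht2, h8⟩⟩)
    have h8 : 0 < #{n' ∈ s | R n' t = true ∧ #{t' ∈ T | R n' t' = true} = 1} :=
      Finset.card_pos.2 ⟨n, mem_filter.2 ⟨hn, ht2, h6⟩⟩
    have h9 := hAle t ht1
    have hnA : n ∈ ({n' ∈ s | P t.1 t.2 ∣ n'} : Finset ℕ) := mem_filter.2 ⟨hn, hPn⟩
    have hA1 : ({n' ∈ s | P t.1 t.2 ∣ n'} : Finset ℕ) = {n} := by
      have h10 : #{n' ∈ s | P t.1 t.2 ∣ n'} ≤ 1 := by omega
      have h11 := Finset.card_le_one.1 h10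
      ext n'
      rw [mem_singleton]
      constructor
      · intro hn'
        exact h11 n' hn' n hnA
      · rintro rfl
        exact hnA
    obtain ⟨j, hj⟩ := hPn
    have hldj : l i x ∣ j := by
      rw [hj] at hd
      rcases (Nat.Prime.dvd_mul lp).1 hd with h10 | h10
      · exact absurd ((Nat.prime_dvd_prime_iff_eq lp (F t ht1).prime).1 h10) (hlP t ht1)
      · exact h10
    have hnd : ¬ P t.1 t.2 ∣ j := by
      intro h10
      obtain ⟨c, hc⟩ := dvd_mul_of_primes lp (F t ht1).prime (hlP t ht1) hldj h10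
      have h11 : l i x * P t.1 t.2 * P t.1 t.2 ∣ n := ⟨c, by rw [hj, hc]; ring⟩
      have h12 := Nat.le_of_dvd (hpos n hn) h11
      have h13 := hle n hn
      have h14 : π.Q1 * π.P1 ^ 2 ≤ l i x * P t.1 t.2 * P t.1 t.2 := by
        calc π.Q1 * π.P1 ^ 2 = π.Q1 * π.P1 * π.P1 := by ring
          _ ≤ _ := Nat.mul_le_mul (Nat.mul_le_mul lq1.le (F t ht1).P1.le) (F t ht1).P1.le
      omega
    have hmod := hsingle t ht1 n hn hA1 j hj hnd
    have hmod' : j % P t.1 t.2 = v t.1 t.2 % P t.1 t.2 := by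
      have := (Nat.modEq_iff_dvd (n := P t.1 t.2) (a := j) (b := v t.1 t.2)).2 hmod
      exact this
    have hg := hV.gad t.1 (hTm t ht1).1 t.2 (hTm t ht1).2
    have hle' := hle n hn
    rw [hj] at hle'
    have hfin := hg.c1 j hle' hmod' (l i x) lp lq1 lq2 hldj
    exact ⟨t.1, (hTm t ht1).1, t.2, (hTm t ht1).2, by rw [hj, hfin]⟩

end Pool.Agent.DHD
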