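import Pool.Agent.DHD.TSound

set_option autoImplicit false

/-!
# CLEAR: greedy clearing of the harmless primes
-/

namespace Pool.Agent.DHD

open Finset

namespace CLEAR

/-- the largest exponent allowed at the odd prime `q` -/
def ex (N q : ℕ) : ℕ := Nat.log q N - 1

/-- the odd primes up to `r` -/
def op (r : ℕ) : Finset ℕ := (range (r + 1)).filter (fun q => q.Prime ∧ q ≠ 2)

/-- the product of the allowed powers of the odd primes up to `r` -/
def F (N r : ℕ) : ℕ := ∏ q ∈ op r, q ^ ex N q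

/-- the common denominator of the stage `r` -/
def D (N r : ℕ) : ℕ := 2 ^ Nat.log 2 N * F N r

theorem F_pos (N r : ℕ) : 0 < F N r := by
  unfold F
  apply Finset.prod_pos
  intro q hq
  rw [op, mem_filter] at hq
  exact pow_pos hq.2.1.pos _

theorem D_pos (N r : ℕ) : 0 < D N r := Nat.mul_pos (pow_pos (by norm_num) _) (F_pos N r)

theorem pow_dvd_F {N r q k : ℕ} (hq : q.Prime) (h2 : q ≠ 2) (hr : q ≤ r) (hk : k ≤ ex N q) :
    q ^ k ∣ F N r := by
  have h1 : q ^ ex N q ∣ F N r := by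
    unfold F
    apply Finset.dvd_prod_of_mem (fun q => q ^ ex N q)
    rw [op, mem_filter, mem_range]
    exact ⟨by omega, hq, h2⟩
  exact (pow_dvd_pow q hk).trans h1

theorem le_ex {N q k : ℕ} (hq : q.Prime) (h : q ^ (k + 1) ≤ N) : k ≤ ex N q := by
  have h1 : k + 1 ≤ Nat.log q N := Nat.le_log_of_pow_le hq.one_lt h
  unfold ex
  omega

theorem pow_ex {N q j : ℕ} (hq : q.Prime) (hN : q ≤ N) (hj : j ≤ ex N q) : q ^ (j + 1) ≤ N := by
  have h0 : N ≠ 0 := by
    have := hq.pos
    omega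
  have h1 : 1 ≤ Nat.log q N := Nat.le_log_of_pow_le hq.one_lt (by simpa using hN)
  have h2 : j + 1 ≤ Nat.log q N := by
    unfold ex at hj
    omega
  exact (Nat.pow_le_pow_right hq.pos h2).trans (Nat.pow_log_le_self q h0)

/-- divisibility of the common denominator by all small numbers -/
theorem dvd_D {N r x : ℕ} (h : ∀ q k : ℕ, q.Prime → q ≠ 2 → 0 < k → q ^ k ∣ x →
    q ≤ r ∧ q ^ (k + 1) ≤ N) (h2 : ∀ k, 2 ^ k ∣ x → 2 ^ k ≤ N) : x ∣ D N r := by
  rw [Nat.dvd_iff_prime_pow_dvd_dvd]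
  intro q k hq hk
  rcases Nat.eq_zero_or_pos k with h0 | hpos
  · simp [h0]
  by_cases hq2 : q = 2
  · subst hq2
    have h3 := h2 k hk
    have h4 : k ≤ Nat.log 2 N := Nat.le_log_of_pow_le (by norm_num) h3
    exact (pow_dvd_pow 2 h4).trans (Dvd.intro _ rfl)
  · obtain ⟨h3, h4⟩ := h q k hq hq2 hpos hk
    exact (pow_dvd_F hq hq2 h3 (le_ex hq h4)).trans (Dvd.intro_left _ rfl)

theorem D_succ_not {N r : ℕ} (h : ¬ ((r + 1).Prime ∧ r + 1 ≠ 2)) : D N (r + 1) = D N r := by
  unfold D F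
  have : op (r + 1) = op r := by
    ext q
    simp only [op, mem_filter, mem_range]
    constructor
    · rintro ⟨h1, h2⟩
      refine ⟨?_, h2⟩
      rcases Nat.lt_or_ge q (r + 1) with h3 | h3
      · exact h3
      · have : q = r + 1 := by omega
        exact absurd (this ▸ h2) h
    · rintro ⟨h1, h2⟩
      exact ⟨by omega, h2⟩
  rw [this]

theorem D_succ {N r : ℕ} (h : (r + 1).Prime ∧ r + 1 ≠ 2) :
    D N (r + 1) = D N r * (r + 1) ^ ex N (r + 1) := by
  unfold D F
  have : op (r + 1) = insert (r + 1) (op r) := by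
    ext q
    simp only [op, mem_filter, mem_range, mem_insert]
    constructor
    · rintro ⟨h1, h2⟩
      rcases Nat.lt_or_ge q (r + 1) with h3 | h3
      · exact Or.inr ⟨h3, h2⟩
      · left
        omega
    · rintro (h1 | ⟨h1, h2⟩)
      · rw [h1]
        exact ⟨by omega, h⟩
      · exact ⟨by omega, h2⟩
  rw [this, Finset.prod_insert, mul_comm ((r + 1) ^ _), mul_assoc]
  simp [op]

theorem not_dvd_D {N r p : ℕ} (hp : p.Prime) (h2 : p ≠ 2) (hr : r < p) : ¬ p ∣ D N r := by
  unfold D F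
  intro h
  rcases hp.dvd_mul.1 h with h1 | h1
  · exact h2 ((Nat.prime_dvd_prime_iff_eq hp Nat.prime_two).1 (hp.dvd_of_dvd_pow h1))
  · obtain ⟨q, hq, h3⟩ := (hp.prime.dvd_finsetProd_iff _).1 h1
    rw [op, mem_filter, mem_range] at hq
    have h4 := (Nat.prime_dvd_prime_iff_eq hp hq.2.1).1 (hp.dvd_of_dvd_pow h3)
    omega

theorem smooth_of_dvd {N r n : ℕ} (hr : 2 ≤ r) (h : n ∣ D N r) : Smooth r n := by
  refine ⟨Nat.pos_of_dvd_of_pos h (D_pos N r), ?_⟩
  intro p hp hpn
  by_contra hlt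
  push Not at hlt
  exact not_dvd_D hp (by omega) hlt (hpn.trans h)

/-- binary expansion -/
theorem base (a : ℕ) : ∀ z : ℕ, z < 2 ^ a → ∃ s : Finset ℕ,
    (∀ n ∈ s, n ∣ 2 ^ a) ∧ ∑ n ∈ s, (1 : ℚ) / n = (z : ℚ) / (2 ^ a : ℕ) := by
  intro z hz
  have hb : ∑ i ∈ z.bitIndices.toFinset, 2 ^ i = z := by
    rw [List.sum_toFinset _ (Nat.bitIndices_sorted.nodup)]
    exact Nat.sum_map_two_pow_bitIndices z
  have hlt : ∀ i ∈ z.bitIndices.toFinset, i < a := by
    intro i hi
    have h1 : 2 ^ i ≤ z := by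
      rw [← hb]
      exact Finset.single_le_sum (f := fun i => 2 ^ i) (fun _ _ => Nat.zero_le _) hi
    exact (Nat.pow_lt_pow_iff_right (by norm_num : 1 < 2)).1 (lt_of_le_of_lt h1 hz)
  refine ⟨z.bitIndices.toFinset.image (fun i => 2 ^ (a - i)), ?_, ?_⟩
  · intro n hn
    rw [mem_image] at hn
    obtain ⟨i, _, rfl⟩ := hn
    exact pow_dvd_pow 2 (Nat.sub_le _ _)
  · rw [Finset.sum_image]
    · have h1 : ∀ i ∈ z.bitIndices.toFinset, (1 : ℚ) / ((2 ^ (a - i) : ℕ) : ℚ)
          = (2 ^ i : ℚ) / ((2 ^ a : ℕ) : ℚ) := by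
        intro i hi
        have h2 := hlt i hi
        have h3 : (2 : ℚ) ^ a = 2 ^ (a - i) * 2 ^ i := by
          rw [← pow_add]
          congr 1
          omega
        push_cast
        rw [h3]
        field_simp
      rw [Finset.sum_congr rfl h1, ← Finset.sum_div]
      congr 1
      exact_mod_cast hb
    · intro i hi j hj hij
      have h1 := hlt i hi
      have h2 := hlt j hj
      have h3 := Nat.pow_right_injective (le_refl 2) hij
      omega

/-- one step of the clearing -/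
theorem step (hRES : T_RES) {M N p j : ℕ} (hp : p.Prime) (h3 : 3 ≤ p) (hpM : p ≤ M)
    (hM : M * M ≤ N) (hj : p ^ (j + 2) ≤ N) (z : ℤ) (R : ℚ)
    (hR : R = z / ((D N (p - 1) * p ^ (j + 1) : ℕ) : ℚ)) :
    ∃ s : Finset ℕ, (∀ n ∈ s, n ∣ D N (p - 1) * p ^ (j + 1) ∧ n ≤ N ∧
      ¬ n ∣ D N (p - 1) * p ^ j) ∧ (∑ n ∈ s, (1 : ℚ) / n ≤ 32 / N) ∧
      ∃ z' : ℤ, R - ∑ n ∈ s, (1 : ℚ) / n = z' / ((D N (p - 1) * p ^ j : ℕ) : ℚ) := by
  have : Fact p.Prime := ⟨hp⟩
  set d : ℕ := D N (p - 1) with hd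
  have hdpos : 0 < d := D_pos _ _
  have hpd : ¬ p ∣ d := not_dvd_D hp (by omega) (by omega)
  have hN0 : N ≠ 0 := by
    have : 0 < p ^ (j + 2) := pow_pos hp.pos _
    omega
  have hdp : (d : ZMod p) ≠ 0 := by
    intro h
    exact hpd ((ZMod.natCast_eq_zero_iff d p).1 h)
  set i : ℕ := Nat.log 2 (N / p ^ (j + 2)) with hi
  have hq0 : N / p ^ (j + 2) ≠ 0 := (Nat.div_pos hj (pow_pos hp.pos _)).ne'
  have hi1 : p ^ (j + 2) * 2 ^ i ≤ N := by
    have h1 : 2 ^ i ≤ N / p ^ (j + 2) := Nat.pow_log_le_self 2 hq0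
    calc p ^ (j + 2) * 2 ^ i ≤ p ^ (j + 2) * (N / p ^ (j + 2)) := Nat.mul_le_mul_left _ h1
      _ ≤ N := Nat.mul_div_le _ _
  have hi2 : N < p ^ (j + 2) * 2 ^ (i + 1) := by
    have h1 : N / p ^ (j + 2) < 2 ^ (i + 1) := Nat.lt_pow_succ_log_self (by norm_num) _
    have h2 := (Nat.div_lt_iff_lt_mul (pow_pos hp.pos _)).1 h1
    rwa [mul_comm] at h2
  obtain ⟨G, hG1, hG2, hG3⟩ := hRES p h3 ((z : ZMod p) * 2 ^ i * (d : ZMod p)⁻¹)
  -- the terms
  have hgpos : ∀ g ∈ G, 0 < g := by
    intro g hg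
    have := (hG1 g hg).1
    omega
  have hdvd : ∀ g ∈ G, g * 2 ^ i ∣ d := by
    intro g hg
    obtain ⟨h1, h2⟩ := hG1 g hg
    have hg0 := hgpos g hg
    have hle : g * 2 ^ i ≤ N := by
      have : g ≤ p ^ (j + 2) := by
        calc g ≤ p := h2.le
          _ = p ^ 1 := (pow_one p).symm
          _ ≤ p ^ (j + 2) := Nat.pow_le_pow_right hp.pos (by omega)
      exact (Nat.mul_le_mul_right _ this).trans hi1
    rw [hd]
    apply dvd_D
    · intro q k hq hq2 hk hqk
      have hco : Nat.Coprime (q ^ k) (2 ^ i) :=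
        Nat.Coprime.pow _ _ ((Nat.coprime_primes hq Nat.prime_two).2 hq2)
      have h4 : q ^ k ∣ g := hco.dvd_of_dvd_mul_right hqk
      have h5 : q ^ k ≤ g := Nat.le_of_dvd hg0 h4
      have h6 : q ≤ q ^ k := Nat.le_self_pow hk.ne' q
      refine ⟨by omega, ?_⟩
      calc q ^ (k + 1) = q ^ k * q := pow_succ q k
        _ ≤ M * M := Nat.mul_le_mul (by omega) (by omega)
        _ ≤ N := hM
    · intro k hk
      exact (Nat.le_of_dvd (Nat.mul_pos hg0 (pow_pos (by norm_num) _)) hk).trans hle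
  set f : ℕ → ℕ := fun g => p ^ (j + 1) * (g * 2 ^ i) with hf
  have hinj : Set.InjOn f (G : Set ℕ) := by
    intro a _ b _ hab
    simp only [hf] at hab
    have h1 := Nat.eq_of_mul_eq_mul_left (pow_pos hp.pos _) hab
    exact Nat.eq_of_mul_eq_mul_right (pow_pos (by norm_num) _) h1
  have hfpos : ∀ g ∈ G, 0 < f g := fun g hg =>
    Nat.mul_pos (pow_pos hp.pos _) (Nat.mul_pos (hgpos g hg) (pow_pos (by norm_num) _))
  have hsum : ∑ n ∈ G.image f, (1 : ℚ) / n = ∑ g ∈ G, (1 : ℚ) / (f g : ℕ) :=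
    Finset.sum_image hinj
  refine ⟨G.image f, ?_, ?_, ?_⟩
  · intro n hn
    rw [mem_image] at hn
    obtain ⟨g, hg, rfl⟩ := hn
    refine ⟨?_, ?_, ?_⟩
    · simp only [hf]
      rw [mul_comm]
      exact Nat.mul_dvd_mul (hdvd g hg) dvd_rfl
    · simp only [hf]
      calc p ^ (j + 1) * (g * 2 ^ i) ≤ p ^ (j + 1) * (p * 2 ^ i) :=
            Nat.mul_le_mul_left _ (Nat.mul_le_mul_right _ (hG1 g hg).2.le)
        _ = p ^ (j + 2) * 2 ^ i := by ring
        _ ≤ N := hi1
    · intro h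
      have h1 : p ^ (j + 1) ∣ d * p ^ j := (Dvd.intro _ rfl).trans h
      rw [pow_succ, mul_comm d] at h1
      exact hpd (Nat.dvd_of_mul_dvd_mul_left (pow_pos hp.pos j) h1)
  · rw [hsum]
    have hNq : (0 : ℚ) < N := by
      exact_mod_cast Nat.pos_of_ne_zero hN0
    have h1 : ∀ g ∈ G, (1 : ℚ) / (f g : ℕ) ≤ 16 / N := by
      intro g hg
      have hfp : (0 : ℚ) < (f g : ℕ) := by
        exact_mod_cast hfpos g hg
      have h2 : N ≤ 16 * f g := by
        have h4 : p ^ (j + 2) * 2 ^ (i + 1) ≤ 16 * f g := by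
          simp only [hf]
          calc p ^ (j + 2) * 2 ^ (i + 1) = p ^ (j + 1) * (p * 2 ^ i) * 2 := by ring
            _ ≤ p ^ (j + 1) * (8 * g * 2 ^ i) * 2 := by
                apply Nat.mul_le_mul_right
                apply Nat.mul_le_mul_left
                exact Nat.mul_le_mul_right _ (hG1 g hg).1
            _ = 16 * (p ^ (j + 1) * (g * 2 ^ i)) := by ring
        omega
      rw [div_le_div_iff₀ hfp hNq]
      have h5 : (N : ℚ) ≤ 16 * (f g : ℕ) := by
        exact_mod_cast h2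
      linarith
    calc ∑ g ∈ G, (1 : ℚ) / (f g : ℕ) ≤ ∑ g ∈ G, (16 : ℚ) / N := Finset.sum_le_sum h1
      _ = G.card * (16 / N) := by rw [Finset.sum_const, nsmul_eq_mul]
      _ ≤ 2 * (16 / N) := by
          apply mul_le_mul_of_nonneg_right _ (by positivity)
          exact_mod_cast hG2
      _ = 32 / N := by ring
  · rw [hsum]
    -- the integer `z - ∑ d / (g 2^i)` is divisible by `p`
    have hdq : (d : ℚ) ≠ 0 := by
      exact_mod_cast hdpos.ne'
    have hpq : (p : ℚ) ≠ 0 := by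
      exact_mod_cast hp.pos.ne'
    set w : ℤ := z - ∑ g ∈ G, ((d / (g * 2 ^ i) : ℕ) : ℤ) with hw
    have hpw : (p : ℤ) ∣ w := by
      rw [← ZMod.intCast_zmod_eq_zero_iff_dvd, hw, Int.cast_sub, Int.cast_sum]
      simp only [Int.cast_natCast]
      have h2p : ((2 : ZMod p)) ^ i ≠ 0 := by
        apply pow_ne_zero
        intro h
        have h5 : ((2 : ℕ) : ZMod p) = 0 := by exact_mod_cast h
        have h6 := Nat.le_of_dvd (by norm_num) ((ZMod.natCast_eq_zero_iff 2 p).1 h5)
        omega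
      have h4 : ∀ g ∈ G, ((d / (g * 2 ^ i) : ℕ) : ZMod p) =
          (d : ZMod p) * ((2 : ZMod p) ^ i)⁻¹ * ((g : ZMod p))⁻¹ := by
        intro g hg
        have hg0 : (g : ZMod p) ≠ 0 := by
          intro h
          have h5 := Nat.le_of_dvd (hgpos g hg) ((ZMod.natCast_eq_zero_iff g p).1 h)
          have := (hG1 g hg).2
          omega
        have h5 : (d / (g * 2 ^ i)) * (g * 2 ^ i) = d := Nat.div_mul_cancel (hdvd g hg)
        have h6 : ((d / (g * 2 ^ i) : ℕ) : ZMod p) * ((g : ZMod p) * 2 ^ i) = d := by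
          exact_mod_cast congrArg (Nat.cast : ℕ → ZMod p) h5
        field_simp
        rw [← h6]
        ring
      rw [Finset.sum_congr rfl h4, ← Finset.mul_sum, hG3]
      field_simp
      ring
    obtain ⟨z', hz'⟩ := hpw
    refine ⟨z', ?_⟩
    have h1 : ∀ g ∈ G, (1 : ℚ) / (f g : ℕ) =
        ((d / (g * 2 ^ i) : ℕ) : ℚ) / ((d * p ^ (j + 1) : ℕ) : ℚ) := by
      intro g hg
      have hg0 : (g : ℚ) ≠ 0 := by
        exact_mod_cast (hgpos g hg).ne'
      have h5 : (d / (g * 2 ^ i)) * (g * 2 ^ i) = d := Nat.div_mul_cancel (hdvd g hg)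
      have h6 : ((d / (g * 2 ^ i) : ℕ) : ℚ) * ((g : ℚ) * 2 ^ i) = d := by
        exact_mod_cast congrArg (Nat.cast : ℕ → ℚ) h5
      simp only [hf]
      push_cast
      rw [div_eq_div_iff (by positivity) (by positivity)]
      rw [← h6]
      ring
    rw [Finset.sum_congr rfl h1, ← Finset.sum_div, hR, ← sub_div]
    have h7 : ((z : ℚ) - ∑ g ∈ G, ((d / (g * 2 ^ i) : ℕ) : ℚ)) = p * z' := by
      have := congrArg (Int.cast : ℤ → ℚ) hz'
      rw [hw, Int.cast_sub, Int.cast_sum, Int.cast_mul] at this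
      simp only [Int.cast_natCast] at this
      exact this
    rw [h7]
    push_cast
    rw [pow_succ]
    field_simp

theorem main (hRES : T_RES) {M N : ℕ} (hM : M * M ≤ N) : ∀ r, r ≤ M → ∀ (z : ℤ) (R : ℚ),
    R = z / ((D N r : ℕ) : ℚ) → (32 * (r * (Nat.log 2 N + 1)) : ℚ) / N ≤ R → R < 1 →
    ∃ s : Finset ℕ, (∀ n ∈ s, n ∣ D N r ∧ n ≤ N) ∧ ∑ n ∈ s, (1 : ℚ) / n = R := by
  intro r
  induction r with
  | zero =>
    intro _ z R hR h0 h1
    have hF : D N 0 = 2 ^ Nat.log 2 N := by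
      unfold D F
      have : op 0 = ∅ := by
        ext q
        simp only [op, mem_filter, mem_range]
        constructor
        · rintro ⟨h1, h2⟩
          have h3 := h2.1.two_le
          omega
        · intro h
          simp at h
      rw [this]
      simp
    rw [hF] at hR ⊢
    have hpos : (0 : ℚ) < ((2 ^ Nat.log 2 N : ℕ) : ℚ) := by positivity
    have hz0 : 0 ≤ z := by
      have h2 : (0 : ℚ) ≤ R := by simpa using h0
      rw [hR] at h2
      by_contra hlt
      push Not at hlt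
      have : (z : ℚ) < 0 := by exact_mod_cast hlt
      have := div_neg_of_neg_of_pos this hpos
      linarith
    have hz1 : z < ((2 ^ Nat.log 2 N : ℕ) : ℤ) := by
      rw [hR, div_lt_one hpos] at h1
      exact_mod_cast h1
    obtain ⟨s, hs1, hs2⟩ := base (Nat.log 2 N) z.toNat (by omega)
    by_cases hN : N = 0
    · subst hN
      refine ⟨∅, by simp, ?_⟩
      have : z = 0 := by
        simp at hz1
        omega
      rw [hR, this]
      simp
    refine ⟨s, fun n hn => ⟨hs1 n hn, ?_⟩, ?_⟩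
    · exact (Nat.le_of_dvd (by positivity) (hs1 n hn)).trans (Nat.pow_log_le_self 2 hN)
    · rw [hs2, hR]
      congr 1
      have : ((z.toNat : ℤ) : ℚ) = z := by
        rw [Int.toNat_of_nonneg hz0]
      exact_mod_cast this
  | succ r ih =>
    intro hr z R hR h0 h1
    by_cases hp : (r + 1).Prime ∧ r + 1 ≠ 2
    · -- the prime `p = r + 1`
      have h3 : 3 ≤ r + 1 := by
        have := hp.1.two_le
        have := hp.2
        omega
      have hN0 : N ≠ 0 := by
        have : 0 < M * M := Nat.mul_pos (by omega) (by omega)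
        omega
      have hNq : (0 : ℚ) < N := by exact_mod_cast Nat.pos_of_ne_zero hN0
      have hpN : r + 1 ≤ N := by
        have : M ≤ M * M := Nat.le_mul_self M
        omega
      have inner : ∀ j, j ≤ ex N (r + 1) → ∀ (z : ℤ) (R : ℚ),
          R = z / ((D N r * (r + 1) ^ j : ℕ) : ℚ) →
          (32 * (r * (Nat.log 2 N + 1) + j) : ℚ) / N ≤ R → R < 1 →
          ∃ s : Finset ℕ, (∀ n ∈ s, n ∣ D N r * (r + 1) ^ j ∧ n ≤ N) ∧
            ∑ n ∈ s, (1 : ℚ) / n = R := by
        intro j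
        induction j with
        | zero =>
          intro _ z R hR h0 h1
          obtain ⟨s, hs⟩ := ih (by omega) z R (by simpa using hR) (by simpa using h0) h1
          exact ⟨s, by simpa using hs⟩
        | succ j ihj =>
          intro hj z R hR h0 h1
          have hpow : (r + 1) ^ (j + 2) ≤ N := pow_ex hp.1 hpN hj
          obtain ⟨s, hs1, hs2, z', hz'⟩ := step hRES hp.1 h3 (by omega) hM hpow z R
            (by simpa using hR)
          have e1 : r + 1 - 1 = r := by omega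
          rw [e1] at hs1 hz'
          have hnn : (0 : ℚ) ≤ ∑ n ∈ s, (1 : ℚ) / n :=
            Finset.sum_nonneg (fun n _ => by positivity)
          have hlow : (32 * (r * (Nat.log 2 N + 1) + j) : ℚ) / N ≤
              R - ∑ n ∈ s, (1 : ℚ) / n := by
            have e2 : (32 * (r * (Nat.log 2 N + 1) + ((j + 1 : ℕ) : ℚ)) : ℚ) / N =
                (32 * (r * (Nat.log 2 N + 1) + j) : ℚ) / N + 32 / N := by
              push_cast
              ring
            rw [e2] at h0
            linarith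
          obtain ⟨s', hs1', hs2'⟩ := ihj (by omega) z' _ hz' hlow (by linarith)
          have hdis : Disjoint s s' := by
            rw [Finset.disjoint_left]
            intro n hn hn'
            exact (hs1 n hn).2.2 (hs1' n hn').1
          refine ⟨s ∪ s', ?_, ?_⟩
          · intro n hn
            rcases mem_union.1 hn with h | h
            · exact ⟨(hs1 n h).1, (hs1 n h).2.1⟩
            · refine ⟨(hs1' n h).1.trans ?_, (hs1' n h).2⟩
              rw [pow_succ, ← mul_assoc]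
              exact Dvd.intro _ rfl
          · rw [Finset.sum_union hdis, hs2']
            ring
      have hR' : R = z / ((D N r * (r + 1) ^ ex N (r + 1) : ℕ) : ℚ) := by
        rw [hR, D_succ hp]
      have hex : ex N (r + 1) ≤ Nat.log 2 N + 1 := by
        have h4 : Nat.log (r + 1) N ≤ Nat.log 2 N := Nat.log_anti_left (by norm_num) (by omega)
        unfold ex
        omega
      have hlow : (32 * (r * (Nat.log 2 N + 1) + (ex N (r + 1) : ℕ)) : ℚ) / N ≤ R := by
        refine le_trans ?_ h0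
        apply div_le_div_of_nonneg_right _ hNq.le
        have : ((ex N (r + 1) : ℕ) : ℚ) ≤ Nat.log 2 N + 1 := by exact_mod_cast hex
        push_cast
        nlinarith
      obtain ⟨s, hs⟩ := inner _ le_rfl z R hR' hlow h1
      rw [← D_succ hp] at hs
      exact ⟨s, hs⟩
    · rw [D_succ_not hp] at hR ⊢
      refine ih (by omega) z R hR (le_trans ?_ h0) h1
      apply div_le_div_of_nonneg_right _ (by positivity)
      push_cast
      have : (0 : ℚ) ≤ (Nat.log 2 N : ℚ) + 1 := by positivity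
      nlinarith

end CLEAR

theorem tCLEAR (hRES : T_RES) : T_CLEAR := by
  intro M N R hM2 hM h0 h1 hp hodd htwo
  have hN0 : N ≠ 0 := by
    have : 0 < M * M := Nat.mul_pos (by omega) (by omega)
    omega
  have hden : R.den ∣ CLEAR.D N M := by
    apply CLEAR.dvd_D
    · intro q k hq hq2 hk hqk
      have hqd : q ∣ R.den := (dvd_pow_self q hk.ne').trans hqk
      refine ⟨hp q hq hqd, ?_⟩
      have h3 : k ≤ R.den.factorization q :=
        (hq.pow_dvd_iff_le_factorization R.den_nz).1 hqk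
      calc q ^ (k + 1) = q ^ k * q := pow_succ q k
        _ ≤ q ^ (R.den.factorization q) * q :=
            Nat.mul_le_mul_right _ (Nat.pow_le_pow_right hq.pos h3)
        _ ≤ N := hodd q hq hqd hq2
    · intro k hk
      have h3 : k ≤ R.den.factorization 2 :=
        (Nat.prime_two.pow_dvd_iff_le_factorization R.den_nz).1 hk
      exact (Nat.pow_le_pow_right (by norm_num) h3).trans htwo
  obtain ⟨c, hc⟩ := hden
  have hc0 : c ≠ 0 := by
    intro h
    rw [h, mul_zero] at hc
    exact (CLEAR.D_pos N M).ne' hc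
  have hR : R = ((R.num * c : ℤ) : ℚ) / ((CLEAR.D N M : ℕ) : ℚ) := by
    rw [hc]
    push_cast
    have h5 : (c : ℚ) ≠ 0 := by exact_mod_cast hc0
    rw [mul_div_mul_right _ _ h5]
    exact (Rat.num_div_den R).symm
  obtain ⟨s, hs1, hs2⟩ := CLEAR.main hRES hM M le_rfl _ R hR (by exact_mod_cast h0) h1
  exact ⟨s, fun n hn => ⟨CLEAR.smooth_of_dvd hM2 (hs1 n hn).1, (hs1 n hn).2⟩, hs2⟩

end Pool.Agent.DHD
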