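import Pool.Agent.DHD.TSound

set_option autoImplicit false

/-!
# GADQ: the difference of the two options of a gadget
-/

namespace Pool.Agent.DHD

namespace GADQ

/-- the numerator is divisible by a prime `l` -/
theorem dvd_aux (l l' P u v : ℕ) (r r' k : ℤ) (hl : l.Prime) (hP : P.Prime) (hlP : l < P)
    (hk : (P : ℤ) * k = v - l * l' * u) (hr : (l : ℤ) ∣ r * (P * u * l') - 1) :
    (l : ℤ) ∣ k - r * l' * u * v - r' * l * u * v := by
  have hlZ : Prime (l : ℤ) := Nat.prime_iff_prime_int.mp hl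
  have h1 : (l : ℤ) ∣ P * (k - r * l' * u * v - r' * l * u * v) := by
    obtain ⟨c, hc⟩ := hr
    refine ⟨-(l' * u) - c * v - P * r' * u * v, ?_⟩
    have h2 : (P : ℤ) * (k - r * l' * u * v - r' * l * u * v) =
        P * k - v * (r * (P * u * l') - 1) - v - P * r' * l * u * v := by ring
    rw [h2, hk, hc]
    ring
  rcases hlZ.dvd_or_dvd h1 with h | h
  · exfalso
    have h3 : l ∣ P := by exact_mod_cast h
    rcases (Nat.dvd_prime hP).mp h3 with h4 | h4
    · exact hl.one_lt.ne' h4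
    · omega
  · exact h

end GADQ

theorem tGADQ : T_GADQ := by
  intro π l l' r r' P u v hok hl hl' hne hQ1 hQ2 hQ1' hQ2' hg
  have hPl : l < P := lt_of_le_of_lt (hQ2.trans hok.Q_le) hg.P1
  have hPl' : l' < P := lt_of_le_of_lt (hQ2'.trans hok.Q_le) hg.P1
  obtain ⟨k, hk⟩ := hg.dvd
  have hkZ : (P : ℤ) * (k : ℤ) = v - l * l' * u := by
    have h1 : P * k + l * l' * u = v := by
      have := hg.lt
      omega
    have h2 : (P : ℤ) * k + l * l' * u = v := by exact_mod_cast h1
    linarith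
  have hd : (l : ℤ) ∣ k - r * l' * u * v - r' * l * u * v :=
    GADQ.dvd_aux l l' P u v r r' k hl hg.prime hPl hkZ hg.res
  have hd' : (l' : ℤ) ∣ k - r' * l * u * v - r * l' * u * v := by
    refine GADQ.dvd_aux l' l P u v r' r k hl' hg.prime hPl' ?_ hg.res'
    rw [hkZ]
    ring
  have hd'' : (l' : ℤ) ∣ k - r * l' * u * v - r' * l * u * v := by
    have h : (k : ℤ) - r * l' * u * v - r' * l * u * v = k - r' * l * u * v - r * l' * u * v := by
      ring
    rw [h]
    exact hd'
  have hcop : IsCoprime (l : ℤ) (l' : ℤ) :=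
    Nat.isCoprime_iff_coprime.mpr ((Nat.coprime_primes hl hl').mpr hne)
  obtain ⟨w, hw⟩ := hcop.mul_dvd hd hd''
  refine ⟨w, ?_⟩
  have hP0 : (P : ℚ) ≠ 0 := by exact_mod_cast hg.prime.ne_zero
  have hl0 : (l : ℚ) ≠ 0 := by exact_mod_cast hl.ne_zero
  have hl0' : (l' : ℚ) ≠ 0 := by exact_mod_cast hl'.ne_zero
  have hu0 : (u : ℚ) ≠ 0 := by exact_mod_cast hg.su.1.ne'
  have hv0 : (v : ℚ) ≠ 0 := by exact_mod_cast hg.sv.1.ne'
  have hkQ : (P : ℚ) * k = v - l * l' * u := by exact_mod_cast hkZ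
  have hwQ : (k : ℚ) - r * l' * u * v - r' * l * u * v = l * l' * w := by exact_mod_cast hw
  push_cast
  have h1 : (1 : ℚ) / (P * (l * l' * u)) - 1 / (P * v) = k / (l * l' * u * v) := by
    rw [div_sub_div _ _ (by positivity) (by positivity), div_eq_div_iff (by positivity)
      (by positivity)]
    linear_combination (-(P : ℚ) * (l * l' * u * v)) * hkQ
  rw [h1]
  have h2 : (k : ℚ) = r * l' * u * v + r' * l * u * v + l * l' * w := by linarith
  rw [h2]
  field_simp

end Pool.Agent.DHD
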