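import Pool.Agent.DHD.TSound

set_option autoImplicit false

/-!
# LOC: the local conditions satisfied by the target, and its size
-/

namespace Pool.Agent.DHD

open Finset

namespace LOC

variable {π : Par} {S : BSys} {Z k : ℕ} {l : ℕ → ℕ → ℕ} {al : ℕ → ℕ} {P u v : ℕ → ℕ → ℕ}

/-- the part of the sum which belongs to the private prime of `(i, t)` -/
def g (P v : ℕ → ℕ → ℕ) (i t : ℕ) : ℚ := (1 : ℚ) / (P i t * v i t)

/-- the part of the sum which belongs to the vertex prime of `(i, x)` -/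
def e (S : BSys) (l : ℕ → ℕ → ℕ) (al : ℕ → ℕ) (i x : ℕ) : ℚ := (S.c x * al i : ℚ) / l i x

theorem target_eq (π : Par) (S : BSys) (k : ℕ) (l : ℕ → ℕ → ℕ) (al : ℕ → ℕ) (P v : ℕ → ℕ → ℕ) :
    target π S k l al P v = fsum S k l al P v +
      (((π.B (k * S.m) : ℤ) - ⌊fsum S k l al P v * π.pw⌋ : ℤ) : ℚ) * (1 / (π.pw : ℕ)) := by
  have h0 : (π.pw : ℚ) ≠ 0 := by
    have : 0 < π.pw := by unfold Par.pw; positivity
    exact_mod_cast this.ne'
  unfold target
  rw [Int.fract]
  push_cast
  field_simp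
  ring

theorem fsum_eq (S : BSys) (k : ℕ) (l : ℕ → ℕ → ℕ) (al : ℕ → ℕ) (P v : ℕ → ℕ → ℕ) :
    fsum S k l al P v = ∑ i ∈ range k, ((∑ t ∈ range S.m, g P v i t) +
      ∑ x ∈ range S.n, e S l al i x) := rfl

/-- a prime above `M` is prime to a smooth number -/
theorem not_dvd_smooth {M p w : ℕ} (hp : p.Prime) (hM : M < p) (hw : Smooth M w) : ¬ p ∣ w :=
  fun h => absurd (hw.2 p hp h) (not_le.mpr hM)

theorem not_dvd_pw {p : ℕ} (hp : p.Prime) (h2 : 2 < p) (π : Par) : ¬ p ∣ π.pw := by
  intro h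
  unfold Par.pw at h
  have h3 := hp.dvd_of_dvd_pow h
  have h4 := Nat.le_of_dvd (by norm_num) h3
  omega

theorem int_pow (hI : T_INT) {p : ℕ} (hp : p.Prime) (h2 : 2 < p) (π : Par) (z : ℤ) :
    IntAt p ((z : ℚ) * (1 / (π.pw : ℕ))) := by
  obtain ⟨-, -, hm, -, hz, h1, -⟩ := hI p hp
  exact hm _ _ (hz z) (h1 _ (not_dvd_pw hp h2 π))

theorem int_g (hI : T_INT) {p : ℕ} (hp : p.Prime) {i t : ℕ} (h1 : ¬ p ∣ P i t)
    (h2 : ¬ p ∣ v i t) : IntAt p (g P v i t) := by
  obtain ⟨-, -, hm, -, hz, h1', -⟩ := hI p hp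
  have h3 := h1' (P i t * v i t) (by
    intro h
    rcases (Nat.Prime.dvd_mul hp).mp h with h | h
    · exact h1 h
    · exact h2 h)
  have h4 : g P v i t = (1 : ℚ) / ((P i t * v i t : ℕ) : ℚ) := by
    unfold g
    push_cast
    rfl
  rw [h4]
  exact h3

theorem int_e (hI : T_INT) {p : ℕ} (hp : p.Prime) {i x : ℕ} (h1 : ¬ p ∣ l i x) :
    IntAt p (e S l al i x) := by
  obtain ⟨-, -, hm, -, hz, h1', -⟩ := hI p hp
  have h3 := hm _ _ (hz ((S.c x * al i : ℕ) : ℤ)) (h1' _ h1)
  have h4 : e S l al i x = (((S.c x * al i : ℕ) : ℤ) : ℚ) * (1 / (l i x : ℚ)) := by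
    unfold e
    push_cast
    rw [mul_one_div]
  rw [h4]
  exact h3

theorem int_row (hI : T_INT) {p : ℕ} (hp : p.Prime) (A B : Finset ℕ) (i : ℕ)
    (hg : ∀ t ∈ A, IntAt p (g P v i t)) (he : ∀ x ∈ B, IntAt p (e S l al i x)) :
    IntAt p ((∑ t ∈ A, g P v i t) + ∑ x ∈ B, e S l al i x) := by
  obtain ⟨ha, -, -, hs, -, -, -⟩ := hI p hp
  exact ha _ _ (hs A _ hg) (hs B _ he)

end LOC

open LOC in
theorem tLOC (hI : T_INT) : T_LOC := by
  intro π S Z k l al P u v hok hS hV
  have hM2 := hok.M_pos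
  have hMQ := hok.M_lt
  have hQP := hok.Q_le
  -- all private primes are larger than all vertex primes
  have hQ : ∀ i < k, ∀ t < S.m, π.Q1 < π.Q2 := by
    intro i hi t ht
    obtain ⟨-, h1, h2⟩ := hV.l_prime i hi _ (hS.x_lt t ht)
    omega
  refine ⟨?_, ?_, ?_, ?_⟩
  · intro i hi t ht
    have hg := hV.gad i hi t ht
    have hp := hg.prime
    have hP1 := hg.P1
    have hq := hQ i hi t ht
    obtain ⟨ha, hs, hm, hsum, hz, h1, -⟩ := hI (P i t) hp
    have hMP : π.M < P i t := by omega
    have hG : ∀ i' < k, ∀ t' < S.m, (i', t') ≠ (i, t) → IntAt (P i t) (g P v i' t') := by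
      intro i' hi' t' ht' hne
      have hg' := hV.gad i' hi' t' ht'
      refine int_g hI hp ?_ (not_dvd_smooth hp hMP hg'.sv)
      intro h
      rcases (Nat.dvd_prime hg'.prime).mp h with h3 | h3
      · exact hp.one_lt.ne' h3
      · obtain ⟨h4, h5⟩ := hV.P_inj i hi t ht i' hi' t' ht' h3
        exact hne (by rw [h4, h5])
    have hE : ∀ i' < k, ∀ x' < S.n, IntAt (P i t) (e S l al i' x') := by
      intro i' hi' x' hx'
      obtain ⟨h3, h4, h5⟩ := hV.l_prime i' hi' x' hx'
      refine int_e hI hp ?_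
      intro h
      have := Nat.le_of_dvd h3.pos h
      omega
    have hF : fsum S k l al P v - g P v i t =
        (∑ i' ∈ (range k).erase i, ((∑ t' ∈ range S.m, g P v i' t') +
          ∑ x ∈ range S.n, e S l al i' x)) +
        ((∑ t' ∈ (range S.m).erase t, g P v i t') + ∑ x ∈ range S.n, e S l al i x) := by
      rw [fsum_eq, ← Finset.add_sum_erase (range k) _ (mem_range.mpr hi),
        ← Finset.add_sum_erase (range S.m) (fun t' => g P v i t') (mem_range.mpr ht)]
      ring
    have hT : target π S k l al P v - 1 / (P i t * v i t : ℕ) =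
        (fsum S k l al P v - g P v i t) +
        (((π.B (k * S.m) : ℤ) - ⌊fsum S k l al P v * π.pw⌋ : ℤ) : ℚ) * (1 / (π.pw : ℕ)) := by
      rw [target_eq]
      unfold g
      push_cast
      ring
    rw [hT, hF]
    refine ha _ _ (ha _ _ (hsum _ _ ?_) ?_) (int_pow hI hp (by omega) π _)
    · intro i' hi'
      rw [mem_erase, mem_range] at hi'
      refine int_row hI hp _ _ _ ?_ ?_
      · intro t' ht'
        exact hG i' hi'.2 t' (mem_range.mp ht') (fun h => hi'.1 (congrArg Prod.fst h))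
      · intro x' hx'
        exact hE i' hi'.2 x' (mem_range.mp hx')
    · refine int_row hI hp _ _ _ ?_ ?_
      · intro t' ht'
        rw [mem_erase, mem_range] at ht'
        exact hG i hi t' ht'.2 (fun h => ht'.1 (congrArg Prod.snd h))
      · intro x' hx'
        exact hE i hi x' (mem_range.mp hx')
  · intro i hi x hx
    obtain ⟨hp, hq1, hq2⟩ := hV.l_prime i hi x hx
    obtain ⟨ha, hs, hm, hsum, hz, h1, -⟩ := hI (l i x) hp
    have hG : ∀ i' < k, ∀ t' < S.m, IntAt (l i x) (g P v i' t') := by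
      intro i' hi' t' ht'
      have hg' := hV.gad i' hi' t' ht'
      refine int_g hI hp ?_ (not_dvd_smooth hp (by omega) hg'.sv)
      intro h
      rcases (Nat.dvd_prime hg'.prime).mp h with h3 | h3
      · exact hp.one_lt.ne' h3
      · have := hg'.P1
        omega
    have hE : ∀ i' < k, ∀ x' < S.n, (i', x') ≠ (i, x) → IntAt (l i x) (e S l al i' x') := by
      intro i' hi' x' hx' hne
      obtain ⟨h3, h4, h5⟩ := hV.l_prime i' hi' x' hx'
      refine int_e hI hp ?_
      intro h
      rcases (Nat.dvd_prime h3).mp h with h6 | h6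
      · exact hp.one_lt.ne' h6
      · obtain ⟨h7, h8⟩ := hV.l_inj i hi x hx i' hi' x' hx' h6
        exact hne (by rw [h7, h8])
    have hF : fsum S k l al P v - e S l al i x =
        (∑ i' ∈ (range k).erase i, ((∑ t' ∈ range S.m, g P v i' t') +
          ∑ x ∈ range S.n, e S l al i' x)) +
        ((∑ t' ∈ range S.m, g P v i t') + ∑ x' ∈ (range S.n).erase x, e S l al i x') := by
      rw [fsum_eq, ← Finset.add_sum_erase (range k) _ (mem_range.mpr hi),
        ← Finset.add_sum_erase (range S.n) (fun x' => e S l al i x') (mem_range.mpr hx)]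
      ring
    have hT : target π S k l al P v - (S.c x * al i : ℕ) / l i x =
        (fsum S k l al P v - e S l al i x) +
        (((π.B (k * S.m) : ℤ) - ⌊fsum S k l al P v * π.pw⌋ : ℤ) : ℚ) * (1 / (π.pw : ℕ)) := by
      rw [target_eq]
      unfold e
      push_cast
      ring
    rw [hT, hF]
    refine ha _ _ (ha _ _ (hsum _ _ ?_) ?_) (int_pow hI hp (by omega) π _)
    · intro i' hi'
      rw [mem_erase, mem_range] at hi'
      refine int_row hI hp _ _ _ ?_ ?_
      · intro t' ht'
        exact hG i' hi'.2 t' (mem_range.mp ht')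
      · intro x' hx'
        exact hE i' hi'.2 x' (mem_range.mp hx') (fun h => hi'.1 (congrArg Prod.fst h))
    · refine int_row hI hp _ _ _ ?_ ?_
      · intro t' ht'
        exact hG i hi t' (mem_range.mp ht')
      · intro x' hx'
        rw [mem_erase, mem_range] at hx'
        exact hE i hi x' hx'.2 (fun h => hx'.1 (congrArg Prod.snd h))
  · -- upper bound
    have hN0 : 0 < π.N := by
      have := hok.MM
      nlinarith
    have hpw0 : 0 < π.pw := by unfold Par.pw; positivity
    have hpwN : π.N < 2 * π.pw := by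
      have := Nat.lt_pow_succ_log_self (b := 2) (by norm_num) π.N
      unfold Par.pw
      rw [pow_succ] at this
      omega
    have hpwQ : (0 : ℚ) < π.pw := by exact_mod_cast hpw0
    have hNQ : (0 : ℚ) < π.N := by exact_mod_cast hN0
    have hB : (π.B (k * S.m) : ℚ) * π.N ≤ π.T (k * S.m) * π.pw + π.N := by
      have h1 : π.B (k * S.m) * π.N ≤ π.T (k * S.m) * π.pw + π.N := by
        unfold Par.B
        have := Nat.div_mul_le_self (π.T (k * S.m) * π.pw) π.N
        rw [add_mul, one_mul]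
        omega
      exact_mod_cast h1
    have hfr := Int.fract_lt_one (fsum S k l al P v * π.pw)
    have hlt : (π.N : ℚ) < 2 * π.pw := by exact_mod_cast hpwN
    unfold target
    rw [div_mul_eq_mul_div, div_lt_iff₀ hpwQ]
    have h3 : Int.fract (fsum S k l al P v * π.pw) * π.N < 1 * π.N :=
      mul_lt_mul_of_pos_right hfr hNQ
    nlinarith
  · have hN0 : 0 < π.N := by
      have := hok.MM
      nlinarith
    have hpw0 : 0 < π.pw := by unfold Par.pw; positivity
    have hpwQ : (0 : ℚ) < π.pw := by exact_mod_cast hpw0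
    have hNQ : (0 : ℚ) < π.N := by exact_mod_cast hN0
    have hB : (π.T (k * S.m) : ℚ) * π.pw ≤ π.B (k * S.m) * π.N := by
      have h1 : π.T (k * S.m) * π.pw ≤ π.B (k * S.m) * π.N := by
        unfold Par.B
        have := Nat.lt_div_mul_add hN0 (a := π.T (k * S.m) * π.pw)
        rw [add_mul, one_mul]
        omega
      exact_mod_cast h1
    have hfr := Int.fract_nonneg (fsum S k l al P v * π.pw)
    unfold target
    rw [div_mul_eq_mul_div, le_div_iff₀ hpwQ]
    have h3 : 0 ≤ Int.fract (fsum S k l al P v * π.pw) * π.N := mul_nonneg hfr hNQ.le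
    nlinarith

end Pool.Agent.DHD
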