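import Pool.Agent.DHD.TSound

set_option autoImplicit false

/-!
# NO: a representation gives a solution of the system
-/

namespace Pool.Agent.DHD

open Finset
open Pool.Agent.H44 (IsRep minLargest)

namespace NO

/-- the `A`-option of the gadget of the column `t` -/
def nA (S : BSys) (l P u : ℕ → ℕ → ℕ) (i t : ℕ) : ℕ :=
  P i t * (l i (S.x t) * l i (S.y t) * u i t)

section

variable {π : Par} {S : BSys} {Z k : ℕ} {l : ℕ → ℕ → ℕ} {al : ℕ → ℕ} {P u v : ℕ → ℕ → ℕ}

theorem smooth_not_dvd {M w q : ℕ} (hw : Smooth M w) (hq : q.Prime) (h : M < q) : ¬ q ∣ w :=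
  fun hd => absurd (hw.2 q hq hd) (not_le.2 h)

/-- which of the primes of the vertices divide an `A`-option -/
theorem dvd_nA (hπ : π.Ok) (hS : S.Ok Z) (hV : Valid π S k l al P u v) {i i' x t : ℕ}
    (hi : i < k) (hx : x < S.n) (hi' : i' < k) (ht : t < S.m)
    (h : l i x ∣ nA S l P u i' t) : i = i' ∧ (S.x t = x ∨ S.y t = x) := by
  obtain ⟨hp, hp1, hp2⟩ := hV.l_prime i hi x hx
  have hg := hV.gad i' hi' t ht
  have hxt := hS.x_lt t ht
  have hyt := hS.y_lt t ht
  obtain ⟨hxp, -, -⟩ := hV.l_prime i' hi' _ hxt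
  obtain ⟨hyp, -, -⟩ := hV.l_prime i' hi' _ hyt
  rw [nA, hp.dvd_mul, hp.dvd_mul, hp.dvd_mul] at h
  rcases h with h | (h | h) | h
  · have h1 := (Nat.prime_dvd_prime_iff_eq hp hg.prime).1 h
    have h2 := hg.P1
    have h3 := hπ.Q_le
    omega
  · have h1 := (Nat.prime_dvd_prime_iff_eq hp hxp).1 h
    obtain ⟨h2, h3⟩ := hV.l_inj i hi x hx i' hi' _ hxt h1
    exact ⟨h2, Or.inl h3.symm⟩
  · have h1 := (Nat.prime_dvd_prime_iff_eq hp hyp).1 h
    obtain ⟨h2, h3⟩ := hV.l_inj i hi x hx i' hi' _ hyt h1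
    exact ⟨h2, Or.inr h3.symm⟩
  · exact absurd h (smooth_not_dvd hg.su hp (hπ.M_lt.trans hp1))

/-- the `A`-options are different -/
theorem nA_inj (hπ : π.Ok) (hS : S.Ok Z) (hV : Valid π S k l al P u v) {i t t' : ℕ}
    (hi : i < k) (ht : t < S.m) (ht' : t' < S.m)
    (h : nA S l P u i t = nA S l P u i t') : t = t' := by
  have hg := hV.gad i hi t ht
  have hg' := hV.gad i hi t' ht'
  obtain ⟨hxp, hx1, hx2⟩ := hV.l_prime i hi _ (hS.x_lt t' ht')
  obtain ⟨hyp, hy1, hy2⟩ := hV.l_prime i hi _ (hS.y_lt t' ht')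
  have hQ := hπ.Q_le
  have hP1 := hg.P1
  have hM := hπ.M_lt
  have hd : P i t ∣ nA S l P u i t' := by
    rw [← h, nA]
    exact dvd_mul_right _ _
  rw [nA, hg.prime.dvd_mul, hg.prime.dvd_mul, hg.prime.dvd_mul] at hd
  rcases hd with hd | (hd | hd) | hd
  · exact (hV.P_inj i hi t ht i hi t' ht' ((Nat.prime_dvd_prime_iff_eq hg.prime hg'.prime).1 hd)).2
  · have := (Nat.prime_dvd_prime_iff_eq hg.prime hxp).1 hd
    omega
  · have := (Nat.prime_dvd_prime_iff_eq hg.prime hyp).1 hd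
    omega
  · exact absurd hd (smooth_not_dvd hg'.su hg.prime (by omega))

/-- one unit fraction of a gadget is congruent to its residue -/
theorem frac_int (hI : T_INT) {L P' l' u' : ℕ} {r : ℤ} (hL : L.Prime) (hP : ¬ L ∣ P')
    (hl : ¬ L ∣ l') (hu : ¬ L ∣ u') (hr : (L : ℤ) ∣ r * (P' * u' * l') - 1) :
    IntAt L ((1 : ℚ) / (P' * (L * l' * u') : ℕ) - (r : ℚ) / L) := by
  obtain ⟨-, -, -, -, -, -, h7⟩ := hI L hL
  have hn : ¬ L ∣ P' * u' * l' := by
    rw [hL.dvd_mul, hL.dvd_mul]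
    rintro ((h | h) | h)
    · exact hP h
    · exact hu h
    · exact hl h
  have h8 := (h7 (1 - r * (P' * u' * l')) (P' * u' * l') hn).2 (by
    have := (Int.dvd_neg).2 hr
    rwa [neg_sub] at this)
  have hne : ((P' * u' * l' : ℕ) : ℚ) ≠ 0 := by
    intro h
    apply hn
    have : P' * u' * l' = 0 := by exact_mod_cast h
    rw [this]
    exact dvd_zero _
  have hL0 : (L : ℚ) ≠ 0 := by exact_mod_cast hL.ne_zero
  have e : (1 : ℚ) / (P' * (L * l' * u') : ℕ) - (r : ℚ) / L =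
      ((1 - r * (P' * u' * l') : ℤ) : ℚ) / (L * (P' * u' * l' : ℕ)) := by
    push_cast at hne ⊢
    have h1 : (P' : ℚ) ≠ 0 := by
      intro h; apply hne; rw [h]; ring
    have h2 : (u' : ℚ) ≠ 0 := by
      intro h; apply hne; rw [h]; ring
    have h3 : (l' : ℚ) ≠ 0 := by
      intro h; apply hne; rw [h]; ring
    field_simp
  rw [e]
  exact h8

/-- the coefficient of a column at a vertex, times `al`, represents the unit fraction -/
theorem col_int (hI : T_INT) (hπ : π.Ok) (hS : S.Ok Z) (hV : Valid π S k l al P u v) {i x t : ℕ}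
    (hi : i < k) (hx : x < S.n) (ht : t < S.m) (h : S.x t = x ∨ S.y t = x) :
    IntAt (l i x) ((1 : ℚ) / (nA S l P u i t : ℕ) - ((S.coef t x * al i : ℤ) : ℚ) / l i x) := by
  have hg := hV.gad i hi t ht
  obtain ⟨hp, hp1, hp2⟩ := hV.l_prime i hi x hx
  have hQ := hπ.Q_le
  have hP1 := hg.P1
  have hM := hπ.M_lt
  have hnP : ¬ l i x ∣ P i t := by
    intro hd
    have := (Nat.prime_dvd_prime_iff_eq hp hg.prime).1 hd
    omega
  have hnu : ¬ l i x ∣ u i t := smooth_not_dvd hg.su hp (by omega)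
  have hne := hS.ne t ht
  rcases h with h | h
  · have hl : ¬ l i x ∣ l i (S.y t) := by
      intro hd
      have h1 := (Nat.prime_dvd_prime_iff_eq hp (hV.l_prime i hi _ (hS.y_lt t ht)).1).1 hd
      have h2 := (hV.l_inj i hi x hx i hi _ (hS.y_lt t ht) h1).2
      exact hne (h.trans h2)
    have hres := hg.res
    rw [h] at hres
    have hc : S.coef t x = S.a t := by
      rw [BSys.coef, if_pos h, if_neg (fun e => hne (h.trans e.symm)), add_zero]
    have := frac_int hI hp hnP hl hnu (r := S.a t * al i) hres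
    rw [nA, hc, h]
    exact this
  · have hl : ¬ l i x ∣ l i (S.x t) := by
      intro hd
      have h1 := (Nat.prime_dvd_prime_iff_eq hp (hV.l_prime i hi _ (hS.x_lt t ht)).1).1 hd
      have h2 := (hV.l_inj i hi x hx i hi _ (hS.x_lt t ht) h1).2
      exact hne (h2.symm.trans h.symm)
    have hres := hg.res'
    rw [h] at hres
    have hc : S.coef t x = S.b t := by
      rw [BSys.coef, if_pos h, if_neg (fun e => hne (e.trans h.symm)), zero_add]
    have := frac_int hI hp hnP hl hnu (r := S.b t * al i) hres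
    rw [nA, hc, h, mul_comm (l i (S.x t)) (l i x)]
    exact this

end

end NO

open NO in
theorem tNO (hC : T_CLEAN) (hL : T_LOC) (hI : T_INT) : T_NO := by
  classical
  intro π S Z k l al P u v s hπ hS hZ hV hB hs hN
  obtain ⟨i, hi, hclean⟩ := hC π S Z k l al P u v s hπ hS hV hB hs hN
  obtain ⟨-, hloc, -, -⟩ := hL π S Z k l al P u v hπ hS hV
  refine ⟨fun t => decide (nA S l P u i t ∈ s), ?_⟩
  intro x hx
  obtain ⟨hp, hp1, hp2⟩ := hV.l_prime i hi x hx
  obtain ⟨i1, i2, i3, i4, i5, i6, i7⟩ := hI (l i x) hp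
  have hloc' := hloc i hi x hx
  -- the columns which are used at the vertex `x`
  set T : Finset ℕ := (range S.m).filter
    (fun t => nA S l P u i t ∈ s ∧ (S.x t = x ∨ S.y t = x)) with hT
  have hTm : ∀ t ∈ T, t < S.m ∧ nA S l P u i t ∈ s ∧ (S.x t = x ∨ S.y t = x) := by
    intro t ht
    rw [hT, mem_filter, mem_range] at ht
    exact ht
  have himg : s.filter (fun n => l i x ∣ n) = T.image (nA S l P u i) := by
    ext n
    rw [mem_filter, mem_image]
    constructor
    · rintro ⟨hn, hd⟩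
      obtain ⟨i', hi', t, ht, hnt⟩ := hclean x hx n hn hd
      have hnt' : n = nA S l P u i' t := hnt
      rw [hnt'] at hd hn
      obtain ⟨e1, e2⟩ := dvd_nA hπ hS hV hi hx hi' ht hd
      subst e1
      refine ⟨t, ?_, hnt'.symm⟩
      rw [hT, mem_filter, mem_range]
      exact ⟨ht, hn, e2⟩
    · rintro ⟨t, ht, rfl⟩
      obtain ⟨h1, h2, h3⟩ := hTm t ht
      refine ⟨h2, ?_⟩
      rw [nA]
      rcases h3 with e | e
      · rw [e]
        exact Dvd.dvd.mul_left (dvd_mul_of_dvd_left (dvd_mul_right _ _) _) _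
      · rw [e]
        exact Dvd.dvd.mul_left (dvd_mul_of_dvd_left (dvd_mul_left _ _) _) _
  have hsum : ∑ n ∈ s.filter (fun n => l i x ∣ n), (1 : ℚ) / n
      = ∑ t ∈ T, (1 : ℚ) / (nA S l P u i t : ℕ) := by
    rw [himg, sum_image]
    intro t ht t' ht' h
    exact nA_inj hπ hS hV hi (hTm t ht).1 (hTm t' ht').1 h
  have hsplit := sum_filter_add_sum_filter_not s (fun n => l i x ∣ n) (fun n => (1 : ℚ) / n)
  rw [hs.2, hsum] at hsplit
  have hrest : IntAt (l i x) (∑ n ∈ s.filter (fun n => ¬ l i x ∣ n), (1 : ℚ) / n) := by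
    apply i4
    intro n hn
    exact i6 n (mem_filter.1 hn).2
  have hdiff : IntAt (l i x) (∑ t ∈ T, ((1 : ℚ) / (nA S l P u i t : ℕ)
      - ((S.coef t x * al i : ℤ) : ℚ) / l i x)) := by
    apply i4
    intro t ht
    obtain ⟨h1, h2, h3⟩ := hTm t ht
    exact col_int hI hπ hS hV hi hx h1 h3
  -- combine
  have hfin : IntAt (l i x) ((((∑ t ∈ T, S.coef t x * al i) - (S.c x * al i : ℕ) : ℤ) : ℚ)
      / (l i x * (1 : ℕ))) := by
    have h1 := i2 _ _ (i2 _ _ hloc' hrest) hdiff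
    have e : target π S k l al P v - (S.c x * al i : ℕ) / l i x
        - ∑ n ∈ s.filter (fun n => ¬ l i x ∣ n), (1 : ℚ) / n
        - ∑ t ∈ T, ((1 : ℚ) / (nA S l P u i t : ℕ) - ((S.coef t x * al i : ℤ) : ℚ) / l i x)
        = (((∑ t ∈ T, S.coef t x * al i) - (S.c x * al i : ℕ) : ℤ) : ℚ) / (l i x * (1 : ℕ)) := by
      rw [← hsplit, sum_sub_distrib, ← sum_div]
      push_cast
      ring
    rw [e] at h1
    exact h1
  have hdvd := (i7 _ 1 (by
    intro h
    exact hp.one_lt.ne' (Nat.dvd_one.1 h))).1 hfin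
  -- the integer is divisible by `l i x`
  have hfac : ((∑ t ∈ T, S.coef t x * al i) - (S.c x * al i : ℕ) : ℤ)
      = (∑ t ∈ T, S.coef t x - S.c x) * al i := by
    rw [← sum_mul]
    push_cast
    ring
  rw [hfac] at hdvd
  have hpi : Prime ((l i x : ℕ) : ℤ) := Nat.prime_iff_prime_int.1 hp
  have hd2 : ((l i x : ℕ) : ℤ) ∣ (∑ t ∈ T, S.coef t x - S.c x) := by
    rcases hpi.dvd_or_dvd hdvd with h | h
    · exact h
    · exact absurd (Int.natCast_dvd_natCast.1 h) (hV.al_ne i hi x hx)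
  -- size
  have hcoef : ∀ t ∈ T, |S.coef t x| ≤ Z := by
    intro t ht
    obtain ⟨h1, h2, h3⟩ := hTm t ht
    have hne := hS.ne t h1
    rcases h3 with e | e
    · rw [BSys.coef, if_pos e, if_neg (fun e' => hne (e.trans e'.symm)), add_zero]
      exact hS.a_le t h1
    · rw [BSys.coef, if_pos e, if_neg (fun e' => hne (e'.trans e.symm)), zero_add]
      exact hS.b_le t h1
  have hTc : T.card ≤ Z := by
    refine (card_filter_le _ _).trans ?_
    rw [card_range]
    exact hS.m_le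
  have habs : |∑ t ∈ T, S.coef t x - S.c x| < (l i x : ℕ) := by
    have h1 : |∑ t ∈ T, S.coef t x| ≤ (Z * Z : ℕ) := by
      refine (abs_sum_le_sum_abs _ _).trans ?_
      refine (sum_le_card_nsmul T _ (Z : ℤ) hcoef).trans ?_
      rw [nsmul_eq_mul]
      push_cast
      exact mul_le_mul_of_nonneg_right (by exact_mod_cast hTc) (by positivity)
    have h2 : |((S.c x : ℕ) : ℤ)| ≤ Z := by
      rw [abs_of_nonneg (by positivity)]
      exact_mod_cast hS.c_le x hx
    have h3 := abs_sub (∑ t ∈ T, S.coef t x) ((S.c x : ℕ) : ℤ)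
    have h4 : ((Z * Z + Z : ℕ) : ℤ) < (l i x : ℕ) := by exact_mod_cast hZ.trans hp1
    push_cast at h1 h4 ⊢
    linarith
  have hzero := Int.eq_zero_of_abs_lt_dvd hd2 habs
  -- conclusion
  have hre : ∑ t ∈ range S.m, (if decide (nA S l P u i t ∈ s) = true then S.coef t x else 0)
      = ∑ t ∈ T, S.coef t x := by
    rw [hT, sum_filter]
    refine sum_congr rfl ?_
    intro t ht
    by_cases h1 : nA S l P u i t ∈ s
    · by_cases h2 : S.x t = x ∨ S.y t = x
      · rw [if_pos (decide_eq_true h1), if_pos ⟨h1, h2⟩]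
      · rw [if_pos (decide_eq_true h1), if_neg (fun h => h2 h.2), BSys.coef,
          if_neg (fun e => h2 (Or.inl e)), if_neg (fun e => h2 (Or.inr e)), add_zero]
    · rw [if_neg (by simpa using h1), if_neg (fun h => h1 h.1)]
  rw [hre]
  linarith

end Pool.Agent.DHD
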