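import Pool.Agent.DHD.TSound

set_option autoImplicit false

/-!
# RES: every residue is a sum of at most two different inverses
-/

namespace Pool.Agent.DHD

open Finset

namespace RES

theorem three (r : ZMod 3) : ∃ s : Finset ℕ,
    (∀ g ∈ s, 3 ≤ 8 * g ∧ g < 3) ∧ s.card ≤ 2 ∧ ∑ g ∈ s, ((g : ZMod 3))⁻¹ = r := by
  have h : r = 0 ∨ r = 1 ∨ r = 2 := by
    revert r
    decide
  have e1 : (1 : ZMod 3)⁻¹ = 1 := inv_one
  have e2 : (2 : ZMod 3)⁻¹ = 2 := inv_eq_of_mul_eq_one_left (by decide)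
  rcases h with h | h | h
  · exact ⟨∅, by simp, by simp, by simp [h]⟩
  · refine ⟨{1}, by simp, by simp, ?_⟩
    rw [sum_singleton, h]
    exact_mod_cast e1
  · refine ⟨{2}, by simp, by simp, ?_⟩
    rw [sum_singleton, h]
    exact_mod_cast e2

theorem five (p : ℕ) [hp : Fact p.Prime] (h5 : 5 ≤ p) (r : ZMod p) : ∃ s : Finset ℕ,
    (∀ g ∈ s, p ≤ 8 * g ∧ g < p) ∧ s.card ≤ 2 ∧ ∑ g ∈ s, ((g : ZMod p))⁻¹ = r := by
  classical
  set G : Finset ℕ := (Finset.range p).filter (fun g => p ≤ 8 * g) with hG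
  have hcard : 7 * p ≤ 8 * G.card + 7 := by
    have h1 : Finset.Ico ((p + 7) / 8) p ⊆ G := by
      intro g hg
      rw [mem_Ico] at hg
      rw [hG, mem_filter, mem_range]
      refine ⟨hg.2, ?_⟩
      omega
    have h2 := card_le_card h1
    rw [Nat.card_Ico] at h2
    omega
  have hinj : Set.InjOn (fun g : ℕ => ((g : ZMod p))⁻¹) (G : Set ℕ) := by
    intro a ha b hb hab
    rw [mem_coe, hG, mem_filter, mem_range] at ha hb
    have h1 : (a : ZMod p) = (b : ZMod p) := inv_injective hab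
    have h2 := (ZMod.natCast_eq_natCast_iff' a b p).1 h1
    rwa [Nat.mod_eq_of_lt ha.1, Nat.mod_eq_of_lt hb.1] at h2
  set A : Finset (ZMod p) := G.image (fun g : ℕ => ((g : ZMod p))⁻¹) with hA
  set B : Finset (ZMod p) := A.image (fun x => r - x) with hB
  have hAc : A.card = G.card := card_image_of_injOn hinj
  have hBc : B.card = G.card := by
    rw [hB, card_image_of_injective _ (sub_right_injective), hAc]
  have hAB : 1 < (A ∩ B).card := by
    have h1 := card_union_add_card_inter A B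
    have h2 : (A ∪ B).card ≤ p := by
      have := card_le_univ (A ∪ B)
      rwa [ZMod.card] at this
    omega
  obtain ⟨x, hx, y, hy, hxy⟩ := one_lt_card.1 hAB
  have two_ne : (2 : ZMod p) ≠ 0 := by
    intro h
    have h1 : ((2 : ℕ) : ZMod p) = 0 := by exact_mod_cast h
    rw [ZMod.natCast_eq_zero_iff] at h1
    have := Nat.le_of_dvd (by norm_num) h1
    omega
  have hz : ∃ z ∈ A ∩ B, r - z ≠ z := by
    by_contra hc
    push Not at hc
    have h1 := hc x hx
    have h2 := hc y hy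
    apply hxy
    have h3 : 2 * x = 2 * y := by
      have e1 : r = 2 * x := by rw [two_mul]; exact sub_eq_iff_eq_add.1 h1
      have e2 : r = 2 * y := by rw [two_mul]; exact sub_eq_iff_eq_add.1 h2
      rw [← e1, ← e2]
    exact mul_left_cancel₀ two_ne h3
  obtain ⟨z, hz, hzz⟩ := hz
  rw [mem_inter] at hz
  obtain ⟨hz1, hz2⟩ := hz
  rw [hA, mem_image] at hz1
  obtain ⟨g, hg, hgz⟩ := hz1
  rw [hB, mem_image] at hz2
  obtain ⟨x', hx', hxz⟩ := hz2
  rw [hA, mem_image] at hx'
  obtain ⟨h, hh, hhx⟩ := hx'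
  have hgh : g ≠ h := by
    intro e
    apply hzz
    rw [← hxz, ← hhx, ← e, hgz, sub_sub_cancel]
    rw [← hgz, e, hhx, hxz, ← hgz, e, hhx]
  refine ⟨{g, h}, ?_, card_le_two, ?_⟩
  · intro k hk
    rw [mem_insert, mem_singleton] at hk
    have : k ∈ G := by
      rcases hk with e | e
      · rw [e]; exact hg
      · rw [e]; exact hh
    rw [hG, mem_filter, mem_range] at this
    exact ⟨this.2, this.1⟩
  · rw [sum_pair hgh]
    change (g : ZMod p)⁻¹ = z at hgz
    change (h : ZMod p)⁻¹ = x' at hhx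
    rw [hgz, hhx, ← hxz]
    ring

end RES

theorem tRES : T_RES := by
  intro p hp h3 r
  rcases Nat.lt_or_ge p 5 with h | h
  · have h4 : p = 3 ∨ p = 4 := by omega
    rcases h4 with e | e
    · subst e
      exact RES.three r
    · subst e
      exact absurd hp.out (by norm_num)
  · exact RES.five p h r

end Pool.Agent.DHD
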