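import Pool.Agent.DHD.TSound
import Pool.Agent.H44.EFBasic

set_option autoImplicit false

/-!
# SOUND: the reduction is correct
-/

namespace Pool.Agent.DHD

open Finset
open Pool.Agent.H44 (IsRep minLargest)

theorem tSOUND (hYES : T_YES) (hNO : T_NO) (hLOC : T_LOC) : T_SOUND := by
  intro π S Z k l al P u v x y hok hS hZ hV hBig hk hy hxy
  obtain ⟨-, -, hlt, hge⟩ := hLOC π S Z k l al P u v hok hS hV
  have hN0 : 0 < π.N := by
    have h1 := hok.MM
    have h2 := hok.M_pos
    nlinarith
  have hNQ : (0 : ℚ) < π.N := by exact_mod_cast hN0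
  have hyQ : (0 : ℚ) < y := by exact_mod_cast hy
  rw [← hxy] at hlt hge
  have hT1 : 1 ≤ π.T (k * S.m) := by
    unfold Par.T
    generalize k * S.m / (π.D - 1) = q
    generalize k * S.m = w
    omega
  have hT1Q : (1 : ℚ) ≤ π.T (k * S.m) := by exact_mod_cast hT1
  have hTN : (π.T (k * S.m) : ℚ) + 4 ≤ π.N := by exact_mod_cast hBig.2
  have hpos : (0 : ℚ) < x / y := by
    by_contra h
    push Not at h
    have := mul_nonpos_of_nonpos_of_nonneg h hNQ.le
    linarith
  have hlt1 : (x : ℚ) / y < 1 := by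
    by_contra h
    push Not at h
    have := mul_le_mul_of_nonneg_right h hNQ.le
    linarith
  have hx : 0 < x := by
    rcases Nat.eq_zero_or_pos x with h | h
    · rw [h] at hpos
      simp at hpos
    · exact h
  have hxy' : x < y := by
    rw [div_lt_one hyQ] at hlt1
    exact_mod_cast hlt1
  refine ⟨hx, hxy', ?_, ?_⟩
  · intro hm
    obtain ⟨s, hs⟩ := Pool.Agent.H44.exists_rep hx hxy'
    obtain ⟨s, hs, hsup⟩ := Nat.sInf_mem
      (s := {N | ∃ s : Finset ℕ, IsRep s ((x : ℚ) / y) ∧ s.sup id = N}) ⟨s.sup id, s, hs, rfl⟩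
    rw [hxy] at hs
    refine hNO π S Z k l al P u v s hok hS hZ hV hBig hs ?_
    intro n hn
    have h1 : n ≤ s.sup id := Finset.le_sup (f := id) hn
    have h2 : s.sup id = minLargest x y := hsup
    omega
  · intro hsol
    obtain ⟨s, hs, hle⟩ := hYES π S Z k l al P u v hok hS hV hBig hk hsol
    rw [← hxy] at hs
    have h1 : minLargest x y ≤ s.sup id := Nat.sInf_le ⟨s, hs, rfl⟩
    have h2 : s.sup id ≤ π.N := Finset.sup_le fun n hn => hle n hn
    omega

end Pool.Agent.DHD
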