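import Pool.Agent.DHD.TSound

set_option autoImplicit false

/-!
# YES: a solution of the system gives a representation of the target
-/

namespace Pool.Agent.DHD

open Finset
open Pool.Agent.H44 (IsRep minLargest)

namespace YES

/-- the exponent of `p` in the denominator of `q` is at most `e` -/
def Bnd (p e : ℕ) (q : ℚ) : Prop := ∃ (z : ℤ) (m : ℕ), ¬ p ∣ m ∧ q = z / ((p ^ e * m : ℕ) : ℚ)

theorem ne_zero_of_not_dvd {p m : ℕ} (h : ¬ p ∣ m) : m ≠ 0 := by
  rintro rfl
  exact h (dvd_zero p)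

theorem Bnd.add {p e : ℕ} {q r : ℚ} (hp : p.Prime) (h1 : Bnd p e q) (h2 : Bnd p e r) :
    Bnd p e (q + r) := by
  obtain ⟨z, m, hm, rfl⟩ := h1
  obtain ⟨z', m', hm', rfl⟩ := h2
  refine ⟨z * m' + z' * m, m * m', ?_, ?_⟩
  · intro h
    rcases (Nat.Prime.dvd_mul hp).1 h with h | h
    · exact hm h
    · exact hm' h
  · have hp0 : (p : ℚ) ≠ 0 := by exact_mod_cast hp.ne_zero
    have hm0 : (m : ℚ) ≠ 0 := by exact_mod_cast ne_zero_of_not_dvd hm
    have hm0' : (m' : ℚ) ≠ 0 := by exact_mod_cast ne_zero_of_not_dvd hm'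
    push_cast
    field_simp

theorem Bnd.neg {p e : ℕ} {q : ℚ} (h1 : Bnd p e q) : Bnd p e (-q) := by
  obtain ⟨z, m, hm, rfl⟩ := h1
  refine ⟨-z, m, hm, ?_⟩
  push_cast
  ring

theorem Bnd.zero {p e : ℕ} (hp : p.Prime) : Bnd p e 0 :=
  ⟨0, 1, by intro h; exact hp.one_lt.ne' (Nat.dvd_one.1 h), by simp⟩

theorem Bnd.sum {α : Type*} {p e : ℕ} (hp : p.Prime) (s : Finset α) (f : α → ℚ)
    (h : ∀ a ∈ s, Bnd p e (f a)) : Bnd p e (∑ a ∈ s, f a) := by
  classical
  induction s using Finset.induction_on with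
  | empty => simpa using Bnd.zero hp
  | insert a s ha ih =>
    rw [Finset.sum_insert ha]
    exact Bnd.add hp (h a (Finset.mem_insert_self a s))
      (ih fun b hb => h b (Finset.mem_insert_of_mem hb))

theorem Bnd.of_div {p e : ℕ} (hp : p.Prime) (z : ℤ) (n : ℕ) (hn : n ≠ 0)
    (he : n.factorization p ≤ e) : Bnd p e ((z : ℚ) / (n : ℕ)) := by
  obtain ⟨f, m, hm, hfm⟩ := Nat.exists_eq_pow_mul_and_not_dvd hn p hp.ne_one
  have hm0 : m ≠ 0 := ne_zero_of_not_dvd hm
  have hf : n.factorization p = f := by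
    rw [hfm, Nat.factorization_mul (pow_ne_zero _ hp.ne_zero) hm0, Nat.factorization_pow]
    simp [hp.factorization_self, Nat.factorization_eq_zero_of_not_dvd hm]
  rw [hf] at he
  refine ⟨z * p ^ (e - f), m, hm, ?_⟩
  have hp0 : (p : ℚ) ≠ 0 := by exact_mod_cast hp.ne_zero
  have hm0' : (m : ℚ) ≠ 0 := by exact_mod_cast hm0
  rw [hfm]
  have : (p : ℚ) ^ e = p ^ f * p ^ (e - f) := by
    rw [← pow_add]
    congr 1
    omega
  push_cast
  rw [this]
  field_simp

theorem Bnd.den {p e : ℕ} {q : ℚ} (hp : p.Prime) (h : Bnd p e q) :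
    q.den.factorization p ≤ e := by
  obtain ⟨z, m, hm, rfl⟩ := h
  have hm0 : m ≠ 0 := ne_zero_of_not_dvd hm
  have hd : ((z : ℚ) / ((p ^ e * m : ℕ) : ℚ)).den ∣ p ^ e * m := by
    have := Rat.den_dvd z ((p ^ e * m : ℕ) : ℤ)
    rw [Rat.divInt_eq_div, Int.cast_natCast] at this
    exact Int.natCast_dvd_natCast.1 this
  have hne : p ^ e * m ≠ 0 := mul_ne_zero (pow_ne_zero _ hp.ne_zero) hm0
  have h2 := (Nat.factorization_le_iff_dvd (Rat.den_ne_zero _) hne).2 hd p
  have h3 : (p ^ e * m).factorization p = e := by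
    rw [Nat.factorization_mul (pow_ne_zero _ hp.ne_zero) hm0, Nat.factorization_pow]
    simp [hp.factorization_self, Nat.factorization_eq_zero_of_not_dvd hm]
  exact h2.trans h3.le

/-- the main denominators -/
def nt (S : BSys) (l P u v : ℕ → ℕ → ℕ) (z : ℕ → Bool) (q : ℕ × ℕ) : ℕ :=
  if z q.2 = true then P q.1 q.2 * (l q.1 (S.x q.2) * l q.1 (S.y q.2) * u q.1 q.2)
  else P q.1 q.2 * v q.1 q.2

section
variable {π : Par} {S : BSys} {Z k : ℕ} {l : ℕ → ℕ → ℕ} {al : ℕ → ℕ} {P u v : ℕ → ℕ → ℕ}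

/-- a prime above `P1` which divides a main denominator is its private prime -/
theorem eq_of_dvd_nt (hok : π.Ok) (hS : S.Ok Z) (hV : Valid π S k l al P u v) (z : ℕ → Bool)
    {i t : ℕ} (hi : i < k) (ht : t < S.m) {p : ℕ} (hp : p.Prime) (hp1 : π.P1 < p)
    (hd : p ∣ nt S l P u v z (i, t)) : p = P i t := by
  have hg := hV.gad i hi t ht
  have hsm : ∀ n, Smooth π.M n → ¬ p ∣ n := by
    intro n hn h
    have h1 := hn.2 p hp h
    have h2 := hok.M_lt
    have h3 := hok.Q_le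
    have h4 := (hV.l_prime i hi _ (hS.x_lt t ht)).2.1.trans_le
      (hV.l_prime i hi _ (hS.x_lt t ht)).2.2
    omega
  have hl : ∀ x < S.n, ¬ p ∣ l i x := by
    intro x hx h
    have h1 := Nat.le_of_dvd (hV.l_prime i hi x hx).1.pos h
    have h2 := (hV.l_prime i hi x hx).2.2
    have h3 := hok.Q_le
    omega
  have key : p ∣ P i t := by
    unfold nt at hd
    simp only at hd
    split_ifs at hd with h
    · rcases (Nat.Prime.dvd_mul hp).1 hd with h | h
      · exact h
      · rcases (Nat.Prime.dvd_mul hp).1 h with h | h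
        · rcases (Nat.Prime.dvd_mul hp).1 h with h | h
          · exact absurd h (hl _ (hS.x_lt t ht))
          · exact absurd h (hl _ (hS.y_lt t ht))
        · exact absurd h (hsm _ hg.su)
    · rcases (Nat.Prime.dvd_mul hp).1 hd with h | h
      · exact h
      · exact absurd h (hsm _ hg.sv)
  exact (Nat.prime_dvd_prime_iff_eq hp hg.prime).1 key

theorem dvd_nt (z : ℕ → Bool) (i t : ℕ) : P i t ∣ nt S l P u v z (i, t) := by
  unfold nt
  split_ifs
  · exact dvd_mul_right _ _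
  · exact dvd_mul_right _ _

theorem nt_pos (hS : S.Ok Z) (hV : Valid π S k l al P u v) (z : ℕ → Bool)
    {i t : ℕ} (hi : i < k) (ht : t < S.m) : 0 < nt S l P u v z (i, t) := by
  have hg := hV.gad i hi t ht
  have h1 := hg.prime.pos
  have h2 := (hV.l_prime i hi _ (hS.x_lt t ht)).1.pos
  have h3 := (hV.l_prime i hi _ (hS.y_lt t ht)).1.pos
  have h4 := hg.su.1
  have h5 := hg.sv.1
  unfold nt
  split_ifs <;> simp only <;> positivity

theorem nt_le (hV : Valid π S k l al P u v) (z : ℕ → Bool)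
    {i t : ℕ} (hi : i < k) (ht : t < S.m) : nt S l P u v z (i, t) ≤ π.N := by
  have hg := hV.gad i hi t ht
  unfold nt
  split_ifs
  · exact (Nat.mul_le_mul_left _ hg.lt.le).trans hg.hi
  · exact hg.hi

theorem le_nt (hV : Valid π S k l al P u v) (z : ℕ → Bool)
    {i t : ℕ} (hi : i < k) (ht : t < S.m) : π.N * (π.D - 1) ≤ π.D * nt S l P u v z (i, t) := by
  have hg := hV.gad i hi t ht
  refine hg.lo.trans (Nat.mul_le_mul_left _ ?_)
  unfold nt
  split_ifs
  · exact le_rfl
  · exact Nat.mul_le_mul_left _ hg.lt.le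

/-- bound for one main fraction -/
theorem inv_nt_le (hok : π.Ok) (hS : S.Ok Z) (hV : Valid π S k l al P u v) (z : ℕ → Bool)
    {i t : ℕ} (hi : i < k) (ht : t < S.m) :
    (1 : ℚ) / nt S l P u v z (i, t) ≤ (1 + 1 / ((π.D - 1 : ℕ) : ℚ)) / π.N := by
  have hD : 0 < π.D - 1 := by have := hok.D_pos; omega
  have hN : 0 < π.N := by
    have := hok.MM
    have h2 := hok.M_pos
    nlinarith
  have hn := nt_pos hS hV z hi ht
  have h := le_nt hV z hi ht
  have hD' : (π.D : ℚ) = ((π.D - 1 : ℕ) : ℚ) + 1 := by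
    have : π.D = (π.D - 1) + 1 := by omega
    have h2 : (π.D : ℚ) = (((π.D - 1) + 1 : ℕ) : ℚ) := congrArg _ this
    rw [h2]
    push_cast
    ring
  have hq : (π.N : ℚ) * ((π.D - 1 : ℕ) : ℚ) ≤ (((π.D - 1 : ℕ) : ℚ) + 1) *
      (nt S l P u v z (i, t) : ℚ) := by
    rw [← hD']
    exact_mod_cast h
  have hD0 : (0 : ℚ) < ((π.D - 1 : ℕ) : ℚ) := by exact_mod_cast hD
  have hN0 : (0 : ℚ) < π.N := by exact_mod_cast hN
  have hn0 : (0 : ℚ) < nt S l P u v z (i, t) := by exact_mod_cast hn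
  have e : (1 + 1 / ((π.D - 1 : ℕ) : ℚ)) / π.N =
      (((π.D - 1 : ℕ) : ℚ) + 1) / (((π.D - 1 : ℕ) : ℚ) * π.N) := by
    field_simp
  rw [e, div_le_div_iff₀ hn0 (by positivity)]
  nlinarith

theorem pw_pos (π : Par) : 0 < π.pw := by unfold Par.pw; positivity

theorem N_pos (hok : π.Ok) : 0 < π.N := by
  have := hok.MM
  have h2 := hok.M_pos
  nlinarith

theorem pw_le (hok : π.Ok) : π.pw ≤ π.N := Nat.pow_log_le_self 2 (N_pos hok).ne'

theorem N_lt (π : Par) : π.N < 2 * π.pw := by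
  have := Nat.lt_pow_succ_log_self (b := 2) (by norm_num) π.N
  unfold Par.pw
  rw [pow_succ] at this
  omega

/-- lower bound for the target -/
theorem T_lt_target (hok : π.Ok) :
    (π.T (k * S.m) : ℚ) / π.N < target π S k l al P v := by
  have hN0 : (0 : ℚ) < π.N := by exact_mod_cast N_pos hok
  have hpw : (0 : ℚ) < π.pw := by exact_mod_cast pw_pos π
  have h1 : π.T (k * S.m) * π.pw < π.B (k * S.m) * π.N := by
    unfold Par.B
    have h2 := Nat.div_add_mod (π.T (k * S.m) * π.pw) π.N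
    have h3 := Nat.mod_lt (π.T (k * S.m) * π.pw) (N_pos hok)
    nlinarith
  have h1' : (π.T (k * S.m) : ℚ) * π.pw < π.B (k * S.m) * π.N := by exact_mod_cast h1
  unfold target
  rw [div_lt_div_iff₀ hN0 hpw]
  have h4 := Int.fract_nonneg (fsum S k l al P v * π.pw)
  nlinarith

/-- upper bound for the target -/
theorem target_lt (hok : π.Ok) :
    target π S k l al P v < ((π.T (k * S.m) : ℚ) + 4) / π.N := by
  have hN0 : (0 : ℚ) < π.N := by exact_mod_cast N_pos hok
  have hpw : (0 : ℚ) < π.pw := by exact_mod_cast pw_pos π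
  have h1 : π.B (k * S.m) * π.N ≤ π.T (k * S.m) * π.pw + π.N := by
    unfold Par.B
    have h2 := Nat.div_mul_le_self (π.T (k * S.m) * π.pw) π.N
    nlinarith
  have h1' : (π.B (k * S.m) : ℚ) * π.N ≤ π.T (k * S.m) * π.pw + π.N := by exact_mod_cast h1
  have h5 : (π.N : ℚ) < 2 * π.pw := by exact_mod_cast N_lt π
  unfold target
  rw [div_lt_div_iff₀ hpw hN0]
  have h4 := Int.fract_lt_one (fsum S k l al P v * π.pw)
  nlinarith

/-- the sum of one column -/
theorem col_sum (hS : S.Ok Z) {t : ℕ} (ht : t < S.m) (f : ℕ → ℚ) :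
    ∑ x ∈ range S.n, f x * (S.coef t x : ℚ) = f (S.x t) * S.a t + f (S.y t) * S.b t := by
  unfold BSys.coef
  have h1 : ∑ x ∈ range S.n, f x * (((if S.x t = x then S.a t else 0) +
      (if S.y t = x then S.b t else 0) : ℤ) : ℚ) =
      ∑ x ∈ range S.n, ((if S.x t = x then f x * S.a t else 0) +
        (if S.y t = x then f x * S.b t else 0)) := by
    refine Finset.sum_congr rfl fun x _ => ?_
    split_ifs <;> push_cast <;> ring
  rw [h1, Finset.sum_add_distrib, Finset.sum_ite_eq, Finset.sum_ite_eq,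
    if_pos (Finset.mem_range.2 (hS.x_lt t ht)), if_pos (Finset.mem_range.2 (hS.y_lt t ht))]

/-- the parts at the primes of the vertices -/
theorem vertex_sum (hS : S.Ok Z) (z : ℕ → Bool)
    (hz : ∀ v < S.n, ∑ t ∈ range S.m, (if z t = true then S.coef t v else 0) = (S.c v : ℤ))
    (al0 : ℚ) (f : ℕ → ℚ) :
    ∑ t ∈ range S.m, (if z t = true then S.a t * al0 / f (S.x t) + S.b t * al0 / f (S.y t)
      else 0) = ∑ x ∈ range S.n, (S.c x * al0) / f x := by
  have h1 : ∀ x ∈ range S.n, (S.c x * al0 : ℚ) / f x =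
      ∑ t ∈ range S.m, (if z t = true then (al0 / f x) * (S.coef t x : ℚ) else 0) := by
    intro x hx
    have h2 := hz x (Finset.mem_range.1 hx)
    have h3 : (S.c x : ℚ) = ∑ t ∈ range S.m, (if z t = true then (S.coef t x : ℚ) else 0) := by
      have h4 : ((S.c x : ℤ) : ℚ) =
          ((∑ t ∈ range S.m, (if z t = true then S.coef t x else 0) : ℤ) : ℚ) := by rw [h2]
      rw [Int.cast_natCast] at h4
      rw [h4]
      push_cast
      rfl
    rw [h3, Finset.sum_mul, Finset.sum_div]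
    refine Finset.sum_congr rfl fun t _ => ?_
    split_ifs <;> ring
  rw [Finset.sum_congr rfl h1, Finset.sum_comm]
  refine Finset.sum_congr rfl fun t ht => ?_
  by_cases hzt : z t = true
  · simp only [hzt, if_true]
    rw [col_sum hS (Finset.mem_range.1 ht) (fun x => al0 / f x)]
    ring
  · simp [hzt]

/-- the remainder after subtracting the main fractions -/
theorem remainder (hG : T_GADQ) (hok : π.Ok) (hS : S.Ok Z) (hV : Valid π S k l al P u v)
    (z : ℕ → Bool)
    (hz : ∀ v < S.n, ∑ t ∈ range S.m, (if z t = true then S.coef t v else 0) = (S.c v : ℤ)) :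
    ∃ w : ℕ → ℕ → ℤ, target π S k l al P v -
      ∑ i ∈ range k, ∑ t ∈ range S.m, (1 : ℚ) / nt S l P u v z (i, t) =
      (((π.B (k * S.m) : ℤ) - ⌊fsum S k l al P v * π.pw⌋ : ℤ) : ℚ) / (π.pw : ℕ) +
      -∑ i ∈ range k, ∑ t ∈ range S.m,
        (if z t = true then (w i t : ℚ) / ((u i t * v i t : ℕ) : ℚ) else 0) := by
  have hw : ∀ i t, ∃ w : ℤ, i < k → t < S.m →
      (1 : ℚ) / (P i t * (l i (S.x t) * l i (S.y t) * u i t) : ℕ) - 1 / (P i t * v i t : ℕ) =
      (S.a t * al i : ℤ) / l i (S.x t) + (S.b t * al i : ℤ) / l i (S.y t) +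
        w / (u i t * v i t : ℕ) := by
    intro i t
    by_cases hi : i < k
    · by_cases ht : t < S.m
      · have hx := hV.l_prime i hi _ (hS.x_lt t ht)
        have hy := hV.l_prime i hi _ (hS.y_lt t ht)
        have hne : l i (S.x t) ≠ l i (S.y t) := by
          intro h
          exact hS.ne t ht (hV.l_inj i hi _ (hS.x_lt t ht) i hi _ (hS.y_lt t ht) h).2
        obtain ⟨w, hw⟩ := hG π (l i (S.x t)) (l i (S.y t)) (S.a t * al i) (S.b t * al i)
          (P i t) (u i t) (v i t) hok hx.1 hy.1 hne hx.2.1 hx.2.2 hy.2.1 hy.2.2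
          (hV.gad i hi t ht)
        exact ⟨w, fun _ _ => hw⟩
      · exact ⟨0, fun _ h => absurd h ht⟩
    · exact ⟨0, fun h => absurd h hi⟩
  choose w hw using hw
  refine ⟨w, ?_⟩
  have hpw : (π.pw : ℚ) ≠ 0 := by exact_mod_cast (pw_pos π).ne'
  have h1 : target π S k l al P v = fsum S k l al P v +
      (((π.B (k * S.m) : ℤ) - ⌊fsum S k l al P v * π.pw⌋ : ℤ) : ℚ) / (π.pw : ℕ) := by
    unfold target
    rw [← Int.self_sub_floor]
    push_cast
    field_simp
    ring
  rw [h1]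
  have h2 : fsum S k l al P v - ∑ i ∈ range k, ∑ t ∈ range S.m,
      (1 : ℚ) / nt S l P u v z (i, t) = -∑ i ∈ range k, ∑ t ∈ range S.m,
        (if z t = true then (w i t : ℚ) / ((u i t * v i t : ℕ) : ℚ) else 0) := by
    unfold fsum
    rw [← Finset.sum_sub_distrib, ← Finset.sum_neg_distrib]
    refine Finset.sum_congr rfl fun i hi => ?_
    have hi' := Finset.mem_range.1 hi
    have h3 := vertex_sum hS z hz (al i : ℚ) (fun x => (l i x : ℚ))
    rw [← h3]
    have h4 : ∀ t ∈ range S.m, (1 : ℚ) / nt S l P u v z (i, t) = 1 / (P i t * v i t) +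
        ((if z t = true then S.a t * al i / (l i (S.x t) : ℚ) + S.b t * al i / (l i (S.y t) : ℚ)
          else 0) + (if z t = true then (w i t : ℚ) / ((u i t * v i t : ℕ) : ℚ) else 0)) := by
      intro t ht
      have ht' := Finset.mem_range.1 ht
      unfold nt
      by_cases hzt : z t = true
      · simp only [hzt, if_true]
        have := hw i t hi' ht'
        push_cast at this ⊢
        linarith
      · simp [hzt]
    rw [Finset.sum_congr rfl h4, Finset.sum_add_distrib, Finset.sum_add_distrib]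
    ring
  linarith

theorem fact_pw (p : ℕ) (hp : p.Prime) (h2 : p ≠ 2) : π.pw.factorization p = 0 := by
  refine Nat.factorization_eq_zero_of_not_dvd fun h => h2 ?_
  unfold Par.pw at h
  exact (Nat.prime_dvd_prime_iff_eq hp Nat.prime_two).1 (hp.dvd_of_dvd_pow h)

theorem fact_pw_two : π.pw.factorization 2 = Nat.log 2 π.N := by
  unfold Par.pw
  rw [Nat.factorization_pow]
  simp [Nat.prime_two.factorization_self]

/-- the exponents in the denominator of the remainder -/
theorem rem_bnd {w : ℕ → ℕ → ℤ} {b : ℤ} {p e : ℕ} (hp : p.Prime) (z : ℕ → Bool)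
    (hpw : π.pw.factorization p ≤ e)
    (huv : ∀ i < k, ∀ t < S.m, u i t * v i t ≠ 0 ∧ (u i t * v i t).factorization p ≤ e) :
    Bnd p e ((b : ℚ) / (π.pw : ℕ) + -∑ i ∈ range k, ∑ t ∈ range S.m,
        (if z t = true then (w i t : ℚ) / ((u i t * v i t : ℕ) : ℚ) else 0)) := by
  refine Bnd.add hp (Bnd.of_div hp b _ (pw_pos π).ne' hpw) (Bnd.neg ?_)
  refine Bnd.sum hp _ _ fun i hi => Bnd.sum hp _ _ fun t ht => ?_
  split_ifs
  · have := huv i (Finset.mem_range.1 hi) t (Finset.mem_range.1 ht)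
    exact Bnd.of_div hp _ _ this.1 this.2
  · exact Bnd.zero hp

/-- the sum of the main fractions is not too large -/
theorem main_sum_le (hok : π.Ok) (hS : S.Ok Z) (hV : Valid π S k l al P u v) (z : ℕ → Bool) :
    ∑ i ∈ range k, ∑ t ∈ range S.m, (1 : ℚ) / nt S l P u v z (i, t) ≤
      ((k * S.m : ℕ) + ((k * S.m / (π.D - 1) + 1 : ℕ) : ℚ)) / π.N := by
  have hD : 0 < π.D - 1 := by have := hok.D_pos; omega
  have hD0 : (0 : ℚ) < ((π.D - 1 : ℕ) : ℚ) := by exact_mod_cast hD
  have hN0 : (0 : ℚ) < π.N := by exact_mod_cast N_pos hok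
  have h1 : ∑ i ∈ range k, ∑ t ∈ range S.m, (1 : ℚ) / nt S l P u v z (i, t) ≤
      ∑ i ∈ range k, ∑ t ∈ range S.m, (1 + 1 / ((π.D - 1 : ℕ) : ℚ)) / π.N := by
    refine Finset.sum_le_sum fun i hi => Finset.sum_le_sum fun t ht => ?_
    exact inv_nt_le hok hS hV z (Finset.mem_range.1 hi) (Finset.mem_range.1 ht)
  refine h1.trans ?_
  simp only [Finset.sum_const, Finset.card_range, nsmul_eq_mul]
  rw [mul_div_assoc', mul_div_assoc']
  refine div_le_div_of_nonneg_right ?_ hN0.le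
  have h2 : (k * S.m : ℕ) < (k * S.m / (π.D - 1) + 1) * (π.D - 1) := by
    have h3 := Nat.div_add_mod (k * S.m) (π.D - 1)
    have h4 := Nat.mod_lt (k * S.m) hD
    nlinarith
  have h2' : ((k * S.m : ℕ) : ℚ) ≤ ((k * S.m / (π.D - 1) + 1 : ℕ) : ℚ) * ((π.D - 1 : ℕ) : ℚ) := by
    exact_mod_cast h2.le
  have h5 : ((k * S.m : ℕ) : ℚ) / ((π.D - 1 : ℕ) : ℚ) ≤ ((k * S.m / (π.D - 1) + 1 : ℕ) : ℚ) := by
    rw [div_le_iff₀ hD0]
    exact h2'
  have h6 : (k : ℚ) * (S.m * (1 + 1 / ((π.D - 1 : ℕ) : ℚ))) =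
      ((k * S.m : ℕ) : ℚ) + ((k * S.m : ℕ) : ℚ) / ((π.D - 1 : ℕ) : ℚ) := by
    push_cast
    ring
  rw [h6]
  linarith

end

end YES

theorem tYES (hC : T_CLEAR) (hG : T_GADQ) : T_YES := by
  intro π S Z k l al P u v hok hS hV hBig hk hsol
  obtain ⟨z, hz⟩ := hsol
  have hN := YES.N_pos hok
  have hN0 : (0 : ℚ) < π.N := by exact_mod_cast hN
  obtain ⟨w, hR⟩ := YES.remainder hG hok hS hV z hz
  set R : ℚ := target π S k l al P v -
      ∑ i ∈ range k, ∑ t ∈ range S.m, (1 : ℚ) / YES.nt S l P u v z (i, t) with hRdef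
  have hMN : π.M ≤ π.N := by
    have h1 := hok.MM
    have h2 := hok.M_pos
    nlinarith
  -- facts on `u v`
  have huv0 : ∀ i < k, ∀ t < S.m, u i t * v i t ≠ 0 := by
    intro i hi t ht
    have hg := hV.gad i hi t ht
    exact mul_ne_zero hg.su.1.ne' hg.sv.1.ne'
  have huvP : ∀ i < k, ∀ t < S.m, ∀ p, p.Prime → p ∣ u i t * v i t → p ≤ π.M := by
    intro i hi t ht p hp hd
    have hg := hV.gad i hi t ht
    rcases (Nat.Prime.dvd_mul hp).1 hd with h | h
    · exact hg.su.2 p hp h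
    · exact hg.sv.2 p hp h
  -- the denominator
  have hden1 : ∀ p, p.Prime → p ∣ R.den → p ≤ π.M := by
    intro p hp hd
    by_contra hlt
    push Not at hlt
    have hp2 : p ≠ 2 := by have := hok.M_pos; omega
    have h1 : YES.Bnd p 0 R := by
      rw [hR]
      refine YES.rem_bnd hp z (YES.fact_pw p hp hp2).le fun i hi t ht => ⟨huv0 i hi t ht, ?_⟩
      refine (Nat.factorization_eq_zero_of_not_dvd fun h => ?_).le
      exact absurd (huvP i hi t ht p hp h) (by omega)
    have h2 := h1.den hp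
    have h3 : 0 < R.den.factorization p := hp.factorization_pos_of_dvd R.den_ne_zero hd
    omega
  have hfac : ∀ p, p.Prime → p ≤ π.M → ∀ i < k, ∀ t < S.m,
      p ^ ((u i t * v i t).factorization p) * p ≤ π.N := by
    intro p hp hpM i hi t ht
    have h1 : p ^ ((u i t * v i t).factorization p) ≤ u i t * v i t :=
      Nat.le_of_dvd (Nat.pos_of_ne_zero (huv0 i hi t ht)) (Nat.ordProj_dvd _ _)
    calc p ^ ((u i t * v i t).factorization p) * p ≤ (u i t * v i t) * π.M :=
          Nat.mul_le_mul h1 hpM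
      _ = π.M * (u i t * v i t) := Nat.mul_comm _ _
      _ ≤ π.N := (hV.gad i hi t ht).small
  have hden2 : ∀ p, p.Prime → p ∣ R.den → p ≠ 2 →
      p ^ (R.den.factorization p) * p ≤ π.N := by
    intro p hp hd hp2
    have hpM := hden1 p hp hd
    have hlog : 1 ≤ Nat.log p π.N := Nat.log_pos hp.one_lt (hpM.trans hMN)
    have h1 : YES.Bnd p (Nat.log p π.N - 1) R := by
      rw [hR]
      refine YES.rem_bnd hp z ?_ fun i hi t ht => ⟨huv0 i hi t ht, ?_⟩
      · rw [YES.fact_pw p hp hp2]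
        exact Nat.zero_le _
      · have h2 := hfac p hp hpM i hi t ht
        rw [← pow_succ] at h2
        have h3 := (Nat.le_log_iff_pow_le hp.one_lt hN.ne').2 h2
        omega
    have h2 := h1.den hp
    calc p ^ (R.den.factorization p) * p ≤ p ^ (Nat.log p π.N - 1) * p :=
          Nat.mul_le_mul_right _ (Nat.pow_le_pow_right hp.pos h2)
      _ = p ^ (Nat.log p π.N) := by rw [← pow_succ]; congr 1; omega
      _ ≤ π.N := Nat.pow_log_le_self p hN.ne'
  have hden3 : 2 ^ (R.den.factorization 2) ≤ π.N := by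
    have h1 : YES.Bnd 2 (Nat.log 2 π.N) R := by
      rw [hR]
      refine YES.rem_bnd Nat.prime_two z YES.fact_pw_two.le fun i hi t ht => ⟨huv0 i hi t ht, ?_⟩
      have h2 := hfac 2 Nat.prime_two hok.M_pos i hi t ht
      have h3 : 2 ^ ((u i t * v i t).factorization 2) ≤ π.N := by
        refine le_trans ?_ h2
        exact Nat.le_mul_of_pos_right _ (by norm_num)
      exact (Nat.le_log_iff_pow_le (by norm_num) hN.ne').2 h3
    have h2 := h1.den Nat.prime_two
    exact (Nat.pow_le_pow_right (by norm_num) h2).trans (Nat.pow_log_le_self 2 hN.ne')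
  -- the size
  have hsum := YES.main_sum_le hok hS hV z (u := u)
  have hT := YES.T_lt_target (k := k) (S := S) (l := l) (al := al) (P := P) (v := v) hok
  have hT2 := YES.target_lt (k := k) (S := S) (l := l) (al := al) (P := P) (v := v) hok
  have hRlow : (32 * (π.M * (Nat.log 2 π.N + 1)) : ℚ) / π.N ≤ R := by
    have h1 : (π.T (k * S.m) : ℚ) / π.N =
        ((k * S.m : ℕ) + ((k * S.m / (π.D - 1) + 1 : ℕ) : ℚ)) / π.N +
        (32 * (π.M * (Nat.log 2 π.N + 1)) : ℚ) / π.N := by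
      rw [← add_div]
      congr 1
      unfold Par.T Par.K1
      push_cast
      ring
    rw [hRdef]
    linarith
  have hRhigh : R < 1 := by
    have h1 : (0 : ℚ) ≤ ∑ i ∈ range k, ∑ t ∈ range S.m,
        (1 : ℚ) / YES.nt S l P u v z (i, t) :=
      Finset.sum_nonneg fun i _ => Finset.sum_nonneg fun t _ => by positivity
    have h2 : ((π.T (k * S.m) : ℚ) + 4) / π.N ≤ 1 := by
      rw [div_le_one hN0]
      exact_mod_cast hBig.2
    rw [hRdef]
    linarith
  obtain ⟨s1, hs1, hs1R⟩ := hC π.M π.N R hok.M_pos hok.MM hRlow hRhigh hden1 hden2 hden3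
  -- the main terms
  set I : Finset (ℕ × ℕ) := range k ×ˢ range S.m with hI
  have hinj : Set.InjOn (YES.nt S l P u v z) I := by
    rintro ⟨i, t⟩ h1 ⟨i', t'⟩ h2 he
    simp only [hI, Finset.coe_product, Finset.coe_range, Set.mem_prod, Set.mem_Iio] at h1 h2
    have hg := hV.gad i h1.1 t h1.2
    have hd : P i t ∣ YES.nt S l P u v z (i', t') := he ▸ YES.dvd_nt z i t
    have h3 := YES.eq_of_dvd_nt hok hS hV z h2.1 h2.2 hg.prime hg.P1 hd
    have h4 := hV.P_inj i h1.1 t h1.2 i' h2.1 t' h2.2 h3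
    exact Prod.ext h4.1 h4.2
  have hs0 : ∑ n ∈ I.image (YES.nt S l P u v z), (1 : ℚ) / n =
      ∑ i ∈ range k, ∑ t ∈ range S.m, (1 : ℚ) / YES.nt S l P u v z (i, t) := by
    rw [Finset.sum_image hinj, hI, Finset.sum_product]
  have hdisj : Disjoint (I.image (YES.nt S l P u v z)) s1 := by
    rw [Finset.disjoint_left]
    intro n hn hn1
    obtain ⟨⟨i, t⟩, hit, rfl⟩ := Finset.mem_image.1 hn
    simp only [hI, Finset.mem_product, Finset.mem_range] at hit
    have hg := hV.gad i hit.1 t hit.2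
    have h1 := (hs1 _ hn1).1.2 _ hg.prime (YES.dvd_nt z i t)
    have h2 := hg.P1
    have h3 := hok.Q_le
    have h4 := hok.M_lt
    have h5 := (hV.l_prime i hit.1 _ (hS.x_lt t hit.2)).2
    omega
  refine ⟨I.image (YES.nt S l P u v z) ∪ s1, ⟨?_, ?_⟩, ?_⟩
  · intro n hn
    rcases Finset.mem_union.1 hn with h | h
    · obtain ⟨⟨i, t⟩, hit, rfl⟩ := Finset.mem_image.1 h
      simp only [hI, Finset.mem_product, Finset.mem_range] at hit
      exact YES.nt_pos hS hV z hit.1 hit.2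
    · exact (hs1 n h).1.1
  · rw [Finset.sum_union hdisj, hs0, hs1R, hRdef]
    ring
  · intro n hn
    rcases Finset.mem_union.1 hn with h | h
    · obtain ⟨⟨i, t⟩, hit, rfl⟩ := Finset.mem_image.1 h
      simp only [hI, Finset.mem_product, Finset.mem_range] at hit
      exact YES.nt_le hV z hit.1 hit.2
    · exact (hs1 n h).2

end Pool.Agent.DHD
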