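import Pool.Agent.DHD.INT
import Pool.Agent.DHD.RES
import Pool.Agent.DHD.CLEAR
import Pool.Agent.DHD.GADQ
import Pool.Agent.DHD.YES
import Pool.Agent.DHD.CHARGE
import Pool.Agent.DHD.LOC
import Pool.Agent.DHD.CLEAN
import Pool.Agent.DHD.NO
import Pool.Agent.DHD.SOUND

set_option autoImplicit false

/-!
# Soundness of the reduction
-/

namespace Pool.Agent.DHD

/-- the reduction is correct -/
theorem sound : T_SOUND :=
  tSOUND (tYES (tCLEAR tRES) tGADQ) (tNO (tCLEAN tINT tCHARGE (tLOC tINT)) (tLOC tINT) tINT)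
    (tLOC tINT)

end Pool.Agent.DHD
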