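import Pool.Agent.DHD.TCnf

set_option autoImplicit false

/-!
# CNF: the system of a formula is solvable if and only if the formula is satisfiable
-/

namespace Pool.Agent.DHD

open Finset
open Pool.Agent.SLN (Lit Satisfiable)

namespace CNF

/-- the coefficient of a column at a vertex -/
def cf (c : Col) (v : ℕ) : ℤ :=
  (if c.1.1 = v then c.2.1 else 0) + (if c.1.2 = v then c.2.2 else 0)

/-- the vectors which are sums of some of the columns -/
def Ach : List Col → (ℕ → ℤ) → Prop
  | [], w => ∀ v, w v = 0
  | c :: L, w => ∃ b : Bool, ∃ w' : ℕ → ℤ, Ach L w' ∧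
      ∀ v, w v = (if b = true then cf c v else 0) + w' v

theorem ach_iff (L : List Col) (w : ℕ → ℤ) : Ach L w ↔ ∃ z : ℕ → Bool, ∀ v,
    w v = ∑ t ∈ range L.length, (if z t = true then cf (L.getD t ((0, 0), (0, 0))) v else 0) := by
  induction L generalizing w with
  | nil => simp [Ach]
  | cons c L ih =>
    simp only [Ach, List.length_cons]
    constructor
    · rintro ⟨b, w', hw', h⟩
      obtain ⟨z, hz⟩ := (ih w').1 hw'
      refine ⟨fun t => Nat.casesOn t b z, ?_⟩
      intro v
      rw [sum_range_succ', h v, hz v, add_comm]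
      rfl
    · rintro ⟨z, hz⟩
      refine ⟨z 0, fun v => ∑ t ∈ range L.length,
        (if z (t + 1) = true then cf (L.getD t ((0, 0), (0, 0))) v else 0), ?_, ?_⟩
      · exact (ih _).2 ⟨fun t => z (t + 1), fun v => rfl⟩
      · intro v
        rw [hz v, sum_range_succ', add_comm]
        rfl

theorem ach_congr {L : List Col} {w w' : ℕ → ℤ} (h : Ach L w) (e : ∀ v, w' v = w v) :
    Ach L w' := by
  have : w' = w := funext e
  rwa [this]

theorem ach_append (L1 L2 : List Col) (w : ℕ → ℤ) : Ach (L1 ++ L2) w ↔
    ∃ w1 w2, Ach L1 w1 ∧ Ach L2 w2 ∧ ∀ v, w v = w1 v + w2 v := by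
  induction L1 generalizing w with
  | nil =>
    constructor
    · intro h
      exact ⟨fun _ => 0, w, fun _ => rfl, h, fun v => (zero_add _).symm⟩
    · rintro ⟨w1, w2, h1, h2, h⟩
      exact ach_congr h2 (fun v => by rw [h v, h1 v, zero_add])
  | cons c L ih =>
    constructor
    · rintro ⟨b, w', hw', h⟩
      obtain ⟨w1, w2, h1, h2, h3⟩ := (ih w').1 hw'
      refine ⟨fun v => (if b = true then cf c v else 0) + w1 v, w2, ⟨b, w1, h1, fun v => rfl⟩,
        h2, ?_⟩
      intro v
      rw [h v, h3 v, add_assoc]
    · rintro ⟨w1, w2, ⟨b, w', hw', h⟩, h2, h3⟩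
      refine ⟨b, fun v => w' v + w2 v, (ih _).2 ⟨w', w2, hw', h2, fun v => rfl⟩, ?_⟩
      intro v
      rw [h3 v, h v, add_assoc]

theorem ach_flatMap_of {α : Type} (l : List α) (G : α → List Col) (W : α → ℕ → ℤ)
    (h : ∀ x ∈ l, Ach (G x) (W x)) : Ach (l.flatMap G) (fun v => (l.map (fun x => W x v)).sum) := by
  induction l with
  | nil => intro v; rfl
  | cons x l ih =>
    rw [List.flatMap_cons, ach_append]
    exact ⟨W x, fun v => (l.map (fun x => W x v)).sum, h x List.mem_cons_self,
      ih (fun y hy => h y (List.mem_cons_of_mem _ hy)), fun v => by rw [List.map_cons, List.sum_cons]⟩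

theorem ach_flatMap {α : Type} (l : List α) (G : α → List Col) (w : ℕ → ℤ)
    (h : Ach (l.flatMap G) w) : ∃ W : ℕ → ℕ → ℤ, (∀ i (hi : i < l.length), Ach (G l[i]) (W i)) ∧
      ∀ v, w v = ∑ i ∈ range l.length, W i v := by
  induction l generalizing w with
  | nil => exact ⟨fun _ _ => 0, fun i hi => absurd hi (Nat.not_lt_zero i), fun v => h v⟩
  | cons x l ih =>
    rw [List.flatMap_cons, ach_append] at h
    obtain ⟨w1, w2, h1, h2, h3⟩ := h
    obtain ⟨W, hW, hs⟩ := ih w2 h2
    refine ⟨fun i => Nat.casesOn i w1 W, ?_, ?_⟩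
    · intro i hi
      cases i with
      | zero => exact h1
      | succ i => exact hW i (Nat.lt_of_succ_lt_succ hi)
    · intro v
      rw [List.length_cons, sum_range_succ', h3 v, hs v, add_comm]
      rfl

theorem ach_pair (c1 c2 : Col) (w : ℕ → ℤ) (h : Ach [c1, c2] w) : ∃ a b : Bool, ∀ v,
    w v = (if a = true then cf c1 v else 0) + (if b = true then cf c2 v else 0) := by
  obtain ⟨a, w', ⟨b, w'', h'', h'⟩, h⟩ := h
  exact ⟨a, b, fun v => by rw [h v, h' v, h'' v, add_zero]⟩

theorem ach_pair_of (c1 c2 : Col) (a b : Bool) : Ach [c1, c2] (fun v =>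
    (if a = true then cf c1 v else 0) + (if b = true then cf c2 v else 0)) :=
  ⟨a, fun v => (if b = true then cf c2 v else 0), ⟨b, fun _ => 0, fun _ => rfl,
    fun v => (add_zero _).symm⟩, fun v => rfl⟩

theorem ach_const {α : Type} (l : List α) (c : Col) (w : ℕ → ℤ) (h : Ach (l.map fun _ => c) w) :
    ∃ s : ℕ, s ≤ l.length ∧ ∀ v, w v = s * cf c v := by
  induction l generalizing w with
  | nil => exact ⟨0, le_rfl, fun v => by rw [h v]; simp⟩
  | cons _ l ih =>
    obtain ⟨b, w', hw', h⟩ := h
    obtain ⟨s, hs, hw⟩ := ih w' hw'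
    cases b with
    | false =>
      refine ⟨s, hs.trans (Nat.le_succ _), fun v => ?_⟩
      rw [h v, hw v]
      simp
    | true =>
      refine ⟨s + 1, Nat.succ_le_succ hs, fun v => ?_⟩
      rw [h v, hw v]
      push_cast
      simp
      ring

theorem ach_const_of {α : Type} (l : List α) (c : Col) (s : ℕ) (hs : s ≤ l.length) :
    Ach (l.map fun _ => c) (fun v => s * cf c v) := by
  induction l generalizing s with
  | nil =>
    have : s = 0 := Nat.le_zero.1 hs
    subst this
    intro v
    simp
  | cons x l ih =>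
    cases s with
    | zero => exact ⟨false, _, ih 0 (Nat.zero_le _), fun v => by simp⟩
    | succ s =>
      refine ⟨true, _, ih s (Nat.le_of_succ_le_succ hs), fun v => ?_⟩
      push_cast
      simp
      ring

theorem sum_getD {α : Type} (l : List α) (F : α → ℤ) (W : ℕ → ℤ)
    (h : ∀ i (hi : i < l.length), W i = F l[i]) :
    ∑ i ∈ range l.length, W i = (l.map F).sum := by
  induction l generalizing W with
  | nil => simp
  | cons x l ih =>
    rw [List.length_cons, sum_range_succ', List.map_cons, List.sum_cons, add_comm,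
      ih (fun i => W (i + 1)) (fun i hi => h (i + 1) (Nat.succ_lt_succ hi)),
      h 0 (Nat.succ_pos _)]
    rfl

theorem solvable_iff (φ : List (List Lit)) : (sysOf φ).sys.Solvable ↔
    ∃ w, Ach (colsOf φ) w ∧ ∀ v < 2 * (occs φ).length + 2 * φ.length,
      w v = ((((occs φ).map (fun _ => 0) ++ (occs φ).map (fun _ => 0) ++ φ.map cstOf ++
        φ.map cstOf).getD v 0 : ℕ) : ℤ) := by
  constructor
  · rintro ⟨z, hz⟩
    exact ⟨_, (ach_iff _ _).2 ⟨z, fun v => rfl⟩, hz⟩
  · rintro ⟨w, hw, h⟩
    obtain ⟨z, hz⟩ := (ach_iff _ _).1 hw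
    refine ⟨z, fun v hv => ?_⟩
    exact (hz v).symm.trans (h v hv)

/-! ## occurrences -/

variable (φ : List (List Lit))

theorem occs_fst (o : ℕ × Lit) (ho : o ∈ occs φ) : o.1 < φ.length := by
  rw [occs, List.mem_flatMap] at ho
  obtain ⟨p, hp, ho⟩ := ho
  rw [List.mem_map] at ho
  obtain ⟨l, hl, rfl⟩ := ho
  have := (List.of_mem_zip hp).1
  exact List.mem_range.1 this

theorem vidx_lt (o : ℕ × Lit) (ho : o ∈ occs φ) : vidx φ o.2.2 < (occs φ).length := by
  rw [vidx, List.findIdx_lt_length]
  exact ⟨o, ho, by simp⟩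

theorem vidx_name (w : List Bool) (h : vidx φ w < (occs φ).length) :
    ((occs φ)[vidx φ w]'h).2.2 = w := by
  have h1 := List.findIdx_getElem (w := h)
  exact of_decide_eq_true h1

/-- the occurrences of a variable -/
theorem vidx_eq_iff {i : ℕ} (hi : i < (occs φ).length) (hv : vidx φ ((occs φ)[i]'hi).2.2 = i)
    (w : List Bool) (hw : vidx φ w < (occs φ).length) :
    vidx φ w = i ↔ w = ((occs φ)[i]'hi).2.2 := by
  constructor
  · intro h
    subst h
    exact (vidx_name φ w hw).symm
  · intro h
    rw [h, hv]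

/-- sums over the occurrences in one clause -/
theorem sum_clause (g : Lit → ℤ) (j : ℕ) (hj : j < φ.length) :
    ((occs φ).map (fun o => if o.1 = j then g o.2 else 0)).sum = ((φ[j]'hj).map g).sum := by
  have h1 : ((occs φ).map (fun o => if o.1 = j then g o.2 else 0)).sum
      = (((List.range φ.length).zip φ).map
          (fun p => if p.1 = j then (p.2.map g).sum else 0)).sum := by
    rw [occs, List.map_flatMap]
    induction (List.range φ.length).zip φ with
    | nil => rfl
    | cons p l ih =>
      rw [List.flatMap_cons, List.sum_append, ih, List.map_cons, List.sum_cons]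
      congr 1
      rw [List.map_map]
      by_cases h : p.1 = j
      · rw [if_pos h]
        congr 1
        apply List.map_congr_left
        intro l _
        simp [h]
      · rw [if_neg h]
        apply List.sum_eq_zero
        intro x hx
        rw [List.mem_map] at hx
        obtain ⟨l, _, rfl⟩ := hx
        simp [h]
  rw [h1]
  have hlen : ((List.range φ.length).zip φ).length = φ.length := by simp
  have h2 := sum_getD ((List.range φ.length).zip φ)
    (fun p => if p.1 = j then (p.2.map g).sum else 0)
    (fun i => if i = j then ((φ[j]'hj).map g).sum else 0) (by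
      intro i hi
      simp only [List.getElem_zip, List.getElem_range]
      by_cases h : i = j
      · subst h
        simp
      · simp [h])
  rw [← h2, hlen, sum_ite_eq' (range φ.length) j, if_pos (mem_range.2 hj)]

/-- the number of true literals -/
def ntrue (τ : List Bool → Bool) (c : List Lit) : ℕ := c.countP fun l => decide (τ l.2 = l.1)

theorem sum_lits (τ : List Bool → Bool) (c : List Lit) :
    (c.map (fun l : Lit => if τ l.2 = true then (if l.1 = true then (1 : ℤ) else -1) else 0)).sum
      = (ntrue τ c : ℤ) - (c.countP fun l => !l.1 : ℕ) := by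
  induction c with
  | nil => rfl
  | cons l c ih =>
    rw [List.map_cons, List.sum_cons, ih, ntrue, ntrue, List.countP_cons, List.countP_cons]
    rcases l with ⟨b, w⟩
    cases b <;> cases hτ : τ w <;> simp [hτ] <;> ring

theorem neg_le (c : List Lit) : (c.countP fun l => !l.1) ≤ max c.length 1 :=
  List.countP_le_length.trans (le_max_left _ _)

theorem cst_cast (c : List Lit) : ((cstOf c : ℕ) : ℤ) = (max c.length 1 : ℕ)
    - (c.countP fun l => !l.1 : ℕ) := by
  rw [cstOf, Nat.cast_sub (neg_le c)]

/-! ## the constants -/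

/-- the list of constants -/
def csts : List ℕ := (occs φ).map (fun _ => 0) ++ (occs φ).map (fun _ => 0) ++ φ.map cstOf ++
  φ.map cstOf

theorem csts_low {v : ℕ} (h : v < 2 * (occs φ).length) : (csts φ).getD v 0 = 0 := by
  rw [csts, List.append_assoc, List.getD_eq_getElem?_getD, List.getElem?_append_left
    (by simp; omega), List.getElem?_append]
  split
  · simp
  · simp

theorem csts_mid {j : ℕ} (h : j < φ.length) :
    (csts φ).getD (2 * (occs φ).length + j) 0 = cstOf (φ[j]'h) := by
  rw [csts, List.append_assoc, List.getD_eq_getElem?_getD, List.getElem?_append_right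
    (by simp; omega), List.getElem?_append_left (by simp; omega)]
  have e : 2 * (occs φ).length + j - ((occs φ).map (fun _ => 0) ++ (occs φ).map
    (fun _ => 0)).length = j := by simp; omega
  rw [e]
  simp [h]

theorem csts_high {j : ℕ} (h : j < φ.length) :
    (csts φ).getD (2 * (occs φ).length + φ.length + j) 0 = cstOf (φ[j]'h) := by
  rw [csts, List.getD_eq_getElem?_getD, List.getElem?_append_right
    (by simp; omega)]
  have e : 2 * (occs φ).length + φ.length + j - ((occs φ).map (fun _ => 0) ++ (occs φ).map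
    (fun _ => 0) ++ φ.map cstOf).length = j := by simp; omega
  rw [e]
  simp [h]

/-! ## the columns -/

def cA (o : ℕ × Lit) : Col :=
  ((vidx φ o.2.2, 2 * (occs φ).length + o.1), ((1 : ℤ), if o.2.1 then (1 : ℤ) else -1))

def cB (o : ℕ × Lit) : Col :=
  (((occs φ).length + vidx φ o.2.2, 2 * (occs φ).length + φ.length + o.1),
      ((1 : ℤ), if o.2.1 then (1 : ℤ) else -1))

def cV (i : ℕ) (w : List Bool) : Col :=
  ((i, (occs φ).length + i), (-(vcnt φ w : ℤ), -(vcnt φ w : ℤ)))

def cS (j : ℕ) : Col :=
  ((2 * (occs φ).length + j, 2 * (occs φ).length + φ.length + j), ((1 : ℤ), (1 : ℤ)))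

theorem cols_eq : colsOf φ = ((occs φ).flatMap (fun o => [cA φ o, cB φ o]) ++
    ((List.range (occs φ).length).zip (occs φ)).flatMap (fun p =>
      if vidx φ p.2.2.2 = p.1 then [cV φ p.1 p.2.2.2] else [])) ++
    ((List.range φ.length).zip φ).flatMap (fun p => (p.2.drop 1).map fun _ => cS φ p.1) := rfl

theorem cf_left {a b : ℕ} {x y : ℤ} {v : ℕ} (h : b ≠ v) :
    cf ((a, b), (x, y)) v = if a = v then x else 0 := by
  simp [cf, h]

theorem cf_right {a b : ℕ} {x y : ℤ} {v : ℕ} (h : a ≠ v) :
    cf ((a, b), (x, y)) v = if b = v then y else 0 := by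
  simp [cf, h]

theorem cf_none {a b : ℕ} {x y : ℤ} {v : ℕ} (h : a ≠ v) (h' : b ≠ v) :
    cf ((a, b), (x, y)) v = 0 := by
  simp [cf, h, h']

/-- the sign of a literal -/
def sg (l : Lit) : ℤ := if l.1 = true then 1 else -1

variable {φ}

theorem cA_var {o : ℕ × Lit} {i : ℕ} (hi : i < (occs φ).length) :
    cf (cA φ o) i = if vidx φ o.2.2 = i then 1 else 0 :=
  cf_left (by omega)

theorem cB_var {o : ℕ × Lit} {i : ℕ} (hi : i < (occs φ).length) : cf (cB φ o) i = 0 :=
  cf_none (by omega) (by omega)

theorem cV_var {w : List Bool} {i i' : ℕ} (hi : i < (occs φ).length) :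
    cf (cV φ i' w) i = if i' = i then -(vcnt φ w : ℤ) else 0 :=
  cf_left (by omega)

theorem cS_var {i j : ℕ} (hi : i < (occs φ).length) : cf (cS φ j) i = 0 :=
  cf_none (by omega) (by omega)

theorem cA_var' {o : ℕ × Lit} (ho : o ∈ occs φ) {i : ℕ} (hi : i < (occs φ).length) :
    cf (cA φ o) ((occs φ).length + i) = 0 := by
  have := vidx_lt φ o ho
  exact cf_none (by omega) (by omega)

theorem cB_var' {o : ℕ × Lit} {i : ℕ} (hi : i < (occs φ).length) :
    cf (cB φ o) ((occs φ).length + i) = if vidx φ o.2.2 = i then 1 else 0 := by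
  rw [cB, cf_left (by omega)]
  simp

theorem cV_var' {w : List Bool} {i i' : ℕ} (hi' : i' < (occs φ).length) :
    cf (cV φ i' w) ((occs φ).length + i) = if i' = i then -(vcnt φ w : ℤ) else 0 := by
  rw [cV, cf_right (by omega)]
  simp

theorem cS_var' {i j : ℕ} (hi : i < (occs φ).length) :
    cf (cS φ j) ((occs φ).length + i) = 0 :=
  cf_none (by omega) (by omega)

theorem cA_cl {o : ℕ × Lit} (ho : o ∈ occs φ) (j : ℕ) :
    cf (cA φ o) (2 * (occs φ).length + j) = if o.1 = j then sg o.2 else 0 := by
  have := vidx_lt φ o ho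
  rw [cA, cf_right (by omega)]
  simp [sg]

theorem cB_cl {o : ℕ × Lit} (ho : o ∈ occs φ) {j : ℕ} (hj : j < φ.length) :
    cf (cB φ o) (2 * (occs φ).length + j) = 0 := by
  have := vidx_lt φ o ho
  exact cf_none (by omega) (by omega)

theorem cV_cl {w : List Bool} {i : ℕ} (hi : i < (occs φ).length) (j : ℕ) :
    cf (cV φ i w) (2 * (occs φ).length + j) = 0 :=
  cf_none (by omega) (by omega)

theorem cS_cl {j j' : ℕ} (hj : j < φ.length) :
    cf (cS φ j') (2 * (occs φ).length + j) = if j' = j then 1 else 0 := by
  rw [cS, cf_left (by omega)]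
  simp

theorem cA_cl' {o : ℕ × Lit} (ho : o ∈ occs φ) (j : ℕ) :
    cf (cA φ o) (2 * (occs φ).length + φ.length + j) = 0 := by
  have := vidx_lt φ o ho
  have := occs_fst φ o ho
  exact cf_none (by omega) (by omega)

theorem cB_cl' {o : ℕ × Lit} (ho : o ∈ occs φ) (j : ℕ) :
    cf (cB φ o) (2 * (occs φ).length + φ.length + j) = if o.1 = j then sg o.2 else 0 := by
  have := vidx_lt φ o ho
  rw [cB, cf_right (by omega)]
  simp [sg]

theorem cV_cl' {w : List Bool} {i : ℕ} (hi : i < (occs φ).length) (j : ℕ) :
    cf (cV φ i w) (2 * (occs φ).length + φ.length + j) = 0 :=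
  cf_none (by omega) (by omega)

theorem cS_cl' {j j' : ℕ} (hj' : j' < φ.length) :
    cf (cS φ j') (2 * (occs φ).length + φ.length + j) = if j' = j then 1 else 0 := by
  rw [cS, cf_right (by omega)]
  simp

theorem sum_countP {α : Type} (l : List α) (q : α → Bool) :
    (l.map (fun o => if q o = true then (1 : ℤ) else 0)).sum = (l.countP q : ℤ) := by
  induction l with
  | nil => rfl
  | cons o l ih =>
    rw [List.map_cons, List.sum_cons, List.countP_cons, ih]
    push_cast
    rw [add_comm]

/-- the number of occurrences as a sum -/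
theorem vcnt_sum {i : ℕ} (hi : i < (occs φ).length)
    (hv : vidx φ ((occs φ)[i]'hi).2.2 = i) :
    ((occs φ).map (fun o : ℕ × Lit => if vidx φ o.2.2 = i then (1 : ℤ) else 0)).sum
      = (vcnt φ ((occs φ)[i]'hi).2.2 : ℤ) := by
  have h1 : (occs φ).map (fun o : ℕ × Lit => if vidx φ o.2.2 = i then (1 : ℤ) else 0)
      = (occs φ).map (fun o : ℕ × Lit =>
        if decide (o.2.2 = ((occs φ)[i]'hi).2.2) = true then (1 : ℤ) else 0) := by
    apply List.map_congr_left
    intro o ho
    have := vidx_eq_iff φ hi hv o.2.2 (vidx_lt φ o ho)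
    by_cases h : vidx φ o.2.2 = i
    · rw [if_pos h, if_pos (decide_eq_true (this.1 h))]
    · rw [if_neg h, if_neg (fun h' => h (this.2 (of_decide_eq_true h')))]
  rw [h1, vcnt]
  exact sum_countP _ _

/-! ## from an assignment to a solution -/

theorem zip_len {α : Type} (l : List α) : ((List.range l.length).zip l).length = l.length := by
  simp

/-- sums over positions with the position -/
theorem sum_zip {α : Type} (l : List α) (F : ℕ → α → ℤ) (W : ℕ → ℤ)
    (h : ∀ i (hi : i < l.length), W i = F i l[i]) :
    (((List.range l.length).zip l).map (fun p => F p.1 p.2)).sum = ∑ i ∈ range l.length, W i := by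
  have h2 := sum_getD ((List.range l.length).zip l) (fun p => F p.1 p.2) W (by
    intro i hi
    rw [zip_len] at hi
    simp only [List.getElem_zip, List.getElem_range]
    exact h i hi)
  rw [zip_len] at h2
  exact h2.symm

/-- the contribution of the occurrences -/
def W1 (φ : List (List Lit)) (τ : List Bool → Bool) (o : ℕ × Lit) (v : ℕ) : ℤ :=
  (if τ o.2.2 = true then cf (cA φ o) v else 0) + (if τ o.2.2 = true then cf (cB φ o) v else 0)

/-- the contribution of the variables -/
def W2 (φ : List (List Lit)) (τ : List Bool → Bool) (i : ℕ) (o : ℕ × Lit) (v : ℕ) : ℤ :=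
  if vidx φ o.2.2 = i then (if τ o.2.2 = true then cf (cV φ i o.2.2) v else 0) else 0

/-- the contribution of the slack columns -/
def W3 (φ : List (List Lit)) (τ : List Bool → Bool) (j : ℕ) (c : List Lit) (v : ℕ) : ℤ :=
  ((c.length - ntrue τ c : ℕ) : ℤ) * cf (cS φ j) v

/-- the equation of a variable -/
theorem var_eq (τ : List Bool → Bool) {i : ℕ} (hi : i < (occs φ).length) :
    ((occs φ).map (fun o : ℕ × Lit =>
      if τ o.2.2 = true then (if vidx φ o.2.2 = i then (1 : ℤ) else 0) else 0)).sum
    + ∑ i' ∈ range (occs φ).length, (if i' = i then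
      (if vidx φ ((occs φ)[i]'hi).2.2 = i then
        (if τ ((occs φ)[i]'hi).2.2 = true then -(vcnt φ ((occs φ)[i]'hi).2.2 : ℤ) else 0) else 0)
      else 0) = 0 := by
  rw [sum_ite_eq' (range (occs φ).length) i, if_pos (mem_range.2 hi)]
  by_cases hv : vidx φ ((occs φ)[i]'hi).2.2 = i
  · rw [if_pos hv]
    have h1 : (occs φ).map (fun o : ℕ × Lit =>
        if τ o.2.2 = true then (if vidx φ o.2.2 = i then (1 : ℤ) else 0) else 0)
        = (occs φ).map (fun o : ℕ × Lit => (if τ ((occs φ)[i]'hi).2.2 = true then (1 : ℤ) else 0)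
          * (if vidx φ o.2.2 = i then (1 : ℤ) else 0)) := by
      apply List.map_congr_left
      intro o ho
      by_cases h : vidx φ o.2.2 = i
      · have h2 := (vidx_eq_iff φ hi hv o.2.2 (vidx_lt φ o ho)).1 h
        rw [if_pos h, mul_one, h2]
      · rw [if_neg h, mul_zero, ite_self]
    rw [h1, List.sum_map_mul_left, vcnt_sum hi hv]
    split_ifs <;> simp
  · rw [if_neg hv, add_zero]
    apply List.sum_eq_zero
    intro x hx
    rw [List.mem_map] at hx
    obtain ⟨o, ho, rfl⟩ := hx
    have h2 : vidx φ o.2.2 ≠ i := by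
      intro h
      apply hv
      have h3 : ((occs φ)[i]'hi).2.2 = o.2.2 := by
        have h4 := vidx_name φ o.2.2 (vidx_lt φ o ho)
        simp only [h] at h4
        exact h4
      rw [h3, h]
    rw [if_neg h2, ite_self]

/-- the equation of a clause -/
theorem clause_eq (τ : List Bool → Bool) {j : ℕ} (hj : j < φ.length)
    (ht : ∃ l ∈ φ[j]'hj, τ l.2 = l.1) :
    ((occs φ).map (fun o : ℕ × Lit =>
      if τ o.2.2 = true then (if o.1 = j then sg o.2 else 0) else 0)).sum
    + ∑ j' ∈ range φ.length, (if j' = j then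
      (((φ[j]'hj).length - ntrue τ (φ[j]'hj) : ℕ) : ℤ) else 0) = (cstOf (φ[j]'hj) : ℤ) := by
  rw [sum_ite_eq' (range φ.length) j, if_pos (mem_range.2 hj)]
  have h1 : (occs φ).map (fun o : ℕ × Lit =>
      if τ o.2.2 = true then (if o.1 = j then sg o.2 else 0) else 0)
      = (occs φ).map (fun o : ℕ × Lit => if o.1 = j then
        (if τ o.2.2 = true then (if o.2.1 = true then (1 : ℤ) else -1) else 0) else 0) := by
    apply List.map_congr_left
    intro o ho
    by_cases h : o.1 = j <;> simp [h, sg]
  have h2 := sum_clause φ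
    (fun l : Lit => if τ l.2 = true then (if l.1 = true then (1 : ℤ) else -1) else 0) j hj
  rw [h1, h2, sum_lits, cst_cast]
  have h3 : 1 ≤ (φ[j]'hj).length := by
    obtain ⟨l, hl, -⟩ := ht
    exact List.length_pos_of_mem hl
  have h4 : ntrue τ (φ[j]'hj) ≤ (φ[j]'hj).length := List.countP_le_length
  rw [Nat.cast_sub h4, max_eq_left h3]
  ring

theorem ntrue_pos (τ : List Bool → Bool) (c : List Lit) :
    0 < ntrue τ c ↔ ∃ l ∈ c, τ l.2 = l.1 := by
  rw [ntrue, List.countP_pos_iff]
  simp

theorem forward (h : Satisfiable φ) : (sysOf φ).sys.Solvable := by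
  obtain ⟨τ, hτ⟩ := h
  rw [solvable_iff]
  refine ⟨fun v => (((occs φ).map (fun o => W1 φ τ o v)).sum
    + (((List.range (occs φ).length).zip (occs φ)).map (fun p => W2 φ τ p.1 p.2 v)).sum)
    + (((List.range φ.length).zip φ).map (fun p => W3 φ τ p.1 p.2 v)).sum, ?_, ?_⟩
  · rw [cols_eq, ach_append]
    refine ⟨_, _, (ach_append _ _ _).2 ⟨_, _, ach_flatMap_of _ _ _ ?_, ach_flatMap_of _ _ _ ?_,
      fun v => rfl⟩, ach_flatMap_of _ _ _ ?_, fun v => rfl⟩
    · intro o _
      exact ach_pair_of _ _ _ _
    · intro p _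
      by_cases hp : vidx φ p.2.2.2 = p.1
      · rw [if_pos hp]
        refine ⟨τ p.2.2.2, fun _ => 0, fun _ => rfl, fun v => ?_⟩
        rw [W2, if_pos hp, add_zero]
      · rw [if_neg hp]
        intro v
        rw [W2, if_neg hp]
    · intro p hp
      refine ach_const_of _ _ _ ?_
      rw [List.length_drop]
      have h1 : p.2 ∈ φ := (List.of_mem_zip hp).2
      have h2 := (ntrue_pos τ p.2).2 (hτ _ h1)
      omega
  · intro v hv
    change _ = (((csts φ).getD v 0 : ℕ) : ℤ)
    beta_reduce
    rcases Nat.lt_or_ge v (2 * (occs φ).length) with h1 | h1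
    · rw [csts_low φ h1]
      rcases Nat.lt_or_ge v (occs φ).length with h2 | h2
      · -- a variable
        have e1 : (occs φ).map (fun o => W1 φ τ o v) = (occs φ).map (fun o : ℕ × Lit =>
            if τ o.2.2 = true then (if vidx φ o.2.2 = v then (1 : ℤ) else 0) else 0) := by
          apply List.map_congr_left
          intro o ho
          rw [W1, cA_var h2, cB_var h2, ite_self, add_zero]
        have e2 := sum_zip (occs φ) (fun i o => W2 φ τ i o v) (fun i' => if i' = v then
            (if vidx φ ((occs φ)[v]'h2).2.2 = v then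
              (if τ ((occs φ)[v]'h2).2.2 = true then -(vcnt φ ((occs φ)[v]'h2).2.2 : ℤ) else 0)
              else 0) else 0) (by
          intro i hi
          rw [W2, cV_var h2]
          by_cases h : i = v
          · subst h
            simp
          · simp [h])
        have e3 := sum_zip φ (fun j c => W3 φ τ j c v) (fun _ => 0) (by
          intro j hj
          rw [W3, cS_var h2, mul_zero])
        rw [e1, e2, e3, var_eq τ h2, sum_const_zero]
        rfl
      · -- a mirror image of a variable
        obtain ⟨i0, rfl⟩ := Nat.exists_eq_add_of_le h2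
        have h3 : i0 < (occs φ).length := by omega
        have e1 : (occs φ).map (fun o => W1 φ τ o ((occs φ).length + i0))
            = (occs φ).map (fun o : ℕ × Lit =>
            if τ o.2.2 = true then (if vidx φ o.2.2 = i0 then (1 : ℤ) else 0) else 0) := by
          apply List.map_congr_left
          intro o ho
          rw [W1, cA_var' ho h3, cB_var' h3, ite_self, zero_add]
        have e2 := sum_zip (occs φ) (fun i o => W2 φ τ i o ((occs φ).length + i0))
          (fun i' => if i' = i0 then
            (if vidx φ ((occs φ)[i0]'h3).2.2 = i0 then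
              (if τ ((occs φ)[i0]'h3).2.2 = true then -(vcnt φ ((occs φ)[i0]'h3).2.2 : ℤ) else 0)
              else 0) else 0) (by
          intro i hi
          rw [W2, cV_var' hi]
          by_cases h : i = i0
          · subst h
            simp
          · simp [h])
        have e3 := sum_zip φ (fun j c => W3 φ τ j c ((occs φ).length + i0)) (fun _ => 0) (by
          intro j hj
          rw [W3, cS_var' h3, mul_zero])
        rw [e1, e2, e3, var_eq τ h3, sum_const_zero]
        rfl
    · obtain ⟨j, rfl⟩ := Nat.exists_eq_add_of_le h1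
      rcases Nat.lt_or_ge j φ.length with h2 | h2
      · -- a clause
        rw [csts_mid φ h2, ← clause_eq τ h2 (hτ _ (List.getElem_mem h2))]
        have e1 : (occs φ).map (fun o => W1 φ τ o (2 * (occs φ).length + j))
            = (occs φ).map (fun o : ℕ × Lit =>
            if τ o.2.2 = true then (if o.1 = j then sg o.2 else 0) else 0) := by
          apply List.map_congr_left
          intro o ho
          rw [W1, cA_cl ho, cB_cl ho h2, ite_self, add_zero]
        have e2 := sum_zip (occs φ) (fun i o => W2 φ τ i o (2 * (occs φ).length + j))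
          (fun _ => 0) (by
          intro i hi
          rw [W2, cV_cl hi]
          simp)
        have e3 := sum_zip φ (fun j' c => W3 φ τ j' c (2 * (occs φ).length + j))
          (fun j' => if j' = j then
            (((φ[j]'h2).length - ntrue τ (φ[j]'h2) : ℕ) : ℤ) else 0) (by
          intro j' hj'
          rw [W3, cS_cl h2]
          by_cases h : j' = j
          · subst h
            simp
          · simp [h])
        rw [e1, e2, e3, sum_const_zero, add_zero]
      · -- a mirror image of a clause
        obtain ⟨j0, rfl⟩ := Nat.exists_eq_add_of_le h2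
        have h3 : j0 < φ.length := by omega
        rw [← add_assoc, csts_high φ h3, ← clause_eq τ h3 (hτ _ (List.getElem_mem h3))]
        have e1 : (occs φ).map (fun o => W1 φ τ o (2 * (occs φ).length + φ.length + j0))
            = (occs φ).map (fun o : ℕ × Lit =>
            if τ o.2.2 = true then (if o.1 = j0 then sg o.2 else 0) else 0) := by
          apply List.map_congr_left
          intro o ho
          rw [W1, cA_cl' ho, cB_cl' ho, ite_self, zero_add]
        have e2 := sum_zip (occs φ) (fun i o => W2 φ τ i o (2 * (occs φ).length + φ.length + j0))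
          (fun _ => 0) (by
          intro i hi
          rw [W2, cV_cl' hi]
          simp)
        have e3 := sum_zip φ (fun j' c => W3 φ τ j' c (2 * (occs φ).length + φ.length + j0))
          (fun j' => if j' = j0 then
            (((φ[j0]'h3).length - ntrue τ (φ[j0]'h3) : ℕ) : ℤ) else 0) (by
          intro j' hj'
          rw [W3, cS_cl' hj']
          by_cases h : j' = j0
          · subst h
            simp
          · simp [h])
        rw [e1, e2, e3, sum_const_zero, add_zero]

/-! ## from a solution to an assignment -/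

/-- the structure of the reachable vectors -/
theorem decomp {w : ℕ → ℤ} (h : Ach (colsOf φ) w) : ∃ (a b c : ℕ → Bool) (s : ℕ → ℕ),
    (∀ j (hj : j < φ.length), s j ≤ (φ[j]'hj).length - 1) ∧
    ∀ v, w v = ((∑ i ∈ range (occs φ).length, if hi : i < (occs φ).length then
        ((if a i = true then cf (cA φ ((occs φ)[i]'hi)) v else 0) +
          (if b i = true then cf (cB φ ((occs φ)[i]'hi)) v else 0)) else 0) +
      (∑ i ∈ range (occs φ).length, if hi : i < (occs φ).length then
        (if vidx φ ((occs φ)[i]'hi).2.2 = i then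
          (if c i = true then cf (cV φ i ((occs φ)[i]'hi).2.2) v else 0) else 0) else 0)) +
      ∑ j ∈ range φ.length, (s j : ℤ) * cf (cS φ j) v := by
  rw [cols_eq, ach_append] at h
  obtain ⟨w12, w3, h12, h3, hw⟩ := h
  rw [ach_append] at h12
  obtain ⟨w1, w2, h1, h2, hw'⟩ := h12
  obtain ⟨V1, hV1, hs1⟩ := ach_flatMap _ _ _ h1
  obtain ⟨V2, hV2, hs2⟩ := ach_flatMap _ _ _ h2
  obtain ⟨V3, hV3, hs3⟩ := ach_flatMap _ _ _ h3
  rw [zip_len] at hs2 hs3
  have k1 : ∀ i, ∃ a b : Bool, ∀ hi : i < (occs φ).length, ∀ v, V1 i v =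
      (if a = true then cf (cA φ ((occs φ)[i]'hi)) v else 0) +
        (if b = true then cf (cB φ ((occs φ)[i]'hi)) v else 0) := by
    intro i
    by_cases hi : i < (occs φ).length
    · obtain ⟨a, b, hab⟩ := ach_pair _ _ _ (hV1 i hi)
      exact ⟨a, b, fun _ => hab⟩
    · exact ⟨true, true, fun h => absurd h hi⟩
  choose a b hab using k1
  have k2 : ∀ i, ∃ c : Bool, ∀ hi : i < (occs φ).length, ∀ v, V2 i v =
      if vidx φ ((occs φ)[i]'hi).2.2 = i then
        (if c = true then cf (cV φ i ((occs φ)[i]'hi).2.2) v else 0) else 0 := by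
    intro i
    by_cases hi : i < (occs φ).length
    · have h4 := hV2 i (by rw [zip_len]; exact hi)
      simp only [List.getElem_zip, List.getElem_range] at h4
      by_cases h5 : vidx φ ((occs φ)[i]'hi).2.2 = i
      · rw [if_pos h5] at h4
        obtain ⟨c, w', h6, h7⟩ := h4
        refine ⟨c, fun _ v => ?_⟩
        rw [if_pos h5, h7 v, h6 v, add_zero]
      · rw [if_neg h5] at h4
        refine ⟨true, fun _ v => ?_⟩
        rw [if_neg h5, h4 v]
    · exact ⟨true, fun h => absurd h hi⟩
  choose c hc using k2
  have k3 : ∀ j, ∃ s : ℕ, ∀ hj : j < φ.length, s ≤ (φ[j]'hj).length - 1 ∧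
      ∀ v, V3 j v = (s : ℤ) * cf (cS φ j) v := by
    intro j
    by_cases hj : j < φ.length
    · have h4 := hV3 j (by rw [zip_len]; exact hj)
      simp only [List.getElem_zip, List.getElem_range] at h4
      obtain ⟨s, hs, hs'⟩ := ach_const _ _ _ h4
      rw [List.length_drop] at hs
      exact ⟨s, fun _ => ⟨hs, hs'⟩⟩
    · exact ⟨0, fun h => absurd h hj⟩
  choose s hs using k3
  refine ⟨a, b, c, s, fun j hj => (hs j hj).1, ?_⟩
  intro v
  rw [hw v, hw' v, hs1 v, hs2 v, hs3 v]
  congr 1
  · congr 1
    · refine sum_congr rfl fun i hi => ?_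
      rw [mem_range] at hi
      rw [dif_pos hi, hab i hi v]
    · refine sum_congr rfl fun i hi => ?_
      rw [mem_range] at hi
      rw [dif_pos hi, hc i hi v]
  · refine sum_congr rfl fun j hj => ?_
    rw [mem_range] at hj
    exact (hs j hj).2 v

theorem backward (h : (sysOf φ).sys.Solvable) : Satisfiable φ := by
  rw [solvable_iff] at h
  obtain ⟨w, hw, heq⟩ := h
  obtain ⟨a, b, c, s, hs, hw⟩ := decomp hw
  -- the equation of a variable
  have hvar : ∀ i0 (hi0 : i0 < (occs φ).length), vidx φ ((occs φ)[i0]'hi0).2.2 = i0 →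
      ∀ i (hi : i < (occs φ).length), vidx φ ((occs φ)[i]'hi).2.2 = i0 → a i = c i0 := by
    intro i0 hi0 hv0
    have h1 := heq i0 (by omega)
    have h2 : (((csts φ).getD i0 0 : ℕ) : ℤ) = 0 := by
      rw [csts_low φ (by omega)]
      rfl
    have h3 := h1.trans h2
    rw [hw i0] at h3
    have e1 : (∑ i ∈ range (occs φ).length, if hi : i < (occs φ).length then
        ((if a i = true then cf (cA φ ((occs φ)[i]'hi)) i0 else 0) +
          (if b i = true then cf (cB φ ((occs φ)[i]'hi)) i0 else 0)) else 0)
        = ∑ i ∈ range (occs φ).length, if hi : i < (occs φ).length then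
          (if a i = true then (if vidx φ ((occs φ)[i]'hi).2.2 = i0 then (1 : ℤ) else 0) else 0)
          else 0 := by
      refine sum_congr rfl fun i hi => ?_
      rw [mem_range] at hi
      rw [dif_pos hi, dif_pos hi, cA_var hi0, cB_var hi0, ite_self, add_zero]
    have e2 : (∑ i ∈ range (occs φ).length, if hi : i < (occs φ).length then
        (if vidx φ ((occs φ)[i]'hi).2.2 = i then
          (if c i = true then cf (cV φ i ((occs φ)[i]'hi).2.2) i0 else 0) else 0) else 0)
        = ∑ i ∈ range (occs φ).length, if i = i0 then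
          (if c i0 = true then -(vcnt φ ((occs φ)[i0]'hi0).2.2 : ℤ) else 0) else 0 := by
      refine sum_congr rfl fun i hi => ?_
      rw [mem_range] at hi
      rw [dif_pos hi, cV_var hi0]
      by_cases h : i = i0
      · subst h
        simp [hv0]
      · simp [h]
    have e3 : ∑ j ∈ range φ.length, (s j : ℤ) * cf (cS φ j) i0 = 0 := by
      refine sum_eq_zero fun j hj => ?_
      rw [cS_var hi0, mul_zero]
    rw [e1, e2, e3, add_zero, sum_ite_eq' (range (occs φ).length) i0,
      if_pos (mem_range.2 hi0)] at h3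
    have e4 := sum_getD (occs φ) (fun o : ℕ × Lit => if vidx φ o.2.2 = i0 then (1 : ℤ) else 0)
      (fun i => if hi : i < (occs φ).length then
        (if vidx φ ((occs φ)[i]'hi).2.2 = i0 then (1 : ℤ) else 0) else 0) (by
        intro i hi
        rw [dif_pos hi])
    rw [vcnt_sum hi0 hv0] at e4
    cases hc0 : c i0 with
    | false =>
      rw [hc0, if_neg (by simp), add_zero] at h3
      intro i hi hvi
      have h5 := (sum_eq_zero_iff_of_nonneg (fun i hi => by
        split_ifs <;> norm_num)).1 h3 i (mem_range.2 hi)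
      rw [dif_pos hi, if_pos hvi] at h5
      by_contra hne
      have : a i = true := by simpa using hne
      rw [if_pos this] at h5
      exact one_ne_zero h5
    | true =>
      rw [hc0, if_pos rfl, ← e4, ← sub_eq_add_neg, ← sum_sub_distrib] at h3
      intro i hi hvi
      have h5 := (sum_eq_zero_iff_of_nonpos (fun i hi => by
        split_ifs <;> norm_num)).1 h3 i (mem_range.2 hi)
      rw [dif_pos hi, dif_pos hi, if_pos hvi] at h5
      by_contra hne
      have : a i = false := by simpa using hne
      rw [this] at h5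
      simp at h5
  -- the assignment
  set τ : List Bool → Bool := fun w => c (vidx φ w) with hτ
  have haτ : ∀ i (hi : i < (occs φ).length), a i = τ ((occs φ)[i]'hi).2.2 := by
    intro i hi
    have h1 := vidx_lt φ _ (List.getElem_mem hi)
    refine hvar _ h1 ?_ i hi rfl
    rw [vidx_name φ _ h1]
  refine ⟨τ, ?_⟩
  intro cl hcl
  obtain ⟨j, hj, rfl⟩ := List.getElem_of_mem hcl
  have h1 := heq (2 * (occs φ).length + j) (by omega)
  have h2 : (((csts φ).getD (2 * (occs φ).length + j) 0 : ℕ) : ℤ) = cstOf (φ[j]'hj) := by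
    rw [csts_mid φ hj]
  have h3 := h1.trans h2
  rw [hw (2 * (occs φ).length + j)] at h3
  have e1 : (∑ i ∈ range (occs φ).length, if hi : i < (occs φ).length then
      ((if a i = true then cf (cA φ ((occs φ)[i]'hi)) (2 * (occs φ).length + j) else 0) +
        (if b i = true then cf (cB φ ((occs φ)[i]'hi)) (2 * (occs φ).length + j) else 0)) else 0)
      = ((occs φ).map (fun o : ℕ × Lit => if o.1 = j then
        (if τ o.2.2 = true then (if o.2.1 = true then (1 : ℤ) else -1) else 0) else 0)).sum := by
    apply sum_getD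
    intro i hi
    rw [dif_pos hi, cA_cl (List.getElem_mem hi), cB_cl (List.getElem_mem hi) hj, ite_self,
      add_zero, haτ i hi]
    by_cases h : ((occs φ)[i]'hi).1 = j <;> simp [h, sg]
  have e2 : (∑ i ∈ range (occs φ).length, if hi : i < (occs φ).length then
      (if vidx φ ((occs φ)[i]'hi).2.2 = i then
        (if c i = true then cf (cV φ i ((occs φ)[i]'hi).2.2) (2 * (occs φ).length + j) else 0)
        else 0) else 0) = 0 := by
    refine sum_eq_zero fun i hi => ?_
    rw [mem_range] at hi
    rw [dif_pos hi, cV_cl hi]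
    simp
  have e3 : ∑ j' ∈ range φ.length, (s j' : ℤ) * cf (cS φ j') (2 * (occs φ).length + j)
      = (s j : ℤ) := by
    have : ∀ j' ∈ range φ.length, (s j' : ℤ) * cf (cS φ j') (2 * (occs φ).length + j)
        = if j' = j then (s j : ℤ) else 0 := by
      intro j' hj'
      rw [cS_cl hj]
      by_cases h : j' = j
      · subst h
        simp
      · simp [h]
    rw [sum_congr rfl this, sum_ite_eq' (range φ.length) j, if_pos (mem_range.2 hj)]
  have h4 := sum_clause φ
    (fun l : Lit => if τ l.2 = true then (if l.1 = true then (1 : ℤ) else -1) else 0) j hj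
  rw [e1, e2, e3, add_zero, h4, sum_lits, cst_cast] at h3
  have h5 : ntrue τ (φ[j]'hj) + s j = max (φ[j]'hj).length 1 := by
    have : ((ntrue τ (φ[j]'hj) : ℕ) : ℤ) + (s j : ℤ) = (max (φ[j]'hj).length 1 : ℕ) := by
      linarith
    exact_mod_cast this
  have h6 := hs j hj
  apply (ntrue_pos τ _).1
  have h7 : (φ[j]'hj).length - 1 < max (φ[j]'hj).length 1 := by
    have := le_max_left (φ[j]'hj).length 1
    have := le_max_right (φ[j]'hj).length 1
    omega
  omega

end CNF

theorem tCNF : T_CNF := fun _ => ⟨CNF.forward, CNF.backward⟩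

end Pool.Agent.DHD
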