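import Pool.Agent.DHD.TCnf

set_option autoImplicit false

/-!
# CNFOK: the system of a formula is well formed
-/

namespace Pool.Agent.DHD

open Finset
open Pool.Agent.SLN (Lit Satisfiable)

namespace CNFOK

theorem mem_zip_range {α : Type} (l : List α) (p : ℕ × α) (h : p ∈ (List.range l.length).zip l) :
    p.1 < l.length ∧ p.2 ∈ l := by
  obtain ⟨h1, h2⟩ := List.of_mem_zip (a := p.1) (b := p.2) h
  exact ⟨List.mem_range.mp h1, h2⟩

theorem sum_zip_range {α : Type} (l : List α) (f : α → ℕ) :
    (((List.range l.length).zip l).map fun p => f p.2).sum = (l.map f).sum := by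
  have : ((List.range l.length).zip l).map (fun p => f p.2) = l.map f := by
    rw [show (fun p : ℕ × α => f p.2) = f ∘ Prod.snd from rfl, ← List.map_map,
      List.map_snd_zip (by simp)]
  rw [this]

theorem occs_length (φ : List (List Lit)) : (occs φ).length = (φ.map List.length).sum := by
  unfold occs
  rw [List.length_flatMap]
  simp only [List.length_map]
  exact sum_zip_range φ List.length

theorem occs_fst (φ : List (List Lit)) (o : ℕ × Lit) (h : o ∈ occs φ) : o.1 < φ.length := by
  unfold occs at h
  obtain ⟨p, hp, ho⟩ := List.mem_flatMap.mp h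
  obtain ⟨l, _, rfl⟩ := List.mem_map.mp ho
  exact (mem_zip_range φ p hp).1

theorem len_le (φ : List (List Lit)) (c : List Lit) (h : c ∈ φ) :
    c.length ≤ (occs φ).length := by
  rw [occs_length]
  exact List.single_le_sum (by simp) _ (List.mem_map_of_mem h)

theorem vidx_lt (φ : List (List Lit)) (o : ℕ × Lit) (h : o ∈ occs φ) :
    vidx φ o.2.2 < (occs φ).length := by
  unfold vidx
  exact List.findIdx_lt_length_of_exists ⟨o, h, by simp⟩

theorem vcnt_pos (φ : List (List Lit)) (o : ℕ × Lit) (h : o ∈ occs φ) : 0 < vcnt φ o.2.2 := by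
  unfold vcnt
  exact List.countP_pos_iff.mpr ⟨o, h, by simp⟩

theorem vcnt_le (φ : List (List Lit)) (w : List Bool) : vcnt φ w ≤ (occs φ).length :=
  List.countP_le_length

theorem szOf_length (φ : List (List Lit)) :
    (szOf φ).length = 4 * φ.length + 5 * (occs φ).length := by
  rw [occs_length]
  unfold szOf
  simp only [List.length_append, List.length_flatMap, List.length_cons,
    List.length_nil, List.map_const', List.sum_replicate]
  induction φ with
  | nil => simp
  | cons c φ ih =>
    simp only [List.length_cons, List.map_cons, List.sum_cons, smul_eq_mul,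
      List.length_replicate] at ih ⊢
    omega

theorem col_ok (φ : List (List Lit)) (Z : ℕ)
    (hZ : 4 * φ.length + 5 * (occs φ).length ≤ Z) (q : Col) (hq : q ∈ colsOf φ) :
    q.1.1 < 2 * (occs φ).length + 2 * φ.length ∧ q.1.2 < 2 * (occs φ).length + 2 * φ.length ∧
      q.1.1 ≠ q.1.2 ∧ q.2.1 ≠ 0 ∧ q.2.2 ≠ 0 ∧ |q.2.1| ≤ Z ∧ |q.2.2| ≤ Z := by
  unfold colsOf at hq
  rcases List.mem_append.mp hq with hq | hq
  · rcases List.mem_append.mp hq with hq | hq
    · obtain ⟨o, ho, hq⟩ := List.mem_flatMap.mp hq
      have h1 := occs_fst φ o ho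
      have h2 := vidx_lt φ o ho
      have hs : ∀ e : Bool, (if e then (1 : ℤ) else -1) ≠ 0 ∧ |if e then (1 : ℤ) else -1| ≤ Z := by
        intro e
        cases e
        · simp; omega
        · simp; omega
      obtain ⟨h3, h4⟩ := hs o.2.1
      simp only [List.mem_cons, List.not_mem_nil, or_false] at hq
      rcases hq with rfl | rfl
      · refine ⟨?_, ?_, ?_, one_ne_zero, h3, ?_, h4⟩
        · show vidx φ o.2.2 < _; omega
        · show 2 * (occs φ).length + o.1 < _; omega
        · show vidx φ o.2.2 ≠ 2 * (occs φ).length + o.1; omega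
        · show |(1 : ℤ)| ≤ Z
          rw [abs_one]; omega
      · refine ⟨?_, ?_, ?_, one_ne_zero, h3, ?_, h4⟩
        · show (occs φ).length + vidx φ o.2.2 < _; omega
        · show 2 * (occs φ).length + φ.length + o.1 < _; omega
        · show (occs φ).length + vidx φ o.2.2 ≠ 2 * (occs φ).length + φ.length + o.1; omega
        · show |(1 : ℤ)| ≤ Z
          rw [abs_one]; omega
    · obtain ⟨p, hp, hq⟩ := List.mem_flatMap.mp hq
      obtain ⟨hp1, hp2⟩ := mem_zip_range _ p hp
      have h3 := vcnt_pos φ p.2 hp2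
      have h4 := vcnt_le φ p.2.2.2
      split_ifs at hq with hv
      · simp only [List.mem_cons, List.not_mem_nil, or_false] at hq
        subst hq
        have h5 : |(-(vcnt φ p.2.2.2 : ℤ))| ≤ Z := by
          rw [abs_neg, Nat.abs_cast]; omega
        refine ⟨?_, ?_, ?_, ?_, ?_, h5, h5⟩
        · show p.1 < _; omega
        · show (occs φ).length + p.1 < _; omega
        · show p.1 ≠ (occs φ).length + p.1; omega
        · show (-(vcnt φ p.2.2.2 : ℤ)) ≠ 0; omega
        · show (-(vcnt φ p.2.2.2 : ℤ)) ≠ 0; omega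
      · simp at hq
  · obtain ⟨p, hp, hq⟩ := List.mem_flatMap.mp hq
    obtain ⟨hp1, hp2⟩ := mem_zip_range _ p hp
    obtain ⟨l, _, rfl⟩ := List.mem_map.mp hq
    refine ⟨?_, ?_, ?_, one_ne_zero, one_ne_zero, ?_, ?_⟩
    · show 2 * (occs φ).length + p.1 < _; omega
    · show 2 * (occs φ).length + φ.length + p.1 < _; omega
    · show 2 * (occs φ).length + p.1 ≠ 2 * (occs φ).length + φ.length + p.1; omega
    · show |(1 : ℤ)| ≤ Z
      rw [abs_one]; omega
    · show |(1 : ℤ)| ≤ Z
      rw [abs_one]; omega

theorem cols_length (φ : List (List Lit)) : (colsOf φ).length ≤ 4 * (occs φ).length := by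
  unfold colsOf
  simp only [List.length_append, List.length_flatMap]
  have h1 : ((occs φ).map fun o => ([((vidx φ o.2.2, 2 * (occs φ).length + o.1),
      ((1 : ℤ), if o.2.1 then (1 : ℤ) else -1)),
     (((occs φ).length + vidx φ o.2.2, 2 * (occs φ).length + φ.length + o.1),
      ((1 : ℤ), if o.2.1 then (1 : ℤ) else -1))] : List Col).length).sum
      = 2 * (occs φ).length := by
    simp [mul_comm]
  have h2 : (((List.range (occs φ).length).zip (occs φ)).map fun p =>
      (if vidx φ p.2.2.2 = p.1 then
      [((p.1, (occs φ).length + p.1), (-(vcnt φ p.2.2.2 : ℤ), -(vcnt φ p.2.2.2 : ℤ)))]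
      else [] : List Col).length).sum ≤ (occs φ).length := by
    refine (List.sum_le_card_nsmul _ 1 ?_).trans ?_
    · intro x hx
      obtain ⟨p, _, rfl⟩ := List.mem_map.mp hx
      split_ifs <;> simp
    · simp
  have h3 : (((List.range φ.length).zip φ).map fun p => ((p.2.drop 1).map fun _ =>
      (((2 * (occs φ).length + p.1, 2 * (occs φ).length + φ.length + p.1),
        ((1 : ℤ), (1 : ℤ))) : Col)).length).sum ≤ (occs φ).length := by
    simp only [List.length_map, List.length_drop]
    rw [sum_zip_range φ (fun c => c.length - 1), occs_length]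
    exact List.sum_le_sum fun c _ => Nat.sub_le _ _
  have h1' := h1.le
  omega

theorem getD_mem {α : Type} (l : List α) (t : ℕ) (d : α) (h : t < l.length) :
    l.getD t d ∈ l := by
  rw [List.getD_eq_getElem _ _ h]
  exact List.getElem_mem h

end CNFOK

open CNFOK

theorem tCNFOK : T_CNFOK := by
  intro φ Z hZ
  rw [szOf_length] at hZ
  have hc : ∀ t < (colsOf φ).length, (colsOf φ).getD t ((0, 0), (0, 0)) ∈ colsOf φ :=
    fun t ht => getD_mem _ _ _ ht
  have hl := cols_length φ
  refine
    { n_le := ?_, m_le := ?_, x_lt := ?_, y_lt := ?_, ne := ?_, a_ne := ?_, b_ne := ?_,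
      a_le := ?_, b_le := ?_, c_le := ?_ }
  · show 2 * (occs φ).length + 2 * φ.length ≤ Z
    omega
  · show (colsOf φ).length ≤ Z
    omega
  · intro t ht
    exact (col_ok φ Z hZ _ (hc t ht)).1
  · intro t ht
    exact (col_ok φ Z hZ _ (hc t ht)).2.1
  · intro t ht
    exact (col_ok φ Z hZ _ (hc t ht)).2.2.1
  · intro t ht
    exact (col_ok φ Z hZ _ (hc t ht)).2.2.2.1
  · intro t ht
    exact (col_ok φ Z hZ _ (hc t ht)).2.2.2.2.1
  · intro t ht
    exact (col_ok φ Z hZ _ (hc t ht)).2.2.2.2.2.1
  · intro t ht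
    exact (col_ok φ Z hZ _ (hc t ht)).2.2.2.2.2.2
  · intro v _
    show ((occs φ).map (fun _ => 0) ++ (occs φ).map (fun _ => 0) ++ φ.map cstOf ++
      φ.map cstOf).getD v 0 ≤ Z
    have hcst : ∀ x ∈ φ.map cstOf, x ≤ Z := by
      intro x hx
      obtain ⟨c, hcφ, rfl⟩ := List.mem_map.mp hx
      have h1 := len_le φ c hcφ
      have h2 : 0 < φ.length := List.length_pos_of_mem hcφ
      have h3 : cstOf c ≤ max c.length 1 := Nat.sub_le _ _
      have h4 : max c.length 1 ≤ Z := max_le (by omega) (by omega)
      omega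
    by_cases hv : v < ((occs φ).map (fun _ => 0) ++ (occs φ).map (fun _ => 0) ++ φ.map cstOf ++
      φ.map cstOf).length
    · have hm := getD_mem _ v 0 hv
      generalize List.getD _ v 0 = x at hm ⊢
      rcases List.mem_append.mp hm with hm | hm
      · rcases List.mem_append.mp hm with hm | hm
        · have : x = 0 := by
            rcases List.mem_append.mp hm with hm | hm
            · obtain ⟨_, _, rfl⟩ := List.mem_map.mp hm
              rfl
            · obtain ⟨_, _, rfl⟩ := List.mem_map.mp hm
              rfl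
          omega
        · exact hcst x hm
      · exact hcst x hm
    · rw [List.getD_eq_default _ _ (not_lt.mp hv)]
      exact Nat.zero_le _

end Pool.Agent.DHD
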