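import Pool.Agent.DHD.TCnf

set_option autoImplicit false

/-!
# DHD, entry CNFPT: the system of a formula is computed in polynomial time
-/

namespace Pool.Agent.DHD

open Pool.Agent.PT
open Pool.Agent.SLN (Lit Satisfiable)

namespace CNFPT

variable {γ α β : Type} [Dat γ] [Dat α] [Dat β] [hC : Fact Core]

omit [Dat γ] [Dat α] [Dat β] hC in
theorem findIdx_foldl (p : α → Bool) (l : List α) :
    l.reverse.foldl (fun (s : ℕ) a => if p a = true then 0 else s + 1) 0 = l.findIdx p := by
  rw [List.foldl_reverse]
  induction l with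
  | nil => simp
  | cons a l ih =>
    rw [List.foldr_cons, ih, List.findIdx_cons]
    cases p a <;> simp

omit [Dat γ] [Dat α] [Dat β] hC in
theorem foldl_le (p : α → Bool) (l : List α) : ∀ s : ℕ,
    l.foldl (fun (s : ℕ) a => if p a = true then 0 else s + 1) s ≤ s + l.length := by
  induction l with
  | nil => intro s; simp
  | cons a l ih =>
    intro s
    rw [List.foldl_cons, List.length_cons]
    refine (ih _).trans ?_
    by_cases h : p a = true
    · rw [if_pos h]; omega
    · rw [if_neg h]; omega

@[fun_prop] theorem findIdx_pt {f : γ → α → Bool} {l : γ → List α}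
    (hf : PolyF (fun p : γ × α => f p.1 p.2)) (hl : PolyF l) :
    PolyF (fun x => (l x).findIdx (f x)) := by
  have h1 : PolyF (fun x => (l x).reverse.foldl
      (fun (s : ℕ) a => if f x a = true then 0 else s + 1) 0) := by
    refine PolyF.foldl ?_ (by fun_prop) hl.reverse (fun x => 4 * sz (l x) + 1)
      (((PolyB.const 4).mul hl.bound).add (PolyB.const 1)) ?_
    · have h2 : PolyF (fun p : γ × ℕ × α => f p.1 p.2.2) :=
        PolyF.comp (g := fun p : γ × ℕ × α => (p.1, p.2.2)) hf (by fun_prop)
      exact PolyF.iteb h2 (by fun_prop) (by fun_prop)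
    · intro x l₁ hl₁
      have h2 := foldl_le (f x) l₁ 0
      have h3 := sz_nat_le (l₁.foldl (fun (s : ℕ) a => if f x a = true then 0 else s + 1) 0)
      have h4 := length_lt_sz l₁
      have h5 := sz_le_of_prefix hl₁
      rw [sz_reverse] at h5
      omega
  exact h1.congr (fun x => by rw [findIdx_foldl])

@[fun_prop] theorem two_mul_pt {f : γ → ℕ} (hf : PolyF f) : PolyF (fun x => 2 * f x) :=
  (hf.nat_add hf).congr (fun x => by omega)

@[fun_prop] theorem drop_one_pt {f : γ → List α} (hf : PolyF f) :
    PolyF (fun x => (f x).drop 1) :=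
  hf.tail.congr (fun x => by simp)

@[fun_prop] theorem ite_eq_nat_pt {a b : γ → ℕ} {f g : γ → β} (ha : PolyF a)
    (hb : PolyF b) (hf : PolyF f) (hg : PolyF g) :
    PolyF (fun x => if a x = b x then f x else g x) :=
  PolyF.ite' (p := fun x => a x = b x) (PolyF.eq_nat ha hb) hf hg

@[fun_prop] theorem eq_name {f g : γ → List Bool} (hf : PolyF f) (hg : PolyF g) :
    PolyF (fun a => decide (f a = g a)) := PolyF.eq hf hg

@[fun_prop] theorem occs_pt {f : γ → List (List Lit)} (hf : PolyF f) :
    PolyF (fun x => occs (f x)) := by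
  have h : PolyF occs := by
    unfold occs
    fun_prop
  exact h.comp hf

@[fun_prop] theorem vidx_pt {f : γ → List (List Lit)} {w : γ → List Bool} (hf : PolyF f)
    (hw : PolyF w) : PolyF (fun x => vidx (f x) (w x)) := by
  have h : PolyF (fun p : List (List Lit) × List Bool => vidx p.1 p.2) := by
    unfold vidx
    fun_prop
  exact h.comp (hf.pair hw)

@[fun_prop] theorem vcnt_pt {f : γ → List (List Lit)} {w : γ → List Bool} (hf : PolyF f)
    (hw : PolyF w) : PolyF (fun x => vcnt (f x) (w x)) := by
  have h : PolyF (fun p : List (List Lit) × List Bool => vcnt p.1 p.2) := by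
    unfold vcnt
    fun_prop
  exact h.comp (hf.pair hw)

omit hC in
theorem cstOf_eq (c : List Lit) :
    cstOf c = cond c.isEmpty 1 (c.countP fun l => l.1) := by
  unfold cstOf
  cases c with
  | nil => rfl
  | cons a c =>
    have h1 : (a :: c).length = (a :: c).countP (fun l => l.1) +
        (a :: c).countP (fun l => !l.1) := by
      rw [List.length_eq_countP_add_countP (fun l : Lit => l.1)]
      congr 1
      refine List.countP_congr ?_
      intro x _
      simp
    have h2 : 1 ≤ (a :: c).length := by simp
    have h3 : (a :: c).isEmpty = false := rfl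
    rw [h3, cond_false]
    rw [max_eq_left h2]
    omega

@[fun_prop] theorem cstOf_pt {f : γ → List Lit} (hf : PolyF f) :
    PolyF (fun x => cstOf (f x)) := by
  have h : PolyF (fun c : List Lit => cond c.isEmpty 1 (c.countP fun l => l.1)) := by
    fun_prop
  have h2 : PolyF (fun c : List Lit => cstOf c) := h.congr (fun c => (cstOf_eq c).symm)
  exact h2.comp hf

@[fun_prop] theorem sgn_pt {f : γ → Bool} (hf : PolyF f) :
    PolyF (fun x => if f x = true then (1 : ℤ) else -1) := by
  fun_prop

theorem colsOf_pt : PolyF colsOf := by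
  unfold colsOf
  refine PolyF.append (PolyF.append ?_ ?_) ?_
  · fun_prop
  · fun_prop
  · fun_prop

theorem sysOf_pt : PolyF sysOf := by
  have := colsOf_pt (hC := hC)
  unfold sysOf
  fun_prop

theorem szOf_pt : PolyF szOf := by
  unfold szOf
  fun_prop

end CNFPT

/-- CNFPT: the system and the bound are computed in polynomial time -/
theorem tCNFPT : T_CNFPT := by
  have : Fact Core := ⟨core⟩
  exact ⟨CNFPT.sysOf_pt, CNFPT.szOf_pt⟩

end Pool.Agent.DHD
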