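import Pool.Agent.DHD.TNum

set_option autoImplicit false

/-!
# CTX: the choice of the windows
-/

namespace Pool.Agent.DHD

open Finset
open scoped Classical

namespace CTX

/-- powers of the logarithm are small -/
theorem ev_log (K : ℝ) (n : ℕ) : ∃ Z₀ : ℕ, ∀ Z : ℕ, Z₀ ≤ Z → K * Real.log Z ^ n ≤ Z := by
  have h1 : (fun x : ℝ => Real.log x ^ n) =o[Filter.atTop] (id : ℝ → ℝ) :=
    Real.isLittleO_pow_log_id_atTop
  have h2 := (h1.bound (show (0 : ℝ) < 1 / (|K| + 1) by positivity))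
  have h3 := (tendsto_natCast_atTop_atTop (R := ℝ)).eventually h2
  obtain ⟨Z₀, hZ⟩ := Filter.eventually_atTop.mp h3
  refine ⟨Z₀, fun Z hle => ?_⟩
  have h4 := hZ Z hle
  simp only [id, Real.norm_eq_abs] at h4
  rw [abs_of_nonneg (Nat.cast_nonneg Z : (0 : ℝ) ≤ Z)] at h4
  have h5 : K * Real.log Z ^ n ≤ |K| * |Real.log Z ^ n| := by
    rw [← abs_mul]
    exact le_abs_self _
  have h6 : |K| * |Real.log Z ^ n| ≤ |K| * (1 / (|K| + 1) * Z) :=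
    mul_le_mul_of_nonneg_left h4 (abs_nonneg K)
  have h7 : |K| * (1 / (|K| + 1) * Z) ≤ Z := by
    have h8 : |K| * (1 / (|K| + 1)) ≤ 1 := by
      rw [mul_one_div, div_le_one (by positivity)]
      linarith
    calc |K| * (1 / (|K| + 1) * Z) = |K| * (1 / (|K| + 1)) * Z := by ring
      _ ≤ 1 * Z := mul_le_mul_of_nonneg_right h8 (Nat.cast_nonneg Z)
      _ = Z := one_mul _
  linarith

/-- the binary logarithm of a power -/
theorem log_pow_le (Z n : ℕ) : (Nat.log 2 (Z ^ n) : ℝ) ≤ 2 * n * Real.log Z := by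
  have h1 : (Nat.log 2 (Z ^ n) : ℝ) ≤ Real.logb (2 : ℕ) ((Z ^ n : ℕ) : ℝ) :=
    Real.natLog_le_logb _ _
  have h2 : Real.logb (2 : ℕ) ((Z ^ n : ℕ) : ℝ) = n * Real.log Z / Real.log 2 := by
    rw [Real.logb, Nat.cast_pow, Real.log_pow]
    norm_num
  rw [h2] at h1
  refine h1.trans ?_
  have h3 : (0.6931471803 : ℝ) < Real.log 2 := Real.log_two_gt_d9
  have h4 : 0 ≤ Real.log (Z : ℝ) := Real.log_natCast_nonneg Z
  rw [div_le_iff₀ (by linarith)]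
  have h5 : 0 ≤ (n : ℝ) * Real.log Z := mul_nonneg (Nat.cast_nonneg n) h4
  nlinarith

/-- the primes up to `Y` -/
def pr (Y : ℕ) : Finset ℕ := {p ∈ Ioc 0 Y | p.Prime}

theorem le_mul_card {Z Y o : ℕ} (h : Y ^ 8 ≤ Z * o ^ 8) : Y ≤ Z * o := by
  by_contra hc
  push Not at hc
  have h1 : (Z * o) ^ 8 < Y ^ 8 := Nat.pow_lt_pow_left hc (by norm_num)
  have h2 : Z * o ^ 8 ≤ (Z * o) ^ 8 := by
    rw [mul_pow]
    exact Nat.mul_le_mul_right _ (Nat.le_self_pow (by norm_num) Z)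
  omega

theorem le_mul_card' {Z Y o q : ℕ} (hZ : 256 ≤ Z) (hZY : Z ≤ Y) (h : Y ^ 8 ≤ Z * q ^ 8)
    (hq : q ≤ o + 1) : Y ≤ Z * o := by
  by_contra hc
  push Not at hc
  rcases Nat.eq_zero_or_pos o with ho | ho
  · subst ho
    have h1 : q ^ 8 ≤ 1 := by
      have : q ≤ 1 := by omega
      calc q ^ 8 ≤ 1 ^ 8 := Nat.pow_le_pow_left this 8
        _ = 1 := one_pow 8
    have h2 : Y ^ 8 ≤ Z := h.trans (by nlinarith)
    have h3 : Y ^ 2 ≤ Y ^ 8 := Nat.pow_le_pow_right (by omega) (by norm_num)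
    nlinarith
  · have h1 : (Z * o) ^ 8 < Y ^ 8 := Nat.pow_lt_pow_left hc (by norm_num)
    have h2 : q ^ 8 ≤ (2 * o) ^ 8 := Nat.pow_le_pow_left (by omega) 8
    have h3 : Z * q ^ 8 ≤ Z * (2 * o) ^ 8 := Nat.mul_le_mul_left _ h2
    have h4 : Z * (2 * o) ^ 8 = 256 * (Z * o ^ 8) := by ring
    have h5 : 256 * (Z * o ^ 8) ≤ Z * (Z * o ^ 8) := Nat.mul_le_mul_right _ hZ
    have h6 : Z * (Z * o ^ 8) ≤ (Z * o) ^ 8 := by
      have : (Z * o) ^ 8 = Z ^ 8 * o ^ 8 := mul_pow _ _ _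
      rw [this, ← mul_assoc]
      refine Nat.mul_le_mul_right _ ?_
      calc Z * Z = Z ^ 2 := (pow_two Z).symm
        _ ≤ Z ^ 8 := Nat.pow_le_pow_right (by omega) (by norm_num)
    omega

/-- a window full of primes -/
theorem win (hW : T_WIN) {Z Y h : ℕ} (hh : 0 < h) (hd : h ∣ Y) (hY : 0 < Y)
    (hp : Y ^ 8 ≤ Z * #(pr Y) ^ 8) : ∃ R, h ∣ R ∧ Y < 4 * (Z * R) ∧ R ≤ Y ∧
      h ≤ 2 * Z * #{n ∈ pr Y | R - h < n ∧ n ≤ R} := by
  refine hW (pr Y) Y h Z ?_ hh hd hY (le_mul_card hp)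
  intro n hn
  simpa using (mem_filter.mp hn).1

/-- a window full of odd primes -/
theorem win' (hW : T_WIN) {Z Y h : ℕ} (hh : 0 < h) (hd : h ∣ Y) (hZ : 256 ≤ Z) (hZY : Z ≤ Y)
    (hp : Y ^ 8 ≤ Z * #(pr Y) ^ 8) : ∃ R, h ∣ R ∧ Y < 4 * (Z * R) ∧ R ≤ Y ∧
      h ≤ 2 * Z * #{n ∈ {p ∈ pr Y | p % 2 = 1} | R - h < n ∧ n ≤ R} := by
  refine hW {p ∈ pr Y | p % 2 = 1} Y h Z ?_ hh hd (by omega) ?_
  · intro n hn
    simpa using (mem_filter.mp (mem_filter.mp hn).1).1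
  · refine le_mul_card' hZ hZY hp ?_
    have h1 : pr Y ⊆ insert 2 {p ∈ pr Y | p % 2 = 1} := by
      intro p hp
      rw [mem_insert, mem_filter]
      rcases ((mem_filter.mp hp).2).eq_two_or_odd with h | h
      · exact Or.inl h
      · exact Or.inr ⟨hp, h⟩
    exact (card_le_card h1).trans (card_insert_le _ _)

/-- the primes for the smooth numbers -/
def Bs (Z M : ℕ) : Finset ℕ := {p ∈ pr M | M ≤ p * Z}

theorem Bs_card {Z m : ℕ} (hZ : 256 ≤ Z) (hp : (Z ^ (m + 1)) ^ 8 ≤ Z * #(pr (Z ^ (m + 1))) ^ 8) :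
    #(pr (Z ^ (m + 1))) ≤ 2 * #(Bs Z (Z ^ (m + 1))) := by
  set q := #(pr (Z ^ (m + 1))) with hq
  set b := #(Bs Z (Z ^ (m + 1))) with hb
  have h1 : q ≤ b + Z ^ m := by
    have h2 : pr (Z ^ (m + 1)) ⊆ Bs Z (Z ^ (m + 1)) ∪ range (Z ^ m) := by
      intro p hp
      rw [mem_union]
      by_cases h : Z ^ (m + 1) ≤ p * Z
      · exact Or.inl (mem_filter.mpr ⟨hp, h⟩)
      · refine Or.inr (mem_range.mpr ?_)
        push Not at h
        rw [pow_succ] at h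
        exact lt_of_mul_lt_mul_right h (Nat.zero_le Z)
    have h3 := (card_le_card h2).trans (card_union_le _ _)
    rw [card_range] at h3
    exact h3
  by_contra hc
  push Not at hc
  have h4 : q ≤ 2 * Z ^ m := by omega
  have h5 : Z * q ^ 8 ≤ Z * (2 * Z ^ m) ^ 8 := Nat.mul_le_mul_left _ (Nat.pow_le_pow_left h4 8)
  have h6 : Z * (2 * Z ^ m) ^ 8 = 256 * (Z * (Z ^ m) ^ 8) := by ring
  have h7 : (Z ^ (m + 1)) ^ 8 = Z ^ 7 * (Z * (Z ^ m) ^ 8) := by ring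
  have h8 : 256 * (Z * (Z ^ m) ^ 8) < Z ^ 7 * (Z * (Z ^ m) ^ 8) := by
    refine Nat.mul_lt_mul_of_pos_right ?_ (by positivity)
    calc 256 ≤ Z := hZ
      _ < Z ^ 7 := by
        have : Z ^ 1 < Z ^ 7 := Nat.pow_lt_pow_right (by omega) (by norm_num)
        simpa using this
  omega

/-- the final computation for the smooth numbers -/
theorem smooth_count {Z M b w h Λ : ℕ} (hM : 0 < M) (hΛ : 1024 * Λ ^ 8 ≤ Z)
    (h1 : b ^ 4 * h ≤ w * (2 * M ^ 4 * Λ ^ 4)) (h2 : M ^ 8 ≤ Z * (2 * b) ^ 8) : h ≤ Z * w := by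
  have hb : 0 < b := by
    rcases Nat.eq_zero_or_pos b with h | h
    · subst h
      have : 0 < M ^ 8 := by positivity
      simp at h2
      omega
    · exact h
  have h3 : (b ^ 4 * h) ^ 2 ≤ (w * (2 * M ^ 4 * Λ ^ 4)) ^ 2 := Nat.pow_le_pow_left h1 2
  have h4 : (w * (2 * M ^ 4 * Λ ^ 4)) ^ 2 = 4 * w ^ 2 * Λ ^ 8 * M ^ 8 := by ring
  have h5 : 4 * w ^ 2 * Λ ^ 8 * M ^ 8 ≤ 4 * w ^ 2 * Λ ^ 8 * (Z * (2 * b) ^ 8) :=
    Nat.mul_le_mul_left _ h2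
  have h6 : 4 * w ^ 2 * Λ ^ 8 * (Z * (2 * b) ^ 8) = (1024 * Λ ^ 8) * (w ^ 2 * Z * b ^ 8) := by ring
  have h7 : (1024 * Λ ^ 8) * (w ^ 2 * Z * b ^ 8) ≤ Z * (w ^ 2 * Z * b ^ 8) :=
    Nat.mul_le_mul_right _ hΛ
  have h8 : (b ^ 4 * h) ^ 2 ≤ (b ^ 4 * (Z * w)) ^ 2 := by
    calc (b ^ 4 * h) ^ 2 ≤ Z * (w ^ 2 * Z * b ^ 8) := by omega
      _ = (b ^ 4 * (Z * w)) ^ 2 := by ring
  have h9 : b ^ 4 * h ≤ b ^ 4 * (Z * w) := by
    exact (Nat.pow_le_pow_iff_left (by norm_num)).mp h8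
  exact Nat.le_of_mul_le_mul_left h9 (by positivity)

end CTX

open CTX in
theorem tCTX (hW : T_WIN) (hP : T_PRIMES) (hS : T_SM) : T_CTX := by
  obtain ⟨Z1, h1⟩ := hP 2000
  obtain ⟨Z2, h2⟩ := ev_log (10 ^ 5) 1
  obtain ⟨Z3, h3⟩ := ev_log (1024 * 4000 ^ 8) 8
  refine ⟨max (10 ^ 50) (max Z1 (max Z2 Z3)), fun Z hZ => ?_⟩
  have hZ0 : 10 ^ 50 ≤ Z := (le_max_left _ _).trans hZ
  have hZ1 : Z1 ≤ Z := (le_max_left _ _).trans ((le_max_right _ _).trans hZ)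
  have hZ2 : Z2 ≤ Z := (le_max_left _ _).trans ((le_max_right _ _).trans
    ((le_max_right _ _).trans hZ))
  have hZ3 : Z3 ≤ Z := (le_max_right _ _).trans ((le_max_right _ _).trans
    ((le_max_right _ _).trans hZ))
  have hZ256 : 256 ≤ Z := le_trans (by norm_num) hZ0
  have hZpos : 0 < Z := by omega
  have hZ1' : 1 ≤ Z := hZpos
  -- logarithms
  have hlog1 : (1 : ℝ) ≤ Real.log Z := by
    have ha : Real.exp 1 ≤ Z := by
      have hb : (3 : ℝ) ≤ Z := by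
        have : (3 : ℕ) ≤ Z := by omega
        exact_mod_cast this
      linarith [Real.exp_one_lt_d9]
    rw [← Real.log_exp 1]
    exact Real.log_le_log (Real.exp_pos 1) ha
  have h2' : 10 ^ 5 * Real.log Z ≤ Z := by simpa using h2 Z hZ2
  have h3' := h3 Z hZ3
  have hpow : ∀ a b : ℕ, a ≤ b → Z ^ a ≤ Z ^ b := fun a b h => Nat.pow_le_pow_right hZ1' h
  -- primes
  have p80 : (Z ^ 80) ^ 8 ≤ Z * #(pr (Z ^ 80)) ^ 8 :=
    h1 Z (Z ^ 80) hZ1 (Nat.le_self_pow (by norm_num) Z) (hpow _ _ (by norm_num))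
  have p800 : (Z ^ 800) ^ 8 ≤ Z * #(pr (Z ^ 800)) ^ 8 :=
    h1 Z (Z ^ 800) hZ1 (Nat.le_self_pow (by norm_num) Z) (hpow _ _ (by norm_num))
  have p400 : (Z ^ 400) ^ 8 ≤ Z * #(pr (Z ^ 400)) ^ 8 :=
    h1 Z (Z ^ 400) hZ1 (Nat.le_self_pow (by norm_num) Z) (hpow _ _ (by norm_num))
  have p1992 : (2 * Z ^ 1992) ^ 8 ≤ Z * #(pr (2 * Z ^ 1992)) ^ 8 := by
    refine h1 Z (2 * Z ^ 1992) hZ1 ?_ ?_
    · have := Nat.le_self_pow (n := 1992) (by norm_num) Z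
      omega
    · calc 2 * Z ^ 1992 ≤ Z * Z ^ 1992 := Nat.mul_le_mul_right _ (by omega)
        _ = Z ^ 1993 := (pow_succ' Z 1992).symm
        _ ≤ Z ^ 2000 := hpow _ _ (by norm_num)
  -- windows
  obtain ⟨R, -, hR2, hR3, hR4⟩ := win' hW (Z := Z) (Y := Z ^ 80) (h := Z ^ 75) (by positivity)
    (pow_dvd_pow Z (by norm_num)) hZ256 (Nat.le_self_pow (by norm_num) Z) p80
  obtain ⟨X, hX1, hX2, hX3, hX4⟩ := win hW (Z := Z) (Y := 2 * Z ^ 1992) (h := 2 * Z ^ 1906)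
    (by positivity) (Nat.mul_dvd_mul_left 2 (pow_dvd_pow Z (by norm_num))) (by positivity) p1992
  obtain ⟨Q, -, hQ2, hQ3, hQ4⟩ := win hW (Z := Z) (Y := Z ^ 800) (h := Z ^ 700) (by positivity)
    (pow_dvd_pow Z (by norm_num)) (by positivity) p800
  obtain ⟨X2, rfl⟩ : 2 ∣ X := (Dvd.intro _ rfl).trans hX1
  -- the number V
  set V := (2 * Z ^ 3 + 1) * X2 with hV
  have hVle : V ≤ Z ^ 1996 := by
    have ha : X2 ≤ Z ^ 1992 := by omega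
    have hb : 2 * Z ^ 3 + 1 ≤ Z ^ 4 := by
      have hc : 1 ≤ Z ^ 3 := Nat.one_le_pow _ _ hZpos
      have hd : Z ^ 4 = Z * Z ^ 3 := pow_succ' Z 3
      have he : 256 * Z ^ 3 ≤ Z * Z ^ 3 := Nat.mul_le_mul_right _ hZ256
      omega
    calc V ≤ Z ^ 4 * Z ^ 1992 := Nat.mul_le_mul hb ha
      _ = Z ^ 1996 := (pow_add Z 4 1992).symm
  have hVge : 2 * Z ^ 1909 ≤ V := by
    have ha : Z ^ 1991 < 4 * X2 := by
      have hb : Z * (2 * Z ^ 1991) < Z * (4 * (2 * X2)) := by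
        calc Z * (2 * Z ^ 1991) = 2 * Z ^ 1992 := by ring
          _ < 4 * (Z * (2 * X2)) := hX2
          _ = Z * (4 * (2 * X2)) := by ring
      have hc := lt_of_mul_lt_mul_left hb (Nat.zero_le Z)
      omega
    have hb : Z ^ 1991 ≤ 2 * V := by
      have hc : 1 ≤ Z ^ 3 := Nat.one_le_pow _ _ hZpos
      have hd : (2 * 1 + 1) * X2 ≤ V := Nat.mul_le_mul_right _ (by omega)
      omega
    have hc : 4 * Z ^ 1909 ≤ Z ^ 1991 := by
      calc 4 * Z ^ 1909 ≤ Z * Z ^ 1909 := Nat.mul_le_mul_right _ (by omega)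
        _ = Z ^ 1910 := (pow_succ' Z 1909).symm
        _ ≤ Z ^ 1991 := hpow _ _ (by norm_num)
    omega
  -- smooth numbers
  have hsm := hS (Z ^ 400) V (2 * Z ^ 1909) Z (Bs Z (Z ^ 400)) hZpos (by positivity) hVge
    (by
      calc 2 * (Z ^ 400) ^ 4 = 2 * Z ^ 1600 := by rw [← pow_mul]
        _ ≤ 2 * Z ^ 1909 := Nat.mul_le_mul_left _ (hpow _ _ (by norm_num)))
    (by
      calc V * Z ^ 4 ≤ Z ^ 1996 * Z ^ 4 := Nat.mul_le_mul_right _ hVle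
        _ = (Z ^ 400) ^ 5 := by rw [← pow_add, ← pow_mul])
    (by
      intro p hp
      have ha := mem_filter.mp hp
      have hb := mem_filter.mp ha.1
      exact ⟨hb.2, ha.2, (mem_Ioc.mp hb.1).2⟩)
  have hB : #(pr (Z ^ 400)) ≤ 2 * #(Bs Z (Z ^ 400)) := Bs_card (m := 399) hZ256 p400
  have hΛ : 1024 * Nat.log 2 V ^ 8 ≤ Z := by
    have ha : Nat.log 2 V ≤ Nat.log 2 (Z ^ 1996) := Nat.log_mono_right hVle
    have hb : (Nat.log 2 V : ℝ) ≤ 4000 * Real.log Z := by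
      have hc := log_pow_le Z 1996
      have hd : (Nat.log 2 V : ℝ) ≤ (Nat.log 2 (Z ^ 1996) : ℝ) := by exact_mod_cast ha
      push_cast at hc
      nlinarith
    have hc : (Nat.log 2 V : ℝ) ^ 8 ≤ (4000 * Real.log Z) ^ 8 :=
      pow_le_pow_left₀ (Nat.cast_nonneg _) hb 8
    rw [mul_pow] at hc
    have hd : (1024 : ℝ) * (Nat.log 2 V : ℝ) ^ 8 ≤ Z := by nlinarith
    exact_mod_cast hd
  have hVs : 2 * Z ^ 1909 ≤ Z * #{v ∈ Ioc (V - 2 * Z ^ 1909) V | Smooth (Z ^ 400) v} := by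
    refine smooth_count (M := Z ^ 400) (b := #(Bs Z (Z ^ 400))) (Λ := Nat.log 2 V)
      (by positivity) hΛ hsm ?_
    exact p400.trans (Nat.mul_le_mul_left _ (Nat.pow_le_pow_left hB 8))
  refine ⟨{ Z := Z, R := R, X := 2 * X2, V := V, Q := Q
            A := {n ∈ {p ∈ pr (Z ^ 80) | p % 2 = 1} | R - Z ^ 75 < n ∧ n ≤ R}
            Ps := {n ∈ pr (2 * Z ^ 1992) | 2 * X2 - 2 * Z ^ 1906 < n ∧ n ≤ 2 * X2}
            Vs := {v ∈ Ioc (V - 2 * Z ^ 1909) V | Smooth (Z ^ 400) v}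
            L := {n ∈ pr (Z ^ 800) | Q - Z ^ 700 < n ∧ n ≤ Q} }, ?_, rfl⟩
  refine
    { Z_big := hZ0, Z_log := ?_, Z_logr := ?_, R_lo := hR2, R_hi := hR3, X_lo := hX2, X_hi := hX3
      V_eq := ?_, Q_lo := hQ2, Q_hi := hQ3, A_mem := ?_, A_card := hR4, Ps_mem := ?_
      Ps_card := hX4, Vs_mem := ?_, Vs_card := hVs, L_eq := ?_, L_card := hQ4 }
  · have ha := log_pow_le Z 5000
    have hb : (Nat.log 2 (Z ^ 5000) : ℝ) + 2 ≤ Z := by
      push_cast at ha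
      nlinarith
    exact_mod_cast hb
  · have ha : Real.log ((Z ^ 800 : ℕ) : ℝ) = 800 * Real.log Z := by
      rw [Nat.cast_pow, Real.log_pow]
      norm_num
    show 2 + 8 * Real.log ((Z ^ 800 : ℕ) : ℝ) ≤ Z
    rw [ha]
    nlinarith
  · show 2 * V = (2 * Z ^ 3 + 1) * (2 * X2)
    rw [hV]
    ring
  · intro a ha
    have hb := mem_filter.mp ha
    have hc := mem_filter.mp hb.1
    exact ⟨(mem_filter.mp hc.1).2, hc.2, hb.2⟩
  · intro a ha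
    have hb := mem_filter.mp ha
    exact ⟨(mem_filter.mp hb.1).2, hb.2⟩
  · intro v hv
    have hb := mem_filter.mp hv
    exact ⟨hb.2, (mem_Ioc.mp hb.1).1, (mem_Ioc.mp hb.1).2⟩
  · intro l
    show l ∈ ({n ∈ pr (Z ^ 800) | Q - Z ^ 700 < n ∧ n ≤ Q} : Finset ℕ) ↔ _
    rw [mem_filter, pr, mem_filter, mem_Ioc]
    constructor
    · rintro ⟨⟨-, ha⟩, hb⟩
      exact ⟨ha, hb⟩
    · rintro ⟨ha, hb⟩
      exact ⟨⟨⟨ha.pos, hb.2.trans hQ3⟩, ha⟩, hb⟩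

end Pool.Agent.DHD
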