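import Pool.Agent.DHD.TFin

set_option autoImplicit false

/-!
# DP: a polynomial time algorithm for `D` gives P = NP
-/

namespace Pool.Agent.DHD

open Pool.Agent.PAH (DecisionProblem)
open Pool.Agent.SLN (Sym encBits Lit Satisfiable)
open Pool.Agent.PT (Dat PolyF Core)
open Pool.Agent.CookLevin (InNP encBool)
open Pool.Agent.H44 (minLargest)

namespace DP

/-- the number written by a string -/
def numOf (w : List Sym) : ℕ := Pool.Agent.PT.val (w.map fun c => decide (c = Sym.one))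

theorem numOf_encNum (n : ℕ) : numOf (encNum n) = n := by
  unfold numOf encNum encBits
  rw [List.map_map]
  have h : (n.bits.map ((fun c => decide (c = Sym.one)) ∘
      fun b => if b = true then Sym.one else Sym.zero)) = n.bits := by
    have : ((fun c => decide (c = Sym.one)) ∘
        fun b : Bool => if b = true then Sym.one else Sym.zero) = id := by
      funext b
      cases b <;> simp
    rw [this, List.map_id]
  rw [h]
  exact Pool.Agent.PT.val_bits n

theorem numOf_pt [Fact Core] {γ : Type} [Dat γ] {w : γ → List Sym} (hw : PolyF w) :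
    PolyF (fun x => numOf (w x)) := by
  unfold numOf
  have h1 : PolyF (fun c : Sym => decide (c = Sym.one)) :=
    Pool.Agent.SLN.eq_symS PolyF.id (PolyF.const _)
  exact PolyF.val (PolyF.map (f := fun _ c => decide (c = Sym.one))
    (h1.comp (PolyF.snd PolyF.id)) hw)

theorem encXY_pt [Fact Core] {γ : Type} [Dat γ] {a b : γ → ℕ} (ha : PolyF a) (hb : PolyF b) :
    PolyF (fun x => encXY (a x, b x)) := by
  unfold encXY
  exact PolyF.append (Pool.Agent.SLN.encBits_pt (PolyF.bits ha))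
    (PolyF.cons (PolyF.const _) (Pool.Agent.SLN.encBits_pt (PolyF.bits hb)))

end DP

open DP in
theorem tDP (hA : T_ALGF) (hT : T_PTALG) (hS : T_SIMF) : T_DP := by
  intro hD P hP
  have : Fact Core := ⟨Pool.Agent.PT.core⟩
  have := P.finite
  obtain ⟨dP⟩ := Pool.Agent.CookLevin.exists_dat P.Alphabet
  have := Fintype.ofFinite P.Alphabet
  obtain ⟨F0, hF0, hF0e⟩ := Pool.Agent.CookLevin.cook P hP
  obtain ⟨C, Z₀, hAlg⟩ := hA
  have hpt : PolyF (algo C Z₀) := (hT C Z₀).1
  obtain ⟨G, hG, hGe⟩ := hS _ _ _ hD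
  have hφ : PolyF (fun w : List P.Alphabet => algo C Z₀ (F0 w)) := hpt.comp hF0
  have h1 : PolyF (fun w : List P.Alphabet => encXY ((algo C Z₀ (F0 w)).1,
      (algo C Z₀ (F0 w)).2.1)) := encXY_pt hφ.fst hφ.snd.fst
  have h2 : PolyF (fun w : List P.Alphabet => numOf (G (encXY ((algo C Z₀ (F0 w)).1,
      (algo C Z₀ (F0 w)).2.1)))) := numOf_pt (hG.comp h1)
  have h3 : PolyF (fun w : List P.Alphabet => decide (numOf (G (encXY ((algo C Z₀ (F0 w)).1,
      (algo C Z₀ (F0 w)).2.1))) ≤ (algo C Z₀ (F0 w)).2.2)) := PolyF.nat_le h2 hφ.snd.snd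
  have h4 : PolyF (fun w : List P.Alphabet => [decide (numOf (G (encXY ((algo C Z₀ (F0 w)).1,
      (algo C Z₀ (F0 w)).2.1))) ≤ (algo C Z₀ (F0 w)).2.2)]) := PolyF.cons h3 (PolyF.const _)
  have key : ∀ φ, numOf (G (encXY ((algo C Z₀ φ).1, (algo C Z₀ φ).2.1))) =
      minLargest (algo C Z₀ φ).1 (algo C Z₀ φ).2.1 := by
    intro φ
    have h := hGe ⟨((algo C Z₀ φ).1, (algo C Z₀ φ).2.1), (hAlg φ).1, (hAlg φ).2.1⟩
    simp only at h
    rw [h, numOf_encNum]
  refine ⟨fun a => decide (minLargest (algo C Z₀ (F0 (P.enc a))).1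
    (algo C Z₀ (F0 (P.enc a))).2.1 ≤ (algo C Z₀ (F0 (P.enc a))).2.2), ?_, ?_⟩
  · apply Pool.Agent.PT.tm_of_polyF h4 P.enc encBool
    intro a
    simp only [key, encBool]
  · intro a
    rw [hF0e a, ← (hAlg (F0 (P.enc a))).2.2.2, decide_eq_true_iff]

end Pool.Agent.DHD
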