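import Pool.Agent.SLN.Defs
import Pool.Agent.H44.EFDefs

set_option autoImplicit false

/-!
# The decision problems for the least possible largest denominator `D(x/y)`

Used from `H44/EFDefs.lean`: `IsRep s q` (the finite set `s` of positive integers has
`∑ n ∈ s, 1/n = q`) and `minLargest x y` (this is `D(x/y)`).  Used from `PAH/Defs.lean`:
`DecisionProblem`.  Used from `SLN/Defs.lean`: the alphabet `Sym` and `encBits`.
-/

namespace Pool.Agent.DHD

open Pool.Agent.PAH (DecisionProblem)
open Pool.Agent.SLN (Sym encBits)
open Pool.Agent.H44 (IsRep minLargest)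

/-- an instance: `(x, y, N)` with `0 < x < y` -/
abbrev Inst : Type := {p : ℕ × ℕ × ℕ // 0 < p.1 ∧ p.1 < p.2.1}

/-- the numbers `x`, `y`, `N` in binary, separated by commas -/
def encBin (p : Inst) : List Sym :=
  encBits p.1.1.bits ++ Sym.comma :: (encBits p.1.2.1.bits ++ Sym.comma :: encBits p.1.2.2.bits)

/-- the numbers `x`, `y` in binary and `N` in unary, separated by commas -/
def encUn (p : Inst) : List Sym :=
  encBits p.1.1.bits ++ Sym.comma :: (encBits p.1.2.1.bits ++ Sym.comma ::
    List.replicate p.1.2.2 Sym.one)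

end Pool.Agent.DHD
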