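import Pool.Agent.DHD.TAlg

set_option autoImplicit false

/-!
# GADB: the Boolean gadget test is correct
-/

namespace Pool.Agent.DHD

namespace GADB

theorem all_rng (b : List Unit) (f : ℕ → Bool) :
    ((rng b).all f = true) ↔ ∀ d < b.length, f d = true := by
  simp [rng, List.all_eq_true, List.mem_range]

theorem primeB_iff (b : List Unit) (n : ℕ) (hn : n ≤ b.length) :
    primeB b n = true ↔ n.Prime := by
  rw [Nat.prime_def_lt', primeB, Bool.and_eq_true, all_rng, decide_eq_true_eq]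
  refine and_congr_right fun h2 => ?_
  constructor
  · intro h m hm hmn hdvd
    have := h m (lt_of_lt_of_le hmn hn)
    simp only [Bool.or_eq_true, decide_eq_true_eq, Bool.not_eq_true', decide_eq_false_iff_not] at this
    rcases this with (h1 | h1) | h1
    · omega
    · omega
    · exact h1 (Nat.mod_eq_zero_of_dvd hdvd)
  · intro h d _
    simp only [Bool.or_eq_true, decide_eq_true_eq, Bool.not_eq_true', decide_eq_false_iff_not]
    by_cases h1 : d < 2
    · exact Or.inl (Or.inl h1)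
    by_cases h3 : n ≤ d
    · exact Or.inl (Or.inr h3)
    · exact Or.inr fun h4 => h d (by omega) (by omega) (Nat.dvd_of_mod_eq_zero h4)

theorem smoothB_iff (b : List Unit) (M u : ℕ) (hu : u < b.length) :
    smoothB b M u = true ↔ Smooth M u := by
  rw [smoothB, Bool.and_eq_true, all_rng, decide_eq_true_eq, Smooth]
  refine and_congr_right fun h0 => ?_
  constructor
  · intro h p hp hpu
    have hlt : p < b.length := lt_of_le_of_lt (Nat.le_of_dvd h0 hpu) hu
    have := h p hlt
    simp only [Bool.or_eq_true, decide_eq_true_eq, Bool.not_eq_true', decide_eq_false_iff_not]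
      at this
    rcases this with (h1 | h1) | h1
    · exact h1
    · exact absurd (Nat.mod_eq_zero_of_dvd hpu) h1
    · rw [(primeB_iff b p hlt.le).mpr hp] at h1
      exact absurd h1 (by simp)
  · intro h p hp
    simp only [Bool.or_eq_true, decide_eq_true_eq, Bool.not_eq_true', decide_eq_false_iff_not]
    by_cases h1 : p ≤ M
    · exact Or.inl (Or.inl h1)
    by_cases h2 : u % p = 0
    · right
      by_contra h3
      rw [Bool.not_eq_false] at h3
      exact h1 (h p ((primeB_iff b p hp.le).mp h3) (Nat.dvd_of_mod_eq_zero h2))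
    · exact Or.inl (Or.inr h2)

theorem res_iff (r l X : ℕ) (a : ℤ) (hl : 2 ≤ l) (hr : (r : ℤ) = a % l) :
    (r * X) % l = 1 ↔ (l : ℤ) ∣ a * X - 1 := by
  have h1 : ((r * X) % l = 1) ↔ (((r * X) % l : ℕ) : ℤ) = 1 := by norm_cast
  rw [h1]
  push_cast
  rw [hr]
  have h2 : (a % (l : ℤ) * (X : ℤ)) % (l : ℤ) = (a * X) % (l : ℤ) := by
    rw [Int.mul_emod, Int.emod_emod_of_dvd _ dvd_rfl, ← Int.mul_emod]
  have h3 : (1 : ℤ) % (l : ℤ) = 1 := Int.emod_eq_of_lt (by norm_num) (by exact_mod_cast hl)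
  rw [h2]
  constructor
  · intro h
    have h4 : (1 : ℤ) ≡ a * X [ZMOD (l : ℤ)] := by
      rw [Int.ModEq, h3, h]
    exact h4.dvd
  · intro h
    have h4 : (1 : ℤ) ≡ a * X [ZMOD (l : ℤ)] := Int.modEq_iff_dvd.mpr h
    rw [Int.ModEq, h3] at h4
    exact h4.symm

theorem c1B_iff (b : List Unit) (π : LPar) (w P v : ℕ) (hP : 0 < P) (hN : π.par.N < b.length)
    (hQ : π.par.Q2 < b.length) :
    c1B b π w P v = true ↔ ∀ j, P * j ≤ π.par.N → j % P = v % P → ∀ p, p.Prime → π.par.Q1 < p →
      p ≤ π.par.Q2 → p ∣ j → j = w := by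
  rw [c1B, all_rng]
  constructor
  · intro h j hj hjv p hp hp1 hp2 hpj
    have hjb : j < b.length := lt_of_le_of_lt (le_trans (Nat.le_mul_of_pos_left j hP) hj) hN
    have := h j hjb
    simp only [Bool.or_eq_true, decide_eq_true_eq, Bool.not_eq_true', decide_eq_false_iff_not]
      at this
    rcases this with ((h1 | h1) | h1) | h1
    · exact absurd hj (not_le.mpr h1)
    · exact absurd hjv h1
    · exact h1
    · rw [all_rng] at h1
      have hpb : p < b.length := lt_of_le_of_lt hp2 hQ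
      have := h1 p hpb
      simp only [Bool.or_eq_true, decide_eq_true_eq, Bool.not_eq_true', decide_eq_false_iff_not]
        at this
      rcases this with ((h2 | h2) | h2) | h2
      · exact absurd (Nat.mod_eq_zero_of_dvd hpj) h2
      · exact absurd hp1 (not_lt.mpr h2)
      · exact absurd hp2 (not_le.mpr h2)
      · rw [(primeB_iff b p hpb.le).mpr hp] at h2
        exact absurd h2 (by simp)
  · intro h j _
    simp only [Bool.or_eq_true, decide_eq_true_eq, Bool.not_eq_true', decide_eq_false_iff_not]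
    by_cases h1 : π.1.2 < P * j
    · exact Or.inl (Or.inl (Or.inl h1))
    by_cases h2 : j % P = v % P
    swap
    · exact Or.inl (Or.inl (Or.inr h2))
    by_cases h3 : j = w
    · exact Or.inl (Or.inr h3)
    right
    rw [all_rng]
    intro p hp
    simp only [Bool.or_eq_true, decide_eq_true_eq, Bool.not_eq_true', decide_eq_false_iff_not]
    by_cases h4 : j % p = 0
    swap
    · exact Or.inl (Or.inl (Or.inl h4))
    by_cases h5 : p ≤ π.2.2.1.1
    · exact Or.inl (Or.inl (Or.inr h5))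
    by_cases h6 : π.2.2.1.2 < p
    · exact Or.inl (Or.inr h6)
    right
    by_contra h7
    rw [Bool.not_eq_false] at h7
    exact h3 (h j (not_lt.mp h1) h2 p ((primeB_iff b p hp.le).mp h7) (not_le.mp h5)
      (not_lt.mp h6) (Nat.dvd_of_mod_eq_zero h4))

end GADB

theorem tGADB : T_GADB := by
  intro b π l l' r r' a a' P u v hok hN hl hl' hr hr' hPb hub hvb
  have hQP : π.par.Q2 ≤ π.par.P1 := hok.Q_le
  constructor
  · intro h
    simp only [gadB, Bool.and_eq_true, decide_eq_true_eq] at h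
    obtain ⟨⟨⟨⟨⟨⟨⟨⟨⟨⟨⟨⟨⟨⟨h1, h2⟩, h3⟩, h4⟩, h5⟩, h6⟩, h7⟩, h8⟩, h9⟩, h10⟩, h11⟩, h12⟩, h13⟩, h14⟩,
      h15⟩ := h
    have hPp : P.Prime := (GADB.primeB_iff b P hPb.le).mp h1
    have hQ : π.par.Q2 < b.length := lt_of_le_of_lt hQP (lt_trans (show π.par.P1 < P from h2) hPb)
    refine ⟨hPp, h2, h3, (GADB.smoothB_iff b _ u hub).mp h4, (GADB.smoothB_iff b _ v hvb).mp h5,
      h6, Nat.dvd_of_mod_eq_zero h7, h8, h9, h10, ?_, ?_, ⟨h13, h14⟩,
      (GADB.c1B_iff b π _ P v hPp.pos hN hQ).mp h15⟩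
    · have := (GADB.res_iff r l (P * u * l') a hl.two_le hr).mp h11
      push_cast at this
      exact this
    · have := (GADB.res_iff r' l' (P * u * l) a' hl'.two_le hr').mp h12
      push_cast at this
      exact this
  · intro h
    have hQ : π.par.Q2 < b.length := lt_of_le_of_lt hQP (lt_trans h.P1 hPb)
    simp only [gadB, Bool.and_eq_true, decide_eq_true_eq]
    refine ⟨⟨⟨⟨⟨⟨⟨⟨⟨⟨⟨⟨⟨⟨(GADB.primeB_iff b P hPb.le).mpr h.prime, h.P1⟩, h.P2⟩,
      (GADB.smoothB_iff b _ u hub).mpr h.su⟩, (GADB.smoothB_iff b _ v hvb).mpr h.sv⟩, h.lt⟩,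
      Nat.mod_eq_zero_of_dvd h.dvd⟩, h.lo⟩, h.hi⟩, h.small⟩, ?_⟩, ?_⟩, h.c0.1⟩, h.c0.2⟩,
      (GADB.c1B_iff b π _ P v h.prime.pos hN hQ).mpr h.c1⟩
    · refine (GADB.res_iff r l (P * u * l') a hl.two_le hr).mpr ?_
      push_cast
      exact h.res
    · refine (GADB.res_iff r' l' (P * u * l) a' hl'.two_le hr').mpr ?_
      push_cast
      exact h.res'

end Pool.Agent.DHD
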