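import Pool.Agent.DHD.TAlg

set_option autoImplicit false

/-!
# GADS: the list of gadgets is correct
-/

namespace Pool.Agent.DHD

open Finset

namespace GADS

theorem gad_lt {π : Par} {l l' : ℕ} {a a' : ℤ} {P u v : ℕ} (hl : l.Prime) (hl' : l'.Prime)
    (h : Gad π l l' a a' P u v) : P ≤ π.N ∧ u ≤ π.N ∧ v ≤ π.N := by
  have hP := h.prime.pos
  have hv : 0 < v := h.sv.1
  have h1 := h.hi
  have h2 := h.lt
  have h3 : 0 < l * l' := Nat.mul_pos hl.pos hl'.pos
  have h4 : v ≤ P * v := Nat.le_mul_of_pos_left _ hP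
  have h5 : P ≤ P * v := Nat.le_mul_of_pos_right _ hv
  have h6 : u ≤ l * l' * u := Nat.le_mul_of_pos_left _ h3
  omega

end GADS

/-- GADS -/
theorem tGADS (hG : T_GADB) : T_GADS := by
  intro b π l l' r r' a a' hok hN hl hl' hr hr'
  have key : ∀ P < b.length, ∀ g, g ∈ gadsP b π l l' r r' P ↔
      (g.1 = P ∧ Gad π.par l l' a a' P g.2.1 g.2.2) := by
    intro P hP g
    simp only [gadsP, rng, List.mem_flatMap, List.mem_map, List.mem_filter, List.mem_range]
    constructor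
    · rintro ⟨u, hu, v, ⟨hv, hB⟩, rfl⟩
      exact ⟨rfl, (hG b π l l' r r' a a' P u v hok hN hl hl' hr hr' hP hu hv).1 hB⟩
    · rintro ⟨h1, h2⟩
      obtain ⟨P', u, v⟩ := g
      simp only at h1 h2
      subst h1
      obtain ⟨-, hu, hv⟩ := GADS.gad_lt hl hl' h2
      have hu' : u < b.length := lt_of_le_of_lt hu hN
      have hv' : v < b.length := lt_of_le_of_lt hv hN
      exact ⟨u, hu', v, ⟨hv', (hG b π l l' r r' a a' P' u v hok hN hl hl' hr hr' hP hu' hv').2 h2⟩,
        rfl⟩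
  refine ⟨key, ?_⟩
  unfold cntB cnt
  rw [List.countP_eq_length_filter, rng,
    ← List.toFinset_card_of_nodup (List.nodup_range.filter _)]
  congr 1
  ext P
  simp only [List.mem_toFinset, List.mem_filter, List.mem_range, Finset.mem_filter,
    Finset.mem_Ioc, Bool.not_eq_true', List.isEmpty_eq_false_iff]
  constructor
  · rintro ⟨hP, hne⟩
    obtain ⟨g, hg⟩ := List.exists_mem_of_ne_nil _ hne
    have h := ((key P hP g).1 hg).2
    exact ⟨⟨h.P1, h.P2⟩, _, _, h⟩
  · rintro ⟨-, u, v, h⟩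
    have hP : P < b.length := lt_of_le_of_lt (GADS.gad_lt hl hl' h).1 hN
    exact ⟨hP, List.ne_nil_of_mem ((key P hP (P, u, v)).2 ⟨rfl, h⟩)⟩

end Pool.Agent.DHD
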