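import Pool.Agent.DHD.TAlg

set_option autoImplicit false

/-!
# GOODB: if the parameters work then the output is correct
-/

namespace Pool.Agent.DHD.GOODB

open Finset
open scoped Classical

lemma getD_mem {α : Type} (l : List α) (d : α) {i : ℕ} (hi : i < l.length) : l.getD i d ∈ l := by
  rw [List.getD_eq_getElem _ _ hi]
  exact List.getElem_mem hi

lemma idx_inj {m i t i' t' : ℕ} (ht : t < m) (ht' : t' < m) (h : i * m + t = i' * m + t') :
    i = i' ∧ t = t' := by
  have hm : 0 < m := by omega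
  have h1 : (i * m + t) / m = i := by
    rw [Nat.mul_comm, Nat.mul_add_div hm, Nat.div_eq_of_lt ht, Nat.add_zero]
  have h2 : (i' * m + t') / m = i' := by
    rw [Nat.mul_comm, Nat.mul_add_div hm, Nat.div_eq_of_lt ht', Nat.add_zero]
  have h3 : i = i' := by rw [← h1, ← h2, h]
  refine ⟨h3, ?_⟩
  rw [h3] at h
  omega

lemma idx_lt {m k i t : ℕ} (hi : i < k) (ht : t < m) : i * m + t < k * m := by
  calc i * m + t < i * m + m := by omega
    _ = (i + 1) * m := by ring
    _ ≤ k * m := Nat.mul_le_mul_right _ hi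

lemma valid (hP : T_POOLB) (b : List Unit) (π : LPar) (S : LSys) (Z : ℕ) (hPar : π.par.Ok)
    (hN : π.par.N < b.length) (hk : kB π = π.par.k) (θs : List Th) (gs : List (ℕ × ℕ × ℕ))
    (hT : ThOk b π S Z θs) (hG : GsOk b π S θs gs) :
    Valid π.par S.sys π.par.k (fun i x => ellB (poolB b π) (θs.getD i (0, 0, 0)) x)
      (fun i => (θs.getD i (0, 0, 0)).2.2)
      (fun i t => (gs.getD (i * S.sys.m + t) (0, 0, 0)).1)
      (fun i t => (gs.getD (i * S.sys.m + t) (0, 0, 0)).2.1)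
      (fun i t => (gs.getD (i * S.sys.m + t) (0, 0, 0)).2.2) := by
  have hlen : θs.length = π.par.k := by rw [hT.len, hk]
  have hmem : ∀ i < π.par.k, θs.getD i (0, 0, 0) ∈ θs := fun i hi =>
    getD_mem _ _ (by rw [hlen]; exact hi)
  refine ⟨?_, ?_, ?_, ?_, ?_⟩
  · intro i hi x hx
    have h1 := hT.pos _ (hmem i hi) x hx
    have h2 : ellB (poolB b π) (θs.getD i (0, 0, 0)) x ∈ poolB b π := getD_mem _ _ h1
    have h3 := (hP b π).2.1 _ h2
    unfold pool at h3
    rw [Finset.mem_filter, Finset.mem_Ioc] at h3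
    exact ⟨h3.2, h3.1.1, h3.1.2⟩
  · intro i hi x hx i' hi' x' hx' h
    exact hT.inj i (by rw [hlen]; exact hi) x hx i' (by rw [hlen]; exact hi') x' hx' h
  · intro i hi x hx
    exact hT.ndv _ (hmem i hi) x hx
  · intro i hi t ht
    exact hG.gad i (by rw [hlen]; exact hi) t ht
  · intro i hi t ht i' hi' t' ht' h
    have h1 := hG.inj (i * S.sys.m + t) (by rw [hG.len, hlen]; exact idx_lt hi ht)
      (i' * S.sys.m + t') (by rw [hG.len, hlen]; exact idx_lt hi' ht') h
    exact idx_inj ht ht' h1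

end Pool.Agent.DHD.GOODB

namespace Pool.Agent.DHD

theorem tGOODB (hTS : T_RUNTS) (hRG : T_RUNG) (hOut : T_OUT) (hO : T_OKB) (hP : T_POOLB)
    (hS : T_SOUND) : T_GOODB := by
  intro b π S Z hSok hN hgood
  unfold goodB at hgood
  rw [Bool.and_eq_true, Bool.and_eq_true] at hgood
  obtain ⟨⟨hok, hflag⟩, -⟩ := hgood
  obtain ⟨hPar, -, hZQ, -, -⟩ := (hO Z π).1.1 hok
  obtain ⟨-, hk, -, -, hBig⟩ := (hO Z π).2 hok
  have hT := hTS b π S Z hSok hok hN hflag
  have hG := (hRG b π S Z _ hSok hok hN hT).2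
  obtain ⟨hy, hNN, heq⟩ := hOut b π S Z hSok hok hN hT hG
  have hV := GOODB.valid hP b π S Z hPar hN hk _ _ hT hG
  have hk0 : 0 < π.par.k := by unfold Par.k; omega
  rw [hNN]
  exact hS π.par S.sys Z π.par.k _ _ _ _ _ _ _ hPar hSok.sys hZQ hV (hBig S.sys hSok.sys.m_le)
    hk0 hy heq

end Pool.Agent.DHD
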