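import Pool.Agent.DHD.TFin

set_option autoImplicit false

/-!
# HARDB: NP-hardness of both versions
-/

namespace Pool.Agent.DHD

open Pool.Agent.PAH (DecisionProblem)
open Pool.Agent.SLN (Sym encBits Lit)
open Pool.Agent.PT (Dat PolyF)
open Pool.Agent.CookLevin (InNP NPHard)

theorem HARDB.filter_range (n : ℕ) : ∀ m : ℕ, n ≤ m →
    ((List.range m).filter fun j => decide (j < n)).map (fun _ => Sym.one) =
      List.replicate n Sym.one := by
  intro m hm
  have h : ((List.range m).filter fun j => decide (j < n)) = List.range n := by
    induction m with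
    | zero =>
      have : n = 0 := by omega
      subst this
      rfl
    | succ m ih =>
      rw [List.range_succ, List.filter_append]
      rcases Nat.lt_or_ge m n with h1 | h1
      · have h2 : n = m + 1 := by omega
        subst h2
        rw [List.range_succ]
        congr 1
        · rw [List.filter_eq_self]
          intro a ha
          have := List.mem_range.1 ha
          simp
          omega
        · simp
      · rw [ih h1]
        have : ¬ m < n := by omega
        simp [this]
  rw [h, List.map_const', List.length_range]

theorem tHARDB (h1 : T_ALGF) (h2 : T_PTALG) : T_HARDB := by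
  obtain ⟨C, Z₀, h⟩ := h1
  obtain ⟨-, hb, hu⟩ := h2 C Z₀
  constructor
  · letI : Dat largestDenominator.Alphabet := (inferInstance : Dat Sym)
    exact Pool.Agent.CookLevin.hard largestDenominator
      (fun φ => ⟨algo C Z₀ φ, (h φ).1, (h φ).2.1⟩) _ hb (fun φ => rfl)
      (fun φ => (h φ).2.2.2.symm)
  · letI : Dat largestDenominatorUnary.Alphabet := (inferInstance : Dat Sym)
    refine Pool.Agent.CookLevin.hard largestDenominatorUnary
      (fun φ => ⟨algo C Z₀ φ, (h φ).1, (h φ).2.1⟩) _ hu (fun φ => ?_)
      (fun φ => (h φ).2.2.2.symm)
    show printUn _ _ = encUn _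
    unfold printUn encUn rng
    rw [HARDB.filter_range _ _ (h φ).2.2.1.le]

end Pool.Agent.DHD
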