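import Pool.Agent.DHD.TFin
import Pool.Agent.H44.EFEnd

set_option autoImplicit false

/-!
# DHD, entry NPU: the unary version of the problem is in NP
-/

namespace Pool.Agent.DHD

open Pool.Agent.PT hiding Sym
open Pool.Agent.SLN (Sym encBits)
open Pool.Agent.H44 (IsRep minLargest)
open Pool.Agent.CookLevin (InNP encPair encBool)

namespace NPU

/-! ## The check -/

/-- the chosen denominators, minus one -/
def dens (b w : List Bool) : List ℕ := (List.range b.length).filter fun i => w.getD i false

/-- one step of the summation -/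
def stp (p : ℕ × ℕ) (i : ℕ) : ℕ × ℕ := (p.1 * (i + 1) + p.2, p.2 * (i + 1))

/-- the check -/
def chk (x y : ℕ) (b w : List Bool) : Bool :=
  decide (((dens b w).foldl stp (0, 1)).1 * y = x * ((dens b w).foldl stp (0, 1)).2)

theorem stp_bound (n : ℕ) (l : List ℕ) : ∀ a b : ℕ, (∀ i ∈ l, i < n) →
    (l.foldl stp (a, b)).1 ≤ (a + l.length * b) * (n + 1) ^ l.length ∧
    (l.foldl stp (a, b)).2 ≤ b * (n + 1) ^ l.length := by
  induction l with
  | nil => intro a b _; simp
  | cons i l ih =>
    intro a b h
    have hi : i + 1 ≤ n + 1 := by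
      have := h i (by simp)
      omega
    obtain ⟨h1, h2⟩ := ih (a * (i + 1) + b) (b * (i + 1)) (fun j hj => h j (by simp [hj]))
    rw [List.foldl_cons, List.length_cons]
    have e : stp (a, b) i = (a * (i + 1) + b, b * (i + 1)) := rfl
    rw [e]
    have e1 : a * (i + 1) + b + l.length * (b * (i + 1)) ≤
        (a + (l.length + 1) * b) * (n + 1) := by
      have q1 : a * (i + 1) ≤ a * (n + 1) := Nat.mul_le_mul_left _ hi
      have q2 : b * (i + 1) ≤ b * (n + 1) := Nat.mul_le_mul_left _ hi
      have q3 : l.length * (b * (i + 1)) ≤ l.length * (b * (n + 1)) := Nat.mul_le_mul_left _ q2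
      nlinarith [Nat.zero_le (b * n)]
    refine ⟨h1.trans ?_, h2.trans ?_⟩
    · calc (a * (i + 1) + b + l.length * (b * (i + 1))) * (n + 1) ^ l.length
          ≤ ((a + (l.length + 1) * b) * (n + 1)) * (n + 1) ^ l.length :=
            Nat.mul_le_mul_right _ e1
        _ = (a + (l.length + 1) * b) * (n + 1) ^ (l.length + 1) := by ring
    · calc b * (i + 1) * (n + 1) ^ l.length ≤ b * (n + 1) * (n + 1) ^ l.length :=
            Nat.mul_le_mul_right _ (Nat.mul_le_mul_left _ hi)
        _ = b * (n + 1) ^ (l.length + 1) := by ring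

theorem sz_of_lt {m k : ℕ} (h : m < 2 ^ k) : sz m ≤ 4 * k + 1 := by
  have h1 : m.bits.length ≤ k := by
    rw [Nat.size_eq_bits_len]
    exact Nat.size_le.2 h
  have h2 := sz_bits_le m.bits
  have h3 := sz_nat m
  omega

theorem sz_fold (n : ℕ) (l : List ℕ) (h : ∀ i ∈ l, i < n) (hl : l.length ≤ n) :
    sz (l.foldl stp (0, 1)) ≤ 8 * ((n + 1) * (n + 1)) + 3 := by
  obtain ⟨h1, h2⟩ := stp_bound n l 0 1 h
  have h3 : (n + 1) ^ (n + 1) < 2 ^ ((n + 1) * (n + 1)) := by
    rw [pow_mul]
    exact Nat.pow_lt_pow_left Nat.lt_two_pow_self (by omega)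
  have h4 : (n + 1) ^ l.length ≤ (n + 1) ^ n := Nat.pow_le_pow_right (by omega) hl
  have h5 : (l.foldl stp (0, 1)).1 < 2 ^ ((n + 1) * (n + 1)) := by
    refine lt_of_le_of_lt h1 (lt_of_le_of_lt ?_ h3)
    rw [zero_add, mul_one, pow_succ, mul_comm]
    exact Nat.mul_le_mul h4 (by omega)
  have h6 : (l.foldl stp (0, 1)).2 < 2 ^ ((n + 1) * (n + 1)) := by
    refine lt_of_le_of_lt h2 (lt_of_le_of_lt ?_ h3)
    rw [one_mul]
    exact h4.trans (Nat.pow_le_pow_right (by omega) (by omega))
  have h7 := sz_of_lt h5
  have h8 := sz_of_lt h6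
  have h9 : sz (l.foldl stp (0, 1)) = sz (l.foldl stp (0, 1)).1 + sz (l.foldl stp (0, 1)).2 + 1 :=
    rfl
  omega

theorem stp_val (l : List ℕ) : ∀ a b : ℕ, 0 < b → 0 < (l.foldl stp (a, b)).2 ∧
    ((l.foldl stp (a, b)).1 : ℚ) / (l.foldl stp (a, b)).2 =
      (a : ℚ) / b + (l.map fun i => (1 : ℚ) / ((i + 1 : ℕ) : ℚ)).sum := by
  induction l with
  | nil => intro a b hb; simpa using hb
  | cons i l ih =>
    intro a b hb
    rw [List.foldl_cons]
    have e : stp (a, b) i = (a * (i + 1) + b, b * (i + 1)) := rfl
    rw [e]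
    obtain ⟨h1, h2⟩ := ih (a * (i + 1) + b) (b * (i + 1)) (by positivity)
    refine ⟨h1, ?_⟩
    rw [h2, List.map_cons, List.sum_cons]
    have hb' : (b : ℚ) ≠ 0 := by exact_mod_cast hb.ne'
    have hi' : ((i : ℚ) + 1) ≠ 0 := by positivity
    push_cast
    field_simp
    ring

theorem chk_iff (x y : ℕ) (hy : 0 < y) (b w : List Bool) : chk x y b w = true ↔
    ((dens b w).map fun i => (1 : ℚ) / ((i + 1 : ℕ) : ℚ)).sum = (x : ℚ) / y := by
  obtain ⟨h1, h2⟩ := stp_val (dens b w) 0 1 one_pos
  rw [Nat.cast_zero, zero_div, zero_add] at h2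
  rw [← h2]
  unfold chk
  rw [decide_eq_true_iff]
  have hy' : (y : ℚ) ≠ 0 := by exact_mod_cast hy.ne'
  have h1' : (((dens b w).foldl stp (0, 1)).2 : ℚ) ≠ 0 := by exact_mod_cast h1.ne'
  rw [div_eq_div_iff h1' hy']
  exact_mod_cast Iff.rfl

theorem dens_nodup (b w : List Bool) : (dens b w).Nodup := List.nodup_range.filter _

theorem mem_dens {b w : List Bool} {i : ℕ} : i ∈ dens b w ↔ i < b.length ∧ w.getD i false = true := by
  simp [dens]

/-- the check succeeds for some witness iff there is a representation -/
theorem chk_spec (x y : ℕ) (hx : 0 < x) (hxy : x < y) (b : List Bool) :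
    minLargest x y ≤ b.length ↔ ∃ w : List Bool, w.length ≤ b.length ∧ chk x y b w = true := by
  have hy : 0 < y := by omega
  constructor
  · intro h
    obtain ⟨s, ⟨hs1, hs2⟩, hs3⟩ := Pool.Agent.H44.minLargest_spec hx hxy
    refine ⟨(List.range b.length).map fun i => decide (i + 1 ∈ s), by simp, ?_⟩
    rw [chk_iff x y hy, ← hs2]
    set w := (List.range b.length).map fun i => decide (i + 1 ∈ s) with hw
    have hmem : ∀ i, i ∈ dens b w ↔ i + 1 ∈ s := by
      intro i
      rw [mem_dens]
      constructor
      · rintro ⟨h1, h2⟩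
        rw [List.getD_eq_getElem (hn := by simpa [hw] using h1)] at h2
        simpa [hw] using h2
      · intro h1
        have h2 : i + 1 ≤ b.length := by
          have h3 : id (i + 1) ≤ s.sup id := Finset.le_sup h1
          rw [hs3] at h3
          exact h3.trans h
        have h4 : i < b.length := by omega
        refine ⟨h4, ?_⟩
        rw [List.getD_eq_getElem (hn := by simpa [hw] using h4)]
        simpa [hw] using h1
    have hsum : ((dens b w).map fun i => (1 : ℚ) / ((i + 1 : ℕ) : ℚ)).sum =
        ∑ i ∈ (dens b w).toFinset, (1 : ℚ) / ((i + 1 : ℕ) : ℚ) :=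
      (List.sum_toFinset _ (dens_nodup b w)).symm
    rw [hsum]
    refine Finset.sum_bij (fun i _ => i + 1) ?_ ?_ ?_ ?_
    · intro i hi
      exact (hmem i).1 (List.mem_toFinset.1 hi)
    · intro i _ j _ hij
      simpa using hij
    · intro n hn
      have hn0 := hs1 n hn
      obtain ⟨i, rfl⟩ : ∃ i, n = i + 1 := ⟨n - 1, by omega⟩
      exact ⟨i, List.mem_toFinset.2 ((hmem i).2 hn), rfl⟩
    · intro i _
      rfl
  · rintro ⟨w, -, hw⟩
    rw [chk_iff x y hy] at hw
    have hrep : IsRep (((dens b w).toFinset).image fun i => i + 1) ((x : ℚ) / y) := by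
      refine ⟨?_, ?_⟩
      · intro n hn
        obtain ⟨i, -, rfl⟩ := Finset.mem_image.1 hn
        exact Nat.succ_pos i
      · rw [Finset.sum_image (by intro i _ j _ hij; simpa using hij), ← hw]
        exact List.sum_toFinset _ (dens_nodup b w)
    refine (Pool.Agent.H44.minLargest_le hrep).trans (Finset.sup_le ?_)
    intro n hn
    obtain ⟨i, hi, rfl⟩ := Finset.mem_image.1 hn
    have := (mem_dens.1 (List.mem_toFinset.1 hi)).1
    show i + 1 ≤ b.length
    omega

/-! ## Parsing -/

/-- state of the parser: which commas have been read, and the three strings, reversed -/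
abbrev St : Type := (Bool × Bool) × List Bool × List Bool × List Bool

/-- one step of the parser -/
def step (s : St) (c : Sym) : St :=
  bif decide (c = SLN.Sym.comma) then ((true, s.1.1), s.2)
  else bif s.1.2 then (s.1, s.2.1, s.2.2.1, decide (c = SLN.Sym.one) :: s.2.2.2)
  else bif s.1.1 then (s.1, s.2.1, decide (c = SLN.Sym.one) :: s.2.2.1, s.2.2.2)
  else (s.1, decide (c = SLN.Sym.one) :: s.2.1, s.2.2.1, s.2.2.2)

theorem fold0 (a : List Bool) : ∀ X Y N : List Bool,
    (encBits a).foldl step ((false, false), X, Y, N) = ((false, false), a.reverse ++ X, Y, N) := by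
  induction a with
  | nil => intro X Y N; rfl
  | cons x a ih =>
    intro X Y N
    have e : encBits (x :: a) = (if x then SLN.Sym.one else SLN.Sym.zero) :: encBits a := rfl
    rw [e, List.foldl_cons]
    cases x
    · have e2 : step ((false, false), X, Y, N) (if false = true then SLN.Sym.one else SLN.Sym.zero) =
          ((false, false), false :: X, Y, N) := rfl
      rw [e2, ih]
      simp
    · have e2 : step ((false, false), X, Y, N) (if true = true then SLN.Sym.one else SLN.Sym.zero) =
          ((false, false), true :: X, Y, N) := rfl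
      rw [e2, ih]
      simp

theorem fold1 (a : List Bool) : ∀ X Y N : List Bool,
    (encBits a).foldl step ((true, false), X, Y, N) = ((true, false), X, a.reverse ++ Y, N) := by
  induction a with
  | nil => intro X Y N; rfl
  | cons x a ih =>
    intro X Y N
    have e : encBits (x :: a) = (if x then SLN.Sym.one else SLN.Sym.zero) :: encBits a := rfl
    rw [e, List.foldl_cons]
    cases x
    · have e2 : step ((true, false), X, Y, N) (if false = true then SLN.Sym.one else SLN.Sym.zero) =
          ((true, false), X, false :: Y, N) := rfl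
      rw [e2, ih]
      simp
    · have e2 : step ((true, false), X, Y, N) (if true = true then SLN.Sym.one else SLN.Sym.zero) =
          ((true, false), X, true :: Y, N) := rfl
      rw [e2, ih]
      simp

theorem fold2 (n : ℕ) : ∀ X Y N : List Bool,
    (List.replicate n SLN.Sym.one).foldl step ((true, true), X, Y, N) =
      ((true, true), X, Y, List.replicate n true ++ N) := by
  induction n with
  | zero => intro X Y N; rfl
  | succ n ih =>
    intro X Y N
    rw [List.replicate_succ, List.foldl_cons]
    have e2 : step ((true, true), X, Y, N) SLN.Sym.one = ((true, true), X, Y, true :: N) := rfl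
    rw [e2, ih]
    congr 3
    rw [List.append_cons, ← List.replicate_succ', List.replicate_succ, List.cons_append]

theorem fold_enc (p : Inst) : (encUn p).foldl step ((false, false), [], [], []) =
    ((true, true), p.1.1.bits.reverse, p.1.2.1.bits.reverse, List.replicate p.1.2.2 true) := by
  unfold encUn
  rw [List.foldl_append, fold0, List.foldl_cons]
  have e1 : step ((false, false), p.1.1.bits.reverse ++ [], [], []) SLN.Sym.comma =
      ((true, false), p.1.1.bits.reverse ++ [], [], []) := rfl
  rw [e1, List.foldl_append, fold1, List.foldl_cons]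
  have e2 : step ((true, false), p.1.1.bits.reverse ++ [], p.1.2.1.bits.reverse ++ [], [])
      SLN.Sym.comma = ((true, true), p.1.1.bits.reverse ++ [], p.1.2.1.bits.reverse ++ [], []) := rfl
  rw [e2, fold2]
  simp

/-! ## The verifier -/

/-- letters of the input of the verifier -/
abbrev Ltr : Type := Sym ⊕ Bool

/-- letters as data -/
@[instance_reducible, local instance] def datLtr : Dat Ltr :=
  ⟨fun c => enc ((Sum.elim (fun a => (false, a, false)) (fun b => (true, SLN.Sym.zero, b)) c :
    Bool × Sym × Bool)), by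
    intro c d h
    have h' := Dat.inj h
    rcases c with c | c <;> rcases d with d | d <;> simp at h' ⊢ <;> exact h'⟩

/-- the instance -/
def lf (c : Ltr) : List Sym := Sum.elim (fun a => [a]) (fun _ => []) c

/-- the witness -/
def rt (c : Ltr) : List Bool := Sum.elim (fun _ => []) (fun b => [b]) c

theorem flat_lf (u : List Sym) (w : List Bool) :
    (u.map Sum.inl ++ w.map Sum.inr : List Ltr).flatMap lf = u := by
  have h1 : ∀ u : List Sym, (u.map Sum.inl : List Ltr).flatMap lf = u := by
    intro u
    induction u with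
    | nil => rfl
    | cons a u ih => rw [List.map_cons, List.flatMap_cons, ih]; rfl
  have h2 : ∀ w : List Bool, (w.map Sum.inr : List Ltr).flatMap lf = [] := by
    intro w
    induction w with
    | nil => rfl
    | cons a w ih => rw [List.map_cons, List.flatMap_cons, ih]; rfl
  rw [List.flatMap_append, h1, h2, List.append_nil]

theorem flat_rt (u : List Sym) (w : List Bool) :
    (u.map Sum.inl ++ w.map Sum.inr : List Ltr).flatMap rt = w := by
  have h1 : ∀ u : List Sym, (u.map Sum.inl : List Ltr).flatMap rt = [] := by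
    intro u
    induction u with
    | nil => rfl
    | cons a u ih => rw [List.map_cons, List.flatMap_cons, ih]; rfl
  have h2 : ∀ w : List Bool, (w.map Sum.inr : List Ltr).flatMap rt = w := by
    intro w
    induction w with
    | nil => rfl
    | cons a w ih => rw [List.map_cons, List.flatMap_cons, ih]; rfl
  rw [List.flatMap_append, h1, h2, List.nil_append]

/-- the verifier, on the parsed instance -/
def verSt (s : St) (w : List Bool) : List Bool :=
  [chk (val s.2.1.reverse) (val s.2.2.1.reverse) s.2.2.2 w]

/-- the verifier, on strings -/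
def ver (z : List Ltr) : List Bool :=
  verSt ((z.flatMap lf).foldl step ((false, false), [], [], [])) (z.flatMap rt)

theorem ver_enc (p : Inst) (w : List Bool) :
    ver ((encUn p).map Sum.inl ++ w.map Sum.inr : List Ltr) =
      [chk p.1.1 p.1.2.1 (List.replicate p.1.2.2 true) w] := by
  unfold ver
  rw [flat_lf, flat_rt, fold_enc]
  unfold verSt
  simp only [List.reverse_reverse, val_bits]

section

variable {γ : Type} [Dat γ] [hC : Fact Core]

theorem step_pt {s : γ → St} {c : γ → Sym} (hs : PolyF s) (hc : PolyF c) :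
    PolyF (fun x => step (s x) (c x)) := by
  have h1 : ∀ d : Sym, PolyF (fun x => decide (c x = d)) := fun d => PolyF.eq hc (PolyF.const d)
  have h2 := h1 SLN.Sym.comma
  have h3 := h1 SLN.Sym.one
  unfold step
  fun_prop

omit hC [Dat γ] in
theorem sz_step_le (s : St) (c : Sym) : sz (step s c) ≤ sz s + 20 := by
  obtain ⟨⟨f, g⟩, X, Y, N⟩ := s
  have h1 := sz_bool f
  have h2 := sz_bool g
  have h3 := sz_bool (decide (c = SLN.Sym.one))
  have h4 := sz_pos f
  have h5 := sz_pos g
  have h6 : sz true = 3 := rfl
  unfold step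
  cases h7 : decide (c = SLN.Sym.comma) <;> cases g <;> cases f <;>
    simp only [cond_true, cond_false, sz_pair, sz_cons, h6] <;> omega

omit hC [Dat γ] in
theorem sz_foldl_step (w : List Sym) (s : St) : sz (w.foldl step s) ≤ sz s + 20 * w.length := by
  induction w generalizing s with
  | nil => simp
  | cons c w ih =>
    rw [List.foldl_cons, List.length_cons]
    have := ih (step s c)
    have := sz_step_le s c
    omega

theorem foldl_step_pt : PolyF (fun w : List Sym => w.foldl step ((false, false), [], [], [])) := by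
  refine PolyF.foldl (f := fun _ => step) (step_pt (by fun_prop) (by fun_prop)) (by fun_prop)
    (by fun_prop)
    (fun w => sz (((false, false), [], [], []) : St) + 20 * sz w)
    ((PolyB.const _).add ((PolyB.const 20).mul PolyB.sz)) ?_
  intro w l₁ hl₁
  have h1 := sz_foldl_step l₁ ((false, false), [], [], [])
  have h2 := length_lt_sz l₁
  have h3 := sz_le_of_prefix hl₁
  omega

theorem dens_pt {b w : γ → List Bool} (hb : PolyF b) (hw : PolyF w) :
    PolyF (fun x => dens (b x) (w x)) := by
  unfold dens
  refine PolyF.filter (f := fun x i => (w x).getD i false) ?_ (by fun_prop)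
  have h1 : PolyF (fun p : γ × ℕ => w p.1) := PolyF.comp (g := fun p : γ × ℕ => p.1) hw (by fun_prop)
  exact PolyF.getD h1 (by fun_prop) (by fun_prop)

theorem fold_pt (hA : T_ARITH) {b w : γ → List Bool} (hb : PolyF b) (hw : PolyF w) :
    PolyF (fun x => (dens (b x) (w x)).foldl stp (0, 1)) := by
  refine PolyF.foldl (f := fun _ => stp) ?_ (by fun_prop) (dens_pt hb hw)
    (fun x => 8 * ((sz (b x) + 1) * (sz (b x) + 1)) + 3) ?_ ?_
  · have h0 : PolyF (fun p : γ × (ℕ × ℕ) × ℕ => p.2.2 + 1) := by fun_prop
    have h1 := (hA (γ × (ℕ × ℕ) × ℕ) (fun p => p.2.1.1) (fun p => p.2.2 + 1) (by fun_prop) h0).1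
    have h2 := (hA (γ × (ℕ × ℕ) × ℕ) (fun p => p.2.1.2) (fun p => p.2.2 + 1) (by fun_prop) h0).1
    unfold stp
    exact PolyF.pair (PolyF.nat_add h1 (by fun_prop)) h2
  · exact ((PolyB.const 8).mul ((hb.bound.add (PolyB.const 1)).mul
      (hb.bound.add (PolyB.const 1)))).add (PolyB.const 3)
  · intro x l₁ hl₁
    have h1 : ∀ i ∈ l₁, i < (b x).length := fun i hi => (mem_dens.1 (hl₁.subset hi)).1
    have h2 : l₁.length ≤ (b x).length := by
      refine hl₁.length_le.trans ?_
      unfold dens
      refine (List.length_filter_le _ _).trans ?_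
      simp
    refine (sz_fold (b x).length l₁ h1 h2).trans ?_
    have h3 := length_lt_sz (b x)
    have h4 : ((b x).length + 1) * ((b x).length + 1) ≤ (sz (b x) + 1) * (sz (b x) + 1) :=
      Nat.mul_le_mul (by omega) (by omega)
    omega

theorem chk_pt (hA : T_ARITH) {x y : γ → ℕ} {b w : γ → List Bool} (hx : PolyF x) (hy : PolyF y)
    (hb : PolyF b) (hw : PolyF w) : PolyF (fun z => chk (x z) (y z) (b z) (w z)) := by
  have h1 := fold_pt hA hb hw
  have h2 := (hA γ _ _ h1.fst hy).1
  have h3 := (hA γ _ _ hx h1.snd).1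
  unfold chk
  exact PolyF.eq_nat h2 h3

theorem ver_pt (hA : T_ARITH) : PolyF ver := by
  have hl : PolyF lf := PolyF.finite lf
  have hr : PolyF rt := PolyF.finite rt
  have h1 : PolyF (fun z : List Ltr => z.flatMap lf) := by
    refine PolyF.flatMap (f := fun _ => lf) ?_ PolyF.id
    exact PolyF.comp (g := fun p : List Ltr × Ltr => p.2) hl (by fun_prop)
  have h2 : PolyF (fun z : List Ltr => z.flatMap rt) := by
    refine PolyF.flatMap (f := fun _ => rt) ?_ PolyF.id
    exact PolyF.comp (g := fun p : List Ltr × Ltr => p.2) hr (by fun_prop)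
  have h3 : PolyF (fun z : List Ltr =>
      (z.flatMap lf).foldl step ((false, false), [], [], [])) := foldl_step_pt.comp h1
  unfold ver verSt
  refine PolyF.cons ?_ (PolyF.const [])
  refine chk_pt hA ?_ ?_ ?_ h2
  · exact PolyF.val (PolyF.reverse (PolyF.fst (PolyF.snd h3)))
  · exact PolyF.val (PolyF.reverse (PolyF.fst (PolyF.snd (PolyF.snd h3))))
  · exact PolyF.snd (PolyF.snd (PolyF.snd h3))

end

end NPU

attribute [local instance] NPU.datLtr

open NPU in
/-- NPU: the unary version is in NP -/
theorem tNPU (hA : T_ARITH) : T_NPU := by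
  have : Fact Core := ⟨core⟩
  refine ⟨fun a => chk a.1.1.1 a.1.1.2.1 (List.replicate a.1.1.2.2 true) a.2, Polynomial.X,
    ?_, ?_⟩
  · refine tm_of_polyF (ver_pt hA) _ _ _ ?_
    intro a
    exact ver_enc a.1 a.2
  · intro a
    obtain ⟨⟨x, y, N⟩, hx, hxy⟩ := a
    have h1 := chk_spec x y hx hxy (List.replicate N true)
    rw [List.length_replicate] at h1
    show minLargest x y ≤ N ↔ ∃ w : List Bool, w.length ≤
      (Polynomial.X : Polynomial ℕ).eval (encUn ⟨(x, y, N), hx, hxy⟩).length ∧
      chk x y (List.replicate N true) w = true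
    rw [Polynomial.eval_X]
    have h2 : N ≤ (encUn ⟨(x, y, N), hx, hxy⟩).length := by
      unfold encUn
      simp only [List.length_append, List.length_cons, List.length_replicate]
      omega
    constructor
    · intro h
      obtain ⟨w, hw1, hw2⟩ := h1.1 h
      exact ⟨w, hw1.trans h2, hw2⟩
    · rintro ⟨w, hw1, hw2⟩
      refine h1.2 ⟨w.take N, ?_, ?_⟩
      · simp
      · have e : dens (List.replicate N true) (w.take N) = dens (List.replicate N true) w := by
          unfold dens
          apply List.filter_congr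
          intro i hi
          have hi' : i < N := by simpa using hi
          simp [List.getD_eq_getElem?_getD, hi']
        unfold chk
        rw [e]
        exact hw2

end Pool.Agent.DHD
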