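import Pool.Agent.DHD.TAlg

set_option autoImplicit false

/-!
# OKB: the inequalities between the parameters
-/

namespace Pool.Agent.DHD

namespace OKB

theorem bits_length {n : ℕ} (h : n ≠ 0) : n.bits.length = Nat.log 2 n + 1 := by
  rw [Nat.size_eq_bits_len]
  apply le_antisymm
  · rw [Nat.size_le]
    exact Nat.lt_pow_succ_log_self (by norm_num) n
  · have h1 : Nat.log 2 n < n.size := by
      rw [Nat.lt_size]
      exact Nat.pow_log_le_self 2 h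
    omega

theorem foldl_two {α : Type} (l : List α) : ∀ s : ℕ, l.foldl (fun s _ => 2 * s) s =
    2 ^ l.length * s := by
  induction l with
  | nil => intro s; simp
  | cons a l ih =>
    intro s
    rw [List.foldl_cons, ih, List.length_cons, pow_succ]
    ring

theorem K1_eq (π : LPar) (h : π.1.2 ≠ 0) : K1B π = π.par.K1 := by
  unfold K1B Par.K1 LPar.par
  rw [bits_length h]

theorem k_eq (π : LPar) (h : π.1.2 ≠ 0) : kB π = π.par.k := by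
  unfold kB Par.k
  rw [K1_eq π h]

theorem N_ne (π : LPar) (h1 : 2 ≤ π.1.1) (h2 : π.1.1 * π.1.1 ≤ π.1.2) : π.1.2 ≠ 0 := by
  nlinarith

theorem ok_iff (Z : ℕ) (π : LPar) : okB Z π = true ↔
    (π.par.Ok ∧ 100 ≤ Z ∧ Z * Z + Z < π.par.Q1 ∧ π.par.D = Z ^ 2 ∧
      3 * (π.par.k * Z) + π.par.K1 + 10 ≤ π.par.N) := by
  constructor
  · intro h
    simp only [okB, Bool.and_eq_true, decide_eq_true_eq] at h
    obtain ⟨⟨⟨⟨⟨⟨⟨⟨⟨⟨⟨⟨h1, h2⟩, h3⟩, h4⟩, h5⟩, h6⟩, h7⟩, h8⟩, h9⟩, h10⟩, h11⟩, h12⟩, h13⟩ := h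
    have hN := N_ne π h1 h5
    rw [K1_eq π hN, k_eq π hN] at h13
    refine ⟨⟨h1, h2, h3, h4, h5, ?_, ?_, ?_, ?_⟩, h10, h11, ?_, h13⟩
    · calc π.par.N < π.2.1.1 * (π.2.1.1 * π.2.1.1) := h6
        _ = π.par.P1 ^ 3 := by simp only [LPar.par]; ring
    · calc π.par.N < π.2.2.1.1 * (π.2.1.1 * π.2.1.1) := h7
        _ = π.par.Q1 * π.par.P1 ^ 2 := by simp only [LPar.par]; ring
    · calc π.par.N < (π.2.2.1.1 * (π.2.2.1.1 * π.2.2.1.1)) *
            (π.2.2.1.1 * (π.2.2.1.1 * π.2.2.1.1)) := h8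
        _ = π.par.Q1 ^ 6 := by simp only [LPar.par]; ring
    · calc (π.par.P2 - π.par.P1) * π.par.N < π.2.2.2.2 * (π.2.1.1 * π.2.1.1) := h9
        _ = π.par.E * π.par.P1 ^ 2 := by simp only [LPar.par]; ring
    · calc π.par.D = Z * Z := h12
        _ = Z ^ 2 := by ring
  · rintro ⟨⟨h1, h2, h3, h4, h5, h6, h7, h8, h9⟩, h10, h11, h12, h13⟩
    have hN := N_ne π h1 h5
    rw [← K1_eq π hN, ← k_eq π hN] at h13
    simp only [okB, Bool.and_eq_true, decide_eq_true_eq]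
    refine ⟨⟨⟨⟨⟨⟨⟨⟨⟨⟨⟨⟨h1, h2⟩, h3⟩, h4⟩, h5⟩, ?_⟩, ?_⟩, ?_⟩, ?_⟩, h10⟩, h11⟩, ?_⟩, h13⟩
    · calc π.1.2 < π.par.P1 ^ 3 := h6
        _ = π.2.1.1 * (π.2.1.1 * π.2.1.1) := by simp only [LPar.par]; ring
    · calc π.1.2 < π.par.Q1 * π.par.P1 ^ 2 := h7
        _ = π.2.2.1.1 * (π.2.1.1 * π.2.1.1) := by simp only [LPar.par]; ring
    · calc π.1.2 < π.par.Q1 ^ 6 := h8
        _ = (π.2.2.1.1 * (π.2.2.1.1 * π.2.2.1.1)) *
            (π.2.2.1.1 * (π.2.2.1.1 * π.2.2.1.1)) := by simp only [LPar.par]; ring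
    · calc (π.2.1.2 - π.2.1.1) * π.1.2 < π.par.E * π.par.P1 ^ 2 := h9
        _ = π.2.2.2.2 * (π.2.1.1 * π.2.1.1) := by simp only [LPar.par]; ring
    · calc π.2.2.2.1 = Z ^ 2 := h12
        _ = Z * Z := by ring

theorem big (Z : ℕ) (π : Par) (hZ : 100 ≤ Z) (hD : π.D = Z ^ 2)
    (hN : 3 * (π.k * Z) + π.K1 + 10 ≤ π.N) (S : BSys) (hm : S.m ≤ Z) : π.Big S π.k := by
  have hd : 99 * Z ≤ π.D - 1 := by
    rw [hD]
    have : 99 * Z + 1 ≤ Z ^ 2 := by nlinarith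
    omega
  have hd0 : 0 < π.D - 1 := by omega
  have hkm : π.k * S.m ≤ π.k * Z := Nat.mul_le_mul_left _ hm
  have h1 : π.k * S.m / (π.D - 1) * 99 ≤ π.k := by
    have h2 : π.k * S.m / (π.D - 1) * (π.D - 1) ≤ π.k * S.m := Nat.div_mul_le_self _ _
    have h3 : π.k * S.m / (π.D - 1) * (99 * Z) ≤ π.k * Z :=
      le_trans (Nat.mul_le_mul_left _ hd) (le_trans h2 hkm)
    have h4 : (π.k * S.m / (π.D - 1) * 99) * Z ≤ π.k * Z := by
      calc (π.k * S.m / (π.D - 1) * 99) * Z = π.k * S.m / (π.D - 1) * (99 * Z) := by ring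
        _ ≤ _ := h3
    exact Nat.le_of_mul_le_mul_right h4 (by omega)
  have hk : π.k = 60 * (π.K1 + 6) := rfl
  constructor
  · omega
  · unfold Par.T
    have h5 : π.k * S.m / (π.D - 1) ≤ π.k * S.m := Nat.div_le_self _ _
    omega

end OKB

open OKB

theorem tOKB : T_OKB := by
  intro Z π
  refine ⟨ok_iff Z π, fun h => ?_⟩
  obtain ⟨hok, hZ, hQ, hD, hN⟩ := (ok_iff Z π).1 h
  have hN0 : π.1.2 ≠ 0 := N_ne π hok.M_pos hok.MM
  refine ⟨K1_eq π hN0, k_eq π hN0, ?_, fun s => ?_, fun S hm => big Z _ hZ hD hN S hm⟩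
  · unfold pwB Par.pw
    rw [foldl_two, List.length_tail, bits_length hN0, Nat.add_sub_cancel, mul_one]
    rfl
  · unfold TB Par.T
    rw [K1_eq π hN0]
    rfl

end Pool.Agent.DHD
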