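import Pool.Agent.DHD.TAlg

set_option autoImplicit false

/-!
# OUT: the output is the target
-/

namespace Pool.Agent.DHD

open Finset

namespace OUT

/-- the value of a fraction -/
def fv (p : ℕ × ℕ) : ℚ := (p.1 : ℚ) / p.2

theorem foldl_addFr (L : List (ℕ × ℕ)) : ∀ s : ℕ × ℕ, 0 < s.2 → (∀ p ∈ L, 0 < p.2) →
    0 < (L.foldl addFr s).2 ∧ fv (L.foldl addFr s) = fv s + (L.map fv).sum := by
  induction L with
  | nil =>
    intro s hs _
    simp [hs]
  | cons p L ih =>
    intro s hs hL
    have hp : 0 < p.2 := hL p (by simp)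
    have h1 : 0 < (addFr s p).2 := Nat.mul_pos hs hp
    obtain ⟨h2, h3⟩ := ih (addFr s p) h1 (fun q hq => hL q (by simp [hq]))
    rw [List.foldl_cons]
    refine ⟨h2, ?_⟩
    rw [h3, List.map_cons, List.sum_cons, ← add_assoc]
    congr 1
    have hs' : (s.2 : ℚ) ≠ 0 := by exact_mod_cast hs.ne'
    have hp' : (p.2 : ℚ) ≠ 0 := by exact_mod_cast hp.ne'
    unfold fv addFr
    push_cast
    field_simp

/-- the sum over a list as a sum over a range -/
theorem sum_map_getD {α : Type} (L : List α) (d : α) (f : α → ℚ) :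
    (L.map f).sum = ∑ j ∈ range L.length, f (L.getD j d) := by
  induction L with
  | nil => simp
  | cons a L ih =>
    rw [List.map_cons, List.sum_cons, ih, List.length_cons, Finset.sum_range_succ']
    simp [add_comm]

theorem sum_blocks (f : ℕ → ℚ) (m : ℕ) : ∀ k, ∑ j ∈ range (k * m), f j =
    ∑ i ∈ range k, ∑ t ∈ range m, f (i * m + t) := by
  intro k
  induction k with
  | zero => simp
  | succ k ih => rw [Nat.succ_mul, Finset.sum_range_add, ih, Finset.sum_range_succ]

theorem sum_prodL {α β : Type} (l : List α) (m : List β) (f : α × β → ℚ) :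
    ((prodL l m).map f).sum = (l.map fun a => (m.map fun c => f (a, c)).sum).sum := by
  induction l with
  | nil => simp [prodL]
  | cons a l ih =>
    have h : prodL (a :: l) m = (m.map fun c => (a, c)) ++ prodL l m := by
      simp [prodL]
    rw [h, List.map_append, List.sum_append, ih, List.map_cons, List.sum_cons, List.map_map]
    rfl

theorem sum_zip (c : List ℕ) (f : ℕ × ℕ → ℚ) :
    (((List.range c.length).zip c).map f).sum = ∑ x ∈ range c.length, f (x, c.getD x 0) := by
  have h1 : ((List.range c.length).zip c).length = c.length := by simp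
  rw [sum_map_getD _ (0, 0) f, h1]
  refine Finset.sum_congr rfl fun x hx => ?_
  rw [mem_range] at hx
  congr 1
  rw [List.getD_eq_getElem _ _ (by rw [h1]; exact hx), List.getElem_zip, List.getElem_range,
    List.getD_eq_getElem _ _ hx]

end OUT

open OUT in
theorem tOUT (hOKB : T_OKB) : T_OUT := by
  intro b π S Z hS hok hN hTh hGs
  obtain ⟨-, hO⟩ := hOKB Z π
  obtain ⟨hK1, hk, hpw, hT, -⟩ := hO hok
  set pl := poolB b π with hpl
  set θs := (runT b π S Z).2.1 with hθs
  set gs := (runG b π S θs).2.1 with hgs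
  have hlen : θs.length = kB π := hTh.len
  have hm : S.sys.m = S.2.1.length := rfl
  have hn : S.sys.n = S.2.2.length := hS.len.symm
  -- positivity
  have hgpos : ∀ g ∈ gs, 0 < g.1 * g.2.2 := by
    intro g hg
    obtain ⟨j, hj, rfl⟩ := List.getElem_of_mem hg
    have hj' : j < θs.length * S.sys.m := by rw [← hGs.len]; exact hj
    have hm0 : 0 < S.sys.m := by
      rcases Nat.eq_zero_or_pos S.sys.m with h | h
      · rw [h] at hj'
        simp at hj'
      · exact h
    have h1 : j / S.sys.m < θs.length := Nat.div_lt_of_lt_mul (by rw [mul_comm]; exact hj')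
    have h2 : j % S.sys.m < S.sys.m := Nat.mod_lt _ hm0
    have h3 := hGs.gad _ h1 _ h2
    have h4 : j / S.sys.m * S.sys.m + j % S.sys.m = j := by
      rw [mul_comm]
      exact Nat.div_add_mod j S.sys.m
    rw [h4, List.getD_eq_getElem _ _ hj] at h3
    exact Nat.mul_pos h3.prime.pos h3.sv.1
  have hlpos : ∀ θ ∈ θs, ∀ x < S.1, 0 < ellB pl θ x := by
    intro θ hθ x hx
    have h1 := hTh.pos θ hθ x hx
    unfold ellB
    rw [List.getD_eq_getElem _ _ h1]
    have h2 : pl[θ.1 + θ.2.1 * x] ∈ pl := List.getElem_mem h1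
    have h3 : pl[θ.1 + θ.2.1 * x] ∈ poolB b π := h2
    unfold poolB at h3
    rw [List.mem_filter] at h3
    have h4 := h3.2
    simp only [Bool.and_eq_true, decide_eq_true_eq] at h4
    exact lt_of_le_of_lt (Nat.zero_le _) h4.1.1
  have hfr : ∀ p ∈ fracs pl S θs gs, 0 < p.2 := by
    intro p hp
    unfold fracs at hp
    rw [List.mem_append, List.mem_map, List.mem_map] at hp
    rcases hp with ⟨g, hg, rfl⟩ | ⟨q, hq, rfl⟩
    · exact hgpos g hg
    · unfold prodL at hq
      rw [List.mem_flatMap] at hq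
      obtain ⟨θ, hθ, hq⟩ := hq
      rw [List.mem_map] at hq
      obtain ⟨c, hc, rfl⟩ := hq
      have h1 := (List.of_mem_zip hc).1
      rw [List.mem_range, hS.len] at h1
      exact hlpos θ hθ _ h1
  obtain ⟨hF2, hF⟩ := foldl_addFr (fracs pl S θs gs) (0, 1) (by norm_num) hfr
  set F := (fracs pl S θs gs).foldl addFr (0, 1) with hFdef
  -- the sum
  have hsum : fv F = fsum S.sys π.par.k (fun i x => ellB pl (θs.getD i (0, 0, 0)) x)
      (fun i => (θs.getD i (0, 0, 0)).2.2)
      (fun i t => (gs.getD (i * S.sys.m + t) (0, 0, 0)).1)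
      (fun i t => (gs.getD (i * S.sys.m + t) (0, 0, 0)).2.2) := by
    rw [hF]
    have h0 : fv (0, 1) = 0 := by simp [fv]
    rw [h0, zero_add]
    unfold fracs fsum
    rw [List.map_append, List.sum_append, List.map_map, List.map_map, sum_map_getD gs (0, 0, 0),
      sum_prodL, sum_map_getD θs (0, 0, 0), hGs.len, sum_blocks, Finset.sum_add_distrib, hlen, hk]
    congr 1
    · refine Finset.sum_congr rfl fun i hi => Finset.sum_congr rfl fun t ht => ?_
      simp only [Function.comp, fv]
      push_cast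
      rfl
    · refine Finset.sum_congr rfl fun i hi => ?_
      rw [sum_zip, hn]
      refine Finset.sum_congr rfl fun x hx => ?_
      simp only [Function.comp, fv]
      push_cast
      rfl
  have hout : outB b S Z π = ((F.1 * pwB π) % F.2 +
      (TB π (kB π * S.2.1.length) * pwB π / π.1.2 + 1) * F.2, F.2 * pwB π, π.1.2) := rfl
  have hpw0 : 0 < pwB π := by
    rw [hpw]
    unfold Par.pw
    positivity
  rw [hout]
  refine ⟨Nat.mul_pos hF2 hpw0, rfl, ?_⟩
  have hB : TB π (kB π * S.2.1.length) * pwB π / π.1.2 + 1 = π.par.B (π.par.k * S.sys.m) := by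
    unfold Par.B
    rw [hT, hk, hpw, hm]
    rfl
  have hfract : Int.fract (fv F * π.par.pw) = ((F.1 * pwB π) % F.2 : ℕ) / (F.2 : ℚ) := by
    have h1 : fv F * π.par.pw = ((F.1 * pwB π : ℕ) : ℚ) / (F.2 : ℕ) := by
      unfold fv
      rw [hpw]
      push_cast
      ring
    rw [h1, Int.fract_div_natCast_eq_div_natCast_mod]
  show (((F.1 * pwB π) % F.2 +
      (TB π (kB π * S.2.1.length) * pwB π / π.1.2 + 1) * F.2 : ℕ) : ℚ) / ((F.2 * pwB π : ℕ) : ℚ) = _
  rw [hB]
  unfold target
  rw [← hsum, hfract]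
  have hF2' : (F.2 : ℚ) ≠ 0 := by exact_mod_cast hF2.ne'
  have hpw' : (π.par.pw : ℚ) ≠ 0 := by
    rw [← hpw]
    exact_mod_cast hpw0.ne'
  rw [hpw]
  push_cast
  field_simp

end Pool.Agent.DHD
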