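import Pool.Agent.DHD.TAlg

set_option autoImplicit false

/-!
# POOLB: the list of the primes of the vertices
-/

namespace Pool.Agent.DHD

open Finset
open Pool.Agent.PT (PolyF Dat)
open Pool.Agent.SLN (Lit Satisfiable Sym encBits)

namespace POOLB

/-- the Boolean primality test is correct for `n ≤ b.length` -/
theorem primeB_iff (b : List Unit) (n : ℕ) (hn : n ≤ b.length) :
    primeB b n = true ↔ n.Prime := by
  unfold primeB rng
  simp only [Bool.and_eq_true, decide_eq_true_eq, List.all_eq_true, List.mem_range,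
    Bool.or_eq_true, Bool.not_eq_true', decide_eq_false_iff_not]
  constructor
  · rintro ⟨h2, h⟩
    refine (Nat.prime_def_lt.2 ⟨h2, fun m hm hd => ?_⟩)
    rcases h m (lt_of_lt_of_le hm hn) with (h1 | h1) | h1
    · have : 0 < m := Nat.pos_of_dvd_of_pos hd (by omega)
      omega
    · omega
    · exact absurd (Nat.mod_eq_zero_of_dvd hd) h1
  · intro hp
    refine ⟨hp.two_le, fun d _ => ?_⟩
    by_cases h1 : d < 2
    · exact Or.inl (Or.inl h1)
    by_cases h3 : n ≤ d
    · exact Or.inl (Or.inr h3)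
    right
    intro h0
    rcases (Nat.dvd_prime hp).1 (Nat.dvd_of_mod_eq_zero h0) with h4 | h4 <;> omega

theorem mem_poolB (b : List Unit) (π : LPar) (p : ℕ) :
    p ∈ poolB b π ↔ p < b.length ∧ π.par.Q1 < p ∧ p ≤ π.par.Q2 ∧ p.Prime := by
  unfold poolB
  rw [List.mem_filter]
  unfold rng
  rw [List.mem_range]
  constructor
  · rintro ⟨h1, h2⟩
    simp only [Bool.and_eq_true, decide_eq_true_eq] at h2
    exact ⟨h1, h2.1.1, h2.1.2, (primeB_iff b p h1.le).1 h2.2⟩
  · rintro ⟨h1, h2, h3, h4⟩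
    refine ⟨h1, ?_⟩
    simp only [Bool.and_eq_true, decide_eq_true_eq]
    exact ⟨⟨h2, h3⟩, (primeB_iff b p h1.le).2 h4⟩

theorem mem_pool (π : Par) (p : ℕ) : p ∈ pool π ↔ π.Q1 < p ∧ p ≤ π.Q2 ∧ p.Prime := by
  unfold pool
  rw [Finset.mem_filter, Finset.mem_Ioc, and_assoc]

theorem nodup_poolB (b : List Unit) (π : LPar) : (poolB b π).Nodup := by
  unfold poolB rng
  exact List.Nodup.filter _ List.nodup_range

theorem mem_poolB_imp (b : List Unit) (π : LPar) (p : ℕ) (h : p ∈ poolB b π) :
    p ∈ pool π.par := by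
  rw [mem_poolB] at h
  rw [mem_pool]
  exact h.2

theorem mem_poolB_iff (b : List Unit) (π : LPar) (hb : π.par.Q2 < b.length) (p : ℕ) :
    p ∈ poolB b π ↔ p ∈ pool π.par := by
  rw [mem_poolB, mem_pool]
  constructor
  · exact fun h => h.2
  · exact fun h => ⟨lt_of_le_of_lt h.2.1 hb, h⟩

theorem length_poolB (b : List Unit) (π : LPar) (hb : π.par.Q2 < b.length) :
    (poolB b π).length = #(pool π.par) := by
  rw [← List.toFinset_card_of_nodup (nodup_poolB b π)]
  congr 1
  ext p
  rw [List.mem_toFinset, mem_poolB_iff b π hb]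

end POOLB

open POOLB in
/-- the list of the primes of the vertices is correct -/
theorem tPOOLB : T_POOLB := fun b π =>
  ⟨nodup_poolB b π, mem_poolB_imp b π, fun hb => ⟨length_poolB b π hb, mem_poolB_iff b π hb⟩⟩

end Pool.Agent.DHD
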