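import Pool.Agent.DHD.TAlg

set_option autoImplicit false

/-!
# DHD, entry PTALG: the whole algorithm runs in polynomial time
-/

namespace Pool.Agent.DHD

open Pool.Agent.PT
open Pool.Agent.SLN (Lit encBits)

namespace PTALG

variable {γ α β : Type} [Dat γ] [Dat α] [Dat β] [hC : Fact Core]

@[fun_prop] theorem rng_pt {f : γ → List Unit} (hf : PolyF f) : PolyF (fun x => rng (f x)) := by
  unfold rng
  fun_prop

@[fun_prop] theorem pwL_pt {f : γ → List Unit} (hf : PolyF f) (C : ℕ) :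
    PolyF (fun x => pwL (f x) C) := by
  induction C with
  | zero =>
    unfold pwL
    fun_prop
  | succ C ih =>
    unfold pwL
    refine PolyF.flatMap ?_ ih
    exact hf.comp (PolyF.fst PolyF.id)

@[fun_prop] theorem prodL_pt {f : γ → List α} {g : γ → List β} (hf : PolyF f) (hg : PolyF g) :
    PolyF (fun x => prodL (f x) (g x)) := by
  unfold prodL
  fun_prop

@[fun_prop] theorem parsL_pt {f : γ → List Unit} (hf : PolyF f) :
    PolyF (fun x => parsL (f x)) := by
  unfold parsL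
  fun_prop

theorem zL_pt (h : PolyF szOf) (Z₀ : ℕ) : PolyF (zL Z₀) := by
  unfold zL
  fun_prop

@[fun_prop] theorem encBits_pt {l : γ → List Bool} (hl : PolyF l) :
    PolyF (fun x => encBits (l x)) := by
  unfold encBits
  fun_prop

@[fun_prop] theorem printBin_pt {f : γ → ℕ × ℕ × ℕ} (hf : PolyF f) :
    PolyF (fun x => printBin (f x)) := by
  unfold printBin
  fun_prop

@[fun_prop] theorem printUn_pt {b : γ → List Unit} {f : γ → ℕ × ℕ × ℕ} (hb : PolyF b)
    (hf : PolyF f) : PolyF (fun x => printUn (b x) (f x)) := by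
  unfold printUn
  fun_prop

theorem algo_pt (hO : T_PTO) (hN : T_CNFPT) (C Z₀ : ℕ) : PolyF (algo C Z₀) := by
  obtain ⟨hsys, hsz⟩ := hN
  obtain ⟨hout, hgood⟩ := hO
  have hz : PolyF (zL Z₀) := zL_pt hsz Z₀
  have hb : PolyF (fun φ => pwL (zL Z₀ φ) C) := pwL_pt hz C
  have hZ : PolyF (fun φ => (zL Z₀ φ).length) := hz.length
  have hP : PolyF (fun φ => parsL (pwL (zL Z₀ φ) C)) := parsL_pt hb
  have hfst : PolyF (fun p : List (List Lit) × LPar => p.1) := PolyF.fst PolyF.id
  have hsnd : PolyF (fun p : List (List Lit) × LPar => p.2) := PolyF.snd PolyF.id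
  unfold algo
  generalize hB : (fun φ => pwL (zL Z₀ φ) C) = B at hb hP
  generalize hL : (fun φ => (zL Z₀ φ).length) = L at hZ
  have e1 : ∀ φ, pwL (zL Z₀ φ) C = B φ := fun φ => congrFun hB φ
  have e2 : ∀ φ, (zL Z₀ φ).length = L φ := fun φ => congrFun hL φ
  have e3 : (fun φ => parsL (pwL (zL Z₀ φ) C)) = fun φ => parsL (B φ) := by
    funext φ; rw [e1]
  rw [e3] at hP
  simp only [e1, e2]
  have h1 : PolyF (fun p : List (List Lit) × LPar => (B p.1, sysOf p.1, L p.1, p.2)) :=
    (hb.comp hfst).pair ((hsys.comp hfst).pair ((hZ.comp hfst).pair hsnd))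
  have h2 : PolyF (fun p : List (List Lit) × LPar => goodB (B p.1) (sysOf p.1) (L p.1) p.2) :=
    PolyF.comp (f := fun x : List Unit × LSys × ℕ × LPar => goodB x.1 x.2.1 x.2.2.1 x.2.2.2)
      (g := fun p : List (List Lit) × LPar => (B p.1, sysOf p.1, L p.1, p.2)) hgood h1
  have hl : PolyF (fun φ : List (List Lit) => (parsL (B φ)).filter
      (fun π => goodB (B φ) (sysOf φ) (L φ) π)) :=
    PolyF.filter (f := fun φ π => goodB (B φ) (sysOf φ) (L φ) π) h2 hP
  have hπ := hl.headD (PolyF.const (α := List (List Lit))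
    (((0, 0), (0, 0), (0, 0), (0, 0)) : LPar))
  exact PolyF.comp (f := fun x : List Unit × LSys × ℕ × LPar => outB x.1 x.2.1 x.2.2.1 x.2.2.2)
      (g := fun φ : List (List Lit) => (B φ, sysOf φ, L φ, ((parsL (B φ)).filter
      (fun π => goodB (B φ) (sysOf φ) (L φ) π)).headD ((0, 0), (0, 0), (0, 0), (0, 0))))
      hout (hb.pair (hsys.pair (hZ.pair hπ)))

end PTALG

/-- PTALG: the whole algorithm -/
theorem tPTALG (hO : T_PTO) (hN : T_CNFPT) : T_PTALG := by
  have : Fact Core := ⟨core⟩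
  intro C Z₀
  have h := PTALG.algo_pt hO hN C Z₀
  have hb : PolyF (fun φ => pwL (zL Z₀ φ) C) := PTALG.pwL_pt (PTALG.zL_pt hN.2 Z₀) C
  exact ⟨h, PTALG.printBin_pt h, PTALG.printUn_pt hb h⟩

end Pool.Agent.DHD
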