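import Pool.Agent.DHD.TAlg

set_option autoImplicit false

/-!
# DHD, entry PTG: the gadget tests are computed in polynomial time
-/

namespace Pool.Agent.DHD

open Pool.Agent.PT

namespace PTG

variable {γ α β : Type} [Dat γ] [Dat α] [Dat β] [hC : Fact Core] [hA : Fact T_ARITH]

omit hC in
@[fun_prop] theorem mul_pt {f g : γ → ℕ} (hf : PolyF f) (hg : PolyF g) :
    PolyF (fun x => f x * g x) := (hA.out γ f g hf hg).1

omit hC in
@[fun_prop] theorem sub_pt {f g : γ → ℕ} (hf : PolyF f) (hg : PolyF g) :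
    PolyF (fun x => f x - g x) := (hA.out γ f g hf hg).2.1

omit hC in
@[fun_prop] theorem div_pt {f g : γ → ℕ} (hf : PolyF f) (hg : PolyF g) :
    PolyF (fun x => f x / g x) := (hA.out γ f g hf hg).2.2.1

omit hC in
@[fun_prop] theorem mod_pt {f g : γ → ℕ} (hf : PolyF f) (hg : PolyF g) :
    PolyF (fun x => f x % g x) := (hA.out γ f g hf hg).2.2.2

omit hA in
@[fun_prop] theorem rng_pt {b : γ → List Unit} (hb : PolyF b) : PolyF (fun x => rng (b x)) := by
  unfold rng
  fun_prop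

@[fun_prop] theorem primeB_pt {b : γ → List Unit} {n : γ → ℕ} (hb : PolyF b) (hn : PolyF n) :
    PolyF (fun x => primeB (b x) (n x)) := by
  have h : PolyF (fun p : List Unit × ℕ => primeB p.1 p.2) := by
    unfold primeB
    fun_prop
  exact h.comp (hb.pair hn)

@[fun_prop] theorem smoothB_pt {b : γ → List Unit} {m n : γ → ℕ} (hb : PolyF b) (hm : PolyF m)
    (hn : PolyF n) : PolyF (fun x => smoothB (b x) (m x) (n x)) := by
  have h : PolyF (fun p : List Unit × ℕ × ℕ => smoothB p.1 p.2.1 p.2.2) := by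
    unfold smoothB
    fun_prop
  exact h.comp (hb.pair (hm.pair hn))

@[fun_prop] theorem resN_pt {a : γ → ℤ} {m n : γ → ℕ} (ha : PolyF a) (hm : PolyF m)
    (hn : PolyF n) : PolyF (fun x => resN (a x) (m x) (n x)) := by
  have h : PolyF (fun p : ℤ × ℕ × ℕ => resN p.1 p.2.1 p.2.2) := by
    unfold resN
    refine PolyF.ite' (p := fun p : ℤ × ℕ × ℕ => 0 ≤ p.1) ?_ ?_ ?_
    · fun_prop
    · fun_prop
    · fun_prop
  exact h.comp (ha.pair (hm.pair hn))

@[fun_prop] theorem c1B_pt {b : γ → List Unit} {π : γ → LPar} {w P v : γ → ℕ} (hb : PolyF b)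
    (hπ : PolyF π) (hw : PolyF w) (hP : PolyF P) (hv : PolyF v) :
    PolyF (fun x => c1B (b x) (π x) (w x) (P x) (v x)) := by
  have h : PolyF (fun p : List Unit × LPar × ℕ × ℕ × ℕ =>
      c1B p.1 p.2.1 p.2.2.1 p.2.2.2.1 p.2.2.2.2) := by
    unfold c1B
    fun_prop
  exact h.comp (hb.pair (hπ.pair (hw.pair (hP.pair hv))))

@[fun_prop] theorem gadB_pt {b : γ → List Unit} {π : γ → LPar} {l l' r r' P u v w : γ → ℕ}
    (hb : PolyF b) (hπ : PolyF π) (hl : PolyF l) (hl' : PolyF l') (hr : PolyF r)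
    (hr' : PolyF r') (hP : PolyF P) (hu : PolyF u) (hv : PolyF v) (hw : PolyF w) :
    PolyF (fun x => gadB (b x) (π x) (l x) (l' x) (r x) (r' x) (P x) (u x) (v x) (w x)) := by
  unfold gadB
  fun_prop

@[fun_prop] theorem gadsP_pt {b : γ → List Unit} {π : γ → LPar} {l l' r r' P : γ → ℕ}
    (hb : PolyF b) (hπ : PolyF π) (hl : PolyF l) (hl' : PolyF l') (hr : PolyF r)
    (hr' : PolyF r') (hP : PolyF P) :
    PolyF (fun x => gadsP (b x) (π x) (l x) (l' x) (r x) (r' x) (P x)) := by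
  unfold gadsP
  fun_prop

@[fun_prop] theorem cntB_pt {b : γ → List Unit} {π : γ → LPar} {l l' r r' : γ → ℕ}
    (hb : PolyF b) (hπ : PolyF π) (hl : PolyF l) (hl' : PolyF l') (hr : PolyF r)
    (hr' : PolyF r') :
    PolyF (fun x => cntB (b x) (π x) (l x) (l' x) (r x) (r' x)) := by
  unfold cntB
  fun_prop

end PTG

/-- PTG: the gadget tests are computed in polynomial time -/
theorem tPTG (h : T_ARITH) : T_PTG := by
  have : Fact Core := ⟨core⟩
  have : Fact T_ARITH := ⟨h⟩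
  refine ⟨?_, ?_, ?_, ?_⟩
  · fun_prop
  · fun_prop
  · fun_prop
  · fun_prop

end Pool.Agent.DHD
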