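import Pool.Agent.DHD.TAlg
import Pool.Agent.PT.Core

set_option autoImplicit false

/-!
# Polynomial time: the output of the algorithm
-/

namespace Pool.Agent.DHD.PTO

open Pool.Agent.PT

set_option linter.unusedSectionVars false

variable {γ : Type} [Dat γ] [hC : Fact Core] [hA : Fact T_ARITH]

@[fun_prop] theorem mul_pt {f g : γ → ℕ} (hf : PolyF f) (hg : PolyF g) :
    PolyF (fun x => f x * g x) := (hA.out γ f g hf hg).1

@[fun_prop] theorem sub_pt {f g : γ → ℕ} (hf : PolyF f) (hg : PolyF g) :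
    PolyF (fun x => f x - g x) := (hA.out γ f g hf hg).2.1

@[fun_prop] theorem div_pt {f g : γ → ℕ} (hf : PolyF f) (hg : PolyF g) :
    PolyF (fun x => f x / g x) := (hA.out γ f g hf hg).2.2.1

@[fun_prop] theorem mod_pt {f g : γ → ℕ} (hf : PolyF f) (hg : PolyF g) :
    PolyF (fun x => f x % g x) := (hA.out γ f g hf hg).2.2.2

theorem K1B_pt : PolyF (fun π : LPar => K1B π) := by
  unfold K1B
  fun_prop

theorem kB_pt : PolyF (fun π : LPar => kB π) := by
  unfold kB
  have h := K1B_pt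
  fun_prop

theorem TB_pt {π : γ → LPar} {s : γ → ℕ} (hπ : PolyF π) (hs : PolyF s) :
    PolyF (fun x => TB (π x) (s x)) := by
  unfold TB
  have h : PolyF (fun x => K1B (π x)) := K1B_pt.comp hπ
  fun_prop

theorem okB_pt : PolyF (fun x : ℕ × LPar => okB x.1 x.2) := by
  unfold okB
  have h : PolyF (fun x : ℕ × LPar => kB x.2) := kB_pt.comp (by fun_prop)
  have h' : PolyF (fun x : ℕ × LPar => K1B x.2) := K1B_pt.comp (by fun_prop)
  fun_prop

omit hC hA in
theorem pw_foldl (l : List Bool) : ∀ s : ℕ, l.foldl (fun s _ => 2 * s) s = 2 ^ l.length * s := by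
  induction l with
  | nil => intro s; simp
  | cons a l ih => intro s; rw [List.foldl_cons, ih, List.length_cons, pow_succ]; ring

omit hC hA in
theorem sz_of_lt {n k : ℕ} (h : n < 2 ^ k) : sz n ≤ 4 * k + 1 := by
  rw [sz_nat]
  have h1 := sz_bits_le n.bits
  rw [Nat.size_eq_bits_len] at h1
  have h2 := Nat.size_le.mpr h
  omega

omit hC hA in
theorem lt_two_pow_sz (n : ℕ) : n < 2 ^ sz n := by
  have h1 := le_sz_bits n.bits
  rw [Nat.size_eq_bits_len] at h1
  rw [← Nat.size_le, sz_nat]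
  omega

theorem pwB_pt : PolyF (fun π : LPar => pwB π) := by
  unfold pwB
  refine PolyF.foldl (f := fun _ s _ => 2 * s) (by fun_prop) (by fun_prop) (by fun_prop)
    (fun π => 4 * (sz π.1.2.bits + 1) + 1) ?_ ?_
  · have h : PolyF (fun π : LPar => π.1.2.bits) := by fun_prop
    exact ((PolyB.const 4).mul (h.bound.add (PolyB.const 1))).add (PolyB.const 1)
  · intro π l₁ hl₁
    rw [pw_foldl, mul_one]
    apply sz_of_lt
    apply Nat.pow_lt_pow_right (by norm_num)
    have h1 := hl₁.length_le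
    rw [List.length_tail] at h1
    have h2 := length_lt_sz π.1.2.bits
    omega

theorem addFr_pt : PolyF (fun p : γ × (ℕ × ℕ) × (ℕ × ℕ) => addFr p.2.1 p.2.2) := by
  unfold addFr
  fun_prop

omit hC hA in
theorem addFr_bound (l : List (ℕ × ℕ)) : ∀ (s : ℕ × ℕ) (A : ℕ), s.1 < 2 ^ A → s.2 < 2 ^ A →
    (l.foldl addFr s).1 < 2 ^ (A + sz l) ∧ (l.foldl addFr s).2 < 2 ^ (A + sz l) := by
  induction l with
  | nil =>
    intro s A h1 h2
    rw [sz_nil, List.foldl_nil]
    have : 2 ^ A ≤ 2 ^ (A + 1) := Nat.pow_le_pow_right (by norm_num) (by omega)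
    exact ⟨by omega, by omega⟩
  | cons q l ih =>
    intro s A h1 h2
    rw [List.foldl_cons, sz_cons]
    have e : A + (sz q + sz l + 1) = (A + (sz q + 1)) + sz l := by ring
    rw [e]
    obtain ⟨a, b⟩ := q
    have ha := lt_two_pow_sz a
    have hb := lt_two_pow_sz b
    rw [sz_pair]
    apply ih
    · show s.1 * b + a * s.2 < _
      have h3 : s.1 * b ≤ 2 ^ A * 2 ^ sz b := Nat.mul_le_mul h1.le hb.le
      have h4 : a * s.2 < 2 ^ sz a * 2 ^ A := Nat.mul_lt_mul'' ha h2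
      rw [← pow_add] at h3 h4
      have h5 : 2 ^ (A + sz b) ≤ 2 ^ (A + (sz a + sz b + 1)) :=
        Nat.pow_le_pow_right (by norm_num) (by omega)
      have h6 : 2 ^ (sz a + A) ≤ 2 ^ (A + (sz a + sz b + 1)) :=
        Nat.pow_le_pow_right (by norm_num) (by omega)
      have h7 : 2 ^ (A + (sz a + sz b + 1 + 1)) = 2 ^ (A + (sz a + sz b + 1)) +
        2 ^ (A + (sz a + sz b + 1)) := by
        rw [show A + (sz a + sz b + 1 + 1) = (A + (sz a + sz b + 1)) + 1 by ring, pow_succ]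
        ring
      omega
    · show s.2 * b < _
      have h4 : s.2 * b < 2 ^ A * 2 ^ sz b := Nat.mul_lt_mul'' h2 hb
      rw [← pow_add] at h4
      have h5 : 2 ^ (A + sz b) ≤ 2 ^ (A + (sz a + sz b + 1 + 1)) :=
        Nat.pow_le_pow_right (by norm_num) (by omega)
      omega

theorem sum_pt {l : γ → List (ℕ × ℕ)} (hl : PolyF l) :
    PolyF (fun x => (l x).foldl addFr (0, 1)) := by
  refine PolyF.foldl (f := fun _ s a => addFr s a) addFr_pt (PolyF.const _) hl
    (fun x => (4 * (1 + sz (l x)) + 1) + (4 * (1 + sz (l x)) + 1) + 1) ?_ ?_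
  · have h : PolyB (fun x => 4 * (1 + sz (l x)) + 1) :=
      (((PolyB.const 4).mul ((PolyB.const 1).add hl.bound)).add (PolyB.const 1))
    exact (h.add h).add (PolyB.const 1)
  · intro x l₁ hl₁
    obtain ⟨h1, h2⟩ := addFr_bound l₁ (0, 1) 1 (by norm_num) (by norm_num)
    have h3 := sz_le_of_prefix hl₁
    have h4 := sz_of_lt h1
    have h5 := sz_of_lt h2
    have h6 : sz (l₁.foldl addFr (0, 1)) = sz (l₁.foldl addFr (0, 1)).1 +
      sz (l₁.foldl addFr (0, 1)).2 + 1 := rfl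
    have h7 : List.foldl (fun s a => addFr s a) (0, 1) l₁ = List.foldl addFr (0, 1) l₁ := rfl
    rw [h7, h6]
    omega

theorem prodL_pt {α β : Type} [Dat α] [Dat β] {f : γ → List α} {g : γ → List β}
    (hf : PolyF f) (hg : PolyF g) : PolyF (fun x => prodL (f x) (g x)) := by
  unfold prodL
  refine PolyF.flatMap (f := fun x a => (g x).map fun c => (a, c)) ?_ hf
  refine PolyF.map (f := fun (p : γ × α) c => (p.2, c)) (by fun_prop) ?_
  exact hg.comp (by fun_prop)

theorem ellB_pt {pl : γ → List ℕ} {θ : γ → Th} {n : γ → ℕ} (hpl : PolyF pl) (hθ : PolyF θ)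
    (hn : PolyF n) : PolyF (fun x => ellB (pl x) (θ x) (n x)) := by
  unfold ellB
  fun_prop

theorem fracs_pt {pl : γ → List ℕ} {S : γ → LSys} {θs : γ → List Th}
    {gs : γ → List (ℕ × ℕ × ℕ)} (hpl : PolyF pl) (hS : PolyF S) (hθ : PolyF θs)
    (hgs : PolyF gs) : PolyF (fun x => fracs (pl x) (S x) (θs x) (gs x)) := by
  unfold fracs
  refine PolyF.append ?_ ?_
  · refine PolyF.map (f := fun (_ : γ) (g : ℕ × ℕ × ℕ) => (1, g.1 * g.2.2)) (by fun_prop) hgs
  · refine PolyF.map (f := fun (x : γ) (p : Th × ℕ × ℕ) =>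
      (p.2.2 * p.1.2.2, ellB (pl x) p.1 p.2.1)) ?_ ?_
    · refine PolyF.pair (by fun_prop) ?_
      exact ellB_pt (hpl.comp (by fun_prop)) (by fun_prop) (by fun_prop)
    · exact prodL_pt hθ (PolyF.zip (by fun_prop) (by fun_prop))

theorem poolB_pt (hG : T_PTG) {b : γ → List Unit} {π : γ → LPar} (hb : PolyF b)
    (hπ : PolyF π) : PolyF (fun x => poolB (b x) (π x)) := by
  unfold poolB rng
  refine PolyF.filter (f := fun (x : γ) (p : ℕ) => decide ((π x).2.2.1.1 < p) &&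
    decide (p ≤ (π x).2.2.1.2) && primeB (b x) p) ?_ (by fun_prop)
  have h : PolyF (fun x : γ × ℕ => primeB (b x.1) x.2) :=
    PolyF.comp (g := fun x : γ × ℕ => (b x.1, x.2)) hG.1
      ((hb.comp (PolyF.fst PolyF.id)).pair (by fun_prop))
  have h' : PolyF (fun x : γ × ℕ => π x.1) := hπ.comp (by fun_prop)
  fun_prop

theorem runT_pt (hT : T_PTT) {b : γ → List Unit} {π : γ → LPar} {S : γ → LSys} {Z : γ → ℕ}
    (hb : PolyF b) (hπ : PolyF π) (hS : PolyF S) (hZ : PolyF Z) :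
    PolyF (fun x => runT (b x) (π x) (S x) (Z x)) :=
  PolyF.comp (g := fun x => (b x, π x, S x, Z x)) hT (hb.pair (hπ.pair (hS.pair hZ)))

theorem runG_pt (hR : T_PTR) {b : γ → List Unit} {π : γ → LPar} {S : γ → LSys}
    {θs : γ → List Th} (hb : PolyF b) (hπ : PolyF π) (hS : PolyF S) (hθ : PolyF θs) :
    PolyF (fun x => runG (b x) (π x) (S x) (θs x)) :=
  PolyF.comp (g := fun x => (b x, π x, S x, θs x)) hR (hb.pair (hπ.pair (hS.pair hθ)))

theorem out_pt (hG : T_PTG) (hT : T_PTT) (hR : T_PTR) :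
    PolyF (fun x : List Unit × LSys × ℕ × LPar => outB x.1 x.2.1 x.2.2.1 x.2.2.2) := by
  have h1 : PolyF (fun x : List Unit × LSys × ℕ × LPar =>
      (runT x.1 x.2.2.2 x.2.1 x.2.2.1).2.1) :=
    (runT_pt hT (by fun_prop) (by fun_prop) (by fun_prop) (by fun_prop)).snd.fst
  have h2 : PolyF (fun x : List Unit × LSys × ℕ × LPar =>
      (runG x.1 x.2.2.2 x.2.1 (runT x.1 x.2.2.2 x.2.1 x.2.2.1).2.1).2.1) :=
    (runG_pt hR (by fun_prop) (by fun_prop) (by fun_prop) h1).snd.fst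
  have h3 : PolyF (fun x : List Unit × LSys × ℕ × LPar =>
      (fracs (poolB x.1 x.2.2.2) x.2.1 (runT x.1 x.2.2.2 x.2.1 x.2.2.1).2.1
        (runG x.1 x.2.2.2 x.2.1 (runT x.1 x.2.2.2 x.2.1 x.2.2.1).2.1).2.1).foldl addFr (0, 1)) :=
    sum_pt (fracs_pt (poolB_pt hG (by fun_prop) (by fun_prop)) (by fun_prop) h1 h2)
  have h4 : PolyF (fun x : List Unit × LSys × ℕ × LPar => pwB x.2.2.2) :=
    pwB_pt.comp (by fun_prop)
  have h5 : PolyF (fun x : List Unit × LSys × ℕ × LPar => kB x.2.2.2 * x.2.1.2.1.length) := by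
    have : PolyF (fun x : List Unit × LSys × ℕ × LPar => kB x.2.2.2) := kB_pt.comp (by fun_prop)
    fun_prop
  have h6 : PolyF (fun x : List Unit × LSys × ℕ × LPar =>
      TB x.2.2.2 (kB x.2.2.2 * x.2.1.2.1.length)) := TB_pt (by fun_prop) h5
  have h7 : PolyF (fun x : List Unit × LSys × ℕ × LPar => x.2.2.2.1.2) := by fun_prop
  have h8 := (div_pt (mul_pt h6 h4) h7).nat_add (PolyF.const 1)
  exact ((mod_pt (mul_pt h3.fst h4) h3.snd).nat_add (mul_pt h8 h3.snd)).pair
    ((mul_pt h3.snd h4).pair h7)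

theorem good_pt (hT : T_PTT) (hR : T_PTR) :
    PolyF (fun x : List Unit × LSys × ℕ × LPar => goodB x.1 x.2.1 x.2.2.1 x.2.2.2) := by
  have h0 : PolyF (fun x : List Unit × LSys × ℕ × LPar =>
      runT x.1 x.2.2.2 x.2.1 x.2.2.1) :=
    runT_pt hT (by fun_prop) (by fun_prop) (by fun_prop) (by fun_prop)
  have h2 : PolyF (fun x : List Unit × LSys × ℕ × LPar =>
      runG x.1 x.2.2.2 x.2.1 (runT x.1 x.2.2.2 x.2.1 x.2.2.1).2.1) :=
    runG_pt hR (by fun_prop) (by fun_prop) (by fun_prop) h0.snd.fst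
  have h3 : PolyF (fun x : List Unit × LSys × ℕ × LPar => okB x.2.2.1 x.2.2.2) :=
    PolyF.comp (g := fun x : List Unit × LSys × ℕ × LPar => (x.2.2.1, x.2.2.2)) okB_pt
      (by fun_prop)
  exact (h3.and h0.snd.snd).and h2.snd.snd

end Pool.Agent.DHD.PTO

namespace Pool.Agent.DHD

/-- PTO: the output and the test of the parameters are polynomial time functions. -/
theorem tPTO (hA : T_ARITH) (hG : T_PTG) (hT : T_PTT) (hR : T_PTR) : T_PTO := by
  have : Fact Pool.Agent.PT.Core := ⟨Pool.Agent.PT.core⟩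
  have : Fact T_ARITH := ⟨hA⟩
  exact ⟨PTO.out_pt hG hT hR, PTO.good_pt hT hR⟩

end Pool.Agent.DHD
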