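import Pool.Agent.DHD.TAlg

set_option autoImplicit false

/-!
# DHD, entry PTR: the gadgets of all columns are computed in polynomial time
-/

namespace Pool.Agent.DHD

open Pool.Agent.PT
open Pool.Agent.SLN (Lit)

namespace PTR

variable {γ α β : Type} [Dat γ] [Dat α] [Dat β] [hC : Fact Core]

@[fun_prop] theorem rng_pt {b : γ → List Unit} (hb : PolyF b) : PolyF (fun x => rng (b x)) := by
  unfold rng; fun_prop

@[fun_prop] theorem prodL_pt {l : γ → List α} {m : γ → List β} (hl : PolyF l) (hm : PolyF m) :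
    PolyF (fun x => prodL (l x) (m x)) := by
  unfold prodL; fun_prop

theorem poolB_pt (h : T_PTG) {b : γ → List Unit} {π : γ → LPar} (hb : PolyF b) (hπ : PolyF π) :
    PolyF (fun x => poolB (b x) (π x)) := by
  have h1 : PolyF (fun p : γ × ℕ => primeB (b p.1) p.2) :=
    h.1.comp (g := fun p : γ × ℕ => (b p.1, p.2)) (by fun_prop)
  unfold poolB
  fun_prop

theorem ellB_pt (hA : T_ARITH) {pl : γ → List ℕ} {θ : γ → Th} {n : γ → ℕ} (hpl : PolyF pl)
    (hθ : PolyF θ) (hn : PolyF n) : PolyF (fun x => ellB (pl x) (θ x) (n x)) := by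
  have h1 : PolyF (fun x => (θ x).2.1 * n x) := (hA γ _ _ (by fun_prop) hn).1
  unfold ellB
  fun_prop

theorem resN_pt (h : T_PTG) {a : γ → ℤ} {m l : γ → ℕ} (ha : PolyF a) (hm : PolyF m)
    (hl : PolyF l) : PolyF (fun x => resN (a x) (m x) (l x)) :=
  h.2.2.2.comp (g := fun x => (a x, m x, l x)) (by fun_prop)

theorem gadsP_pt (h : T_PTG) {b : γ → List Unit} {π : γ → LPar} {l l' r r' P : γ → ℕ}
    (hb : PolyF b) (hπ : PolyF π) (hl : PolyF l) (hl' : PolyF l') (hr : PolyF r) (hr' : PolyF r')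
    (hP : PolyF P) : PolyF (fun x => gadsP (b x) (π x) (l x) (l' x) (r x) (r' x) (P x)) :=
  h.2.1.comp (g := fun x => (b x, π x, (l x, l' x), (r x, r' x), P x)) (by fun_prop)

/-- the candidates in one step -/
def cand (b : List Unit) (π : LPar) (pl U : List ℕ) (c : Th × Col) : List (ℕ × ℕ × ℕ) :=
  (((rng b).filter fun P => !(U.any fun p => decide (p = P))).flatMap fun P =>
      gadsP b π (ellB pl c.1 c.2.1.1) (ellB pl c.1 c.2.1.2)
        (resN c.2.2.1 c.1.2.2 (ellB pl c.1 c.2.1.1)) (resN c.2.2.2 c.1.2.2 (ellB pl c.1 c.2.1.2))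
        P)

theorem cand_pt (h : T_PTG) (hA : T_ARITH) {b : γ → List Unit} {π : γ → LPar}
    {pl U : γ → List ℕ} {c : γ → Th × Col} (hb : PolyF b) (hπ : PolyF π) (hpl : PolyF pl)
    (hU : PolyF U) (hc : PolyF c) :
    PolyF (fun x => cand (b x) (π x) (pl x) (U x) (c x)) := by
  have e1 : PolyF (fun x => ellB (pl x) (c x).1 (c x).2.1.1) :=
    ellB_pt hA hpl (by fun_prop) (by fun_prop)
  have e2 : PolyF (fun x => ellB (pl x) (c x).1 (c x).2.1.2) :=
    ellB_pt hA hpl (by fun_prop) (by fun_prop)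
  have r1 : PolyF (fun x => resN (c x).2.2.1 (c x).1.2.2 (ellB (pl x) (c x).1 (c x).2.1.1)) :=
    resN_pt h (by fun_prop) (by fun_prop) e1
  have r2 : PolyF (fun x => resN (c x).2.2.2 (c x).1.2.2 (ellB (pl x) (c x).1 (c x).2.1.2)) :=
    resN_pt h (by fun_prop) (by fun_prop) e2
  have g1 : PolyF (fun p : γ × ℕ => gadsP (b p.1) (π p.1) (ellB (pl p.1) (c p.1).1 (c p.1).2.1.1)
      (ellB (pl p.1) (c p.1).1 (c p.1).2.1.2)
      (resN (c p.1).2.2.1 (c p.1).1.2.2 (ellB (pl p.1) (c p.1).1 (c p.1).2.1.1))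
      (resN (c p.1).2.2.2 (c p.1).1.2.2 (ellB (pl p.1) (c p.1).1 (c p.1).2.1.2)) p.2) :=
    gadsP_pt h (by fun_prop) (by fun_prop)
      (PolyF.comp (g := fun p : γ × ℕ => p.1) e1 (by fun_prop))
      (PolyF.comp (g := fun p : γ × ℕ => p.1) e2 (by fun_prop))
      (PolyF.comp (g := fun p : γ × ℕ => p.1) r1 (by fun_prop))
      (PolyF.comp (g := fun p : γ × ℕ => p.1) r2 (by fun_prop)) (by fun_prop)
  have f1 : PolyF (fun x => (rng (b x)).filter fun P => !((U x).any fun p => decide (p = P))) := by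
    fun_prop
  exact PolyF.flatMap g1 f1

omit [Dat γ] [Dat α] [Dat β] hC in
theorem stepG_eq (b : List Unit) (π : LPar) (pl : List ℕ)
    (s : List ℕ × List (ℕ × ℕ × ℕ) × Bool) (c : Th × Col) :
    stepG b π pl s c = if (cand b π pl s.1 c).isEmpty = true then (s.1, s.2.1, false)
      else (s.1 ++ [((cand b π pl s.1 c).headD (0, 0, 0)).1],
        s.2.1 ++ [(cand b π pl s.1 c).headD (0, 0, 0)], s.2.2) := by
  unfold stepG
  show ((cand b π pl s.1 c).take 1).foldl _ _ = _
  cases cand b π pl s.1 c with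
  | nil => simp
  | cons g t => simp

theorem stepG_pt (h : T_PTG) (hA : T_ARITH) {b : γ → List Unit} {π : γ → LPar}
    {pl : γ → List ℕ} {s : γ → List ℕ × List (ℕ × ℕ × ℕ) × Bool} {c : γ → Th × Col}
    (hb : PolyF b) (hπ : PolyF π) (hpl : PolyF pl) (hs : PolyF s) (hc : PolyF c) :
    PolyF (fun x => stepG (b x) (π x) (pl x) (s x) (c x)) := by
  have h1 : PolyF (fun x => cand (b x) (π x) (pl x) (s x).1 (c x)) :=
    cand_pt h hA hb hπ hpl (by fun_prop) hc
  refine PolyF.congr ?_ fun x => (stepG_eq (b x) (π x) (pl x) (s x) (c x)).symm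
  refine PolyF.iteb (by fun_prop) (by fun_prop) (by fun_prop)

/-! ### The bound -/

/-- a gadget with small entries -/
def Sm (n : ℕ) (g : ℕ × ℕ × ℕ) : Prop := g.1 < n ∧ g.2.1 < n ∧ g.2.2 < n

omit [Dat γ] [Dat α] [Dat β] hC in
theorem cand_mem {b : List Unit} {π : LPar} {pl U : List ℕ} {c : Th × Col} {g : ℕ × ℕ × ℕ}
    (hg : g ∈ cand b π pl U c) : Sm b.length g := by
  unfold cand at hg
  rw [List.mem_flatMap] at hg
  obtain ⟨P, hP, hg⟩ := hg
  have hP' : P < b.length := by
    have := (List.mem_filter.1 hP).1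
    simpa [rng] using this
  unfold gadsP at hg
  rw [List.mem_flatMap] at hg
  obtain ⟨u, hu, hg⟩ := hg
  rw [List.mem_map] at hg
  obtain ⟨v, hv, rfl⟩ := hg
  have hv' := (List.mem_filter.1 hv).1
  refine ⟨hP', ?_, ?_⟩
  · simpa [rng] using hu
  · simpa [rng] using hv'

omit [Dat γ] [Dat α] [Dat β] hC in
theorem fold_inv (b : List Unit) (π : LPar) (pl : List ℕ) (l : List (Th × Col)) :
    ∀ s : List ℕ × List (ℕ × ℕ × ℕ) × Bool, (∀ p ∈ s.1, p < b.length) →
      (∀ g ∈ s.2.1, Sm b.length g) →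
      (∀ p ∈ (l.foldl (stepG b π pl) s).1, p < b.length) ∧
      (∀ g ∈ (l.foldl (stepG b π pl) s).2.1, Sm b.length g) ∧
      (l.foldl (stepG b π pl) s).1.length ≤ s.1.length + l.length ∧
      (l.foldl (stepG b π pl) s).2.1.length ≤ s.2.1.length + l.length := by
  induction l with
  | nil => intro s h1 h2; exact ⟨h1, h2, by simp, by simp⟩
  | cons c l ih =>
    intro s h1 h2
    rw [List.foldl_cons]
    have key : (∀ p ∈ (stepG b π pl s c).1, p < b.length) ∧
        (∀ g ∈ (stepG b π pl s c).2.1, Sm b.length g) ∧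
        (stepG b π pl s c).1.length ≤ s.1.length + 1 ∧
        (stepG b π pl s c).2.1.length ≤ s.2.1.length + 1 := by
      rw [stepG_eq]
      have hm : ∀ g ∈ cand b π pl s.1 c, Sm b.length g := fun g hg => cand_mem hg
      cases hcd : cand b π pl s.1 c with
      | nil => simp only [List.isEmpty_nil, if_true]; exact ⟨h1, h2, by omega, by omega⟩
      | cons g t =>
        have hg : Sm b.length g := hm g (by rw [hcd]; exact List.mem_cons_self)
        simp only [List.isEmpty_cons, Bool.false_eq_true, if_false, List.headD_cons]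
        refine ⟨fun p hp => ?_, fun q hq => ?_, by simp, by simp⟩
        · rw [List.mem_append] at hp
          rcases hp with hp | hp
          · exact h1 p hp
          · rw [List.mem_singleton] at hp; subst hp; exact hg.1
        · rw [List.mem_append] at hq
          rcases hq with hq | hq
          · exact h2 q hq
          · rw [List.mem_singleton] at hq; subst hq; exact hg
    obtain ⟨a1, a2, a3, a4⟩ := ih _ key.1 key.2.1
    have h3 := key.2.2.1
    have h4 := key.2.2.2
    refine ⟨a1, a2, ?_, ?_⟩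
    · rw [List.length_cons]; omega
    · rw [List.length_cons]; omega

end PTR

open PTR in
/-- PTR -/
theorem tPTR (h : T_PTG) (hA : T_ARITH) : T_PTR := by
  have : Fact Core := ⟨Pool.Agent.PT.core⟩
  have hpool : PolyF (fun x : List Unit × LPar × LSys × List Th => poolB x.1 x.2.1) :=
    poolB_pt h (by fun_prop) (by fun_prop)
  have hprod : PolyF (fun x : List Unit × LPar × LSys × List Th => prodL x.2.2.2 x.2.2.1.2.1) := by
    fun_prop
  unfold T_PTR runG
  refine PolyF.foldl (f := fun (x : List Unit × LPar × LSys × List Th) s c =>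
      stepG x.1 x.2.1 (poolB x.1 x.2.1) s c) (s := fun _ => ([], [], true)) ?_ (by fun_prop) hprod
    (fun x => sz (prodL x.2.2.2 x.2.2.1.2.1) * ((4 * sz x.1 + 1) + 1) + 1 +
      (sz (prodL x.2.2.2 x.2.2.1.2.1) * ((3 * (4 * sz x.1 + 1) + 2) + 1) + 1) + 10) ?_ ?_
  · exact stepG_pt h hA (by fun_prop) (by fun_prop)
      (PolyF.comp (g := fun p : (List Unit × LPar × LSys × List Th) ×
        (List ℕ × List (ℕ × ℕ × ℕ) × Bool) × (Th × Col) => p.1) hpool (by fun_prop))
      (by fun_prop) (by fun_prop)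
  · have hb1 : PolyB (fun x : List Unit × LPar × LSys × List Th => sz x.1) :=
      PolyF.bound (by fun_prop)
    have hb2 := hprod.bound
    have hb3 : PolyB (fun x : List Unit × LPar × LSys × List Th => 4 * sz x.1 + 1) :=
      ((PolyB.const 4).mul hb1).add (PolyB.const 1)
    exact (((hb2.mul (hb3.add (PolyB.const 1))).add (PolyB.const 1)).add
      ((hb2.mul ((((PolyB.const 3).mul hb3).add (PolyB.const 2)).add (PolyB.const 1))).add
        (PolyB.const 1))).add (PolyB.const 10)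
  · intro x l₁ hl₁
    obtain ⟨a1, a2, a3, a4⟩ := fold_inv x.1 x.2.1 (poolB x.1 x.2.1) l₁ ([], [], true)
      (by simp) (by simp)
    set r := l₁.foldl (stepG x.1 x.2.1 (poolB x.1 x.2.1)) ([], [], true) with hr
    show sz r ≤ _
    have hlen : l₁.length ≤ sz (prodL x.2.2.2 x.2.2.1.2.1) :=
      ((length_lt_sz l₁).le).trans (sz_le_of_prefix hl₁)
    have hbl := length_lt_sz x.1
    have hnum : ∀ n < x.1.length, sz n ≤ 4 * sz x.1 + 1 := fun n hn => by
      have := sz_nat_le n
      omega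
    have s1 : sz r.1 ≤ r.1.length * ((4 * sz x.1 + 1) + 1) + 1 :=
      sz_list_le fun n hn => hnum n (a1 n hn)
    have s2 : sz r.2.1 ≤ r.2.1.length * ((3 * (4 * sz x.1 + 1) + 2) + 1) + 1 :=
      sz_list_le fun g hg => by
        obtain ⟨b1, b2, b3⟩ := a2 g hg
        have c1 := hnum _ b1
        have c2 := hnum _ b2
        have c3 := hnum _ b3
        have : sz g = sz g.1 + (sz g.2.1 + sz g.2.2 + 1) + 1 := rfl
        omega
    have s3 : sz r = sz r.1 + (sz r.2.1 + sz r.2.2 + 1) + 1 := rfl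
    have s4 := sz_bool r.2.2
    simp only [List.length_nil, zero_add] at a3 a4
    have m1 : r.1.length * ((4 * sz x.1 + 1) + 1) ≤
        sz (prodL x.2.2.2 x.2.2.1.2.1) * ((4 * sz x.1 + 1) + 1) :=
      Nat.mul_le_mul_right _ (a3.trans hlen)
    have m2 : r.2.1.length * ((3 * (4 * sz x.1 + 1) + 2) + 1) ≤
        sz (prodL x.2.2.2 x.2.2.1.2.1) * ((3 * (4 * sz x.1 + 1) + 2) + 1) :=
      Nat.mul_le_mul_right _ (a4.trans hlen)
    omega

end Pool.Agent.DHD
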