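import Pool.Agent.DHD.TAlg

set_option autoImplicit false

/-!
# DHD, entry PTT: the assignments are computed in polynomial time
-/

namespace Pool.Agent.DHD

open Pool.Agent.PT
open Pool.Agent.SLN (Lit Satisfiable)

namespace PTT

variable {γ α β : Type} [Dat γ] [Dat α] [Dat β] [hC : Fact Core] [hA : Fact T_ARITH]
  [hG : Fact T_PTG]

omit hC hG in
@[fun_prop] theorem mul_pt {f g : γ → ℕ} (hf : PolyF f) (hg : PolyF g) :
    PolyF (fun x => f x * g x) := (hA.out γ f g hf hg).1

omit hC hG in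
@[fun_prop] theorem mod_pt {f g : γ → ℕ} (hf : PolyF f) (hg : PolyF g) :
    PolyF (fun x => f x % g x) := (hA.out γ f g hf hg).2.2.2

omit hA hG in
@[fun_prop] theorem rng_pt {b : γ → List Unit} (hb : PolyF b) : PolyF (fun x => rng (b x)) :=
  hb.range_length

omit hA in
@[fun_prop] theorem primeB_pt {b : γ → List Unit} {n : γ → ℕ} (hb : PolyF b) (hn : PolyF n) :
    PolyF (fun x => primeB (b x) (n x)) :=
  PolyF.comp (g := fun x => (b x, n x)) hG.out.1 (hb.pair hn)

omit hA in
@[fun_prop] theorem cntB_pt {b : γ → List Unit} {π : γ → LPar} {l l' r r' : γ → ℕ}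
    (hb : PolyF b) (hπ : PolyF π) (hl : PolyF l) (hl' : PolyF l') (hr : PolyF r)
    (hr' : PolyF r') : PolyF (fun x => cntB (b x) (π x) (l x) (l' x) (r x) (r' x)) :=
  PolyF.comp (g := fun x => (b x, π x, (l x, l' x), (r x, r' x))) hG.out.2.2.1 (by fun_prop)

omit hA in
@[fun_prop] theorem resN_pt {a : γ → ℤ} {u l : γ → ℕ} (ha : PolyF a) (hu : PolyF u)
    (hl : PolyF l) : PolyF (fun x => resN (a x) (u x) (l x)) :=
  PolyF.comp (g := fun x => (a x, u x, l x)) hG.out.2.2.2 (by fun_prop)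

omit hG in
@[fun_prop] theorem kB_pt {π : γ → LPar} (hπ : PolyF π) : PolyF (fun x => kB (π x)) := by
  unfold kB K1B
  fun_prop

omit hA in
@[fun_prop] theorem poolB_pt {b : γ → List Unit} {π : γ → LPar} (hb : PolyF b) (hπ : PolyF π) :
    PolyF (fun x => poolB (b x) (π x)) := by
  have h : PolyF (fun x : List Unit × LPar => poolB x.1 x.2) := by
    unfold poolB
    fun_prop
  exact PolyF.comp (g := fun x => (b x, π x)) h (hb.pair hπ)

omit hG in
@[fun_prop] theorem ellB_pt {pl : γ → List ℕ} {θ : γ → Th} {v : γ → ℕ} (hpl : PolyF pl)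
    (hθ : PolyF θ) (hv : PolyF v) : PolyF (fun x => ellB (pl x) (θ x) (v x)) := by
  unfold ellB
  fun_prop

omit hA hG in
@[fun_prop] theorem prodL_pt {f : γ → List α} {g : γ → List β} (hf : PolyF f) (hg : PolyF g) :
    PolyF (fun x => prodL (f x) (g x)) := by
  unfold prodL
  fun_prop

@[fun_prop] theorem copyB_pt {b : γ → List Unit} {π : γ → LPar} {S : γ → LSys} {Z : γ → ℕ}
    {pl U : γ → List ℕ} {θ : γ → Th} (hb : PolyF b) (hπ : PolyF π) (hS : PolyF S) (hZ : PolyF Z)
    (hpl : PolyF pl) (hU : PolyF U) (hθ : PolyF θ) :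
    PolyF (fun x => copyB (b x) (π x) (S x) (Z x) (pl x) (U x) (θ x)) := by
  have h : PolyF (fun x : List Unit × LPar × LSys × ℕ × List ℕ × List ℕ × Th =>
      copyB x.1 x.2.1 x.2.2.1 x.2.2.2.1 x.2.2.2.2.1 x.2.2.2.2.2.1 x.2.2.2.2.2.2) := by
    unfold copyB
    fun_prop
  exact PolyF.comp (g := fun x => (b x, π x, S x, Z x, pl x, U x, θ x)) h (by fun_prop)

/-- the list of all candidates -/
def cands (b : List Unit) : List Th := prodL (rng b) (prodL (rng b) (rng b))

omit hC hA hG in
/-- `stepT` by a case distinction -/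
theorem stepT_eq (b : List Unit) (π : LPar) (S : LSys) (Z : ℕ) (pl : List ℕ)
    (s : List ℕ × List Th × Bool) : stepT b π S Z pl s =
      if ((cands b).filter (copyB b π S Z pl s.1)).isEmpty = true then (s.1, s.2.1, false)
      else (s.1 ++ (List.range S.2.2.length).map (ellB pl
          (((cands b).filter (copyB b π S Z pl s.1)).headD (0, 0, 0))),
        s.2.1 ++ [((cands b).filter (copyB b π S Z pl s.1)).headD (0, 0, 0)], s.2.2) := by
  unfold stepT
  change List.foldl _ _ (((cands b).filter (copyB b π S Z pl s.1)).take 1) = _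
  rcases (cands b).filter (copyB b π S Z pl s.1) with _ | ⟨θ, l⟩
  · rfl
  · rfl

@[fun_prop] theorem stepT_pt {b : γ → List Unit} {π : γ → LPar} {S : γ → LSys} {Z : γ → ℕ}
    {pl : γ → List ℕ} {s : γ → List ℕ × List Th × Bool} (hb : PolyF b) (hπ : PolyF π)
    (hS : PolyF S) (hZ : PolyF Z) (hpl : PolyF pl) (hs : PolyF s) :
    PolyF (fun x => stepT (b x) (π x) (S x) (Z x) (pl x) (s x)) := by
  have h : PolyF (fun x : List Unit × LPar × LSys × ℕ × List ℕ × (List ℕ × List Th × Bool) =>
      stepT x.1 x.2.1 x.2.2.1 x.2.2.2.1 x.2.2.2.2.1 x.2.2.2.2.2) := by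
    have h1 : PolyF (fun x : List Unit × LPar × LSys × ℕ × List ℕ × (List ℕ × List Th × Bool) =>
        (cands x.1).filter (copyB x.1 x.2.1 x.2.2.1 x.2.2.2.1 x.2.2.2.2.1 x.2.2.2.2.2.1)) := by
      unfold cands
      fun_prop
    have h2 : PolyF (fun x : List Unit × LPar × LSys × ℕ × List ℕ × (List ℕ × List Th × Bool) =>
        ((cands x.1).filter
          (copyB x.1 x.2.1 x.2.2.1 x.2.2.2.1 x.2.2.2.2.1 x.2.2.2.2.2.1)).headD (0, 0, 0)) :=
      h1.headD (by fun_prop)
    refine PolyF.congr (f := fun x => if ((cands x.1).filter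
        (copyB x.1 x.2.1 x.2.2.1 x.2.2.2.1 x.2.2.2.2.1 x.2.2.2.2.2.1)).isEmpty = true
      then (x.2.2.2.2.2.1, x.2.2.2.2.2.2.1, false)
      else (x.2.2.2.2.2.1 ++ (List.range x.2.2.1.2.2.length).map (ellB x.2.2.2.2.1
          (((cands x.1).filter
            (copyB x.1 x.2.1 x.2.2.1 x.2.2.2.1 x.2.2.2.2.1 x.2.2.2.2.2.1)).headD (0, 0, 0))),
        x.2.2.2.2.2.2.1 ++ [((cands x.1).filter
          (copyB x.1 x.2.1 x.2.2.1 x.2.2.2.1 x.2.2.2.2.1 x.2.2.2.2.2.1)).headD (0, 0, 0)],
        x.2.2.2.2.2.2.2)) ?_ (fun x => (stepT_eq _ _ _ _ _ _).symm)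
    refine PolyF.iteb h1.isEmpty (by fun_prop) ?_
    refine PolyF.pair (PolyF.append (by fun_prop) (PolyF.map ?_ (by fun_prop)))
      (PolyF.pair (PolyF.append (by fun_prop) (h2.cons (by fun_prop))) (by fun_prop))
    have h3 := PolyF.comp (g := fun p : (List Unit × LPar × LSys × ℕ × List ℕ ×
      (List ℕ × List Th × Bool)) × ℕ => p.1) h2 (by fun_prop)
    fun_prop
  exact PolyF.comp (g := fun x => (b x, π x, S x, Z x, pl x, s x)) h (by fun_prop)

omit hC hA hG in
theorem sz_zero : sz (0 : ℕ) = 1 := rfl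

omit hC hA hG in
theorem ellB_sz (pl : List ℕ) (θ : Th) (v : ℕ) : sz (ellB pl θ v) ≤ sz pl := by
  unfold ellB
  by_cases h : θ.1 + θ.2.1 * v < pl.length
  · rw [List.getD_eq_getElem _ _ h]
    exact (sz_mem (List.getElem_mem h)).le
  · rw [List.getD_eq_default _ _ (not_lt.1 h), sz_zero]
    exact sz_pos _

omit hC hA hG in
theorem stepT_sz (b : List Unit) (π : LPar) (S : LSys) (Z : ℕ) (pl : List ℕ)
    (s : List ℕ × List Th × Bool) : sz (stepT b π S Z pl s) ≤
      sz s + (sz S.2.2 * (sz pl + 1) + 1 + (sz (cands b) + 3)) := by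
  rw [stepT_eq]
  obtain ⟨u, t, f⟩ := s
  split
  · rw [sz_pair, sz_pair, sz_pair, sz_pair]
    have h1 := sz_pos f
    have h2 : sz false = 1 := rfl
    change sz u + (sz t + sz false + 1) + 1 ≤ _
    omega
  · rename_i hne
    set L := (cands b).filter (copyB b π S Z pl u) with hL
    have hmem : L.headD (0, 0, 0) ∈ cands b := by
      rcases hL' : L with _ | ⟨θ, l⟩
      · exact absurd (by
          show L.isEmpty = true
          rw [hL']
          rfl) hne
      · have : θ ∈ L := by rw [hL']; exact List.mem_cons_self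
        rw [hL] at this
        exact List.mem_of_mem_filter this
    have h1 := sz_mem hmem
    have h2 : sz ((List.range S.2.2.length).map (ellB pl (L.headD (0, 0, 0)))) ≤
        sz S.2.2 * (sz pl + 1) + 1 := by
      refine (sz_list_le (M := sz pl) ?_).trans ?_
      · intro a ha
        obtain ⟨v, -, rfl⟩ := List.mem_map.1 ha
        exact ellB_sz _ _ _
      · rw [List.length_map, List.length_range]
        have := Nat.mul_le_mul_right (sz pl + 1) (length_lt_sz S.2.2).le
        omega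
    rw [sz_pair, sz_pair, sz_pair, sz_pair]
    have h3 := sz_append u ((List.range S.2.2.length).map (ellB pl (L.headD (0, 0, 0))))
    have h4 := sz_append t [L.headD (0, 0, 0)]
    rw [sz_cons, sz_nil] at h4
    change sz (u ++ (List.range S.2.2.length).map (ellB pl (L.headD (0, 0, 0)))) +
      (sz (t ++ [L.headD (0, 0, 0)]) + sz f + 1) + 1 ≤ _
    omega

omit hC hA hG in
theorem fold_sz {σ τ : Type} [Dat σ] (f : σ → τ → σ) (A : ℕ) (h : ∀ s t, sz (f s t) ≤ sz s + A)
    (l : List τ) (s : σ) : sz (l.foldl f s) ≤ sz s + l.length * A := by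
  induction l generalizing s with
  | nil => simp
  | cons t l ih =>
    rw [List.foldl_cons, List.length_cons, Nat.add_mul]
    have h1 := ih (f s t)
    have h2 := h s t
    omega

theorem runT_pt : PolyF (fun x : List Unit × LPar × LSys × ℕ =>
    runT x.1 x.2.1 x.2.2.1 x.2.2.2) := by
  have hpl : PolyF (fun x : List Unit × LPar × LSys × ℕ => poolB x.1 x.2.1) := by fun_prop
  have hS : PolyF (fun x : List Unit × LPar × LSys × ℕ => x.2.2.1.2.2) := by fun_prop
  have hc : PolyF (fun x : List Unit × LPar × LSys × ℕ => cands x.1) := by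
    unfold cands
    fun_prop
  have hl : PolyF (fun x : List Unit × LPar × LSys × ℕ =>
      (rng x.1).filter fun i => decide (i < kB x.2.1)) := by fun_prop
  unfold runT
  refine PolyF.foldl ?_ (by fun_prop) hl
    (fun x => sz (([], [], true) : List ℕ × List Th × Bool) +
      sz ((rng x.1).filter fun i => decide (i < kB x.2.1)) *
        (sz x.2.2.1.2.2 * (sz (poolB x.1 x.2.1) + 1) + 1 + (sz (cands x.1) + 3)))
    ((PolyB.const _).add (hl.bound.mul (((hS.bound.mul (hpl.bound.add (PolyB.const 1))).add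
      (PolyB.const 1)).add (hc.bound.add (PolyB.const 3))))) ?_
  · fun_prop
  · intro x l₁ hl₁
    refine (fold_sz _ _ (fun s _ => stepT_sz x.1 x.2.1 x.2.2.1 x.2.2.2 (poolB x.1 x.2.1) s)
      l₁ _).trans ?_
    refine Nat.add_le_add_left (Nat.mul_le_mul_right _ ?_) _
    exact (length_lt_sz l₁).le.trans (sz_le_of_prefix hl₁)

end PTT

/-- PTT: the assignments are computed in polynomial time -/
theorem tPTT (hG : T_PTG) (hA : T_ARITH) : T_PTT := by
  have : Fact Core := ⟨core⟩
  have : Fact T_ARITH := ⟨hA⟩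
  have : Fact T_PTG := ⟨hG⟩
  exact PTT.runT_pt

end Pool.Agent.DHD
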