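import Pool.Agent.DHD.TAlg

set_option autoImplicit false

/-!
# RESN: the residue of `a * α` modulo `l`
-/

namespace Pool.Agent.DHD

/-- RESN -/
theorem tRESN : T_RESN := by
  intro a α l hl
  unfold resN
  split_ifs with h
  · obtain ⟨n, rfl⟩ := Int.eq_ofNat_of_zero_le h
    simp
  · obtain ⟨n, hn⟩ := Int.eq_ofNat_of_zero_le (show 0 ≤ -a by omega)
    have ha : a = -(n : ℤ) := by omega
    subst ha
    have h1 : (n * α) % l < l := Nat.mod_lt _ hl
    have h2 : (-(-(n : ℤ))).toNat = n := by simp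
    rw [h2]
    push_cast [Nat.cast_sub h1.le]
    have h3 : (-(n : ℤ) * α) = -((n : ℤ) * α) := by ring
    rw [h3, Int.sub_emod, Int.emod_self, Int.emod_emod_of_dvd _ (dvd_refl _),
      ← Int.zero_emod (l : ℤ), ← Int.sub_emod]
    simp

end Pool.Agent.DHD
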