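import Pool.Agent.DHD.TAlg

set_option autoImplicit false

/-!
# RUNG: good assignments have gadgets
-/

namespace Pool.Agent.DHD.RUNG

open Finset

/-- the members of `prodL` -/
lemma prodL_length {α β : Type} (l : List α) (m : List β) :
    (prodL l m).length = l.length * m.length := by
  unfold prodL
  induction l with
  | nil => simp
  | cons a l ih => simp [List.flatMap_cons, ih, Nat.succ_mul, Nat.add_comm]

lemma prodL_getD {α β : Type} (l : List α) (m : List β) (da : α) (db : β) (i t : ℕ)
    (hi : i < l.length) (ht : t < m.length) :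
    (prodL l m).getD (i * m.length + t) (da, db) = (l.getD i da, m.getD t db) := by
  induction l generalizing i with
  | nil => simp at hi
  | cons a l ih =>
    have hc : prodL (a :: l) m = m.map (fun c => (a, c)) ++ prodL l m := by
      simp [prodL, List.flatMap_cons]
    rw [hc]
    cases i with
    | zero =>
      rw [List.getD_append _ _ _ _ (by simpa using ht)]
      simp [List.getD_eq_getElem?_getD, ht]
    | succ i =>
      rw [List.getD_append_right _ _ _ _ (by simp [Nat.succ_mul]; omega)]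
      have h1 : (i + 1) * m.length + t - (m.map (fun c => (a, c))).length
          = i * m.length + t := by
        simp [Nat.succ_mul]; omega
      rw [h1, ih i (by simpa using hi)]
      simp

lemma prodL_mem {α β : Type} (l : List α) (m : List β) (p : α × β) :
    p ∈ prodL l m ↔ p.1 ∈ l ∧ p.2 ∈ m := by
  unfold prodL
  simp only [List.mem_flatMap, List.mem_map]
  constructor
  · rintro ⟨a, ha, c, hc, rfl⟩
    exact ⟨ha, hc⟩
  · rintro ⟨h1, h2⟩
    exact ⟨p.1, h1, p.2, h2, rfl⟩

/-- the list in one step of the fold -/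
def cand (b : List Unit) (π : LPar) (pl : List ℕ) (U : List ℕ) (c : Th × Col) :
    List (ℕ × ℕ × ℕ) :=
  ((rng b).filter fun P => !(U.any fun p => decide (p = P))).flatMap fun P =>
      gadsP b π (ellB pl c.1 c.2.1.1) (ellB pl c.1 c.2.1.2)
        (resN c.2.2.1 c.1.2.2 (ellB pl c.1 c.2.1.1)) (resN c.2.2.2 c.1.2.2 (ellB pl c.1 c.2.1.2))
        P

lemma stepG_cons (b : List Unit) (π : LPar) (pl : List ℕ)
    (s : List ℕ × List (ℕ × ℕ × ℕ) × Bool) (c : Th × Col) (g : ℕ × ℕ × ℕ)
    (r : List (ℕ × ℕ × ℕ)) (h : cand b π pl s.1 c = g :: r) :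
    stepG b π pl s c = (s.1 ++ [g.1], s.2.1 ++ [g], s.2.2) := by
  unfold cand at h
  unfold stepG
  rw [h]
  simp

/-- the invariant -/
structure Inv (b : List Unit) (π : LPar) (L : List (Th × Col)) (n : ℕ)
    (s : List ℕ × List (ℕ × ℕ × ℕ) × Bool) : Prop where
  flag : s.2.2 = true
  used : s.1 = s.2.1.map (fun g => g.1)
  len : s.2.1.length = n
  nodup : s.1.Nodup
  gad : ∀ j < n, ∀ c, L[j]? = some c → ∀ g, s.2.1[j]? = some g →
    Gad π.par (ellB (poolB b π) c.1 c.2.1.1) (ellB (poolB b π) c.1 c.2.1.2)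
      (c.2.2.1 * c.1.2.2) (c.2.2.2 * c.1.2.2) g.1 g.2.1 g.2.2

lemma countP_exists (l : List ℕ) (hl : l.Nodup) (p : ℕ → Bool) (U : List ℕ)
    (h : U.length < l.countP p) : ∃ x ∈ l, p x = true ∧ x ∉ U := by
  by_contra hcon
  push Not at hcon
  rw [List.countP_eq_length_filter] at h
  have hnd : (l.filter p).Nodup := hl.filter p
  have hsub : (l.filter p) ⊆ U := by
    intro x hx
    rw [List.mem_filter] at hx
    exact hcon x hx.1 hx.2
  have := (hnd.subperm hsub).length_le
  omega

theorem main (hG : T_GADS) (hR : T_RESN) (b : List Unit) (π : LPar)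
    (hok : π.par.Ok) (hN : π.par.N < b.length) (L : List (Th × Col))
    (hL : ∀ c ∈ L, (ellB (poolB b π) c.1 c.2.1.1).Prime ∧ (ellB (poolB b π) c.1 c.2.1.2).Prime ∧
      L.length ≤ cnt π.par (ellB (poolB b π) c.1 c.2.1.1) (ellB (poolB b π) c.1 c.2.1.2)
        (c.2.2.1 * c.1.2.2) (c.2.2.2 * c.1.2.2)) :
    ∀ n ≤ L.length, Inv b π L n ((L.take n).foldl (stepG b π (poolB b π)) ([], [], true)) := by
  intro n
  induction n with
  | zero =>
    intro _
    refine ⟨rfl, rfl, rfl, by simp, ?_⟩
    intro j hj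
    omega
  | succ n ih =>
    intro hn
    have hn' : n < L.length := hn
    have I := ih hn'.le
    set s := (L.take n).foldl (stepG b π (poolB b π)) ([], [], true) with hs
    have htake : L.take (n + 1) = L.take n ++ [L[n]] := by
      rw [List.take_add_one]
      simp [List.getElem?_eq_getElem hn']
    rw [htake, List.foldl_append, ← hs]
    simp only [List.foldl_cons, List.foldl_nil]
    set c := L[n] with hc
    obtain ⟨hp, hp', hcnt⟩ := hL c (List.getElem_mem hn')
    have G := hG b π (ellB (poolB b π) c.1 c.2.1.1) (ellB (poolB b π) c.1 c.2.1.2)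
      (resN c.2.2.1 c.1.2.2 (ellB (poolB b π) c.1 c.2.1.1))
      (resN c.2.2.2 c.1.2.2 (ellB (poolB b π) c.1 c.2.1.2))
      (c.2.2.1 * c.1.2.2) (c.2.2.2 * c.1.2.2) hok hN hp hp'
      (hR _ _ _ hp.pos) (hR _ _ _ hp'.pos)
    obtain ⟨G1, G2⟩ := G
    have hUlen : s.1.length = n := by
      rw [I.used, List.length_map, I.len]
    have hex : ∃ P ∈ rng b, (!(gadsP b π (ellB (poolB b π) c.1 c.2.1.1)
        (ellB (poolB b π) c.1 c.2.1.2)
        (resN c.2.2.1 c.1.2.2 (ellB (poolB b π) c.1 c.2.1.1))
        (resN c.2.2.2 c.1.2.2 (ellB (poolB b π) c.1 c.2.1.2)) P).isEmpty) = true ∧ P ∉ s.1 := by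
      apply countP_exists _ List.nodup_range
      rw [hUlen]
      have : n < cntB b π (ellB (poolB b π) c.1 c.2.1.1) (ellB (poolB b π) c.1 c.2.1.2)
        (resN c.2.2.1 c.1.2.2 (ellB (poolB b π) c.1 c.2.1.1))
        (resN c.2.2.2 c.1.2.2 (ellB (poolB b π) c.1 c.2.1.2)) := by
        rw [G2]; omega
      exact this
    have hne : cand b π (poolB b π) s.1 c ≠ [] := by
      obtain ⟨P, hPr, hPe, hPU⟩ := hex
      have hne1 : gadsP b π (ellB (poolB b π) c.1 c.2.1.1) (ellB (poolB b π) c.1 c.2.1.2)
        (resN c.2.2.1 c.1.2.2 (ellB (poolB b π) c.1 c.2.1.1))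
        (resN c.2.2.2 c.1.2.2 (ellB (poolB b π) c.1 c.2.1.2)) P ≠ [] := by
        intro h0
        simp [h0] at hPe
      obtain ⟨g, hg⟩ := List.exists_mem_of_ne_nil _ hne1
      apply List.ne_nil_of_mem (a := g)
      unfold cand
      rw [List.mem_flatMap]
      refine ⟨P, ?_, hg⟩
      rw [List.mem_filter]
      refine ⟨hPr, ?_⟩
      simp only [Bool.not_eq_true', List.any_eq_false, decide_eq_true_eq]
      intro x hx hxP
      exact hPU (hxP ▸ hx)
    obtain ⟨g, r, hgr⟩ := List.exists_cons_of_ne_nil hne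
    rw [stepG_cons b π (poolB b π) s c g r hgr]
    have hgmem : g ∈ cand b π (poolB b π) s.1 c := by rw [hgr]; simp
    unfold cand at hgmem
    rw [List.mem_flatMap] at hgmem
    obtain ⟨P, hPf, hgP⟩ := hgmem
    rw [List.mem_filter] at hPf
    have hPb : P < b.length := by
      have := hPf.1
      unfold rng at this
      exact List.mem_range.mp this
    have hPU : P ∉ s.1 := by
      have h2 := hPf.2
      simp only [Bool.not_eq_true', List.any_eq_false, decide_eq_true_eq] at h2
      intro hx
      exact h2 P hx rfl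
    obtain ⟨hg1, hgad⟩ := (G1 P hPb g).mp hgP
    refine ⟨I.flag, ?_, ?_, ?_, ?_⟩
    · simp [I.used]
    · simp [I.len]
    · show (s.1 ++ [g.1]).Nodup
      rw [List.nodup_append]
      refine ⟨I.nodup, by simp, ?_⟩
      intro x hx y hy
      simp only [List.mem_singleton] at hy
      intro hxy
      rw [hy, hg1] at hxy
      rw [hxy] at hx
      exact hPU hx
    · intro j hj c' hc' g' hg'
      rcases Nat.lt_succ_iff_lt_or_eq.mp hj with hlt | heq
      · apply I.gad j hlt c' hc' g'
        rw [List.getElem?_append_left (by rw [I.len]; exact hlt)] at hg'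
        exact hg'
      · subst heq
        have hc2 : c' = c := by
          rw [List.getElem?_eq_getElem hn'] at hc'
          exact (Option.some.inj hc').symm
        have hg2 : g' = g := by
          rw [List.getElem?_append_right (by rw [I.len])] at hg'
          rw [I.len] at hg'
          simp at hg'
          exact hg'.symm
        rw [hc2, hg2, hg1]
        exact hgad

end Pool.Agent.DHD.RUNG

namespace Pool.Agent.DHD

open Finset

theorem tRUNG (hG : T_GADS) (hR : T_RESN) (hP : T_POOLB) (hO : T_OKB) : T_RUNG := by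
  intro b π S Z θs hS hokB hN hθ
  obtain ⟨hok, hZ, -, -, -⟩ := (hO Z π).1.mp hokB
  have hpool : ∀ θ ∈ θs, ∀ x < S.1, (ellB (poolB b π) θ x).Prime := by
    intro θ hθm x hx
    have hlt := hθ.pos θ hθm x hx
    have hmem : ellB (poolB b π) θ x ∈ poolB b π := by
      unfold ellB
      rw [List.getD_eq_getElem _ _ hlt]
      exact List.getElem_mem hlt
    have := (hP b π).2.1 _ hmem
    unfold pool at this
    exact (Finset.mem_filter.mp this).2
  have hlen : (prodL θs S.2.1).length = θs.length * S.sys.m := RUNG.prodL_length _ _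
  have hle : (prodL θs S.2.1).length ≤ kB π * Z := by
    rw [hlen, hθ.len]
    exact Nat.mul_le_mul_left _ hS.sys.m_le
  have hL : ∀ c ∈ prodL θs S.2.1, (ellB (poolB b π) c.1 c.2.1.1).Prime ∧
      (ellB (poolB b π) c.1 c.2.1.2).Prime ∧
      (prodL θs S.2.1).length ≤ cnt π.par (ellB (poolB b π) c.1 c.2.1.1)
        (ellB (poolB b π) c.1 c.2.1.2) (c.2.2.1 * c.1.2.2) (c.2.2.2 * c.1.2.2) := by
    intro c hc
    obtain ⟨h1, h2⟩ := (RUNG.prodL_mem _ _ _).mp hc
    obtain ⟨t, ht, hct⟩ := List.mem_iff_getElem.mp h2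
    have htm : t < S.sys.m := ht
    have hx : S.sys.x t = c.2.1.1 := by
      show (S.2.1.getD t ((0, 0), (0, 0))).1.1 = _
      rw [List.getD_eq_getElem _ _ ht, hct]
    have hy : S.sys.y t = c.2.1.2 := by
      show (S.2.1.getD t ((0, 0), (0, 0))).1.2 = _
      rw [List.getD_eq_getElem _ _ ht, hct]
    have ha : S.sys.a t = c.2.2.1 := by
      show (S.2.1.getD t ((0, 0), (0, 0))).2.1 = _
      rw [List.getD_eq_getElem _ _ ht, hct]
    have hb : S.sys.b t = c.2.2.2 := by
      show (S.2.1.getD t ((0, 0), (0, 0))).2.2 = _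
      rw [List.getD_eq_getElem _ _ ht, hct]
    refine ⟨?_, ?_, ?_⟩
    · rw [← hx]
      exact hpool _ h1 _ (hS.sys.x_lt t htm)
    · rw [← hy]
      exact hpool _ h1 _ (hS.sys.y_lt t htm)
    · have := hθ.cnt c.1 h1 t htm
      rw [hx, hy, ha, hb] at this
      exact le_trans hle this
  have I := RUNG.main hG hR b π hok hN (prodL θs S.2.1) hL _ le_rfl
  rw [List.take_length] at I
  change RUNG.Inv b π (prodL θs S.2.1) (prodL θs S.2.1).length (runG b π S θs) at I
  refine ⟨I.flag, ?_, ?_, ?_⟩
  · rw [I.len, hlen]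
  · intro i hi t ht
    have htl : t < S.2.1.length := ht
    have hidx : i * S.sys.m + t < (prodL θs S.2.1).length := by
      rw [hlen]
      calc i * S.sys.m + t < i * S.sys.m + S.sys.m := by omega
        _ = (i + 1) * S.sys.m := by ring
        _ ≤ θs.length * S.sys.m := Nat.mul_le_mul_right _ hi
    have hget := RUNG.prodL_getD θs S.2.1 ((0 : ℕ), (0 : ℕ), (0 : ℕ)) (((0 : ℕ), (0 : ℕ)),
      ((0 : ℤ), (0 : ℤ))) i t hi htl
    have hget2 : (prodL θs S.2.1)[i * S.sys.m + t]? = some (θs.getD i (0, 0, 0),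
        S.2.1.getD t ((0, 0), (0, 0))) := by
      rw [List.getElem?_eq_getElem hidx]
      change (prodL θs S.2.1).getD (i * S.sys.m + t) _ = _ at hget
      rw [List.getD_eq_getElem _ _ hidx] at hget
      exact congrArg some hget
    have hgl : i * S.sys.m + t < (runG b π S θs).2.1.length := by
      rw [I.len]; exact hidx
    have hg2 : (runG b π S θs).2.1[i * S.sys.m + t]? =
        some ((runG b π S θs).2.1.getD (i * S.sys.m + t) (0, 0, 0)) := by
      rw [List.getElem?_eq_getElem hgl, List.getD_eq_getElem _ _ hgl]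
    exact I.gad _ hidx _ hget2 _ hg2
  · intro i hi j hj hij
    have hnd := I.nodup
    rw [I.used] at hnd
    rw [List.getD_eq_getElem _ _ hi, List.getD_eq_getElem _ _ hj] at hij
    have hi' : i < ((runG b π S θs).2.1.map (fun g => g.1)).length := by simpa using hi
    have hj' : j < ((runG b π S θs).2.1.map (fun g => g.1)).length := by simpa using hj
    apply (List.Nodup.getElem_inj_iff hnd (hi := hi') (hj := hj')).mp
    simpa using hij

end Pool.Agent.DHD
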