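import Pool.Agent.DHD.TAlg

set_option autoImplicit false

/-!
# RUNTS: soundness of the run over the copies
-/

namespace Pool.Agent.DHD.RUNTS

open Finset
open Pool.Agent.PT (PolyF Dat)
open Pool.Agent.SLN (Lit)

/-- the properties of one assignment -/
def Good1 (b : List Unit) (π : LPar) (S : LSys) (Z : ℕ) (pl : List ℕ) (θ : Th) : Prop :=
  0 < θ.2.1 ∧ (∀ x < S.2.2.length, θ.1 + θ.2.1 * x < pl.length ∧ ¬ ellB pl θ x ∣ θ.2.2) ∧
  ∀ c ∈ S.2.1, kB π * Z ≤ cntB b π (ellB pl θ c.1.1) (ellB pl θ c.1.2)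
    (resN c.2.1 θ.2.2 (ellB pl θ c.1.1)) (resN c.2.2 θ.2.2 (ellB pl θ c.1.2))

/-- unfolding of the Boolean test -/
theorem copyB_iff (b : List Unit) (π : LPar) (S : LSys) (Z : ℕ) (pl U : List ℕ) (θ : Th)
    (h : copyB b π S Z pl U θ = true) :
    Good1 b π S Z pl θ ∧ ∀ x < S.2.2.length, ellB pl θ x ∉ U := by
  unfold copyB at h
  rw [Bool.and_eq_true, Bool.and_eq_true] at h
  obtain ⟨⟨h1, h2⟩, h3⟩ := h
  rw [List.all_eq_true] at h2 h3
  have h1' : 0 < θ.2.1 := of_decide_eq_true h1
  have hx : ∀ x < S.2.2.length, (θ.1 + θ.2.1 * x < pl.length ∧ ellB pl θ x ∉ U) ∧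
      ¬ ellB pl θ x ∣ θ.2.2 := by
    intro x hx
    have := h2 x (List.mem_range.2 hx)
    rw [Bool.and_eq_true, Bool.and_eq_true] at this
    obtain ⟨⟨a1, a2⟩, a3⟩ := this
    refine ⟨⟨of_decide_eq_true a1, ?_⟩, ?_⟩
    · intro hm
      have a4 : (U.any fun p => decide (p = ellB pl θ x)) = true := by
        rw [List.any_eq_true]
        exact ⟨_, hm, by simp⟩
      rw [a4] at a2
      simp at a2
    · intro hd
      have a4 : decide (θ.2.2 % ellB pl θ x = 0) = true :=
        decide_eq_true (Nat.mod_eq_zero_of_dvd hd)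
      rw [a4] at a3
      simp at a3
  refine ⟨⟨h1', fun x h => ⟨(hx x h).1.1, (hx x h).2⟩, ?_⟩, fun x h => (hx x h).1.2⟩
  intro c hc
  exact of_decide_eq_true (h3 c hc)

/-- the invariant of the loop -/
def Inv (b : List Unit) (π : LPar) (S : LSys) (Z : ℕ) (pl : List ℕ) (j : ℕ)
    (s : List ℕ × List Th × Bool) : Prop :=
  s.2.2 = true → s.2.1.length = j ∧ (∀ θ ∈ s.2.1, Good1 b π S Z pl θ) ∧
    (∀ θ ∈ s.2.1, ∀ x < S.2.2.length, ellB pl θ x ∈ s.1) ∧
    s.2.1.Pairwise (fun θ θ' => ∀ x < S.2.2.length, ∀ x' < S.2.2.length,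
      ellB pl θ x ≠ ellB pl θ' x')

theorem inv_step (b : List Unit) (π : LPar) (S : LSys) (Z : ℕ) (pl : List ℕ) (j : ℕ)
    (s : List ℕ × List Th × Bool) (h : Inv b π S Z pl j s) :
    Inv b π S Z pl (j + 1) (stepT b π S Z pl s) := by
  intro hf
  unfold stepT at hf ⊢
  generalize hF : (prodL (rng b) (prodL (rng b) (rng b))).filter (copyB b π S Z pl s.1) = F
    at hf ⊢
  cases F with
  | nil => simp at hf
  | cons θ F' =>
    have hθ : copyB b π S Z pl s.1 θ = true := by
      have : θ ∈ (prodL (rng b) (prodL (rng b) (rng b))).filter (copyB b π S Z pl s.1) := by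
        rw [hF]; simp
      exact (List.mem_filter.1 this).2
    obtain ⟨g1, g2⟩ := copyB_iff b π S Z pl s.1 θ hθ
    simp only [List.take_succ_cons, List.take_zero, List.foldl_cons, List.foldl_nil] at hf ⊢
    obtain ⟨i1, i2, i3, i4⟩ := h hf
    refine ⟨by simp [i1], ?_, ?_, ?_⟩
    · intro θ' hm
      rw [List.mem_append] at hm
      rcases hm with hm | hm
      · exact i2 θ' hm
      · rw [List.mem_singleton] at hm
        rw [hm]; exact g1
    · intro θ' hm x hx
      rw [List.mem_append] at hm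
      rcases hm with hm | hm
      · exact List.mem_append.2 (Or.inl (i3 θ' hm x hx))
      · rw [List.mem_singleton] at hm
        rw [hm]
        exact List.mem_append.2 (Or.inr (List.mem_map.2 ⟨x, List.mem_range.2 hx, rfl⟩))
    · rw [List.pairwise_append]
      refine ⟨i4, List.pairwise_singleton _ _, ?_⟩
      intro θ1 h1 θ2 h2 x hx x' hx' he
      rw [List.mem_singleton] at h2
      rw [h2] at he
      apply g2 x' hx'
      rw [← he]
      exact i3 θ1 h1 x hx

theorem inv_fold (b : List Unit) (π : LPar) (S : LSys) (Z : ℕ) (pl : List ℕ) (L : List ℕ) :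
    ∀ (j : ℕ) (s : List ℕ × List Th × Bool), Inv b π S Z pl j s →
    Inv b π S Z pl (j + L.length) (L.foldl (fun s _ => stepT b π S Z pl s) s) := by
  induction L with
  | nil => intro j s h; simpa using h
  | cons a L ih =>
    intro j s h
    have := ih (j + 1) _ (inv_step b π S Z pl j s h)
    rw [List.foldl_cons, List.length_cons]
    have e : j + (L.length + 1) = j + 1 + L.length := by omega
    rw [e]
    exact this

theorem filter_len (n k : ℕ) (h : k ≤ n) :
    ((List.range n).filter fun i => decide (i < k)).length = k := by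
  obtain ⟨m, rfl⟩ := Nat.exists_eq_add_of_le h
  rw [List.range_add, List.filter_append]
  have h1 : (List.range k).filter (fun i => decide (i < k)) = List.range k := by
    rw [List.filter_eq_self]
    intro a ha
    exact decide_eq_true (List.mem_range.1 ha)
  have h2 : ((List.range m).map (k + ·)).filter (fun i => decide (i < k)) = [] := by
    rw [List.filter_eq_nil_iff]
    intro a ha
    obtain ⟨c, _, rfl⟩ := List.mem_map.1 ha
    simp
  rw [h1, h2]
  simp

theorem getD_mem {α : Type} (l : List α) (i : ℕ) (d : α) (h : i < l.length) : l.getD i d ∈ l := by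
  rw [List.getD_eq_getElem _ _ h]
  exact List.getElem_mem h

end Pool.Agent.DHD.RUNTS

namespace Pool.Agent.DHD

open Finset
open Pool.Agent.PT (PolyF Dat)
open RUNTS

theorem tRUNTS (hG : T_GADS) (hR : T_RESN) (hP : T_POOLB) (hO : T_OKB) : T_RUNTS := by
  intro b π S Z hS hok hN hflag
  obtain ⟨o1, o2⟩ := hO Z π
  obtain ⟨pok, Z100, ZQ, hD, hNbig⟩ := o1.1 hok
  obtain ⟨eK1, ek, _, _, _⟩ := o2 hok
  obtain ⟨p1, p3, -⟩ := hP b π
  have hkn : kB π ≤ b.length := by
    rw [ek]
    have : π.par.k * 1 ≤ π.par.k * Z := Nat.mul_le_mul_left _ (by omega)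
    omega
  have hinv := inv_fold b π S Z (poolB b π) ((rng b).filter fun i => decide (i < kB π)) 0
    ([], [], true) (by intro _; simp)
  have hlen : ((rng b).filter fun i => decide (i < kB π)).length = kB π :=
    filter_len b.length (kB π) hkn
  rw [hlen, Nat.zero_add] at hinv
  have hinv' := hinv hflag
  change (runT b π S Z).2.1.length = kB π ∧
    (∀ θ ∈ (runT b π S Z).2.1, Good1 b π S Z (poolB b π) θ) ∧
    (∀ θ ∈ (runT b π S Z).2.1, ∀ x < S.2.2.length,
      ellB (poolB b π) θ x ∈ (runT b π S Z).1) ∧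
    (runT b π S Z).2.1.Pairwise (fun θ θ' => ∀ x < S.2.2.length, ∀ x' < S.2.2.length,
      ellB (poolB b π) θ x ≠ ellB (poolB b π) θ' x') at hinv'
  generalize (runT b π S Z).2.1 = θs at hinv' ⊢
  generalize (runT b π S Z).1 = U at hinv'
  obtain ⟨i1, i2, _, i4⟩ := hinv'
  have hl : S.2.2.length = S.1 := hS.len
  rw [hl] at i4
  have hpr : ∀ θ ∈ θs, ∀ x < S.1, (ellB (poolB b π) θ x).Prime := by
    intro θ hθ x hx
    have h1 := ((i2 θ hθ).2.1 x (by rw [hl]; exact hx)).1
    have h2 : ellB (poolB b π) θ x ∈ poolB b π := getD_mem _ _ _ h1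
    have h3 := p3 _ h2
    unfold pool at h3
    exact (Finset.mem_filter.1 h3).2
  refine ⟨i1, ?_, ?_, ?_, ?_⟩
  · intro θ hθ x hx
    exact ((i2 θ hθ).2.1 x (by rw [hl]; exact hx)).1
  · intro θ hθ x hx
    exact ((i2 θ hθ).2.1 x (by rw [hl]; exact hx)).2
  · intro θ hθ t ht
    have ht' : t < S.2.1.length := ht
    have hc := (i2 θ hθ).2.2 (S.2.1.getD t ((0, 0), (0, 0))) (getD_mem _ _ _ ht')
    have e1 : S.sys.x t < S.1 := hS.sys.x_lt t ht
    have e2 : S.sys.y t < S.1 := hS.sys.y_lt t ht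
    have q1 := hpr θ hθ _ e1
    have q2 := hpr θ hθ _ e2
    have r1 := hR (S.sys.a t) θ.2.2 _ q1.pos
    have r2 := hR (S.sys.b t) θ.2.2 _ q2.pos
    have := (hG b π _ _ _ _ _ _ pok hN q1 q2 r1 r2).2
    rw [← this]
    exact hc
  · intro i hi x hx i' hi' x' hx' he
    rw [List.pairwise_iff_getElem] at i4
    rcases lt_trichotomy i i' with h | h | h
    · exfalso
      rw [List.getD_eq_getElem _ _ hi, List.getD_eq_getElem _ _ hi'] at he
      exact i4 i i' hi hi' h x hx x' hx' he
    · refine ⟨h, ?_⟩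
      subst h
      have hθ : θs.getD i (0, 0, 0) ∈ θs := getD_mem _ _ _ hi
      obtain ⟨g1, g2, _⟩ := i2 _ hθ
      have a1 := (g2 x (by rw [hl]; exact hx)).1
      have a2 := (g2 x' (by rw [hl]; exact hx')).1
      unfold ellB at he
      rw [List.getD_eq_getElem _ _ a1, List.getD_eq_getElem _ _ a2] at he
      have := (List.Nodup.getElem_inj_iff p1).1 he
      have h3 : (θs.getD i (0, 0, 0)).2.1 * x = (θs.getD i (0, 0, 0)).2.1 * x' := by omega
      exact Nat.eq_of_mul_eq_mul_left g1 h3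
    · exfalso
      rw [List.getD_eq_getElem _ _ hi, List.getD_eq_getElem _ _ hi'] at he
      exact i4 i' i hi' hi h x' hx' x hx he.symm

end Pool.Agent.DHD
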