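import Pool.Agent.DHD.TFin

set_option autoImplicit false
set_option linter.unusedSectionVars false

/-!
# SIMF: functions computed by Mathlib's polynomial time machines are polynomial time functions on
strings
-/

namespace Pool.Agent.DHD

open Pool.Agent.PT (Dat PolyF PolyB D PTD Core sz_pair sz_cons sz_nil sz_pos length_lt_sz
  sz_le_of_prefix sz_list_le pt_univ enc_cons enc_nil)
open Pool.Agent.CookLevin (SM newStk)

namespace SIMF

section
variable {γ α : Type} [Dat γ] [Dat α] [hC : Fact Core]

theorem head_pt {f : γ → List α} (hf : PolyF f) : PolyF (fun x => (f x).head?) := by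
  have h : PolyF (fun l : List α => l.head?) := by
    have h1 : PTD (Set.range (Dat.enc : List α → D)) (fun t => D.node .nil t.fst) :=
      hC.out.node (pt_univ (hC.out.const _) _) (pt_univ hC.out.fst _)
    refine ⟨fun t => if t = .nil then .nil else .node .nil t.fst,
      hC.out.cas (h := fun t => t) (f := fun _ => D.nil) (pt_univ hC.out.id _)
        (pt_univ (hC.out.const _) _) (h1.mono fun t ht => ht.1), fun l => ?_⟩
    cases l with
    | nil => rfl
    | cons a l => simp [enc_cons, Pool.Agent.PT.D.fst]; rfl
  exact h.comp hf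

end

section
variable {K Γ C : Type} [DecidableEq K]

/-- one step on lists of stacks -/
def stepL (A : SM K Γ C) (s : C × List (K × List Γ)) : C × List (K × List Γ) :=
  cond (A.halted s.1) s
    (A.nxt s.1 ((s.2.filter fun p => decide (p.1 = A.stk s.1)).flatMap Prod.snd).head?,
      s.2.map fun p => cond (decide (p.1 = A.stk s.1)) (p.1, newStk (A.act s.1) p.2) p)

/-- the code of a configuration -/
def cod (Ks : List K) (x : C × (K → List Γ)) : C × List (K × List Γ) :=
  (x.1, Ks.map fun k => (k, x.2 k))

theorem look (Ks : List K) (hn : Ks.Nodup) (hK : ∀ k, k ∈ Ks) (S : K → List Γ) (k₀ : K) :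
    ((Ks.map fun k => (k, S k)).filter fun p => decide (p.1 = k₀)).flatMap Prod.snd = S k₀ := by
  have h1 : Ks.filter (fun k => decide (k = k₀)) = [k₀] := by
    rw [List.filter_eq, List.count_eq_one_of_mem hn (hK k₀)]
    rfl
  rw [List.filter_map]
  have h2 : ((fun p : K × List Γ => decide (p.1 = k₀)) ∘ fun k => (k, S k)) =
    fun k => decide (k = k₀) := rfl
  rw [h2, h1]
  simp

theorem stepL_cod (A : SM K Γ C) (Ks : List K) (hn : Ks.Nodup) (hK : ∀ k, k ∈ Ks)
    (x : C × (K → List Γ)) : stepL A (cod Ks x) = cod Ks (A.step x) := by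
  by_cases hx : A.halted x.1 = true
  · rw [Pool.Agent.CookLevin.SIM.step_halted A hx]
    unfold stepL
    have : A.halted (cod Ks x).1 = true := hx
    rw [this, cond_true]
  · rw [Bool.not_eq_true] at hx
    obtain ⟨g1, g2, g3⟩ := Pool.Agent.CookLevin.SIM.step_run A hx
    unfold stepL
    have : A.halted (cod Ks x).1 = false := hx
    rw [this, cond_false]
    apply Prod.ext
    · change A.nxt x.1 _ = (A.step x).1
      rw [g1]
      congr 2
      exact look Ks hn hK x.2 (A.stk x.1)
    · change ((Ks.map fun k => (k, x.2 k)).map fun p : K × List Γ =>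
        cond (decide (p.1 = A.stk x.1)) (p.1, newStk (A.act x.1) p.2) p) =
        Ks.map fun k => (k, (A.step x).2 k)
      rw [List.map_map]
      apply List.map_congr_left
      intro k _
      simp only [Function.comp]
      by_cases hk : k = A.stk x.1
      · rw [hk, decide_eq_true rfl, cond_true, g2]
      · rw [decide_eq_false hk, cond_false, g3 k hk]

theorem iter_cod (A : SM K Γ C) (Ks : List K) (hn : Ks.Nodup) (hK : ∀ k, k ∈ Ks) {κ : Type}
    (L : List κ) : ∀ (x : C × (K → List Γ)),
    L.foldl (fun s _ => stepL A s) (cod Ks x) = cod Ks (A.run L.length x) := by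
  induction L with
  | nil => intro x; rfl
  | cons a L ih =>
    intro x
    rw [List.foldl_cons, stepL_cod A Ks hn hK, ih, List.length_cons,
      Pool.Agent.CookLevin.SIM.run_succ]

theorem run_length (A : SM K Γ C) (n : ℕ) : ∀ (x : C × (K → List Γ)) (k : K),
    ((A.run n x).2 k).length ≤ (x.2 k).length + n := by
  induction n with
  | zero => intro x k; exact le_rfl
  | succ n ih =>
    intro x k
    rw [Pool.Agent.CookLevin.SIM.run_succ]
    refine (ih _ _).trans ?_
    have : ((A.step x).2 k).length ≤ (x.2 k).length + 1 := by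
      by_cases hx : A.halted x.1 = true
      · rw [Pool.Agent.CookLevin.SIM.step_halted A hx]
        omega
      · rw [Bool.not_eq_true] at hx
        obtain ⟨g1, g2, g3⟩ := Pool.Agent.CookLevin.SIM.step_run A hx
        by_cases hk : k = A.stk x.1
        · rw [hk, g2]
          rcases A.act x.1 with _ | (_ | a)
          · simp [newStk]
          · simp only [newStk, List.length_tail]
            omega
          · simp [newStk]
        · rw [g3 k hk]
          omega
    omega

theorem run_halted (A : SM K Γ C) (n : ℕ) : ∀ {x : C × (K → List Γ)}, A.halted x.1 = true →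
    A.run n x = x := by
  induction n with
  | zero => intro x _; rfl
  | succ n ih =>
    intro x h
    rw [Pool.Agent.CookLevin.SIM.run_succ, Pool.Agent.CookLevin.SIM.step_halted A h, ih h]

end

section
variable {K Γ C : Type} [DecidableEq K] [Finite K] [Finite Γ] [Finite C] [Dat K] [Dat Γ] [Dat C]
  [hC : Fact Core]

theorem newStk_pt (A : SM K Γ C) {γ : Type} [Dat γ] {f : γ → C} {g : γ → List Γ} (hf : PolyF f)
    (hg : PolyF g) : PolyF (fun x => newStk (A.act (f x)) (g x)) := by
  have h1 : PolyF (fun c : C => (match A.act c with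
    | some (some a) => [a]
    | _ => ([] : List Γ))) := PolyF.finite _
  have h2 : PolyF (fun c : C => (match A.act c with
    | some none => true
    | _ => false)) := PolyF.finite _
  have h3 : PolyF (fun x => (match A.act (f x) with
    | some (some a) => [a]
    | _ => ([] : List Γ)) ++ cond (match A.act (f x) with
    | some none => true
    | _ => false) (g x).tail (g x)) :=
    PolyF.append (h1.comp hf) (PolyF.cond (h2.comp hf) hg.tail hg)
  refine h3.congr (fun x => ?_)
  rcases A.act (f x) with _ | (_ | a) <;> rfl

theorem stepL_pt (A : SM K Γ C) : PolyF (stepL A) := by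
  have hhalt : PolyF (fun c : C => A.halted c) := PolyF.finite _
  have hstk : PolyF (fun c : C => A.stk c) := PolyF.finite _
  have hnxt : PolyF (fun p : C × Option Γ => A.nxt p.1 p.2) := PolyF.finite _
  unfold stepL
  refine PolyF.cond (hhalt.comp (by fun_prop)) (by fun_prop) (PolyF.pair ?_ ?_)
  · refine hnxt.comp (g := fun s : C × List (K × List Γ) => (s.1,
      ((s.2.filter fun p => decide (p.1 = A.stk s.1)).flatMap Prod.snd).head?)) ?_
    refine PolyF.pair (by fun_prop) (head_pt ?_)
    refine PolyF.flatMap (f := fun _ (p : K × List Γ) => p.2) (by fun_prop) ?_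
    refine PolyF.filter (f := fun (s : C × List (K × List Γ)) (p : K × List Γ) =>
      decide (p.1 = A.stk s.1)) ?_ (by fun_prop)
    exact PolyF.eq (by fun_prop) (hstk.comp (by fun_prop))
  · refine PolyF.map (f := fun (s : C × List (K × List Γ)) (p : K × List Γ) =>
      cond (decide (p.1 = A.stk s.1)) (p.1, newStk (A.act s.1) p.2) p) ?_ (by fun_prop)
    refine PolyF.cond (PolyF.eq (by fun_prop) (hstk.comp (by fun_prop))) ?_ (by fun_prop)
    exact PolyF.pair (by fun_prop) (newStk_pt A (by fun_prop) (by fun_prop))

end

/-- sizes are bounded on finite types -/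
theorem sz_bdd (α : Type) [Finite α] [Dat α] : ∃ M : ℕ, ∀ a : α, Pool.Agent.PT.sz a ≤ M := by
  obtain ⟨M, hM⟩ := (Set.finite_range fun a : α => Pool.Agent.PT.sz a).bddAbove
  exact ⟨M, fun a => hM ⟨a, rfl⟩⟩

end SIMF

open SIMF in
theorem tSIMF : T_SIMF := by
  classical
  intro α β αΓ βΓ _ _ _ _ ea eb f hf
  have : Fact Pool.Agent.PT.Core := ⟨Pool.Agent.PT.core⟩
  obtain ⟨K, Γ, C, fK, fG, fC, A, i, o, p, ho, hA⟩ := Pool.Agent.CookLevin.tSIM ea eb f hf
  obtain ⟨dK⟩ := Pool.Agent.CookLevin.exists_dat K
  obtain ⟨dG⟩ := Pool.Agent.CookLevin.exists_dat Γ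
  obtain ⟨dC⟩ := Pool.Agent.CookLevin.exists_dat C
  have := Fintype.ofFinite K
  set Ks : List K := (Finset.univ : Finset K).toList with hKs
  have hn : Ks.Nodup := Finset.nodup_toList _
  have hK : ∀ k, k ∈ Ks := fun k => by simp [hKs]
  obtain ⟨L, hL, hLe⟩ := Pool.Agent.CookLevin.tLEN (Γ := αΓ) p
  obtain ⟨MK, hMK⟩ := sz_bdd K
  obtain ⟨MG, hMG⟩ := sz_bdd Γ
  obtain ⟨MC, hMC⟩ := sz_bdd C
  -- the initial configuration
  have h0 : PolyF (fun x : List αΓ => cod Ks (A.init (x.map i))) := by
    have h1 : PolyF (fun x : List αΓ => (A.start, Ks.map fun k =>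
        (k, cond (decide (k = A.inp)) (x.map i) []))) := by
      refine PolyF.pair (PolyF.const _) ?_
      refine PolyF.map (f := fun (x : List αΓ) (k : K) =>
        (k, cond (decide (k = A.inp)) (x.map i) [])) ?_ (PolyF.const _)
      refine PolyF.pair (by fun_prop) (PolyF.cond (PolyF.eq (by fun_prop) (PolyF.const _)) ?_
        (PolyF.const _))
      have h2 : PolyF (fun a : αΓ => i a) := PolyF.finite _
      exact PolyF.map (f := fun _ a => i a) (h2.comp (by fun_prop)) (by fun_prop)
    refine h1.congr (fun x => ?_)
    unfold cod SM.init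
    apply Prod.ext
    · rfl
    · apply List.map_congr_left
      intro k _
      by_cases hk : k = A.inp
      · subst hk
        simp
      · simp [hk]
  -- the run
  have h1 : PolyF (fun x : List αΓ => (L x).foldl (fun s _ => stepL A s)
      (cod Ks (A.init (x.map i)))) := by
    refine PolyF.foldl (f := fun (_ : List αΓ) s (_ : Unit) => stepL A s)
      ((stepL_pt A).comp (by fun_prop)) h0 hL
      (fun x => MC + (Ks.length * ((MK + ((x.length + (L x).length) * (MG + 1) + 1) + 1) + 1) + 1)
        + 1) ?_ ?_
    · have e1 : PolyB (fun x : List αΓ => x.length) :=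
        (PolyB.sz (α := List αΓ)).of_le fun x => (length_lt_sz x).le
      have e2 : PolyB (fun x : List αΓ => (L x).length) :=
        hL.bound.of_le fun x => (length_lt_sz (L x)).le
      exact ((PolyB.const _).add (((PolyB.const _).mul ((((PolyB.const _).add
        (((e1.add e2).mul (PolyB.const _)).add (PolyB.const _))).add (PolyB.const _)).add
        (PolyB.const _))).add (PolyB.const _))).add (PolyB.const _)
    · intro x l₁ hl₁
      rw [iter_cod A Ks hn hK]
      have e1 : l₁.length ≤ (L x).length := hl₁.length_le
      have e2 : ∀ k, ((A.run l₁.length (A.init (x.map i))).2 k).length ≤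
          x.length + (L x).length := by
        intro k
        refine (run_length A _ _ k).trans ?_
        have e3 : ((A.init (x.map i)).2 k).length ≤ x.length := by
          unfold SM.init
          by_cases hk : k = A.inp
          · subst hk
            simp
          · simp [hk]
        omega
      unfold cod
      rw [sz_pair]
      have e4 : ∀ b ∈ Ks.map (fun k => (k, (A.run l₁.length (A.init (x.map i))).2 k)),
          Pool.Agent.PT.sz b ≤ MK + ((x.length + (L x).length) * (MG + 1) + 1) + 1 := by
        intro b hb
        obtain ⟨k, _, rfl⟩ := List.mem_map.1 hb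
        rw [sz_pair]
        have e5 := hMK k
        have e6 := sz_list_le (l := (A.run l₁.length (A.init (x.map i))).2 k) (M := MG)
          fun a _ => hMG a
        have e7 := Nat.mul_le_mul_right (MG + 1) (e2 k)
        omega
      have e8 := sz_list_le e4
      rw [List.length_map] at e8
      have e9 := hMC (A.run l₁.length (A.init (x.map i))).1
      omega
  -- the output
  let g : Γ → List βΓ := fun c => if h : ∃ b, o b = c then [h.choose] else []
  have hg : ∀ b, g (o b) = [b] := by
    intro b
    have h : ∃ b', o b' = o b := ⟨b, rfl⟩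
    simp only [g, dif_pos h]
    rw [ho h.choose_spec]
  have h2 : PolyF (fun x : List αΓ => ((((L x).foldl (fun s _ => stepL A s)
      (cod Ks (A.init (x.map i)))).2.filter fun q => decide (q.1 = A.out)).flatMap
        Prod.snd).flatMap g) := by
    have e1 : PolyF (fun c : Γ => g c) := PolyF.finite _
    refine PolyF.flatMap (f := fun _ c => g c) (e1.comp (by fun_prop)) ?_
    refine PolyF.flatMap (f := fun _ (q : K × List Γ) => q.2) (by fun_prop) ?_
    refine PolyF.filter (f := fun _ (q : K × List Γ) => decide (q.1 = A.out)) ?_ h1.snd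
    exact PolyF.eq (by fun_prop) (PolyF.const _)
  refine ⟨_, h2, fun a => ?_⟩
  obtain ⟨n, hn1, hh, hout⟩ := hA a
  rw [iter_cod A Ks hn hK, hLe]
  have e1 : A.run (p.eval (ea a).length) (A.init ((ea a).map i)) =
      A.run n (A.init ((ea a).map i)) := by
    obtain ⟨m, hm⟩ := Nat.exists_eq_add_of_le hn1
    rw [hm, Pool.Agent.CookLevin.SIM.run_add, run_halted A m hh]
  rw [e1]
  unfold cod
  simp only
  rw [look Ks hn hK, hout, List.flatMap_map]
  simp only [hg]
  simp

end Pool.Agent.DHD
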