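import Pool.Agent.DHD.AllNum
import Pool.Agent.DHD.AllSound
import Pool.Agent.DHD.CNF
import Pool.Agent.DHD.CNFOK
import Pool.Agent.DHD.CNFPT
import Pool.Agent.DHD.ARITH
import Pool.Agent.DHD.PTG
import Pool.Agent.DHD.PTT
import Pool.Agent.DHD.PTR
import Pool.Agent.DHD.PTO
import Pool.Agent.DHD.PTALG
import Pool.Agent.DHD.RESN
import Pool.Agent.DHD.GADB
import Pool.Agent.DHD.GADS
import Pool.Agent.DHD.POOLB
import Pool.Agent.DHD.OKB
import Pool.Agent.DHD.RUNTS
import Pool.Agent.DHD.RUNTC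
import Pool.Agent.DHD.RUNG
import Pool.Agent.DHD.OUT
import Pool.Agent.DHD.GOODB
import Pool.Agent.DHD.ALGF
import Pool.Agent.DHD.SIMF
import Pool.Agent.DHD.NPU
import Pool.Agent.DHD.DP
import Pool.Agent.DHD.HARDB

set_option autoImplicit false

/-!
# The final assembly
-/

namespace Pool.Agent.DHD

open Pool.Agent.PAH (DecisionProblem)
open Pool.Agent.CookLevin (InNP NPHard)

theorem gads : T_GADS := tGADS tGADB

theorem runTS : T_RUNTS := tRUNTS gads tRESN tPOOLB tOKB

theorem runTC : T_RUNTC := tRUNTC tCOPY gads tRESN tPOOLB tOKB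

theorem runG' : T_RUNG := tRUNG gads tRESN tPOOLB tOKB

theorem goodB' : T_GOODB := tGOODB runTS runG' (tOUT tOKB) tOKB tPOOLB sound

/-- the algorithm is correct -/
theorem algF : T_ALGF := tALGF nt runTC runTS runG' tOKB goodB' tCNF tCNFOK

theorem ptG : T_PTG := tPTG tARITH

theorem ptO : T_PTO := tPTO tARITH ptG (tPTT ptG tARITH) (tPTR ptG tARITH)

/-- the algorithm runs in polynomial time -/
theorem ptAlg : T_PTALG := tPTALG ptO tCNFPT

/-- NP-hardness -/
theorem hard : T_HARDB := tHARDB algF ptAlg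

/-- the unary problem is in NP -/
theorem inNP : T_NPU := tNPU tARITH

/-- a polynomial time algorithm for `D` gives P = NP -/
theorem polyTimeD : T_DP := tDP algF ptAlg tSIMF

end Pool.Agent.DHD
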