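import Pool.Agent.DHD.TSound

set_option autoImplicit false

/-!
# INT: rules for integrality at a prime
-/

namespace Pool.Agent.DHD

namespace INT

theorem den_dvd_of_eq (q : ℚ) (z : ℤ) (n : ℕ) (hn : n ≠ 0) (h : q = (z : ℚ) / n) : q.den ∣ n := by
  have h1 : (n : ℚ) ≠ 0 := by exact_mod_cast hn
  have h2 : q * n = z := by rw [h]; field_simp
  have h3 : (q.num : ℚ) * n = z * q.den := by
    have h4 : (q.den : ℚ) ≠ 0 := by exact_mod_cast q.den_nz
    have h5 : q * q.den = q.num := Rat.mul_den_eq_num q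
    rw [← h2, ← h5]; ring
  have h6 : q.num * (n : ℤ) = z * (q.den : ℤ) := by exact_mod_cast h3
  have h7 : (q.den : ℤ) ∣ q.num * (n : ℤ) := ⟨z, by rw [h6, mul_comm]⟩
  have h8 : IsCoprime (q.den : ℤ) q.num := by
    rw [Int.isCoprime_iff_nat_coprime, Int.natAbs_natCast]
    exact q.reduced.symm
  exact_mod_cast h8.dvd_of_dvd_mul_left h7

theorem iff_frac {p : ℕ} (q : ℚ) :
    IntAt p q ↔ ∃ (z : ℤ) (n : ℕ), ¬ p ∣ n ∧ q = (z : ℚ) / n := by
  constructor
  · intro h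
    exact ⟨q.num, q.den, h, (Rat.num_div_den q).symm⟩
  · rintro ⟨z, n, hn, h⟩ hd
    have h0 : n ≠ 0 := by
      rintro rfl
      exact hn (dvd_zero p)
    exact hn (hd.trans (den_dvd_of_eq q z n h0 h))

theorem nz {p n : ℕ} (hn : ¬ p ∣ n) : (n : ℚ) ≠ 0 := by
  have : n ≠ 0 := by
    rintro rfl
    exact hn (dvd_zero p)
  exact_mod_cast this

theorem ndvd_mul {p m n : ℕ} (hp : p.Prime) (hm : ¬ p ∣ m) (hn : ¬ p ∣ n) : ¬ p ∣ m * n := by
  intro h
  rcases hp.dvd_mul.mp h with h | h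
  · exact hm h
  · exact hn h

theorem add {p : ℕ} (hp : p.Prime) {q r : ℚ} (hq : IntAt p q) (hr : IntAt p r) :
    IntAt p (q + r) := by
  rw [iff_frac] at *
  obtain ⟨z, n, hn, rfl⟩ := hq
  obtain ⟨w, m, hm, rfl⟩ := hr
  have h1 := nz hn
  have h2 := nz hm
  refine ⟨z * m + w * n, n * m, ndvd_mul hp hn hm, ?_⟩
  push_cast
  field_simp

theorem neg {p : ℕ} {q : ℚ} (hq : IntAt p q) : IntAt p (-q) := by
  unfold IntAt at *
  rwa [Rat.neg_den]

theorem mul {p : ℕ} (hp : p.Prime) {q r : ℚ} (hq : IntAt p q) (hr : IntAt p r) :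
    IntAt p (q * r) := by
  rw [iff_frac] at *
  obtain ⟨z, n, hn, rfl⟩ := hq
  obtain ⟨w, m, hm, rfl⟩ := hr
  have h1 := nz hn
  have h2 := nz hm
  refine ⟨z * w, n * m, ndvd_mul hp hn hm, ?_⟩
  push_cast
  field_simp

theorem int {p : ℕ} (hp : p.Prime) (z : ℤ) : IntAt p z := by
  rw [iff_frac]
  refine ⟨z, 1, ?_, by simp⟩
  intro h
  exact hp.one_lt.ne' (Nat.dvd_one.mp h)

theorem sum {p : ℕ} (hp : p.Prime) (s : Finset ℕ) (f : ℕ → ℚ) (h : ∀ n ∈ s, IntAt p (f n)) :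
    IntAt p (∑ n ∈ s, f n) := by
  classical
  induction s using Finset.induction_on with
  | empty =>
    rw [Finset.sum_empty]
    exact_mod_cast int hp 0
  | insert a s ha ih =>
    rw [Finset.sum_insert ha]
    exact add hp (h a (Finset.mem_insert_self a s))
      (ih fun n hn => h n (Finset.mem_insert_of_mem hn))

theorem last {p : ℕ} (hp : p.Prime) (z : ℤ) (n : ℕ) (hn : ¬ p ∣ n) :
    IntAt p ((z : ℚ) / (p * n)) ↔ (p : ℤ) ∣ z := by
  have h1 := nz hn
  have h2 : (p : ℚ) ≠ 0 := by exact_mod_cast hp.ne_zero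
  constructor
  · intro h
    rw [iff_frac] at h
    obtain ⟨a, b, hb, h⟩ := h
    have h3 := nz hb
    have h4 : (z : ℚ) * b = a * (p * n) := by
      rw [div_eq_div_iff (mul_ne_zero h2 h1) h3] at h
      exact h
    have h5 : z * (b : ℤ) = a * ((p : ℤ) * n) := by exact_mod_cast h4
    have h6 : (p : ℤ) ∣ z * (b : ℤ) := ⟨a * n, by rw [h5]; ring⟩
    rcases (Nat.prime_iff_prime_int.mp hp).dvd_or_dvd h6 with h7 | h7
    · exact h7
    · exact absurd (Int.natCast_dvd_natCast.mp h7) hb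
  · rintro ⟨w, rfl⟩
    rw [iff_frac]
    refine ⟨w, n, hn, ?_⟩
    push_cast
    field_simp

end INT

open INT in
theorem tINT : T_INT := by
  intro p hp
  refine ⟨fun q r hq hr => INT.add hp hq hr, fun q r hq hr => ?_, fun q r hq hr => INT.mul hp hq hr,
    fun s f h => INT.sum hp s f h, fun z => INT.int hp z, fun n hn => ?_,
    fun z n hn => INT.last hp z n hn⟩
  · rw [sub_eq_add_neg]
    exact INT.add hp hq (INT.neg hr)
  · rw [iff_frac]
    exact ⟨1, n, hn, by push_cast; rfl⟩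

end Pool.Agent.DHD
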