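import Pool.Agent.DHD.TNum

set_option autoImplicit false

/-!
# NT: good parameters exist
-/

namespace Pool.Agent.DHD

open Finset
open scoped Classical

theorem tNT (hC : T_CTX) (hP : T_POK) (hM : T_MARK) (hG : T_GOOD) : T_NT := by
  obtain ⟨Z₀, hZ₀⟩ := hC
  refine ⟨Z₀, 5000, fun Z hZ => ?_⟩
  obtain ⟨c, hc, rfl⟩ := hZ₀ Z hZ
  obtain ⟨h1, h2, h3, h4, hQQ, h5, h6, h7, h8, h9, -⟩ := hP c hc
  have hpool : pool c.par = c.L := by
    ext l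
    rw [hc.L_eq]
    simp only [pool, mem_filter, mem_Ioc, Ctx.par]
    tauto
  have hZb : 10 ^ 50 ≤ c.Z := hc.Z_big
  have hZ1 : 1 ≤ c.Z := le_trans (by norm_num) hZb
  have hpow : ∀ e : ℕ, e ≤ 5000 → c.Z ^ e ≤ c.Z ^ 5000 := fun e he => Nat.pow_le_pow_right hZ1 he
  have hX : c.X ≤ c.Z ^ 5000 := by
    refine hc.X_hi.trans ?_
    calc 2 * c.Z ^ 1992 ≤ c.Z * c.Z ^ 1992 :=
          Nat.mul_le_mul_right _ (le_trans (by norm_num) hZb)
      _ = c.Z ^ 1993 := by rw [← pow_succ']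
      _ ≤ c.Z ^ 5000 := hpow _ (by norm_num)
  have hQ : c.Q ≤ c.Z ^ 5000 := hc.Q_hi.trans (hpow _ (by norm_num))
  refine ⟨c.par, ⟨h1, le_trans (by norm_num) hZb, h2, rfl, h3, h4, hQQ, ?_, ?_⟩,
    hpow _ (by norm_num), h8, ?_, hX, ?_, hQ, hpow _ (by norm_num), ?_⟩
  · rw [hpool]
    exact h5
  · rw [hpool]
    refine le_trans (Nat.mul_le_mul_right _ (card_le_card ?_)) (hM c hc)
    intro p hp
    rw [mem_filter, mem_product] at hp ⊢
    exact ⟨hp.1, hp.2.1, fun hg => hp.2.2 (hG c hc p hp.1.1 hp.1.2 hp.2.1 hg)⟩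
  · exact (Nat.sub_le _ _).trans hX
  · exact (Nat.sub_le _ _).trans hQ
  · exact (Nat.div_le_self _ _).trans hX

end Pool.Agent.DHD
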