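import Pool.Agent.DHD.Defs
import Pool.Agent.CookLevin.Defs

set_option autoImplicit false

/-!
# The decision problems and the statements of the main theorem
-/

namespace Pool.Agent.DHD

open Pool.Agent.PAH (DecisionProblem)
open Pool.Agent.SLN (Sym encBits)
open Pool.Agent.H44 (IsRep minLargest)
open Pool.Agent.CookLevin (InNP NPHard encBool)

theorem encBits_split : ∀ (a c : List Bool) (s t : List Sym),
    encBits a ++ Sym.comma :: s = encBits c ++ Sym.comma :: t → a = c ∧ s = t := by
  intro a
  induction a with
  | nil =>
    intro c s t h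
    cases c with
    | nil => simpa [encBits] using h
    | cons x c => cases x <;> simp [encBits] at h
  | cons x a ih =>
    intro c s t h
    cases c with
    | nil => cases x <;> simp [encBits] at h
    | cons y c =>
      have h' : (if x then Sym.one else Sym.zero) = (if y then Sym.one else Sym.zero) ∧
          encBits a ++ Sym.comma :: s = encBits c ++ Sym.comma :: t := by
        simpa [encBits] using h
      obtain ⟨h1, h2⟩ := h'
      obtain ⟨h3, h4⟩ := ih c s t h2
      refine ⟨?_, h4⟩
      rw [h3]
      cases x <;> cases y <;> simp_all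

theorem encBits_inj {a c : List Bool} (h : encBits a = encBits c) : a = c :=
  (encBits_split a c [] [] (by rw [h])).1

theorem bits_inj {m n : ℕ} (h : m.bits = n.bits) : m = n := by
  have h1 := congrArg (fun l : List Bool => l.foldr (fun b s => Nat.bit b s) 0) h
  have key : ∀ n : ℕ, n.bits.foldr (fun b s => Nat.bit b s) 0 = n := by
    intro n
    induction n using Nat.binaryRec' with
    | zero => simp
    | bit b n hb ih =>
      rw [Nat.bits_append_bit n b hb, List.foldr_cons, ih]
  simpa [key] using h1

theorem encBin_inj : Function.Injective encBin := by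
  rintro ⟨⟨x, y, N⟩, hp⟩ ⟨⟨x', y', N'⟩, hp'⟩ h
  obtain ⟨h1, h2⟩ := encBits_split _ _ _ _ h
  obtain ⟨h3, h4⟩ := encBits_split _ _ _ _ h2
  have e1 := bits_inj h1
  have e2 := bits_inj h3
  have e3 := bits_inj (encBits_inj h4)
  simp only at e1 e2 e3
  subst e1
  subst e2
  subst e3
  rfl

theorem encUn_inj : Function.Injective encUn := by
  rintro ⟨⟨x, y, N⟩, hp⟩ ⟨⟨x', y', N'⟩, hp'⟩ h
  obtain ⟨h1, h2⟩ := encBits_split _ _ _ _ h
  obtain ⟨h3, h4⟩ := encBits_split _ _ _ _ h2
  have e1 := bits_inj h1
  have e2 := bits_inj h3
  have e3 : N = N' := by simpa using congrArg List.length h4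
  simp only at e1 e2
  subst e1
  subst e2
  subst e3
  rfl

/-- The decision problem: given `0 < x < y` and `N` in binary, does `x/y` have an Egyptian
fraction representation with largest denominator at most `N`, i.e. is `D(x/y) ≤ N`? -/
def largestDenominator : DecisionProblem where
  Inst := Inst
  Alphabet := Sym
  finite := inferInstance
  enc := encBin
  enc_inj := encBin_inj
  Yes := fun p => minLargest p.1.1 p.1.2.1 ≤ p.1.2.2

/-- The same problem, with `N` written in unary. -/
def largestDenominatorUnary : DecisionProblem where
  Inst := Inst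
  Alphabet := Sym
  finite := inferInstance
  enc := encUn
  enc_inj := encUn_inj
  Yes := fun p => minLargest p.1.1 p.1.2.1 ≤ p.1.2.2

/-- The class P: membership is decided by a polynomial time Turing machine. -/
def InP (P : DecisionProblem) : Prop :=
  ∃ R : P.Inst → Bool, Nonempty (Turing.TM2ComputableInPolyTime P.enc encBool R) ∧
    ∀ a, P.Yes a ↔ R a = true

/-- a pair of numbers: both in binary, separated by a comma -/
def encXY (p : ℕ × ℕ) : List Sym := encBits p.1.bits ++ Sym.comma :: encBits p.2.bits

/-- a number in binary -/
def encNum (n : ℕ) : List Sym := encBits n.bits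

/-- There is a polynomial time algorithm which computes `D(x/y)` for all `0 < x < y`. -/
def PolyTimeD : Prop :=
  Nonempty (Turing.TM2ComputableInPolyTime (fun p : {p : ℕ × ℕ // 0 < p.1 ∧ p.1 < p.2} =>
    encXY p.1) encNum fun p => minLargest p.1.1 p.1.2)

end Pool.Agent.DHD
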