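import Pool.Agent.DHD.TAlg

set_option autoImplicit false

/-!
# RUNTC: the flag of the fold over the copies is set
-/

namespace Pool.Agent.DHD.RUNTC

open Finset
open scoped Classical

lemma mem_prodL {α β : Type} (l : List α) (m : List β) (a : α) (c : β) :
    (a, c) ∈ prodL l m ↔ a ∈ l ∧ c ∈ m := by
  unfold prodL
  simp

lemma mem_rng (b : List Unit) (n : ℕ) : n ∈ rng b ↔ n < b.length := by
  unfold rng; simp

lemma length_filter_rng (b : List Unit) (k : ℕ) :
    ((rng b).filter fun i => decide (i < k)).length ≤ k := by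
  unfold rng
  have h1 : ((List.range b.length).filter fun i => decide (i < k)).Nodup :=
    List.nodup_range.filter _
  have h2 : ((List.range b.length).filter fun i => decide (i < k)).toFinset ⊆ Finset.range k := by
    intro x hx
    simp only [List.mem_toFinset, List.mem_filter, decide_eq_true_eq] at hx
    exact Finset.mem_range.2 hx.2
  have h3 := Finset.card_le_card h2
  rw [List.toFinset_card_of_nodup h1, Finset.card_range] at h3
  exact h3

/-- a good assignment for the next copy exists -/
lemma exists_copy (hC : T_COPY) (hG : T_GADS) (hR : T_RESN) (hP : T_POOLB) (hO : T_OKB)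
    (b : List Unit) (π : LPar) (S : LSys) (Z : ℕ) (hS : S.Ok Z) (hok : okB Z π = true)
    (hN : π.par.N < b.length) (hNT : π.par.NT Z) (U : List ℕ) (hU : U.length ≤ π.par.k * Z) :
    ∃ θ : Th, θ ∈ prodL (rng b) (prodL (rng b) (rng b)) ∧
      copyB b π S Z (poolB b π) U θ = true := by
  have hPar : π.par.Ok := hNT.ok
  have hQ2N : π.par.Q2 ≤ π.par.N := by
    have h1 := hNT.QQ
    nlinarith [Nat.zero_le π.par.Q2]
  obtain ⟨hnd, -, hlm⟩ := hP b π
  obtain ⟨hlen, hmem⟩ := hlm (lt_of_le_of_lt hQ2N hN)
  obtain ⟨-, hkB, -, -, -⟩ := (hO Z π).2 hok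
  have hget : ∀ i (hi : i < (poolB b π).length), (poolB b π).getD i 0 = (poolB b π)[i] :=
    fun i hi => List.getD_eq_getElem _ _ hi
  have he : ∀ i < #(pool π.par), (poolB b π).getD i 0 ∈ pool π.par := by
    intro i hi
    rw [← hlen] at hi
    rw [hget i hi, ← hmem]
    exact List.getElem_mem hi
  have hinj : ∀ i < #(pool π.par), ∀ j < #(pool π.par),
      (poolB b π).getD i 0 = (poolB b π).getD j 0 → i = j := by
    intro i hi j hj hij
    rw [← hlen] at hi hj
    rw [hget i hi, hget j hj] at hij
    exact (List.Nodup.getElem_inj_iff hnd).1 hij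
  have hUc : #U.toFinset ≤ π.par.k * Z := (List.toFinset_card_le U).trans hU
  obtain ⟨a, c, al, hc0, hcQ, haQ, halQ, hx, ht⟩ := hC π.par S.sys Z
    (fun i => (poolB b π).getD i 0) U.toFinset hNT hS.sys he hinj hUc
  have hQN : π.par.Q2 ^ 2 ≤ π.par.N := hNT.QQ
  have hQ2 : π.par.Q2 ≤ π.par.Q2 ^ 2 := Nat.le_self_pow (by norm_num) _
  have hn : S.2.2.length = S.sys.n := hS.len
  refine ⟨(a, c, al), ?_, ?_⟩
  · rw [mem_prodL, mem_prodL, mem_rng, mem_rng, mem_rng]
    exact ⟨by omega, by omega, by omega⟩
  · unfold copyB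
    rw [Bool.and_eq_true, Bool.and_eq_true]
    refine ⟨⟨by simpa using hc0, ?_⟩, ?_⟩
    · rw [List.all_eq_true]
      intro x hxr
      rw [List.mem_range, hn] at hxr
      obtain ⟨h1, h2, h3⟩ := hx x hxr
      rw [Bool.and_eq_true, Bool.and_eq_true]
      refine ⟨⟨?_, ?_⟩, ?_⟩
      · rw [← hlen] at h1
        simpa using h1
      · rw [Bool.not_eq_true', List.any_eq_false]
        intro p hp
        simp only [decide_eq_true_eq]
        intro hpe
        apply h2
        rw [List.mem_toFinset]
        have : (poolB b π).getD (a + c * x) 0 = p := hpe.symm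
        rw [this]
        exact hp
      · simp only [Bool.not_eq_true', decide_eq_false_iff_not]
        intro h4
        exact h3 (Nat.dvd_of_mod_eq_zero h4)
    · rw [List.all_eq_true]
      intro col hcol
      obtain ⟨t, htl, htc⟩ := List.getElem_of_mem hcol
      have htm : t < S.sys.m := htl
      have hD : S.2.1.getD t ((0, 0), (0, 0)) = col := by
        rw [List.getD_eq_getElem _ _ htl, htc]
      have hxt : S.sys.x t = col.1.1 := by show (S.2.1.getD t ((0, 0), (0, 0))).1.1 = _; rw [hD]
      have hyt : S.sys.y t = col.1.2 := by show (S.2.1.getD t ((0, 0), (0, 0))).1.2 = _; rw [hD]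
      have hat : S.sys.a t = col.2.1 := by show (S.2.1.getD t ((0, 0), (0, 0))).2.1 = _; rw [hD]
      have hbt : S.sys.b t = col.2.2 := by show (S.2.1.getD t ((0, 0), (0, 0))).2.2 = _; rw [hD]
      have h5 := ht t htm
      have hxl := hx _ (hS.sys.x_lt t htm)
      have hyl := hx _ (hS.sys.y_lt t htm)
      rw [hxt] at h5 hxl
      rw [hyt] at h5 hyl
      rw [hat, hbt] at h5
      have hpx : ((poolB b π).getD (a + c * col.1.1) 0).Prime := by
        have := he _ hxl.1
        unfold pool at this
        exact (Finset.mem_filter.1 this).2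
      have hpy : ((poolB b π).getD (a + c * col.1.2) 0).Prime := by
        have := he _ hyl.1
        unfold pool at this
        exact (Finset.mem_filter.1 this).2
      have h6 := (hG b π _ _ _ _ _ _ hPar hN hpx hpy (hR col.2.1 al _ hpx.pos)
        (hR col.2.2 al _ hpy.pos)).2
      simp only [decide_eq_true_eq]
      rw [hkB]
      refine le_trans h5 (le_of_eq ?_)
      exact h6.symm

/-- one step keeps the flag -/
lemma step (hC : T_COPY) (hG : T_GADS) (hR : T_RESN) (hP : T_POOLB) (hO : T_OKB)
    (b : List Unit) (π : LPar) (S : LSys) (Z : ℕ) (hS : S.Ok Z) (hok : okB Z π = true)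
    (hN : π.par.N < b.length) (hNT : π.par.NT Z) (s : List ℕ × List Th × Bool)
    (hU : s.1.length ≤ π.par.k * Z) :
    (stepT b π S Z (poolB b π) s).1.length = s.1.length + S.2.2.length ∧
      (stepT b π S Z (poolB b π) s).2.2 = s.2.2 := by
  obtain ⟨θ, hθ, hcp⟩ := exists_copy hC hG hR hP hO b π S Z hS hok hN hNT s.1 hU
  unfold stepT
  have hm : θ ∈ (prodL (rng b) (prodL (rng b) (rng b))).filter
      (copyB b π S Z (poolB b π) s.1) := List.mem_filter.2 ⟨hθ, hcp⟩
  generalize hL : (prodL (rng b) (prodL (rng b) (rng b))).filter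
      (copyB b π S Z (poolB b π) s.1) = L at hm ⊢
  cases L with
  | nil => simp at hm
  | cons θ' L' => simp

lemma fold (hC : T_COPY) (hG : T_GADS) (hR : T_RESN) (hP : T_POOLB) (hO : T_OKB)
    (b : List Unit) (π : LPar) (S : LSys) (Z : ℕ) (hS : S.Ok Z) (hok : okB Z π = true)
    (hN : π.par.N < b.length) (hNT : π.par.NT Z) (l : List ℕ) :
    ∀ (s : List ℕ × List Th × Bool), s.1.length + l.length * Z ≤ π.par.k * Z → s.2.2 = true →
    (l.foldl (fun s _ => stepT b π S Z (poolB b π) s) s).2.2 = true := by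
  induction l with
  | nil => intro s _ hs; simpa using hs
  | cons x l ih =>
    intro s hU hs
    rw [List.foldl_cons]
    rw [List.length_cons, Nat.succ_mul] at hU
    obtain ⟨h1, h2⟩ := step hC hG hR hP hO b π S Z hS hok hN hNT s (by omega)
    have h3 : S.2.2.length ≤ Z := by rw [hS.len]; exact hS.sys.n_le
    apply ih
    · rw [h1]; omega
    · rw [h2]; exact hs

end Pool.Agent.DHD.RUNTC

namespace Pool.Agent.DHD

theorem tRUNTC (hC : T_COPY) (hG : T_GADS) (hR : T_RESN) (hP : T_POOLB) (hO : T_OKB) :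
    T_RUNTC := by
  intro b π S Z hS hok hN hNT
  unfold runT
  apply RUNTC.fold hC hG hR hP hO b π S Z hS hok hN hNT
  · have h1 := RUNTC.length_filter_rng b (kB π)
    obtain ⟨-, hkB, -, -, -⟩ := (hO Z π).2 hok
    rw [hkB] at h1
    simp only [List.length_nil, Nat.zero_add]
    rw [hkB]
    exact Nat.mul_le_mul_right _ h1
  · rfl

end Pool.Agent.DHD
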