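import Pool.Agent.DHD.Defs

set_option autoImplicit false

/-!
# Binary systems, gadgets, and the target fraction
-/

namespace Pool.Agent.DHD

open Finset

/-! ## Binary systems in which every column touches two vertices -/

/-- A system: `n` vertices (equations), `m` columns (binary unknowns); the column `t` touches the
two vertices `x t` and `y t` with the coefficients `a t` and `b t`; the constants are `c v`. -/
structure BSys where
  n : ℕ
  m : ℕ
  x : ℕ → ℕ
  y : ℕ → ℕ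
  a : ℕ → ℤ
  b : ℕ → ℤ
  c : ℕ → ℕ

/-- the coefficient of the column `t` at the vertex `v` -/
def BSys.coef (S : BSys) (t v : ℕ) : ℤ :=
  (if S.x t = v then S.a t else 0) + (if S.y t = v then S.b t else 0)

/-- the system has a binary solution -/
def BSys.Solvable (S : BSys) : Prop :=
  ∃ z : ℕ → Bool, ∀ v < S.n,
    ∑ t ∈ range S.m, (if z t = true then S.coef t v else 0) = (S.c v : ℤ)

/-- the system is well formed, and all its numbers are at most `Z` -/
structure BSys.Ok (S : BSys) (Z : ℕ) : Prop where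
  n_le : S.n ≤ Z
  m_le : S.m ≤ Z
  x_lt : ∀ t < S.m, S.x t < S.n
  y_lt : ∀ t < S.m, S.y t < S.n
  ne : ∀ t < S.m, S.x t ≠ S.y t
  a_ne : ∀ t < S.m, S.a t ≠ 0
  b_ne : ∀ t < S.m, S.b t ≠ 0
  a_le : ∀ t < S.m, |S.a t| ≤ Z
  b_le : ∀ t < S.m, |S.b t| ≤ Z
  c_le : ∀ v < S.n, S.c v ≤ Z

/-! ## Parameters and gadgets -/

/-- The parameters: `N` bounds the denominators, the harmless primes are those up to `M`, the
private primes lie in `(P1, P2]`, the primes of the vertices lie in `(Q1, Q2]`, all main terms lie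
in `[N - N/D, N]`, and `E` is the margin in the condition on links. -/
structure Par where
  M : ℕ
  N : ℕ
  P1 : ℕ
  P2 : ℕ
  Q1 : ℕ
  Q2 : ℕ
  D : ℕ
  E : ℕ

/-- the inequalities between the parameters -/
structure Par.Ok (π : Par) : Prop where
  M_pos : 2 ≤ π.M
  M_lt : π.M < π.Q1
  Q_le : π.Q2 ≤ π.P1
  D_pos : 2 ≤ π.D
  MM : π.M * π.M ≤ π.N
  cube : π.N < π.P1 ^ 3
  link : π.N < π.Q1 * π.P1 ^ 2
  six : π.N < π.Q1 ^ 6
  marg : (π.P2 - π.P1) * π.N < π.E * π.P1 ^ 2

/-- `u` is a positive integer, all prime factors of which are at most `M` -/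
def Smooth (M u : ℕ) : Prop := 0 < u ∧ ∀ p, p.Prime → p ∣ u → p ≤ M

/-- `P, u, v` is a gadget for a column whose vertices have the primes `l`, `l'`; `r`, `r'` are the
residues which it contributes there. -/
structure Gad (π : Par) (l l' : ℕ) (r r' : ℤ) (P u v : ℕ) : Prop where
  prime : P.Prime
  P1 : π.P1 < P
  P2 : P ≤ π.P2
  su : Smooth π.M u
  sv : Smooth π.M v
  lt : l * l' * u < v
  dvd : P ∣ v - l * l' * u
  lo : π.N * (π.D - 1) ≤ π.D * (P * (l * l' * u))
  hi : P * v ≤ π.N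
  small : π.M * (u * v) ≤ π.N
  res : (l : ℤ) ∣ r * (P * u * l') - 1
  res' : (l' : ℤ) ∣ r' * (P * u * l) - 1
  c0 : π.E ≤ l * l' * u % P ∧ l * l' * u % P + π.E ≤ P
  c1 : ∀ j, P * j ≤ π.N → j % P = v % P → ∀ p, p.Prime → π.Q1 < p → p ≤ π.Q2 → p ∣ j →
    j = l * l' * u

/-! ## Valid data -/

/-- The data for `k` copies of the system `S`: the vertex `x` of the copy `i` has the prime
`l i x`, the copy `i` has the multiplier `al i`, the column `t` of the copy `i` has the gadget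
`P i t, u i t, v i t`. -/
structure Valid (π : Par) (S : BSys) (k : ℕ) (l : ℕ → ℕ → ℕ) (al : ℕ → ℕ)
    (P u v : ℕ → ℕ → ℕ) : Prop where
  l_prime : ∀ i < k, ∀ x < S.n, (l i x).Prime ∧ π.Q1 < l i x ∧ l i x ≤ π.Q2
  l_inj : ∀ i < k, ∀ x < S.n, ∀ i' < k, ∀ x' < S.n, l i x = l i' x' → i = i' ∧ x = x'
  al_ne : ∀ i < k, ∀ x < S.n, ¬ l i x ∣ al i
  gad : ∀ i < k, ∀ t < S.m, Gad π (l i (S.x t)) (l i (S.y t)) (S.a t * al i) (S.b t * al i)
    (P i t) (u i t) (v i t)
  P_inj : ∀ i < k, ∀ t < S.m, ∀ i' < k, ∀ t' < S.m, P i t = P i' t' → i = i' ∧ t = t'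

/-- the number of units `1/N` which the clearing of the harmless primes can cost -/
def Par.K1 (π : Par) : ℕ := 32 * (π.M * (Nat.log 2 π.N + 1))

/-- the lower target, in units `1/N`, if there are `s` gadgets -/
def Par.T (π : Par) (s : ℕ) : ℕ := s + (s / (π.D - 1) + 1) + π.K1

/-- the power of two with `N/2 < pw ≤ N` -/
def Par.pw (π : Par) : ℕ := 2 ^ Nat.log 2 π.N

/-- the rounded lower target, in units `1/pw` -/
def Par.B (π : Par) (s : ℕ) : ℕ := π.T s * π.pw / π.N + 1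

/-- the sum of the given fractions -/
def fsum (S : BSys) (k : ℕ) (l : ℕ → ℕ → ℕ) (al : ℕ → ℕ) (P v : ℕ → ℕ → ℕ) : ℚ :=
  ∑ i ∈ range k, ((∑ t ∈ range S.m, (1 : ℚ) / (P i t * v i t)) +
    ∑ x ∈ range S.n, (S.c x * al i : ℚ) / l i x)

/-- The target: the given fractions modulo `1/pw`, plus `B/pw`. -/
def target (π : Par) (S : BSys) (k : ℕ) (l : ℕ → ℕ → ℕ) (al : ℕ → ℕ) (P v : ℕ → ℕ → ℕ) : ℚ :=
  (Int.fract (fsum S k l al P v * π.pw) + π.B (k * S.m)) / π.pw

/-- the number of copies is large enough: a representation has at most `s + K` terms, with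
`K = s/(D-1) + K1 + 5`, and `15 K < k` -/
def Par.Big (π : Par) (S : BSys) (k : ℕ) : Prop :=
  15 * (k * S.m / (π.D - 1) + π.K1 + 5) < k ∧ π.T (k * S.m) + 4 ≤ π.N

end Pool.Agent.DHD
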