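import Pool.Agent.DHD.Sys

set_option autoImplicit false

/-!
# Targets, part 1: soundness of the reduction (proofs: Blueprint.lean.txt)
-/

namespace Pool.Agent.DHD

open Finset
open Pool.Agent.H44 (IsRep minLargest)

/-- `q` is integral at `p` -/
def IntAt (p : ℕ) (q : ℚ) : Prop := ¬ p ∣ q.den

/-- INT: rules for integrality at a prime -/
def T_INT : Prop := ∀ p : ℕ, p.Prime →
  (∀ q r : ℚ, IntAt p q → IntAt p r → IntAt p (q + r)) ∧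
  (∀ q r : ℚ, IntAt p q → IntAt p r → IntAt p (q - r)) ∧
  (∀ q r : ℚ, IntAt p q → IntAt p r → IntAt p (q * r)) ∧
  (∀ (s : Finset ℕ) (f : ℕ → ℚ), (∀ n ∈ s, IntAt p (f n)) → IntAt p (∑ n ∈ s, f n)) ∧
  (∀ z : ℤ, IntAt p z) ∧
  (∀ n : ℕ, ¬ p ∣ n → IntAt p ((1 : ℚ) / n)) ∧
  (∀ (z : ℤ) (n : ℕ), ¬ p ∣ n → (IntAt p ((z : ℚ) / (p * n)) ↔ (p : ℤ) ∣ z))

/-- RES: every residue is a sum of at most two different inverses from `[p/8, p)` -/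
def T_RES : Prop := ∀ (p : ℕ) [Fact p.Prime], 3 ≤ p → ∀ r : ZMod p, ∃ s : Finset ℕ,
  (∀ g ∈ s, p ≤ 8 * g ∧ g < p) ∧ s.card ≤ 2 ∧ ∑ g ∈ s, ((g : ZMod p))⁻¹ = r

/-- CLEAR: harmless rationals which are not too small are sums of different harmless unit
fractions -/
def T_CLEAR : Prop := ∀ (M N : ℕ) (R : ℚ), 2 ≤ M → M * M ≤ N →
  (32 * (M * (Nat.log 2 N + 1)) : ℚ) / N ≤ R → R < 1 →
  (∀ p, p.Prime → p ∣ R.den → p ≤ M) →
  (∀ p, p.Prime → p ∣ R.den → p ≠ 2 → p ^ (R.den.factorization p) * p ≤ N) →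
  2 ^ (R.den.factorization 2) ≤ N →
  ∃ s : Finset ℕ, (∀ n ∈ s, Smooth M n ∧ n ≤ N) ∧ ∑ n ∈ s, (1 : ℚ) / n = R

/-- GADQ: the difference of the two options of a gadget -/
def T_GADQ : Prop := ∀ (π : Par) (l l' : ℕ) (r r' : ℤ) (P u v : ℕ), π.Ok → l.Prime → l'.Prime →
  l ≠ l' → π.Q1 < l → l ≤ π.Q2 → π.Q1 < l' → l' ≤ π.Q2 → Gad π l l' r r' P u v →
  ∃ w : ℤ, (1 : ℚ) / (P * (l * l' * u) : ℕ) - 1 / (P * v : ℕ) =
    r / l + r' / l' + w / (u * v : ℕ)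

/-- YES: a solution of the system gives a representation -/
def T_YES : Prop := ∀ (π : Par) (S : BSys) (Z k : ℕ) (l : ℕ → ℕ → ℕ) (al : ℕ → ℕ)
  (P u v : ℕ → ℕ → ℕ), π.Ok → S.Ok Z → Valid π S k l al P u v → π.Big S k → 0 < k →
  S.Solvable → ∃ s : Finset ℕ, IsRep s (target π S k l al P v) ∧ ∀ n ∈ s, n ≤ π.N

/-- CHARGE: the counting argument.  `s` are the terms, `T` the gadgets, `R n t` says that the
private prime of `t` divides `n`. -/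
def T_CHARGE : Prop := ∀ (s : Finset ℕ) (T : Finset (ℕ × ℕ)) (R : ℕ → ℕ × ℕ → Bool) (K : ℕ),
  (∀ n ∈ s, #{t ∈ T | R n t = true} ≤ 2) →
  (∀ t ∈ T, 2 ≤ 2 * #{n ∈ s | R n t = true ∧ #{t' ∈ T | R n t' = true} = 1} +
    #{n ∈ s | R n t = true ∧ #{t' ∈ T | R n t' = true} = 2}) →
  #s ≤ #T + K →
  #{n ∈ s | #{t' ∈ T | R n t' = true} = 0 ∨ (#{t' ∈ T | R n t' = true} = 1 ∧
    ∃ t ∈ T, R n t = true ∧ 3 ≤ 2 * #{n' ∈ s | R n' t = true ∧ #{t' ∈ T | R n' t' = true} = 1} +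
    #{n' ∈ s | R n' t = true ∧ #{t' ∈ T | R n' t' = true} = 2})} ≤ 3 * K

/-- LOC: the local conditions satisfied by the target -/
def T_LOC : Prop := ∀ (π : Par) (S : BSys) (Z k : ℕ) (l : ℕ → ℕ → ℕ) (al : ℕ → ℕ)
  (P u v : ℕ → ℕ → ℕ), π.Ok → S.Ok Z → Valid π S k l al P u v →
  (∀ i < k, ∀ t < S.m, IntAt (P i t) (target π S k l al P v - 1 / (P i t * v i t : ℕ))) ∧
  (∀ i < k, ∀ x < S.n, IntAt (l i x) (target π S k l al P v - (S.c x * al i : ℕ) / l i x)) ∧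
  target π S k l al P v * π.N < π.T (k * S.m) + 4 ∧
  (π.T (k * S.m) : ℚ) ≤ target π S k l al P v * π.N

/-- CLEAN: in a representation, some copy of the system is touched by proper terms only -/
def T_CLEAN : Prop := ∀ (π : Par) (S : BSys) (Z k : ℕ) (l : ℕ → ℕ → ℕ) (al : ℕ → ℕ)
  (P u v : ℕ → ℕ → ℕ) (s : Finset ℕ), π.Ok → S.Ok Z → Valid π S k l al P u v → π.Big S k →
  IsRep s (target π S k l al P v) → (∀ n ∈ s, n ≤ π.N) →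
  ∃ i < k, ∀ x < S.n, ∀ n ∈ s, l i x ∣ n → ∃ i' < k, ∃ t < S.m,
    n = P i' t * (l i' (S.x t) * l i' (S.y t) * u i' t)

/-- NO: a representation gives a solution of the system -/
def T_NO : Prop := ∀ (π : Par) (S : BSys) (Z k : ℕ) (l : ℕ → ℕ → ℕ) (al : ℕ → ℕ)
  (P u v : ℕ → ℕ → ℕ) (s : Finset ℕ), π.Ok → S.Ok Z → Z * Z + Z < π.Q1 →
  Valid π S k l al P u v → π.Big S k →
  IsRep s (target π S k l al P v) → (∀ n ∈ s, n ≤ π.N) → S.Solvable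

/-- SOUND: the reduction is correct -/
def T_SOUND : Prop := ∀ (π : Par) (S : BSys) (Z k : ℕ) (l : ℕ → ℕ → ℕ) (al : ℕ → ℕ)
  (P u v : ℕ → ℕ → ℕ) (x y : ℕ), π.Ok → S.Ok Z → Z * Z + Z < π.Q1 →
  Valid π S k l al P u v → π.Big S k → 0 < k → 0 < y →
  (x : ℚ) / y = target π S k l al P v →
  0 < x ∧ x < y ∧ (minLargest x y ≤ π.N ↔ S.Solvable)

end Pool.Agent.DHD
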