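import Pool.Agent.DHD.Algo
import Pool.Agent.DHD.TSound
import Pool.Agent.SLN.Print

set_option autoImplicit false

/-!
# Targets, part 4: the algorithm (proofs: Blueprint.lean.txt)
-/

namespace Pool.Agent.DHD

open Finset
open Pool.Agent.PT (PolyF Dat)
open Pool.Agent.SLN (Lit Satisfiable Sym encBits)
open Pool.Agent.H44 (IsRep minLargest)

/-! ## Polynomial time -/

/-- ARITH: arithmetic operations on polynomial time functions -/
def T_ARITH : Prop := ∀ (γ : Type) [Dat γ] (f g : γ → ℕ), PolyF f → PolyF g →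
  PolyF (fun x => f x * g x) ∧ PolyF (fun x => f x - g x) ∧ PolyF (fun x => f x / g x) ∧
  PolyF (fun x => f x % g x)

/-- PTG: lists of gadgets -/
def T_PTG : Prop :=
  PolyF (fun x : List Unit × ℕ => primeB x.1 x.2) ∧
  PolyF (fun x : List Unit × LPar × (ℕ × ℕ) × (ℕ × ℕ) × ℕ =>
    gadsP x.1 x.2.1 x.2.2.1.1 x.2.2.1.2 x.2.2.2.1.1 x.2.2.2.1.2 x.2.2.2.2) ∧
  PolyF (fun x : List Unit × LPar × (ℕ × ℕ) × (ℕ × ℕ) =>
    cntB x.1 x.2.1 x.2.2.1.1 x.2.2.1.2 x.2.2.2.1 x.2.2.2.2) ∧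
  PolyF (fun x : ℤ × ℕ × ℕ => resN x.1 x.2.1 x.2.2)

/-- PTT: the assignments -/
def T_PTT : Prop := PolyF (fun x : List Unit × LPar × LSys × ℕ => runT x.1 x.2.1 x.2.2.1 x.2.2.2)

/-- PTR: the gadgets of all columns -/
def T_PTR : Prop := PolyF (fun x : List Unit × LPar × LSys × List Th =>
  runG x.1 x.2.1 x.2.2.1 x.2.2.2)

/-- PTO: the output -/
def T_PTO : Prop := PolyF (fun x : List Unit × LSys × ℕ × LPar =>
    outB x.1 x.2.1 x.2.2.1 x.2.2.2) ∧
  PolyF (fun x : List Unit × LSys × ℕ × LPar => goodB x.1 x.2.1 x.2.2.1 x.2.2.2)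

/-- PTALG: the whole algorithm -/
def T_PTALG : Prop := ∀ C Z₀ : ℕ, PolyF (algo C Z₀) ∧
  PolyF (fun φ : List (List Lit) => printBin (algo C Z₀ φ)) ∧
  PolyF (fun φ : List (List Lit) => printUn (pwL (zL Z₀ φ) C) (algo C Z₀ φ))

/-! ## Correctness of the Boolean functions -/

/-- RESN -/
def T_RESN : Prop := ∀ (a : ℤ) (α l : ℕ), 0 < l → (resN a α l : ℤ) = (a * α) % l

/-- GADB: the Boolean test is correct -/
def T_GADB : Prop := ∀ (b : List Unit) (π : LPar) (l l' r r' : ℕ) (a a' : ℤ) (P u v : ℕ),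
  π.par.Ok → π.par.N < b.length → l.Prime → l'.Prime → (r : ℤ) = a % l → (r' : ℤ) = a' % l' →
  P < b.length → u < b.length → v < b.length →
  (gadB b π l l' r r' P u v (l * l' * u) = true ↔ Gad π.par l l' a a' P u v)

/-- GADS: the list of gadgets is correct, and so is the number of private primes -/
def T_GADS : Prop := ∀ (b : List Unit) (π : LPar) (l l' r r' : ℕ) (a a' : ℤ),
  π.par.Ok → π.par.N < b.length → l.Prime → l'.Prime → (r : ℤ) = a % l → (r' : ℤ) = a' % l' →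
  (∀ P < b.length, ∀ g, g ∈ gadsP b π l l' r r' P ↔
    (g.1 = P ∧ Gad π.par l l' a a' P g.2.1 g.2.2)) ∧
  cntB b π l l' r r' = cnt π.par l l' a a'

/-- POOLB: the list of the primes of the vertices -/
def T_POOLB : Prop := ∀ (b : List Unit) (π : LPar), (poolB b π).Nodup ∧
  (∀ p ∈ poolB b π, p ∈ pool π.par) ∧ (π.par.Q2 < b.length →
    (poolB b π).length = #(pool π.par) ∧ ∀ p, p ∈ poolB b π ↔ p ∈ pool π.par)

/-- OKB: the inequalities between the parameters -/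
def T_OKB : Prop := ∀ (Z : ℕ) (π : LPar), (okB Z π = true ↔
    (π.par.Ok ∧ 100 ≤ Z ∧ Z * Z + Z < π.par.Q1 ∧ π.par.D = Z ^ 2 ∧
      3 * (π.par.k * Z) + π.par.K1 + 10 ≤ π.par.N)) ∧
  (okB Z π = true → K1B π = π.par.K1 ∧ kB π = π.par.k ∧ pwB π = π.par.pw ∧
    (∀ s, TB π s = π.par.T s) ∧ ∀ S : BSys, S.m ≤ Z → π.par.Big S π.par.k)

/-! ## The two runs -/

/-- well formed data -/
structure LSys.Ok (S : LSys) (Z : ℕ) : Prop where
  sys : S.sys.Ok Z
  len : S.2.2.length = S.1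

/-- the assignments are good -/
structure ThOk (b : List Unit) (π : LPar) (S : LSys) (Z : ℕ) (θs : List Th) : Prop where
  len : θs.length = kB π
  pos : ∀ θ ∈ θs, ∀ x < S.1, θ.1 + θ.2.1 * x < (poolB b π).length
  ndv : ∀ θ ∈ θs, ∀ x < S.1, ¬ ellB (poolB b π) θ x ∣ θ.2.2
  cnt : ∀ θ ∈ θs, ∀ t < S.sys.m, kB π * Z ≤ cnt π.par (ellB (poolB b π) θ (S.sys.x t))
    (ellB (poolB b π) θ (S.sys.y t)) (S.sys.a t * θ.2.2) (S.sys.b t * θ.2.2)
  inj : ∀ i < θs.length, ∀ x < S.1, ∀ i' < θs.length, ∀ x' < S.1,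
    ellB (poolB b π) (θs.getD i (0, 0, 0)) x = ellB (poolB b π) (θs.getD i' (0, 0, 0)) x' →
    i = i' ∧ x = x'

/-- RUNTS: if the flag is set then the assignments are good -/
def T_RUNTS : Prop := ∀ (b : List Unit) (π : LPar) (S : LSys) (Z : ℕ), S.Ok Z →
  okB Z π = true → π.par.N < b.length → (runT b π S Z).2.2 = true →
  ThOk b π S Z (runT b π S Z).2.1

/-- RUNTC: for the parameters of the number theoretic theorem the flag is set -/
def T_RUNTC : Prop := ∀ (b : List Unit) (π : LPar) (S : LSys) (Z : ℕ), S.Ok Z →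
  okB Z π = true → π.par.N < b.length → π.par.NT Z → (runT b π S Z).2.2 = true

/-- the gadgets are good; `m` is the number of columns -/
structure GsOk (b : List Unit) (π : LPar) (S : LSys) (θs : List Th)
    (gs : List (ℕ × ℕ × ℕ)) : Prop where
  len : gs.length = θs.length * S.sys.m
  gad : ∀ i < θs.length, ∀ t < S.sys.m, Gad π.par
    (ellB (poolB b π) (θs.getD i (0, 0, 0)) (S.sys.x t))
    (ellB (poolB b π) (θs.getD i (0, 0, 0)) (S.sys.y t))
    (S.sys.a t * (θs.getD i (0, 0, 0)).2.2) (S.sys.b t * (θs.getD i (0, 0, 0)).2.2)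
    (gs.getD (i * S.sys.m + t) (0, 0, 0)).1 (gs.getD (i * S.sys.m + t) (0, 0, 0)).2.1
    (gs.getD (i * S.sys.m + t) (0, 0, 0)).2.2
  inj : ∀ i < gs.length, ∀ j < gs.length,
    (gs.getD i (0, 0, 0)).1 = (gs.getD j (0, 0, 0)).1 → i = j

/-- RUNG: good assignments have gadgets -/
def T_RUNG : Prop := ∀ (b : List Unit) (π : LPar) (S : LSys) (Z : ℕ) (θs : List Th), S.Ok Z →
  okB Z π = true → π.par.N < b.length → ThOk b π S Z θs →
  (runG b π S θs).2.2 = true ∧ GsOk b π S θs (runG b π S θs).2.1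

/-- OUT: the output is the target -/
def T_OUT : Prop := ∀ (b : List Unit) (π : LPar) (S : LSys) (Z : ℕ), S.Ok Z →
  okB Z π = true → π.par.N < b.length →
  ThOk b π S Z (runT b π S Z).2.1 →
  GsOk b π S (runT b π S Z).2.1 (runG b π S (runT b π S Z).2.1).2.1 →
  0 < (outB b S Z π).2.1 ∧ (outB b S Z π).2.2 = π.par.N ∧
  ((outB b S Z π).1 : ℚ) / (outB b S Z π).2.1 = target π.par S.sys π.par.k
    (fun i x => ellB (poolB b π) ((runT b π S Z).2.1.getD i (0, 0, 0)) x)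
    (fun i => ((runT b π S Z).2.1.getD i (0, 0, 0)).2.2)
    (fun i t => ((runG b π S (runT b π S Z).2.1).2.1.getD (i * S.sys.m + t) (0, 0, 0)).1)
    (fun i t => ((runG b π S (runT b π S Z).2.1).2.1.getD (i * S.sys.m + t) (0, 0, 0)).2.2)

/-- GOODB: if the parameters work then the output is correct -/
def T_GOODB : Prop := ∀ (b : List Unit) (π : LPar) (S : LSys) (Z : ℕ), S.Ok Z →
  π.par.N < b.length → goodB b S Z π = true →
  0 < (outB b S Z π).1 ∧ (outB b S Z π).1 < (outB b S Z π).2.1 ∧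
  (minLargest (outB b S Z π).1 (outB b S Z π).2.1 ≤ (outB b S Z π).2.2 ↔ S.sys.Solvable)

/-- ALGF: the algorithm is correct for suitable constants -/
def T_ALGF : Prop := ∃ C Z₀ : ℕ, ∀ φ : List (List Lit),
  0 < (algo C Z₀ φ).1 ∧ (algo C Z₀ φ).1 < (algo C Z₀ φ).2.1 ∧
  (algo C Z₀ φ).2.2 < (pwL (zL Z₀ φ) C).length ∧
  (minLargest (algo C Z₀ φ).1 (algo C Z₀ φ).2.1 ≤ (algo C Z₀ φ).2.2 ↔ Satisfiable φ)

end Pool.Agent.DHD
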