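import Pool.Agent.DHD.Sys
import Pool.Agent.PT.Gen

set_option autoImplicit false

/-!
# Targets, part 2: from formulas in conjunctive normal form to binary systems
-/

namespace Pool.Agent.DHD

open Finset
open Pool.Agent.PT (PolyF Dat)
open Pool.Agent.SLN (Lit Satisfiable)

/-- A column as data: the two vertices and the two coefficients. -/
abbrev Col : Type := (ℕ × ℕ) × (ℤ × ℤ)

/-- A system as data: the number of vertices, the columns, the constants of the vertices. -/
abbrev LSys : Type := ℕ × List Col × List ℕ

/-- the abstract system of a system given as data -/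
def LSys.sys (s : LSys) : BSys where
  n := s.1
  m := s.2.1.length
  x := fun t => (s.2.1.getD t ((0, 0), (0, 0))).1.1
  y := fun t => (s.2.1.getD t ((0, 0), (0, 0))).1.2
  a := fun t => (s.2.1.getD t ((0, 0), (0, 0))).2.1
  b := fun t => (s.2.1.getD t ((0, 0), (0, 0))).2.2
  c := fun v => s.2.2.getD v 0

/-- all occurrences of literals: the number of the clause and the literal -/
def occs (φ : List (List Lit)) : List (ℕ × Lit) :=
  ((List.range φ.length).zip φ).flatMap fun p => p.2.map fun l => (p.1, l)

/-- the number of the first occurrence of the variable with the name `w` -/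
def vidx (φ : List (List Lit)) (w : List Bool) : ℕ :=
  (occs φ).findIdx fun o => decide (o.2.2 = w)

/-- the number of occurrences of the variable with the name `w` -/
def vcnt (φ : List (List Lit)) (w : List Bool) : ℕ :=
  (occs φ).countP fun o => decide (o.2.2 = w)

/-- the columns: two for each occurrence of a literal, one for each variable (listed for its first
occurrence), and `k - 1` slack columns for each clause with `k` literals.  With `K` occurrences and
`L` clauses, the vertices are `0, ..., K-1` (variables), `K, ..., 2K-1` (mirror images),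
`2K, ..., 2K+L-1` (clauses), `2K+L, ..., 2K+2L-1` (mirror images). -/
def colsOf (φ : List (List Lit)) : List Col :=
  (occs φ).flatMap (fun o =>
    [((vidx φ o.2.2, 2 * (occs φ).length + o.1), ((1 : ℤ), if o.2.1 then (1 : ℤ) else -1)),
     (((occs φ).length + vidx φ o.2.2, 2 * (occs φ).length + φ.length + o.1),
      ((1 : ℤ), if o.2.1 then (1 : ℤ) else -1))]) ++
  ((List.range (occs φ).length).zip (occs φ)).flatMap (fun p =>
    if vidx φ p.2.2.2 = p.1 then
      [((p.1, (occs φ).length + p.1), (-(vcnt φ p.2.2.2 : ℤ), -(vcnt φ p.2.2.2 : ℤ)))]
    else []) ++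
  ((List.range φ.length).zip φ).flatMap fun p => (p.2.drop 1).map fun _ =>
    ((2 * (occs φ).length + p.1, 2 * (occs φ).length + φ.length + p.1), ((1 : ℤ), (1 : ℤ)))

/-- the constant of a clause: `max (k, 1)` minus the number of negative literals -/
def cstOf (c : List Lit) : ℕ := max c.length 1 - c.countP fun l => !l.1

/-- the system of a formula -/
def sysOf (φ : List (List Lit)) : LSys :=
  (2 * (occs φ).length + 2 * φ.length, colsOf φ,
    (occs φ).map (fun _ => 0) ++ (occs φ).map (fun _ => 0) ++ φ.map cstOf ++ φ.map cstOf)

/-- a list whose length bounds all numbers of the system -/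
def szOf (φ : List (List Lit)) : List Unit :=
  (φ.map fun _ => ()) ++ (φ.map fun _ => ()) ++
    (φ.flatMap fun c => [(), ()] ++ c.flatMap fun _ => [(), (), (), (), ()])

/-- CNF: the system is solvable if and only if the formula is satisfiable -/
def T_CNF : Prop := ∀ φ : List (List Lit), Satisfiable φ ↔ (sysOf φ).sys.Solvable

/-- CNFOK: the system is well formed -/
def T_CNFOK : Prop := ∀ (φ : List (List Lit)) (Z : ℕ), (szOf φ).length ≤ Z →
  (sysOf φ).sys.Ok Z

/-- CNFPT: the system and the bound are computed in polynomial time -/
def T_CNFPT : Prop := PolyF sysOf ∧ PolyF szOf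

end Pool.Agent.DHD
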