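import Pool.Agent.DHD.TAlg
import Pool.Agent.DHD.Problems
import Pool.Agent.CookLevin.All

set_option autoImplicit false

/-!
# Targets, part 5: the complexity statements (proofs: Blueprint.lean.txt)
-/

namespace Pool.Agent.DHD

open Pool.Agent.PAH (DecisionProblem)
open Pool.Agent.SLN (Sym encBits)
open Pool.Agent.PT (Dat PolyF)
open Pool.Agent.CookLevin (InNP NPHard)

/-- SIMF: functions computed by Mathlib's polynomial time machines are polynomial time functions
on strings -/
def T_SIMF : Prop := ∀ {α β αΓ βΓ : Type} [Finite αΓ] [Finite βΓ] [Dat αΓ] [Dat βΓ]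
  (ea : α → List αΓ) (eb : β → List βΓ) (f : α → β),
  Nonempty (Turing.TM2ComputableInPolyTime ea eb f) →
  ∃ F : List αΓ → List βΓ, PolyF F ∧ ∀ a, F (ea a) = eb (f a)

/-- HARDB: NP-hardness of both versions -/
def T_HARDB : Prop := NPHard largestDenominator ∧ NPHard largestDenominatorUnary

/-- NPU: the unary version is in NP -/
def T_NPU : Prop := InNP largestDenominatorUnary

/-- DP: a polynomial time algorithm for `D` gives P = NP -/
def T_DP : Prop := PolyTimeD → ∀ P : DecisionProblem, InNP P → InP P

end Pool.Agent.DHD
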